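import Mathlib

/-! Basic tools for products of conjugacy classes in classical groups:
rank one operators, the second coefficient `c2`, the predicate `Bad`. -/

set_option autoImplicit false
set_option linter.unusedSectionVars false

namespace Pool.Agent.MP_db74b1_al
open Module

variable {F V : Type} [Field F] [AddCommGroup V] [Module F V]

/-- The rank one operator `x ↦ φ x • p`. -/
def rk (p : V) (φ : V →ₗ[F] F) : End F V := φ.smulRight p

@[simp] lemma rk_apply (p x : V) (φ : V →ₗ[F] F) : rk p φ x = φ x • p := rfl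

lemma mul_rk (f : End F V) (p : V) (φ : V →ₗ[F] F) : f * rk p φ = rk (f p) φ := by
  ext x; simp

lemma rk_mul (f : End F V) (p : V) (φ : V →ₗ[F] F) : rk p φ * f = rk p (φ ∘ₗ f) := by
  ext x; simp

/-- trace -/
noncomputable def tr : End F V →ₗ[F] F := LinearMap.trace F V

lemma tr_rk [FiniteDimensional F V] (p : V) (φ : V →ₗ[F] F) :
    tr (rk p φ) = φ p := LinearMap.trace_smulRight φ p

lemma tr_comm [FiniteDimensional F V] (f g : End F V) : tr (f * g) = tr (g * f) :=
  LinearMap.trace_mul_comm F f g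

/-- `op B p y` is `x ↦ B x y • p`. -/
def op {σ : F →+* F} (B : V →ₗ[F] V →ₛₗ[σ] F) (p y : V) : End F V := rk p (B.flip y)

@[simp] lemma op_apply {σ : F →+* F} (B : V →ₗ[F] V →ₛₗ[σ] F) (p y x : V) :
    op B p y x = B x y • p := rfl

section c2
variable [FiniteDimensional F V]

/-- matrix of an endomorphism -/
noncomputable def mat (f : End F V) : Matrix (Fin (finrank F V)) (Fin (finrank F V)) F :=
  LinearMap.toMatrix (finBasis F V) (finBasis F V) f

lemma mat_add (f g : End F V) : mat (f + g) = mat f + mat g := by simp [mat]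
lemma mat_smul (c : F) (f : End F V) : mat (c • f) = c • mat f := by simp [mat]
lemma mat_mul (f g : End F V) : mat (f * g) = mat f * mat g := by
  simp [mat, LinearMap.toMatrix_mul]
lemma tr_mat (f : End F V) : tr f = ∑ i, mat f i i := by
  simp only [tr, mat, LinearMap.trace_eq_matrix_trace F (finBasis F V), Matrix.trace, Matrix.diag]

/-- bilinear form whose diagonal is the second coefficient of the characteristic polynomial -/
noncomputable def c2b (f g : End F V) : F :=
  ∑ i, ∑ j, if i < j then mat f i i * mat g j j - mat f i j * mat g j i else 0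

/-- trace on the exterior square -/
noncomputable def c2 (f : End F V) : F := c2b f f

/-- polar form of `c2` -/
noncomputable def pp (f g : End F V) : F := tr f * tr g - tr (f * g)

lemma c2b_add_left (f f' g : End F V) : c2b (f + f') g = c2b f g + c2b f' g := by
  simp only [c2b, mat_add, Matrix.add_apply, ← Finset.sum_add_distrib]
  refine Finset.sum_congr rfl fun i _ => Finset.sum_congr rfl fun j _ => ?_
  split_ifs <;> ring

lemma c2b_add_right (f g g' : End F V) : c2b f (g + g') = c2b f g + c2b f g' := by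
  simp only [c2b, mat_add, Matrix.add_apply, ← Finset.sum_add_distrib]
  refine Finset.sum_congr rfl fun i _ => Finset.sum_congr rfl fun j _ => ?_
  split_ifs <;> ring

lemma c2b_smul (c d : F) (f g : End F V) : c2b (c • f) (d • g) = c * d * c2b f g := by
  simp only [c2b, mat_smul, Matrix.smul_apply, smul_eq_mul, Finset.mul_sum]
  refine Finset.sum_congr rfl fun i _ => Finset.sum_congr rfl fun j _ => ?_
  split_ifs <;> ring

lemma c2b_symm (f g : End F V) : c2b f g + c2b g f = pp f g := by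
  have h1 : c2b g f = ∑ i, ∑ j,
      if j < i then mat f i i * mat g j j - mat f i j * mat g j i else 0 := by
    unfold c2b
    rw [Finset.sum_comm]
    refine Finset.sum_congr rfl fun i _ => Finset.sum_congr rfl fun j _ => ?_
    split_ifs <;> ring
  rw [h1, pp, tr_mat, tr_mat, tr_mat, mat_mul, Finset.sum_mul_sum]
  simp only [c2b, Matrix.mul_apply, ← Finset.sum_add_distrib, ← Finset.sum_sub_distrib]
  refine Finset.sum_congr rfl fun i _ => Finset.sum_congr rfl fun j _ => ?_
  rcases lt_trichotomy i j with h | h | h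
  · simp [h, not_lt.mpr h.le]
  · subst h; simp
  · simp [h, not_lt.mpr h.le]

lemma c2_add (f g : End F V) : c2 (f + g) = c2 f + c2 g + pp f g := by
  simp only [c2, c2b_add_left, c2b_add_right, ← c2b_symm]; ring

lemma c2_smul (c : F) (f : End F V) : c2 (c • f) = c ^ 2 * c2 f := by
  simp only [c2, c2b_smul]; ring

lemma c2_neg (f : End F V) : c2 (-f) = c2 f := by
  have := c2_smul (-1 : F) f
  simpa using this

lemma pp_neg_right (f g : End F V) : pp f (-g) = - pp f g := by
  simp [pp]; ring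

lemma c2_sub (f g : End F V) : c2 (f - g) = c2 f + c2 g - pp f g := by
  rw [sub_eq_add_neg, c2_add, c2_neg, pp_neg_right]; ring

lemma c2_rk (p : V) (φ : V →ₗ[F] F) : c2 (rk p φ) = 0 := by
  unfold c2 c2b
  refine Finset.sum_eq_zero fun i _ => Finset.sum_eq_zero fun j _ => ?_
  split_ifs
  · simp [mat, LinearMap.toMatrix_apply]; ring
  · rfl

lemma c2_zero : c2 (0 : End F V) = 0 := by
  have := c2_smul (0 : F) (0 : End F V)
  simpa using this

lemma sum_rk (f : End F V) :
    f = ∑ i, rk (f (finBasis F V i)) ((finBasis F V).coord i) := by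
  ext x
  conv_lhs => rw [← (finBasis F V).sum_repr x, map_sum]
  simp [LinearMap.sum_apply]

lemma c2_comm (f g : End F V) : c2 (f * g) = c2 (g * f) := by
  have key : ∀ s : Finset (Fin (finrank F V)), ∀ p : Fin (finrank F V) → V,
      ∀ φ : Fin (finrank F V) → V →ₗ[F] F,
      c2 ((∑ i ∈ s, rk (p i) (φ i)) * g) = c2 (g * ∑ i ∈ s, rk (p i) (φ i)) := by
    intro s p φ
    induction s using Finset.induction_on with
    | empty => simp
    | insert i s hi ih =>
      rw [Finset.sum_insert hi, add_mul, mul_add, c2_add, c2_add, ih, rk_mul, mul_rk, c2_rk, c2_rk,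
        ← rk_mul, ← mul_rk]
      congr 1
      unfold pp
      rw [tr_comm (rk (p i) (φ i)) g, tr_comm (∑ i ∈ s, rk (p i) (φ i)) g]
      congr 1
      rw [← mul_assoc, tr_comm _ g]
      simp only [mul_assoc]
  rw [sum_rk f]
  exact key _ _ _

lemma c2_conj (k : (End F V)ˣ) (e : End F V) : c2 (k.val * e * k⁻¹.val) = c2 e := by
  rw [c2_comm, ← mul_assoc, Units.inv_mul, one_mul]

lemma tr_conj (k : (End F V)ˣ) (e : End F V) : tr (k.val * e * k⁻¹.val) = tr e := by
  rw [tr_comm, ← mul_assoc, Units.inv_mul, one_mul]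

end c2

@[simp] lemma inv_app (a : (End F V)ˣ) (x : V) : a⁻¹.val (a.val x) = x := by
  rw [← End.mul_apply, Units.inv_mul, End.one_apply]

@[simp] lemma app_inv (a : (End F V)ˣ) (x : V) : a.val (a⁻¹.val x) = x := by
  rw [← End.mul_apply, Units.mul_inv, End.one_apply]

lemma app_eq_zero {a : (End F V)ˣ} {x : V} (h : a.val x = 0) : x = 0 := by
  rw [← inv_app a x, h, map_zero]

/-- every product of a `G`-conjugate of `a` and a `G`-conjugate of `b` is
a scalar from `Z` times a conjugate of `e`. -/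
def Bad (G : Subgroup (End F V)ˣ) (Z : Set F) (a b : (End F V)ˣ) (e : End F V) : Prop :=
  ∀ g ∈ G, ∀ h ∈ G, ∃ z ∈ Z, ∃ k : (End F V)ˣ,
    (g * a * g⁻¹ * (h * b * h⁻¹)).val = z • (k.val * e * k⁻¹.val)

section Bad
variable {G : Subgroup (End F V)ˣ} {Z : Set F} {a b : (End F V)ˣ} {e : End F V}

lemma Bad.conjL (h : Bad G Z a b e) {g : (End F V)ˣ} (hg : g ∈ G) :
    Bad G Z (g * a * g⁻¹) b e := by
  intro g' hg' k hk
  have := h (g' * g) (G.mul_mem hg' hg) k hk
  simpa only [mul_assoc, mul_inv_rev] using this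

lemma Bad.conjR (h : Bad G Z a b e) {g : (End F V)ˣ} (hg : g ∈ G) :
    Bad G Z a (g * b * g⁻¹) e := by
  intro k hk g' hg'
  have := h k hk (g' * g) (G.mul_mem hg' hg)
  simpa only [mul_assoc, mul_inv_rev] using this

lemma Bad.swap (h : Bad G Z a b e) : Bad G Z b a e := by
  intro g hg k hk
  obtain ⟨z, hz, l, hl⟩ := h k hk g hg
  refine ⟨z, hz, (k * a * k⁻¹)⁻¹ * l, ?_⟩
  have e1 : (g * b * g⁻¹ * (k * a * k⁻¹) : (End F V)ˣ) =
      (k * a * k⁻¹)⁻¹ * (k * a * k⁻¹ * (g * b * g⁻¹)) * (k * a * k⁻¹) := by group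
  rw [e1, Units.val_mul, Units.val_mul, hl]
  simp only [mul_inv_rev, inv_inv, Units.val_mul, mul_smul_comm, smul_mul_assoc, mul_assoc]

lemma Bad.base (h : Bad G Z a b e) : ∃ z ∈ Z, ∃ k : (End F V)ˣ,
    a.val * b.val = z • (k.val * e * k⁻¹.val) := by
  simpa using h 1 G.one_mem 1 G.one_mem

lemma Bad.tr [FiniteDimensional F V] (h : Bad G Z a b e) :
    ∃ z ∈ Z, tr (a.val * b.val) = z * tr e ∧ c2 (a.val * b.val) = z ^ 2 * c2 e := by
  obtain ⟨z, hz, k, hk⟩ := h.base
  refine ⟨z, hz, ?_, ?_⟩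
  · rw [hk, map_smul, smul_eq_mul, tr_conj]
  · rw [hk, c2_smul, c2_conj]

end Bad

/-- the unipotent unit `1 + N` for `N * N = 0` -/
def unip (N : End F V) (h : N * N = 0) : (End F V)ˣ :=
  ⟨1 + N, 1 - N, by rw [add_mul, mul_sub, mul_sub, h]; simp,
    by rw [sub_mul, mul_add, mul_add, h]; simp⟩

@[simp] lemma unip_val (N : End F V) (h : N * N = 0) : (unip N h).val = 1 + N := rfl
@[simp] lemma unip_inv_val (N : End F V) (h : N * N = 0) :
    (unip N h)⁻¹.val = 1 - N := rfl

lemma det_unip [Finite F] (N : End F V) (h : N * N = 0) : LinearMap.det (1 + N) = 1 := by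
  have h1 : ∀ k : ℕ, (1 + N) ^ k = 1 + (k : F) • N := by
    intro k
    induction k with
    | zero => simp
    | succ k ih =>
      rw [pow_succ, ih, add_mul, mul_add, mul_add, smul_mul_assoc, smul_mul_assoc, h]
      simp [add_smul]; abel
  obtain ⟨p, hp⟩ := CharP.exists F
  have hpp : p.Prime := CharP.char_is_prime F p
  have : Fact p.Prime := ⟨hpp⟩
  have h2 : (LinearMap.det (1 + N)) ^ p = 1 := by
    rw [← map_pow, h1, CharP.cast_eq_zero]; simp
  have h3 : (LinearMap.det (1 + N) - 1) ^ p = 0 := by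
    rw [sub_pow_char, h2]; simp
  exact sub_eq_zero.mp (pow_eq_zero_iff hpp.ne_zero |>.mp h3)

/-- non-scalar -/
def NS (a : End F V) : Prop := ∀ c : F, a ≠ c • 1

lemma NS.conj {a : (End F V)ˣ} (h : NS a.val) (g : (End F V)ˣ) :
    NS (g * a * g⁻¹).val := by
  intro c hc
  apply h c
  have e1 : a = g⁻¹ * (g * a * g⁻¹) * g := by group
  rw [e1, Units.val_mul, Units.val_mul, hc]
  simp

lemma scalar_of_eig (M : End F V) (h : ∀ v, M v ∈ Submodule.span F {v}) : ∃ c : F, M = c • 1 := by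
  apply LinearMap.exists_eq_smul_id_of_forall_notLinearIndependent
  intro v hv
  obtain ⟨c, hc⟩ := Submodule.mem_span_singleton.mp (h v)
  have := (LinearIndependent.pair_iff.mp hv) c (-1) (by simp [hc])
  simp at this

lemma NS.exists {a : End F V} (h : NS a) : ∃ v, a v ∉ Submodule.span F {v} := by
  by_contra hh
  push Not at hh
  obtain ⟨c, hc⟩ := scalar_of_eig a hh
  exact h c hc

theorem reduce (H : Subgroup (End F V)ˣ) (Z : Set F)
    (hZ : ∀ c ∈ H, (∀ g ∈ H, g * c = c * g) → ∃ z ∈ Z, c.val = z • 1)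
    {G : Type} [Group G] (φ : G ≃* H ⧸ Subgroup.center H) (x y z : G) (hx : x ≠ 1) (hy : y ≠ 1)
    (h : {g : G | ∃ a b : G, IsConj x a ∧ IsConj y b ∧ g = a * b} = {g : G | IsConj z g}) :
    ∃ a ∈ H, ∃ b ∈ H, NS a.val ∧ NS b.val ∧ ∃ e, Bad H Z a b e := by
  obtain ⟨a, ha⟩ := QuotientGroup.mk_surjective (φ x)
  obtain ⟨b, hb⟩ := QuotientGroup.mk_surjective (φ y)
  obtain ⟨e, he⟩ := QuotientGroup.mk_surjective (φ z)
  have ns : ∀ (w : G) (c : H), w ≠ 1 → (c : H ⧸ Subgroup.center H) = φ w →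
      NS ((c : (End F V)ˣ) : End F V) := by
    intro w c hw hc d hd
    apply hw
    apply φ.injective
    rw [← hc, map_one, QuotientGroup.eq_one_iff, Subgroup.mem_center_iff]
    intro g
    apply Subtype.ext
    apply Units.ext
    simp [hd]
  refine ⟨a, a.2, b, b.2, ns x a hx ha, ns y b hy hb, ((e : (End F V)ˣ) : End F V), ?_⟩
  intro g hg k hk
  let g' : H := ⟨g, hg⟩
  let k' : H := ⟨k, hk⟩
  have hm : φ.symm ((g' * a * g'⁻¹ * (k' * b * k'⁻¹) : H) : H ⧸ Subgroup.center H) ∈
      {g : G | ∃ a b : G, IsConj x a ∧ IsConj y b ∧ g = a * b} := by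
    refine ⟨φ.symm g' * x * (φ.symm g')⁻¹, φ.symm k' * y * (φ.symm k')⁻¹, ?_, ?_, ?_⟩
    · exact isConj_iff.mpr ⟨_, rfl⟩
    · exact isConj_iff.mpr ⟨_, rfl⟩
    · apply φ.injective
      simp [← ha, ← hb]
  rw [h] at hm
  obtain ⟨c, hc⟩ := isConj_iff.mp hm
  obtain ⟨l, hl⟩ := QuotientGroup.mk_surjective (φ c)
  have h2 : ((l * e * l⁻¹ : H) : H ⧸ Subgroup.center H) =
      ((g' * a * g'⁻¹ * (k' * b * k'⁻¹) : H) : H ⧸ Subgroup.center H) := by
    have := congrArg φ hc
    rw [MulEquiv.apply_symm_apply] at this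
    rw [← this]
    simp [hl, he]
  rw [QuotientGroup.eq, Subgroup.mem_center_iff] at h2
  obtain ⟨s, hs, hs'⟩ := hZ _ ((l * e * l⁻¹)⁻¹ * (g' * a * g'⁻¹ * (k' * b * k'⁻¹)) : H).2
    (fun g hg => congrArg Subtype.val (h2 ⟨g, hg⟩))
  refine ⟨s, hs, l, ?_⟩
  have e1 : (g * a * g⁻¹ * (k * b * k⁻¹) : (End F V)ˣ) = ((l : (End F V)ˣ) * e * (l : (End F V)ˣ)⁻¹) *
      (((l * e * l⁻¹)⁻¹ * (g' * a * g'⁻¹ * (k' * b * k'⁻¹)) : H) : (End F V)ˣ) := by
    simp only [Subgroup.coe_mul, Subgroup.coe_inv, g', k']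
    group
  rw [e1, Units.val_mul, hs']
  simp

end Pool.Agent.MP_db74b1_al
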