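import Pool.Agent.MP_db74b1_al.ClSL

/-! Fourth differences of `c2` in characteristic two. -/

set_option autoImplicit false
set_option linter.unusedSectionVars false

namespace Pool.Agent.MP_db74b1_al
open Module Submodule

variable {F V : Type} [Field F] [AddCommGroup V] [Module F V] [Finite F] [FiniteDimensional F V]

/-- fourth difference at zero -/
def D4 {A : Type} [AddCommGroup A] (φ : A → F) (a b c d : A) : F :=
  φ (a + b + c + d) - φ (a + b + c) - φ (a + b + d) - φ (a + c + d) - φ (b + c + d) +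
    φ (a + b) + φ (a + c) + φ (a + d) + φ (b + c) + φ (b + d) + φ (c + d) -
    φ a - φ b - φ c - φ d + φ 0

section
variable {A : Type} [AddCommGroup A]

lemma D4_1 (l : A → F) (h1 : ∀ x y, l (x + y) = l x + l y) (a b c d : A) : D4 l a b c d = 0 := by
  have h0 : l 0 = 0 := by simpa using h1 0 0
  simp only [D4, h1, h0]; ring

lemma D4_2 (l : A → A → F) (h1 : ∀ x y z, l (x + y) z = l x z + l y z)
    (h2 : ∀ x y z, l z (x + y) = l z x + l z y) (a b c d : A) :
    D4 (fun x => l x x) a b c d = 0 := by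
  have h0 : l 0 0 = 0 := by simpa using h1 0 0 0
  simp only [D4, h1, h2, h0]; ring

lemma D4_3 (l : A → A → A → F) (h1 : ∀ x y z w, l (x + y) z w = l x z w + l y z w)
    (h2 : ∀ x y z w, l z (x + y) w = l z x w + l z y w)
    (h3 : ∀ x y z w, l z w (x + y) = l z w x + l z w y) (a b c d : A) :
    D4 (fun x => l x x x) a b c d = 0 := by
  have h0 : l 0 0 0 = 0 := by simpa using h1 0 0 0 0
  simp only [D4, h1, h2, h3, h0]; ring

lemma D4_4 (l : A → A → A → A → F) (h1 : ∀ x y z w v, l (x + y) z w v = l x z w v + l y z w v)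
    (h2 : ∀ x y z w v, l z (x + y) w v = l z x w v + l z y w v)
    (h3 : ∀ x y z w v, l z w (x + y) v = l z w x v + l z w y v)
    (h4 : ∀ x y z w v, l z w v (x + y) = l z w v x + l z w v y) (a b c d : A) :
    D4 (fun x => l x x x x) a b c d =
      (l a b c d + l c d a b) + (l a b d c + l d c a b) + (l b a c d + l c d b a) +
      (l b a d c + l d c b a) + (l a c b d + l b d a c) + (l a c d b + l d b a c) +
      (l c a b d + l b d c a) + (l c a d b + l d b c a) + (l a d b c + l b c a d) +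
      (l a d c b + l c b a d) + (l d a b c + l b c d a) + (l d a c b + l c b d a) := by
  have h0 : l 0 0 0 0 = 0 := by simpa using h1 0 0 0 0 0
  simp only [D4, h1, h2, h3, h4, h0]; ring

end

lemma FD4 (h2 : (2 : F) = 0) (a b : End F V) (κ : F) (N1 N2 N3 N4 : End F V)
    (h : D4 (fun N => c2 (a * ((1 + N) * b * (1 - N))) - κ * tr (a * ((1 + N) * b * (1 - N))) ^ 2)
      N1 N2 N3 N4 = 0) :
    pp (a * N1 * (b * N2)) (a * N3 * (b * N4)) + pp (a * N1 * (b * N2)) (a * N4 * (b * N3)) +
    pp (a * N2 * (b * N1)) (a * N3 * (b * N4)) + pp (a * N2 * (b * N1)) (a * N4 * (b * N3)) +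
    pp (a * N1 * (b * N3)) (a * N2 * (b * N4)) + pp (a * N1 * (b * N3)) (a * N4 * (b * N2)) +
    pp (a * N3 * (b * N1)) (a * N2 * (b * N4)) + pp (a * N3 * (b * N1)) (a * N4 * (b * N2)) +
    pp (a * N1 * (b * N4)) (a * N2 * (b * N3)) + pp (a * N1 * (b * N4)) (a * N3 * (b * N2)) +
    pp (a * N4 * (b * N1)) (a * N2 * (b * N3)) + pp (a * N4 * (b * N1)) (a * N3 * (b * N2)) = 0 := by
  obtain ⟨X1, hX1⟩ : ∃ X1 : End F V → End F V, X1 = fun N => a * N * b - a * b * N := ⟨_, rfl⟩
  obtain ⟨X2, hX2⟩ : ∃ X2 : End F V → End F V → End F V,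
    X2 = fun N M => (-1 : F) • (a * N * (b * M)) := ⟨_, rfl⟩
  have a1 : ∀ x y, X1 (x + y) = X1 x + X1 y := by
    intro x y; simp only [hX1, mul_add, add_mul]; abel
  have a2 : ∀ x y z, X2 (x + y) z = X2 x z + X2 y z := by
    intro x y z; simp only [hX2, mul_add, add_mul, smul_add]
  have a3 : ∀ x y z, X2 z (x + y) = X2 z x + X2 z y := by
    intro x y z; simp only [hX2, mul_add, smul_add]
  have ex : ∀ N, a * ((1 + N) * b * (1 - N)) = a * b + X1 N + X2 N N := by
    intro N
    simp only [hX1, hX2, neg_smul, one_smul, mul_add, add_mul, mul_sub, one_mul, mul_one, mul_assoc]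
    abel
  have d1 := D4_1 (fun N => c2b (a * b) (X1 N) + c2b (X1 N) (a * b) - κ * tr (X1 N) ^ 2) (by
    intro x y
    simp only [a1, c2b_add_left, c2b_add_right, map_add]
    linear_combination (-κ * tr (X1 x) * tr (X1 y)) * h2) N1 N2 N3 N4
  have d2 := D4_2 (fun N M => c2b (X1 N) (X1 M) + c2b (a * b) (X2 N M) + c2b (X2 N M) (a * b) -
      κ * tr (X2 N M) ^ 2) (by
    intro x y z
    simp only [a1, a2, c2b_add_left, c2b_add_right, map_add]
    linear_combination (-κ * tr (X2 x z) * tr (X2 y z)) * h2) (by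
    intro x y z
    simp only [a1, a3, c2b_add_left, c2b_add_right, map_add]
    linear_combination (-κ * tr (X2 z x) * tr (X2 z y)) * h2) N1 N2 N3 N4
  have d3 := D4_3 (fun N M K => c2b (X1 N) (X2 M K) + c2b (X2 M K) (X1 N)) (by
    intro x y z w
    simp only [a1, c2b_add_left, c2b_add_right]; ring) (by
    intro x y z w
    simp only [a2, c2b_add_left, c2b_add_right]; ring) (by
    intro x y z w
    simp only [a3, c2b_add_left, c2b_add_right]; ring) N1 N2 N3 N4
  have d4 := D4_4 (fun N M K L => c2b (X2 N M) (X2 K L)) (by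
    intro x y z w v
    simp only [a2, c2b_add_left]) (by
    intro x y z w v
    simp only [a3, c2b_add_left]) (by
    intro x y z w v
    simp only [a2, c2b_add_right]) (by
    intro x y z w v
    simp only [a3, c2b_add_right]) N1 N2 N3 N4
  have e1 : ∀ N, c2 (a * ((1 + N) * b * (1 - N))) - κ * tr (a * ((1 + N) * b * (1 - N))) ^ 2 =
      (c2b (a * b) (a * b) - κ * tr (a * b) ^ 2) +
      (c2b (a * b) (X1 N) + c2b (X1 N) (a * b) - κ * tr (X1 N) ^ 2) +
      (c2b (X1 N) (X1 N) + c2b (a * b) (X2 N N) + c2b (X2 N N) (a * b) - κ * tr (X2 N N) ^ 2) +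
      (c2b (X1 N) (X2 N N) + c2b (X2 N N) (X1 N)) + c2b (X2 N N) (X2 N N) := by
    intro N
    simp only [ex, c2, c2b_add_left, c2b_add_right, map_add]
    linear_combination (-κ * (tr (a * b) * tr (X1 N) + tr (a * b) * tr (X2 N N) +
      tr (X1 N) * tr (X2 N N))) * h2
  simp only [c2b_symm] at d4
  have e2 : ∀ N M K L, pp (X2 N M) (X2 K L) = pp (a * N * (b * M)) (a * K * (b * L)) := by
    intro N M K L
    simp [hX2, pp]
  simp only [e2] at d4
  rw [← d4]
  simp only [D4, e1] at h d1 d2 d3 ⊢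
  linear_combination h - d1 - d2 - d3

end Pool.Agent.MP_db74b1_al
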