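import Pool.Agent.MP_db74b1_al.ClO1

/-! The Dickson invariant: in characteristic two reflections are not in the commutator subgroup. -/

set_option autoImplicit false
set_option linter.unusedSectionVars false

namespace Pool.Agent.MP_db74b1_al
open Module Submodule
open scoped commutatorElement

variable {F V : Type} [Field F] [AddCommGroup V] [Module F V] [Finite F] [FiniteDimensional F V]

lemma sum_symm_zero (h2 : (2 : F) = 0) {n : ℕ} (s : Fin n → Fin n → F) (hs : ∀ i j, s i j = s j i)
    (hd : ∀ i, s i i = 0) : ∑ i, ∑ j, s i j = 0 := by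
  have h1 : ∑ i, ∑ j, s i j = ∑ i, ∑ j, (if i < j then s i j else 0) +
      ∑ i, ∑ j, (if j < i then s i j else 0) := by
    simp only [← Finset.sum_add_distrib]
    refine Finset.sum_congr rfl fun i _ => Finset.sum_congr rfl fun j _ => ?_
    rcases lt_trichotomy i j with h | h | h
    · simp [h, not_lt.mpr h.le]
    · subst h; simp [hd]
    · simp [h, not_lt.mpr h.le]
  have h3 : ∑ i, ∑ j, (if j < i then s i j else 0) = ∑ i, ∑ j, (if i < j then s i j else 0) := by
    rw [Finset.sum_comm]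
    refine Finset.sum_congr rfl fun i _ => Finset.sum_congr rfl fun j _ => ?_
    rw [hs]
  rw [h1, h3, ← two_mul, h2, zero_mul]

namespace OD
variable {Q : QuadraticForm F V} {B : V →ₗ[F] V →ₗ[F] F} {G : Subgroup (End F V)ˣ} (D : OD Q B G)
include D

lemma dual_basis : ∃ f : Fin (finrank F V) → V, ∀ i x, (finBasis F V).repr x i = B x (f i) := by
  choose f hf using fun i => rep B D.nd ((finBasis F V).coord i)
  exact ⟨f, hf⟩

lemma tr_symm (h2 : (2 : F) = 0) (Γ : End F V) (h : ∀ x y, B (Γ x) y = B (Γ y) x) : tr Γ = 0 := by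
  obtain ⟨f, hf⟩ := D.dual_basis
  have e1 : ∀ i, mat Γ i i = ∑ j, B (f i) (f j) * B (Γ (finBasis F V i)) (finBasis F V j) := by
    intro i
    rw [mat, LinearMap.toMatrix_apply, hf]
    conv_lhs => rw [← (finBasis F V).sum_repr (f i), map_sum]
    simp [hf]
  rw [tr_mat]
  simp only [e1]
  apply sum_symm_zero h2
  · intro i j
    rw [D.symm (f i), h]
  · intro i
    rw [D.self, h2]; ring

lemma alt_split (δ : V →ₗ[F] V →ₗ[F] F) (h : ∀ x, δ x x = 0) :
    ∃ Γ : End F V, ∀ x y, δ x y = B (Γ x) y - B (Γ y) x := by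
  obtain ⟨f, hf⟩ := D.dual_basis
  have sk : ∀ x y, δ y x = - δ x y := by
    intro x y
    have := h (x + y)
    simp only [map_add, LinearMap.add_apply, h] at this
    linear_combination this
  let e := finBasis F V
  let Γ : End F V := ∑ i, ∑ j, (if i < j then δ (e i) (e j) else 0) • rk (f j) (e.coord i)
  have e1 : ∀ k l, B (Γ (e k)) (e l) = if k < l then δ (e k) (e l) else 0 := by
    intro k l
    have e2 : ∀ j, B (f j) (e l) = if l = j then 1 else 0 := by
      intro j
      rw [D.symm, ← hf]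
      simp [e, Finsupp.single_apply]
    simp only [Γ, LinearMap.sum_apply, LinearMap.smul_apply, rk_apply, map_sum, map_smul, e2,
      Basis.coord_apply, Basis.repr_self, Finsupp.single_apply, smul_eq_mul]
    simp
  refine ⟨Γ, fun x y => ?_⟩
  have : δ = B ∘ₗ Γ - (B ∘ₗ Γ).flip := by
    apply LinearMap.ext_basis e e
    intro k l
    simp only [LinearMap.sub_apply, LinearMap.comp_apply, LinearMap.flip_apply, e1]
    rcases lt_trichotomy k l with h' | h' | h'
    · simp [h', not_lt.mpr h'.le]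
    · subst h'; simp [h]
    · simp [h', not_lt.mpr h'.le, sk (e l)]
  rw [this]
  rfl

theorem dickson (h2 : (2 : F) = 0) {n : V} (hn : Q n ≠ 0) : D.refl hn ∉ G := by
  obtain ⟨β, hβ⟩ := LinearMap.BilinMap.toQuadraticMap_surjective Q
  have b1 : ∀ x, β x x = Q x := fun x => by rw [← hβ]; rfl
  have b2 : ∀ x y, B x y = β x y + β y x := by
    intro x y
    have := D.pol x y
    simp only [← b1, map_add, LinearMap.add_apply] at this
    linear_combination -this
  let Dk : (End F V)ˣ → F → Prop := fun g d => ∃ Γ : End F V,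
    (∀ x y, β (g.val x) (g.val y) - β x y = B (Γ x) y - B (Γ y) x) ∧ tr Γ = d
  have uniq : ∀ g d d', Dk g d → Dk g d' → d = d' := by
    rintro g d d' ⟨Γ, h1, rfl⟩ ⟨Γ', h1', rfl⟩
    rw [← sub_eq_zero, ← map_sub]
    apply D.tr_symm h2
    intro x y
    simp only [LinearMap.sub_apply, map_sub]
    linear_combination h1' x y - h1 x y
  have ex : ∀ g : orthGroup Q, ∃ d, Dk g d := by
    intro g
    obtain ⟨Γ, hΓ⟩ := D.alt_split (β.compl₁₂ g.1.val g.1.val - β) (fun x => by
      simp [b1, g.2 x])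
    exact ⟨_, Γ, hΓ, rfl⟩
  have mul : ∀ g h d d', h ∈ orthGroup Q → Dk g d → Dk h d' → Dk (g * h) (d + d') := by
    rintro g h d d' hh ⟨Γ, h1, rfl⟩ ⟨Γ', h1', rfl⟩
    refine ⟨h⁻¹.val * Γ * h⁻¹⁻¹.val + Γ', fun x y => ?_, by rw [map_add, tr_conj]⟩
    have e1 : ∀ x y, B (h⁻¹.val (Γ (h.val x))) y = B (Γ (h.val x)) (h.val y) := fun x y => by
      rw [← D.isoO hh, app_inv]
    simp only [Units.val_mul, End.mul_apply, LinearMap.add_apply, map_add, inv_inv, e1]
    linear_combination h1 (h.val x) (h.val y) + h1' x y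
  choose d hd using ex
  let φ : orthGroup Q →* Multiplicative F := MonoidHom.mk' (fun g => Multiplicative.ofAdd (d g))
    (fun g h => by
      rw [← ofAdd_add]
      exact congrArg _ (uniq _ _ _ (hd (g * h)) (mul _ _ _ _ h.2 (hd g) (hd h))))
  have hle : ⁅orthGroup Q, orthGroup Q⁆ ≤ φ.ker.map (orthGroup Q).subtype := by
    rw [Subgroup.commutator_le]
    intro g hg h hh
    refine ⟨⁅(⟨g, hg⟩ : orthGroup Q), (⟨h, hh⟩ : orthGroup Q)⁆, ?_, rfl⟩
    show φ _ = 1
    rw [map_commutatorElement, commutatorElement_eq_one_iff_mul_comm, mul_comm]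
  intro hr
  obtain ⟨g, hg, e1⟩ := hle (D.mem.le hr)
  have e2 : d g = 0 := hg
  have e3 : Dk g 1 := by
    have e4 : (g : (End F V)ˣ) = D.refl hn := e1
    refine ⟨rk n ((Q n)⁻¹ • β.flip n), fun x y => ?_, by simp [tr_rk, b1, hn]⟩
    rw [e4]
    simp [D.refl_app, b1, b2]
    field_simp
    linear_combination (β y n * β n x - β x n * β n y) * h2
  exact one_ne_zero (uniq _ _ _ e3 (e2 ▸ hd g))

end OD

end Pool.Agent.MP_db74b1_al
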