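import Pool.Agent.MP_db74b1_al.ClBasic

/-! Field lemmas and linear algebra lemmas. -/

set_option autoImplicit false
set_option linter.unusedSectionVars false

namespace Pool.Agent.MP_db74b1_al
open Module Submodule

variable {F V : Type} [Field F] [AddCommGroup V] [Module F V]

lemma quad3 {θ c0 c1 c2 t : F} (h0 : θ ≠ 0) (h1 : θ ≠ 1) (e0 : c0 = t) (e1 : c0 + c1 + c2 = t)
    (e2 : c0 + c1 * θ + c2 * θ ^ 2 = t) : c2 = 0 := by
  have : c2 * (θ * (θ - 1)) = 0 := by linear_combination e2 - θ * e1 + (θ - 1) * e0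
  rcases mul_eq_zero.mp this with h | h
  · exact h
  · exact absurd h (mul_ne_zero h0 (sub_ne_zero.mpr h1))

lemma exists_third [Finite F] (h : 2 < Nat.card F) : ∃ θ : F, θ ≠ 0 ∧ θ ≠ 1 := by
  classical
  by_contra hh
  push Not at hh
  have := Fintype.ofFinite F
  have h2 : (Finset.univ : Finset F) ⊆ {0, 1} := by
    intro x _
    by_cases hx : x = 0
    · simp [hx]
    · simp [hh x hx]
  have h3 := (Finset.card_le_card h2).trans Finset.card_le_two
  rw [Nat.card_eq_fintype_card] at h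
  simp at h3
  omega

lemma quartic5 {c0 c1 c2 c3 c4 : F} (s : Finset F) (hs : 5 ≤ s.card)
    (h : ∀ x ∈ s, c0 + c1 * x + c2 * x ^ 2 + c3 * x ^ 3 + c4 * x ^ 4 = 0) : c4 = 0 := by
  open Polynomial in
  have hp : (C c0 + C c1 * X + C c2 * X ^ 2 + C c3 * X ^ 3 + C c4 * X ^ 4 : F[X]) = 0 := by
    apply Polynomial.eq_zero_of_natDegree_lt_card_of_eval_eq_zero' _ s
    · intro x hx
      simpa using h x hx
    · have : (C c0 + C c1 * X + C c2 * X ^ 2 + C c3 * X ^ 3 + C c4 * X ^ 4 : F[X]).natDegree ≤ 4 := by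
        compute_degree
      omega
  have := congrArg (fun p => Polynomial.coeff p 4) hp
  simpa [Polynomial.coeff_X, Polynomial.coeff_C] using this

lemma sq_one_two (h2 : (2 : F) = 0) {z : F} (hz : z ^ 2 = 1) : z = 1 := by
  have : (z - 1) ^ 2 = 0 := by linear_combination hz + (1 - z) * h2
  exact sub_eq_zero.mp (pow_eq_zero_iff two_ne_zero |>.mp this)

lemma sq_inj_two (h2 : (2 : F) = 0) {x y : F} (h : x ^ 2 = y ^ 2) : x = y := by
  have : (x - y) ^ 2 = 0 := by linear_combination h + (y ^ 2 - x * y) * h2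
  exact sub_eq_zero.mp (pow_eq_zero_iff two_ne_zero |>.mp this)

lemma exists_sqrt_two [Finite F] (h2 : (2 : F) = 0) (x : F) : ∃ y : F, y ^ 2 = x :=
  (Finite.injective_iff_surjective (f := fun y : F => y ^ 2)).mp (fun _ _ h => sq_inj_two h2 h) x

lemma odd_card [Finite F] (h2 : (2 : F) ≠ 0) : Nat.card F % 2 = 1 := by
  have := Fintype.ofFinite F
  rw [Nat.card_eq_fintype_card]
  apply FiniteField.odd_card_of_char_ne_two
  intro h
  apply h2
  have := (ringChar.spec F 2).mpr (by rw [h])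
  simpa using this

lemma two_eq_zero_of_card_even [Finite F] (h : Nat.card F % 2 = 0) : (2 : F) = 0 := by
  by_contra h2
  have := odd_card h2
  omega

lemma card_cast [Finite F] : ((Nat.card F : ℕ) : F) = 0 := by
  have := Fintype.ofFinite F
  rw [Nat.card_eq_fintype_card]
  exact FiniteField.cast_card_eq_zero F

lemma two_le_card [Finite F] : 2 ≤ Nat.card F := Finite.one_lt_card

lemma quad_pm [Finite F] (hq : 3 < Nat.card F) {c0 c1 c2 t : F}
    (h : ∀ s, ∃ z : F, z ^ 2 = 1 ∧ c0 + c1 * s + c2 * s ^ 2 = z * t) : c2 = 0 := by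
  by_cases h2 : (2 : F) = 0
  · obtain ⟨θ, h0, h1⟩ := exists_third (F := F) (by omega)
    have h' : ∀ s, c0 + c1 * s + c2 * s ^ 2 = t := by
      intro s
      obtain ⟨z, hz, e⟩ := h s
      rw [e, sq_one_two h2 hz, one_mul]
    exact quad3 h0 h1 (by simpa using h' 0) (by simpa using h' 1) (h' θ)
  · have := Fintype.ofFinite F
    have h3 := odd_card h2
    have h4 : c2 ^ 2 = 0 := by
      apply quartic5 (c0 := c0 ^ 2 - t ^ 2) (c1 := 2 * c0 * c1) (c2 := c1 ^ 2 + 2 * c0 * c2)
        (c3 := 2 * c1 * c2) Finset.univ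
      · rw [Nat.card_eq_fintype_card] at hq h3
        simp; omega
      · intro x _
        obtain ⟨z, hz, e⟩ := h x
        linear_combination (c0 + c1 * x + c2 * x ^ 2 + z * t) * e + t ^ 2 * hz
    exact pow_eq_zero_iff two_ne_zero |>.mp h4

lemma cw3 [Finite F] (c1 c2 c3 c4 c5 c6 : F) : ∃ x y z : F, ¬ (x = 0 ∧ y = 0 ∧ z = 0) ∧
    c1 * x ^ 2 + c2 * y ^ 2 + c3 * z ^ 2 + c4 * x * y + c5 * x * z + c6 * y * z = 0 := by
  classical
  have := Fintype.ofFinite F
  obtain ⟨p, hp⟩ := CharP.exists F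
  have hpp : p.Prime := CharP.char_is_prime F p
  open MvPolynomial in
  let f : MvPolynomial (Fin 3) F := C c1 * X 0 ^ 2 + C c2 * X 1 ^ 2 + C c3 * X 2 ^ 2 +
    C c4 * X 0 * X 1 + C c5 * X 0 * X 2 + C c6 * X 1 * X 2
  have hd : f.totalDegree < Fintype.card (Fin 3) := by
    open MvPolynomial in
    have h1 : ∀ (c : F) (i : Fin 3), (C c * X i ^ 2 : MvPolynomial (Fin 3) F).totalDegree ≤ 2 := by
      intro c i
      refine (totalDegree_mul _ _).trans ?_
      simp [totalDegree_X_pow]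
    open MvPolynomial in
    have h2 : ∀ (c : F) (i j : Fin 3),
        (C c * X i * X j : MvPolynomial (Fin 3) F).totalDegree ≤ 2 := by
      intro c i j
      refine (totalDegree_mul _ _).trans ?_
      have := totalDegree_mul (C c : MvPolynomial (Fin 3) F) (X i)
      simp [totalDegree_X] at this ⊢
      omega
    have h3 : ∀ f g : MvPolynomial (Fin 3) F, f.totalDegree ≤ 2 → g.totalDegree ≤ 2 →
        (f + g).totalDegree ≤ 2 := fun f g hf hg =>
      (MvPolynomial.totalDegree_add f g).trans (max_le hf hg)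
    have := h3 _ _ (h3 _ _ (h3 _ _ (h3 _ _ (h3 _ _ (h1 c1 0) (h1 c2 1)) (h1 c3 2)) (h2 c4 0 1))
      (h2 c5 0 2)) (h2 c6 1 2)
    simp only [Fintype.card_fin]
    exact Nat.lt_succ_of_le this
  have hdv := char_dvd_card_solutions p hd
  by_contra hh
  push Not at hh
  have hone : Fintype.card { x : Fin 3 → F // MvPolynomial.eval x f = 0 } = 1 := by
    rw [Fintype.card_eq_one_iff]
    refine ⟨⟨0, by simp [f]⟩, ?_⟩
    rintro ⟨x, hx⟩
    apply Subtype.ext
    by_contra hne
    refine hh (x 0) (x 1) (x 2) ?_ (by simpa [f] using hx)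
    intro h0 h1 h2
    apply hne
    funext i
    fin_cases i <;> simp [h0, h1, h2]
  rw [hone] at hdv
  exact hpp.one_lt.ne' (Nat.dvd_one.mp hdv)

/-- a quadratic polynomial in two variables with nondegenerate leading form is onto -/
lemma onto2 [Finite F] {c l1 l2 α β γ : F} (hd : β ^ 2 ≠ 4 * α * γ) (d : F) :
    ∃ x y, c + l1 * x + l2 * y - (α * x ^ 2 + β * x * y + γ * y ^ 2) = d := by
  obtain ⟨x, y, z, hne, h⟩ := cw3 (-α) (-γ) (c - d) (-β) l1 l2
  by_cases hz : z = 0
  · subst hz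
    have hq : α * x ^ 2 + β * x * y + γ * y ^ 2 = 0 := by linear_combination -h
    have key : ∀ u v : F, l1 * x + l2 * y - (2 * α * x * u + β * (x * v + y * u) + 2 * γ * y * v) ≠ 0 →
        ∃ x y, c + l1 * x + l2 * y - (α * x ^ 2 + β * x * y + γ * y ^ 2) = d := by
      intro u v hk
      set k := l1 * x + l2 * y - (2 * α * x * u + β * (x * v + y * u) + 2 * γ * y * v) with hkd
      set s := (d - (c + l1 * u + l2 * v - (α * u ^ 2 + β * u * v + γ * v ^ 2))) / k with hs
      have hs' : s * k = d - (c + l1 * u + l2 * v - (α * u ^ 2 + β * u * v + γ * v ^ 2)) := by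
        rw [hs]; field_simp
      refine ⟨u + s * x, v + s * y, ?_⟩
      rw [hkd] at hs'
      linear_combination hs' - s ^ 2 * hq
    by_contra hh
    have k0 : l1 * x + l2 * y = 0 := by
      by_contra k; exact hh (key 0 0 (by simpa using k))
    have k1 : 2 * α * x + β * y = 0 := by
      by_contra k; exact hh (key 1 0 (by intro k'; apply k; linear_combination k0 - k'))
    have k2 : β * x + 2 * γ * y = 0 := by
      by_contra k; exact hh (key 0 1 (by intro k'; apply k; linear_combination k0 - k'))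
    have hd' := sub_ne_zero.mpr hd
    apply hne
    refine ⟨?_, ?_, rfl⟩
    · apply (mul_eq_zero.mp (_ : (β ^ 2 - 4 * α * γ) * x = 0)).resolve_left hd'
      linear_combination β * k2 - 2 * γ * k1
    · apply (mul_eq_zero.mp (_ : (β ^ 2 - 4 * α * γ) * y = 0)).resolve_left hd'
      linear_combination β * k1 - 2 * α * k2
  · refine ⟨x / z, y / z, ?_⟩
    field_simp
    linear_combination h

lemma D2 [Finite F] {c l1 l2 α β γ t : F}
    (h : ∀ x y, ∃ z : F, z ≠ 0 ∧
      c + l1 * x + l2 * y - (α * x ^ 2 + β * x * y + γ * y ^ 2) = z * t) :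
    β ^ 2 = 4 * α * γ := by
  by_contra hd
  by_cases ht : t = 0
  · obtain ⟨x, y, e⟩ := onto2 (c := c) (l1 := l1) (l2 := l2) hd 1
    obtain ⟨z, _, e'⟩ := h x y
    rw [e, ht, mul_zero] at e'
    exact one_ne_zero e'
  · obtain ⟨x, y, e⟩ := onto2 (c := c) (l1 := l1) (l2 := l2) hd 0
    obtain ⟨z, hz, e'⟩ := h x y
    rw [e] at e'
    exact mul_ne_zero hz ht e'.symm

/-! linear algebra -/

lemma exists_fun {W : Submodule F V} {x : V} (hx : x ∉ W) :
    ∃ φ : V →ₗ[F] F, φ x = 1 ∧ ∀ w ∈ W, φ w = 0 := by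
  obtain ⟨f, h1, h2⟩ := Submodule.exists_le_ker_of_notMem hx
  refine ⟨(f x)⁻¹ • f, by simp [h1], fun w hw => ?_⟩
  have : f w = 0 := h2 hw
  simp [this]

section fd
variable [FiniteDimensional F V]

lemma rep [Finite F] {σ : F →+* F} (B : V →ₗ[F] V →ₛₗ[σ] F) (hB : ∀ y, (∀ x, B x y = 0) → y = 0)
    (φ : V →ₗ[F] F) : ∃ z, ∀ x, φ x = B x z := by
  have : Finite V := Module.finite_of_finite F
  let e := (finBasis F V).toDualEquiv
  have hi : Function.Injective (fun z => e.symm (B.flip z)) := by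
    intro z z' h
    have h1 : B.flip z = B.flip z' := e.symm.injective h
    rw [← sub_eq_zero]
    apply hB
    intro x
    have := LinearMap.congr_fun h1 x
    simp only [LinearMap.flip_apply] at this
    rw [map_sub, this, sub_self]
  obtain ⟨z, hz⟩ := Finite.injective_iff_surjective.mp hi (e.symm φ)
  have h1 : B.flip z = φ := e.symm.injective hz
  exact ⟨z, fun x => by rw [← h1]; rfl⟩

lemma sep [Finite F] {σ : F →+* F} (B : V →ₗ[F] V →ₛₗ[σ] F) (hB : ∀ y, (∀ x, B x y = 0) → y = 0)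
    {W : Submodule F V} {x : V} (hx : x ∉ W) : ∃ z, B x z = 1 ∧ ∀ w ∈ W, B w z = 0 := by
  obtain ⟨φ, h1, h2⟩ := exists_fun hx
  obtain ⟨z, hz⟩ := rep B hB φ
  exact ⟨z, by rw [← hz, h1], fun w hw => by rw [← hz, h2 w hw]⟩

lemma sep2 [Finite F] {σ : F →+* F} (B : V →ₗ[F] V →ₛₗ[σ] F) (hB : ∀ y, (∀ x, B x y = 0) → y = 0)
    {W : Submodule F V} {x x' : V} (hx : x ∉ W) (hx' : x' ∉ W) :
    ∃ z, B x z ≠ 0 ∧ B x' z ≠ 0 ∧ ∀ w ∈ W, B w z = 0 := by
  obtain ⟨z, h1, h2⟩ := sep B hB hx
  obtain ⟨z', h1', h2'⟩ := sep B hB hx'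
  by_cases e : B x' z = 0
  · by_cases e' : B x z' = 0
    · refine ⟨z + z', by simp [h1, e'], by simp [h1', e], fun w hw => by simp [h2 w hw, h2' w hw]⟩
    · exact ⟨z', e', by simp [h1'], h2'⟩
  · exact ⟨z, by simp [h1], e, h2⟩

lemma out {W R : Submodule F V} (h : finrank F R < finrank F W) : ∃ x ∈ W, x ∉ R := by
  by_contra hh
  push Not at hh
  have := Submodule.finrank_mono (show W ≤ R from hh)
  omega

lemma fker (φ : V →ₗ[F] F) : finrank F V ≤ finrank F (LinearMap.ker φ) + 1 := by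
  have h1 := φ.finrank_range_add_finrank_ker
  have h2 : finrank F (LinearMap.range φ) ≤ 1 := by
    simpa using (LinearMap.range φ).finrank_le
  omega

lemma fk (W : Submodule F V) (φ : V →ₗ[F] F) :
    finrank F W ≤ finrank F (W ⊓ LinearMap.ker φ : Submodule F V) + 1 := by
  have h1 := Submodule.finrank_sup_add_finrank_inf_eq W (LinearMap.ker φ)
  have h2 := (W ⊔ LinearMap.ker φ).finrank_le
  have h3 := fker φ
  omega

lemma fs1 (x : V) : finrank F (span F {x}) ≤ 1 := by
  simpa using finrank_span_le_card (R := F) ({x} : Set V)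

lemma fsup (R : Submodule F V) (x : V) :
    finrank F (R ⊔ span F {x} : Submodule F V) ≤ finrank F R + 1 := by
  have h1 := Submodule.finrank_sup_add_finrank_inf_eq R (span F {x})
  have := fs1 (F := F) x
  omega

lemma fsins (x : V) (s : Set V) : finrank F (span F (insert x s)) ≤ finrank F (span F s) + 1 := by
  rw [span_insert, sup_comm]
  exact fsup _ _

lemma fs2 (x y : V) : finrank F (span F {x, y}) ≤ 2 := by
  have := fsins (F := F) x {y}
  have := fs1 (F := F) y
  omega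

lemma fs3 (x y z : V) : finrank F (span F {x, y, z}) ≤ 3 := by
  have := fsins (F := F) x {y, z}
  have := fs2 (F := F) y z
  omega

lemma out2 {W R : Submodule F V} (h : finrank F R + 2 ≤ finrank F W) :
    ∃ z1 ∈ W, ∃ z2 ∈ W, ∀ x y : F, x • z1 + y • z2 ∈ R → x = 0 ∧ y = 0 := by
  obtain ⟨z1, h1, h1'⟩ := out (W := W) (R := R) (by omega)
  have := fsup R z1
  obtain ⟨z2, h2, h2'⟩ := out (W := W) (R := R ⊔ span F {z1}) (by omega)
  refine ⟨z1, h1, z2, h2, fun x y hxy => ?_⟩
  have hy : y = 0 := by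
    by_contra hy
    apply h2'
    have : z2 = y⁻¹ • (x • z1 + y • z2) - (y⁻¹ * x) • z1 := by
      simp [smul_add, smul_smul, hy]
    rw [this]
    exact sub_mem (mem_sup_left (smul_mem _ _ hxy))
      (mem_sup_right (smul_mem _ _ (mem_span_singleton_self z1)))
  refine ⟨?_, hy⟩
  by_contra hx
  apply h1'
  rw [hy, zero_smul, add_zero] at hxy
  exact (smul_mem_iff R hx).mp hxy

lemma out3 {W R : Submodule F V} (h : finrank F R + 3 ≤ finrank F W) :
    ∃ z1 ∈ W, ∃ z2 ∈ W, ∃ z3 ∈ W, ∀ x y z : F,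
      x • z1 + y • z2 + z • z3 ∈ R → x = 0 ∧ y = 0 ∧ z = 0 := by
  obtain ⟨z3, h3, h3'⟩ := out (W := W) (R := R) (by omega)
  have := fsup R z3
  obtain ⟨z1, h1, z2, h2, h12⟩ := out2 (W := W) (R := R ⊔ span F {z3}) (by omega)
  refine ⟨z1, h1, z2, h2, z3, h3, fun x y z hxy => ?_⟩
  obtain ⟨hx, hy⟩ := h12 x y (by
    have : x • z1 + y • z2 = (x • z1 + y • z2 + z • z3) - z • z3 := by abel
    rw [this]
    exact sub_mem (mem_sup_left hxy) (mem_sup_right (smul_mem _ _ (mem_span_singleton_self z3))))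
  refine ⟨hx, hy, ?_⟩
  by_contra hz
  apply h3'
  rw [hx, hy, zero_smul, zero_smul, add_zero, zero_add] at hxy
  exact (smul_mem_iff R hz).mp hxy

/-- if `f * g = 0` then the kernels of `f` and `g` together have at least the full dimension -/
lemma fker_mul {f g : End F V} (h : f * g = 0) :
    finrank F V ≤ finrank F (LinearMap.ker f) + finrank F (LinearMap.ker g) := by
  have h1 := g.finrank_range_add_finrank_ker
  have h2 : LinearMap.range g ≤ LinearMap.ker f := by
    rintro _ ⟨x, rfl⟩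
    rw [LinearMap.mem_ker, ← End.mul_apply, h, LinearMap.zero_apply]
  have := Submodule.finrank_mono h2
  omega

end fd

lemma nmem1 {u v : V} : v ∉ span F {u} ↔ ∀ c : F, v ≠ c • u := by
  simp [mem_span_singleton, eq_comm]

lemma nmem2 {u v w : V} : w ∉ span F {u, v} ↔ ∀ c d : F, w ≠ c • u + d • v := by
  simp [mem_span_pair, eq_comm]

lemma nmem0 {v : V} : v ∉ span F {(0 : V)} ↔ v ≠ 0 := by simp

lemma indep_pair {u v : V} (hu : u ≠ 0) (hv : v ∉ span F {u}) {c d : F}
    (h : c • u + d • v = 0) : c = 0 ∧ d = 0 := by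
  have hd : d = 0 := by
    by_contra hd
    apply nmem1.mp hv (-(d⁻¹ * c))
    have : v = d⁻¹ • (c • u + d • v) - (d⁻¹ * c) • u := by simp [smul_add, smul_smul, hd]
    rw [this, h]; simp
  refine ⟨?_, hd⟩
  rw [hd, zero_smul, add_zero] at h
  exact (smul_eq_zero.mp h).resolve_right hu

lemma nmem1_swap {u v : V} (hu : u ≠ 0) (hv : v ∉ span F {u}) : u ∉ span F {v} := by
  rw [nmem1]
  intro c hc
  have := indep_pair hu hv (c := 1) (d := -c) (by simp [← hc])
  exact one_ne_zero this.1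

lemma ne_zero_of_nmem {W : Submodule F V} {v : V} (h : v ∉ W) : v ≠ 0 := by
  rintro rfl; exact h W.zero_mem

end Pool.Agent.MP_db74b1_al
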