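import Pool.Agent.MP_db74b1_al.ClSp2

/-! Orthogonal groups, geometry. -/

set_option autoImplicit false
set_option linter.unusedSectionVars false
set_option linter.unnecessarySeqFocus false

namespace Pool.Agent.MP_db74b1_al
open Module Submodule
open scoped commutatorElement

variable {F V : Type} [Field F] [AddCommGroup V] [Module F V]

/-- the isometry group of a quadratic form -/
def orthGroup (Q : QuadraticForm F V) : Subgroup (End F V)ˣ where
  carrier := {g | ∀ x, Q (g.val x) = Q x}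
  mul_mem' := fun {a b} ha hb x => by
    rw [Units.val_mul, End.mul_apply, ha, hb]
  one_mem' := fun _ => rfl
  inv_mem' := fun {a} ha x => by
    rw [← ha, ← End.mul_apply, Units.mul_inv, End.one_apply]

variable [Finite F] [FiniteDimensional F V]

/-- orthogonal data -/
structure OD (Q : QuadraticForm F V) (B : V →ₗ[F] V →ₗ[F] F) (G : Subgroup (End F V)ˣ) : Prop where
  pol : ∀ x y, Q (x + y) = Q x + Q y + B x y
  nd : ∀ y, (∀ x, B x y = 0) → y = 0
  mem : G = ⁅orthGroup Q, orthGroup Q⁆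
  dim : 7 ≤ finrank F V

lemma Qsmul (Q : QuadraticForm F V) (c : F) (x : V) : Q (c • x) = c ^ 2 * Q x := by
  rw [Q.map_smul, smul_eq_mul, pow_two]

lemma mem_perp {B : V →ₗ[F] V →ₗ[F] F} {R : Submodule F V} {z : V} :
    z ∈ LinearMap.BilinForm.orthogonal B R ↔ ∀ w ∈ R, B w z = 0 := Iff.rfl

lemma fperp (B : V →ₗ[F] V →ₗ[F] F) (R : Submodule F V) :
    finrank F V ≤ finrank F R + finrank F (LinearMap.BilinForm.orthogonal B R) := by
  have := LinearMap.BilinForm.finrank_add_finrank_orthogonal' (B := B) R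
  omega

lemma span1_perp {σ : F →+* F} {B : V →ₗ[F] V →ₛₗ[σ] F} {u x : V} (h : B u x = 0) :
    ∀ w ∈ span F {u}, B w x = 0 := by
  intro w hw
  obtain ⟨d, rfl⟩ := mem_span_singleton.mp hw
  simp [h]

lemma span2_perp {σ : F →+* F} {B : V →ₗ[F] V →ₛₗ[σ] F} {u v x : V} (h : B u x = 0)
    (h' : B v x = 0) : ∀ w ∈ span F {u, v}, B w x = 0 := by
  intro w hw
  obtain ⟨s, t, rfl⟩ := mem_span_pair.mp hw
  simp [h, h']

lemma m1 (u : V) : u ∈ span F {u} := mem_span_singleton_self u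
lemma m21 (u v : V) : u ∈ span F {u, v} := subset_span (by simp)
lemma m22 (u v : V) : v ∈ span F {u, v} := subset_span (by simp)
lemma m31 (u v w : V) : u ∈ span F {u, v, w} := subset_span (by simp)
lemma m32 (u v w : V) : v ∈ span F {u, v, w} := subset_span (by simp)
lemma m33 (u v w : V) : w ∈ span F {u, v, w} := subset_span (by simp)

namespace OD
variable {Q : QuadraticForm F V} {B : V →ₗ[F] V →ₗ[F] F} {G : Subgroup (End F V)ˣ} (D : OD Q B G)
include D

lemma symm (x y : V) : B y x = B x y := by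
  have h1 := D.pol x y
  have h2 := D.pol y x
  rw [add_comm y x] at h2
  linear_combination h1 - h2

lemma self (x : V) : B x x = 2 * Q x := by
  have h1 := D.pol x x
  rw [← two_smul F x, Qsmul] at h1
  linear_combination -h1

lemma self0 {x : V} (h : Q x = 0) : B x x = 0 := by rw [D.self, h, mul_zero]

lemma flip0 {x y : V} (h : B x y = 0) : B y x = 0 := by rw [D.symm, h]

lemma Qsub (x y : V) : Q (x - y) = Q x + Q y - B x y := by
  rw [sub_eq_add_neg, D.pol, Q.map_neg, map_neg]; ring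

lemma nd' (x : V) (h : ∀ y, B x y = 0) : x = 0 := D.nd x fun y => D.flip0 (h y)

lemma isoO {g : (End F V)ˣ} (hg : g ∈ orthGroup Q) (x y : V) : B (g.val x) (g.val y) = B x y := by
  have h1 := D.pol (g.val x) (g.val y)
  rw [← map_add, hg, hg, hg, D.pol] at h1
  linear_combination -h1

lemma le {g : (End F V)ˣ} (hg : g ∈ G) : g ∈ orthGroup Q := by
  rw [D.mem] at hg
  exact Subgroup.commutator_le_self _ hg

lemma isoQ {g : (End F V)ˣ} (hg : g ∈ G) (x : V) : Q (g.val x) = Q x := D.le hg x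

lemma iso {g : (End F V)ˣ} (hg : g ∈ G) (x y : V) : B (g.val x) (g.val y) = B x y :=
  D.isoO (D.le hg) x y

lemma adj {a : (End F V)ˣ} (ha : a ∈ G) (x y : V) : B (a.val x) y = B x (a⁻¹.val y) := by
  rw [← D.iso ha x (a⁻¹.val y), app_inv]

lemma det {g : (End F V)ˣ} (hg : g ∈ G) : LinearMap.det g.val = 1 := by
  rw [D.mem] at hg
  let φ : (End F V)ˣ →* Fˣ := Units.map (LinearMap.det : End F V →* F)
  have : ⁅orthGroup Q, orthGroup Q⁆ ≤ φ.ker := by
    rw [Subgroup.commutator_le]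
    intro g _ h _
    rw [MonoidHom.mem_ker, map_commutatorElement, commutatorElement_eq_one_iff_mul_comm, mul_comm]
  exact congrArg Units.val (MonoidHom.mem_ker.mp (this hg))

lemma refl_sq {n : V} (hn : Q n ≠ 0) :
    (1 - (Q n)⁻¹ • op B n n) * (1 - (Q n)⁻¹ • op B n n) = 1 := by
  ext x
  simp [D.self]
  match_scalars <;> field_simp <;> ring

/-- the reflection in a nonsingular vector -/
def refl {n : V} (hn : Q n ≠ 0) : (End F V)ˣ :=
  ⟨1 - (Q n)⁻¹ • op B n n, 1 - (Q n)⁻¹ • op B n n, D.refl_sq hn, D.refl_sq hn⟩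

lemma refl_app {n : V} (hn : Q n ≠ 0) (x : V) :
    (D.refl hn).val x = x - ((Q n)⁻¹ * B x n) • n := by
  simp [refl, smul_smul]

lemma refl_inv {n : V} (hn : Q n ≠ 0) : (D.refl hn)⁻¹ = D.refl hn := rfl

lemma refl_mem {n : V} (hn : Q n ≠ 0) : D.refl hn ∈ orthGroup Q := by
  intro x
  rw [D.refl_app, D.Qsub, Qsmul]
  simp
  field_simp
  ring

lemma eich_mul {e p p' : V} (he : Q e = 0) (hp : B e p = 0) (hp' : B e p' = 0) :
    (1 + op B e p - op B p e - Q p • op B e e) * (1 + op B e p' - op B p' e - Q p' • op B e e) =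
      (1 + op B e (p + p') - op B (p + p') e - Q (p + p') • op B e e) := by
  ext x
  simp [D.self0 he, hp, D.flip0 hp', D.pol, D.symm p p']
  module

/-- Eichler transformation -/
def eich {e p : V} (he : Q e = 0) (hp : B e p = 0) : (End F V)ˣ :=
  ⟨1 + op B e p - op B p e - Q p • op B e e, 1 + op B e (-p) - op B (-p) e - Q (-p) • op B e e,
    by rw [D.eich_mul he hp (by simp [hp])]; ext x; simp,
    by rw [D.eich_mul he (by simp [hp]) hp]; ext x; simp⟩

lemma eich_app {e p : V} (he : Q e = 0) (hp : B e p = 0) (x : V) :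
    (D.eich he hp).val x = x + B x p • e - B x e • p - (Q p * B x e) • e := by
  simp [eich, smul_smul]

lemma eich_inv_app {e p : V} (he : Q e = 0) (hp : B e p = 0) (x : V) :
    (D.eich he hp)⁻¹.val x = x - B x p • e + B x e • p - (Q p * B x e) • e := by
  show (1 + op B e (-p) - op B (-p) e - Q (-p) • op B e e : End F V) x = _
  simp [smul_smul, Q.map_neg, sub_eq_add_neg]

lemma eich_memO {e p : V} (he : Q e = 0) (hp : B e p = 0) : D.eich he hp ∈ orthGroup Q := by
  intro x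
  rw [D.eich_app]
  simp [D.Qsub, D.pol, Qsmul, he, hp, D.flip0 hp, D.self0 he]
  ring

lemma UNIV {W R : Submodule F V} (h : finrank F R + 2 ≤ finrank F W)
    (hW : ∀ z ∈ W, z ∉ R → ∃ z' ∈ W, B z z' ≠ 0) (d : F) : ∃ z ∈ W, Q z = d := by
  obtain ⟨z1, h1, z2, h2, h3⟩ := out2 h
  obtain ⟨x, y, t, hne, e⟩ := cw3 (Q z1) (Q z2) (-d) (B z1 z2) 0 0
  have hz : Q (x • z1 + y • z2) = d * t ^ 2 := by
    simp [D.pol, Qsmul]
    linear_combination e
  have hm : x • z1 + y • z2 ∈ W := add_mem (smul_mem _ _ h1) (smul_mem _ _ h2)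
  by_cases ht : t = 0
  · obtain ⟨z', k1, k2⟩ := hW _ hm (fun hh => hne ⟨(h3 x y hh).1, (h3 x y hh).2, ht⟩)
    generalize x • z1 + y • z2 = z at hz hm k2
    refine ⟨((d - Q z') / B z z') • z + z', add_mem (smul_mem _ _ hm) k1, ?_⟩
    simp [D.pol, Qsmul, hz, ht, k2]
  · refine ⟨t⁻¹ • (x • z1 + y • z2), smul_mem _ _ hm, ?_⟩
    rw [Qsmul, hz]
    field_simp

lemma SING {W R : Submodule F V} (h : finrank F R + 3 ≤ finrank F W) :
    ∃ e ∈ W, e ∉ R ∧ Q e = 0 := by
  obtain ⟨z1, h1, z2, h2, z3, h3, h4⟩ := out3 h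
  obtain ⟨x, y, t, hne, e⟩ := cw3 (Q z1) (Q z2) (Q z3) (B z1 z2) (B z1 z3) (B z2 z3)
  refine ⟨x • z1 + y • z2 + t • z3, add_mem (add_mem (smul_mem _ _ h1) (smul_mem _ _ h2))
    (smul_mem _ _ h3), fun hh => hne (h4 x y t hh), ?_⟩
  simp [D.pol, Qsmul]
  linear_combination e

lemma univ_perp (R : Submodule F V) (h : 2 * finrank F R + 2 ≤ finrank F V) (d : F) :
    ∃ z, (∀ w ∈ R, B w z = 0) ∧ Q z = d := by
  have := fperp B R
  exact D.UNIV (W := LinearMap.BilinForm.orthogonal B R) (R := R) (by omega) (fun z _ hz => by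
    obtain ⟨z', k1, k2⟩ := sep B D.nd hz
    exact ⟨z', k2, by simp [k1]⟩) d

lemma sing_perp (R : Submodule F V) (h : 2 * finrank F R + 3 ≤ finrank F V) :
    ∃ z, (∀ w ∈ R, B w z = 0) ∧ z ∉ R ∧ Q z = 0 := by
  have := fperp B R
  exact D.SING (W := LinearMap.BilinForm.orthogonal B R) (R := R) (by omega)

lemma eich_mem1 {e n : V} (he : Q e = 0) (hp : B e n = 0) (hn : Q n ≠ 0) : D.eich he hp ∈ G := by
  have hne : n ∉ span F {e} := by
    rw [nmem1]; rintro c rfl; simp [Qsmul, he] at hn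
  obtain ⟨z, k1, k2⟩ := sep B D.nd hne
  have k2 := k2 e (m1 e)
  have k3 : B e (-Q n • z) = 0 := by simp [k2]
  have : D.eich he hp = ⁅D.refl hn, D.eich he k3⁆ := by
    rw [commutatorElement_def, D.refl_inv]
    apply Units.ext
    ext x
    simp only [Units.val_mul, End.mul_apply, D.eich_app, D.eich_inv_app, D.refl_app]
    simp [D.self0 he, hp, D.flip0 hp, k1, k2, D.flip0 k2, D.symm n z, D.self n, D.self z, Qsmul]
    match_scalars <;> field_simp <;> ring
  rw [this]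
  exact D.mem.ge (Subgroup.commutator_mem_commutator (D.refl_mem hn) (D.eich_memO he k3))

lemma eich_mem {e p : V} (he : Q e = 0) (hp : B e p = 0) : D.eich he hp ∈ G := by
  by_cases hq : Q p = 0
  swap
  · exact D.eich_mem1 he hp hq
  have := fs2 (F := F) e p
  have := D.dim
  obtain ⟨n, k1, k2⟩ := D.univ_perp (span F {e, p}) (by omega) 1
  have k3 := k1 e (m21 _ _)
  have k4 := k1 p (m22 _ _)
  have k5 : B e (p + n) = 0 := by simp [hp, k3]
  have k6 : B e (-n) = 0 := by simp [k3]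
  have : D.eich he hp = D.eich he k5 * D.eich he k6 := by
    apply Units.ext
    simp only [Units.val_mul, eich, D.eich_mul he k5 k6, add_neg_cancel_right]
  rw [this]
  exact G.mul_mem (D.eich_mem1 he k5 (by simp [D.pol, hq, k2, k4]))
    (D.eich_mem1 he k6 (by simp [Q.map_neg, k2]))

lemma N_sq {u v : V} (hu : Q u = 0) (hv : Q v = 0) (h : B u v = 0) :
    (op B u v - op B v u) * (op B u v - op B v u) = 0 := by
  ext w
  simp [h, D.flip0 h, D.self0 hu, D.self0 hv]

lemma N_mem {u v : V} (hu : Q u = 0) (hv : Q v = 0) (h : B u v = 0) :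
    unip _ (D.N_sq hu hv h) ∈ G := by
  have : unip _ (D.N_sq hu hv h) = D.eich hu h := by
    apply Units.ext
    simp [eich, hv, add_sub_assoc]
  rw [this]
  exact D.eich_mem hu h

lemma step0 {W : Submodule F V} {x x' e : V} (he : Q e = 0) (h1 : B x e = 1) (h2 : B x' e = 1)
    (hq : Q x = Q x') (h3 : ∀ w ∈ W, B w e = 0) (h4 : ∀ w ∈ W, B w x = B w x') :
    ∃ g ∈ G, (∀ w ∈ W, g.val w = w) ∧ g.val x = x' := by
  have hp : B e (x - x') = 0 := by simp [D.symm x e, D.symm x' e, h1, h2]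
  refine ⟨_, D.eich_mem he hp, fun w hw => ?_, ?_⟩
  · simp [D.eich_app, h3 w hw, h4 w hw]
  · simp [D.eich_app, h1, D.Qsub, D.self, hq]
    module

lemma step1 {W : Submodule F V} (hd : 2 * finrank F W + 4 ≤ finrank F V) {x x' : V}
    (h : B x x' ≠ 0) (k : Q x = 0) (k' : Q x' = 0) (h1 : ∀ w ∈ W, B w x = 0)
    (h2 : ∀ w ∈ W, B w x' = 0) : ∃ g ∈ G, (∀ w ∈ W, g.val w = w) ∧ g.val x = x' := by
  have f1 := fperp B (W ⊔ span F {x} ⊔ span F {x'})
  have f2 := fsup W x
  have f3 := fsup (W ⊔ span F {x}) x'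
  have mx : x ∈ W ⊔ span F {x} ⊔ span F {x'} := mem_sup_left (mem_sup_right (m1 x))
  have mx' : x' ∈ W ⊔ span F {x} ⊔ span F {x'} := mem_sup_right (m1 x')
  obtain ⟨z, hz, hq⟩ := D.UNIV (W := LinearMap.BilinForm.orthogonal B (W ⊔ span F {x} ⊔ span F {x'}))
    (R := W) (by omega) (fun z hz hz' => by
      have : z ∉ W ⊔ span F {x} ⊔ span F {x'} := by
        intro hh
        obtain ⟨y, hy, y', hy', rfl⟩ := mem_sup.mp hh
        obtain ⟨w, hw, y1, hy1, rfl⟩ := mem_sup.mp hy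
        obtain ⟨s, rfl⟩ := mem_span_singleton.mp hy1
        obtain ⟨t, rfl⟩ := mem_span_singleton.mp hy'
        have e1 := hz x mx
        have e2 := hz x' mx'
        simp [D.flip0 (h1 w hw), D.flip0 (h2 w hw), D.self0 k, D.self0 k', h, D.symm x x'] at e1 e2
        apply hz'
        simpa [e1, e2] using hw
      obtain ⟨z', k1, k2⟩ := sep B D.nd this
      exact ⟨z', k2, by simp [k1]⟩) (-(B x x')⁻¹)
  have e1 : B x z = 0 := hz x mx
  have e2 : B x' z = 0 := hz x' mx'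
  refine D.step0 (e := (B x x')⁻¹ • (x + x') + z) ?_ ?_ ?_ (by rw [k, k']) (fun w hw => ?_)
    (fun w hw => by rw [h1 w hw, h2 w hw])
  · rw [D.pol, Qsmul, D.pol, k, k', hq]
    simp [e1, e2]
    field_simp
    ring
  · simp [D.self0 k, e1, h]
  · simp [D.self0 k', e2, h, D.symm x x']
  · have : B w z = 0 := hz w (mem_sup_left (mem_sup_left hw))
    simp [h1 w hw, h2 w hw, this]

lemma step {W : Submodule F V} (hd : 2 * finrank F W + 4 ≤ finrank F V) {x x' : V}
    (hx : x ∉ W) (hx' : x' ∉ W) (k : Q x = 0) (k' : Q x' = 0) (h1 : ∀ w ∈ W, B w x = 0)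
    (h2 : ∀ w ∈ W, B w x' = 0) : ∃ g ∈ G, (∀ w ∈ W, g.val w = w) ∧ g.val x = x' := by
  by_cases h : B x x' = 0
  swap
  · exact D.step1 hd h k k' h1 h2
  obtain ⟨z, k1, k2, k3⟩ := sep2 B D.nd hx hx'
  have j1 : Q (z - (Q z / B x z) • x) = 0 := by
    simp [D.Qsub, Qsmul, k, D.symm x z, k1]
  have j2 : ∀ w ∈ W, B w (z - (Q z / B x z) • x) = 0 := fun w hw => by simp [k3 w hw, h1 w hw]
  obtain ⟨g, hg, e1, e2⟩ := D.step1 hd (x := x) (x' := z - (Q z / B x z) • x)
    (by simpa [D.self0 k] using k1) k j1 h1 j2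
  obtain ⟨g', hg', e1', e2'⟩ := D.step1 hd (x := z - (Q z / B x z) • x) (x' := x')
    (by simpa [h, D.symm x' z] using k2) j1 k' j2 h2
  exact ⟨g' * g, G.mul_mem hg' hg, fun w hw => by simp [e1 w hw, e1' w hw],
    by rw [Units.val_mul, End.mul_apply, e2, e2']⟩

lemma normstep {y y' : V} (hy : y ≠ 0) (hy' : y' ∉ span F {y}) (hq : Q y = Q y') :
    ∃ g ∈ G, g.val y = y' := by
  have := fs2 (F := F) y y'
  have := D.dim
  obtain ⟨e, k1, k2, k3⟩ := D.sing_perp (span F {y, y'}) (by omega)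
  have i1 : y ∉ span F {y', e} := by
    rw [nmem2]
    intro c d hcd
    by_cases hd : d = 0
    · exact nmem1.mp (nmem1_swap hy hy') c (by simp [hcd, hd])
    · apply k2
      rw [← smul_mem_iff _ hd, mem_span_pair]
      exact ⟨1, -c, by linear_combination (norm := module) hcd⟩
  have i2 : y' ∉ span F {y, e} := by
    rw [nmem2]
    intro c d hcd
    by_cases hd : d = 0
    · exact nmem1.mp hy' c (by simp [hcd, hd])
    · apply k2
      rw [← smul_mem_iff _ hd, mem_span_pair]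
      exact ⟨-c, 1, by linear_combination (norm := module) hcd⟩
  obtain ⟨z1, a1, a2⟩ := sep B D.nd i1
  obtain ⟨z2, b1, b2⟩ := sep B D.nd i2
  obtain ⟨z3, c1, c2⟩ := sep B D.nd k2
  have hz : B y (z1 + z2 + z3) = 1 ∧ B y' (z1 + z2 + z3) = 1 ∧ B e (z1 + z2 + z3) = 1 := by
    simp [a1, b1, c1, a2 y' (m21 _ _), a2 e (m22 _ _), b2 y (m21 _ _), b2 e (m22 _ _),
      c2 y (m21 _ _), c2 y' (m22 _ _)]
  generalize z1 + z2 + z3 = z at hz
  obtain ⟨g, hg, -, e1⟩ := D.step0 (W := ⊥) (x := y) (x' := y') (e := z - Q z • e)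
    (by simp [D.Qsub, Qsmul, k3, D.symm e z, hz]) (by simp [hz, k1 y (m21 _ _)])
    (by simp [hz, k1 y' (m22 _ _)]) hq (by simp) (by simp)
  exact ⟨g, hg, e1⟩

lemma SPANrel {W : Submodule F V} (ψ : V →ₗ[F] F) {e f : V} (he : e ∈ W) (hf : f ∈ W)
    (k : Q e = 0) (k1 : B e f = 1) (h : ∀ v ∈ W, Q v = 0 → ψ v = 0) : ∀ x ∈ W, ψ x = 0 := by
  have key : ∀ x ∈ W, B e x ≠ 0 → ψ x = 0 := by
    intro x hx hne
    have := h (x - (Q x / B e x) • e) (sub_mem hx (smul_mem _ _ he)) (by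
      simp [D.Qsub, Qsmul, k, D.symm e x, hne])
    simpa [h e he k] using this
  intro x hx
  by_cases hne : B e x = 0
  · have := key (x + f) (add_mem hx hf) (by simp [hne, k1])
    simpa [key f hf (by simp [k1])] using this
  · exact key x hx hne

lemma SPAN (u : V) (ψ : V →ₗ[F] F) (h : ∀ v, B u v = 0 → Q v = 0 → ψ v = 0) :
    ∀ x, B u x = 0 → ψ x = 0 := by
  have := fs1 (F := F) u
  have := D.dim
  obtain ⟨e, k1, k2, k3⟩ := D.sing_perp (span F {u}) (by omega)
  obtain ⟨f, j1, j2⟩ := sep B D.nd k2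
  exact D.SPANrel (W := LinearMap.ker (B u)) ψ (k1 u (m1 u)) (j2 u (m1 u)) k3 j1 h

lemma SC1 {u y : V} (h : ∀ v, B u v = 0 → Q v = 0 → B y v = 0) : y ∈ span F {u} := by
  by_contra hh
  obtain ⟨z, h1, h2⟩ := sep B D.nd hh
  rw [D.SPAN u (B y) h z (h2 u (m1 u))] at h1
  exact zero_ne_one h1

lemma SC2 (M : End F V) (h : ∀ u, Q u = 0 → M u ∈ span F {u}) : ∃ c : F, M = c • 1 := by
  have := D.dim
  have key : ∀ (u v : V) (c : F), Q u = 0 → Q v = 0 → B u v = 0 → u ≠ 0 → v ∉ span F {u} →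
      (M u = c • u ↔ M v = c • v) := by
    intro u v c hu hv huv hu0 hv'
    obtain ⟨s, hs⟩ := mem_span_singleton.mp (h u hu)
    obtain ⟨t, ht⟩ := mem_span_singleton.mp (h v hv)
    obtain ⟨r, hr⟩ := mem_span_singleton.mp (h (u + v) (by simp [D.pol, hu, hv, huv]))
    rw [map_add, ← hs, ← ht] at hr
    obtain ⟨e1, e2⟩ := indep_pair hu0 hv' (c := r - s) (d := r - t)
      (by linear_combination (norm := module) hr)
    have e3 : s = t := by linear_combination e2 - e1
    rw [← hs, ← ht, e3, (smul_left_injective F hu0).eq_iff,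
      (smul_left_injective F (ne_zero_of_nmem hv')).eq_iff]
  obtain ⟨u, -, hu0, hu⟩ := D.SING (W := ⊤) (R := ⊥) (by simp; omega)
  have hu0 : u ≠ 0 := by simpa using hu0
  obtain ⟨c, hc⟩ := mem_span_singleton.mp (h u hu)
  have all : ∀ v, Q v = 0 → M v = c • v := by
    intro v hv
    by_cases hv0 : v = 0
    · simp [hv0]
    have := fs2 (F := F) u v
    obtain ⟨w, k1, k2, k3⟩ := D.sing_perp (span F {u, v}) (by omega)
    have e1 := (key u w c hu k3 (k1 u (m21 _ _)) hu0 (fun hh => k2 (span_mono (by simp) hh))).mp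
      hc.symm
    exact (key v w c hv k3 (k1 v (m22 _ _)) hv0 (fun hh => k2 (span_mono (by simp) hh))).mpr e1
  refine ⟨c, ?_⟩
  ext x
  rw [← sub_eq_zero]
  apply D.nd
  intro y
  exact D.SPAN 0 (B y ∘ₗ (M - c • 1)) (fun v _ hv => by simp [all v hv]) x (by simp)

lemma SC (M : End F V) (h : ∀ u v, Q u = 0 → Q v = 0 → B u v = 0 → B (M u) v = 0) :
    ∃ c : F, M = c • 1 :=
  D.SC2 M fun u hu => D.SC1 fun v huv hv => h u v hu hv huv

lemma center (c : (End F V)ˣ) (hc : c ∈ G) (h : ∀ g ∈ G, g * c = c * g) :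
    ∃ z ∈ {z : F | z ^ 2 = 1 ∧ z ^ finrank F V = 1}, c.val = z • 1 := by
  have hd := D.dim
  have key : ∀ u v, Q u = 0 → Q v = 0 → B u v = 0 → v ∉ span F {u} → c.val u ∈ span F {u, v} := by
    intro u v hu hv huv hv'
    obtain ⟨z, k1, k2⟩ := sep B D.nd hv'
    have h4 := congrArg (fun g : (End F V)ˣ => g.val z) (h _ (D.N_mem hu hv huv))
    simp [D.symm v z, D.symm u z, k1, k2 u (m1 u)] at h4
    rw [← h4]
    exact sub_mem (smul_mem _ _ (m21 _ _)) (smul_mem _ _ (m22 _ _))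
  obtain ⟨z, hz⟩ := D.SC2 c.val (fun u hu => by
    have := fs1 (F := F) u
    obtain ⟨v, k1, k2, k3⟩ := D.sing_perp (span F {u}) (by omega)
    have := fs2 (F := F) u v
    obtain ⟨w, j1, j2, j3⟩ := D.sing_perp (span F {u, v}) (by omega)
    obtain ⟨s, t, e1⟩ := mem_span_pair.mp (key u v hu k3 (k1 u (m1 u)) k2)
    obtain ⟨s', t', e2⟩ := mem_span_pair.mp (key u w hu j3 (j1 u (m21 _ _))
      (fun hh => j2 (span_mono (by simp) hh)))
    have : t' = 0 := by
      by_contra ht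
      apply j2
      rw [← smul_mem_iff _ ht, mem_span_pair]
      exact ⟨s - s', t, by linear_combination (norm := module) e1 - e2⟩
    rw [← e2, this, zero_smul, add_zero]
    exact smul_mem _ _ (m1 u))
  refine ⟨z, ⟨?_, ?_⟩, hz⟩
  · obtain ⟨n, -, hn⟩ := D.univ_perp ⊥ (by simp; omega) 1
    have := D.isoQ hc n
    simpa [hz, Qsmul, hn] using this
  · have := D.det hc
    rw [hz, LinearMap.det_smul] at this
    simpa using this

end OD

end Pool.Agent.MP_db74b1_al
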