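import Pool.Agent.MP_db74b1_al.ClO1

/-! Orthogonal groups, frames and first reductions. -/

set_option autoImplicit false
set_option linter.unusedSectionVars false

namespace Pool.Agent.MP_db74b1_al
open Module Submodule

variable {F V : Type} [Field F] [AddCommGroup V] [Module F V] [Finite F] [FiniteDimensional F V]

/-- totally singular frame of length two -/
structure Fr2 (Q : QuadraticForm F V) (B : V →ₗ[F] V →ₗ[F] F) (u v : V) : Prop where
  qu : Q u = 0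
  qv : Q v = 0
  uv : B u v = 0
  ne : u ≠ 0
  ind : v ∉ span F {u}

/-- totally singular frame of length three -/
structure Fr3 (Q : QuadraticForm F V) (B : V →ₗ[F] V →ₗ[F] F) (u v w : V) : Prop where
  f2 : Fr2 Q B u v
  qw : Q w = 0
  uw : B u w = 0
  vw : B v w = 0
  ind : w ∉ span F {u, v}

/-- the quadratic term of the trace for orthogonal groups -/
def Qo (B : V →ₗ[F] V →ₗ[F] F) (a b : End F V) (u v u' v' : V) : F :=
  B (a u) v * B (b u') v' + B (a v) u * B (b v') u' - B (a u) u * B (b v') v' -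
    B (a v) v * B (b u') u'

/-- its polar form -/
def Po (B : V →ₗ[F] V →ₗ[F] F) (a b : End F V) (u v w u' v' w' : V) : F :=
  B (a u) v * B (b u') w' + B (a u) w * B (b u') v' + B (a v) u * B (b w') u' +
    B (a w) u * B (b v') u' - B (a u) u * (B (b v') w' + B (b w') v') -
    (B (a v) w + B (a w) v) * B (b u') u'

/-- the form of `a` vanishes on singular vectors -/
def Alt (Q : QuadraticForm F V) (B : V →ₗ[F] V →ₗ[F] F) (a : End F V) : Prop :=
  ∀ u, Q u = 0 → B (a u) u = 0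

/-- the form of `a` is symmetric on totally singular planes -/
def Sym (Q : QuadraticForm F V) (B : V →ₗ[F] V →ₗ[F] F) (a : End F V) : Prop :=
  ∀ u v, Q u = 0 → Q v = 0 → B u v = 0 → B (a u) v = B (a v) u

lemma Fr3.indep {Q : QuadraticForm F V} {B : V →ₗ[F] V →ₗ[F] F} {u v w : V} (h : Fr3 Q B u v w)
    {x y z : F} (e : x • u + y • v + z • w = 0) : x = 0 ∧ y = 0 ∧ z = 0 := by
  have hz : z = 0 := by
    by_contra hz
    apply h.ind
    rw [← smul_mem_iff _ hz, mem_span_pair]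
    exact ⟨-x, -y, by linear_combination (norm := module) -e⟩
  rw [hz, zero_smul, add_zero] at e
  exact ⟨(indep_pair h.f2.ne h.f2.ind e).1, (indep_pair h.f2.ne h.f2.ind e).2, hz⟩

namespace OD
variable {Q : QuadraticForm F V} {B : V →ₗ[F] V →ₗ[F] F} {G : Subgroup (End F V)ˣ} (D : OD Q B G)
include D

lemma fr2_tr {u v : V} (h : Fr2 Q B u v) {a b c d : F} (hd : a * d - b * c ≠ 0) :
    Fr2 Q B (a • u + b • v) (c • u + d • v) := by
  refine ⟨by simp [D.pol, Qsmul, h.qu, h.qv, h.uv], by simp [D.pol, Qsmul, h.qu, h.qv, h.uv],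
    by simp [D.self0 h.qu, D.self0 h.qv, h.uv, D.flip0 h.uv], fun e => hd ?_, nmem1.mpr fun s e => hd ?_⟩
  · obtain ⟨e1, e2⟩ := indep_pair h.ne h.ind e
    simp [e1, e2]
  · obtain ⟨e1, e2⟩ := indep_pair h.ne h.ind (c := c - s * a) (d := d - s * b)
      (by linear_combination (norm := module) e)
    linear_combination a * e2 - b * e1

lemma fr3_tr {u v w : V} (h : Fr3 Q B u v w) {s a1 a2 a3 b1 b2 b3 : F} (hs : s ≠ 0)
    (hd : a2 * b3 - a3 * b2 ≠ 0) :
    Fr3 Q B (s • u) (a1 • u + a2 • v + a3 • w) (b1 • u + b2 • v + b3 • w) := by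
  have z1 := D.self0 h.f2.qu
  have z2 := D.self0 h.f2.qv
  have z3 := D.self0 h.qw
  have z4 := D.flip0 h.f2.uv
  have z5 := D.flip0 h.uw
  have z6 := D.flip0 h.vw
  refine ⟨⟨by simp [Qsmul, h.f2.qu], by simp [D.pol, Qsmul, h.f2.qu, h.f2.qv, h.qw, h.f2.uv, h.uw, h.vw],
    by simp [z1, h.f2.uv, h.uw], smul_ne_zero hs h.f2.ne, nmem1.mpr fun t e => hd ?_⟩,
    by simp [D.pol, Qsmul, h.f2.qu, h.f2.qv, h.qw, h.f2.uv, h.uw, h.vw],
    by simp [z1, h.f2.uv, h.uw], by simp [z1, z2, z3, z4, z5, z6, h.f2.uv, h.uw, h.vw],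
    nmem2.mpr fun t r e => hd ?_⟩
  · obtain ⟨-, e2, e3⟩ := h.indep (x := a1 - t * s) (y := a2) (z := a3)
      (by linear_combination (norm := module) e)
    simp [e2, e3]
  · obtain ⟨-, e2, e3⟩ := h.indep (x := b1 - t * s - r * a1) (y := b2 - r * a2) (z := b3 - r * a3)
      (by linear_combination (norm := module) e)
    linear_combination a2 * e3 - a3 * e2

lemma ext2 {u : V} (hu : Q u = 0) (hu0 : u ≠ 0) : ∃ v, Fr2 Q B u v := by
  have := fs1 (F := F) u
  have := D.dim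
  obtain ⟨v, k1, k2, k3⟩ := D.sing_perp (span F {u}) (by omega)
  exact ⟨v, hu, k3, k1 u (m1 u), hu0, k2⟩

lemma ext3 {u v : V} (h : Fr2 Q B u v) : ∃ w, Fr3 Q B u v w := by
  have := fs2 (F := F) u v
  have := D.dim
  obtain ⟨w, k1, k2, k3⟩ := D.sing_perp (span F {u, v}) (by omega)
  exact ⟨w, h, k3, k1 u (m21 _ _), k1 v (m22 _ _), k2⟩

lemma T1 {x x' : V} (hx : x ≠ 0) (hx' : x' ≠ 0) (k : Q x = 0) (k' : Q x' = 0) :
    ∃ g ∈ G, g.val x = x' := by
  have := D.dim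
  obtain ⟨g, hg, -, e⟩ := D.step (W := ⊥) (by simp; omega) (by simpa using hx) (by simpa using hx')
    k k' (by simp) (by simp)
  exact ⟨g, hg, e⟩

lemma T2 {u v u' v' : V} (h : Fr2 Q B u v) (h' : Fr2 Q B u' v') :
    ∃ g ∈ G, g.val u' = u ∧ g.val v' = v := by
  obtain ⟨g, hg, e⟩ := D.T1 h'.ne h.ne h'.qu h.qu
  have h1 : g.val v' ∉ span F {u} := by
    rw [nmem1]
    intro c hc
    apply nmem1.mp h'.ind c
    rw [← inv_app g v', hc, ← e, map_smul, inv_app]
  have := fs1 (F := F) u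
  have := D.dim
  obtain ⟨g', hg', e1, e2⟩ := D.step (W := span F {u}) (by omega) h1 h.ind
    (by rw [D.isoQ hg, h'.qv]) h.qv (span1_perp (by rw [← e, D.iso hg, h'.uv])) (span1_perp h.uv)
  exact ⟨g' * g, G.mul_mem hg' hg, by simp [e, e1 u (m1 u)], by simp [e2]⟩

lemma T3 (h8 : 8 ≤ finrank F V) {u v w u' v' w' : V} (h : Fr3 Q B u v w) (h' : Fr3 Q B u' v' w') :
    ∃ g ∈ G, g.val u' = u ∧ g.val v' = v ∧ g.val w' = w := by
  obtain ⟨g, hg, e, e'⟩ := D.T2 h.f2 h'.f2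
  have h1 : g.val w' ∉ span F {u, v} := by
    rw [nmem2]
    intro c d hc
    apply nmem2.mp h'.ind c d
    rw [← inv_app g w', hc, ← e, ← e', map_add, map_smul, map_smul, inv_app, inv_app]
  have := fs2 (F := F) u v
  obtain ⟨g', hg', e1, e2⟩ := D.step (W := span F {u, v}) (by omega) h1 h.ind
    (by rw [D.isoQ hg, h'.qw]) h.qw
    (span2_perp (by rw [← e, D.iso hg, h'.uw]) (by rw [← e', D.iso hg, h'.vw]))
    (span2_perp h.uw h.vw)
  exact ⟨g' * g, G.mul_mem hg' hg, by simp [e, e1 u (m21 _ _)], by simp [e', e1 v (m22 _ _)],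
    by simp [e2]⟩

lemma conjB {g b : (End F V)ˣ} (hg : g ∈ G) (x y : V) :
    B (b.val x) y = B ((g * b * g⁻¹).val (g.val x)) (g.val y) := by
  rw [conj_app, D.iso hg]

lemma alt_skew {a : End F V} (h : Alt Q B a) {u v : V} (hu : Q u = 0) (hv : Q v = 0)
    (huv : B u v = 0) : B (a v) u = - B (a u) v := by
  have := h (u + v) (by simp [D.pol, hu, hv, huv])
  simp only [map_add, LinearMap.add_apply, h u hu, h v hv] at this
  linear_combination this

lemma alt_frame {a : End F V} (h : Alt Q B a) (na : NS a) : ∃ u v, Fr2 Q B u v ∧ B (a u) v ≠ 0 := by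
  obtain ⟨u, v, hu, hv, huv, hA⟩ : ∃ u v, Q u = 0 ∧ Q v = 0 ∧ B u v = 0 ∧ B (a u) v ≠ 0 := by
    by_contra hh
    push Not at hh
    obtain ⟨c, hc⟩ := D.SC _ hh
    exact na c hc
  refine ⟨u, v, ⟨hu, hv, huv, by rintro rfl; simp at hA, nmem1.mpr ?_⟩, hA⟩
  rintro c rfl
  simp [h u hu] at hA

omit D in
lemma sym_of_frames {a : End F V} (h : ∀ u v, Fr2 Q B u v → B (a u) v = B (a v) u) :
    Sym Q B a := by
  intro u v hu hv huv
  by_cases hu0 : u = 0
  · simp [hu0]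
  by_cases hv' : v ∈ span F {u}
  · obtain ⟨c, rfl⟩ := mem_span_singleton.mp hv'
    simp
  exact h u v ⟨hu, hv, huv, hu0, hv'⟩

lemma alt_sc {a : (End F V)ˣ} (ha : a ∈ G) (h : Alt Q B a.val) :
    ∃ l : F, a.val + (1 : F) • a⁻¹.val = l • 1 := by
  apply D.SC
  intro u v hu hv huv
  simp [D.symm v (a⁻¹.val u), ← D.adj ha, D.alt_skew h hu hv huv]

lemma sym_sc {a : (End F V)ˣ} (ha : a ∈ G) (h : Sym Q B a.val) :
    ∃ l : F, a.val + (-1 : F) • a⁻¹.val = l • 1 := by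
  apply D.SC
  intro u v hu hv huv
  simp [D.symm v (a⁻¹.val u), ← D.adj ha, h u v hu hv huv]

variable {Z : Set F} {a b : (End F V)ˣ} {e : End F V} (h : Bad G Z a b e)
include h

lemma frame {u p : V} (hu : Q u = 0) (hp : Q p = 0) (hup : B u p = 0) : ∃ ζ ∈ Z,
    tr (a.val * b.val) + (B ((b.val * a.val - a.val * b.val) u) p -
      B ((b.val * a.val - a.val * b.val) p) u) - Qo B a.val b.val u p u p = ζ * tr e := by
  obtain ⟨ζ, hζ, h1, -⟩ := h.tr_unip _ _ (D.N_mem hu hp hup)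
  refine ⟨ζ, hζ, ?_⟩
  rw [← h1, tr_expand]
  generalize b.val * a.val - a.val * b.val = L
  simp only [op, mul_sub, sub_mul, mul_rk, map_sub, map_smul, tr_rk, LinearMap.flip_apply, rk_apply,
    smul_eq_mul, Qo]
  ring

lemma pairs2 (ha : a ∈ G) (hb : b ∈ G) {u v u' v' : V} (f : Fr2 Q B u v) (f' : Fr2 Q B u' v') :
    ∃ T l : F, (∀ α β : F, (2 : F) = 0 → a.val + (1 : F) • a⁻¹.val = α • 1 →
        b.val + (1 : F) • b⁻¹.val = β • 1 → l = 0) ∧
      ∀ x : F, ∃ ζ ∈ Z, T + l * x - Qo B a.val b.val u v u' v' * x ^ 2 = ζ * tr e := by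
  obtain ⟨g, hg, e1, e2⟩ := D.T2 f f'
  have e3 : Qo B a.val b.val u v u' v' = Qo B a.val (g * b * g⁻¹).val u v u v := by
    simp only [Qo, D.conjB (b := b) hg, e1, e2]
  refine ⟨tr (a.val * (g * b * g⁻¹).val),
    B (((g * b * g⁻¹).val * a.val - a.val * (g * b * g⁻¹).val) u) v -
      B (((g * b * g⁻¹).val * a.val - a.val * (g * b * g⁻¹).val) v) u, ?_, fun x => ?_⟩
  · intro α β h2 k1 k2
    have k2 := conj_sc (g := g) k2
    have hb' : g * b * g⁻¹ ∈ G := G.mul_mem (G.mul_mem hg hb) (G.inv_mem hg)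
    generalize g * b * g⁻¹ = b' at k2 hb'
    have ia : ∀ x, a⁻¹.val x = α • x - a.val x := fun x => by
      have := LinearMap.congr_fun k1 x
      simp only [one_smul, LinearMap.add_apply, LinearMap.smul_apply, End.one_apply] at this
      rw [← this]; abel
    have ib : ∀ x, b'⁻¹.val x = β • x - b'.val x := fun x => by
      have := LinearMap.congr_fun k2 x
      simp only [one_smul, LinearMap.add_apply, LinearMap.smul_apply, End.one_apply] at this
      rw [← this]; abel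
    have f1 : B (a.val (b'.val v)) u = B v (b'⁻¹.val (a⁻¹.val u)) := by rw [D.adj ha, D.adj hb']
    have f2 : B (b'.val (a.val v)) u = B v (a⁻¹.val (b'⁻¹.val u)) := by rw [D.adj hb', D.adj ha]
    rw [D.symm _ v] at f1 f2
    simp only [ia, ib, map_sub, map_smul, smul_eq_mul, f.uv, LinearMap.sub_apply,
      LinearMap.smul_apply] at f1 f2
    simp only [LinearMap.sub_apply, End.mul_apply, map_sub, f1, f2]
    linear_combination (B (b'.val (a.val u)) v - B (a.val (b'.val u)) v) * h2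
  · obtain ⟨ζ, hζ, k⟩ := D.frame (h.conjR hg) f.qu (p := x • v) (by simp [Qsmul, f.qv])
      (by simp [f.uv])
    refine ⟨ζ, hζ, ?_⟩
    rw [← k, e3]
    simp only [Qo, map_smul, LinearMap.smul_apply, smul_eq_mul]
    ring

lemma D3 (h8 : 8 ≤ finrank F V) (hZ : ∀ z ∈ Z, z ≠ 0) {u v w u' v' w' : V} (f : Fr3 Q B u v w)
    (f' : Fr3 Q B u' v' w') : Po B a.val b.val u v w u' v' w' ^ 2 =
      4 * Qo B a.val b.val u v u' v' * Qo B a.val b.val u w u' w' := by
  obtain ⟨g, hg, e1, e2, e3⟩ := D.T3 h8 f f'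
  simp only [Po, Qo, D.conjB (b := b) hg, e1, e2, e3]
  have h' := h.conjR hg
  generalize g * b * g⁻¹ = b' at h'
  apply D2 (c := tr (a.val * b'.val)) (t := tr e)
    (l1 := B ((b'.val * a.val - a.val * b'.val) u) v - B ((b'.val * a.val - a.val * b'.val) v) u)
    (l2 := B ((b'.val * a.val - a.val * b'.val) u) w - B ((b'.val * a.val - a.val * b'.val) w) u)
  intro x y
  obtain ⟨ζ, hζ, k⟩ := D.frame h' f.f2.qu (p := x • v + y • w)
    (by simp [D.pol, Qsmul, f.f2.qv, f.qw, f.vw]) (by simp [f.f2.uv, f.uw])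
  refine ⟨ζ, hZ ζ hζ, ?_⟩
  rw [← k]
  simp only [Qo, map_smul, map_add, LinearMap.add_apply, LinearMap.smul_apply, smul_eq_mul]
  ring

omit h in
lemma redTZ0 (na : NS a.val)
    (H : ∀ u v u' v', Fr2 Q B u v → Fr2 Q B u' v' → Qo B a.val b.val u v u' v' = 0)
    (hA : Alt Q B a.val) : Sym Q B b.val := by
  obtain ⟨u, v, f, hne⟩ := D.alt_frame hA na
  apply sym_of_frames
  intro u' v' f'
  have := H u v u' v' f f'
  simp only [Qo, hA u f.qu, hA v f.qv, D.alt_skew hA f.qu f.qv f.uv] at this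
  apply mul_left_cancel₀ hne
  linear_combination this

lemma redTZ (h3 : 2 < Nat.card F) (hZ : ∀ z ∈ Z, z = 1) (ha : a ∈ G) (hb : b ∈ G) (na : NS a.val)
    (nb : NS b.val) : (Alt Q B a.val ∧ Sym Q B b.val) ∨ (Alt Q B b.val ∧ Sym Q B a.val) := by
  obtain ⟨θ, h0, h1⟩ := exists_third h3
  have H : ∀ u v u' v', Fr2 Q B u v → Fr2 Q B u' v' → Qo B a.val b.val u v u' v' = 0 := by
    intro u v u' v' f f'
    obtain ⟨T, l, -, k⟩ := D.pairs2 h ha hb f f'
    obtain ⟨z1, j1, i1⟩ := k 0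
    obtain ⟨z2, j2, i2⟩ := k 1
    obtain ⟨z3, j3, i3⟩ := k θ
    rw [hZ _ j1] at i1
    rw [hZ _ j2] at i2
    rw [hZ _ j3] at i3
    apply mul_left_cancel₀ (mul_ne_zero h0 (sub_ne_zero.mpr h1))
    linear_combination θ * i2 - i3 - (θ - 1) * i1
  by_cases hA : Alt Q B a.val
  · exact Or.inl ⟨hA, D.redTZ0 na H hA⟩
  by_cases hB : Alt Q B b.val
  · refine Or.inr ⟨hB, D.redTZ0 nb (fun u v u' v' f f' => ?_) hB⟩
    rw [← H u' v' u v f' f]
    simp only [Qo]; ring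
  exfalso
  simp only [Alt, not_forall] at hA hB
  obtain ⟨u, hu, hA⟩ := hA
  obtain ⟨u', hu', hB⟩ := hB
  obtain ⟨v, f⟩ := D.ext2 hu (by rintro rfl; simp at hA)
  obtain ⟨v', f'⟩ := D.ext2 hu' (by rintro rfl; simp at hB)
  have key := fun c : F => H _ _ u' v' (D.fr2_tr f (a := 1) (b := 0) (c := c) (d := 1) (by simp)) f'
  simp only [Qo, map_add, map_smul, LinearMap.add_apply, LinearMap.smul_apply, smul_eq_mul] at key
  apply mul_ne_zero (mul_ne_zero hA hB) (mul_ne_zero h0 (sub_ne_zero.mpr h1))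
  linear_combination θ * key 1 - key θ - (θ - 1) * key 0

lemma P2 (h2 : (2 : F) = 0) (h8 : 8 ≤ finrank F V) (hZ : ∀ z ∈ Z, z ≠ 0) {u v w u' v' w' : V}
    (f : Fr3 Q B u v w) (f' : Fr3 Q B u' v' w') : Po B a.val b.val u v w u' v' w' = 0 := by
  have := D.D3 h h8 hZ f f'
  apply pow_eq_zero_iff two_ne_zero |>.mp
  rw [this]
  linear_combination (2 * Qo B a.val b.val u v u' v' * Qo B a.val b.val u w u' w') * h2

lemma red2a (h2 : (2 : F) = 0) (h8 : 8 ≤ finrank F V) (hZ : ∀ z ∈ Z, z ≠ 0) {u' : V}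
    (hu' : Q u' = 0) (hB : B (b.val u') u' ≠ 0) : Sym Q B a.val := by
  apply sym_of_frames
  intro u v f
  obtain ⟨w, f3⟩ := D.ext3 f
  obtain ⟨v', f'⟩ := D.ext2 hu' (by rintro rfl; simp at hB)
  obtain ⟨w', f3'⟩ := D.ext3 f'
  have key := fun c d : F => D.P2 h h2 h8 hZ (D.fr3_tr f3 (s := 1) (a1 := c) (a2 := 1) (a3 := 0)
    (b1 := 0) (b2 := d) (b3 := 1) one_ne_zero (by simp)) f3'
  simp only [Po, map_add, map_smul, LinearMap.add_apply, LinearMap.smul_apply, smul_eq_mul] at key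
  apply mul_left_cancel₀ hB
  linear_combination key 1 0 + key 0 1 - key 1 1 - key 0 0 - B (a.val v) u * B (b.val u') u' * h2

lemma red2b (h2 : (2 : F) = 0) (h8 : 8 ≤ finrank F V) (hZ : ∀ z ∈ Z, z ≠ 0) (na : NS a.val)
    (hA : Alt Q B a.val) : Sym Q B b.val := by
  obtain ⟨u, v, f, hne⟩ := D.alt_frame hA na
  obtain ⟨w, f3⟩ := D.ext3 f
  apply sym_of_frames
  intro u' v' f'
  obtain ⟨w', f3'⟩ := D.ext3 f'
  have key := fun d : F => D.P2 h h2 h8 hZ (D.fr3_tr f3 (s := 1) (a1 := 0) (a2 := 1) (a3 := 0)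
    (b1 := 0) (b2 := d) (b3 := 1) one_ne_zero (by simp)) f3'
  simp only [Po, map_add, map_smul, LinearMap.add_apply, LinearMap.smul_apply, smul_eq_mul,
    hA u f.qu, hA v f.qv, D.alt_skew hA f.qu f.qv f.uv] at key
  apply mul_left_cancel₀ hne
  linear_combination key 1 - key 0

lemma red2 (h2 : (2 : F) = 0) (h8 : 8 ≤ finrank F V) (hZ : ∀ z ∈ Z, z = 1) (ha : a ∈ G) (hb : b ∈ G)
    (na : NS a.val) (nb : NS b.val) :
    (Alt Q B a.val ∧ Sym Q B b.val) ∨ (Alt Q B b.val ∧ Sym Q B a.val) := by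
  have hZ' : ∀ z ∈ Z, z ≠ 0 := fun z hz => by rw [hZ z hz]; exact one_ne_zero
  by_cases hA : Alt Q B a.val
  · exact Or.inl ⟨hA, D.red2b h h2 h8 hZ' na hA⟩
  by_cases hB : Alt Q B b.val
  · exact Or.inr ⟨hB, D.red2b h.swap h2 h8 hZ' nb hB⟩
  exfalso
  simp only [Alt, not_forall] at hA hB
  obtain ⟨u, hu, hA⟩ := hA
  obtain ⟨u', hu', hB⟩ := hB
  have sa := D.red2a h h2 h8 hZ' hu' hB
  have sb := D.red2a h.swap h2 h8 hZ' hu hA
  have m1 : (-1 : F) = 1 := by linear_combination -h2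
  obtain ⟨α, hα⟩ := D.sym_sc ha sa
  obtain ⟨β, hβ⟩ := D.sym_sc hb sb
  rw [m1] at hα hβ
  have H : ∀ u v u' v', Fr2 Q B u v → Fr2 Q B u' v' → Qo B a.val b.val u v u' v' = 0 := by
    intro u v u' v' f f'
    obtain ⟨T, l, k0, k⟩ := D.pairs2 h ha hb f f'
    obtain ⟨z1, j1, i1⟩ := k 0
    obtain ⟨z2, j2, i2⟩ := k 1
    rw [hZ _ j1] at i1
    rw [hZ _ j2, k0 α β h2 hα hβ] at i2
    linear_combination i1 - i2
  obtain ⟨v, f⟩ := D.ext2 hu (by rintro rfl; simp at hA)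
  obtain ⟨v', f'⟩ := D.ext2 hu' (by rintro rfl; simp at hB)
  have key := fun c : F => H _ _ u' v' (D.fr2_tr f (a := 1) (b := 0) (c := c) (d := 1) (by simp)) f'
  simp only [Qo, map_add, map_smul, LinearMap.add_apply, LinearMap.smul_apply, smul_eq_mul,
    sa u v f.qu f.qv f.uv, sb u' v' f'.qu f'.qv f'.uv] at key
  apply mul_ne_zero hA hB
  linear_combination key 0 - key 1 +
    (B (a.val u) u * B (b.val v') u' - B (a.val v) u * B (b.val u') u') * h2

end OD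

end Pool.Agent.MP_db74b1_al
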