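import Pool.Agent.MP_db74b1_al.ClO2

/-! Orthogonal groups, reductions in odd characteristic and the `c2` identity. -/

set_option autoImplicit false
set_option linter.unusedSectionVars false
set_option linter.unusedSimpArgs false

namespace Pool.Agent.MP_db74b1_al
open Module Submodule

variable {F V : Type} [Field F] [AddCommGroup V] [Module F V] [Finite F] [FiniteDimensional F V]

/-- degenerate Gram matrices on totally singular planes -/
def Gdeg (Q : QuadraticForm F V) (B : V →ₗ[F] V →ₗ[F] F) (a : End F V) : Prop :=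
  ∀ u v, Q u = 0 → Q v = 0 → B u v = 0 → B (a u) u * B (a v) v = B (a u) v ^ 2

lemma four_ne (h2 : (2 : F) ≠ 0) : (4 : F) ≠ 0 := by
  have : (4 : F) = 2 * 2 := by norm_num
  rw [this]; exact mul_ne_zero h2 h2

lemma eight_ne (h2 : (2 : F) ≠ 0) : (8 : F) ≠ 0 := by
  have : (8 : F) = 2 * 4 := by norm_num
  rw [this]; exact mul_ne_zero h2 (four_ne h2)

namespace OD
variable {Q : QuadraticForm F V} {B : V →ₗ[F] V →ₗ[F] F} {G : Subgroup (End F V)ˣ} (D : OD Q B G)
include D

lemma norm2 (h2 : (2 : F) ≠ 0) (a : End F V) {u v : V} (f : Fr2 Q B u v) (hu : B (a u) u ≠ 0) :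
    ∃ c : F, Fr2 Q B u (c • u + v) ∧ B (a u) (c • u + v) + B (a (c • u + v)) u = 0 := by
  refine ⟨-(B (a u) v + B (a v) u) / (2 * B (a u) u), ?_, ?_⟩
  · simpa using D.fr2_tr f (a := 1) (b := 0) (c := -(B (a u) v + B (a v) u) / (2 * B (a u) u))
      (d := 1) (by simp)
  · simp only [map_add, map_smul, LinearMap.add_apply, LinearMap.smul_apply, smul_eq_mul]
    field_simp
    ring

lemma K0 (h2 : (2 : F) ≠ 0) {a : End F V} (h : ¬ Sym Q B a) : ∃ u v w, Fr3 Q B u v w ∧
    B (a u) v ≠ 0 ∧ B (a v) u = - B (a u) v ∧ B (a w) u = B (a u) w := by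
  have : ∃ u v, Fr2 Q B u v ∧ B (a u) v ≠ 0 ∧ B (a v) u = - B (a u) v := by
    obtain ⟨u, v, f, hne⟩ : ∃ u v, Fr2 Q B u v ∧ B (a u) v ≠ B (a v) u := by
      by_contra hh
      push Not at hh
      exact h (sym_of_frames hh)
    have key : ∀ u v, Fr2 Q B u v → B (a u) v ≠ B (a v) u → B (a u) u ≠ 0 →
        ∃ u v, Fr2 Q B u v ∧ B (a u) v ≠ 0 ∧ B (a v) u = - B (a u) v := by
      intro u v f hne hu
      obtain ⟨c, f', k⟩ := D.norm2 h2 a f hu
      refine ⟨u, c • u + v, f', fun hh => hne ?_, by linear_combination k⟩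
      simp only [map_add, map_smul, LinearMap.add_apply, LinearMap.smul_apply, smul_eq_mul] at k hh
      linear_combination 2 * hh - k
    by_cases h1 : B (a u) u = 0
    swap
    · exact key u v f hne h1
    by_cases h3 : B (a u) v + B (a v) u = 0
    · exact ⟨u, v, f, fun hh => hne (by linear_combination 2 * hh - h3), by linear_combination h3⟩
    by_cases h4 : B (a v) v = 0
    · refine key _ _ (D.fr2_tr f (a := 1) (b := 1) (c := 0) (d := 1) (by simp)) ?_ ?_
      · simpa using hne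
      · simpa [h1, h4, add_comm] using h3
    · refine key _ _ (D.fr2_tr f (a := 0) (b := 1) (c := 1) (d := 0) (by simp)) ?_ ?_
      · simpa using hne.symm
      · simpa using h4
  obtain ⟨u, v, f, k1, k2⟩ := this
  obtain ⟨w, f3⟩ := D.ext3 f
  refine ⟨u, v, ((B (a w) u - B (a u) w) / (2 * B (a u) v)) • v + w, ?_, k1, k2, ?_⟩
  · simpa using D.fr3_tr f3 (s := 1) (a1 := 0) (a2 := 1) (a3 := 0) (b1 := 0)
      (b2 := (B (a w) u - B (a u) w) / (2 * B (a u) v)) (b3 := 1) one_ne_zero (by simp)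
  · simp only [map_add, map_smul, LinearMap.add_apply, LinearMap.smul_apply, smul_eq_mul, k2]
    field_simp
    ring

variable {Z : Set F} {a b : (End F V)ˣ} {e : End F V} (h : Bad G Z a b e)
include h

section odd
variable (h2 : (2 : F) ≠ 0) (h8 : 8 ≤ finrank F V) (hZ : ∀ z ∈ Z, z ≠ 0)
include h2 h8 hZ

lemma I1 {u v u' v' : V} (f : Fr2 Q B u v) (f' : Fr2 Q B u' v') (hA : B (a.val u) u ≠ 0)
    (hB : B (b.val u') u' ≠ 0) (s : B (a.val u) v + B (a.val v) u = 0)
    (s' : B (b.val u') v' + B (b.val v') u' = 0) : B (a.val u) v * B (b.val u') v' = 0 ∧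
      B (a.val u) u * B (b.val v') v' + B (a.val v) v * B (b.val u') u' = 0 := by
  obtain ⟨w, f3⟩ := D.ext3 f
  obtain ⟨w', f3'⟩ := D.ext3 f'
  have e1 : B (a.val v) u = - B (a.val u) v := by linear_combination s
  have e2 : B (b.val v') u' = - B (b.val u') v' := by linear_combination s'
  have key := fun (t c : F) (ht : t ≠ 0) => D.D3 h h8 hZ (D.fr3_tr f3 (s := t) (a1 := 0) (a2 := 1)
    (a3 := 0) (b1 := c) (b2 := 0) (b3 := 1) ht (by simp)) f3'
  simp only [Po, Qo, map_add, map_smul, LinearMap.add_apply, LinearMap.smul_apply, smul_eq_mul,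
    e1, e2] at key
  have hne := mul_ne_zero (eight_ne h2) (mul_ne_zero hA hB)
  have k1 : 2 * (B (a.val u) v * B (b.val u') v') -
      (B (a.val u) u * B (b.val v') v' + B (a.val v) v * B (b.val u') u') = 0 := by
    apply mul_left_cancel₀ hne
    linear_combination key 1 1 one_ne_zero + key 1 (-1) one_ne_zero - 2 * key 1 0 one_ne_zero
  have k2 : -2 * (B (a.val u) v * B (b.val u') v') -
      (B (a.val u) u * B (b.val v') v' + B (a.val v) v * B (b.val u') u') = 0 := by
    apply mul_left_cancel₀ hne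
    have hn : (-1 : F) ≠ 0 := by simp
    linear_combination key (-1) 1 hn + key (-1) (-1) hn - 2 * key (-1) 0 hn
  constructor
  · apply mul_left_cancel₀ (four_ne h2)
    linear_combination k1 - k2
  · apply mul_left_cancel₀ h2
    linear_combination -k1 - k2

lemma gdeg (hA : ¬ Alt Q B a.val) (hS : Sym Q B b.val) : Gdeg Q B b.val := by
  simp only [Alt, not_forall] at hA
  obtain ⟨u, hu, hA⟩ := hA
  obtain ⟨v0, f0⟩ := D.ext2 hu (by rintro rfl; simp at hA)
  obtain ⟨c, f, s1⟩ := D.norm2 h2 a.val f0 hA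
  generalize c • u + v0 = v at f s1
  obtain ⟨w0, f3⟩ := D.ext3 f
  obtain ⟨d, -, s2⟩ := D.norm2 h2 a.val (D.fr3_tr f3 (s := 1) (a1 := 0) (a2 := 0) (a3 := 1)
    (b1 := 0) (b2 := 1) (b3 := 0) one_ne_zero (by simp)).f2 (by simpa using hA)
  simp only [one_smul, zero_smul, zero_add] at s2
  have key : ∀ y z, Q y = 0 → Q z = 0 → B y z = 0 → B (b.val y) y ≠ 0 →
      B (b.val y) y * B (b.val z) z = B (b.val y) z ^ 2 := by
    intro y z hy hz hyz hne
    by_cases hz' : z ∈ span F {y}
    · obtain ⟨c, rfl⟩ := mem_span_singleton.mp hz'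
      simp; ring
    obtain ⟨t, f', s'⟩ := D.norm2 h2 b.val ⟨hy, hz, hyz, by rintro rfl; simp at hne, hz'⟩ hne
    have k := fun (x1 x2 y1 y2 : F) (hx : x1 * y2 - x2 * y1 ≠ 0) => (D.I1 h h2 h8 hZ
      (D.fr3_tr f3 (s := 1) (a1 := x2 * d) (a2 := x1) (a3 := x2) (b1 := 0) (b2 := y1) (b3 := y2)
        one_ne_zero hx).f2 f' (by simpa using hA) hne (by
          simp only [map_add, map_smul, LinearMap.add_apply, LinearMap.smul_apply, smul_eq_mul]
            at s2 ⊢
          linear_combination x1 * s1 + x2 * s2) s').2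
    have k1 := k 1 0 0 1 (by simp)
    have k2 := k 0 1 1 0 (by simp)
    have k3 := k 1 1 0 1 (by simp)
    have k4 := k 1 (-1) 0 1 (by simp)
    have k5 : B (b.val (t • y + z)) (t • y + z) = 0 := by
      apply mul_left_cancel₀ (mul_ne_zero h2 hA)
      generalize B (b.val (t • y + z)) (t • y + z) = X at k1 k2 k3 k4
      simp only [map_add, map_smul, LinearMap.add_apply, LinearMap.smul_apply, smul_eq_mul]
        at k1 k2 k3 k4
      linear_combination 2 * k1 + 2 * k2 - k3 - k4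
    simp only [map_add, map_smul, LinearMap.add_apply, LinearMap.smul_apply, smul_eq_mul,
      ← hS y z hy hz hyz] at k5 s'
    apply mul_left_cancel₀ (four_ne h2)
    linear_combination 4 * B (b.val y) y * k5 - (2 * B (b.val y) z + 2 * t * B (b.val y) y) * s'
  intro y z hy hz hyz
  by_cases h1 : B (b.val y) y = 0
  swap
  · exact key y z hy hz hyz h1
  by_cases h3 : B (b.val z) z = 0
  · by_contra hne
    have h5 : B (b.val y) z ≠ 0 := by
      intro hh; apply hne; rw [h1, hh]; ring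
    have := key (y + z) z (by simp [D.pol, hy, hz, hyz]) hz (by simp [hyz, D.self0 hz]) (by
      simp only [map_add, LinearMap.add_apply, h1, h3, ← hS y z hy hz hyz]
      intro hh; apply mul_ne_zero h2 h5; linear_combination hh)
    simp only [map_add, LinearMap.add_apply, h1, h3] at this
    apply hne
    rw [h1]
    linear_combination this
  · have := key z y hz hy (D.flip0 hyz) h3
    rw [← hS y z hy hz hyz] at this
    linear_combination this

lemma skew1 {u v w u' v' w' : V} (f : Fr3 Q B u v w) (f' : Fr3 Q B u' v' w')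
    (k1 : B (a.val u) v ≠ 0) (k2 : B (a.val v) u = - B (a.val u) v)
    (k3 : B (a.val w) u = B (a.val u) w) (j1 : B (b.val u') v' ≠ 0)
    (j2 : B (b.val v') u' = - B (b.val u') v') (j3 : B (b.val w') u' = B (b.val u') w')
    (hA : B (a.val u) u = 0) : False := by
  have hne := mul_ne_zero k1 j1
  have hn : (-1 : F) ≠ 0 := by simp
  by_cases hB : B (b.val u') u' = 0
  · have key := fun (c : F) (hc : c ≠ 0) => D.D3 h h8 hZ (D.fr3_tr f (s := 1) (a1 := 0) (a2 := 1)
      (a3 := 0) (b1 := 0) (b2 := 0) (b3 := c) one_ne_zero (by simpa using hc))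
      (D.fr3_tr f' (s := 1) (a1 := 0) (a2 := 0) (a3 := 1) (b1 := 0) (b2 := 1) (b3 := 0) one_ne_zero
        (by simp))
    simp only [Po, Qo, map_add, map_smul, LinearMap.add_apply, LinearMap.smul_apply, smul_eq_mul,
      k2, k3, j2, j3, hA, hB] at key
    have e1 : 2 * (B (a.val u) v * B (b.val u') v' + B (a.val u) w * B (b.val u') w') = 0 :=
      pow_eq_zero_iff two_ne_zero |>.mp (by linear_combination key 1 one_ne_zero)
    have e2 : 2 * (B (a.val u) v * B (b.val u') v' - B (a.val u) w * B (b.val u') w') = 0 :=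
      pow_eq_zero_iff two_ne_zero |>.mp (by linear_combination key (-1) hn)
    exact mul_ne_zero (four_ne h2) hne (by linear_combination e1 + e2)
  · obtain ⟨t, ht⟩ : ∃ t : F, t * B (b.val u') u' = - B (b.val u') w' :=
      ⟨- B (b.val u') w' / B (b.val u') u', by field_simp⟩
    have key := fun (s c : F) (hs : s ≠ 0) => D.D3 h h8 hZ (D.fr3_tr f (s := s) (a1 := 0) (a2 := 1)
      (a3 := c) (b1 := 0) (b2 := 0) (b3 := 1) hs (by simp))
      (D.fr3_tr f' (s := 1) (a1 := t) (a2 := 0) (a3 := 1) (b1 := 0) (b2 := 1) (b3 := 0) one_ne_zero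
        (by simp))
    simp only [Po, Qo, map_add, map_smul, LinearMap.add_apply, LinearMap.smul_apply, smul_eq_mul,
      k2, k3, j2, j3, hA, one_mul, ht, zero_mul, add_zero, zero_add, neg_add_cancel, mul_zero] at key
    have hne' := mul_ne_zero (mul_ne_zero (eight_ne h2) hne) hB
    have e1 : B (a.val v) w + B (a.val w) v = 0 := by
      apply mul_left_cancel₀ hne'
      linear_combination key (-1) 0 hn - key 1 0 one_ne_zero
    have e2 : B (a.val v) w + B (a.val w) v + 2 * B (a.val w) w = 0 := by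
      apply mul_left_cancel₀ hne'
      linear_combination key (-1) 1 hn - key 1 1 one_ne_zero
    have e3 : B (a.val w) w = 0 := by
      apply mul_left_cancel₀ h2
      linear_combination e2 - e1
    have := key 1 0 one_ne_zero
    simp only [e3, zero_mul, add_zero, zero_add, e1] at this
    apply mul_ne_zero (four_ne h2) (pow_ne_zero 2 hne)
    linear_combination this

lemma skewskew : Sym Q B a.val ∨ Sym Q B b.val := by
  by_contra hh
  push Not at hh
  obtain ⟨u, v, w, f, k1, k2, k3⟩ := D.K0 h2 hh.1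
  obtain ⟨u', v', w', f', j1, j2, j3⟩ := D.K0 h2 hh.2
  by_cases hA : B (a.val u) u = 0
  · exact D.skew1 h h2 h8 hZ f f' k1 k2 k3 j1 j2 j3 hA
  by_cases hB : B (b.val u') u' = 0
  · exact D.skew1 h.swap h2 h8 hZ f' f j1 j2 j3 k1 k2 k3 hB
  exact mul_ne_zero k1 j1 (D.I1 h h2 h8 hZ f.f2 f'.f2 hA hB (by linear_combination k2)
    (by linear_combination j2)).1

end odd

lemma GO0 (hZ : ∀ z ∈ Z, z ^ 2 = 1) (ha : a ∈ G) (hA : Alt Q B a.val) {l : F}
    (hl : a.val + (1 : F) • a⁻¹.val = l • 1) (hbs : ∀ x y, B (b.val x) y = B x (b.val y))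
    (hbb : ∀ x, b.val (b.val x) = x) {u v : V} {ε : F} (hε : ε ^ 2 = 1) (hbu : b.val u = ε • u)
    (hu : Q u = 0) (hv : Q v = 0) (huv : B u v = 0) :
    (B (b.val (a.val u)) v - ε * B (a.val u) v) ^ 2 =
      B (b.val (a.val u)) (a.val u) * B (b.val v) v := by
  obtain ⟨y, hy⟩ : ∃ y, y = a.val u := ⟨_, rfl⟩
  obtain ⟨w, hw⟩ : ∃ w, w = a⁻¹.val v := ⟨_, rfl⟩
  obtain ⟨ξ, hξ⟩ : ∃ ξ, ξ = B y v := ⟨_, rfl⟩
  rw [← hy, ← hξ]
  have ia : ∀ x, a⁻¹.val x = l • x - a.val x := fun x => by
    have := LinearMap.congr_fun hl x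
    simp only [one_smul, LinearMap.add_apply, LinearMap.smul_apply, End.one_apply] at this
    rw [← this]; abel
  have hav : a.val v = l • v - w := by rw [hw, ia]; abel
  have hau : a⁻¹.val u = l • u - y := by rw [ia, hy]
  have t1 : B u u = 0 := D.self0 hu
  have t2 : B v u = 0 := D.flip0 huv
  have t3 : B v v = 0 := D.self0 hv
  have t4 : B y u = 0 := by rw [hy]; exact hA u hu
  have t5 : B w u = ξ := by rw [hw, D.symm, ← D.adj ha, ← hy, hξ]
  have t6 : B w v = 0 := by rw [hw, D.symm, ← D.adj ha]; exact hA v hv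
  have t7 : ∀ x, B (b.val x) u = ε * B x u := fun x => by rw [hbs, hbu]; simp
  have t8 : ∀ x z, B (b.val z) x = B (b.val x) z := fun x z => by rw [hbs, D.symm]
  have t9 : ∀ x, B (a.val x) u = l * B x u - B x y := fun x => by rw [D.adj ha, hau]; simp
  have t10 : ∀ x, B (a.val x) v = B x w := fun x => by rw [D.adj ha, hw]
  obtain ⟨Y, hY⟩ : ∃ Y : End F V, Y = op B u w - op B w u + op B v y - op B y v := ⟨_, rfl⟩
  obtain ⟨N, hN⟩ : ∃ N : End F V, N = op B u v - op B v u := ⟨_, rfl⟩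
  have key : ∀ s : F, c2 (a.val * b.val + s • (Y * b.val) + (-(s ^ 2 * ξ)) • (N * b.val)) = c2 e := by
    intro s
    have hv' : Q (s • v) = 0 := by simp [Qsmul, hv]
    have huv' : B u (s • v) = 0 := by simp [huv]
    obtain ⟨z, hz, -, k⟩ := (h.conjL (D.N_mem hu hv' huv')).tr
    rw [hZ z hz, one_mul] at k
    rw [← k]
    congr 1
    rw [← smul_mul_assoc, ← smul_mul_assoc, ← add_mul, ← add_mul]
    congr 1
    ext x
    simp [hY, hN, ← hy, hav, t1, t2, t3, t4, t5, t6, t9, t10, huv, ← hξ]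
    module
  have p1 : c2 (Y * b.val) = - ξ ^ 2 - B (b.val y) v ^ 2 + B (b.val y) y * B (b.val v) v := by
    simp only [hY, op, sub_mul, add_mul, rk_mul, c2_add, c2_sub, c2_rk, pp, tr_rk, mul_rk, rk_apply,
      map_add, map_sub, map_smul, LinearMap.comp_apply, LinearMap.flip_apply, smul_eq_mul,
      LinearMap.add_apply, LinearMap.sub_apply, hbu, LinearMap.smul_apply, t7, t1, t2, t4, t5, huv,
      D.symm w u, D.symm y u, t8 y v]
    linear_combination (-ξ ^ 2) * hε
  have p2 : c2 (N * b.val) = 0 := by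
    simp only [hN, op, sub_mul, rk_mul, c2_sub, c2_rk, pp, tr_rk, mul_rk, rk_apply,
      map_smul, LinearMap.comp_apply, LinearMap.flip_apply, smul_eq_mul,
      hbu, LinearMap.smul_apply, t7, t1, t2, huv]
    ring
  have p3 : pp (Y * b.val) (N * b.val) = 0 := by
    simp only [hY, hN, op, sub_mul, add_mul, mul_sub, rk_mul, pp, tr_rk, mul_rk, rk_apply,
      map_add, map_sub, map_smul, LinearMap.comp_apply, LinearMap.flip_apply, smul_eq_mul,
      hbu, LinearMap.smul_apply, t7, t1, t2, t4, t5, huv,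
      D.symm w u, D.symm y u]
    ring
  have p4 : pp (a.val * b.val) (N * b.val) = -2 * ε * B (b.val y) v := by
    simp only [hN, op, sub_mul, mul_sub, rk_mul, pp, tr_rk, mul_rk, End.mul_apply,
      map_sub, map_smul, LinearMap.comp_apply, LinearMap.flip_apply, smul_eq_mul,
      hbu, LinearMap.smul_apply, t7, t9, t2, huv, ← hy, t8 y v]
    ring
  have p5 : ∃ m, pp (a.val * b.val) (Y * b.val) = 2 * m := by
    refine ⟨l * ξ - ε * B (b.val y) w - B (a.val (b.val v)) (b.val y), ?_⟩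
    have e1 : B (b.val (a.val (b.val y))) v = l * ξ - B (a.val (b.val v)) (b.val y) := by
      rw [hbs, D.adj ha, ia, map_sub, map_smul, hbs, hbb, ← hξ, D.symm, smul_eq_mul]
    have e2 : B (b.val (a.val (b.val v))) y = B (a.val (b.val v)) (b.val y) := hbs _ _
    simp only [hY, op, sub_mul, add_mul, mul_sub, mul_add, rk_mul, pp, tr_rk, mul_rk, End.mul_apply,
      map_add, map_sub, map_smul, LinearMap.comp_apply, LinearMap.flip_apply, smul_eq_mul,
      hbu, LinearMap.smul_apply, t7, t9, t5, ← hy, t8 y v, t8 y w, D.symm w u, e1, e2]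
    linear_combination (l * ξ) * hε
  obtain ⟨m, p5⟩ := p5
  have expand : ∀ s : F, c2 (a.val * b.val) + 2 * m * s - s ^ 2 *
      ((B (b.val y) v - ε * ξ) ^ 2 - B (b.val y) y * B (b.val v) v) = c2 e := by
    intro s
    rw [← key s, c2_add, c2_add, c2_smul, c2_smul, p1, p2]
    simp only [pp, add_mul, mul_smul_comm, smul_mul_assoc, map_add, map_smul, smul_eq_mul] at p3 p4 p5 ⊢
    linear_combination (-s) * p5 + (s ^ 2 * ξ) * p4 + s ^ 3 * ξ * p3 - s ^ 2 * ξ ^ 2 * hε
  have e0 := expand 0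
  have e1 := expand 1
  have e2 := expand (-1)
  by_cases h2 : (2 : F) = 0
  · linear_combination e0 - e1 + m * h2
  · apply mul_left_cancel₀ h2
    linear_combination 2 * e0 - e1 - e2

lemma GO (hZ : ∀ z ∈ Z, z ^ 2 = 1) (ha : a ∈ G) (na : NS a.val) (hA : Alt Q B a.val)
    (hb : b ∈ G) (hbb : ∀ x, b.val (b.val x) = x) {u y v : V} {ε : F} (hε : ε ^ 2 = 1)
    (hbu : b.val u = ε • u) (hu0 : u ≠ 0) (hu : Q u = 0) (hy : Q y = 0) (huy : B u y = 0)
    (hv : Q v = 0) (huv : B u v = 0) :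
    (B (b.val y) v - ε * B y v) ^ 2 = B (b.val y) y * B (b.val v) v := by
  by_cases hy' : y ∈ span F {u}
  · obtain ⟨c, rfl⟩ := mem_span_singleton.mp hy'
    simp [hbu, huv, D.self0 hu]
  obtain ⟨l, hl⟩ := D.alt_sc ha hA
  obtain ⟨x, hx, hx'⟩ : ∃ x, Q x = 0 ∧ a.val x ∉ span F {x} := by
    by_contra hh
    push Not at hh
    obtain ⟨c, hc⟩ := D.SC2 _ hh
    exact na c hc
  obtain ⟨g, hg, e1, e2⟩ := D.T2 (u := x) (v := a.val x) ⟨hx, by rw [D.isoQ ha, hx],
    D.flip0 (hA x hx), by rintro rfl; simp at hx', hx'⟩ ⟨hu, hy, huy, hu0, hy'⟩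
  have hb' : g * b * g⁻¹ ∈ G := G.mul_mem (G.mul_mem hg hb) (G.inv_mem hg)
  have hbb' : ∀ x, (g * b * g⁻¹).val ((g * b * g⁻¹).val x) = x := fun x => by simp [hbb]
  have := D.GO0 (h.conjR hg) hZ ha hA hl (fun x y => by rw [← D.iso hb', hbb']) hbb' (u := x)
    (v := g.val v) hε (by rw [← e1, conj_app, hbu, map_smul]) hx (by rw [D.isoQ hg, hv])
    (by rw [← e1, D.iso hg, huv])
  rw [← e2] at this
  simpa only [conj_app, D.iso hg] using this

end OD

end Pool.Agent.MP_db74b1_al
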