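import Pool.Agent.MP_db74b1_al.ClO3
import Pool.Agent.MP_db74b1_al.ClDick

/-! Orthogonal groups in characteristic two. -/

set_option autoImplicit false
set_option linter.unusedSectionVars false
set_option linter.unusedSimpArgs false

namespace Pool.Agent.MP_db74b1_al
open Module Submodule

variable {F V : Type} [Field F] [AddCommGroup V] [Module F V] [Finite F] [FiniteDimensional F V]

lemma sc_inv {a : (End F V)ˣ} {l : F} (hl : a.val + (1 : F) • a⁻¹.val = l • 1) (x : V) :
    a⁻¹.val x = l • x - a.val x := by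
  have := LinearMap.congr_fun hl x
  simp only [one_smul, LinearMap.add_apply, LinearMap.smul_apply, End.one_apply] at this
  rw [← this]; abel

namespace OD
variable {Q : QuadraticForm F V} {B : V →ₗ[F] V →ₗ[F] F} {G : Subgroup (End F V)ˣ} (D : OD Q B G)
  {Z : Set F} {a b : (End F V)ˣ} {e : End F V} (h : Bad G Z a b e) (h2 : (2 : F) = 0)
include D h h2

lemma AA0 (hZ : ∀ z ∈ Z, z = 1) (ha : a ∈ G) (hb : b ∈ G) (hA : Alt Q B a.val)
    (hB : Alt Q B b.val) {l μ : F} (hl : a.val + (1 : F) • a⁻¹.val = l • 1)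
    (hμ : b.val + (1 : F) • b⁻¹.val = μ • 1) {u v : V} (hu : Q u = 0) (hv : Q v = 0)
    (huv : B u v = 0) :
    c2 (a.val * b.val) + pp (a.val * b.val) ((op B u (a⁻¹.val v) - op B (a⁻¹.val v) u +
      op B v (a.val u) - op B (a.val u) v) * b.val) +
      (B (b.val u) (a⁻¹.val v) + B (b.val v) (a.val u) + μ * B (a.val u) v +
        B (a.val u) v * B (b.val u) v) ^ 2 = c2 e := by
  obtain ⟨y, hy⟩ : ∃ y, y = a.val u := ⟨_, rfl⟩
  obtain ⟨w, hw⟩ : ∃ w, w = a⁻¹.val v := ⟨_, rfl⟩
  obtain ⟨ξ, hξ⟩ : ∃ ξ, ξ = B y v := ⟨_, rfl⟩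
  rw [← hy, ← hw, ← hξ]
  have ia := sc_inv hl
  have ib := sc_inv hμ
  have hav : a.val v = l • v - w := by rw [hw, ia]; abel
  have hau : a⁻¹.val u = l • u - y := by rw [ia, hy]
  have t2 : B v u = 0 := D.flip0 huv
  have t3 : B v v = 0 := D.self0 hv
  have t4 : B y u = 0 := by rw [hy]; exact hA u hu
  have t5 : B w u = ξ := by rw [hw, D.symm, ← D.adj ha, ← hy, hξ]
  have t6 : B w v = 0 := by rw [hw, D.symm, ← D.adj ha]; exact hA v hv
  have t8 : ∀ x z, B (b.val z) x = μ * B x z - B (b.val x) z := fun x z => by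
    rw [D.adj hb, ib, map_sub, map_smul, smul_eq_mul, D.symm x z, D.symm (b.val x) z]
  have t9 : ∀ x, B (a.val x) u = l * B x u - B x y := fun x => by rw [D.adj ha, hau]; simp
  have t10 : ∀ x, B (a.val x) v = B x w := fun x => by rw [D.adj ha, hw]
  have t11 : B y w = l * ξ := by
    rw [← t10, hy, D.adj ha, D.adj ha, ← hw, ia, map_sub, map_smul, hw, app_inv, huv, ← D.adj ha,
      ← hy, ← hξ, smul_eq_mul, sub_zero]
  have s1 : B (b.val u) u = 0 := hB u hu
  have s2 : B (b.val v) v = 0 := hB v hv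
  have s3 : B (b.val y) y = 0 := hB y (by rw [hy, D.isoQ ha, hu])
  have s4 : B (b.val w) w = 0 := hB w (by rw [hw, D.isoQ (G.inv_mem ha), hv])
  have r1 : B (b.val w) u = μ * ξ - B (b.val u) w := by rw [t8, D.symm w u, t5]
  have r2 : B (b.val y) v = μ * ξ - B (b.val v) y := by rw [t8, D.symm y v, ← hξ]
  have r3 : B (b.val y) u = - B (b.val u) y := by rw [t8, D.symm y u, t4]; ring
  have r4 : B (b.val w) v = - B (b.val v) w := by rw [t8, D.symm w v, t6]; ring
  have r5 : B (b.val v) u = - B (b.val u) v := by rw [t8, huv]; ring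
  have r6 : B (b.val w) y = μ * (l * ξ) - B (b.val y) w := by rw [t8, t11]
  obtain ⟨Y, hY⟩ : ∃ Y : End F V, Y = op B u w - op B w u + op B v y - op B y v := ⟨_, rfl⟩
  obtain ⟨N, hN⟩ : ∃ N : End F V, N = op B u v - op B v u := ⟨_, rfl⟩
  rw [← hY]
  have key : c2 (a.val * b.val + Y * b.val + (-ξ) • (N * b.val)) = c2 e := by
    obtain ⟨z, hz, -, k⟩ := (h.conjL (D.N_mem hu hv huv)).tr
    rw [hZ z hz, one_pow, one_mul] at k
    rw [← k]
    congr 1
    rw [← smul_mul_assoc, ← add_mul, ← add_mul]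
    congr 1
    ext x
    simp [hY, hN, ← hy, hav, t2, t3, t4, t5, t6, t9, t10, huv, ← hξ]
    module
  have p1 : c2 (Y * b.val) = B (b.val u) w ^ 2 + B (b.val v) y ^ 2 + μ * ξ * B (b.val u) w +
      μ * ξ * B (b.val v) y + μ ^ 2 * ξ ^ 2 + μ * l * ξ * B (b.val u) v := by
    simp only [hY, op, sub_mul, add_mul, rk_mul, c2_add, c2_sub, c2_rk, pp, tr_rk, mul_rk, rk_apply,
      map_add, map_sub, map_smul, LinearMap.comp_apply, LinearMap.flip_apply, smul_eq_mul,
      s1, s2, s3, s4, r1, r2, r3, r4, r5, r6]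
    linear_combination (-2 * B (b.val u) w * μ * ξ + 2 * B (b.val u) w * B (b.val v) y -
      2 * μ * ξ * B (b.val v) y - μ * ξ * B (b.val u) v * l - B (b.val v) w * B (b.val u) y +
      B (b.val u) v * B (b.val y) w) * h2
  have p2 : c2 (N * b.val) = B (b.val u) v ^ 2 := by
    simp only [hN, op, sub_mul, rk_mul, c2_sub, c2_rk, pp, tr_rk, mul_rk, rk_apply,
      map_smul, LinearMap.comp_apply, LinearMap.flip_apply, smul_eq_mul, s1, s2, r5]
    ring
  have p3 : pp (Y * b.val) (N * b.val) = 0 := by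
    simp only [hY, hN, op, sub_mul, add_mul, mul_sub, rk_mul, pp, tr_rk, mul_rk, rk_apply,
      map_add, map_sub, map_smul, LinearMap.comp_apply, LinearMap.flip_apply, smul_eq_mul,
      s1, s2, s3, s4, r1, r2, r3, r4, r5, r6]
    linear_combination (B (b.val u) v * (B (b.val u) w - μ * ξ + B (b.val v) y)) * h2
  have p4 : pp (a.val * b.val) (N * b.val) =
      μ * (B (b.val u) w + B (b.val v) y + l * B (b.val u) v) := by
    have e1 : B (b.val (a.val (b.val u))) v = μ * B (b.val u) w - B (a.val (b.val u)) (b.val v) := by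
      rw [D.adj hb, ib, map_sub, map_smul, t10, smul_eq_mul]
    have e2 : B (b.val (a.val (b.val v))) u = - μ * (l * B (b.val u) v + B (b.val v) y) +
        B (a.val (b.val u)) (b.val v) := by
      rw [D.adj hb, ib, map_sub, map_smul, t9, smul_eq_mul, r5, D.adj ha, ia, map_sub, map_smul,
        D.iso hb, t2, D.symm (a.val (b.val u))]
      simp only [smul_eq_mul]
      ring
    simp only [hN, op, sub_mul, mul_sub, rk_mul, pp, tr_rk, mul_rk, End.mul_apply,
      map_sub, map_smul, LinearMap.comp_apply, LinearMap.flip_apply, smul_eq_mul, e1, e2, r5]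
    linear_combination (tr (a.val * b.val) * B (b.val u) v + B (a.val (b.val u)) (b.val v) -
      μ * (B (b.val u) w + B (b.val v) y + l * B (b.val u) v)) * h2
  rw [← key, c2_add, c2_add, c2_smul, p1, p2]
  simp only [pp, add_mul, mul_smul_comm, smul_mul_assoc, map_add, map_smul, smul_eq_mul] at p3 p4 ⊢
  linear_combination ξ * p3 + ξ * p4 + (B (b.val u) w * B (b.val v) y +
    (B (b.val u) w + B (b.val v) y) * (μ * ξ + ξ * B (b.val u) v) + μ * ξ ^ 2 * B (b.val u) v) * h2

lemma altalt (h8 : 8 ≤ finrank F V) (hZ : ∀ z ∈ Z, z = 1) (ha : a ∈ G) (hb : b ∈ G)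
    (na : NS a.val) (nb : NS b.val) (hA : Alt Q B a.val) (hB : Alt Q B b.val) : False := by
  have fr : ∀ c : End F V, Alt Q B c → NS c →
      ∃ u v w, Fr3 Q B u v w ∧ B (c u) v ≠ 0 ∧ B (c u) w = 0 := by
    intro c hc nc
    obtain ⟨u, v, f, hne⟩ := D.alt_frame hc nc
    obtain ⟨w, f3⟩ := D.ext3 f
    refine ⟨u, v, (-(B (c u) w / B (c u) v)) • v + w, ?_, hne, by simp [hne]⟩
    simpa using D.fr3_tr f3 (s := 1) (a1 := 0) (a2 := 1) (a3 := 0) (b1 := 0)
      (b2 := -(B (c u) w / B (c u) v)) (b3 := 1) one_ne_zero (by simp)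
  obtain ⟨u, v, w, f, k1, k2⟩ := fr _ hA na
  obtain ⟨u', v', w', f', j1, j2⟩ := fr _ hB nb
  have f'' : Fr3 Q B u' w' v' := by
    simpa using D.fr3_tr f' (s := 1) (a1 := 0) (a2 := 0) (a3 := 1) (b1 := 0)
      (b2 := 1) (b3 := 0) one_ne_zero (by simp)
  obtain ⟨g, hg, e1, e2, e3⟩ := D.T3 h8 f f''
  rw [D.conjB hg, e1, e3] at j1
  rw [D.conjB hg, e1, e2] at j2
  have hb' : g * b * g⁻¹ ∈ G := G.mul_mem (G.mul_mem hg hb) (G.inv_mem hg)
  have hB' : Alt Q B (g * b * g⁻¹).val := by
    intro x hx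
    rw [← app_inv g x, ← D.conjB hg]
    exact hB _ (by rw [D.isoQ (G.inv_mem hg), hx])
  have h' := h.conjR hg
  generalize g * b * g⁻¹ = b' at j1 j2 hb' hB' h'
  obtain ⟨l, hl⟩ := D.alt_sc ha hA
  obtain ⟨μ, hμ⟩ := D.alt_sc hb' hB'
  have s0 := D.AA0 h' h2 hZ ha hb' hA hB' hl hμ f.f2.qu (v := 0) (by simp) (by simp)
  have s1 := D.AA0 h' h2 hZ ha hb' hA hB' hl hμ f.f2.qu f.f2.qv f.f2.uv
  have s2 := D.AA0 h' h2 hZ ha hb' hA hB' hl hμ f.f2.qu f.qw f.uw
  have s3 := D.AA0 h' h2 hZ ha hb' hA hB' hl hμ f.f2.qu (v := v + w)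
    (by simp [D.pol, f.f2.qv, f.qw, f.vw]) (by simp [f.f2.uv, f.uw])
  simp only [op, sub_mul, add_mul, mul_sub, mul_add, rk_mul, pp, tr_rk, mul_rk, End.mul_apply,
    map_add, map_sub, map_zero, LinearMap.comp_apply, LinearMap.flip_apply, LinearMap.add_apply,
    LinearMap.zero_apply, k2, j2] at s0 s1 s2 s3
  apply pow_ne_zero 2 (mul_ne_zero k1 j1)
  generalize B (b'.val u) (a⁻¹.val v) = x1 at *
  generalize B (b'.val u) (a⁻¹.val w) = x2 at *
  generalize B (b'.val v) (a.val u) = x3 at *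
  generalize B (b'.val w) (a.val u) = x4 at *
  generalize B (a.val u) v = x5 at *
  generalize B (b'.val u) w = x6 at *
  linear_combination s3 - s1 - s2 + s0 - ((x1 + x3 + μ * x5) * (x2 + x4) +
    (x1 + x3 + μ * x5 + x2 + x4) * (x5 * x6)) * h2

theorem main2 (h8 : 8 ≤ finrank F V) (hZ : ∀ z ∈ Z, z = 1) (ha : a ∈ G) (hb : b ∈ G)
    (na : NS a.val) (nb : NS b.val) (hA : Alt Q B a.val) (hS : Sym Q B b.val) : False := by
  by_cases hB : Alt Q B b.val
  · exact D.altalt h h2 h8 hZ ha hb na nb hA hB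
  have two : ∀ x : V, x + x = 0 := fun x => by rw [← two_smul F, h2, zero_smul]
  have m1' : (-1 : F) = 1 := by linear_combination -h2
  obtain ⟨κ, hκ⟩ := D.sym_sc hb hS
  rw [m1'] at hκ
  have ib := sc_inv hκ
  have hκ0 : κ = 0 := by
    simp only [Alt, not_forall] at hB
    obtain ⟨v, hv, hB⟩ := hB
    have e1 := D.isoQ (G.inv_mem hb) v
    rw [ib, D.Qsub, Qsmul, D.isoQ hb, hv, map_smul, LinearMap.smul_apply, D.symm] at e1
    apply mul_right_cancel₀ hB
    rw [smul_eq_mul] at e1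
    linear_combination -e1
  have hbb : ∀ x, b.val (b.val x) = x := by
    intro x
    have := ib (b.val x)
    rw [inv_app, hκ0, zero_smul] at this
    linear_combination (norm := module) this - two x
  have hbs : ∀ x y, B (b.val x) y = B x (b.val y) := fun x y => by rw [← D.iso hb, hbb]
  choose φ0 hφ0 using fun x => exists_sqrt_two h2 (B (b.val x) x)
  let φ : V →ₗ[F] F :=
    { toFun := φ0
      map_add' := fun x y => sq_inj_two h2 (by
        rw [hφ0, add_sq, hφ0, hφ0]
        simp only [map_add, LinearMap.add_apply, hbs y x, D.symm (b.val x) y]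
        linear_combination (B (b.val x) y - φ0 x * φ0 y) * h2)
      map_smul' := fun c x => sq_inj_two h2 (by
        rw [hφ0, RingHom.id_apply, smul_eq_mul, mul_pow, hφ0]
        simp only [map_smul, LinearMap.smul_apply, smul_eq_mul]
        ring) }
  obtain ⟨y, hy⟩ := rep B D.nd φ
  have hy2 : ∀ x, B (b.val x) x = B x y ^ 2 := fun x => by rw [← hy, ← hφ0]; rfl
  obtain ⟨M, hM⟩ : ∃ M : End F V, M = b.val - 1 - op B y y := ⟨_, rfl⟩
  have Ms : ∀ x z, B (M x) z = B x (M z) := by
    intro x z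
    simp [hM, hbs, D.symm y z]
    ring
  have K : ∀ u, u ≠ 0 → Q u = 0 → b.val u = u → ∀ x, B u x = 0 → M x ∈ span F {u} := by
    intro u hu0 hu hbu x hx
    apply D.SC1
    intro v huv hv
    refine D.SPAN u (B.flip v ∘ₗ M) (fun z huz hz => ?_) x hx
    have := D.GO h (fun z hz => by rw [hZ z hz, one_pow]) ha na hA hb hbb (ε := 1) (by ring)
      (by simpa using hbu) hu0 hu hz huz hv huv
    rw [hy2, hy2, ← mul_pow] at this
    have := sq_inj_two h2 this
    simp [hM, D.symm v y]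
    linear_combination this
  have h6 : (b.val - 1) * (b.val - 1) = 0 := by
    ext x
    simp only [End.mul_apply, LinearMap.sub_apply, End.one_apply, map_sub, hbb,
      LinearMap.zero_apply]
    linear_combination (norm := module) h2 • (x - b.val x)
  have := fker_mul h6
  obtain ⟨u1, k1, k2, k3⟩ := D.SING (W := LinearMap.ker (b.val - 1)) (R := ⊥) (by simp; omega)
  have k1 : b.val u1 = u1 := by simpa [sub_eq_zero] using k1
  have k2 : u1 ≠ 0 := by simpa using k2
  obtain ⟨e1, he1, -⟩ := sep B D.nd (nmem0.mpr k2)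
  have im1 : ∀ x, M x ∈ span F {u1, M e1} := by
    intro x
    have := K u1 k2 k3 k1 (x - B u1 x • e1) (by simp [he1])
    have e2 : M x = M (x - B u1 x • e1) + B u1 x • M e1 := by simp
    rw [e2]
    exact add_mem (span_mono (by simp) this) (smul_mem _ _ (m22 _ _))
  have := fs2 (F := F) u1 (M e1)
  have := fs3 (F := F) u1 (M e1) y
  have := fperp B (span F {u1, M e1, y})
  obtain ⟨u2, j1, j2, j3⟩ := D.SING (W := LinearMap.BilinForm.orthogonal B (span F {u1, M e1, y}))
    (R := span F {u1, M e1}) (by omega)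
  have j4 : b.val u2 = u2 := by
    rw [← sub_eq_zero]
    apply D.nd
    intro z
    have e2 : B (M z) u2 = 0 := j1 _ (span_mono (by intro t; simp; tauto) (im1 z))
    have e3 : B u2 y = 0 := D.flip0 (j1 y (m33 _ _ _))
    rw [Ms] at e2
    simpa [hM, e3] using e2
  have hsp : ∀ x, M x ∈ span F {u2} → M x = 0 := by
    intro x hx
    obtain ⟨c, hc⟩ := mem_span_singleton.mp hx
    by_cases hc0 : c = 0
    · rw [← hc, hc0, zero_smul]
    · exact absurd ((smul_mem_iff _ hc0).mp (hc ▸ im1 x)) j2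
  have M0 : ∀ x, M x = 0 := by
    intro x
    apply hsp
    apply D.SC1
    intro v hv _
    rw [Ms, hsp v (K u2 (ne_zero_of_nmem j2) j3 j4 v hv), map_zero]
  have hb1 : ∀ x, b.val x = x + B x y • y := by
    intro x
    have := M0 x
    simp only [hM, LinearMap.sub_apply, End.one_apply, op_apply] at this
    linear_combination (norm := module) this
  have hy0 : y ≠ 0 := by
    rintro rfl
    apply nb 1
    ext x; simp [hb1]
  have hQy : Q y = 1 := by
    obtain ⟨z, hz, -⟩ := sep B D.nd (nmem0.mpr hy0)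
    have := D.isoQ hb z
    rw [hb1, D.pol, Qsmul, map_smul, D.symm, hz] at this
    simp only [smul_eq_mul] at this
    linear_combination this - h2
  apply D.dickson h2 (n := y) (by simp [hQy])
  have : D.refl (n := y) (by simp [hQy]) = b := by
    apply Units.ext
    ext x
    rw [D.refl_app, hb1, hQy]
    linear_combination (norm := module) -two (B x y • y)
  rw [this]
  exact hb

end OD

end Pool.Agent.MP_db74b1_al
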