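import Pool.Agent.MP_db74b1_al.ClO1

/-! The spinor norm, through the Clifford algebra. -/

set_option autoImplicit false
set_option linter.unusedSectionVars false

namespace Pool.Agent.MP_db74b1_al
open Module Submodule CliffordAlgebra
open scoped commutatorElement

variable {F V : Type} [Field F] [AddCommGroup V] [Module F V] [Finite F] [FiniteDimensional F V]

/-- `t` in the Clifford algebra induces `g` and has norm `d` -/
def Spn (Q : QuadraticForm F V) (g : (End F V)ˣ) (d : F) : Prop :=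
  d ≠ 0 ∧ ∃ t : CliffordAlgebra Q, (∀ x, ι Q (g.val x) * t = involute t * ι Q x) ∧
    t * reverse t = algebraMap F _ d

lemma Spn.mul {Q : QuadraticForm F V} {g h : (End F V)ˣ} {d d' : F} (hg : Spn Q g d)
    (hh : Spn Q h d') : Spn Q (g * h) (d * d') := by
  obtain ⟨h0, t, h1, h2⟩ := hg
  obtain ⟨k0, s, k1, k2⟩ := hh
  refine ⟨mul_ne_zero h0 k0, t * s, fun x => ?_, ?_⟩
  · rw [Units.val_mul, End.mul_apply, ← mul_assoc, h1, mul_assoc, k1, map_mul, mul_assoc]
  · rw [reverse.map_mul, mul_assoc, ← mul_assoc s, k2, ← mul_assoc, ← Algebra.commutes, mul_assoc,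
      h2, ← map_mul, mul_comm]

lemma Spn.one (Q : QuadraticForm F V) : Spn Q 1 1 :=
  ⟨one_ne_zero, 1, fun x => by simp, by simp⟩

lemma cl_twist {Q : QuadraticForm F V} (x : V) (S : Set V) (h : ∀ y ∈ S, Q.IsOrtho x y)
    {c : CliffordAlgebra Q} (hc : c ∈ Algebra.adjoin F (ι Q '' S)) :
    ι Q x * c = involute c * ι Q x ∧ involute c ∈ Algebra.adjoin F (ι Q '' S) := by
  induction hc using Algebra.adjoin_induction with
  | mem y hy =>
    obtain ⟨y, hy', rfl⟩ := hy
    refine ⟨by rw [involute_ι, ι_mul_ι_comm_of_isOrtho (h y hy'), neg_mul], ?_⟩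
    rw [involute_ι]
    exact neg_mem (Algebra.subset_adjoin ⟨y, hy', rfl⟩)
  | algebraMap r =>
    rw [AlgHom.commutes]
    exact ⟨(Algebra.commutes _ _).symm, Subalgebra.algebraMap_mem _ _⟩
  | add y z _ _ hy hz =>
    rw [map_add, mul_add, add_mul, hy.1, hz.1]
    exact ⟨rfl, add_mem hy.2 hz.2⟩
  | mul y z _ _ hy hz =>
    rw [map_mul, ← mul_assoc, hy.1, mul_assoc, hz.1, mul_assoc]
    exact ⟨rfl, mul_mem hy.2 hz.2⟩

lemma cl_split {Q : QuadraticForm F V} (x : V) (S : Set V) (h : ∀ y ∈ S, Q.IsOrtho x y)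
    {c : CliffordAlgebra Q} (hc : c ∈ Algebra.adjoin F (ι Q '' insert x S)) :
    ∃ c0 ∈ Algebra.adjoin F (ι Q '' S), ∃ c1 ∈ Algebra.adjoin F (ι Q '' S), c = c0 + c1 * ι Q x := by
  induction hc using Algebra.adjoin_induction with
  | mem y hy =>
    obtain ⟨y, hy', rfl⟩ := hy
    rcases hy' with rfl | hy'
    · exact ⟨0, zero_mem _, 1, one_mem _, by simp⟩
    · exact ⟨ι Q y, Algebra.subset_adjoin ⟨y, hy', rfl⟩, 0, zero_mem _, by simp⟩
  | algebraMap r => exact ⟨_, Subalgebra.algebraMap_mem _ r, 0, zero_mem _, by simp⟩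
  | add y z _ _ hy hz =>
    obtain ⟨c0, h0, c1, h1, rfl⟩ := hy
    obtain ⟨d0, k0, d1, k1, rfl⟩ := hz
    exact ⟨c0 + d0, add_mem h0 k0, c1 + d1, add_mem h1 k1, by rw [add_mul]; abel⟩
  | mul y z _ _ hy hz =>
    obtain ⟨c0, h0, c1, h1, rfl⟩ := hy
    obtain ⟨d0, k0, d1, k1, rfl⟩ := hz
    obtain ⟨e0, f0⟩ := cl_twist x S h k0
    obtain ⟨e1, f1⟩ := cl_twist x S h k1
    refine ⟨c0 * d0 + c1 * involute d1 * algebraMap F _ (Q x),
      add_mem (mul_mem h0 k0) (mul_mem (mul_mem h1 f1) (Subalgebra.algebraMap_mem _ _)),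
      c0 * d1 + c1 * involute d0, add_mem (mul_mem h0 k1) (mul_mem h1 f0), ?_⟩
    have e2 : ι Q x * (d1 * ι Q x) = involute d1 * algebraMap F _ (Q x) := by
      rw [← mul_assoc, e1, mul_assoc, ι_sq_scalar]
    simp only [mul_add, add_mul, mul_assoc, e0, e2]
    abel

namespace OD
variable {Q : QuadraticForm F V} {B : V →ₗ[F] V →ₗ[F] F} {G : Subgroup (End F V)ˣ} (D : OD Q B G)
include D

lemma polar_eq (x y : V) : QuadraticMap.polar Q x y = B x y := by
  rw [QuadraticMap.polar, D.pol]; ring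

lemma spn_refl {n : V} (hn : Q n ≠ 0) : Spn Q (D.refl hn) (Q n) := by
  refine ⟨hn, ι Q n, fun x => ?_, by simp⟩
  rw [D.refl_app, map_sub, map_smul, sub_mul, smul_mul_assoc, ι_sq_scalar, involute_ι,
    ι_mul_ι_comm x n, D.polar_eq, Algebra.smul_def, ← map_mul (algebraMap F (CliffordAlgebra Q))]
  have : (Q n)⁻¹ * B x n * Q n = B x n := by field_simp
  rw [this, neg_mul]
  abel

variable (h2 : (2 : F) ≠ 0)
include h2

lemma orth_basis : ∃ e : Basis (Fin (finrank F V)) F V,
    (∀ i j, i ≠ j → B (e i) (e j) = 0) ∧ ∀ i, Q (e i) ≠ 0 := by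
  let _ : Invertible (2 : F) := invertibleOfNonzero h2
  obtain ⟨e, he⟩ := LinearMap.BilinForm.exists_orthogonal_basis (B := B) ⟨fun x y => D.symm y x⟩
  refine ⟨e, fun i j hij => he hij, fun i hi => ?_⟩
  exact he.not_isOrtho_basis_self_of_separatingLeft D.nd' i (D.self0 hi)

lemma spn_one {d : F} (h : Spn Q 1 d) : ∃ s : F, d = s ^ 2 := by
  let _ : Invertible (2 : F) := invertibleOfNonzero h2
  obtain ⟨e, he1, he2⟩ := D.orth_basis h2
  obtain ⟨-, t, h1, h3⟩ := h
  simp only [Units.val_one, End.one_apply] at h1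
  have key : ∀ s : Finset (Fin (finrank F V)), t ∈ Algebra.adjoin F (ι Q '' (e '' s)) →
      ∃ r : F, t = algebraMap F _ r := by
    intro s
    induction s using Finset.induction_on with
    | empty =>
      intro ht
      simp only [Finset.coe_empty, Set.image_empty, Algebra.adjoin_empty] at ht
      obtain ⟨r, hr⟩ := Algebra.mem_bot.mp ht
      exact ⟨r, hr.symm⟩
    | insert i s hi ih =>
      intro ht
      rw [Finset.coe_insert, Set.image_insert_eq] at ht
      have ho : ∀ y ∈ e '' s, Q.IsOrtho (e i) y := by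
        rintro _ ⟨j, hj, rfl⟩
        rw [QuadraticMap.isOrtho_def, D.pol, he1 i j (by rintro rfl; exact hi hj), add_zero]
      obtain ⟨c0, k0, c1, k1, e1⟩ := cl_split _ _ ho ht
      have e2 := h1 (e i)
      rw [e1, mul_add, (cl_twist _ _ ho k0).1, ← mul_assoc, (cl_twist _ _ ho k1).1, map_add, map_mul,
        involute_ι, add_mul, mul_neg, neg_mul, mul_assoc, ι_sq_scalar, add_right_inj,
        ← Algebra.commutes, ← Algebra.smul_def] at e2
      have e3 : (2 * Q (e i)) • involute c1 = 0 := by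
        rw [mul_smul, two_smul]
        nth_rewrite 1 [e2]
        exact neg_add_cancel _
      have e4 : c1 = 0 := by
        have := (smul_eq_zero.mp e3).resolve_left (mul_ne_zero h2 (he2 i))
        rw [← involute_involute c1, this, map_zero]
      apply ih
      rw [e1, e4, zero_mul, add_zero]
      exact k0
  obtain ⟨r, hr⟩ := key Finset.univ (by
    have : Algebra.adjoin F (ι Q '' (e '' (Finset.univ : Finset (Fin (finrank F V))))) = ⊤ := by
      rw [eq_top_iff, ← adjoin_range_ι, Algebra.adjoin_le_iff]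
      rintro _ ⟨x, rfl⟩
      rw [← e.sum_repr x, map_sum]
      refine sum_mem fun i _ => ?_
      rw [map_smul]
      exact Subalgebra.smul_mem _ (Algebra.subset_adjoin (Set.mem_image_of_mem _
        (Set.mem_image_of_mem _ (by simp)))) _
    rw [this]; trivial)
  rw [hr, reverse.commutes, ← map_mul] at h3
  exact ⟨r, by rw [← (algebraMap F (CliffordAlgebra Q)).injective h3, pow_two]⟩

lemma spn_ex {g : (End F V)ˣ} (hg : g ∈ orthGroup Q) : ∃ d, Spn Q g d := by
  obtain ⟨e, he1, he2⟩ := D.orth_basis h2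
  have key : ∀ s : Finset (Fin (finrank F V)), ∀ g ∈ orthGroup Q, (∀ i, i ∉ s → g.val (e i) = e i) →
      ∃ d, Spn Q g d := by
    intro s
    induction s using Finset.induction_on with
    | empty =>
      intro g _ h
      have : g = 1 := Units.ext (e.ext fun i => h i (by simp))
      exact ⟨1, this ▸ Spn.one Q⟩
    | insert i s hi ih =>
      intro g hg h
      have hq : Q (g.val (e i)) = Q (e i) := hg _
      have ho : ∀ j, j ∉ s → j ≠ i → B (e j) (g.val (e i)) = 0 ∧ g.val (e j) = e j := by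
        intro j hj hji
        have := h j (by simp [hj, hji])
        exact ⟨by rw [← this, D.isoO hg, he1 j i hji], this⟩
      by_cases h1 : Q (g.val (e i) - e i) = 0
      · have h3 : Q (g.val (e i) + e i) ≠ 0 := by
          intro hh
          rw [D.Qsub] at h1
          rw [D.pol] at hh
          apply mul_ne_zero (mul_ne_zero h2 h2) (he2 i)
          linear_combination h1 + hh - 2 * hq
        obtain ⟨d, hd⟩ := ih (D.refl (he2 i) * (D.refl h3 * g))
          ((orthGroup Q).mul_mem (D.refl_mem _) ((orthGroup Q).mul_mem (D.refl_mem _) hg)) (by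
            intro j hj
            simp only [Units.val_mul, End.mul_apply]
            by_cases hji : j = i
            · subst hji
              have e1 : (Q (g.val (e j) + e j))⁻¹ * B (g.val (e j)) (g.val (e j) + e j) = 1 := by
                rw [inv_mul_eq_one₀ h3, D.pol, map_add, D.self, hq]; ring
              rw [D.refl_app h3, e1, D.refl_app]
              simp [D.self]
              have := he2 j
              match_scalars; field_simp; ring
            · obtain ⟨k1, k2⟩ := ho j hj hji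
              simp [D.refl_app, k1, k2, he1 j i hji])
        have := (D.spn_refl h3).mul ((D.spn_refl (he2 i)).mul hd)
        rw [← mul_assoc (D.refl (he2 i)),
          show D.refl (he2 i) * D.refl (he2 i) = 1 from Units.ext (D.refl_sq (he2 i)),
          one_mul, ← mul_assoc, show D.refl h3 * D.refl h3 = 1 from Units.ext (D.refl_sq h3),
          one_mul] at this
        exact ⟨_, this⟩
      · obtain ⟨d, hd⟩ := ih (D.refl h1 * g) ((orthGroup Q).mul_mem (D.refl_mem _) hg) (by
            intro j hj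
            simp only [Units.val_mul, End.mul_apply]
            by_cases hji : j = i
            · subst hji
              have e1 : (Q (g.val (e j) - e j))⁻¹ * B (g.val (e j)) (g.val (e j) - e j) = 1 := by
                rw [inv_mul_eq_one₀ h1, D.Qsub, map_sub, D.self, hq]; ring
              rw [D.refl_app h1, e1]
              simp
            · obtain ⟨k1, k2⟩ := ho j hj hji
              simp [D.refl_app, k1, k2, he1 j i hji])
        have := (D.spn_refl h1).mul hd
        rw [← mul_assoc, show D.refl h1 * D.refl h1 = 1 from Units.ext (D.refl_sq h1),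
          one_mul] at this
        exact ⟨_, this⟩
  exact key Finset.univ g hg (by simp)

lemma spn_G {g : (End F V)ˣ} (hg : g ∈ G) : ∃ d, Spn Q g (d ^ 2) := by
  have inv : ∀ g ∈ orthGroup Q, ∀ d, Spn Q g d → ∃ d' s, Spn Q g⁻¹ d' ∧ d * d' = s ^ 2 := by
    intro g hg d hd
    obtain ⟨d', hd'⟩ := D.spn_ex h2 ((orthGroup Q).inv_mem hg)
    have := hd.mul hd'
    rw [mul_inv_cancel] at this
    obtain ⟨s, hs⟩ := D.spn_one h2 this
    exact ⟨d', s, hd', hs⟩
  let K : Subgroup (End F V)ˣ :=
    { carrier := {g | g ∈ orthGroup Q ∧ ∃ d, Spn Q g (d ^ 2)}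
      mul_mem' := by
        rintro a b ⟨ha, d, hd⟩ ⟨hb, d', hd'⟩
        exact ⟨(orthGroup Q).mul_mem ha hb, d * d', mul_pow d d' 2 ▸ hd.mul hd'⟩
      one_mem' := ⟨(orthGroup Q).one_mem, 1, by simpa using Spn.one Q⟩
      inv_mem' := by
        rintro a ⟨ha, d, hd⟩
        obtain ⟨d', s, k1, k2⟩ := inv a ha _ hd
        refine ⟨(orthGroup Q).inv_mem ha, s / d, ?_⟩
        have : (s / d) ^ 2 = d' := by
          rw [div_pow, ← k2, mul_div_cancel_left₀ _ hd.1]
        rwa [this] }
  have hle : ⁅orthGroup Q, orthGroup Q⁆ ≤ K := by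
    rw [Subgroup.commutator_le]
    intro g hg h hh
    refine ⟨Subgroup.commutator_le_self _ (Subgroup.commutator_mem_commutator hg hh), ?_⟩
    obtain ⟨d1, k1⟩ := D.spn_ex h2 hg
    obtain ⟨d2, k2⟩ := D.spn_ex h2 hh
    obtain ⟨d3, s, k3, j3⟩ := inv g hg _ k1
    obtain ⟨d4, t, k4, j4⟩ := inv h hh _ k2
    refine ⟨s * t, ?_⟩
    have : (s * t) ^ 2 = d1 * d2 * d3 * d4 := by rw [mul_pow, ← j3, ← j4]; ring
    rw [this, commutatorElement_def]
    exact ((k1.mul k2).mul k3).mul k4
  exact (hle (D.mem.le hg)).2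

theorem spin {b g : (End F V)ˣ} (hb : b ∈ G) (hg : g ∈ orthGroup Q) {n z : V} (hn : Q n ≠ 0)
    (hz : Q z ≠ 0) (h1 : b.val = -(D.refl hn).val) (h3 : (g * g).val = -(D.refl hz).val) :
    ∃ s : F, Q n * Q z = s ^ 2 := by
  obtain ⟨d1, k1⟩ := D.spn_G h2 hb
  obtain ⟨d2, k2⟩ := D.spn_ex h2 hg
  have := (k1.mul (k2.mul k2)).mul ((D.spn_refl hz).mul (D.spn_refl hn))
  have e1 : b * (g * g) * (D.refl hz * D.refl hn) = 1 := by
    apply Units.ext
    rw [Units.val_mul, Units.val_mul, h1, h3, Units.val_mul, neg_mul_neg, mul_assoc,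
      ← mul_assoc (D.refl hz).val, show (D.refl hz).val * (D.refl hz).val = 1 from D.refl_sq hz,
      one_mul]
    exact D.refl_sq hn
  rw [e1] at this
  obtain ⟨s, hs⟩ := D.spn_one h2 this
  have h4 : d1 ≠ 0 := fun hh => k1.1 (by simp [hh])
  have h5 := k2.1
  refine ⟨s / (d1 * d2), ?_⟩
  field_simp
  linear_combination hs

end OD

end Pool.Agent.MP_db74b1_al
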