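import Pool.Agent.MP_db74b1_al.ClU2

/-! Unitary groups: structure of elements with degenerate Gram matrices, and the field with
four elements. -/

set_option autoImplicit false
set_option linter.unusedSectionVars false

namespace Pool.Agent.MP_db74b1_al
open Module Submodule

variable {F V : Type} [Field F] [AddCommGroup V] [Module F V] [Finite F] [FiniteDimensional F V]

lemma det_one_add_rk (p : V) (φ : V →ₗ[F] F) : LinearMap.det (1 + rk p φ) = 1 + φ p := by
  rw [← LinearMap.transvection.det φ p]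
  congr 1

namespace UD
variable {σ : F →+* F} {B : V →ₗ[F] V →ₛₗ[σ] F} {G : Subgroup (End F V)ˣ} (D : UD σ B G)
include D

lemma special {b : (End F V)ˣ} (hb : b ∈ G)
    (H : ∀ v w, B v v = 0 → B w w = 0 → B v w = 0 →
      B (b.val v) v * B (b.val w) w = B (b.val v) w * B (b.val w) v)
    {v : V} (hv : B v v = 0) (hq : B (b.val v) v = 0) : b.val v ∈ span F {v} := by
  by_contra hy
  have hy' : b⁻¹.val v ∉ span F {v} := by
    intro hh
    obtain ⟨c, hc⟩ := mem_span_singleton.mp hh
    have e1 : c • b.val v = v := by rw [← map_smul, hc, app_inv]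
    have hc0 : c ≠ 0 := by
      rintro rfl
      apply hy
      rw [← e1]; simp
    apply hy
    rw [← smul_mem_iff _ hc0, e1]
    exact mem_span_singleton_self v
  obtain ⟨z, k1, k2, k3⟩ := sep2 B D.nd hy hy'
  have k3 := k3 v (mem_span_singleton_self v)
  have hyy : B (b.val v) (b.val v) = 0 := by rw [D.iso hb, hv]
  have key : ∀ μ : F, μ * B (b.val v) z + σ μ * σ (B (b.val v) z) = B z z →
      B (b⁻¹.val v) z = σ μ * B (b⁻¹.val v) (b.val v) := by
    intro μ hμ
    have := H v (z - μ • b.val v) hv (by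
      simp [hyy, D.herm (b.val v) z]
      linear_combination -hμ) (by simp [k3, D.flip0 hq])
    rw [hq, zero_mul, D.adj hb (z - μ • b.val v)] at this
    have e1 : B (b.val v) (z - μ • b.val v) = B (b.val v) z := by simp [hyy]
    rw [e1] at this
    have e2 := D.flip0 ((mul_eq_zero.mp this.symm).resolve_left k1)
    simp only [map_sub, map_smulₛₗ, smul_eq_mul] at e2
    linear_combination e2
  obtain ⟨s, hs0, hs⟩ := D.skew
  obtain ⟨μ, hμ⟩ := D.tr_onto (D.self z) k1
  have k1' : σ (B (b.val v) z) ≠ 0 := by simpa using k1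
  have e1 := key μ hμ
  have e2 := key (μ + s / B (b.val v) z) (by
    rw [← hμ]
    simp only [map_add, map_div₀, hs]
    field_simp
    ring)
  have e3 : B (b⁻¹.val v) (b.val v) = 0 := by
    apply mul_left_cancel₀ (a := σ (s / B (b.val v) z)) (by simp [hs0, k1])
    rw [map_add] at e2
    linear_combination e1 - e2
  rw [e3, mul_zero] at e1
  exact k2 e1

lemma structU (h4 : 4 ≤ finrank F V) {b : (End F V)ˣ} (hb : b ∈ G) (nb : NS b.val)
    (H : ∀ v w, B v v = 0 → B w w = 0 → B v w = 0 →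
      B (b.val v) v * B (b.val w) w = B (b.val v) w * B (b.val w) v) :
    ∃ (l : F) (p : V) (φ : V →ₗ[F] F), l * σ l = 1 ∧ b.val = l • 1 + rk p φ := by
  obtain ⟨u, hu, hq⟩ := D.U2 nb
  obtain ⟨m, hm⟩ : ∃ m, m = b.val u := ⟨_, rfl⟩
  obtain ⟨h, hh⟩ : ∃ h, h = B m u := ⟨_, rfl⟩
  have hh0 : h ≠ 0 := by rw [hh, hm]; exact hq
  have hh0' : σ h ≠ 0 := by simpa using hh0
  have hum : B u m = σ h := by rw [D.herm, hh]
  have hmm : B m m = 0 := by rw [hm, D.iso hb, hu]
  let P : Submodule F V := LinearMap.ker (B.flip u) ⊓ LinearMap.ker (B.flip m)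
  have hP : ∀ p, p ∈ P ↔ B p u = 0 ∧ B p m = 0 := fun p => Iff.rfl
  have proj : ∀ x, ∃ (s t : F), ∃ p ∈ P, x = s • u + t • m + p := by
    intro x
    refine ⟨B x m / σ h, B x u / h, x - (B x m / σ h) • u - (B x u / h) • m, (hP _).mpr ⟨?_, ?_⟩, ?_⟩
    · simp [hu, ← hh, hh0]
    · simp [hum, hmm, hh0']
    · abel
  have test : ∀ x, B x u = 0 → B x m = 0 → (∀ p ∈ P, B x p = 0) → x = 0 := by
    intro x h1 h2 h3
    apply D.nd'
    intro y
    obtain ⟨s, t, p, hp, rfl⟩ := proj y
    simp [h1, h2, h3 p hp]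
  have sp : ∀ v ∈ P, B v v = 0 → B (b.val v) v = 0 := by
    intro v hv hvv
    have := H u v hu hvv (D.flip0 hv.1)
    rw [← hm, D.flip0 hv.2, zero_mul, ← hh] at this
    exact (mul_eq_zero.mp this).resolve_left hh0
  obtain ⟨u1, hu1, v1, hv1, k1, k2⟩ := D.hyp (W := P) (by
      have := fker (B.flip u)
      have := fk (LinearMap.ker (B.flip u)) (B.flip m)
      simp only [P]
      omega) (by
      intro r hr hr0
      by_contra hc
      push Not at hc
      exact hr0 (test r hr.1 hr.2 hc))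
  obtain ⟨l, hl⟩ := D.U2rel b.val hu1 hv1 k1 k2 sp
  have ps : ∀ y, (∀ v ∈ P, B v y = 0) → ∀ v ∈ P, B (b.val v) y = 0 := by
    intro y hy
    refine D.SPAN (B.flip y ∘ₗ b.val) hu1 hv1 k1 k2 (fun v hv hvv => ?_)
    obtain ⟨c, hc⟩ := mem_span_singleton.mp (D.special hb H hvv (sp v hv hvv))
    simp [← hc, hy v hv]
  have bP : ∀ p ∈ P, b.val p = l • p := by
    intro p hp
    rw [← sub_eq_zero]
    apply test
    · simp [ps u (fun v hv => hv.1) p hp, (hP p).mp hp]
    · simp [ps m (fun v hv => hv.2) p hp, (hP p).mp hp]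
    · intro r hr
      simp [hl p hp r hr]
  have hll : l * σ l = 1 := by
    have := D.iso hb u1 v1
    rw [bP u1 hu1, bP v1 hv1] at this
    simpa [k2, mul_comm] using this
  have bP' : ∀ x, ∀ p ∈ P, B (b.val x) p = l * B x p := by
    intro x p hp
    have := D.iso hb x p
    rw [bP p hp] at this
    simp only [map_smulₛₗ, smul_eq_mul] at this
    linear_combination l * this - B (b.val x) p * hll
  have rel : h * B (b.val m) m = - l * σ h * (B (b.val m) u - l * h) := by
    obtain ⟨μ, hμ⟩ := D.tr_onto (D.self v1) one_ne_zero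
    simp only [mul_one, map_one] at hμ
    have hr : (-h) • (v1 - μ • u1) ∈ P := smul_mem _ _ (sub_mem hv1 (smul_mem _ _ hu1))
    have hrr : B ((-h) • (v1 - μ • u1)) ((-h) • (v1 - μ • u1)) = 0 := by
      simp [k1, k2, D.herm u1 v1, hh0]
      linear_combination σ h * hμ
    have hpr : B u1 ((-h) • (v1 - μ • u1)) = - σ h := by simp [k1, k2]
    generalize (-h) • (v1 - μ • u1) = r at hr hrr hpr
    have j1 := (hP _).mp hu1
    have j2 := (hP _).mp hr
    have := H (u + u1) (m + r) (by simp [hu, k1, j1, D.flip0 j1.1])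
      (by simp [hmm, hrr, j2, D.flip0 j2.2]) (by simp [hum, hpr, j1, D.flip0 j2.1])
    simp only [map_add, LinearMap.add_apply, ← hm, bP u1 hu1, bP r hr, map_smul,
      LinearMap.smul_apply, smul_eq_mul, bP' m _ hr, bP' m _ hu1, j1, j2, D.flip0 j1.2,
      D.flip0 j2.2, k1, hrr, hmm, ← hh, hpr, D.herm u1 r, map_neg, D.inv] at this
    linear_combination this
  refine ⟨l, m - l • u, h⁻¹ • (B.flip u ∘ₗ (b.val - l • 1)), hll, ?_⟩
  ext x
  obtain ⟨s, t, p, hp, rfl⟩ := proj x
  have j1 := (hP _).mp hp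
  rw [← sub_eq_zero]
  apply test
  · simp [← hm, bP p hp, hu, ← hh, j1]
    field_simp
    ring
  · simp [← hm, bP p hp, hu, ← hh, j1, hum, hmm]
    field_simp
    linear_combination t * rel
  · intro r hr
    have j2 := (hP _).mp hr
    simp [← hm, bP p hp, bP' m r hr, D.flip0 j2.1, D.flip0 j2.2]

section four
variable (H : ∀ x, σ x = x → x = 0 ∨ x = 1)
include H

lemma two : (2 : F) = 0 := by
  rcases H 2 (map_ofNat σ 2) with h | h
  · exact h
  · exact absurd (by linear_combination h) (one_ne_zero (α := F))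

lemma nrm {x : F} (hx : x ≠ 0) : x * σ x = 1 :=
  (H _ (by simp [D.inv, mul_comm])).resolve_left (by simpa using hx)

lemma frob (x : F) : σ x = x ^ 2 := by
  have h2 := D.two H
  by_cases hx : x = 0
  · simp [hx]
  have h1 := D.nrm H hx
  rcases H (x + σ x) (by simp [D.inv, add_comm]) with h | h
  · have e : σ x = x := by linear_combination h - x * h2
    rcases H x e with h' | h'
    · exact absurd h' hx
    · simp [h']
  · linear_combination h + h1 - x * h + (1 - x) * h2

lemma cube {x : F} (hx : x ≠ 0) : x ^ 3 = 1 := by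
  have := D.nrm H hx
  rw [D.frob H] at this
  linear_combination this

lemma omega : ∃ ω : F, ω ^ 2 + ω + 1 = 0 := by
  obtain ⟨θ, h⟩ := D.nt
  have h0 : θ ≠ 0 := by rintro rfl; simp at h
  have h1 : θ ≠ 1 := by rintro rfl; simp at h
  refine ⟨θ, mul_left_cancel₀ (sub_ne_zero.mpr h1) ?_⟩
  linear_combination D.cube H h0

lemma card4 : Nat.card F = 4 := by
  classical
  obtain ⟨ω, hω⟩ := D.omega H
  have h2 := D.two H
  have := Fintype.ofFinite F
  have h0 : ω ≠ 0 := by rintro rfl; simp at hω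
  have h1 : ω ≠ 1 := by
    rintro rfl
    exact one_ne_zero (α := F) (by linear_combination hω - h2)
  have n1 : ω + 1 ≠ 0 := fun hh => h1 (by linear_combination hh - h2)
  have : (Finset.univ : Finset F) = {0, 1, ω, ω + 1} := by
    ext x
    simp only [Finset.mem_univ, Finset.mem_insert, Finset.mem_singleton, true_iff]
    by_contra hc
    push Not at hc
    obtain ⟨c0, c1, c2, c3⟩ := hc
    have e := D.cube H c0
    apply mul_ne_zero (sub_ne_zero.mpr c1) (mul_ne_zero (sub_ne_zero.mpr c2) (sub_ne_zero.mpr c3))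
    linear_combination e + (x - 1) * hω - (x - 1) * (x * ω + x + 1) * h2
  rw [Nat.card_eq_fintype_card, ← Finset.card_univ, this, Finset.card_insert_of_notMem,
    Finset.card_insert_of_notMem, Finset.card_pair]
  · simp
  · simp [h1.symm, h0]
  · simp [h0.symm, n1.symm]

lemma transv (hn : 3 ∣ finrank F V) (h4 : 4 ≤ finrank F V) {b : (End F V)ˣ} (hb : b ∈ G)
    (nb : NS b.val) (H' : ∀ v w, B v v = 0 → B w w = 0 → B v w = 0 →
      B (b.val v) v * B (b.val w) w = B (b.val v) w * B (b.val w) v) :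
    ∃ (l : F) (p : V), l ≠ 0 ∧ p ≠ 0 ∧ B p p = 0 ∧ b.val = l • 1 + l • op B p p := by
  obtain ⟨l, p, φ, hl, hs⟩ := D.structU h4 hb nb H'
  have hl0 : l ≠ 0 := by rintro rfl; simp at hl
  obtain ⟨ψ, rfl⟩ : ∃ ψ : V →ₗ[F] F, φ = l • ψ := ⟨l⁻¹ • φ, by simp [smul_smul, hl0]⟩
  have hs' : b.val = l • (1 + rk p ψ) := by rw [hs]; ext x; simp [smul_smul]
  have hd := ((D.mem b).mp hb).2
  obtain ⟨k, hk⟩ := hn
  rw [hs', LinearMap.det_smul, hk, pow_mul, D.cube H hl0, det_one_add_rk] at hd
  have hp : ψ p = 0 := by simpa using hd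
  have hne : rk p ψ ≠ 0 := by
    intro hh; apply nb l; rw [hs', hh, add_zero]
  obtain ⟨y, hy⟩ : ∃ y, ψ y = 1 := by
    by_contra hc
    push Not at hc
    apply hne
    ext x
    by_cases hx : ψ x = 0
    · simp [hx]
    · exact absurd (by simp [hx]) (hc ((ψ x)⁻¹ • x))
  have hp0 : p ≠ 0 := by rintro rfl; apply hne; ext x; simp
  have key : ∀ x y, σ (ψ y) * B x p + ψ x * B p y + ψ x * σ (ψ y) * B p p = 0 := by
    intro x y
    have := D.iso hb x y
    simp only [hs', LinearMap.smul_apply, LinearMap.add_apply, End.one_apply, rk_apply, map_smul,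
      map_smulₛₗ, map_add, smul_eq_mul] at this
    linear_combination this - (B x y + σ (ψ y) * B x p + ψ x * B p y +
      ψ x * σ (ψ y) * B p p) * hl
  have hpp : B p p = 0 := by simpa [hp, hy] using key y p
  have e1 : ∀ x, B x p = ψ x * B p y := by
    intro x
    have := key x y
    simp only [hy, hpp, map_one] at this
    linear_combination this - ψ x * B p y * D.two H
  have e2 : B p y = 1 := by
    refine (H _ ?_).resolve_left ?_
    · rw [← D.herm, e1, hy, one_mul]
    · intro hh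
      exact hp0 (D.nd p fun x => by rw [e1, hh, mul_zero])
  refine ⟨l, p, hl0, hp0, hpp, ?_⟩
  rw [hs']
  ext x
  simp [e1, e2]

lemma spec_vec (M : End F V) {w1 w2 w3 : V} : ∃ x y z : F, ¬ (x = 0 ∧ y = 0 ∧ z = 0) ∧
    B (M (x • w1 + y • w2 + z • w3)) (x • w1 + y • w2 + z • w3) = 0 := by
  classical
  have := Fintype.ofFinite F
  let w : Fin 3 → V := ![w1, w2, w3]
  open MvPolynomial in
  let f1 : MvPolynomial (Fin 3) F := ∑ i, ∑ j, C (B (M (w i)) (w j)) * (X i * X j ^ 2)
  open MvPolynomial in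
  let f2 : MvPolynomial (Fin 3) F := ∑ i, ∑ j, C (σ (B (M (w i)) (w j))) * (X j * X i ^ 2)
  have deg : ∀ (c : F) (i j : Fin 3),
      (MvPolynomial.C c * (MvPolynomial.X i * MvPolynomial.X j ^ 2) :
        MvPolynomial (Fin 3) F).totalDegree ≤ 3 := by
    intro c i j
    refine (MvPolynomial.totalDegree_mul _ _).trans ?_
    have := MvPolynomial.totalDegree_mul (MvPolynomial.X i : MvPolynomial (Fin 3) F)
      (MvPolynomial.X j ^ 2)
    simp [MvPolynomial.totalDegree_X_pow] at this ⊢
    omega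
  have d1 : f1.totalDegree ≤ 3 :=
    MvPolynomial.totalDegree_finsetSum_le fun i _ =>
      MvPolynomial.totalDegree_finsetSum_le fun j _ => deg _ _ _
  have d2 : f2.totalDegree ≤ 3 :=
    MvPolynomial.totalDegree_finsetSum_le fun i _ =>
      MvPolynomial.totalDegree_finsetSum_le fun j _ => deg _ _ _
  have hc := D.card4 H
  rw [Nat.card_eq_fintype_card] at hc
  have hs := MvPolynomial.sum_eval_eq_zero (f1 * f2) (by
    have := MvPolynomial.totalDegree_mul f1 f2
    simp only [hc, Fintype.card_fin]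
    omega)
  have e1 : ∀ x : Fin 3 → F, MvPolynomial.eval x f1 =
      B (M (x 0 • w1 + x 1 • w2 + x 2 • w3)) (x 0 • w1 + x 1 • w2 + x 2 • w3) := by
    intro x
    simp [f1, w, Fin.sum_univ_three, D.frob H (x _)]
    ring
  have e2 : ∀ x : Fin 3 → F, MvPolynomial.eval x f2 = σ (MvPolynomial.eval x f1) := by
    intro x
    have e3 : ∀ i, σ (x i) = x i ^ 2 := fun i => D.frob H _
    have e4 : ∀ i, (x i ^ 2) ^ 2 = x i := fun i => by rw [← e3, ← D.frob H, D.inv]
    simp only [f1, f2, map_sum, map_mul, MvPolynomial.eval_C, MvPolynomial.eval_X, map_pow, e3, e4]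
    refine Finset.sum_congr rfl fun i _ => Finset.sum_congr rfl fun j _ => ?_
    ring
  by_contra hh
  push Not at hh
  have e5 : ∀ x : Fin 3 → F, MvPolynomial.eval x (f1 * f2) = 1 - if x = 0 then 1 else 0 := by
    intro x
    rw [map_mul, e2, e1]
    split_ifs with hx
    · simp [hx]
    · rw [sub_zero]
      refine D.nrm H (hh _ _ _ fun h0 h1 h2 => hx ?_)
      funext i
      fin_cases i <;> simp [h0, h1, h2]
  simp only [e5, Finset.sum_sub_distrib, Finset.sum_const, Finset.card_univ, Fintype.card_fun, hc,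
    Finset.sum_ite_eq', Finset.mem_univ, if_true] at hs
  simp at hs
  exact one_ne_zero (α := F) (by linear_combination -hs + 32 * D.two H)

end four

end UD

end Pool.Agent.MP_db74b1_al
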