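import Pool.Agent.MP_db74b1_al.ClO3
import Pool.Agent.MP_db74b1_al.ClSpin
import Pool.Agent.MP_db74b1_al.ClU3

/-! Orthogonal groups in odd characteristic: involutions and reflections. -/

set_option autoImplicit false
set_option linter.unusedSectionVars false
set_option linter.unusedSimpArgs false
set_option linter.unnecessarySeqFocus false

namespace Pool.Agent.MP_db74b1_al
open Module Submodule

variable {F V : Type} [Field F] [AddCommGroup V] [Module F V] [Finite F] [FiniteDimensional F V]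

namespace OD
variable {Q : QuadraticForm F V} {B : V →ₗ[F] V →ₗ[F] F} {G : Subgroup (End F V)ˣ} (D : OD Q B G)
  (h2 : (2 : F) ≠ 0)
include D h2

lemma inv_refl {b : (End F V)ˣ} (hb : b ∈ G) (hbb : ∀ x, b.val (b.val x) = x) (nb : NS b.val)
    (H : (∀ (ε : F) (u y v : V), ε ^ 2 = 1 → b.val u = ε • u → u ≠ 0 → Q u = 0 → Q y = 0 →
      B u y = 0 → Q v = 0 → B u v = 0 →
      (B (b.val y) v - ε * B y v) ^ 2 = B (b.val y) y * B (b.val v) v) ∨ Gdeg Q B b.val) :
    ∃ (ε : F) (n : V) (hn : Q n ≠ 0), ε ^ 2 = 1 ∧ b.val = ε • (D.refl hn).val := by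
  have hd := D.dim
  have hbs : ∀ x y, B (b.val x) y = B x (b.val y) := fun x y => by rw [← D.iso hb, hbb]
  obtain ⟨ε, hε, h4⟩ : ∃ ε : F, ε ^ 2 = 1 ∧ 4 ≤ finrank F (LinearMap.ker (b.val - ε • 1)) := by
    have hz : (b.val - (1 : F) • 1) * (b.val - (-1 : F) • 1) = 0 := by
      ext x; simp [hbb, add_comm]
    have := fker_mul hz
    by_cases h : 4 ≤ finrank F (LinearMap.ker (b.val - (1 : F) • 1))
    · exact ⟨1, by ring, h⟩
    · exact ⟨-1, by ring, by omega⟩
  have hε0 : ε ≠ 0 := by rintro rfl; simp at hε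
  have memE : ∀ (c : F) (x : V), x ∈ LinearMap.ker (b.val - c • 1) ↔ b.val x = c • x := by
    intro c x; simp [sub_eq_zero]
  have proj : ∀ (c : F), c ^ 2 = 1 → ∀ x, ∃ x', b.val x' = c • x' ∧
      ∀ z, b.val z = c • z → B z x' = B z x := by
    intro c hc x
    refine ⟨(2 : F)⁻¹ • (x + c • b.val x), ?_, fun z hz => ?_⟩
    · simp only [map_smul, map_add, hbb]
      linear_combination (norm := module) (-(2 : F)⁻¹) • hc • b.val x
    · simp only [map_smul, map_add, ← hbs, hz, LinearMap.smul_apply, smul_eq_mul]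
      field_simp
      linear_combination B z x * hc
  have orth : ∀ z z', b.val z = ε • z → b.val z' = (-ε) • z' → B z z' = 0 := by
    intro z z' h1 h3
    have := hbs z z'
    rw [h1, h3] at this
    simp only [map_smul, LinearMap.smul_apply, smul_eq_mul] at this
    apply mul_left_cancel₀ (mul_ne_zero h2 hε0)
    linear_combination this
  have univE : ∀ u0, b.val u0 = ε • u0 → ∀ d, ∃ z, b.val z = ε • z ∧ B u0 z = 0 ∧ Q z = d := by
    intro u0 hu0 d
    have := fs1 (F := F) u0
    have := fk (LinearMap.ker (b.val - ε • 1)) (B u0)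
    obtain ⟨z, ⟨k1, k2⟩, k3⟩ := D.UNIV (W := LinearMap.ker (b.val - ε • 1) ⊓ LinearMap.ker (B u0))
      (R := span F {u0}) (by omega) (fun z hz hz' => by
        obtain ⟨x, j1, j2⟩ := sep B D.nd hz'
        obtain ⟨x', i1, i2⟩ := proj ε hε x
        refine ⟨x', ⟨(memE _ _).mpr i1, ?_⟩, ?_⟩
        · show B u0 x' = 0
          rw [i2 u0 hu0, j2 u0 (m1 u0)]
        · rw [i2 z ((memE _ _).mp hz.1), j1]; exact one_ne_zero) d
    exact ⟨z, (memE _ _).mp k1, k2, k3⟩
  have zero : ∀ z, b.val z = (-ε) • z → (∀ z', b.val z' = (-ε) • z' → B z z' = 0) → z = 0 := by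
    intro z hz h
    apply D.nd'
    intro x
    obtain ⟨x', i1, i2⟩ := proj (-ε) (by rw [neg_sq, hε]) x
    rw [← i2 z hz, h x' i1]
  have dec : ∀ x, b.val (b.val x - ε • x) = (-ε) • (b.val x - ε • x) := by
    intro x
    simp only [map_sub, map_smul, hbb]
    linear_combination (norm := module) -hε • x
  obtain ⟨n, hn1, hn⟩ : ∃ n, b.val n = (-ε) • n ∧ Q n ≠ 0 := by
    by_contra hh
    push Not at hh
    apply nb ε
    ext x
    rw [← sub_eq_zero]
    refine zero _ (dec x) fun z' hz' => ?_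
    have := hh (b.val x - ε • x + z') (by rw [map_add, dec, hz', smul_add])
    rwa [D.pol, hh _ (dec x), hh _ hz', zero_add, zero_add] at this
  by_cases hc : ∃ v, b.val v = (-ε) • v ∧ B n v = 0 ∧ Q v ≠ 0
  · exfalso
    obtain ⟨v, hv1, hv2, hv⟩ := hc
    have h16 := mul_ne_zero (mul_ne_zero (four_ne h2) (four_ne h2)) (mul_ne_zero hn hv)
    rcases H with H | H
    · obtain ⟨u, k1, k2, k3⟩ := D.SING (W := LinearMap.ker (b.val - ε • 1)) (R := ⊥) (by simp; omega)
      have k1 := (memE _ _).mp k1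
      obtain ⟨y, i1, i2, i3⟩ := univE u k1 (-Q n)
      obtain ⟨w, j1, j2, j3⟩ := univE u k1 (-Q v)
      have := H ε u (y + n) (w + v) hε k1 (by simpa using k2) k3
        (by simp [D.pol, i3, orth y n i1 hn1]) (by simp [i2, orth u n k1 hn1])
        (by simp [D.pol, j3, orth w v j1 hv1]) (by simp [j2, orth u v k1 hv1])
      simp only [map_add, i1, j1, hn1, hv1, map_smul, LinearMap.add_apply, LinearMap.smul_apply,
        smul_eq_mul, orth y n i1 hn1, orth w v j1 hv1, orth y v i1 hv1, D.flip0 (orth y n i1 hn1),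
        D.flip0 (orth w v j1 hv1), D.flip0 (orth w n j1 hn1), hv2, D.self, i3, j3] at this
      apply h16
      linear_combination -this - 16 * Q n * Q v * hε
    · obtain ⟨y, i1, -, i3⟩ := univE 0 (by simp) (-Q n)
      obtain ⟨w, j1, j2, j3⟩ := univE y i1 (-Q v)
      have := H (y + n) (w + v) (by simp [D.pol, i3, orth y n i1 hn1])
        (by simp [D.pol, j3, orth w v j1 hv1])
        (by simp [j2, hv2, orth y v i1 hv1, D.flip0 (orth w n j1 hn1)])
      simp only [map_add, i1, j1, hn1, hv1, map_smul, LinearMap.add_apply, LinearMap.smul_apply,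
        smul_eq_mul, orth y n i1 hn1, orth w v j1 hv1, orth y v i1 hv1, D.flip0 (orth y n i1 hn1),
        D.flip0 (orth w v j1 hv1), D.flip0 (orth w n j1 hn1), hv2, D.self, i3, j3, j2] at this
      apply h16
      linear_combination this - 16 * Q n * Q v * hε
  push Not at hc
  have line : ∀ z, b.val z = (-ε) • z → z = (B n z / (2 * Q n)) • n := by
    intro z hz
    have key : ∀ z, b.val z = (-ε) • z → b.val (z - (B n z / (2 * Q n)) • n) =
        (-ε) • (z - (B n z / (2 * Q n)) • n) ∧ B n (z - (B n z / (2 * Q n)) • n) = 0 := by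
      intro z hz
      refine ⟨by rw [map_sub, map_smul, hz, hn1, smul_sub, smul_comm], ?_⟩
      simp [D.self]
      field_simp
      ring
    rw [← sub_eq_zero]
    obtain ⟨k1, k2⟩ := key z hz
    refine zero _ k1 fun z' hz' => ?_
    obtain ⟨j1, j2⟩ := key z' hz'
    generalize z - (B n z / (2 * Q n)) • n = t at k1 k2
    have := hc (t + (z' - (B n z' / (2 * Q n)) • n)) (by rw [map_add, k1, j1, smul_add])
      (by rw [map_add, k2, j2, add_zero])
    rw [D.pol, hc _ k1 k2, hc _ j1 j2, zero_add, zero_add] at this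
    simpa [D.flip0 k2] using this
  refine ⟨ε, n, hn, hε, ?_⟩
  ext x
  have := line _ (dec x)
  rw [map_sub, ← hbs, hn1] at this
  simp only [LinearMap.smul_apply, D.refl_app, map_smul, smul_eq_mul, D.symm x n] at this ⊢
  have e1 : (-ε * B x n - ε * B x n) / (2 * Q n) = - (ε * ((Q n)⁻¹ * B x n)) := by
    field_simp; ring
  rw [e1] at this
  linear_combination (norm := module) this

lemma det_refl {n : V} (hn : Q n ≠ 0) : LinearMap.det (D.refl hn).val = -1 := by
  have : (D.refl hn).val = 1 + rk n (-(Q n)⁻¹ • B.flip n) := by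
    ext x; simp [D.refl_app, sub_eq_add_neg]
  rw [this, det_one_add_rk]
  simp [D.self]
  field_simp
  ring

lemma skew_ker (ho : finrank F V % 2 = 1) (R : End F V) (h : ∀ x y, B (R x) y = - B (R y) x) :
    ∃ z, z ≠ 0 ∧ R z = 0 := by
  let e := finBasis F V
  let M : Matrix (Fin (finrank F V)) (Fin (finrank F V)) F := Matrix.of fun i j => B (R (e i)) (e j)
  have h1 : M.transpose = -M := by
    ext i j; simp [M, h (e j)]
  have h3 : M.det = 0 := by
    have := Matrix.det_transpose M
    rw [h1, Matrix.det_neg, Fintype.card_fin, Odd.neg_one_pow (Nat.odd_iff.mpr ho)] at this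
    apply mul_left_cancel₀ h2
    linear_combination -this
  obtain ⟨v, hv, hv'⟩ := Matrix.exists_vecMul_eq_zero_iff.mpr h3
  refine ⟨∑ i, v i • e i, fun hh => hv ?_, ?_⟩
  · funext i
    exact Fintype.linearIndependent_iff.mp e.linearIndependent v hh i
  · apply D.nd'
    intro y
    have : B (R (∑ i, v i • e i)) = 0 := by
      apply e.ext
      intro j
      have := congrFun hv' j
      simpa [Matrix.vecMul, dotProduct, M] using this
    rw [this, LinearMap.zero_apply]

lemma sqrt_refl (X : End F V) (hX : ∀ x y, B (X x) y = - B x (X y)) (hXX : ∀ x, X (X x) = 0)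
    {z : V} (hz : Q z ≠ 0) (hz1 : X z = 0) (hk : ∀ k, X k = 0 → ∃ (t : V) (c : F), k = X t + c • z) :
    ∃ g ∈ orthGroup Q, (g * g).val = -(D.refl hz).val := by
  obtain ⟨h, hh⟩ : ∃ h : F, 2 * h = 1 := ⟨2⁻¹, mul_inv_cancel₀ h2⟩
  obtain ⟨c, hc⟩ : ∃ c : F, c * (2 * Q z) = 1 := ⟨_, inv_mul_cancel₀ (mul_ne_zero h2 hz)⟩
  have Xz : ∀ x, B (X x) z = 0 := fun x => by rw [hX, hz1]; simp
  obtain ⟨Y0, hY0⟩ : ∃ Y0 : End F V, ∀ x, X (Y0 (X x)) = X x := by
    obtain ⟨s, hs⟩ := X.rangeRestrict.exists_rightInverse_of_surjective X.range_rangeRestrict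
    obtain ⟨g, hg⟩ := LinearMap.exists_extend s
    refine ⟨g, fun x => ?_⟩
    have e1 : g (X x) = s ⟨X x, LinearMap.mem_range_self X x⟩ :=
      LinearMap.congr_fun hg ⟨X x, LinearMap.mem_range_self X x⟩
    rw [e1]
    exact congrArg Subtype.val (LinearMap.congr_fun hs ⟨X x, LinearMap.mem_range_self X x⟩)
  obtain ⟨Y0', hY0'⟩ : ∃ Y0' : End F V, ∀ x y, B (Y0' x) y = B x (Y0 y) :=
    ⟨_, LinearMap.BilinForm.isAdjointPairLeftAdjointOfNondegenerate B ⟨D.nd', D.nd⟩ Y0⟩
  obtain ⟨Y1, s1, s2⟩ : ∃ Y1 : End F V, (∀ x y, B (Y1 x) y = - B x (Y1 y)) ∧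
      ∀ x, X (Y1 (X x)) = X x := by
    refine ⟨h • (Y0 - Y0'), fun x y => ?_, fun x => ?_⟩
    · simp [hY0', D.symm (Y0' y) x, D.symm (Y0 x) y]
      ring
    · have : X (Y0' (X x)) = - X x := by
        rw [← sub_eq_zero]
        apply D.nd'
        intro y
        simp [hX, hY0', hY0]
      simp only [LinearMap.smul_apply, LinearMap.sub_apply, map_smul, map_sub, hY0, this]
      linear_combination (norm := module) hh • X x
  obtain ⟨Y2, r1, r2, r3⟩ : ∃ Y2 : End F V, (∀ x y, B (Y2 x) y = - B x (Y2 y)) ∧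
      (∀ x, X (Y2 (X x)) = X x) ∧ Y2 z = 0 := by
    refine ⟨(1 - c • op B z z) * Y1 * (1 - c • op B z z), fun x y => ?_, fun x => ?_, ?_⟩
    · have sa : ∀ x y, B ((1 - c • op B z z : End F V) x) y = B x ((1 - c • op B z z : End F V) y) := by
        intro x y
        simp only [LinearMap.sub_apply, End.one_apply, LinearMap.smul_apply, op_apply, map_sub,
          map_smul, smul_eq_mul, D.symm z y]
        ring
      simp only [End.mul_apply]
      rw [sa, s1, sa]
    · simp [Xz, hz1, s2]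
    · have : (1 - c • op B z z : End F V) z = 0 := by
        simp [D.self, smul_smul, hc]
      simp only [End.mul_apply, this, map_zero]
  obtain ⟨Y, t1, t2, t3, t4⟩ : ∃ Y : End F V, (∀ x y, B (Y x) y = - B x (Y y)) ∧
      (∀ x, X (Y (X x)) = X x) ∧ (∀ x, Y (X (Y x)) = Y x) ∧ Y z = 0 := by
    refine ⟨Y2 * X * Y2, fun x y => ?_, fun x => ?_, fun x => ?_, ?_⟩
    · simp [r1, hX]
    · simp [r2]
    · simp [r2]
    · simp [r3]
  have Yz : ∀ x, B (Y x) z = 0 := fun x => by rw [t1, t4]; simp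
  have tau : ∀ x, X (Y (Y (X x))) = X (Y x) + Y (X x) - x + (c * B x z) • z := by
    intro x
    obtain ⟨t, d, e1⟩ := hk (x - Y (X x)) (by simp [t2])
    have e2 : d = c * B x z := by
      have := congrArg (fun v => B v z) e1
      simp [Xz, Yz, D.self] at this
      rw [this]
      linear_combination -d * hc
    have e3 := congrArg (fun v => X (Y v)) e1
    simp only [map_sub, map_add, map_smul, t2, t4, map_zero, smul_zero, add_zero] at e3
    rw [← e2]
    linear_combination (norm := module) e1 - e3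
  obtain ⟨J, hJ⟩ : ∃ J : End F V, J = X - (1 - h • (X * Y)) * Y * (1 - h • (Y * X)) := ⟨_, rfl⟩
  have J1 : ∀ x y, B (J x) y = - B x (J y) := by
    intro x y
    simp [hJ, hX, t1]
    ring
  have J2 : J z = 0 := by simp [hJ, hz1, t4]
  have J3 : ∀ x, B (J x) z = 0 := fun x => by rw [J1, J2]; simp
  have J4 : ∀ x, J (J x) = -x + (c * B x z) • z := by
    intro x
    have : J (J x) = -(X (Y x) + Y (X x) - X (Y (Y (X x)))) := by
      simp only [hJ, LinearMap.sub_apply, End.mul_apply, End.one_apply, LinearMap.smul_apply,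
        map_sub, map_smul, hXX, t2, t3, map_zero, smul_zero]
      linear_combination (norm := module) hh • X (Y (Y (X x))) - hh • Y (Y x) +
        h • hh • X (Y (Y (Y x))) + h • hh • Y (Y (Y (X x))) -
        (h * h) • hh • X (Y (Y (Y (Y (X x)))))
    rw [this, tau]
    module
  have g2 : (J + c • op B z z) * (J + c • op B z z) = -(D.refl hz).val := by
    ext x
    simp only [End.mul_apply, LinearMap.add_apply, LinearMap.smul_apply, op_apply, map_add,
      map_smul, J2, J3, J4, D.self, LinearMap.neg_apply, D.refl_app]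
    have e1 : (Q z)⁻¹ = 2 * c := by field_simp; linear_combination -hc
    rw [e1]
    linear_combination (norm := module) (c * B x z) • hc • z
  have g4 : (J + c • op B z z) * ((J + c • op B z z) * (J + c • op B z z) * (J + c • op B z z)) = 1 := by
    rw [mul_assoc, ← mul_assoc, g2, neg_mul_neg]
    exact D.refl_sq hz
  have g4' : ((J + c • op B z z) * (J + c • op B z z) * (J + c • op B z z)) * (J + c • op B z z) = 1 := by
    rw [mul_assoc, g2, neg_mul_neg]
    exact D.refl_sq hz
  refine ⟨⟨_, _, g4, g4'⟩, fun x => ?_, g2⟩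
  apply mul_left_cancel₀ h2
  rw [← D.self, ← D.self]
  simp only [LinearMap.add_apply, LinearMap.smul_apply, op_apply, map_add, map_smul, J3,
    D.symm (J x) z, smul_eq_mul, D.self z, J1 x (J x), J4, map_neg]
  linear_combination (c * B x z ^ 2) * hc

end OD

end Pool.Agent.MP_db74b1_al
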