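import Pool.Agent.MP_db74b1_al.ClO4
import Pool.Agent.MP_db74b1_al.ClO5

/-! Orthogonal groups: odd dimension and the main theorem. -/

set_option autoImplicit false
set_option linter.unusedSectionVars false
set_option linter.unusedSimpArgs false
set_option linter.unnecessarySeqFocus false

namespace Pool.Agent.MP_db74b1_al
open Module Submodule

variable {F V : Type} [Field F] [AddCommGroup V] [Module F V] [Finite F] [FiniteDimensional F V]

/-- `(x ^ 2 - 1) ^ 2 = 0` -/
def Nil (x : End F V) : Prop := (x * x - 1) * (x * x - 1) = 0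

lemma Nil.conj {x : End F V} (k : (End F V)ˣ) {z : F} (hz : z ^ 2 = 1) (h : Nil x) :
    Nil (z • (k.val * x * k⁻¹.val)) := by
  have e1 : z • (k.val * x * k⁻¹.val) * z • (k.val * x * k⁻¹.val) - 1 =
      k.val * (x * x - 1) * k⁻¹.val := by
    simp only [smul_mul_assoc, mul_smul_comm, smul_smul, ← pow_two z, hz, one_smul, mul_sub, sub_mul,
      mul_assoc, Units.inv_mul_cancel_left, one_mul, Units.mul_inv]
  unfold Nil at h ⊢
  rw [e1, mul_assoc, mul_assoc, mul_assoc, Units.inv_mul_cancel_left, ← mul_assoc (x * x - 1), h]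
  simp

lemma Bad.nil {G : Subgroup (End F V)ˣ} {Z : Set F} (hZ : ∀ z ∈ Z, z ^ 2 = 1) {a b : (End F V)ˣ}
    {e : End F V} (h : Bad G Z a b e) : Nil (a.val * b.val) ↔ Nil e := by
  obtain ⟨z, hz, k, hk⟩ := h.base
  have hz := hZ z hz
  constructor
  · intro hl
    have := hl.conj k⁻¹ hz
    rw [hk] at this
    simpa [smul_smul, ← pow_two, hz, ← mul_assoc] using this
  · intro hl
    rw [hk]
    exact hl.conj k hz

namespace OD
variable {Q : QuadraticForm F V} {B : V →ₗ[F] V →ₗ[F] F} {G : Subgroup (End F V)ˣ} (D : OD Q B G)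
  {Z : Set F} {a b : (End F V)ˣ} {e : End F V} (h : Bad G Z a b e)
include D h

lemma odd_dim (h2 : (2 : F) ≠ 0) (ho : finrank F V % 2 = 1) (hZ : ∀ z ∈ Z, z ^ 2 = 1) (ha : a ∈ G)
    (hb : b ∈ G) (na : NS a.val) (hA : Alt Q B a.val) {n : V} (hn : Q n ≠ 0)
    (hbn : b.val = -(D.refl hn).val) : False := by
  have hd := D.dim
  obtain ⟨l, hl⟩ := D.alt_sc ha hA
  have ia := sc_inv hl
  obtain ⟨η, hη, hηl⟩ : ∃ η : F, η ^ 2 = 1 ∧ l = 2 * η := by
    obtain ⟨z, hz, hz'⟩ := D.skew_ker h2 ho (a.val - a⁻¹.val) (fun x y => by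
      simp only [LinearMap.sub_apply, map_sub, D.adj ha x y, D.adj ha y x, D.symm x, D.symm y]
      ring)
    obtain ⟨η, rfl⟩ : ∃ η, l = 2 * η := ⟨l / 2, by field_simp⟩
    have e1 : a.val z = η • z := by
      apply smul_right_injective V h2
      simp only [LinearMap.sub_apply, ia] at hz'
      simp only
      linear_combination (norm := module) hz'
    have e2 := ia (a.val z)
    rw [inv_app, e1, map_smul, e1] at e2
    refine ⟨η, ?_, rfl⟩
    have : (η ^ 2 - 1) • z = 0 := by linear_combination (norm := module) -e2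
    exact sub_eq_zero.mp ((smul_eq_zero.mp this).resolve_right hz)
  obtain ⟨X, hXd⟩ : ∃ X : End F V, X = η • a.val - 1 := ⟨_, rfl⟩
  have haX : ∀ x, a.val x = η • (x + X x) := by
    intro x
    simp only [hXd, LinearMap.sub_apply, LinearMap.smul_apply, End.one_apply]
    linear_combination (norm := module) -hη • a.val x
  have hX : ∀ x y, B (X x) y = - B x (X y) := by
    intro x y
    simp only [hXd, LinearMap.sub_apply, LinearMap.smul_apply, End.one_apply, map_sub, map_smul,
      smul_eq_mul, D.adj ha x y, ia, hηl]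
    linear_combination 2 * B x y * hη
  have hXX : ∀ x, X (X x) = 0 := by
    intro x
    have := ia (a.val x)
    rw [inv_app, hηl] at this
    simp only [hXd, LinearMap.sub_apply, LinearMap.smul_apply, End.one_apply, map_sub, map_smul]
    linear_combination (norm := module) this + hη • a.val (a.val x)
  have hX0 : ∀ x, B (X x) x = 0 := fun x => by
    apply mul_left_cancel₀ h2
    linear_combination hX x x - D.symm (X x) x
  have key : ∀ y, Q y = Q n → (Nil (a.val * -(1 - (Q n)⁻¹ • op B y y)) ↔ Nil e) := by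
    intro y hy
    have hn0 : n ≠ 0 := by rintro rfl; simp at hn
    by_cases hyn : y ∈ span F {n}
    · obtain ⟨c, rfl⟩ := mem_span_singleton.mp hyn
      have hc : c ^ 2 = 1 := by
        rw [Qsmul] at hy
        apply mul_right_cancel₀ hn
        rw [hy, one_mul]
      rw [← h.nil hZ, hbn]
      have : op B (c • n) (c • n) = op B n n := by
        ext x
        simp only [op_apply, map_smul, smul_eq_mul]
        linear_combination (norm := module) B x n • hc • n
      rw [this]; rfl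
    · obtain ⟨g, hg, e1⟩ := D.normstep hn0 hyn hy.symm
      rw [← (h.conjR hg).nil hZ, conj_op (D.iso hg) (l := -1) (c := (Q n)⁻¹) (p := n)
        (by rw [hbn]; simp [refl]; abel), e1]
      rw [neg_sub, neg_smul, one_smul, sub_eq_neg_add]
  have sq : ∀ y, Q y = Q n → ∀ v, ((a.val * -(1 - (Q n)⁻¹ • op B y y)) *
      (a.val * -(1 - (Q n)⁻¹ • op B y y)) - 1 : End F V) v = (2 : F) • X v -
      ((Q n)⁻¹ * B v y) • X y + ((Q n)⁻¹ * B v (X y)) • y + ((Q n)⁻¹ * B v (X y)) • X y := by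
    intro y hy v
    have hc : (Q n)⁻¹ * Q n = 1 := inv_mul_cancel₀ hn
    simp only [End.mul_apply, LinearMap.sub_apply, LinearMap.neg_apply, LinearMap.smul_apply,
      op_apply, End.one_apply, haX, map_sub, map_neg, map_add, map_smul, hXX, LinearMap.add_apply,
      hX v y, hX0, D.self, hy, smul_eq_mul]
    generalize (Q n)⁻¹ = c at hc
    linear_combination (norm := module) hη • (v + (2 : F) • X v - (c * B v y) • X y +
      (c * B v (X y)) • y + (c * B v (X y)) • X y) +
      (2 * η ^ 2 * c * B v y) • hc • (y + X y)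
  obtain ⟨y1, k1, k2⟩ : ∃ y, Q y = Q n ∧ X y = 0 := by
    have nd : ∀ z, z ∉ LinearMap.range X → ∃ z', X z' = 0 ∧ B z z' = 1 := by
      intro z hz
      obtain ⟨z', j1, j2⟩ := sep B D.nd hz
      refine ⟨z', D.nd _ fun x => ?_, j1⟩
      rw [← neg_eq_zero, ← hX]
      exact j2 _ (LinearMap.mem_range_self X x)
    by_cases hk : finrank F (LinearMap.range X) + 2 ≤ finrank F (LinearMap.ker X)
    · obtain ⟨z, j1, j2⟩ := D.UNIV hk (fun z _ hz => by
        obtain ⟨z', i1, i2⟩ := nd z hz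
        exact ⟨z', i1, by simp [i2]⟩) (Q n)
      exact ⟨z, j2, j1⟩
    have hle : LinearMap.range X ≤ LinearMap.ker X := by
      rintro _ ⟨x, rfl⟩; exact hXX x
    have := Submodule.finrank_mono hle
    have := X.finrank_range_add_finrank_ker
    obtain ⟨z, hz, hz'⟩ := out (W := LinearMap.ker X) (R := LinearMap.range X) (by omega)
    have hsup : LinearMap.range X ⊔ span F {z} = LinearMap.ker X := by
      apply Submodule.eq_of_le_of_finrank_le (sup_le hle ((span_singleton_le_iff_mem _ _).mpr hz))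
      have : LinearMap.range X < LinearMap.range X ⊔ span F {z} :=
        lt_of_le_of_ne le_sup_left fun hh => hz' (hh ▸ mem_sup_right (m1 z))
      have := Submodule.finrank_lt_finrank_of_lt this
      omega
    have hk' : ∀ k, X k = 0 → ∃ (t : V) (c : F), k = X t + c • z := by
      intro k hk
      have : k ∈ LinearMap.range X ⊔ span F {z} := hsup ▸ hk
      obtain ⟨_, ⟨t, rfl⟩, y, hy, rfl⟩ := mem_sup.mp this
      obtain ⟨c, rfl⟩ := mem_span_singleton.mp hy
      exact ⟨t, c, rfl⟩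
    have hz1 : X z = 0 := hz
    have hQz : Q z ≠ 0 := by
      intro hq
      obtain ⟨z', i1, i2⟩ := nd z hz'
      obtain ⟨t, c, rfl⟩ := hk' z' i1
      simp [D.self0 hq, D.symm (X t) z, hX, hz1] at i2
    obtain ⟨g, hg, hg2⟩ := D.sqrt_refl h2 X hX hXX hQz hz1 hk'
    obtain ⟨s, hs⟩ := D.spin h2 hb hg hn hQz hbn hg2
    refine ⟨(s / Q z) • z, ?_, by simp [hz1]⟩
    rw [Qsmul]
    field_simp
    linear_combination -hs
  obtain ⟨y2, j1, j2⟩ : ∃ y, Q y = Q n ∧ X y ≠ 0 := by
    by_contra hh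
    push Not at hh
    obtain ⟨u, hu, hu'⟩ : ∃ u, Q u = 0 ∧ X u ≠ 0 := by
      by_contra hc
      push Not at hc
      apply na η
      ext x
      have : X x = 0 := D.nd _ fun y =>
        D.SPAN 0 (B y ∘ₗ X) (fun v _ hv => by simp [hc v hv]) x (by simp)
      simp [haX, this]
    obtain ⟨f0, hf0, -⟩ := sep B D.nd (nmem0.mpr (show u ≠ 0 by rintro rfl; simp at hu'))
    obtain ⟨f, hf1, hf2⟩ : ∃ f, Q f = 0 ∧ B u f = 1 :=
      ⟨f0 - Q f0 • u, by simp [D.Qsub, Qsmul, hu, D.symm u f0, hf0], by simp [hf0, D.self0 hu]⟩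
    have := fs2 (F := F) u f
    obtain ⟨z, i1, i2⟩ := D.univ_perp (span F {u, f}) (by omega) 1
    have i3 := i1 u (m21 _ _)
    have i4 := i1 f (m22 _ _)
    have s0 := hh (u + Q n • f) (by simp [D.pol, Qsmul, hu, hf1, hf2])
    have s1 := hh (u + (Q n - 1) • f + z) (by simp [D.pol, Qsmul, hu, hf1, hf2, i2, i3, i4])
    have s2 := hh (u + (Q n - 1) • f - z) (by simp [D.pol, D.Qsub, Qsmul, hu, hf1, hf2, i2, i3, i4])
    simp only [map_add, map_sub, map_smul] at s0 s1 s2
    apply hu'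
    apply smul_right_injective V h2
    simp only
    linear_combination (norm := module) (2 - 2 * Q n) • s0 + Q n • s1 + Q n • s2
  have N1 : Nil (a.val * -(1 - (Q n)⁻¹ • op B y1 y1)) := by
    ext v
    rw [End.mul_apply, sq y1 k1, sq y1 k1]
    simp [hXX, k2]
  have N2 := (key y2 j1).mpr ((key y1 k1).mp N1)
  obtain ⟨z, hz, -⟩ := sep B D.nd (nmem0.mpr j2)
  have := LinearMap.congr_fun N2 z
  have e1 : B (X y2) (X y2) = 0 := by rw [hX, hXX]; simp
  have e2 : B (X z) (X y2) = 0 := by rw [hX, hXX]; simp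
  rw [End.mul_apply, sq y2 j1, sq y2 j1] at this
  simp only [map_add, map_sub, map_smul, hXX, LinearMap.add_apply,
    LinearMap.sub_apply, LinearMap.smul_apply, smul_eq_mul, hX z y2, D.symm (X y2) z, hz, hX0,
    D.self y2, j1, e1, e2, D.flip0 (hX0 y2), LinearMap.zero_apply] at this
  apply j2
  apply smul_right_injective V (mul_ne_zero h2 (inv_ne_zero hn))
  have hc : (Q n)⁻¹ * Q n = 1 := inv_mul_cancel₀ hn
  generalize (Q n)⁻¹ = c at hc this
  simp only
  linear_combination (norm := module) this + (2 * c) • hc • X y2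

lemma sym_inv (h2 : (2 : F) ≠ 0) (hb : b ∈ G) (hS : Sym Q B b.val) (x : V) : b.val (b.val x) = x := by
  obtain ⟨κ, hκ⟩ := D.sym_sc hb hS
  have e1 : ∀ x, b.val x - b⁻¹.val x = κ • x := fun x => by
    simpa [sub_eq_add_neg] using LinearMap.congr_fun hκ x
  have hκ0 : κ = 0 := by
    have := D.dim
    obtain ⟨n, -, hn⟩ := D.univ_perp ⊥ (by simp; omega) 1
    have := congrArg (fun t => B t n) (e1 n)
    simp only [map_sub, LinearMap.sub_apply, map_smul, LinearMap.smul_apply, D.self, hn, D.adj hb,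
      D.symm n, sub_self, smul_eq_mul] at this
    apply mul_left_cancel₀ h2
    linear_combination -this
  have := e1 (b.val x)
  rwa [inv_app, hκ0, zero_smul, sub_eq_zero] at this

lemma main_odd (h2 : (2 : F) ≠ 0) (hZ : ∀ z ∈ Z, z ^ 2 = 1) (ha : a ∈ G) (hb : b ∈ G)
    (na : NS a.val) (nb : NS b.val) (hS : Sym Q B b.val)
    (H : Alt Q B a.val ∨ (finrank F V % 2 = 0 ∧ Gdeg Q B b.val)) : False := by
  have hbb := D.sym_inv h h2 hb hS
  obtain ⟨ε, n, hn, hε, hs⟩ := D.inv_refl h2 hb hbb nb (by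
    rcases H with H | H
    · exact Or.inl fun ε u y v h1 h3 h4 h5 h6 h7 h8 h9 =>
        D.GO h hZ ha na H hb hbb h1 h3 h4 h5 h6 h7 h8 h9
    · exact Or.inr H.2)
  have hd := D.det hb
  rw [hs, LinearMap.det_smul, D.det_refl h2] at hd
  by_cases ho : finrank F V % 2 = 0
  · obtain ⟨k, hk⟩ : ∃ k, finrank F V = 2 * k := ⟨finrank F V / 2, by omega⟩
    rw [hk, pow_mul, hε, one_pow] at hd
    exact h2 (by linear_combination -hd)
  · obtain ⟨k, hk⟩ : ∃ k, finrank F V = 2 * k + 1 := ⟨finrank F V / 2, by omega⟩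
    rw [hk, pow_succ, pow_mul, hε, one_pow] at hd
    have : ε = -1 := by linear_combination -hd
    rw [this, neg_smul, one_smul] at hs
    exact D.odd_dim h h2 (by omega) hZ ha hb na (H.resolve_right fun hh => ho hh.1) hn hs

omit h in
theorem main (hq : finrank F V % 2 = 1 → (2 : F) ≠ 0)
    (h : Bad G {z : F | z ^ 2 = 1 ∧ z ^ finrank F V = 1} a b e) (ha : a ∈ G) (hb : b ∈ G)
    (na : NS a.val) (nb : NS b.val) : False := by
  have hd := D.dim
  have hZ : ∀ z ∈ {z : F | z ^ 2 = 1 ∧ z ^ finrank F V = 1}, z ^ 2 = 1 := fun z hz => hz.1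
  by_cases h2 : (2 : F) = 0
  · have h8 : 8 ≤ finrank F V := by
      by_contra hh
      exact hq (by omega) h2
    have hZ1 : ∀ z ∈ {z : F | z ^ 2 = 1 ∧ z ^ finrank F V = 1}, z = 1 :=
      fun z hz => sq_one_two h2 hz.1
    rcases D.red2 h h2 h8 hZ1 ha hb na nb with ⟨k1, k2⟩ | ⟨k1, k2⟩
    · exact D.main2 h h2 h8 hZ1 ha hb na nb k1 k2
    · exact D.main2 h.swap h2 h8 hZ1 hb ha nb na k1 k2
  by_cases ho : finrank F V % 2 = 0
  · have hZ0 : ∀ z ∈ {z : F | z ^ 2 = 1 ∧ z ^ finrank F V = 1}, z ≠ 0 := by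
      rintro z ⟨hz, -⟩ rfl; simp at hz
    rcases D.skewskew h h2 (by omega) hZ0 with k | k
    · refine D.main_odd h.swap h2 hZ hb ha nb na k ?_
      by_cases hA : Alt Q B b.val
      · exact Or.inl hA
      · exact Or.inr ⟨ho, D.gdeg h.swap h2 (by omega) hZ0 hA k⟩
    · refine D.main_odd h h2 hZ ha hb na nb k ?_
      by_cases hA : Alt Q B a.val
      · exact Or.inl hA
      · exact Or.inr ⟨ho, D.gdeg h h2 (by omega) hZ0 hA k⟩
  have hZ1 : ∀ z ∈ {z : F | z ^ 2 = 1 ∧ z ^ finrank F V = 1}, z = 1 := by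
    rintro z ⟨h1, h3⟩
    obtain ⟨k, hk⟩ : ∃ k, finrank F V = 2 * k + 1 := ⟨finrank F V / 2, by omega⟩
    rwa [hk, pow_succ, pow_mul, h1, one_pow, one_mul] at h3
  have h3 : 2 < Nat.card F := by
    have := odd_card h2
    have := two_le_card (F := F)
    omega
  rcases D.redTZ h h3 hZ1 ha hb na nb with ⟨k1, k2⟩ | ⟨k1, k2⟩
  · exact D.main_odd h h2 hZ ha hb na nb k2 (Or.inl k1)
  · exact D.main_odd h.swap h2 hZ hb ha nb na k2 (Or.inl k1)

end OD

end Pool.Agent.MP_db74b1_al
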