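import Pool.Agent.MP_db74b1_al.ClLin

/-! The special linear groups. -/

set_option autoImplicit false
set_option linter.unusedSectionVars false

namespace Pool.Agent.MP_db74b1_al
open Module Submodule

variable {F V : Type} [Field F] [AddCommGroup V] [Module F V] [Finite F] [FiniteDimensional F V]

lemma Bad.tr_unip {G : Subgroup (End F V)ˣ} {Z : Set F} {a b : (End F V)ˣ} {e : End F V}
    (h : Bad G Z a b e) (N : End F V) (hN : N * N = 0) (hG : unip N hN ∈ G) :
    ∃ z ∈ Z, Pool.Agent.MP_db74b1_al.tr (a.val * ((1 + N) * b.val * (1 - N))) =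
      z * Pool.Agent.MP_db74b1_al.tr e ∧ c2 (a.val * ((1 + N) * b.val * (1 - N))) = z ^ 2 * c2 e := by
  simpa using (h.conjR hG).tr

lemma tr_expand (a b N : End F V) : tr (a * ((1 + N) * b * (1 - N))) =
    tr (a * b) + tr ((b * a - a * b) * N) - tr (a * N * (b * N)) := by
  have h1 : tr (a * (N * b)) = tr (b * a * N) := by rw [← mul_assoc, tr_comm, mul_assoc]
  simp only [mul_add, add_mul, mul_sub, sub_mul, one_mul, mul_one, map_add, map_sub, mul_assoc] at h1 ⊢
  rw [h1]; ring

lemma rk_sq {w : V} {φ : V →ₗ[F] F} (h : φ w = 0) : rk w φ * rk w φ = 0 := by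
  ext x; simp [h]

section SL
variable {G : Subgroup (End F V)ˣ} (hG : ∀ g, g ∈ G ↔ LinearMap.det g.val = 1)
include hG

lemma sl_tv {w : V} {φ : V →ₗ[F] F} (h : φ w = 0) : unip (rk w φ) (rk_sq h) ∈ G := by
  rw [hG]; exact det_unip _ (rk_sq h)

lemma sl_center (hn : 2 ≤ finrank F V) (c : (End F V)ˣ) (hc : c ∈ G) (h : ∀ g ∈ G, g * c = c * g) :
    ∃ z ∈ {z : F | z ^ finrank F V = 1}, c.val = z • 1 := by
  have : ∀ v, c.val v ∈ span F {v} := by
    intro v
    have := fs1 (F := F) v
    obtain ⟨x, -, hx⟩ := out (W := ⊤) (R := span F {v}) (by rw [finrank_top]; omega)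
    obtain ⟨φ, h1, h2⟩ := exists_fun hx
    have h3 := h2 v (mem_span_singleton_self v)
    have h4 := congrArg (fun g : (End F V)ˣ => g.val x) (h _ (sl_tv hG h3))
    simp [h1] at h4
    rw [← h4]
    exact smul_mem _ _ (mem_span_singleton_self v)
  obtain ⟨z, hz⟩ := scalar_of_eig _ this
  refine ⟨z, ?_, hz⟩
  have := (hG c).mp hc
  rw [hz, LinearMap.det_smul] at this
  simpa using this

lemma sl_trace {Z : Set F} {a b : (End F V)ˣ} {e : End F V} (h : Bad G Z a b e)
    {w : V} {φ : V →ₗ[F] F} (hw : φ w = 0) : ∃ z ∈ Z,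
      tr (a.val * b.val) + φ ((b.val * a.val - a.val * b.val) w) - φ (a.val w) * φ (b.val w) =
        z * tr e := by
  obtain ⟨z, hz, h1, -⟩ := h.tr_unip _ _ (sl_tv hG hw)
  refine ⟨z, hz, ?_⟩
  rw [← h1, tr_expand]
  simp [mul_rk, tr_rk, mul_comm]

lemma sl_common {Z : Set F} {a b : (End F V)ˣ} {e : End F V} (h : Bad G Z a b e)
    (ha : NS a.val) (hb : NS b.val) : ∃ b' : (End F V)ˣ, ∃ w : V, Bad G Z a b' e ∧
      a.val w ∉ span F {w} ∧ b'.val w ∉ span F {w} := by
  obtain ⟨w, hw⟩ := ha.exists
  obtain ⟨w', hw'⟩ := hb.exists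
  have hw0 : w ≠ 0 := by rintro rfl; simp at hw
  have hw0' : w' ≠ 0 := by rintro rfl; simp at hw'
  by_cases hd : w' ∈ span F {w}
  · obtain ⟨c, rfl⟩ := mem_span_singleton.mp hd
    refine ⟨b, w, h, hw, fun hh => hw' ?_⟩
    obtain ⟨d, hd⟩ := mem_span_singleton.mp hh
    rw [map_smul, ← hd, smul_comm]
    exact smul_mem _ _ (mem_span_singleton_self _)
  · obtain ⟨φ, h1, h2⟩ := exists_fun hd
    obtain ⟨ψ, h3, h4⟩ := exists_fun (nmem1_swap hw0 hd)
    have h5 := h2 w (mem_span_singleton_self _)
    have h6 := h4 w' (mem_span_singleton_self _)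
    have h7 : (φ + ψ) (w - w') = 0 := by simp [h1, h3, h5, h6]
    let g := unip _ (rk_sq h7)
    have hg : g.val w' = w := by simp [g, h1, h6]
    refine ⟨g * b * g⁻¹, w, h.conjR (sl_tv hG h7), hw, fun hh => hw' ?_⟩
    obtain ⟨d, hd⟩ := mem_span_singleton.mp hh
    rw [← hg] at hd
    simp only [Units.val_mul, End.mul_apply, inv_app] at hd
    have := congrArg g⁻¹.val hd
    rw [map_smul, inv_app, inv_app] at this
    rw [← this]
    exact smul_mem _ _ (mem_span_singleton_self _)

theorem sl_main (hn : 2 ≤ finrank F V) (hq : finrank F V = 2 → 3 < Nat.card F)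
    {a b : (End F V)ˣ} {e : End F V} (h : Bad G {z : F | z ^ finrank F V = 1} a b e)
    (ha : NS a.val) (hb : NS b.val) : False := by
  obtain ⟨b, w, h, hw, hw'⟩ := sl_common hG h ha hb
  by_cases h2 : finrank F V = 2
  · have key : ∀ φ : V →ₗ[F] F, φ w = 0 → φ (a.val w) * φ (b.val w) = 0 := by
      intro φ hφ
      have : -(φ (a.val w) * φ (b.val w)) = 0 := by
        apply quad_pm (hq h2) (c0 := tr (a.val * b.val))
          (c1 := φ ((b.val * a.val - a.val * b.val) w)) (t := tr e)
        intro s
        obtain ⟨z, hz, h1⟩ := sl_trace hG h (w := w) (φ := s • φ) (by simp [hφ])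
        refine ⟨z, by simpa [h2] using hz, ?_⟩
        rw [← h1]
        simp only [LinearMap.smul_apply, smul_eq_mul]
        ring
      exact neg_eq_zero.mp this
    obtain ⟨φ, h1, h3⟩ := exists_fun hw
    obtain ⟨ψ, h4, h5⟩ := exists_fun hw'
    have h3 := h3 w (mem_span_singleton_self _)
    have h5 := h5 w (mem_span_singleton_self _)
    have k1 := key φ h3
    have k2 := key ψ h5
    have k3 := key (φ + ψ) (by simp [h3, h5])
    simp only [h1, h4, one_mul, mul_one] at k1 k2
    simp [h1, h4, k1, k2] at k3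
  · have hw0 : w ≠ 0 := by rintro rfl; simp at hw
    have main : ∀ b : (End F V)ˣ, Bad G {z : F | z ^ finrank F V = 1} a b e →
        b.val w ∉ span F {w} → b.val w ∉ span F {w, a.val w} → False := by
      intro b h hb1 hb2
      have hb3 : a.val w ∉ span F {w, b.val w} := by
        rw [nmem2] at hb2 ⊢
        intro c d hcd
        by_cases hd : d = 0
        · exact nmem1.mp hw c (by simp [hcd, hd])
        · apply hb2 (-(d⁻¹ * c)) d⁻¹
          rw [hcd]
          simp [smul_add, smul_smul, hd]
      obtain ⟨φ, h1, h3⟩ := exists_fun hb3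
      obtain ⟨ψ, h4, h5⟩ := exists_fun hb2
      have h31 := h3 w (subset_span (by simp))
      have h32 := h3 (b.val w) (subset_span (by simp))
      have h51 := h5 w (subset_span (by simp))
      have h52 := h5 (a.val w) (subset_span (by simp))
      have := D2 (c := tr (a.val * b.val)) (l1 := φ ((b.val * a.val - a.val * b.val) w))
        (l2 := ψ ((b.val * a.val - a.val * b.val) w)) (α := 0) (β := 1) (γ := 0) (t := tr e) (by
          intro x y
          obtain ⟨z, hz, h6⟩ := sl_trace hG h (w := w) (φ := x • φ + y • ψ) (by simp [h31, h51])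
          refine ⟨z, ?_, ?_⟩
          · rintro rfl
            simp only [Set.mem_ofPred_eq] at hz
            rw [zero_pow (by omega)] at hz
            exact zero_ne_one hz
          · rw [← h6]
            simp only [LinearMap.add_apply, LinearMap.smul_apply, smul_eq_mul, h1, h4, h32, h52]
            ring)
      simp at this
    by_cases h3 : b.val w ∈ span F {w, a.val w}
    · have := fs2 (F := F) w (a.val w)
      obtain ⟨y, -, hy⟩ := out (W := ⊤) (R := span F {w, a.val w}) (by rw [finrank_top]; omega)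
      have h4 : b.val w ∉ span F {w, y} := by
        rw [nmem2]
        intro c d hcd
        by_cases hd : d = 0
        · exact nmem1.mp hw' c (by simp [hcd, hd])
        · apply hy
          have : y = d⁻¹ • (b.val w - c • w) := by rw [hcd]; simp [smul_smul, hd]
          rw [this]
          exact smul_mem _ _ (sub_mem h3 (smul_mem _ _ (subset_span (by simp))))
      obtain ⟨ψ, h5, h6⟩ := exists_fun h4
      have h61 := h6 w (subset_span (by simp))
      have h62 := h6 y (subset_span (by simp))
      have h7 : (unip _ (rk_sq h62) * b * (unip _ (rk_sq h62))⁻¹).val w = b.val w + y := by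
        simp [h61, h5]
      have h8 : b.val w + y ∉ span F {w, a.val w} := by
        intro hh
        apply hy
        simpa using sub_mem hh h3
      refine main _ (h.conjR (sl_tv hG h62)) ?_ (by rw [h7]; exact h8)
      rw [h7]
      exact fun hh => h8 (span_mono (by simp) hh)
    · exact main b h hw' h3

end SL

end Pool.Agent.MP_db74b1_al
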