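import Pool.Agent.MP_db74b1_al.ClSL

/-! Symplectic groups, geometry. -/

set_option autoImplicit false
set_option linter.unusedSectionVars false

namespace Pool.Agent.MP_db74b1_al
open Module Submodule

variable {F V : Type} [Field F] [AddCommGroup V] [Module F V] [Finite F] [FiniteDimensional F V]

/-- symplectic data -/
structure SpD (B : V →ₗ[F] V →ₗ[F] F) (G : Subgroup (End F V)ˣ) : Prop where
  alt : ∀ x, B x x = 0
  nd : ∀ y, (∀ x, B x y = 0) → y = 0
  mem : ∀ g, g ∈ G ↔ ∀ x y, B (g.val x) (g.val y) = B x y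
  dim : 4 ≤ finrank F V

/-- the quadratic term of the trace for symplectic groups -/
def Qsp (A11 A12 A21 A22 B11 B12 B21 B22 x y z : F) : F :=
  x ^ 2 * (A11 * B11) + y ^ 2 * (A22 * B22) + x * y * (A12 * B21 + A21 * B12) +
  x * z * ((A12 + A21) * B11 + A11 * (B12 + B21)) +
  y * z * ((A12 + A21) * B22 + A22 * (B12 + B21)) +
  z ^ 2 * (A12 * B12 + A21 * B21 + A11 * B22 + A22 * B11)

lemma conj_app (g b : (End F V)ˣ) (x : V) : (g * b * g⁻¹).val (g.val x) = g.val (b.val x) := by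
  simp

lemma conj_sc {g b : (End F V)ˣ} {s β : F} (h : b.val + s • b⁻¹.val = β • 1) :
    (g * b * g⁻¹).val + s • (g * b * g⁻¹)⁻¹.val = β • 1 := by
  have : (g * b * g⁻¹).val + s • (g * b * g⁻¹)⁻¹.val = g.val * (b.val + s • b⁻¹.val) * g⁻¹.val := by
    simp [mul_add, add_mul, mul_assoc]
  rw [this, h]
  simp

/-- if `S` fixes all points outside a hyperplane it is a scalar (odd characteristic) -/
lemma eig_hyper (h2 : (2 : F) ≠ 0) (S : End F V) (φ : V →ₗ[F] F) {w0 : V} (h0 : φ w0 ≠ 0)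
    (h : ∀ w, φ w ≠ 0 → S w ∈ span F {w}) : ∃ c : F, S = c • 1 := by
  apply scalar_of_eig
  intro k
  by_cases hk : φ k = 0
  swap
  · exact h k hk
  by_cases hk0 : k = 0
  · simp [hk0]
  obtain ⟨m0, e0⟩ := mem_span_singleton.mp (h w0 h0)
  obtain ⟨m1, e1⟩ := mem_span_singleton.mp (h (w0 + k) (by simpa [hk] using h0))
  obtain ⟨m2, e2⟩ := mem_span_singleton.mp (h (w0 - k) (by simpa [hk] using h0))
  rw [map_add, ← e0] at e1
  rw [map_sub, ← e0] at e2
  have e3 : (m1 + m2 - 2 * m0) • w0 + (m1 - m2) • k = 0 := by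
    linear_combination (norm := module) e1 + e2
  have e4 : m1 + m2 - 2 * m0 = 0 := by
    have := congrArg φ e3
    simp only [map_add, map_smul, hk, smul_eq_mul, mul_zero, add_zero, map_zero] at this
    exact (mul_eq_zero.mp this).resolve_right h0
  rw [e4, zero_smul, zero_add] at e3
  have e5 : m1 - m2 = 0 := (smul_eq_zero.mp e3).resolve_right hk0
  have e6 : m0 = m1 := by
    apply mul_left_cancel₀ h2
    linear_combination -e4 - e5
  rw [mem_span_singleton]
  refine ⟨m1, ?_⟩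
  rw [e6] at e1
  linear_combination (norm := module) e1

namespace SpD
variable {B : V →ₗ[F] V →ₗ[F] F} {G : Subgroup (End F V)ˣ} (D : SpD B G)
include D

lemma skew (x y : V) : B y x = - B x y := by
  have := D.alt (x + y)
  simp only [map_add, LinearMap.add_apply, D.alt] at this
  linear_combination this

lemma adj {a : (End F V)ˣ} (ha : a ∈ G) (x y : V) : B (a.val x) y = B x (a⁻¹.val y) := by
  rw [← (D.mem a).mp ha x (a⁻¹.val y), app_inv]

lemma N_sq {u v : V} (h : B u v = 0) (x y z : F) :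
    (x • op B u u + y • op B v v + z • (op B u v + op B v u)) *
      (x • op B u u + y • op B v v + z • (op B u v + op B v u)) = 0 := by
  have h' : B v u = 0 := by rw [D.skew, h, neg_zero]
  ext w
  simp [h, h', D.alt]

lemma N_mem {u v : V} (h : B u v = 0) (x y z : F) : unip _ (D.N_sq h x y z) ∈ G := by
  have h' : B v u = 0 := by rw [D.skew, h, neg_zero]
  rw [D.mem]
  intro p q
  simp [h, h', D.alt, D.skew q u, D.skew q v]
  ring

lemma tv_sq (u : V) (x : F) : (x • op B u u) * (x • op B u u) = 0 := by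
  ext w
  simp [D.alt]

lemma tv_mem (u : V) (x : F) : unip _ (D.tv_sq u x) ∈ G := by
  rw [D.mem]
  intro p q
  simp [D.alt, D.skew q u]
  ring

lemma step0 {w x x' : V} (h : B x x' ≠ 0) (h1 : B w x = 0) (h2 : B w x' = 0) :
    ∃ g ∈ G, g.val w = w ∧ g.val x = x' := by
  refine ⟨_, D.tv_mem (x' - x) (B x x')⁻¹, ?_, ?_⟩
  · simp [h1, h2]
  · simp [D.alt, smul_smul, h]

lemma step {w x x' : V} (hx : x ∉ span F {w}) (hx' : x' ∉ span F {w}) (h1 : B w x = 0)
    (h2 : B w x' = 0) : ∃ g ∈ G, g.val w = w ∧ g.val x = x' := by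
  obtain ⟨z, k1, k2, k3⟩ := sep2 B D.nd hx hx'
  have k3 := k3 w (mem_span_singleton_self w)
  obtain ⟨g, hg, e1, e2⟩ := D.step0 k1 h1 k3
  obtain ⟨g', hg', e1', e2'⟩ := D.step0 (x := z) (x' := x') (by rw [D.skew]; simpa using k2) k3 h2
  exact ⟨g' * g, G.mul_mem hg' hg, by simp [e1, e1'], by simp [e2, e2']⟩

lemma T1 {x x' : V} (hx : x ≠ 0) (hx' : x' ≠ 0) : ∃ g ∈ G, g.val x = x' := by
  obtain ⟨g, hg, -, e⟩ := D.step (w := 0) (nmem0.mpr hx) (nmem0.mpr hx') (by simp) (by simp)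
  exact ⟨g, hg, e⟩

lemma T2 {u v u' v' : V} (hu : u ≠ 0) (hv : v ∉ span F {u}) (huv : B u v = 0)
    (hu' : u' ≠ 0) (hv' : v' ∉ span F {u'}) (huv' : B u' v' = 0) :
    ∃ g ∈ G, g.val u' = u ∧ g.val v' = v := by
  obtain ⟨g, hg, e⟩ := D.T1 hu' hu
  have h1 : g.val v' ∉ span F {u} := by
    rw [nmem1] at hv' ⊢
    intro c hc
    apply hv' c
    rw [← inv_app g v', hc, ← e, map_smul, inv_app]
  obtain ⟨g', hg', e1, e2⟩ := D.step h1 hv (by rw [← e, (D.mem g).mp hg, huv']) huv
  exact ⟨g' * g, G.mul_mem hg' hg, by simp [e, e1], by simp [e2]⟩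

lemma ext (u : V) : ∃ v, v ∉ span F {u} ∧ B u v = 0 := by
  have := fs1 (F := F) u
  have := fker (B u)
  have := D.dim
  obtain ⟨v, h1, h2⟩ := out (W := LinearMap.ker (B u)) (R := span F {u}) (by omega)
  exact ⟨v, h2, h1⟩

lemma SC1 (M : End F V) {u : V} (h : ∀ w, B u w = 0 → B (M u) w = 0) : M u ∈ span F {u} := by
  by_contra hh
  obtain ⟨z, h1, h2⟩ := sep B D.nd hh
  rw [h z (h2 u (mem_span_singleton_self u))] at h1
  exact zero_ne_one h1

lemma SC (M : End F V) (h : ∀ u w, B u w = 0 → B (M u) w = 0) : ∃ c : F, M = c • 1 :=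
  scalar_of_eig M fun u => D.SC1 M (h u)

lemma exists_pair : ∃ x y, B x y = 1 := by
  have := D.dim
  obtain ⟨x, -, hx⟩ := out (W := (⊤ : Submodule F V)) (R := ⊥) (by simp; omega)
  obtain ⟨z, h, -⟩ := sep B D.nd hx
  exact ⟨x, z, h⟩

lemma sc_sq {a : (End F V)ˣ} (ha : a ∈ G) {l c : F} {p : V} (h : a.val = l • 1 + c • op B p p) :
    l ^ 2 = 1 := by
  obtain ⟨x, y, hxy⟩ := D.exists_pair
  have := (D.mem a).mp ha x y
  simp [h, D.alt, D.skew y p, hxy] at this
  linear_combination this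

lemma center (c : (End F V)ˣ) (hc : c ∈ G) (h : ∀ g ∈ G, g * c = c * g) :
    ∃ z ∈ {z : F | z ^ 2 = 1}, c.val = z • 1 := by
  have : ∀ v, c.val v ∈ span F {v} := by
    intro v
    by_cases hv : v = 0
    · simp [hv]
    obtain ⟨x, h1, -⟩ := sep B D.nd (nmem0.mpr hv)
    have h4 := congrArg (fun g : (End F V)ˣ => g.val x) (h _ (D.tv_mem v 1))
    simp [D.skew v x, h1] at h4
    have : c.val v = -(B (c.val x) v • v) := by rw [h4]; simp
    rw [this]
    exact neg_mem (smul_mem _ _ (mem_span_singleton_self v))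
  obtain ⟨z, hz⟩ := scalar_of_eig _ this
  exact ⟨z, D.sc_sq hc (c := 0) (p := 0) (by simp [hz]), hz⟩

lemma frame {a b : (End F V)ˣ} {e : End F V} (h : Bad G {z : F | z ^ 2 = 1} a b e)
    {u v : V} (huv : B u v = 0) (x y z : F) : ∃ ζ : F, ζ ^ 2 = 1 ∧
      tr (a.val * b.val) + B ((b.val * a.val - a.val * b.val) u) u * x +
      B ((b.val * a.val - a.val * b.val) v) v * y +
      (B ((b.val * a.val - a.val * b.val) u) v + B ((b.val * a.val - a.val * b.val) v) u) * z -
      Qsp (B (a.val u) u) (B (a.val u) v) (B (a.val v) u) (B (a.val v) v)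
        (B (b.val u) u) (B (b.val u) v) (B (b.val v) u) (B (b.val v) v) x y z = ζ * tr e := by
  obtain ⟨ζ, hζ, h1, -⟩ := h.tr_unip _ _ (D.N_mem huv x y z)
  refine ⟨ζ, hζ, ?_⟩
  rw [← h1, tr_expand]
  simp only [op, mul_add, add_mul, mul_smul_comm, smul_mul_assoc, mul_rk, map_add, map_smul, tr_rk,
    LinearMap.flip_apply, rk_apply, smul_eq_mul, Qsp]
  ring

lemma pairs {a b : (End F V)ˣ} {e : End F V} (h : Bad G {z : F | z ^ 2 = 1} a b e)
    (ha : a ∈ G) (hb : b ∈ G)
    {u v u' v' : V} (hu : u ≠ 0) (hv : v ∉ span F {u}) (huv : B u v = 0)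
    (hu' : u' ≠ 0) (hv' : v' ∉ span F {u'}) (huv' : B u' v' = 0) : ∃ T l1 l2 l3 : F,
      (∀ α β : F, (2 : F) = 0 → a.val + (1 : F) • a⁻¹.val = α • 1 →
        b.val + (1 : F) • b⁻¹.val = β • 1 → l3 = 0) ∧
      ∀ x y z : F, ∃ ζ : F, ζ ^ 2 = 1 ∧ T + l1 * x + l2 * y + l3 * z -
      Qsp (B (a.val u) u) (B (a.val u) v) (B (a.val v) u) (B (a.val v) v)
        (B (b.val u') u') (B (b.val u') v') (B (b.val v') u') (B (b.val v') v') x y z =
        ζ * tr e := by
  obtain ⟨g, hg, e1, e2⟩ := D.T2 hu hv huv hu' hv' huv'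
  have key : ∀ x y, B (b.val x) y = B ((g * b * g⁻¹).val (g.val x)) (g.val y) := by
    intro x y
    rw [conj_app, (D.mem g).mp hg]
  refine ⟨_, _, _, _, ?_, fun x y z => by
    rw [key, key, key, key, e1, e2]; exact D.frame (h.conjR hg) huv x y z⟩
  intro α β h2 k1 k2
  have k2 := conj_sc (g := g) k2
  have hb' : g * b * g⁻¹ ∈ G := G.mul_mem (G.mul_mem hg hb) (G.inv_mem hg)
  generalize g * b * g⁻¹ = b' at k2 hb'
  have ia : ∀ x, a⁻¹.val x = α • x - a.val x := fun x => by
    have := LinearMap.congr_fun k1 x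
    simp only [one_smul, LinearMap.add_apply, LinearMap.smul_apply, End.one_apply] at this
    rw [← this]; abel
  have ib : ∀ x, b'⁻¹.val x = β • x - b'.val x := fun x => by
    have := LinearMap.congr_fun k2 x
    simp only [one_smul, LinearMap.add_apply, LinearMap.smul_apply, End.one_apply] at this
    rw [← this]; abel
  have f1 : B (a.val (b'.val v)) u = B v (b'⁻¹.val (a⁻¹.val u)) := by rw [D.adj ha, D.adj hb']
  have f2 : B (b'.val (a.val v)) u = B v (a⁻¹.val (b'⁻¹.val u)) := by rw [D.adj hb', D.adj ha]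
  rw [D.skew _ v] at f1 f2
  simp only [ia, ib, map_sub, map_smul, smul_eq_mul, huv, LinearMap.sub_apply,
    LinearMap.smul_apply] at f1 f2
  simp only [LinearMap.sub_apply, End.mul_apply, map_sub, f1, f2]
  linear_combination (B (b'.val (a.val u)) v - B (a.val (b'.val u)) v) * h2

/-- structure of operators whose form is degenerate on all totally isotropic planes -/
lemma structG (M : End F V) (δ : F) (H1 : ∀ v w, B (M v) w = B (M w) v + δ * B v w)
    (H2 : ∀ v w, B v w = 0 → B (M v) v * B (M w) w = B (M v) w ^ 2) :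
    ∃ (l c : F) (p : V), M = l • 1 + c • op B p p := by
  by_cases h0 : ∀ v, B (M v) v = 0
  · obtain ⟨c, hc⟩ := D.SC M (fun u w huw => by
      have := H2 u w huw
      rw [h0, zero_mul] at this
      exact pow_eq_zero_iff two_ne_zero |>.mp this.symm)
    exact ⟨c, 0, 0, by simp [hc]⟩
  push Not at h0
  obtain ⟨u, hu⟩ := h0
  obtain ⟨m, hm⟩ : ∃ m, m = M u := ⟨_, rfl⟩
  obtain ⟨h, hh⟩ : ∃ h, h = B m u := ⟨_, rfl⟩
  have hh0 : h ≠ 0 := by rw [hh, hm]; exact hu
  have hum : B u m = -h := by rw [D.skew, hh]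
  -- projection to the perp of `u, m`
  have proj : ∀ x, ∃ (s t : F) (p : V), B u p = 0 ∧ B m p = 0 ∧ x = s • u + t • m + p := by
    intro x
    refine ⟨B m x / h, -(B u x / h), x - (B m x / h) • u + (B u x / h) • m, ?_, ?_, ?_⟩
    · simp [D.alt, hum]; field_simp; ring
    · simp [D.alt, ← hh]; field_simp; ring
    · simp only [neg_smul]; abel
  have a1 : ∀ p, B u p = 0 → B m p = 0 → B (M p) u = 0 := by
    intro p h1 h2
    have := H1 u p
    rw [← hm, h1, h2] at this
    simpa using this.symm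
  have a2 : ∀ p, B u p = 0 → B m p = 0 → B (M p) p = 0 := by
    intro p h1 h2
    have := H2 u p h1
    rw [← hm, h2, ← hh] at this
    simpa [hh0] using this
  have a3 : ∀ p, B m p = 0 → B (M m) p = B (M p) m := by
    intro p h2
    rw [H1 m p, h2]; simp
  have main : ∀ p r, B u p = 0 → B m p = 0 → B u r = 0 → B m r = 0 →
      h * ((B p r / h) ^ 2 * B (M m) m + 2 * (B p r / h) * B (M r) m) =
        ((B p r / h) * B (M p) m + B (M p) r) ^ 2 := by
    intro p r h1 h2 h3 h4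
    have h5 : B p m = 0 := by rw [D.skew, h2, neg_zero]
    have := H2 (u + p) ((B p r / h) • m + r) (by
      simp [hum, h3, h5]; field_simp; ring)
    simp only [map_add, map_smul, LinearMap.add_apply, LinearMap.smul_apply, smul_eq_mul, ← hm,
      ← hh, h2, h4, a1 p h1 h2, a2 p h1 h2, a2 r h3 h4, a3 r h4, D.alt] at this
    linear_combination this
  have ndP : ∀ r, B u r = 0 → B m r = 0 → r ≠ 0 → ∃ p, B u p = 0 ∧ B m p = 0 ∧ B p r ≠ 0 := by
    intro r h1 h2 hr
    by_contra hc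
    push Not at hc
    apply hr
    apply D.nd
    intro x
    obtain ⟨s, t, p, k1, k2, rfl⟩ := proj x
    simp [h1, h2, hc p k1 k2]
  have psi : ∀ r, B u r = 0 → B m r = 0 → B (M r) m = 0 := by
    intro r h1 h2
    by_cases hr : r = 0
    · simp [hr]
    obtain ⟨p, k1, k2, k3⟩ := ndP r h1 h2 hr
    have m0 := main p r k1 k2 h1 h2
    have m1 := main (p + r) r (by simp [k1, h1]) (by simp [k2, h2]) h1 h2
    have m2 := main (p - r) r (by simp [k1, h1]) (by simp [k2, h2]) h1 h2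
    simp only [map_add, map_sub, LinearMap.add_apply, LinearMap.sub_apply, D.alt, add_zero,
      sub_zero, a2 r h1 h2] at m1 m2
    have hs : B p r / h ≠ 0 := div_ne_zero k3 hh0
    generalize B p r / h = s at m0 m1 m2 hs
    have : (s * B (M r) m) ^ 2 = 0 := by
      by_cases h2 : (2 : F) = 0
      · linear_combination m0 - m1 - (s * B (M r) m * (s * B (M p) m + B (M p) r)) * h2
      · apply mul_left_cancel₀ h2
        linear_combination 2 * m0 - m1 - m2
    exact (mul_eq_zero.mp (pow_eq_zero_iff two_ne_zero |>.mp this)).resolve_left hs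
  have sq : ∀ p r, B u p = 0 → B m p = 0 → B u r = 0 → B m r = 0 →
      h * B (M p) r ^ 2 = B p r ^ 2 * B (M m) m := by
    intro p r h1 h2 h3 h4
    have := main p r h1 h2 h3 h4
    rw [psi p h1 h2, psi r h3 h4] at this
    apply mul_left_cancel₀ hh0
    field_simp at this
    linear_combination -this
  have alt : ∀ p r, B u p = 0 → B m p = 0 → B u r = 0 → B m r = 0 →
      2 * B (M p) r = δ * B p r := by
    intro p r h1 h2 h3 h4
    have := a2 (p + r) (by simp [h1, h3]) (by simp [h2, h4])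
    simp only [map_add, LinearMap.add_apply, a2 p h1 h2, a2 r h3 h4] at this
    linear_combination this + H1 p r
  obtain ⟨r0, hr0, hr0'⟩ : ∃ r0 ∈ LinearMap.ker (B u) ⊓ LinearMap.ker (B m),
      r0 ∉ (⊥ : Submodule F V) := by
    have := fker (B u)
    have := fk (LinearMap.ker (B u)) (B m)
    have := D.dim
    exact out (by rw [finrank_bot]; omega)
  obtain ⟨p0, k1, k2, k3⟩ := ndP r0 hr0.1 hr0.2 (by simpa using hr0')
  obtain ⟨l, hl⟩ : ∃ l, l = B (M p0) r0 / B p0 r0 := ⟨_, rfl⟩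
  have l1 : 2 * l = δ := by
    have := alt p0 r0 k1 k2 hr0.1 hr0.2
    rw [hl]; field_simp; linear_combination this
  have l2 : h * l ^ 2 = B (M m) m := by
    have := sq p0 r0 k1 k2 hr0.1 hr0.2
    rw [hl]; field_simp; linear_combination this
  have l3 : ∀ p r, B u p = 0 → B m p = 0 → B u r = 0 → B m r = 0 → B (M p) r = l * B p r := by
    intro p r h1 h2 h3 h4
    have s1 := sq p r h1 h2 h3 h4
    have s2 := alt p r h1 h2 h3 h4
    have : h * (B (M p) r - l * B p r) ^ 2 = 0 := by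
      linear_combination s1 - B p r ^ 2 * l2 - h * l * B p r * s2 + h * l * B p r ^ 2 * l1 * 1
    exact sub_eq_zero.mp (pow_eq_zero_iff two_ne_zero |>.mp ((mul_eq_zero.mp this).resolve_left hh0))
  refine ⟨l, -h⁻¹, m - l • u, ?_⟩
  ext x
  rw [← sub_eq_zero]
  apply D.nd
  intro y
  rw [D.skew]
  obtain ⟨s, t, p, j1, j2, rfl⟩ := proj x
  obtain ⟨s', t', p', j1', j2', rfl⟩ := proj y
  have b1 : B (M m) u = δ * h := by rw [H1 m u, ← hm, D.alt, ← hh]; simp
  have b2 : B p u = 0 := by rw [D.skew, j1, neg_zero]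
  have b3 : B p m = 0 := by rw [D.skew, j2, neg_zero]
  simp only [map_add, map_sub, map_smul, LinearMap.add_apply, LinearMap.sub_apply,
    LinearMap.smul_apply, smul_eq_mul, End.one_apply, op_apply, ← hm, ← hh, hum, D.alt,
    j1', j2', b1, b2, b3, a1 p j1 j2, psi p j1 j2, a3 p' j2', psi p' j1' j2', l3 p p' j1 j2 j1' j2',
    ← l1, ← l2]
  field_simp
  ring

end SpD

end Pool.Agent.MP_db74b1_al
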