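import Pool.Agent.MP_db74b1_al.ClSp1

/-! Symplectic groups, main theorem. -/

set_option autoImplicit false
set_option linter.unusedSectionVars false

namespace Pool.Agent.MP_db74b1_al
open Module Submodule

variable {F V : Type} [Field F] [AddCommGroup V] [Module F V] [Finite F] [FiniteDimensional F V]

/-- the image of `x ^ n - 1` lies in a line -/
def Line (n : ℕ) (x : End F V) : Prop := ∃ p : V, ∀ v, (x ^ n) v - v ∈ span F {p}

lemma Line.conj {n : ℕ} {x : End F V} (k : (End F V)ˣ) {z : F} (hz : z ^ n = 1) (h : Line n x) :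
    Line n (z • (k.val * x * k⁻¹.val)) := by
  obtain ⟨p, hp⟩ := h
  refine ⟨k.val p, fun v => ?_⟩
  rw [smul_pow, hz, one_smul, Units.conj_pow]
  obtain ⟨c, hc⟩ := mem_span_singleton.mp (hp (k⁻¹.val v))
  rw [mem_span_singleton]
  refine ⟨c, ?_⟩
  rw [← map_smul, hc]
  simp

lemma Bad.line {G : Subgroup (End F V)ˣ} {a b : (End F V)ˣ} {e : End F V}
    (h : Bad G {z : F | z ^ 2 = 1} a b e) : Line 2 (a.val * b.val) ↔ Line 2 e := by
  obtain ⟨z, hz, k, hk⟩ := h.base
  have hz : z ^ 2 = 1 := hz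
  constructor
  · intro hl
    have := hl.conj k⁻¹ hz
    rw [hk] at this
    simpa [smul_smul, ← pow_two, hz, ← mul_assoc] using this
  · intro hl
    rw [hk]
    exact hl.conj k hz

lemma conj_op {σ : F →+* F} {B : V →ₗ[F] V →ₛₗ[σ] F} {g b : (End F V)ˣ}
    (hg : ∀ x y, B (g.val x) (g.val y) = B x y) {l c : F} {p : V}
    (h : b.val = l • 1 + c • op B p p) :
    (g * b * g⁻¹).val = l • 1 + c • op B (g.val p) (g.val p) := by
  ext x
  simp [h, ← hg (g⁻¹.val x) p]

namespace SpD
variable {B : V →ₗ[F] V →ₗ[F] F} {G : Subgroup (End F V)ˣ} (D : SpD B G)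
include D

lemma notLine {n : ℕ} {x : End F V} {c1 c2 : F} {p y : V} (h1 : c1 ≠ 0) (h2 : c2 ≠ 0) (hp : p ≠ 0)
    (hy : y ∉ span F {p}) (h : ∀ v, (x ^ n) v - v = (c1 * B v p) • p + (c2 * B v y) • y) :
    ¬ Line n x := by
  rintro ⟨p0, h0⟩
  obtain ⟨z1, k1, k2⟩ := sep B D.nd (nmem1_swap hp hy)
  obtain ⟨z2, k3, k4⟩ := sep B D.nd hy
  have k2 := k2 y (mem_span_singleton_self y)
  have k4 := k4 p (mem_span_singleton_self p)
  obtain ⟨s, hs⟩ := mem_span_singleton.mp (h0 z1)
  obtain ⟨t, ht⟩ := mem_span_singleton.mp (h0 z2)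
  rw [h, D.skew p, D.skew y, k1, k2] at hs
  rw [h, D.skew p, D.skew y, k3, k4] at ht
  have := indep_pair hp hy (c := t * c1) (d := -(s * c2))
    (by linear_combination (norm := module) t • hs - s • ht)
  have ht0 : t = 0 := (mul_eq_zero.mp this.1).resolve_right h1
  rw [ht0] at ht
  simp [h2] at ht
  exact ne_zero_of_nmem hy ht

/-- the end of the proof: `b` is a scalar multiple of a transvection -/
lemma fin {a b : (End F V)ˣ} {e : End F V} (h : Bad G {z : F | z ^ 2 = 1} a b e)
    (nb : NS b.val) {l c : F} {p : V} (hb : b.val = l • 1 + c • op B p p) {y y' : V}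
    (hy : y ≠ 0) (hy' : y' ≠ 0) (h1 : Line 2 (a.val * (l • 1 + c • op B y y))) :
    Line 2 (a.val * (l • 1 + c • op B y' y')) := by
  have hp : p ≠ 0 := by
    rintro rfl
    apply nb l
    rw [hb]; ext x; simp
  obtain ⟨g, hg, e1⟩ := D.T1 hp hy
  obtain ⟨g', hg', e1'⟩ := D.T1 hp hy'
  have k1 := (h.conjR hg).line
  have k2 := (h.conjR hg').line
  rw [conj_op ((D.mem g).mp hg) hb, e1] at k1
  rw [conj_op ((D.mem g').mp hg') hb, e1'] at k2
  exact k2.mpr (k1.mp h1)

lemma c_ne {b : (End F V)ˣ} (nb : NS b.val) {l c : F} {p : V}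
    (hb : b.val = l • 1 + c • op B p p) : c ≠ 0 := by
  rintro rfl
  apply nb l
  simpa using hb

section caseII
variable {a b : (End F V)ˣ} {e : End F V} (h : Bad G {z : F | z ^ 2 = 1} a b e)
  (ha : a ∈ G) (hb : b ∈ G) (hq : ∀ v, B (a.val v) v = 0)
include ha hq

lemma II_adj (x y : V) : B (a.val x) y = B x (a.val y) := by
  have := hq (x + y)
  simp only [map_add, LinearMap.add_apply, hq] at this
  rw [D.skew (a.val y) x]
  linear_combination this

lemma II_sq (x : V) : a.val (a.val x) = x := by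
  rw [← sub_eq_zero]
  apply D.nd
  intro y
  rw [map_sub, ← D.II_adj ha hq, (D.mem a).mp ha, sub_self]

include h hb

lemma II_sym (na : NS a.val) : ∃ δ : F, b.val + (1 : F) • b⁻¹.val = δ • 1 := by
  obtain ⟨u, v, huv, hA⟩ : ∃ u v, B u v = 0 ∧ B (a.val u) v ≠ 0 := by
    by_contra hh
    push Not at hh
    obtain ⟨c, hc⟩ := D.SC _ hh
    exact na c hc
  have hu : u ≠ 0 := by rintro rfl; simp at hA
  have hv : v ∉ span F {u} := by
    rw [nmem1]; rintro c rfl; simp [hq] at hA
  apply D.SC
  intro u' v' huv'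
  have e1 : B ((b.val + (1 : F) • b⁻¹.val) u') v' = B (b.val u') v' - B (b.val v') u' := by
    simp [D.adj hb v', D.skew v', sub_eq_add_neg]
  rw [e1]
  by_cases hu' : u' = 0
  · simp [hu']
  by_cases hv' : v' ∈ span F {u'}
  · obtain ⟨c, rfl⟩ := mem_span_singleton.mp hv'
    simp
  obtain ⟨T, l1, l2, l3, -, k⟩ := D.pairs h ha hb hu hv huv hu' hv' huv'
  have hA' : B (a.val v) u = - B (a.val u) v := by rw [D.II_adj ha hq, D.skew]
  have := D2 (c := T) (l1 := l1) (l2 := l2) (α := 0)
    (β := B (a.val u) v * (B (b.val v') u' - B (b.val u') v')) (γ := 0) (t := tr e) (by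
      intro x y
      obtain ⟨ζ, h1, h2⟩ := k x y 0
      refine ⟨ζ, by rintro rfl; simp at h1, ?_⟩
      rw [← h2]
      simp only [Qsp, hq, hA']
      ring)
  simp only [mul_zero, ne_eq, OfNat.ofNat_ne_zero, not_false_eq_true, pow_eq_zero_iff,
    mul_eq_zero, hA, false_or] at this
  linear_combination -this

lemma II_c2 (h3 : 2 < Nat.card F) (v : V) :
    B (b.val v) v * B (b.val (a.val v)) (a.val v) = B (b.val v) (a.val v) * B (b.val (a.val v)) v := by
  obtain ⟨θ, h0, h1⟩ := exists_third h3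
  have key : ∀ s : F, c2 (a.val * b.val) +
      pp (a.val * b.val) ((op B v (a.val v) - op B (a.val v) v) * b.val) * s +
      c2 ((op B v (a.val v) - op B (a.val v) v) * b.val) * s ^ 2 = c2 e := by
    intro s
    obtain ⟨z, hz, -, k⟩ := (h.conjL (D.tv_mem v s)).tr
    have hz : z ^ 2 = 1 := hz
    have e1 : (unip _ (D.tv_sq v s) * a * (unip _ (D.tv_sq v s))⁻¹).val =
        a.val + s • (op B v (a.val v) - op B (a.val v) v) := by
      ext x
      simp [hq, D.II_adj ha hq x v]
      module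
    rw [e1, hz, one_mul, add_mul, smul_mul_assoc, c2_add, c2_smul] at k
    rw [← k]
    simp only [pp, mul_smul_comm, map_smul, smul_eq_mul]
    ring
  have := quad3 h0 h1 (by simpa using key 0) (by simpa using key 1) (key θ)
  simp only [op, sub_mul, rk_mul, c2_sub, c2_rk, pp, tr_rk, mul_rk, rk_apply, map_smul,
    LinearMap.comp_apply, LinearMap.flip_apply, smul_eq_mul] at this
  linear_combination this

lemma II_c2' (h2 : (2 : F) = 0) {δ : F} (hδ : b.val + (1 : F) • b⁻¹.val = δ • 1) {u v : V}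
    (hu : a.val u = u) (huv : B u v = 0) :
    B (b.val u) u * B (b.val (a.val v + v)) (a.val v + v) =
      B (b.val u) (a.val v + v) * B (b.val (a.val v + v)) u := by
  obtain ⟨m, hm⟩ : ∃ m, m = a.val v + v := ⟨_, rfl⟩
  rw [← hm]
  have two : ∀ x : V, x + x = 0 := fun x => by rw [← two_smul F, h2, zero_smul]
  have huav : B u (a.val v) = 0 := by rw [← D.II_adj ha hq, hu, huv]
  have hum : B u m = 0 := by simp [hm, huav, huv]
  have ham : a.val m = m := by rw [hm, map_add, D.II_sq ha hq, add_comm]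
  obtain ⟨z, hz, -, k⟩ := (h.conjL (D.N_mem huv 0 0 1)).tr
  obtain ⟨z', hz', -, k'⟩ := h.tr
  have hz : z ^ 2 = 1 := hz
  have hz' : z' ^ 2 = 1 := hz'
  have e1 : (unip _ (D.N_sq huv 0 0 1) * a * (unip _ (D.N_sq huv 0 0 1))⁻¹).val =
      a.val + (op B u m + op B m u) := by
    ext x
    have e2 : B (a.val x) u = B x u := by rw [D.II_adj ha hq, hu]
    have e3 : B (a.val v) u = 0 := by rw [D.skew, huav, neg_zero]
    simp [hq, D.II_adj ha hq x v, hu, huv, D.alt, e2, e3, hm]
    linear_combination (norm := module) -two (B x v • u) - two (B x u • a.val v)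
  rw [e1, hz, one_mul, add_mul, c2_add, k', hz', one_mul] at k
  have ib : ∀ x, b⁻¹.val x = δ • x - b.val x := fun x => by
    have := LinearMap.congr_fun hδ x
    simp only [one_smul, LinearMap.add_apply, LinearMap.smul_apply, End.one_apply] at this
    rw [← this]; abel
  have f0 : B (b.val m) u = B (b.val u) m := by
    rw [D.adj hb, D.skew _ m, ib]; simp [hum]
  have f1 : B (b.val (a.val (b.val m))) u = B m (b⁻¹.val (a.val (b⁻¹.val u))) := by
    rw [D.adj hb, D.II_adj ha hq, D.adj hb]
  have f2 : B (a.val (b.val u)) m = B (b.val u) m := by rw [D.II_adj ha hq, ham]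
  rw [D.skew _ m] at f1
  simp only [ib, map_sub, map_smul, smul_eq_mul, LinearMap.sub_apply, LinearMap.smul_apply, hu,
    hum, f2] at f1
  simp only [op, add_mul, mul_add, rk_mul, c2_add, c2_rk, pp, tr_rk, mul_rk, rk_apply, map_smul,
    LinearMap.comp_apply, LinearMap.flip_apply, smul_eq_mul, map_add, End.mul_apply] at k
  rw [f0] at k ⊢
  rw [f1] at k
  linear_combination -k + (tr (a.val * b.val) * B (b.val u) m - δ * B (b.val u) m) * h2

theorem caseII (hd : Nat.card F = 2 → 5 ≤ finrank F V) (na : NS a.val) (nb : NS b.val) : False := by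
  obtain ⟨δ, hδ⟩ := D.II_sym h ha hb hq na
  have H1 : ∀ v w, B (b.val v) w = B (b.val w) v + δ * B v w := by
    intro v w
    have := LinearMap.congr_fun hδ v
    simp only [one_smul, LinearMap.add_apply, LinearMap.smul_apply, End.one_apply] at this
    have := congrArg (fun x => B x w) this
    simp only [map_add, map_smul, LinearMap.add_apply, LinearMap.smul_apply, smul_eq_mul] at this
    rw [D.adj hb w, D.skew _ w]
    linear_combination this
  -- a frame for `a` which controls the Gram determinant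
  have hfr : ∃ u v, u ≠ 0 ∧ v ∉ span F {u} ∧ B u v = 0 ∧ ∀ g ∈ G,
      B ((g * b * g⁻¹).val u) u * B ((g * b * g⁻¹).val v) v =
        B ((g * b * g⁻¹).val u) v * B ((g * b * g⁻¹).val v) u := by
    by_cases h3 : 2 < Nat.card F
    · obtain ⟨v, hv⟩ := na.exists
      refine ⟨v, a.val v, by rintro rfl; simp at hv, hv, by rw [D.skew, hq, neg_zero], ?_⟩
      intro g hg
      exact D.II_c2 (h.conjR hg) ha (G.mul_mem (G.mul_mem hg hb) (G.inv_mem hg)) hq h3 v
    · have h4 : Nat.card F = 2 := by have := two_le_card (F := F); omega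
      have h2 : (2 : F) = 0 := two_eq_zero_of_card_even (by omega)
      have h5 := hd h4
      obtain ⟨v, hv⟩ := na.exists
      have hm : a.val v + v ≠ 0 := by
        intro hh
        apply hv
        rw [eq_neg_of_add_eq_zero_left hh]
        exact neg_mem (mem_span_singleton_self v)
      have h6 : (a.val - 1) * (a.val - 1) = 0 := by
        ext x
        simp only [End.mul_apply, LinearMap.sub_apply, End.one_apply, map_sub, D.II_sq ha hq,
          LinearMap.zero_apply]
        linear_combination (norm := module) h2 • (x - a.val x)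
      have := fker_mul h6
      have := fk (LinearMap.ker (a.val - 1)) (B v)
      have := fs1 (F := F) (a.val v + v)
      obtain ⟨u, ⟨k1, k2⟩, k3⟩ := out (W := LinearMap.ker (a.val - 1) ⊓ LinearMap.ker (B v))
        (R := span F {a.val v + v}) (by omega)
      have k1 : a.val u = u := by simpa [sub_eq_zero] using k1
      have k2 : B u v = 0 := by rw [D.skew]; simpa using k2
      refine ⟨u, a.val v + v, ne_zero_of_nmem k3, nmem1_swap hm k3, ?_, ?_⟩
      · rw [map_add, ← D.II_adj ha hq, k1, k2, add_zero]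
      · intro g hg
        exact D.II_c2' (h.conjR hg) ha (G.mul_mem (G.mul_mem hg hb) (G.inv_mem hg)) hq h2
          (conj_sc hδ) k1 k2
  have H2 : ∀ v w, B v w = 0 → B (b.val v) v * B (b.val w) w = B (b.val v) w ^ 2 := by
    intro v w hvw
    by_cases hv : v = 0
    · simp [hv]
    by_cases hw : w ∈ span F {v}
    · obtain ⟨c, rfl⟩ := mem_span_singleton.mp hw
      simp; ring
    obtain ⟨u', v', k1, k2, k3, k4⟩ := hfr
    obtain ⟨g, hg, e1, e2⟩ := D.T2 k1 k2 k3 hv hw hvw
    have := k4 g hg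
    rw [← e1, ← e2] at this
    simp only [conj_app, (D.mem g).mp hg] at this
    rw [this, H1 w v, D.skew v w, hvw]
    ring
  obtain ⟨l, c, p, hs⟩ := D.structG _ δ H1 H2
  have hl := D.sc_sq hb hs
  have hc := D.c_ne nb hs
  have hl0 : l ≠ 0 := by rintro rfl; simp at hl
  have key : ∀ y v, ((a.val * (l • 1 + c • op B y y)) ^ 2 : End F V) v - v =
      (l * c * B v y) • y + (l * c * B v (a.val y)) • a.val y := by
    intro y v
    simp [pow_two, hq, D.II_sq ha hq, D.II_adj ha hq v y]
    linear_combination (norm := module) hl • v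
  obtain ⟨y', hy'⟩ := na.exists
  have hy0 : y' ≠ 0 := by rintro rfl; simp at hy'
  obtain ⟨y, hy, hay⟩ : ∃ y, y ≠ 0 ∧ a.val y ∈ span F {y} := by
    refine ⟨a.val y' + y', fun hh => hy' ?_, ?_⟩
    · rw [eq_neg_of_add_eq_zero_left hh]
      exact neg_mem (mem_span_singleton_self _)
    · rw [map_add, D.II_sq ha hq, add_comm]
      exact mem_span_singleton_self _
  refine D.notLine (mul_ne_zero hl0 hc) (mul_ne_zero hl0 hc) hy0 hy' (key y')
    (D.fin h nb hs hy hy0 ⟨y, fun v => ?_⟩)
  rw [key]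
  exact add_mem (smul_mem _ _ (mem_span_singleton_self _)) (smul_mem _ _ hay)

end caseII

end SpD

end Pool.Agent.MP_db74b1_al
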