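import Pool.Agent.MP_db74b1_al.ClSp2

/-! Symplectic groups, case I and the main theorem. -/

set_option autoImplicit false
set_option linter.unusedSectionVars false

namespace Pool.Agent.MP_db74b1_al
open Module Submodule

variable {F V : Type} [Field F] [AddCommGroup V] [Module F V] [Finite F] [FiniteDimensional F V]

namespace SpD
variable {B : V →ₗ[F] V →ₗ[F] F} {G : Subgroup (End F V)ˣ} (D : SpD B G)
include D

section caseI
variable {a b : (End F V)ˣ} {e : End F V} (h : Bad G {z : F | z ^ 2 = 1} a b e)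
  (ha : a ∈ G) (hb : b ∈ G)
include h ha hb

lemma I_two_sym (h2 : (2 : F) = 0) {u : V} (hu : B (a.val u) u ≠ 0) :
    ∃ δ : F, b.val + (1 : F) • b⁻¹.val = δ • 1 := by
  obtain ⟨v, k1, k2⟩ := D.ext u
  have hu0 : u ≠ 0 := by rintro rfl; simp at hu
  apply D.SC
  intro u' v' huv'
  have e1 : B ((b.val + (1 : F) • b⁻¹.val) u') v' = B (b.val u') v' - B (b.val v') u' := by
    simp [D.adj hb v', D.skew v', sub_eq_add_neg]
  rw [e1]
  by_cases hu' : u' = 0
  · simp [hu']
  by_cases hv' : v' ∈ span F {u'}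
  · obtain ⟨c, rfl⟩ := mem_span_singleton.mp hv'
    simp
  have key : ∀ v, v ∉ span F {u} → B u v = 0 →
      B (a.val u) v * B (b.val v') u' + B (a.val v) u * B (b.val u') v' = 0 := by
    intro v k1 k2
    obtain ⟨T, l1, l2, l3, -, k⟩ := D.pairs h ha hb hu0 k1 k2 hu' hv' huv'
    obtain ⟨ζ1, j1, i1⟩ := k 0 0 0
    obtain ⟨ζ2, j2, i2⟩ := k 1 0 0
    obtain ⟨ζ3, j3, i3⟩ := k 0 1 0
    obtain ⟨ζ4, j4, i4⟩ := k 1 1 0
    rw [sq_one_two h2 j1] at i1
    rw [sq_one_two h2 j2] at i2
    rw [sq_one_two h2 j3] at i3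
    rw [sq_one_two h2 j4] at i4
    simp only [Qsp] at i1 i2 i3 i4
    linear_combination i2 + i3 - i1 - i4
  have s1 := key v k1 k2
  have s2 := key (v + u) (fun hh => k1 (by simpa using sub_mem hh (mem_span_singleton_self u)))
    (by simp [k2, D.alt])
  simp only [map_add, LinearMap.add_apply] at s2
  apply mul_left_cancel₀ hu
  linear_combination s2 - s1 - B (a.val u) u * B (b.val v') u' * h2

lemma I_two (h2 : (2 : F) = 0) {u u' : V} (hu : B (a.val u) u ≠ 0) (hu' : B (b.val u') u' ≠ 0) :
    False := by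
  obtain ⟨β, hβ⟩ := D.I_two_sym h ha hb h2 hu
  obtain ⟨α, hα⟩ := D.I_two_sym h.swap hb ha h2 hu'
  have sy : ∀ (c : (End F V)ˣ) (γ : F), c ∈ G → c.val + (1 : F) • c⁻¹.val = γ • 1 →
      ∀ x y, B x y = 0 → B (c.val y) x = B (c.val x) y := by
    intro c γ hc hγ x y hxy
    have := congrArg (fun f : End F V => B (f x) y) hγ
    simp [hxy] at this
    rw [D.adj hc y, D.skew _ y]
    linear_combination -this
  obtain ⟨v, k1, k2⟩ := D.ext u
  obtain ⟨v', k1', k2'⟩ := D.ext u'
  have key : ∀ v, v ∉ span F {u} → B u v = 0 →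
      B (a.val u) u * B (b.val v') v' + B (a.val v) v * B (b.val u') u' = 0 := by
    intro v k1 k2
    obtain ⟨T, l1, l2, l3, k0, k⟩ := D.pairs h ha hb (by rintro rfl; simp at hu) k1 k2
      (by rintro rfl; simp at hu') k1' k2'
    obtain ⟨ζ1, j1, i1⟩ := k 0 0 0
    obtain ⟨ζ2, j2, i2⟩ := k 0 0 1
    rw [sq_one_two h2 j1] at i1
    rw [sq_one_two h2 j2] at i2
    simp only [Qsp, k0 α β h2 hα hβ, sy a α ha hα u v k2, sy b β hb hβ u' v' k2'] at i1 i2
    linear_combination i1 - i2 - B (a.val u) v * B (b.val u') v' * h2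
  have s1 := key v k1 k2
  have s2 := key (v + u) (fun hh => k1 (by simpa using sub_mem hh (mem_span_singleton_self u)))
    (by simp [k2, D.alt])
  simp only [map_add, LinearMap.add_apply, sy a α ha hα u v k2] at s2
  apply mul_ne_zero hu hu'
  linear_combination s2 - s1 - B (a.val u) v * B (b.val u') u' * h2

lemma I_diag (h2 : (2 : F) ≠ 0) {u v u' v' : V} (hu : B (a.val u) u ≠ 0) (hv : v ∉ span F {u})
    (huv : B u v = 0) (hd : B (a.val u) v + B (a.val v) u = 0)
    (hu' : B (b.val u') u' ≠ 0) (hv' : v' ∉ span F {u'})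
    (huv' : B u' v' = 0) (hd' : B (b.val u') v' + B (b.val v') u' = 0) :
    B (a.val u) v * B (b.val u') v' = 0 ∧ B (a.val v) v = 0 := by
  have h4 : (4 : F) ≠ 0 := by
    have : (4 : F) = 2 * 2 := by norm_num
    rw [this]; exact mul_ne_zero h2 h2
  have key : ∀ v, v ∉ span F {u} → B u v = 0 → B (a.val u) v + B (a.val v) u = 0 →
      2 * (B (a.val u) v * B (b.val u') v') + B (a.val u) u * B (b.val v') v' +
        B (a.val v) v * B (b.val u') u' = 0 ∧
      (B (a.val u) v * B (b.val u') v') ^ 2 =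
        B (a.val u) u * B (b.val u') u' * (B (a.val v) v * B (b.val v') v') := by
    intro v hv huv hd
    obtain ⟨T, l1, l2, l3, -, k⟩ := D.pairs h ha hb (by rintro rfl; simp at hu) hv huv
      (by rintro rfl; simp at hu') hv' huv'
    have e1 : B (a.val v) u = - B (a.val u) v := by linear_combination hd
    have e2 : B (b.val v') u' = - B (b.val u') v' := by linear_combination hd'
    have d1 := D2 (c := T) (l1 := l1) (l2 := l3) (α := B (a.val u) u * B (b.val u') u') (β := 0)
      (γ := 2 * (B (a.val u) v * B (b.val u') v') + B (a.val u) u * B (b.val v') v' +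
        B (a.val v) v * B (b.val u') u') (t := tr e) (by
        intro x y
        obtain ⟨ζ, h1, h2⟩ := k x 0 y
        refine ⟨ζ, by rintro rfl; simp at h1, ?_⟩
        rw [← h2]
        simp only [Qsp, e1, e2]
        ring)
    have d2 := D2 (c := T) (l1 := l1) (l2 := l2) (α := B (a.val u) u * B (b.val u') u')
      (β := -2 * (B (a.val u) v * B (b.val u') v'))
      (γ := B (a.val v) v * B (b.val v') v') (t := tr e) (by
        intro x y
        obtain ⟨ζ, h1, h2⟩ := k x y 0
        refine ⟨ζ, by rintro rfl; simp at h1, ?_⟩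
        rw [← h2]
        simp only [Qsp, e1, e2]
        ring)
    constructor
    · apply mul_left_cancel₀ (mul_ne_zero h4 (mul_ne_zero hu hu'))
      linear_combination -d1
    · apply mul_left_cancel₀ h4
      linear_combination d2
  obtain ⟨s1, s2⟩ := key v hv huv hd
  obtain ⟨s3, -⟩ := key (-v) (by simpa using hv) (by simp [huv])
    (by simp only [map_neg, LinearMap.neg_apply]; linear_combination -hd)
  simp only [map_neg, LinearMap.neg_apply, neg_neg] at s3
  have s4 : B (a.val u) v * B (b.val u') v' = 0 := by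
    apply mul_left_cancel₀ h4
    linear_combination s1 - s3
  refine ⟨s4, ?_⟩
  rw [s4] at s1 s2
  have s5 : B (a.val v) v * B (b.val v') v' = 0 := by
    apply mul_left_cancel₀ (mul_ne_zero hu hu')
    linear_combination -s2
  have s6 : B (b.val u') u' * B (a.val v) v ^ 2 = 0 := by
    linear_combination B (a.val v) v * s1 - B (a.val u) u * s5
  exact pow_eq_zero_iff two_ne_zero |>.mp ((mul_eq_zero.mp s6).resolve_left hu')

omit h ha hb in
lemma mkdiag (h2 : (2 : F) ≠ 0) (a : End F V) {u v : V} (hu : B (a u) u ≠ 0) (hv : v ∉ span F {u})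
    (huv : B u v = 0) : ∃ c : F, v - c • u ∉ span F {u} ∧ B u (v - c • u) = 0 ∧
      B (a u) (v - c • u) + B (a (v - c • u)) u = 0 := by
  refine ⟨(B (a u) v + B (a v) u) / (2 * B (a u) u), fun hh => hv ?_, by simp [huv, D.alt], ?_⟩
  · simpa using add_mem hh (smul_mem _ ((B (a u) v + B (a v) u) / (2 * B (a u) u))
      (mem_span_singleton_self u))
  · simp only [map_sub, map_smul, LinearMap.sub_apply, LinearMap.smul_apply, smul_eq_mul]
    field_simp
    ring

lemma I_rank (h2 : (2 : F) ≠ 0) {u u' : V} (hu : B (a.val u) u ≠ 0) (hu' : B (b.val u') u' ≠ 0) :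
    ∃ (c : F) (p : V), c ≠ 0 ∧ p ≠ 0 ∧ a.val - a⁻¹.val = c • op B p p := by
  obtain ⟨v0, k1, k2⟩ := D.ext u'
  obtain ⟨c', j1, j2, j3⟩ := D.mkdiag h2 b.val hu' k1 k2
  have dd : ∀ v w, B ((a.val - a⁻¹.val) v) w = B (a.val v) w + B (a.val w) v := by
    intro v w
    simp [D.adj ha w, D.skew w, sub_eq_add_neg]
  have key : ∀ v w, B v w = 0 → B (a.val v) v ≠ 0 →
      4 * B (a.val v) v * B (a.val w) w = (B (a.val v) w + B (a.val w) v) ^ 2 := by
    intro v w hvw hv
    by_cases hw : w ∈ span F {v}
    · obtain ⟨c, rfl⟩ := mem_span_singleton.mp hw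
      simp; ring
    obtain ⟨c, i1, i2, i3⟩ := D.mkdiag h2 a.val hv hw hvw
    have := (D.I_diag h ha hb h2 hv i1 i2 i3 hu' j1 j2 j3).2
    simp only [map_sub, map_smul, LinearMap.sub_apply, LinearMap.smul_apply, smul_eq_mul] at this i3
    linear_combination 4 * B (a.val v) v * this -
      (B (a.val v) w + B (a.val w) v - 2 * c * B (a.val v) v) * i3
  obtain ⟨l, c, p, hs⟩ := D.structG (a.val - a⁻¹.val) 0 (fun v w => by rw [dd, dd]; ring) (by
    intro v w hvw
    have hwv : B w v = 0 := by rw [D.skew, hvw, neg_zero]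
    simp only [dd]
    by_cases hv : B (a.val v) v = 0
    · by_cases hw : B (a.val w) w = 0
      · by_contra hne
        have h5 : B (a.val v) w + B (a.val w) v ≠ 0 := by
          intro hh; apply hne; rw [hv, hh]; ring
        have := key (v + w) w (by simp [hvw, D.alt]) (by
          simp only [map_add, LinearMap.add_apply, hv, hw]
          intro hh; apply h5; linear_combination hh)
        simp only [map_add, LinearMap.add_apply, hv, hw] at this
        apply hne
        rw [hv]
        linear_combination this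
      · linear_combination key w v hwv hw
    · linear_combination key v w hvw hv)
  have hl : l = 0 := by
    obtain ⟨x, y, hxy⟩ := D.exists_pair
    have e1 := dd x y
    have e2 := dd y x
    simp [hs, D.skew x y, hxy, D.skew x p, D.skew y p] at e1 e2
    apply mul_left_cancel₀ h2
    linear_combination e1 - e2
  rw [hl, zero_smul, zero_add] at hs
  have hne : c • op B p p ≠ 0 := by
    intro hh
    have := dd u u
    rw [hs, hh] at this
    apply mul_ne_zero h2 hu
    simp at this
    linear_combination -this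
  refine ⟨c, p, ?_, ?_, hs⟩
  · rintro rfl; simp at hne
  · rintro rfl; apply hne; ext x; simp

lemma I_three (h2 : (2 : F) ≠ 0) (nb : NS b.val) {u u' : V} (hu : B (a.val u) u ≠ 0)
    (hu' : B (b.val u') u' ≠ 0)
    (H : ∀ u' v', B (b.val u') u' ≠ 0 → v' ∉ span F {u'} → B u' v' = 0 →
      B (b.val u') v' + B (b.val v') u' = 0 → B (b.val u') v' = 0) : False := by
  obtain ⟨c, p, hc, hp, hs⟩ := D.I_rank h ha hb h2 hu hu'
  obtain ⟨c', p', hc', hp', hs'⟩ := D.I_rank h.swap hb ha h2 hu' hu
  have ss : ∀ v w, B ((b.val + b⁻¹.val) v) w = B (b.val v) w - B (b.val w) v := by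
    intro v w
    simp [D.adj hb w, D.skew w, sub_eq_add_neg]
  have qb : ∀ w, 2 * B (b.val w) w = - c' * B w p' ^ 2 := by
    intro w
    have := congrArg (fun f : End F V => B (f w) w) hs'
    simp [D.skew w p'] at this
    have e1 := ss w w
    simp at e1
    linear_combination this + e1
  obtain ⟨δ, hδ⟩ := eig_hyper h2 (b.val + b⁻¹.val) (B.flip p') (w0 := u') (by
      intro hh
      have := qb u'
      rw [LinearMap.flip_apply] at hh
      rw [hh] at this
      apply mul_ne_zero h2 hu'
      simpa using this) (by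
      intro w hw
      rw [LinearMap.flip_apply] at hw
      have hw' : B (b.val w) w ≠ 0 := by
        intro hh
        have := qb w
        rw [hh] at this
        simp [hc', hw] at this
      apply D.SC1
      intro v hwv
      by_cases hv : v ∈ span F {w}
      · obtain ⟨c, rfl⟩ := mem_span_singleton.mp hv
        rw [ss]; simp
      obtain ⟨s, i1, i2, i3⟩ := D.mkdiag h2 b.val hw' hv hwv
      have i4 := H _ _ hw' i1 i2 i3
      rw [ss]
      simp only [map_sub, map_smul, LinearMap.sub_apply, LinearMap.smul_apply,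
        smul_eq_mul] at i3 i4
      linear_combination 2 * i4 - i3)
  have hbs : b.val = (δ / 2) • 1 + (c' / 2) • op B p' p' := by
    have : b.val = (2 : F)⁻¹ • ((b.val + b⁻¹.val) + (b.val - b⁻¹.val)) := by
      have : (b.val + b⁻¹.val) + (b.val - b⁻¹.val) = (2 : F) • b.val := by module
      rw [this, smul_smul, inv_mul_cancel₀ h2, one_smul]
    rw [this, hδ, hs']
    module
  generalize δ / 2 = l at hbs
  generalize c' / 2 = d at hbs
  have hl := D.sc_sq hb hbs
  have hd := D.c_ne nb hbs
  have hl0 : l ≠ 0 := by rintro rfl; simp at hl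
  have hs1 : ∀ x, a.val (a.val x) = x + (c * B x p) • a.val p := by
    intro x
    have := congrArg (fun f : End F V => a.val (f x)) hs
    simp only [LinearMap.sub_apply, map_sub, app_inv, LinearMap.smul_apply, op_apply,
      map_smul] at this
    linear_combination (norm := module) this
  obtain ⟨κ, hκ⟩ : ∃ κ : F, a.val p = κ • p := by
    obtain ⟨z, hz, -⟩ := sep B D.nd (nmem0.mpr hp)
    have e1 := hs1 z
    have e2 := congrArg (fun f : End F V => f (a.val z)) hs
    simp only [LinearMap.sub_apply, inv_app, LinearMap.smul_apply, op_apply] at e2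
    rw [D.skew p z, hz] at e1
    refine ⟨-B (a.val z) p, ?_⟩
    have : c • a.val p = c • (-B (a.val z) p • p) := by
      linear_combination (norm := module) e1 - e2
    exact smul_right_injective V hc this
  have hκ0 : κ ≠ 0 := by
    rintro rfl
    exact hp (app_eq_zero (by simpa using hκ))
  have key : ∀ (y : V) (μ ν : F), a.val y = μ • y → a⁻¹.val y = ν • y → ∀ v,
      ((a.val * (l • 1 + d • op B y y)) ^ 2 : End F V) v - v =
        (c * κ * B v p) • p + (l * d * (μ ^ 2 + μ * ν) * B v y) • y := by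
    intro y μ ν e1 e2 v
    have e3 : B (a.val v) y = ν * B v y := by rw [D.adj ha, e2]; simp
    simp [pow_two, e1, e3, D.alt, hs1, hκ]
    linear_combination (norm := module) hl • v + hl • (c * κ * B v p) • p
  obtain ⟨y, μ, hμ, hy, hay⟩ : ∃ (y : V) (μ : F), μ ^ 2 = 1 ∧ y ∉ span F {p} ∧ a.val y = μ • y := by
    obtain ⟨v, k1, k2⟩ := D.ext p
    have k3 : a.val (a.val v) = v := by rw [hs1, D.skew, k2]; simp
    by_cases k4 : v + a.val v ∈ span F {p}
    · refine ⟨v - a.val v, -1, by ring, fun k5 => k1 ?_, by simp [k3]⟩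
      have : v = (2 : F)⁻¹ • ((v + a.val v) + (v - a.val v)) := by
        have : (v + a.val v) + (v - a.val v) = (2 : F) • v := by module
        rw [this, smul_smul, inv_mul_cancel₀ h2, one_smul]
      rw [this]
      exact smul_mem _ _ (add_mem k4 k5)
    · exact ⟨v + a.val v, 1, by ring, k4, by simp [k3, add_comm]⟩
  have hay' : a⁻¹.val y = μ • y := by
    have : y = a.val (μ • y) := by rw [map_smul, hay, smul_smul, ← pow_two, hμ, one_smul]
    conv_lhs => rw [this, inv_app]
  have hap' : a⁻¹.val p = κ⁻¹ • p := by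
    have : p = a.val (κ⁻¹ • p) := by rw [map_smul, hκ, smul_smul, inv_mul_cancel₀ hκ0, one_smul]
    conv_lhs => rw [this, inv_app]
  refine D.notLine (mul_ne_zero hc hκ0) (c2 := l * d * (μ ^ 2 + μ * μ)) ?_ hp hy (key y μ μ hay hay')
    (D.fin h nb hbs hp (ne_zero_of_nmem hy) ⟨p, fun v => ?_⟩)
  · rw [← pow_two, hμ]
    refine mul_ne_zero (mul_ne_zero hl0 hd) ?_
    intro hh; apply h2; linear_combination hh
  · rw [key p κ κ⁻¹ hκ hap']
    exact add_mem (smul_mem _ _ (mem_span_singleton_self _))
      (smul_mem _ _ (mem_span_singleton_self _))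

theorem main (hd : Nat.card F = 2 → 5 ≤ finrank F V) (na : NS a.val) (nb : NS b.val) : False := by
  by_cases hqa : ∀ v, B (a.val v) v = 0
  · exact D.caseII h ha hb hqa hd na nb
  by_cases hqb : ∀ v, B (b.val v) v = 0
  · exact D.caseII h.swap hb ha hqb hd nb na
  push Not at hqa hqb
  obtain ⟨u, hu⟩ := hqa
  obtain ⟨u', hu'⟩ := hqb
  by_cases h2 : (2 : F) = 0
  · exact D.I_two h ha hb h2 hu hu'
  by_cases H : ∀ u' v', B (b.val u') u' ≠ 0 → v' ∉ span F {u'} → B u' v' = 0 →
      B (b.val u') v' + B (b.val v') u' = 0 → B (b.val u') v' = 0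
  · exact D.I_three h ha hb h2 nb hu hu' H
  push Not at H
  obtain ⟨w, w', k1, k2, k3, k4, k5⟩ := H
  refine D.I_three h.swap hb ha h2 na hu' hu ?_
  intro x y j1 j2 j3 j4
  exact (mul_eq_zero.mp (D.I_diag h ha hb h2 j1 j2 j3 j4 k1 k2 k3 k4).1).resolve_right k5

end caseI

end SpD

end Pool.Agent.MP_db74b1_al
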