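import Pool.Agent.MP_db74b1_al.ClSp2

/-! Unitary groups, geometry. -/

set_option autoImplicit false
set_option linter.unusedSectionVars false

namespace Pool.Agent.MP_db74b1_al
open Module Submodule

variable {F V : Type} [Field F] [AddCommGroup V] [Module F V] [Finite F] [FiniteDimensional F V]

/-- unitary data -/
structure UD (σ : F →+* F) (B : V →ₗ[F] V →ₛₗ[σ] F) (G : Subgroup (End F V)ˣ) : Prop where
  inv : ∀ x, σ (σ x) = x
  nt : ∃ θ, σ θ ≠ θ
  herm : ∀ x y, B y x = σ (B x y)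
  nd : ∀ y, (∀ x, B x y = 0) → y = 0
  mem : ∀ g, g ∈ G ↔ (∀ x y, B (g.val x) (g.val y) = B x y) ∧ LinearMap.det g.val = 1
  dim : 3 ≤ finrank F V

namespace UD
variable {σ : F →+* F} {B : V →ₗ[F] V →ₛₗ[σ] F} {G : Subgroup (End F V)ˣ} (D : UD σ B G)
include D

lemma skew : ∃ s : F, s ≠ 0 ∧ σ s = -s := by
  obtain ⟨θ, h⟩ := D.nt
  exact ⟨θ - σ θ, sub_ne_zero.mpr h.symm, by simp [D.inv]⟩

lemma trne : ∃ w : F, w + σ w ≠ 0 := by
  obtain ⟨θ, h⟩ := D.nt
  by_cases h2 : (2 : F) = 0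
  · exact ⟨θ, fun hh => h (by linear_combination hh - θ * h2)⟩
  · exact ⟨1, fun hh => h2 (by simp at hh; linear_combination hh)⟩

lemma tr_onto {d k : F} (hd : σ d = d) (hk : k ≠ 0) : ∃ μ : F, μ * k + σ μ * σ k = d := by
  obtain ⟨w, hw⟩ := D.trne
  have hk' : σ k ≠ 0 := by simpa using hk
  have hw' : σ w + w ≠ 0 := by rwa [add_comm]
  refine ⟨d * w / (w + σ w) / k, ?_⟩
  simp only [map_div₀, map_mul, map_add, hd, D.inv]
  field_simp
  ring

lemma norm_onto {d : F} (hd : σ d = d) : ∃ c : F, c * σ c = d := by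
  obtain ⟨θ, h⟩ := D.nt
  let K : Subfield F := σ.eqLocusField (RingHom.id F)
  have hK : ∀ x : F, σ x = x → x ∈ K := fun x hx => hx
  let t : K := ⟨θ + σ θ, hK _ (by simp [D.inv, add_comm])⟩
  let n : K := ⟨θ * σ θ, hK _ (by simp [D.inv, mul_comm])⟩
  obtain ⟨x, y, e⟩ := onto2 (F := K) (c := 0) (l1 := 0) (l2 := 0) (α := -1) (β := -t) (γ := -n) (by
    intro hh
    have := congrArg (fun x : K => (x : F)) hh
    simp only [t, n] at this
    push_cast at this
    have h4 : ((4 : K) : F) = 4 := map_ofNat K.subtype 4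
    rw [h4] at this
    apply h
    have h5 : (σ θ - θ) ^ 2 = 0 := by linear_combination this
    exact sub_eq_zero.mp (pow_eq_zero_iff two_ne_zero |>.mp h5)) ⟨d, hK d hd⟩
  have e := congrArg (fun x : K => (x : F)) e
  simp only [t, n] at e
  push_cast at e
  have hx : σ x = x := x.2
  have hy : σ y = y := y.2
  refine ⟨x + y * θ, ?_⟩
  simp only [map_add, map_mul, hx, hy]
  linear_combination e

lemma self (x : V) : σ (B x x) = B x x := (D.herm x x).symm

lemma flip0 {x y : V} (h : B x y = 0) : B y x = 0 := by rw [D.herm, h, map_zero]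

lemma flipne {x y : V} (h : B x y ≠ 0) : B y x ≠ 0 := fun hh => h (D.flip0 hh)

lemma nd' (x : V) (h : ∀ y, B x y = 0) : x = 0 := D.nd x fun y => D.flip0 (h y)

lemma iso {g : (End F V)ˣ} (hg : g ∈ G) (x y : V) : B (g.val x) (g.val y) = B x y :=
  ((D.mem g).mp hg).1 x y

lemma adj {a : (End F V)ˣ} (ha : a ∈ G) (x y : V) : B (a.val x) y = B x (a⁻¹.val y) := by
  rw [← D.iso ha x (a⁻¹.val y), app_inv]

lemma ISO {W R : Submodule F V} (h : finrank F R + 2 ≤ finrank F W) :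
    ∃ v ∈ W, v ∉ R ∧ B v v = 0 := by
  obtain ⟨z1, h1, z2, h2, h3⟩ := out2 h
  by_cases k : B z1 z1 = 0
  · exact ⟨z1, h1, fun hh => one_ne_zero (h3 1 0 (by simpa using hh)).1, k⟩
  obtain ⟨c, hc⟩ := D.norm_onto (d := (B z2 z1 * σ (B z2 z1) - B z1 z1 * B z2 z2) / B z1 z1 ^ 2)
    (by simp [D.self, D.inv, mul_comm])
  refine ⟨(c - B z2 z1 / B z1 z1) • z1 + z2, add_mem (smul_mem _ _ h1) h2,
    fun hh => one_ne_zero (h3 _ 1 (by simpa using hh)).2, ?_⟩
  simp only [map_add, map_smul, map_smulₛₗ, LinearMap.add_apply, LinearMap.smul_apply, smul_eq_mul,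
    map_sub, map_div₀, D.self, D.herm z2 z1]
  field_simp at hc ⊢
  linear_combination hc

lemma mem_skew (N : End F V) (hN : N * N = 0) (hs : ∀ x y, B (N x) y + B x (N y) = 0) :
    unip N hN ∈ G := by
  rw [D.mem]
  refine ⟨fun x y => ?_, det_unip N hN⟩
  have h1 := hs x (N y)
  rw [← End.mul_apply, hN] at h1
  simp only [LinearMap.zero_apply, map_zero, add_zero] at h1
  simp only [unip_val, LinearMap.add_apply, End.one_apply, map_add, h1]
  linear_combination hs x y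

lemma N_sq {u v : V} (hu : B u u = 0) (hv : B v v = 0) (h : B u v = 0) (s c : F) :
    (s • op B u u + c • (op B u v - op B v u)) * (s • op B u u + c • (op B u v - op B v u)) = 0 := by
  ext w
  simp [h, D.flip0 h, hu, hv]

lemma N_mem {u v : V} (hu : B u u = 0) (hv : B v v = 0) (h : B u v = 0) {s c : F} (hs : σ s = -s)
    (hc : σ c = c) : unip _ (D.N_sq hu hv h s c) ∈ G := by
  apply D.mem_skew
  intro x y
  simp [hs, hc, D.herm y u, D.herm y v]
  ring

lemma step0 {W : Submodule F V} {x x' : V} (h : B x x' ≠ 0) (hx : B x x = 0) (hx' : B x' x' = 0)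
    (h1 : ∀ w ∈ W, B w x = 0) (h2 : ∀ w ∈ W, B w x' = 0) :
    ∃ g ∈ G, (∀ w ∈ W, g.val w = w) ∧ ∃ c : F, c ≠ 0 ∧ g.val x = c • x' := by
  obtain ⟨s, hs0, hs⟩ := D.skew
  have h' : σ (B x x') ≠ 0 := by simpa using h
  have he : B (σ (s / B x x') • x' - x) (σ (s / B x x') • x' - x) = 0 := by
    simp [hx, hx', D.inv, D.herm x x', hs]
    field_simp
    ring
  refine ⟨_, D.N_mem he (v := 0) (by simp) (by simp) (s := s⁻¹) (c := 0) (by simp [hs]) (by simp),
    fun w hw => ?_, σ (s / B x x'), by simp [hs0, h], ?_⟩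
  · simp [h1 w hw, h2 w hw]
  · simp [hx, D.inv, smul_smul, h, hs0]

lemma step {W : Submodule F V} {x x' : V} (hx : x ∉ W) (hx' : x' ∉ W) (k : B x x = 0)
    (k' : B x' x' = 0) (h1 : ∀ w ∈ W, B w x = 0) (h2 : ∀ w ∈ W, B w x' = 0) :
    ∃ g ∈ G, (∀ w ∈ W, g.val w = w) ∧ ∃ c : F, c ≠ 0 ∧ g.val x = c • x' := by
  by_cases h : B x x' = 0
  swap
  · exact D.step0 h k k' h1 h2
  obtain ⟨z, k1, k2, k3⟩ := sep2 B D.nd hx hx'
  obtain ⟨μ, hμ⟩ := D.tr_onto (D.self z) k1
  have j1 : B (z - μ • x) (z - μ • x) = 0 := by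
    simp [k, D.herm x z]
    linear_combination -hμ
  have j2 : ∀ w ∈ W, B w (z - μ • x) = 0 := fun w hw => by simp [k3 w hw, h1 w hw]
  obtain ⟨g, hg, e1, c, hc, e2⟩ := D.step0 (x := x) (x' := z - μ • x) (by simpa [k] using k1) k j1 h1 j2
  obtain ⟨g', hg', e1', c', hc', e2'⟩ := D.step0 (x := z - μ • x) (x' := x')
    (by simpa [h] using D.flipne k2) j1 k' j2 h2
  refine ⟨g' * g, G.mul_mem hg' hg, fun w hw => by simp [e1 w hw, e1' w hw], c * c',
    mul_ne_zero hc hc', ?_⟩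
  rw [Units.val_mul, End.mul_apply, e2, map_smul, e2', smul_smul]

lemma shear {W : Submodule F V} {u y : V} (hu : u ∈ W) (hy : y ∉ W) (k : B y y = 0)
    (h1 : ∀ w ∈ W, B w u = 0) (h2 : ∀ w ∈ W, B w y = 0) (c : F) :
    ∃ g ∈ G, (∀ w ∈ W, g.val w = w) ∧ g.val y = y + c • u := by
  obtain ⟨z, k1, k2⟩ := sep B D.nd hy
  obtain ⟨μ, hμ⟩ := D.tr_onto (D.self z) one_ne_zero
  have j1 : B (σ c • (z - μ • y)) (σ c • (z - μ • y)) = 0 := by
    simp [k, D.herm y z, k1]
    right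
    simp at hμ
    linear_combination -hμ
  refine ⟨_, D.N_mem (h1 u hu) j1 (by simp [k2 u hu, h2 u hu]) (s := 0) (c := 1) (by simp) (by simp),
    fun w hw => ?_, ?_⟩
  · simp [h1 w hw, h2 w hw, k2 w hw]
  · simp [k, k1, D.inv, D.flip0 (h2 u hu)]

lemma pol (W : Submodule F V) (M : End F V) (h : ∀ x ∈ W, B (M x) x = 0) :
    ∀ x ∈ W, ∀ y ∈ W, B (M x) y = 0 := by
  obtain ⟨θ, hθ⟩ := D.nt
  intro x hx y hy
  have e1 := h (x + y) (add_mem hx hy)
  have e2 := h (x + θ • y) (add_mem hx (smul_mem _ _ hy))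
  simp [h x hx, h y hy] at e1 e2
  apply mul_left_cancel₀ (sub_ne_zero.mpr hθ)
  linear_combination e2 - θ * e1

lemma U2rel {W : Submodule F V} (M : End F V) {u v0 : V} (hu : u ∈ W) (hv : v0 ∈ W)
    (k : B u u = 0) (k1 : B u v0 = 1) (h : ∀ v ∈ W, B v v = 0 → B (M v) v = 0) :
    ∃ l : F, ∀ x ∈ W, ∀ y ∈ W, B (M x) y = l * B x y := by
  obtain ⟨θ, hθ⟩ := D.nt
  obtain ⟨s, hs0, hs⟩ := D.skew
  have E1 : ∀ v ∈ W, B u v = 1 → ∀ μ : F, μ + σ μ = B v v →
      B (M v) v = σ μ * B (M v) u + μ * B (M u) v := by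
    intro v hv hvu μ hμ
    have := h (v - μ • u) (sub_mem hv (smul_mem _ _ hu)) (by
      simp [k, D.herm u v, hvu]
      linear_combination -hμ)
    simp [h u hu k] at this
    linear_combination this
  have E2 : ∀ v ∈ W, B u v = 1 → B (M v) u = B (M u) v ∧ B (M v) v = B (M u) v * B v v := by
    intro v hv hvu
    obtain ⟨μ, hμ⟩ := D.tr_onto (D.self v) one_ne_zero
    simp only [mul_one, map_one] at hμ
    have e1 := E1 v hv hvu μ hμ
    have e2 := E1 v hv hvu (μ + s) (by rw [map_add, hs, ← hμ]; ring)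
    simp only [map_add, hs] at e2
    have e3 : B (M v) u = B (M u) v := by
      apply mul_left_cancel₀ hs0
      linear_combination e2 - e1
    exact ⟨e3, by rw [e1, e3, ← hμ]; ring⟩
  have E3 : ∀ w ∈ W, B u w = 0 → B (M u) w = 0 := by
    intro w hw hwu
    have e0 := (E2 v0 hv k1).1
    have e1 := (E2 (v0 + w) (add_mem hv hw) (by simp [k1, hwu])).1
    have e2 := (E2 (v0 + θ • w) (add_mem hv (smul_mem _ _ hw)) (by simp [k1, hwu])).1
    simp only [map_add, map_smul, map_smulₛₗ, LinearMap.add_apply, LinearMap.smul_apply,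
      smul_eq_mul, e0] at e1 e2
    apply mul_left_cancel₀ (sub_ne_zero.mpr hθ)
    linear_combination θ * e1 - e2
  obtain ⟨l, hl⟩ : ∃ l, l = B (M u) v0 := ⟨_, rfl⟩
  have E4 : ∀ w ∈ W, B u w = 0 → ∀ c : F,
      σ c * (B (M v0) w - l * B v0 w) + c * (B (M w) v0 - l * B w v0) +
        c * σ c * (B (M w) w - l * B w w) = 0 := by
    intro w hw hwu c
    have e0 := (E2 v0 hv k1).2
    have e1 := (E2 (v0 + c • w) (add_mem hv (smul_mem _ _ hw)) (by simp [k1, hwu])).2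
    simp only [map_add, map_smul, map_smulₛₗ, LinearMap.add_apply, LinearMap.smul_apply,
      smul_eq_mul, E3 w hw hwu, ← hl] at e0 e1
    linear_combination e1 - e0
  have E5 : ∀ w ∈ W, B u w = 0 → B (M v0) w = l * B v0 w ∧ B (M w) v0 = l * B w v0 ∧
      B (M w) w = l * B w w := by
    intro w hw hwu
    obtain ⟨t, ht⟩ := D.trne
    have e1 := E4 w hw hwu 1
    have e2 := E4 w hw hwu t
    have e3 := E4 w hw hwu (1 + t)
    have e4 := E4 w hw hwu θ
    simp only [map_add, map_one] at e1 e3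
    have e5 : B (M w) w - l * B w w = 0 := by
      apply mul_left_cancel₀ ht
      linear_combination e3 - e1 - e2
    rw [e5] at e1 e4
    have e6 : B (M v0) w - l * B v0 w = 0 := by
      apply mul_left_cancel₀ (sub_ne_zero.mpr hθ)
      linear_combination e4 - θ * e1
    exact ⟨by linear_combination e6, by linear_combination e1 - e6, by linear_combination e5⟩
  refine ⟨l, fun x hx y hy => ?_⟩
  have := D.pol W (M - l • 1) (fun x hx => by
    obtain ⟨j1, j2, j3⟩ := E5 (x - σ (B u x) • v0) (sub_mem hx (smul_mem _ _ hv))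
      (by simp [k1, D.inv])
    have e0 := (E2 v0 hv k1).2
    rw [← hl] at e0
    have e1 : x = σ (B u x) • v0 + (x - σ (B u x) • v0) := by abel
    generalize x - σ (B u x) • v0 = w at j1 j2 j3 e1
    generalize σ (B u x) = c at e1
    rw [e1]
    simp [e0, j1, j2, j3]
    ring) x hx y hy
  simp at this
  linear_combination this

lemma hyp {W : Submodule F V} (h : 2 ≤ finrank F W)
    (hW : ∀ u ∈ W, u ≠ 0 → ∃ z ∈ W, B u z ≠ 0) :
    ∃ u ∈ W, ∃ v ∈ W, B u u = 0 ∧ B u v = 1 := by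
  obtain ⟨u, hu, h1, h2⟩ := D.ISO (W := W) (R := ⊥) (by simpa using h)
  obtain ⟨z, hz, h3⟩ := hW u hu (by simpa using h1)
  exact ⟨u, hu, σ (B u z)⁻¹ • z, smul_mem _ _ hz, h2, by simp [D.inv, h3]⟩

lemma U2 {M : End F V} (h : NS M) : ∃ u, B u u = 0 ∧ B (M u) u ≠ 0 := by
  by_contra hh
  push Not at hh
  have := D.dim
  obtain ⟨u, -, v, -, h1, h2⟩ := D.hyp (W := ⊤) (by rw [finrank_top]; omega) (fun u _ hu => by
    obtain ⟨z, hz, -⟩ := sep B D.nd (nmem0.mpr hu)
    exact ⟨z, trivial, by simp [hz]⟩)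
  obtain ⟨l, hl⟩ := D.U2rel (W := ⊤) M trivial trivial h1 h2 (fun v _ hv => hh v hv)
  apply h l
  ext x
  rw [← sub_eq_zero]
  apply D.nd'
  intro y
  simp [hl x trivial y trivial]

lemma SPAN {W : Submodule F V} (ψ : V →ₗ[F] F) {u v0 : V} (hu : u ∈ W) (hv : v0 ∈ W)
    (k : B u u = 0) (k1 : B u v0 = 1) (h : ∀ v ∈ W, B v v = 0 → ψ v = 0) :
    ∀ x ∈ W, ψ x = 0 := by
  have key : ∀ x ∈ W, B u x ≠ 0 → ψ x = 0 := by
    intro x hx hne
    obtain ⟨μ, hμ⟩ := D.tr_onto (D.self x) hne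
    have := h (x - μ • u) (sub_mem hx (smul_mem _ _ hu)) (by
      simp [k, D.herm u x]
      linear_combination -hμ)
    simpa [h u hu k] using this
  intro x hx
  by_cases hne : B u x = 0
  · have := key (x + v0) (add_mem hx hv) (by simp [hne, k1])
    simpa [key v0 hv (by simp [k1])] using this
  · exact key x hx hne

lemma center (c : (End F V)ˣ) (hc : c ∈ G) (h : ∀ g ∈ G, g * c = c * g) :
    ∃ z ∈ {z : F | z ^ finrank F V = 1 ∧ z * σ z = 1}, c.val = z • 1 := by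
  obtain ⟨s, hs0, hs⟩ := D.skew
  have : ¬ NS c.val := by
    intro hn
    obtain ⟨u, h1, h2⟩ := D.U2 hn
    have hu : u ≠ 0 := by rintro rfl; simp at h2
    obtain ⟨x, h3, -⟩ := sep B D.nd (nmem0.mpr hu)
    have h4 := congrArg (fun g : (End F V)ˣ => B (g.val x) u)
      (h _ (D.N_mem h1 (v := 0) (by simp) (by simp) hs (c := 0) (by simp)))
    simp [D.herm u x, h3, h1, hs0] at h4
    exact h2 h4
  unfold NS at this
  push Not at this
  obtain ⟨z, hz⟩ := this
  refine ⟨z, ⟨?_, ?_⟩, hz⟩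
  · have := ((D.mem c).mp hc).2
    rw [hz, LinearMap.det_smul] at this
    simpa using this
  · have := D.dim
    obtain ⟨x, -, hx⟩ := out (W := (⊤ : Submodule F V)) (R := ⊥) (by simp; omega)
    obtain ⟨y, h, -⟩ := sep B D.nd hx
    have := D.iso hc x y
    simpa [hz, h, mul_comm] using this

end UD

end Pool.Agent.MP_db74b1_al
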