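import Pool.Agent.MP_db74b1_al.ClU1

/-! Unitary groups, the generic cases. -/

set_option autoImplicit false
set_option linter.unusedSectionVars false

namespace Pool.Agent.MP_db74b1_al
open Module Submodule

variable {F V : Type} [Field F] [AddCommGroup V] [Module F V] [Finite F] [FiniteDimensional F V]

lemma norm_coef {θ K T l1 l2 Q1 P Q2 T' l1' l2' Q1' P' Q2' : F} (h0 : θ ≠ 0) (h1 : θ ≠ 1)
    (h : ∀ x y : F, (x = 0 ∨ x = 1 ∨ x = θ) → (y = 0 ∨ y = 1 ∨ y = θ) →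
      (T + l1 * x + l2 * y - (Q1 * x ^ 2 + P * x * y + Q2 * y ^ 2)) *
        (T' + l1' * x + l2' * y - (Q1' * x ^ 2 + P' * x * y + Q2' * y ^ 2)) = K) :
    P * P' + Q1 * Q2' + Q2 * Q1' = 0 := by
  have e00 := h 0 0 (by simp) (by simp)
  have e01 := h 0 1 (by simp) (by simp)
  have e02 := h 0 θ (by simp) (by simp)
  have e10 := h 1 0 (by simp) (by simp)
  have e11 := h 1 1 (by simp) (by simp)
  have e12 := h 1 θ (by simp) (by simp)
  have e20 := h θ 0 (by simp) (by simp)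
  have e21 := h θ 1 (by simp) (by simp)
  have e22 := h θ θ (by simp) (by simp)
  apply mul_left_cancel₀ (pow_ne_zero 2 (mul_ne_zero h0 (sub_ne_zero.mpr h1)))
  linear_combination (θ - 1) * ((θ - 1) * e00 - θ * e01 + e02) - θ * ((θ - 1) * e10 - θ * e11 + e12) +
    ((θ - 1) * e20 - θ * e21 + e22)

lemma norm_coef' {σ : F →+* F} {Z : Set F} (hZ : ∀ z ∈ Z, z * σ z = 1) {θ t Q1 P Q2 : F}
    (hθ : σ θ = θ) (h0 : θ ≠ 0) (h1 : θ ≠ 1)
    (h : ∃ T l1 l2 : F, ∀ x1 x2 : F, σ x1 = x1 → σ x2 = x2 → ∃ z ∈ Z,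
      T + l1 * x1 + l2 * x2 - (Q1 * x1 ^ 2 + P * x1 * x2 + Q2 * x2 ^ 2) = z * t) :
    P * σ P + Q1 * σ Q2 + Q2 * σ Q1 = 0 := by
  obtain ⟨T, l1, l2, k⟩ := h
  refine norm_coef (K := t * σ t) (T := T) (l1 := l1) (l2 := l2) (T' := σ T) (l1' := σ l1)
    (l2' := σ l2) h0 h1 ?_
  intro x1 x2 j1 j2
  have j1 : σ x1 = x1 := by rcases j1 with rfl | rfl | rfl <;> simp [hθ]
  have j2 : σ x2 = x2 := by rcases j2 with rfl | rfl | rfl <;> simp [hθ]
  obtain ⟨z, hz, k1⟩ := k x1 x2 j1 j2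
  have k2 := congrArg σ k1
  simp only [map_sub, map_add, map_mul, map_pow, j1, j2] at k2
  rw [k1, k2]
  linear_combination (t * σ t) * hZ z hz

namespace UD
variable {σ : F →+* F} {B : V →ₗ[F] V →ₛₗ[σ] F} {G : Subgroup (End F V)ˣ} (D : UD σ B G)
include D

lemma conjL_B {g a : (End F V)ˣ} (hg : g ∈ G) (x y : V) :
    B ((g⁻¹ * a * g⁻¹⁻¹).val x) y = B (a.val (g.val x)) (g.val y) := by
  rw [← D.iso hg]; simp

variable {Z : Set F} {a b : (End F V)ˣ} {e : End F V} (h : Bad G Z a b e)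
include h

lemma frame {u y : V} (hu : B u u = 0) (hy : B y y = 0) (huy : B u y = 0) {s : F} (hs : σ s = -s) :
    ∃ T l1 l2 : F, ∀ x1 x2 : F, σ x1 = x1 → σ x2 = x2 → ∃ z ∈ Z,
      T + l1 * x1 + l2 * x2 - ((s ^ 2 * (B (a.val u) u * B (b.val u) u)) * x1 ^ 2 +
        (s * (B (b.val u) u * (B (a.val u) y - B (a.val y) u) +
          B (a.val u) u * (B (b.val u) y - B (b.val y) u))) * x1 * x2 +
        (B (a.val u) y * B (b.val u) y - B (a.val u) u * B (b.val y) y -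
          B (b.val u) u * B (a.val y) y + B (a.val y) u * B (b.val y) u) * x2 ^ 2) = z * tr e := by
  refine ⟨tr (a.val * b.val), s * B ((b.val * a.val - a.val * b.val) u) u,
    B ((b.val * a.val - a.val * b.val) u) y - B ((b.val * a.val - a.val * b.val) y) u, ?_⟩
  intro x1 x2 h1 h2
  obtain ⟨z, hz, k, -⟩ := h.tr_unip _ _ (D.N_mem hu hy huy (s := x1 * s) (c := x2)
    (by simp [h1, hs]) h2)
  refine ⟨z, hz, ?_⟩
  rw [← k, tr_expand]
  generalize b.val * a.val - a.val * b.val = L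
  simp only [op, mul_add, add_mul, mul_sub, sub_mul, mul_smul_comm, smul_mul_assoc, mul_rk, map_add,
    map_sub, map_smul, tr_rk, LinearMap.flip_apply, rk_apply, smul_eq_mul]
  ring

lemma frame_sh {u y : V} (hu : B u u = 0) (hy : B y y = 0) (huy : B u y = 0)
    (hy' : y ∉ span F {u}) {s : F} (hs : σ s = -s) (c : F) :
    ∃ T l1 l2 : F, ∀ x1 x2 : F, σ x1 = x1 → σ x2 = x2 → ∃ z ∈ Z,
      T + l1 * x1 + l2 * x2 - ((s ^ 2 * (B (a.val u) u * B (b.val u) u)) * x1 ^ 2 +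
        (s * (B (b.val u) u * (B (a.val u) y - B (a.val y) u + (σ c - c) * B (a.val u) u) +
          B (a.val u) u * (B (b.val u) y - B (b.val y) u))) * x1 * x2 +
        ((B (a.val u) y + σ c * B (a.val u) u) * B (b.val u) y - B (a.val u) u * B (b.val y) y -
          B (b.val u) u * (B (a.val y) y + σ c * B (a.val y) u + c * B (a.val u) y +
            c * σ c * B (a.val u) u) +
          (B (a.val y) u + c * B (a.val u) u) * B (b.val y) u) * x2 ^ 2) = z * tr e := by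
  have hW : ∀ x, B u x = 0 → ∀ w ∈ span F {u}, B w x = 0 := by
    intro x hx w hw
    obtain ⟨d, rfl⟩ := mem_span_singleton.mp hw
    simp [hx]
  obtain ⟨g, hg, e1, e2⟩ := D.shear (mem_span_singleton_self u) hy' hy (hW u hu) (hW y huy) c
  have e1 := e1 u (mem_span_singleton_self u)
  obtain ⟨T, l1, l2, k⟩ := D.frame (h.conjL (G.inv_mem hg)) hu hy huy hs
  refine ⟨T, l1, l2, fun x1 x2 h1 h2 => ?_⟩
  obtain ⟨z, hz, k1⟩ := k x1 x2 h1 h2
  refine ⟨z, hz, ?_⟩
  rw [← k1]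
  simp only [D.conjL_B hg, e1, e2, map_add, map_smul, map_smulₛₗ, LinearMap.add_apply,
    LinearMap.smul_apply, smul_eq_mul]
  ring

lemma common (na : NS a.val) (nb : NS b.val) : ∃ (b' : (End F V)ˣ) (u : V), Bad G Z a b' e ∧
    B u u = 0 ∧ B (a.val u) u ≠ 0 ∧ B (b'.val u) u ≠ 0 := by
  obtain ⟨u, h1, h2⟩ := D.U2 na
  obtain ⟨u', h1', h2'⟩ := D.U2 nb
  obtain ⟨g, hg, -, c, hc, k⟩ := D.step (W := ⊥) (x := u') (x' := u)
    (by rintro rfl; simp at h2') (by rintro rfl; simp at h2) h1' h1 (by simp) (by simp)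
  refine ⟨g * b * g⁻¹, u, h.conjR hg, h1, h2, fun hh => h2' ?_⟩
  rw [← D.iso hg, ← conj_app, k]
  simp only [map_smul, map_smulₛₗ, LinearMap.smul_apply, hh, smul_zero]

omit h in
lemma ext (h4 : 4 ≤ finrank F V) (u : V) :
    ∃ y, B y y = 0 ∧ B u y = 0 ∧ y ∉ span F {u} := by
  have := fs1 (F := F) u
  have := fker (B.flip u)
  obtain ⟨y, h1, h2, h3⟩ := D.ISO (W := LinearMap.ker (B.flip u)) (R := span F {u}) (by omega)
  exact ⟨y, h3, D.flip0 h1, h2⟩

lemma case_norm (hZ : ∀ z ∈ Z, z * σ z = 1) (h4 : 4 ≤ finrank F V) {θ : F} (hθ : σ θ = θ)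
    (h0 : θ ≠ 0) (h1 : θ ≠ 1) {u : V} (hu : B u u = 0) : B (a.val u) u * B (b.val u) u = 0 := by
  obtain ⟨y, hy, huy, hy'⟩ := D.ext h4 u
  obtain ⟨s, hs0, hs⟩ := D.skew
  generalize hα : B (a.val u) u = α
  generalize hβ : B (b.val u) u = β
  have key := fun c : F => norm_coef' hZ hθ h0 h1 (D.frame_sh h hu hy huy hy' hs c)
  rw [hα, hβ] at key
  have key2 : ∀ c : F, s ^ 2 * (α * β * σ (α * β)) * ((c + σ c) ^ 2 - 6 * (c * σ c)) = 0 := by
    intro c
    have e0 := key 0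
    have e1 := key c
    have e2 := key (θ * c)
    simp only [map_add, map_sub, map_mul, map_pow, hs, D.inv, hθ, map_zero] at e0 e1 e2 ⊢
    apply mul_left_cancel₀ (mul_ne_zero h0 (sub_ne_zero.mpr h1))
    linear_combination e2 - θ * e1 + (θ - 1) * e0
  by_contra hne
  have hne' : s ^ 2 * (α * β * σ (α * β)) ≠ 0 :=
    mul_ne_zero (pow_ne_zero 2 hs0) (mul_ne_zero hne (by simpa using hne))
  have e1 := (mul_eq_zero.mp (key2 1)).resolve_left hne'
  obtain ⟨w, hw⟩ := D.trne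
  have e2 := (mul_eq_zero.mp (key2 w)).resolve_left hne'
  simp only [map_one] at e1
  apply pow_ne_zero 2 hw
  linear_combination e2 - 3 * (w * σ w) * e1

lemma case_const (hZ : ∀ z ∈ Z, z * tr e = tr e) (h4 : 4 ≤ finrank F V) {u : V} (hu : B u u = 0) :
    B (a.val u) u * B (b.val u) u = 0 := by
  obtain ⟨y, hy, huy, hy'⟩ := D.ext h4 u
  obtain ⟨s, hs0, hs⟩ := D.skew
  obtain ⟨θ, hθ⟩ := D.nt
  have key : ∀ c : F,
      s * (B (b.val u) u * (B (a.val u) y - B (a.val y) u + (σ c - c) * B (a.val u) u) +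
          B (a.val u) u * (B (b.val u) y - B (b.val y) u)) = 0 := by
    intro c
    obtain ⟨T, l1, l2, k⟩ := D.frame_sh h hu hy huy hy' hs c
    obtain ⟨z1, j1, i1⟩ := k 0 0 (by simp) (by simp)
    obtain ⟨z2, j2, i2⟩ := k 1 0 (by simp) (by simp)
    obtain ⟨z3, j3, i3⟩ := k 0 1 (by simp) (by simp)
    obtain ⟨z4, j4, i4⟩ := k 1 1 (by simp) (by simp)
    rw [hZ _ j1] at i1
    rw [hZ _ j2] at i2
    rw [hZ _ j3] at i3
    rw [hZ _ j4] at i4
    linear_combination i2 + i3 - i1 - i4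
  have e0 := key 0
  have e1 := key θ
  simp only [map_zero] at e0
  apply mul_left_cancel₀ (mul_ne_zero hs0 (sub_ne_zero.mpr hθ))
  linear_combination e1 - e0

lemma case_one_const (hZ : ∀ z ∈ Z, z * tr e = tr e) {θ : F} (hθ : σ θ = θ)
    (h0 : θ ≠ 0) (h1 : θ ≠ 1) {u : V} (hu : B u u = 0) : B (a.val u) u * B (b.val u) u = 0 := by
  obtain ⟨s, hs0, hs⟩ := D.skew
  obtain ⟨T, l1, l2, k⟩ := D.frame h hu (y := 0) (by simp) (by simp) hs
  obtain ⟨z1, j1, i1⟩ := k 0 0 (by simp) (by simp)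
  obtain ⟨z2, j2, i2⟩ := k 1 0 (by simp) (by simp)
  obtain ⟨z3, j3, i3⟩ := k θ 0 hθ (by simp)
  rw [hZ _ j1] at i1
  rw [hZ _ j2] at i2
  rw [hZ _ j3] at i3
  apply mul_left_cancel₀ (mul_ne_zero (pow_ne_zero 2 hs0) (mul_ne_zero h0 (sub_ne_zero.mpr h1)))
  linear_combination θ * i2 - i3 - (θ - 1) * i1

lemma case_five (hZ : ∀ z ∈ Z, z * σ z = 1) (S : Finset F) (hS : 5 ≤ S.card)
    (hS' : ∀ x ∈ S, σ x = x) {u : V} (hu : B u u = 0) : B (a.val u) u * B (b.val u) u = 0 := by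
  obtain ⟨s, hs0, hs⟩ := D.skew
  obtain ⟨T, l1, l2, k⟩ := D.frame h hu (y := 0) (by simp) (by simp) hs
  generalize B (a.val u) u * B (b.val u) u = γ at k ⊢
  have : s ^ 2 * γ * (s ^ 2 * σ γ) = 0 := by
    apply quartic5 (c0 := T * σ T - tr e * σ (tr e)) (c1 := T * σ l1 + l1 * σ T)
      (c2 := l1 * σ l1 - T * (s ^ 2 * σ γ) - s ^ 2 * γ * σ T)
      (c3 := - l1 * (s ^ 2 * σ γ) - s ^ 2 * γ * σ l1) S hS
    intro x hx
    obtain ⟨z, hz, k1⟩ := k x 0 (hS' x hx) (by simp)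
    have k1 : T + l1 * x - s ^ 2 * γ * x ^ 2 = z * tr e := by linear_combination k1
    have k2 := congrArg σ k1
    simp only [map_sub, map_add, map_mul, map_pow, hs, hS' x hx] at k2
    linear_combination (σ T + σ l1 * x - s ^ 2 * σ γ * x ^ 2) * k1 + z * tr e * k2 +
      (tr e * σ (tr e)) * hZ z hz
  by_contra hne
  exact mul_ne_zero (mul_ne_zero (pow_ne_zero 2 hs0) hne)
    (mul_ne_zero (pow_ne_zero 2 hs0) (by simpa using hne)) this

omit h in
lemma five {θ ω : F} (hθ : σ θ = θ) (h0 : θ ≠ 0) (h1 : θ ≠ 1) (hω : ω ^ 3 = 1) (hω1 : ω ≠ 1)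
    (hω2 : ω * σ ω = 1) : ∃ S : Finset F, 5 ≤ S.card ∧ ∀ x ∈ S, σ x = x := by
  classical
  have hω3 : ω ^ 2 + ω + 1 = 0 := by
    apply mul_left_cancel₀ (sub_ne_zero.mpr hω1)
    linear_combination hω
  by_cases h2 : (2 : F) = 0
  · have n1 : θ + 1 ≠ 0 := fun hh => h1 (by linear_combination hh - h2)
    have n2 : θ ^ 2 ≠ θ + 1 := by
      intro hh
      have e1 : (θ - ω) * (θ - ω ^ 2) = 0 := by
        linear_combination hh - θ * hω3 + hω + (θ + 1) * h2
      have e2 : σ ω = ω := by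
        rcases mul_eq_zero.mp e1 with e | e
        · rw [← sub_eq_zero.mp e, hθ]
        · have e3 : ω = θ ^ 2 := by rw [sub_eq_zero.mp e]; linear_combination -ω * hω
          rw [e3, map_pow, hθ]
      rw [e2] at hω2
      apply hω1
      linear_combination hω - ω * hω2
    have n3 : θ ^ 2 ≠ 1 := fun hh => h1 (sq_one_two h2 hh)
    have n4 : θ ^ 2 ≠ θ := fun hh => h1 (mul_left_cancel₀ h0 (by linear_combination hh))
    refine ⟨{0, 1, θ, θ + 1, θ ^ 2}, ?_, ?_⟩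
    · rw [Finset.card_insert_of_notMem, Finset.card_insert_of_notMem,
        Finset.card_insert_of_notMem, Finset.card_pair]
      · exact n2.symm
      · simp [n4.symm]
      · simp [h1.symm, h0, n3.symm]
      · simp [h0.symm, n1.symm, (pow_ne_zero 2 h0).symm]
    · simp [hθ]
  · have h3 : (3 : F) ≠ 0 := by
      intro hh
      apply hω1
      have : (ω - 1) ^ 2 = 0 := by linear_combination hω3 - ω * hh
      exact sub_eq_zero.mp (pow_eq_zero_iff two_ne_zero |>.mp this)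
    have h4 : (4 : F) ≠ 0 := by
      have : (4 : F) = 2 * 2 := by norm_num
      rw [this]; exact mul_ne_zero h2 h2
    refine ⟨{0, 1, 2, 3, 4}, ?_, ?_⟩
    · have n12 : (1 : F) ≠ 2 := fun hh => one_ne_zero (α := F) (by linear_combination -hh)
      have n13 : (1 : F) ≠ 3 := fun hh => h2 (by linear_combination -hh)
      have n14 : (1 : F) ≠ 4 := fun hh => h3 (by linear_combination -hh)
      have n23 : (2 : F) ≠ 3 := fun hh => one_ne_zero (α := F) (by linear_combination -hh)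
      have n24 : (2 : F) ≠ 4 := fun hh => h2 (by linear_combination -hh)
      have n34 : (3 : F) ≠ 4 := fun hh => one_ne_zero (α := F) (by linear_combination -hh)
      rw [Finset.card_insert_of_notMem, Finset.card_insert_of_notMem,
        Finset.card_insert_of_notMem, Finset.card_pair n34]
      · simp [n23, n24]
      · simp [n12, n13, n14]
      · simp [Ne.symm h2, h3.symm, h4.symm]
    · simp [map_ofNat]

end UD

end Pool.Agent.MP_db74b1_al
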