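import Pool.Agent.MP_db74b1_al.ClU3
import Pool.Agent.MP_db74b1_al.ClD4

/-! Unitary groups over the field with four elements, and the main theorem. -/

set_option autoImplicit false
set_option linter.unusedSectionVars false

namespace Pool.Agent.MP_db74b1_al
open Module Submodule

variable {F V : Type} [Field F] [AddCommGroup V] [Module F V] [Finite F] [FiniteDimensional F V]

lemma NS.coef {b : End F V} (nb : NS b) {c d : F} (h : c • b = d • 1) : c = 0 := by
  by_contra hc
  apply nb (c⁻¹ * d)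
  rw [mul_smul, ← h, smul_smul, inv_mul_cancel₀ hc, one_smul]

namespace UD
variable {σ : F →+* F} {B : V →ₗ[F] V →ₛₗ[σ] F} {G : Subgroup (End F V)ˣ} (D : UD σ B G)
  (H : ∀ x, σ x = x → x = 0 ∨ x = 1)
include D H

lemma final1 (h5 : 5 ≤ finrank F V) {b : (End F V)ˣ} (hb : ∀ x y, B (b.val x) (b.val y) = B x y)
    (nb : NS b.val) (ht : tr b.val = 1) (κ : F)
    (hT : ∀ v, v ≠ 0 → B v v = 0 → tr ((1 + op B v v) * b.val) ≠ 0)
    (hC : ∀ v, v ≠ 0 → B v v = 0 →
      c2 ((1 + op B v v) * b.val) = κ * tr ((1 + op B v v) * b.val) ^ 2)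
    (hS : ∀ v w, v ≠ 0 → B v v = 0 → w ≠ 0 → B w w = 0 → ∃ (ζ : F) (k : (End F V)ˣ),
      (1 + op B v v) * b.val = ζ • (k.val * ((1 + op B w w) * b.val) * k⁻¹.val)) : False := by
  have h2 := D.two H
  have two : ∀ x : V, x + x = 0 := fun x => by rw [← two_smul F, h2, zero_smul]
  have adj : ∀ x y, B (b.val x) y = B x (b⁻¹.val y) := fun x y => by
    rw [← hb x (b⁻¹.val y), app_inv]
  have adj' : ∀ x y, B (b⁻¹.val x) y = B x (b.val y) := fun x y => by
    rw [← hb (b⁻¹.val x) y, app_inv]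
  have trv : ∀ v, tr ((1 + op B v v) * b.val) = 1 + B (b.val v) v := by
    intro v; simp [add_mul, op, rk_mul, tr_rk, ht]
  obtain ⟨M, hM⟩ : ∃ M : End F V, M = b.val * b.val + b.val + κ • b⁻¹.val := ⟨_, rfl⟩
  have hM1 : ∀ v, v ≠ 0 → B v v = 0 → B (M v) v = c2 b.val + κ := by
    intro v hv hvv
    have := hC v hv hvv
    rw [trv, add_mul, one_mul, c2_add] at this
    simp only [op, rk_mul, c2_rk, pp, mul_rk, tr_rk, ht, LinearMap.comp_apply,
      LinearMap.flip_apply] at this
    have e1 : B (b⁻¹.val v) v = B (b.val v) v ^ 2 := by rw [adj', D.herm, D.frob H]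
    simp only [hM, LinearMap.add_apply, End.mul_apply, LinearMap.smul_apply, map_add, map_smul,
      smul_eq_mul, e1]
    linear_combination -this + (B (b.val v) v - κ - κ * B (b.val v) v) * h2
  have hC0 : c2 b.val + κ = 0 := by
    obtain ⟨u, -, hu0, hu⟩ := D.ISO (W := ⊤) (R := ⊥) (by simp; omega)
    have hu0 : u ≠ 0 := by simpa using hu0
    obtain ⟨y, hy, huy, hy'⟩ := D.ext (by omega) u
    obtain ⟨ω, hω⟩ := D.omega H
    have key : ∀ c : F, c ≠ 0 → σ c * B (M u) y + c * B (M y) u + (c2 b.val + κ) = 0 := by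
      intro c hc
      have := hM1 (u + c • y) (fun hh => one_ne_zero
        (indep_pair hu0 hy' (c := 1) (d := c) (by simpa using hh)).1)
        (by simp [hu, hy, huy, D.flip0 huy])
      simp only [map_add, map_smul, map_smulₛₗ, LinearMap.add_apply, LinearMap.smul_apply,
        smul_eq_mul, hM1 u hu0 hu, hM1 y (ne_zero_of_nmem hy') hy] at this
      linear_combination this - (c2 b.val + κ) * D.nrm H hc
    have h0 : ω ≠ 0 := by rintro rfl; simp at hω
    have e1 := key 1 one_ne_zero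
    have e2 := key ω h0
    have e3 := key (ω ^ 2) (pow_ne_zero 2 h0)
    simp only [D.frob H] at e1 e2 e3
    linear_combination e1 + e2 + e3 - (B (M u) y * (ω ^ 2 - ω + 1) + B (M y) u) * hω -
      (c2 b.val + κ) * h2
  obtain ⟨μ, hμ⟩ : ∃ μ : F, M = μ • 1 := by
    by_contra hh
    push Not at hh
    obtain ⟨u, h1, h3⟩ := D.U2 (M := M) hh
    exact h3 (by rw [hM1 u (by rintro rfl; simp at h3) h1, hC0])
  have r1 : ∀ x, b.val (b.val x) + b.val x + κ • b⁻¹.val x = μ • x := by
    intro x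
    have := LinearMap.congr_fun (hM.symm.trans hμ) x
    simpa using this
  have r2 : ∀ y, b⁻¹.val (b⁻¹.val y) + b⁻¹.val y + σ κ • b.val y = σ μ • y := by
    intro y
    rw [← sub_eq_zero]
    apply D.nd
    intro x
    have := congrArg (fun t => B t y) (r1 x)
    simp only [map_add, map_smul, LinearMap.add_apply, LinearMap.smul_apply, smul_eq_mul, adj,
      adj'] at this
    simp only [map_sub, map_add, map_smulₛₗ, D.inv, smul_eq_mul]
    linear_combination this
  have r3 : ∀ x, b.val (b.val (b.val x)) + b.val (b.val x) + κ • x = μ • b.val x := by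
    intro x; simpa using r1 (b.val x)
  have r4 : ∀ x, x + b.val x + σ κ • b.val (b.val (b.val x)) = σ μ • b.val (b.val x) := by
    intro x; simpa using r2 (b.val (b.val x))
  have hκ : κ ≠ 0 := by
    rintro rfl
    have e1 : (1 + σ μ) • b.val = (σ μ * μ - 1) • (1 : End F V) := by
      ext x
      have s1 := r1 x
      have s4 := r4 x
      simp only [map_zero, zero_smul, add_zero] at s1 s4
      simp only [LinearMap.smul_apply, End.one_apply]
      linear_combination (norm := module) s4 + σ μ • s1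
    have e2 : σ μ = 1 := by linear_combination nb.coef e1 - h2
    have e3 : μ = 1 := by rw [← D.inv μ, e2, map_one]
    obtain ⟨u, h1, h3⟩ := D.U2 nb
    have e4 : b.val u + u = b⁻¹.val u := by simpa [e3] using r1 (b⁻¹.val u)
    have e5 : σ (B (b.val u) u) = B (b.val u) u := by
      rw [← D.herm, ← adj', ← e4]; simp [h1]
    apply hT u (by rintro rfl; simp at h3) h1
    rw [trv, (H _ e5).resolve_left h3]
    linear_combination h2
  have hκ1 := D.nrm H hκ
  have hμκ : μ = κ := by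
    have e1 : (σ κ + σ μ) • b.val = (σ κ * μ + 1) • (1 : End F V) := by
      ext x
      have s3 := r3 (b⁻¹.val x)
      have s4 := r4 (b⁻¹.val x)
      simp only [app_inv] at s3 s4
      simp only [LinearMap.smul_apply, End.one_apply]
      linear_combination (norm := module) σ κ • s3 - s4 - hκ1 • b⁻¹.val x
    have e2 := congrArg σ (nb.coef e1)
    simp only [map_add, D.inv, map_zero] at e2
    linear_combination e2 - κ * h2
  rw [hμκ] at r3
  obtain ⟨ρ, hρ⟩ := exists_sqrt_two h2 κ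
  have hρ0 : ρ ≠ 0 := by rintro rfl; apply hκ; simpa using hρ.symm
  -- an isotropic eigenvector
  obtain ⟨v0, l, hv0, hv0', hl⟩ : ∃ (v0 : V) (l : F), v0 ≠ 0 ∧ B v0 v0 = 0 ∧ b.val v0 = l • v0 := by
    by_cases hz : (b.val - 1) * (b.val - ρ • 1) = 0
    · have := fker_mul hz
      by_cases hk : 2 ≤ finrank F (LinearMap.ker (b.val - 1))
      · obtain ⟨v, k1, k2, k3⟩ := D.ISO (W := LinearMap.ker (b.val - 1)) (R := ⊥) (by simpa using hk)
        exact ⟨v, 1, by simpa using k2, k3, by simpa [sub_eq_zero] using k1⟩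
      · obtain ⟨v, k1, k2, k3⟩ := D.ISO (W := LinearMap.ker (b.val - ρ • 1)) (R := ⊥)
          (by simp; omega)
        exact ⟨v, ρ, by simpa using k2, k3, by simpa [sub_eq_zero] using k1⟩
    · obtain ⟨x, hx⟩ : ∃ x, ((b.val - 1) * (b.val - ρ • 1) : End F V) x ≠ 0 := by
        by_contra hc
        push Not at hc
        exact hz (LinearMap.ext hc)
      have e1 : ((b.val - 1) * (b.val - ρ • 1) : End F V) x =
          b.val (b.val x - x) - ρ • (b.val x - x) := by
        simp only [End.mul_apply, LinearMap.sub_apply, LinearMap.smul_apply, End.one_apply, map_sub,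
          map_smul]
      rw [e1] at hx
      have e2 : b.val (b.val (b.val x - x) - ρ • (b.val x - x)) =
          ρ • (b.val (b.val x - x) - ρ • (b.val x - x)) := by
        simp only [map_sub, map_smul]
        linear_combination (norm := module) r3 x - hρ • x + hρ • b.val x +
          h2 • (-b.val (b.val x) - ρ • b.val (b.val x) + ρ • b.val x + κ • b.val x - κ • x)
      refine ⟨_, ρ, hx, ?_, e2⟩
      generalize b.val x - x = x' at e2
      have e3 := hb x' (b.val x' - ρ • x')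
      rw [e2] at e3
      simp only [map_smulₛₗ, smul_eq_mul] at e3
      have e4 : ∀ w, B (b.val x' - ρ • x') w = B (b.val x') w - ρ * B x' w := fun w => by simp
      rw [e4, ← e3]
      linear_combination (-B (b.val x') (b.val x' - ρ • x')) * D.nrm H hρ0
  have hl0 : l ≠ 0 := by
    rintro rfl
    exact hv0 (app_eq_zero (by simpa using hl))
  have x0sq : ((1 + op B v0 v0) * b.val) * ((1 + op B v0 v0) * b.val) = b.val * b.val := by
    ext y
    have e1 : B (b.val (b.val y)) v0 = l * B (b.val y) v0 := by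
      have := hb (b.val y) v0
      rw [hl] at this
      simp only [map_smulₛₗ, smul_eq_mul] at this
      linear_combination l * this - B (b.val (b.val y)) v0 * D.nrm H hl0
    simp only [End.mul_apply, LinearMap.add_apply, End.one_apply, op_apply, map_add, map_smul, hl,
      hv0', e1]
    linear_combination (norm := module) h2 • (l * B (b.val y) v0) • v0
  obtain ⟨v1, hv1, hq1⟩ := D.U2 nb
  have hv1' : v1 ≠ 0 := by rintro rfl; simp at hq1
  obtain ⟨ζ, k, hk⟩ := hS v1 v0 hv1' hv1 hv0 hv0'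
  have hζ : ζ = 1 + B (b.val v1) v1 := by
    have := congrArg tr hk
    rw [map_smul, tr_conj, trv, trv, hl] at this
    simpa [hv0'] using this.symm
  have hζ0 : ζ ≠ 0 := by rw [hζ, ← trv]; exact hT v1 hv1' hv1
  have hζ1 : ζ ≠ 1 := by rw [hζ]; simpa using hq1
  have ysq : ∀ y, B (b.val y) v1 = 0 → B (b.val (b.val y)) v1 = 0 →
      b.val (b.val y) = ζ ^ 2 • k.val (b.val (b.val (k⁻¹.val y))) := by
    intro y j1 j2
    have e1 : ((1 + op B v1 v1) * b.val) * ((1 + op B v1 v1) * b.val) =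
        ζ ^ 2 • (k.val * (b.val * b.val) * k⁻¹.val) := by
      rw [hk, ← x0sq]
      simp only [smul_mul_assoc, mul_smul_comm, smul_smul, mul_assoc, Units.inv_mul_cancel_left,
        pow_two]
    have := LinearMap.congr_fun e1 y
    simpa [j1, j2] using this
  have cc : ∀ y, b.val (b.val (b.val (b.val y))) + (1 + κ) • b.val (b.val y) + κ • y = 0 := by
    intro y
    linear_combination (norm := module) r3 (b.val y) + r3 y +
      h2 • (κ • b.val (b.val y) - b.val (b.val (b.val y)))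
  have eig : ∀ (y : V) (s t : F), y ≠ 0 → s • b.val (b.val y) = t • y →
      (t + s) * (t + s * κ) = 0 := by
    intro y s t hy hh
    have e1 := congrArg (fun x => b.val (b.val x)) hh
    simp only [map_smul] at e1
    have : ((t + s) * (t + s * κ)) • y = 0 := by
      linear_combination (norm := module) (s ^ 2) • cc y - s • e1 - (t + s * (1 + κ)) • hh
    exact (smul_eq_zero.mp this).resolve_right hy
  have main : ∀ t : F, 3 ≤ finrank F (LinearMap.ker (b.val * b.val - t • 1)) →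
      (t + ζ ^ 2) * (t + ζ ^ 2 * κ) = 0 ∧ (ζ ^ 2 * t + 1) * (ζ ^ 2 * t + 1 * κ) = 0 := by
    intro t ht
    have key : ∀ φ ψ : V →ₗ[F] F, ∃ y, y ≠ 0 ∧ b.val (b.val y) = t • y ∧ φ y = 0 ∧ ψ y = 0 := by
      intro φ ψ
      have := fk (LinearMap.ker (b.val * b.val - t • 1)) φ
      have := fk (LinearMap.ker (b.val * b.val - t • 1) ⊓ LinearMap.ker φ) ψ
      obtain ⟨y, ⟨⟨j1, j2⟩, j3⟩, j4⟩ := out (R := ⊥)
        (W := LinearMap.ker (b.val * b.val - t • 1) ⊓ LinearMap.ker φ ⊓ LinearMap.ker ψ)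
        (by rw [finrank_bot]; omega)
      exact ⟨y, by simpa using j4, by simpa [sub_eq_zero] using j1, j2, j3⟩
    constructor
    · obtain ⟨y, j1, j2, j3, j4⟩ := key (B.flip v1 ∘ₗ b.val) (B.flip v1 ∘ₗ (b.val * b.val))
      refine eig (k⁻¹.val y) _ _ (fun hh => j1 (app_eq_zero hh)) ?_
      have := congrArg k⁻¹.val (ysq y j3 j4)
      rw [j2, map_smul, map_smul, inv_app] at this
      exact this.symm
    · obtain ⟨y, j1, j2, j3, j4⟩ := key (B.flip v1 ∘ₗ (b.val * k.val))
        (B.flip v1 ∘ₗ (b.val * b.val * k.val))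
      refine eig (k.val y) _ _ (fun hh => j1 (app_eq_zero hh)) ?_
      rw [one_smul, ysq (k.val y) j3 j4, inv_app, j2, map_smul, smul_smul]
  have hη : ζ ^ 2 ≠ 1 := fun hh => hζ1 (sq_one_two h2 hh)
  have hη' : 1 + ζ ^ 2 ≠ 0 := fun hh => hη (by linear_combination hh - h2)
  have fin : κ + ζ ^ 2 = 0 → ζ ^ 2 * κ + 1 = 0 → False := by
    intro e1 e2
    apply hη
    apply sq_one_two h2
    linear_combination ζ ^ 2 * e1 - e2
  have hz : (b.val * b.val - (1 : F) • 1) * (b.val * b.val - κ • 1) = 0 := by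
    ext y
    simp only [End.mul_apply, LinearMap.sub_apply, LinearMap.smul_apply, End.one_apply, map_sub,
      map_smul, LinearMap.zero_apply]
    linear_combination (norm := module) cc y - h2 • (1 + κ) • b.val (b.val y)
  have := fker_mul hz
  by_cases hk3 : 3 ≤ finrank F (LinearMap.ker (b.val * b.val - (1 : F) • 1))
  · obtain ⟨m1, m2⟩ := main 1 hk3
    apply fin
    · apply mul_left_cancel₀ hη'
      linear_combination m2
    · apply mul_left_cancel₀ hη'
      linear_combination m1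
  · obtain ⟨m1, m2⟩ := main κ (by omega)
    apply fin
    · apply mul_left_cancel₀ (mul_ne_zero hκ hη')
      linear_combination m1
    · apply mul_left_cancel₀ (mul_ne_zero hκ hη')
      linear_combination m2

lemma E3 {Z : Set F} {a b : (End F V)ˣ} {e : End F V} (h : Bad G Z a b e) (ht : tr e ≠ 0)
    {w1 w2 w3 : V} (h11 : B w1 w1 = 0) (h22 : B w2 w2 = 0) (h33 : B w3 w3 = 0)
    (h12 : B w1 w2 = 0) (h13 : B w1 w3 = 0) (h23 : B w2 w3 = 0) :
    (B (a.val w1) w1 * B (a.val w2) w2 - B (a.val w1) w2 * B (a.val w2) w1) *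
      (B (b.val w2) w1 * B (b.val w3) w2 - B (b.val w2) w2 * B (b.val w3) w1 +
        (B (b.val w1) w2 * B (b.val w2) w3 - B (b.val w1) w3 * B (b.val w2) w2)) +
    (B (b.val w1) w1 * B (b.val w2) w2 - B (b.val w1) w2 * B (b.val w2) w1) *
      (B (a.val w2) w1 * B (a.val w3) w2 - B (a.val w2) w2 * B (a.val w3) w1 +
        (B (a.val w1) w2 * B (a.val w2) w3 - B (a.val w1) w3 * B (a.val w2) w2)) = 0 := by
  have h2 := D.two H
  let P : End F V → Prop := fun N => (∀ x y, B (N x) y + B x (N y) = 0) ∧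
    N w1 = 0 ∧ N w2 = 0 ∧ N w3 = 0 ∧ ∀ x, N x ∈ span F {w1, w2, w3}
  have P0 : P 0 := by simp [P]
  have Padd : ∀ N M, P N → P M → P (N + M) := by
    rintro N M ⟨n1, n2, n3, n4, n5⟩ ⟨m1, m2, m3, m4, m5⟩
    refine ⟨fun x y => ?_, by simp [n2, m2], by simp [n3, m3], by simp [n4, m4],
      fun x => add_mem (n5 x) (m5 x)⟩
    simp only [LinearMap.add_apply, map_add]
    linear_combination n1 x y + m1 x y
  have key : ∀ N, P N → c2 (a.val * ((1 + N) * b.val * (1 - N))) -
      c2 e / tr e ^ 2 * tr (a.val * ((1 + N) * b.val * (1 - N))) ^ 2 = 0 := by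
    rintro N ⟨n1, n2, n3, n4, n5⟩
    have hN : N * N = 0 := by
      ext x
      obtain ⟨c1, c2, c3, hc⟩ := mem_span_triple.mp (n5 x)
      simp [← hc, n2, n3, n4]
    obtain ⟨z, -, k1, k2⟩ := h.tr_unip N hN (D.mem_skew N hN n1)
    rw [k1, k2]
    field_simp
    ring
  have m1 : w1 ∈ span F {w1, w2, w3} := subset_span (by simp)
  have m2 : w2 ∈ span F {w1, w2, w3} := subset_span (by simp)
  have m3 : w3 ∈ span F {w1, w2, w3} := subset_span (by simp)
  have P1 : P (op B w1 w1) := by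
    refine ⟨fun x y => ?_, by simp [h11], by simp [D.flip0 h12], by simp [D.flip0 h13],
      fun x => smul_mem _ _ m1⟩
    simp [D.herm y w1]
    linear_combination (B x w1 * σ (B y w1)) * h2
  have P2 : P (op B w2 w2) := by
    refine ⟨fun x y => ?_, by simp [h12], by simp [h22], by simp [D.flip0 h23],
      fun x => smul_mem _ _ m2⟩
    simp [D.herm y w2]
    linear_combination (B x w2 * σ (B y w2)) * h2
  have P3 : P (op B w1 w2 + op B w2 w1) := by
    refine ⟨fun x y => ?_, by simp [h11, h12], by simp [h22, D.flip0 h12],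
      by simp [D.flip0 h23, D.flip0 h13], fun x => add_mem (smul_mem _ _ m1) (smul_mem _ _ m2)⟩
    simp [D.herm y w2, D.herm y w1]
    linear_combination (B x w2 * σ (B y w1) + B x w1 * σ (B y w2)) * h2
  have P4 : P (op B w2 w3 + op B w3 w2) := by
    refine ⟨fun x y => ?_, by simp [h13, h12], by simp [h22, h23],
      by simp [D.flip0 h23, h33], fun x => add_mem (smul_mem _ _ m2) (smul_mem _ _ m3)⟩
    simp [D.herm y w2, D.herm y w3]
    linear_combination (B x w2 * σ (B y w3) + B x w3 * σ (B y w2)) * h2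
  have := FD4 h2 a.val b.val (c2 e / tr e ^ 2) (op B w1 w1) (op B w2 w2) (op B w1 w2 + op B w2 w1)
    (op B w2 w3 + op B w3 w2) (by
      simp only [D4]
      rw [key _ (Padd _ _ (Padd _ _ (Padd _ _ P1 P2) P3) P4), key _ (Padd _ _ (Padd _ _ P1 P2) P3),
        key _ (Padd _ _ (Padd _ _ P1 P2) P4), key _ (Padd _ _ (Padd _ _ P1 P3) P4),
        key _ (Padd _ _ (Padd _ _ P2 P3) P4), key _ (Padd _ _ P1 P2), key _ (Padd _ _ P1 P3),
        key _ (Padd _ _ P1 P4), key _ (Padd _ _ P2 P3), key _ (Padd _ _ P2 P4),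
        key _ (Padd _ _ P3 P4), key _ P1, key _ P2, key _ P3, key _ P4, key _ P0]
      ring)
  simp only [pp, op, mul_add, add_mul, mul_rk, map_add, map_smul, tr_rk, LinearMap.flip_apply,
    rk_apply, smul_eq_mul] at this
  linear_combination this

omit H in
lemma ext3 (h6 : 6 ≤ finrank F V) (w1 w2 : V) :
    ∃ w3, B w3 w3 = 0 ∧ B w1 w3 = 0 ∧ B w2 w3 = 0 ∧ w3 ∉ span F {w1, w2} := by
  have := fs2 (F := F) w1 w2
  have := fker (B.flip w1)
  have := fk (LinearMap.ker (B.flip w1)) (B.flip w2)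
  obtain ⟨y, h1, h2, h3⟩ := D.ISO (W := LinearMap.ker (B.flip w1) ⊓ LinearMap.ker (B.flip w2))
    (R := span F {w1, w2}) (by omega)
  exact ⟨y, h3, D.flip0 h1.1, D.flip0 h1.2, h2⟩

lemma stepA (h6 : 6 ≤ finrank F V) {Z : Set F} {a b : (End F V)ˣ} {e : End F V}
    (h : Bad G Z a b e) (ht : tr e ≠ 0)
    {w1 w2 : V} (h11 : B w1 w1 = 0) (h22 : B w2 w2 = 0) (h12 : B w1 w2 = 0) :
    (B (a.val w1) w1 * B (a.val w2) w2 - B (a.val w1) w2 * B (a.val w2) w1) *
      (B (b.val w1) w1 * B (b.val w2) w2 - B (b.val w1) w2 * B (b.val w2) w1) = 0 := by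
  obtain ⟨w3, h33, h13, h23, hn⟩ := D.ext3 h6 w1 w2
  obtain ⟨c, hc⟩ := D.trne
  have hW : ∀ x, B w1 x = 0 → B w2 x = 0 → ∀ w ∈ span F {w1, w2}, B w x = 0 := by
    intro x h1 h2 w hw
    obtain ⟨s, t, rfl⟩ := mem_span_pair.mp hw
    simp [h1, h2]
  obtain ⟨g, hg, e1, e2⟩ := D.shear (W := span F {w1, w2}) (u := w1) (subset_span (by simp)) hn h33
    (hW w1 h11 (D.flip0 h12)) (hW w3 h13 h23) c
  have e11 := e1 w1 (subset_span (by simp))
  have e12 := e1 w2 (subset_span (by simp))
  have s1 := D.E3 H h ht h11 h22 h33 h12 h13 h23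
  have s2 := D.E3 H (h.conjL (G.inv_mem hg)) ht h11 h22 h33 h12 h13 h23
  simp only [D.conjL_B hg, e11, e12, e2, map_add, map_smul, map_smulₛₗ, LinearMap.add_apply,
    LinearMap.smul_apply, smul_eq_mul] at s2
  apply mul_left_cancel₀ hc
  linear_combination s1 - s2

lemma stepB (h6 : 6 ≤ finrank F V) {Z : Set F} {a b : (End F V)ˣ} {e : End F V}
    (h : Bad G Z a b e) (ht : tr e ≠ 0)
    {w1 w2 : V} (h11 : B w1 w1 = 0) (h22 : B w2 w2 = 0) (h12 : B w1 w2 = 0)
    {v1 v2 : V} (k11 : B v1 v1 = 0) (k22 : B v2 v2 = 0) (k12 : B v1 v2 = 0) :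
    B (a.val w1) w1 * B (a.val w2) w2 = B (a.val w1) w2 * B (a.val w2) w1 ∨
      B (b.val v1) v1 * B (b.val v2) v2 = B (b.val v1) v2 * B (b.val v2) v1 := by
  by_contra hh
  push Not at hh
  obtain ⟨n1, n2⟩ := hh
  have ind : ∀ (M : End F V) (x y : V), B (M x) x * B (M y) y ≠ B (M x) y * B (M y) x →
      x ≠ 0 ∧ y ∉ span F {x} := by
    intro M x y hne
    refine ⟨by rintro rfl; simp at hne, nmem1.mpr ?_⟩
    rintro c rfl
    apply hne
    simp; ring
  obtain ⟨i1, i2⟩ := ind _ _ _ n1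
  obtain ⟨j1, j2⟩ := ind _ _ _ n2
  obtain ⟨g, hg, -, c, hc, e1⟩ := D.step (W := ⊥) (x := v1) (x' := w1) (by simpa using j1)
    (by simpa using i1) k11 h11 (by simp) (by simp)
  have hW : ∀ x, B w1 x = 0 → ∀ w ∈ span F {w1}, B w x = 0 := by
    intro x hx w hw
    obtain ⟨d, rfl⟩ := mem_span_singleton.mp hw
    simp [hx]
  obtain ⟨g', hg', e2, c', hc', e3⟩ := D.step (W := span F {w1}) (x := g.val v2) (x' := w2) (by
      rw [nmem1] at j2 ⊢
      intro d hd
      apply j2 (d * c⁻¹)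
      rw [← inv_app g v2, hd, ← inv_app g v1, e1, map_smul, map_smul, smul_smul]
      simp [hc]) i2 (by rw [D.iso hg, k22]) h22 (hW _ (by
      have := D.iso hg v1 v2
      rw [e1, k12] at this
      simpa [hc] using this)) (hW _ h12)
  have e2 := e2 w1 (mem_span_singleton_self _)
  have hgg := G.mul_mem hg' hg
  have f1 : (g' * g).val v1 = c • w1 := by simp [e1, e2]
  have f2 : (g' * g).val v2 = c' • w2 := by simp [e3]
  have := D.stepA H h6 (h.conjR hgg) ht h11 h22 h12
  rcases mul_eq_zero.mp this with k | k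
  · exact n1 (sub_eq_zero.mp k)
  · apply n2
    have key : ∀ x y, B (b.val x) y =
        B ((g' * g * b * (g' * g)⁻¹).val ((g' * g).val x)) ((g' * g).val y) := by
      intro x y
      rw [conj_app, D.iso hgg]
    rw [key, key v2, key v1 v2, key v2 v1, f1, f2]
    simp only [map_smul, map_smulₛₗ, LinearMap.smul_apply, smul_eq_mul]
    linear_combination (c * σ c * c' * σ c') * k

lemma stepC (hn : 3 ∣ finrank F V) (h6 : 6 ≤ finrank F V) {Z : Set F} (hZ : ∀ z ∈ Z, z ≠ 0)
    {a b : (End F V)ˣ} {e : End F V} (h : Bad G Z a b e) (ht : tr e ≠ 0) (ha : a ∈ G) (hb : b ∈ G)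
    (na : NS a.val) (nb : NS b.val) (H' : ∀ v w, B v v = 0 → B w w = 0 → B v w = 0 →
      B (a.val v) v * B (a.val w) w = B (a.val v) w * B (a.val w) v) : False := by
  obtain ⟨l, p, hl, hp, hpp, hs⟩ := D.transv H hn (by omega) ha na H'
  have key : ∀ v, v ≠ 0 → B v v = 0 → ∃ z : F, z ≠ 0 ∧ ∃ k : (End F V)ˣ,
      (1 + op B v v) * b.val = z • (k.val * e * k⁻¹.val) := by
    intro v hv hvv
    obtain ⟨g, hg, -, c, hc, e1⟩ := D.step (W := ⊥) (x := p) (x' := v) (by simpa using hp)
      (by simpa using hv) hpp hvv (by simp) (by simp)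
    obtain ⟨z, hz, k, hk⟩ := (h.conjL hg).base
    rw [conj_op (D.iso hg) hs, e1] at hk
    refine ⟨l⁻¹ * z, mul_ne_zero (inv_ne_zero hl) (hZ z hz), k, ?_⟩
    rw [mul_smul, ← hk]
    have e2 : op B (c • v) (c • v) = op B v v := by
      ext x
      simp only [op_apply, map_smulₛₗ, smul_eq_mul, smul_smul]
      congr 1
      linear_combination B x v * D.nrm H hc
    rw [e2, ← smul_add, smul_mul_assoc, smul_smul, inv_mul_cancel₀ hl, one_smul]
  have hT : ∀ v, v ≠ 0 → B v v = 0 → tr ((1 + op B v v) * b.val) ≠ 0 := by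
    intro v hv hvv
    obtain ⟨z, hz, k, hk⟩ := key v hv hvv
    rw [hk, map_smul, tr_conj]
    exact mul_ne_zero hz ht
  have hτ : tr b.val ≠ 0 := by
    obtain ⟨u, -, hu0, hu⟩ := D.ISO (W := ⊤) (R := ⊥) (by simp; omega)
    have hu0 : u ≠ 0 := by simpa using hu0
    obtain ⟨y, hy, huy, hy'⟩ := D.ext (by omega) u
    obtain ⟨w, hw, huw, hyw, hw'⟩ := D.ext3 h6 u y
    obtain ⟨c1, c2, c3, hc, hq⟩ := D.spec_vec H b.val (w1 := u) (w2 := y) (w3 := w)
    have := hT (c1 • u + c2 • y + c3 • w) (by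
      intro hh
      apply hc
      have h3 : c3 = 0 := by
        by_contra h3
        apply hw'
        rw [← smul_mem_iff _ h3, mem_span_pair]
        exact ⟨-c1, -c2, by linear_combination (norm := module) -hh⟩
      rw [h3, zero_smul, add_zero] at hh
      exact ⟨(indep_pair hu0 hy' hh).1, (indep_pair hu0 hy' hh).2, h3⟩)
      (by simp [hu, hy, hw, huy, huw, hyw, D.flip0 huy, D.flip0 huw, D.flip0 hyw])
    rw [add_mul, one_mul, map_add, op, rk_mul, tr_rk] at this
    simpa [-map_add, hq] using this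
  let b1 : (End F V)ˣ := ⟨(tr b.val)⁻¹ • b.val, tr b.val • b⁻¹.val, by simp [smul_smul, hτ],
    by simp [smul_smul, hτ]⟩
  have hb1 : b1.val = (tr b.val)⁻¹ • b.val := rfl
  refine D.final1 H (by omega) (b := b1) (fun x y => ?_) (fun c hc => ?_) ?_ (c2 e / tr e ^ 2)
    (fun v hv hvv => ?_) (fun v hv hvv => ?_) (fun v w hv hvv hw hww => ?_)
  · simp only [hb1, LinearMap.smul_apply, map_smul, map_smulₛₗ, smul_eq_mul, D.iso hb]
    linear_combination B x y * D.nrm H (inv_ne_zero hτ)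
  · exact inv_ne_zero hτ (nb.coef (hb1.symm.trans hc))
  · simp [hb1, hτ]
  · rw [hb1, mul_smul_comm, map_smul]
    exact mul_ne_zero (inv_ne_zero hτ) (hT v hv hvv)
  · obtain ⟨z, hz, k, hk⟩ := key v hv hvv
    rw [hb1, mul_smul_comm, hk, c2_smul, c2_smul, map_smul, map_smul, tr_conj, c2_conj]
    simp only [smul_eq_mul]
    field_simp
  · obtain ⟨z, hz, k, hk⟩ := key v hv hvv
    obtain ⟨z', hz', k', hk'⟩ := key w hw hww
    refine ⟨z / z', k * k'⁻¹, ?_⟩
    rw [hb1, mul_smul_comm, mul_smul_comm, hk, hk']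
    simp only [Units.val_mul, mul_inv_rev, inv_inv, mul_smul_comm, smul_mul_assoc, smul_smul,
      mul_assoc, Units.inv_mul_cancel_left]
    congr 1
    field_simp

omit H in
theorem main (hq : finrank F V = 3 → Nat.card F ≠ 4) {a b : (End F V)ˣ} {e : End F V}
    (h : Bad G {z : F | z ^ finrank F V = 1 ∧ z * σ z = 1} a b e) (ha : a ∈ G) (hb : b ∈ G)
    (na : NS a.val) (nb : NS b.val) : False := by
  have hd := D.dim
  obtain ⟨b', u, h', hu, k1, k2⟩ := D.common h na nb
  apply mul_ne_zero k1 k2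
  by_cases H : ∀ x, σ x = x → x = 0 ∨ x = 1
  · have h3 : finrank F V ≠ 3 := fun hh => hq hh (D.card4 H)
    by_cases hc : ∀ z ∈ {z : F | z ^ finrank F V = 1 ∧ z * σ z = 1}, z * tr e = tr e
    · exact D.case_const h' hc (by omega) hu
    exfalso
    push Not at hc
    obtain ⟨z, ⟨hz1, hz2⟩, hz3⟩ := hc
    have ht : tr e ≠ 0 := by intro hh; simp [hh] at hz3
    have hz4 : z ≠ 1 := by rintro rfl; simp at hz3
    have hz0 : z ≠ 0 := by rintro rfl; simp at hz2
    have hn : 3 ∣ finrank F V := by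
      have hc := D.cube H hz0
      by_contra hnd
      apply hz4
      obtain ⟨k, hk | hk⟩ : ∃ k, finrank F V = 3 * k + 1 ∨ finrank F V = 3 * k + 2 :=
        ⟨finrank F V / 3, by omega⟩
      · rwa [hk, pow_succ, pow_mul, hc, one_pow, one_mul] at hz1
      · rw [hk, pow_add, pow_mul, hc, one_pow, one_mul] at hz1
        exact sq_one_two (D.two H) hz1
    have h6 : 6 ≤ finrank F V := by omega
    have hZ : ∀ z ∈ {z : F | z ^ finrank F V = 1 ∧ z * σ z = 1}, z ≠ 0 := by
      rintro z ⟨-, hz⟩ rfl; simp at hz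
    by_cases H' : ∀ v w, B v v = 0 → B w w = 0 → B v w = 0 →
      B (a.val v) v * B (a.val w) w = B (a.val v) w * B (a.val w) v
    · exact D.stepC H hn h6 hZ h ht ha hb na nb H'
    push Not at H'
    obtain ⟨v, w, j1, j2, j3, j4⟩ := H'
    exact D.stepC H hn h6 hZ h.swap ht hb ha nb na fun v' w' i1 i2 i3 =>
      (D.stepB H h6 h ht j1 j2 j3 i1 i2 i3).resolve_left j4
  push Not at H
  obtain ⟨θ, hθ, h0, h1⟩ := H
  by_cases h4 : 4 ≤ finrank F V
  · exact D.case_norm h' (fun z hz => hz.2) h4 hθ h0 h1 hu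
  by_cases hc : ∀ z ∈ {z : F | z ^ finrank F V = 1 ∧ z * σ z = 1}, z * tr e = tr e
  · exact D.case_one_const h' hc hθ h0 h1 hu
  push Not at hc
  obtain ⟨z, ⟨hz1, hz2⟩, hz3⟩ := hc
  have h3 : finrank F V = 3 := by omega
  obtain ⟨S, hS, hS'⟩ := D.five hθ h0 h1 (h3 ▸ hz1) (by rintro rfl; simp at hz3) hz2
  exact D.case_five h' (fun z hz => hz.2) S hS hS' hu

end UD

end Pool.Agent.MP_db74b1_al
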