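import Pool.Agent.MP_db74b1_al.ExcLie

set_option autoImplicit false

namespace Pool.Agent.MP_db74b1_al.Exc

variable {R : Type} [CommRing R]

noncomputable def gf : L R →ₗ[R] L R →ₗ[R] R :=
  (∑ α : Root, (co α.1).smulRight (co (-α.1))) -
    ∑ i : Fin 8, ((LinearMap.proj i).comp (LinearMap.fst R _ _)).smulRight (hp (a i))

theorem gf_e {α : Lat} (h : ip α α = 2) : gf (e α : L R) = co (-α) := by
  rw [gf, LinearMap.sub_apply, LinearMap.sum_apply, LinearMap.sum_apply,
    Finset.sum_eq_single (⟨α, h⟩ : Root)]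
  · simp [co_e_self h, e_fst]
  · intro β _ hβ
    simp [co_e_ne (fun h' => hβ (Subtype.ext h') : β.1 ≠ α)]
  · simp

theorem gf_hv_e (y β : Lat) : gf (hv y : L R) (e β) = 0 := by
  simp [gf, LinearMap.sum_apply, co_hv, hp_e]

theorem gf_hv_hv (y z : Lat) : gf (hv y : L R) (hv z) = -(ip y z : R) := by
  have := congrArg (Int.cast : ℤ → R) (sum_ip y z)
  simp only [gf, LinearMap.sub_apply, LinearMap.sum_apply, LinearMap.smulRight_apply, co_hv,
    zero_smul, Finset.sum_const_zero, zero_sub, LinearMap.neg_apply, LinearMap.smul_apply, hp_hv,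
    ← this]
  push_cast
  congr 1
  exact Finset.sum_congr rfl fun i _ => by simp [hv, a_eq, ip_comm z, mul_comm]

theorem gf_comm (x y : L R) : gf x y = gf y x := by
  induction x using L_ind with
  | hadd v w h1 h2 => simp only [map_add, LinearMap.add_apply, h1, h2]
  | hsmul c v h1 => simp [h1]
  | h1 z =>
    induction y using L_ind with
    | hadd v w h1 h2 => simp only [map_add, LinearMap.add_apply, h1, h2]
    | hsmul c v h1 => simp [h1]
    | h1 z' => rw [gf_hv_hv, gf_hv_hv, ip_comm]
    | h2 β hβ => rw [gf_hv_e, gf_e hβ, co_hv]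
  | h2 α hα =>
    induction y using L_ind with
    | hadd v w h1 h2 => simp only [map_add, LinearMap.add_apply, h1, h2]
    | hsmul c v h1 => simp [h1]
    | h1 z' => rw [gf_hv_e, gf_e hα, co_hv]
    | h2 β hβ =>
      rw [gf_e hα, gf_e hβ, co_e, co_e, norm_neg, norm_neg]
      have : -α = β ↔ -β = α := by rw [neg_eq_iff_eq_neg, eq_comm]
      simp [hα, hβ, this]

theorem gf_e_right {α : Lat} (h : ip α α = 2) (x : L R) : gf x (e α) = co (-α) x := by
  rw [gf_comm, gf_e h]

theorem gf_ad {α : Lat} (hα : ip α α = 2) (x y : L R) : gf (ad α x) y = -gf x (ad α y) := by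
  have key : ∀ z β : Lat, ip β β = 2 →
      gf (ad α (hv z : L R)) (e β) = -gf (hv z : L R) (ad α (e β)) := by
    intro z β hβ
    rw [ad_hv, map_smul, LinearMap.smul_apply, gf_e hα, ad_e hβ, map_sub, map_smul, gf_hv_e, co_e]
    by_cases h : α + β = 0
    · have : -α = β := by rw [neg_eq_iff_add_eq_zero, h]
      simp [h, this, hβ, gf_hv_hv]
    · have : -α ≠ β := by rwa [Ne, neg_eq_iff_add_eq_zero]
      simp [h, this]
  induction x using L_ind with
  | hadd v w h1 h2 => simp only [map_add, LinearMap.add_apply, h1, h2]; ring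
  | hsmul c v h1 => simp [h1]
  | h1 z =>
    induction y using L_ind with
    | hadd v w h1 h2 => simp only [map_add, h1, h2]; ring
    | hsmul c v h1 => simp [h1]
    | h1 z' => simp [ad_hv, gf_e hα, co_hv, gf_hv_e]
    | h2 β hβ => exact key z β hβ
  | h2 γ hγ =>
    induction y using L_ind with
    | hadd v w h1 h2 => simp only [map_add, h1, h2]; ring
    | hsmul c v h1 => simp [h1]
    | h1 z' => rw [gf_comm, gf_comm (e γ), key z' γ hγ, neg_neg]
    | h2 β hβ =>
      rw [gf_e_right hβ, gf_e hγ, ad_e hβ, ad_e hγ]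
      have h0 : ∀ (δ : Lat) (p : Prop) [Decidable p],
          co δ (if p then (hv α : L R) else 0) = 0 := fun δ p _ => by
        split_ifs <;> simp [co_hv]
      simp only [map_sub, map_smul, h0, co_e, norm_neg, hβ, hγ, true_and, sub_zero]
      by_cases h : -β = α + γ
      · have h1 : -γ = α + β := by rw [neg_eq_iff_eq_neg] at h; rw [h]; abel
        have h2 : eps α β = -eps α γ := by
          rw [← eps_neg_right, h, eps_add_right, eps_self hα]; ring
        simp [h, h1, h2]
      · have h1 : -γ ≠ α + β := fun h' => h (by rw [neg_eq_iff_eq_neg] at h'; rw [h']; abel)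
        simp [h, h1]

/-! Reduction from the integers. -/

def castL (R : Type) [CommRing R] : L ℤ →+ L R where
  toFun v := (fun i => (v.1 i : R), fun β => (v.2 β : R))
  map_zero' := by ext <;> simp
  map_add' v w := by ext <;> simp

theorem castL_smul (c : ℤ) (v : L ℤ) : castL R (c • v) = (c : R) • castL R v := by
  rw [map_zsmul, Int.cast_smul_eq_zsmul]

theorem castL_co (β : Lat) (v : L ℤ) : co β (castL R v) = ((co β v : ℤ) : R) := by
  by_cases h : ip β β = 2
  · rw [co_of_root h, co_of_root h]; rfl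
  · simp [co_of_not h]

theorem castL_hv (y : Lat) : castL R (hv y) = hv y := by ext <;> simp [castL, hv]

theorem castL_e (y : Lat) : castL R (e y) = e y := by ext <;> simp [castL, e]

theorem castL_ad (α : Lat) (v : L ℤ) : castL R (ad α v) = ad α (castL R v) := by
  induction v using L_ind with
  | hadd v w h1 h2 => simp only [map_add, h1, h2]
  | hsmul c v h1 => rw [map_smul, castL_smul, castL_smul, map_smul, h1]
  | h1 z => rw [castL_hv, ad_hv, ad_hv, castL_smul, castL_e]; simp
  | h2 β hβ =>
    rw [castL_e, ad_e hβ, ad_e hβ, map_sub, castL_smul, castL_e]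
    split_ifs <;> simp [castL_hv]

theorem castL_br (x y : L ℤ) : castL R (br x y) = br (castL R x) (castL R y) := by
  induction x using L_ind with
  | hadd v w h1 h2 => simp only [map_add, LinearMap.add_apply, h1, h2]
  | hsmul c v h1 =>
    rw [map_smul, LinearMap.smul_apply, castL_smul, castL_smul, map_smul, LinearMap.smul_apply, h1]
  | h2 β hβ => rw [castL_e, br_e hβ, br_e hβ, castL_ad]
  | h1 z =>
    induction y using L_ind with
    | hadd v w h1 h2 => simp only [map_add, h1, h2]
    | hsmul c v h1 => rw [map_smul, castL_smul, castL_smul, map_smul, h1]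
    | h1 y => simp [castL_hv, br_hv_hv]
    | h2 β hβ => rw [castL_hv, castL_e, br_hv_e, br_hv_e, castL_smul, castL_e]; simp

theorem premet_int {α : Lat} (hα : ip α α = 2) (x y : L ℤ) : br (ad α x) (ad α y) =
    co (-α) (br x y) • e α + co (-α) y • ad α x - co (-α) x • ad α y := by
  apply smul_right_injective (L ℤ) (two_ne_zero (α := ℤ))
  have h1 := ad_ad hα (br x y)
  rw [ad_br hα, map_add, ad_br hα, ad_br hα, ad_ad hα, ad_ad hα, map_smul, map_smul,
    LinearMap.smul_apply, br_e hα, br_e_right hα] at h1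
  simp only
  linear_combination (exp := 1) h1

theorem premet {α : Lat} (hα : ip α α = 2) (x y : L R) : br (ad α x) (ad α y) =
    co (-α) (br x y) • e α + co (-α) y • ad α x - co (-α) x • ad α y := by
  have key : ∀ x y : L ℤ, br (ad α (castL R x)) (ad α (castL R y)) =
      co (-α) (br (castL R x) (castL R y)) • e α + co (-α) (castL R y) • ad α (castL R x)
        - co (-α) (castL R x) • ad α (castL R y) := fun x y => by
    rw [← castL_ad, ← castL_ad, ← castL_br, ← castL_br, premet_int hα, map_sub, map_add,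
      castL_smul, castL_smul, castL_smul, castL_co, castL_co, castL_co, castL_e]
  have k2 : ∀ x : L ℤ, ∀ y : L R, br (ad α (castL R x)) (ad α y) =
      co (-α) (br (castL R x) y) • e α + co (-α) y • ad α (castL R x)
        - co (-α) (castL R x) • ad α y := fun x y => by
    induction y using L_ind with
    | hadd v w h1 h2 => simp only [map_add, h1, h2]; module
    | hsmul c v h1 => simp only [map_smul, h1, smul_eq_mul]; module
    | h1 z => simpa only [castL_hv] using key x (hv z)
    | h2 β hβ => simpa only [castL_e] using key x (e β)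
  induction x using L_ind with
  | hadd v w h1 h2 => simp only [map_add, LinearMap.add_apply, h1, h2]; module
  | hsmul c v h1 => simp only [map_smul, LinearMap.smul_apply, h1, smul_eq_mul]; module
  | h1 z => simpa only [castL_hv] using k2 (hv z) y
  | h2 β hβ => simpa only [castL_e] using k2 (e β) y

theorem xl_br {α : Lat} (hα : ip α α = 2) (t : R) (x y : L R) :
    xl α t (br x y) = br (xl α t x) (xl α t y) := by
  simp only [xl_apply, map_add, map_smul, LinearMap.add_apply, LinearMap.smul_apply, premet hα,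
    br_e hα, br_e_right hα, ad_ad hα, ad_e_self hα, ad_br hα]
  module

theorem xl_gf {α : Lat} (hα : ip α α = 2) (t : R) (x y : L R) :
    gf (xl α t x) (xl α t y) = gf x y := by
  simp only [xl_apply, map_add, map_smul, LinearMap.add_apply, LinearMap.smul_apply, gf_ad hα,
    gf_e hα, gf_e_right hα, ad_ad hα, ad_e_self hα, co_neg_ad hα, co_e_ne (neg_ne_self hα),
    smul_eq_mul, map_zero]
  ring

/-! The automorphism group. -/

abbrev Aut (R : Type) [CommRing R] : Type := L R ≃ₗ[R] L R

def AutG (R : Type) [CommRing R] : Subgroup (Aut R) where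
  carrier := {g | (∀ x y, g (br x y) = br (g x) (g y)) ∧ ∀ x y, gf (g x) (g y) = gf x y}
  one_mem' := ⟨fun _ _ => rfl, fun _ _ => rfl⟩
  mul_mem' := fun {g h} hg hh => ⟨fun x y => by
    simp only [LinearEquiv.mul_apply, hh.1, hg.1], fun x y => by
    simp only [LinearEquiv.mul_apply, hh.2, hg.2]⟩
  inv_mem' := fun {g} hg => ⟨fun x y => g.injective (by rw [hg.1]; simp), fun x y => by
    rw [← hg.2]; simp⟩

theorem inv_app (g : Aut R) (v : L R) : g⁻¹ (g v) = v := by simp
theorem app_inv (g : Aut R) (v : L R) : g (g⁻¹ v) = v := by simp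

theorem gf_inv {g : Aut R} (hg : g ∈ AutG R) (x y : L R) : gf x (g y) = gf (g⁻¹ x) y := by
  rw [← hg.2 (g⁻¹ x), app_inv]

noncomputable def X (α : Lat) (t : R) : Aut R := if h : ip α α = 2 then x ⟨α, h⟩ t else 1

theorem X_eq (α : Root) (t : R) : x α t = X α.1 t := by simp [X, α.2]

theorem X_xl {α : Lat} (hα : ip α α = 2) (t : R) (v : L R) : X α t v = xl α t v := by
  simp [X, hα, x]

theorem X_apply {α : Lat} (hα : ip α α = 2) (t : R) (v : L R) :
    X α t v = v + t • ad α v + (t ^ 2 * co (-α) v) • e α := by rw [X_xl hα, xl_apply]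

theorem X_add (α : Lat) (s t : R) : X α s * X α t = X α (s + t) := by
  by_cases hα : ip α α = 2
  · ext1 v; rw [LinearEquiv.mul_apply, X_xl hα, X_xl hα, X_xl hα, xl_xl hα]
  · simp [X, hα]

theorem X_zero (α : Lat) : X α (0 : R) = 1 := by
  have := X_add α (0 : R) 0
  rwa [add_zero, mul_eq_left] at this

theorem X_inv (α : Lat) (t : R) : (X α t)⁻¹ = X α (-t) := by
  rw [inv_eq_iff_mul_eq_one, X_add, add_neg_cancel, X_zero]

theorem X_aut (α : Lat) (t : R) : X α t ∈ AutG R := by
  by_cases hα : ip α α = 2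
  · exact ⟨fun x y => by simp only [X_xl hα, xl_br hα], fun x y => by simp only [X_xl hα, xl_gf hα]⟩
  · simp [X, hα]

noncomputable def ex (x v : L R) : L R := v + br x v + gf x v • x

theorem X_ex {α : Lat} (hα : ip α α = 2) (t : R) (v : L R) : X α t v = ex (t • e α) v := by
  simp only [X_apply hα, ex, map_smul, LinearMap.smul_apply, br_e hα, gf_e hα, smul_eq_mul]
  module

theorem aut_ex {g : Aut R} (hg : g ∈ AutG R) (x v : L R) : g (ex x v) = ex (g x) (g v) := by
  simp only [ex, map_add, map_smul, hg.1, hg.2]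

theorem conj_X_apply {g : Aut R} (hg : g ∈ AutG R) {α : Lat} (hα : ip α α = 2) (t : R) (v : L R) :
    (g * X α t * g⁻¹) v = ex (t • g (e α)) v := by
  rw [LinearEquiv.mul_apply, LinearEquiv.mul_apply, X_ex hα, aut_ex hg, app_inv, map_smul]

theorem conj_X {g : Aut R} (hg : g ∈ AutG R) {α β : Lat} (hα : ip α α = 2) (hβ : ip β β = 2)
    {c : R} (h : g (e α) = c • e β) (t : R) : g * X α t * g⁻¹ = X β (c * t) := by
  ext1 v
  rw [conj_X_apply hg hα, h, X_ex hβ, smul_smul, mul_comm]

theorem X_e_nn {α β : Lat} (hα : ip α α = 2) (hβ : ip β β = 2) (h : 0 ≤ ip α β) (t : R) :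
    X α t (e β) = e β := by
  have : -α ≠ β := by rw [Ne, neg_eq_iff_add_eq_zero]; exact add_ne_zero_of_ip hα (by omega)
  simp [X_apply hα, ad_e_nn hα hβ h, co_e_ne this]

theorem X_e_m1 {α β : Lat} (hα : ip α α = 2) (hβ : ip β β = 2) (h : ip α β = -1) (t : R) :
    X α t (e β) = e β + (t * eps α β) • e (α + β) := by
  have : -α ≠ β := by rw [Ne, neg_eq_iff_add_eq_zero]; exact add_ne_zero_of_ip hα (by omega)
  simp [X_apply hα, ad_e_m1 hα hβ h, co_e_ne this, smul_smul]

theorem X_e_m2 {α : Lat} (hα : ip α α = 2) (t : R) :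
    X α t (e (-α)) = e (-α) - t • hv α + t ^ 2 • e α := by
  simp [X_apply hα, ad_e_m2 hα, co_e_self (root_neg hα), sub_eq_add_neg]

theorem X_hv {α : Lat} (hα : ip α α = 2) (t : R) (y : Lat) :
    X α t (hv y) = hv y - (t * ip y α) • e α := by
  simp [X_apply hα, ad_hv, co_hv, sub_eq_add_neg, smul_smul]

theorem X_comm {α β : Lat} (hα : ip α α = 2) (hβ : ip β β = 2) (h : 0 ≤ ip α β) (s t : R) :
    X α s * X β t = X β t * X α s := by
  have := conj_X (X_aut α s) hβ hβ (c := 1) (by rw [X_e_nn hα hβ h, one_smul]) t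
  rw [one_mul] at this
  exact mul_inv_eq_iff_eq_mul.1 this

theorem collinear {μ ν : Lat} (hμ : ip μ μ = 2) (hν : ip ν ν = 2) (h : ip μ ν = 1) (v : L R) :
    ad μ (ad ν v) = co (-μ) v • e ν + co (-ν) v • e μ := by
  induction v using L_ind with
  | hadd v w h1 h2 => simp only [map_add, h1, h2]; module
  | hsmul c v h1 => simp only [map_smul, h1, smul_eq_mul]; module
  | h1 z => simp [ad_hv, ad_e_nn hμ hν (by omega), co_hv]
  | h2 γ hγ =>
    have hne : -μ ≠ -ν := fun h' => by rw [neg_inj.1 h'] at h; omega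
    rcases ip_cases hν hγ with rfl | h1 | h1
    · simp [ad_e_m2 hν, ad_hv, ip_comm ν, h, co_e_ne hne, co_e_self hγ]
    · have h2 : -ν ≠ γ := by
        rw [Ne, neg_eq_iff_add_eq_zero]; exact add_ne_zero_of_ip hν (by omega)
      have h3 := (root_add hν hγ).2 h1
      rw [ad_e_m1 hν hγ h1, map_smul, co_e_ne h2]
      by_cases h4 : γ = -μ
      · subst h4
        rw [ad_e_m1 hμ h3 (by rw [ip_add_right, ip_neg_right]; omega), co_e_self hγ,
          eps_neg_right, eps_add_right, eps_neg_right, eps_self hμ,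
          eps_swap_odd (x := μ) (y := ν) (by rw [h]; rfl), smul_smul,
          show μ + (ν + -μ) = ν by abel]
        have := eps_cast_mul_self (R := R) μ ν
        push_cast
        rw [mul_neg_one, neg_mul_neg, this]; simp
      · have h5 := neg_one_le_ip hμ hγ (fun h' => h4 (by rw [eq_neg_iff_add_eq_zero, add_comm, h']))
        rw [ad_e_nn hμ h3 (by rw [ip_add_right]; omega), co_e_ne (Ne.symm h4)]; simp
    · have h2 : -ν ≠ γ := by
        rw [Ne, neg_eq_iff_add_eq_zero]; exact add_ne_zero_of_ip hν (by omega)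
      have h4 : -μ ≠ γ := by rintro rfl; rw [ip_neg_right, ip_comm] at h1; omega
      simp [ad_e_nn hν hγ h1, co_e_ne h2, co_e_ne h4]

theorem ex_collinear {μ ν : Lat} (hμ : ip μ μ = 2) (hν : ip ν ν = 2) (h : ip μ ν = 1) (s t : R)
    (v : L R) : ex (s • e μ + t • e ν) v = (X μ s * X ν t) v := by
  have h1 : co (-μ) (ad ν v) = 0 := by
    have hne : -μ ≠ ν := fun h' => by rw [← h', ip_neg_right] at h; omega
    rw [co_ad, if_neg hne, co_of_not (β := -μ - ν), mul_zero, ite_self]
    rw [norm_sub, norm_neg, ip_neg_left]; omega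
  have h2 : co (-μ) (e ν : L R) = 0 :=
    co_e_ne fun h' => by rw [← h', ip_neg_right] at h; omega
  simp only [LinearEquiv.mul_apply, X_apply hμ, X_apply hν, ex, map_add, map_smul,
    LinearMap.add_apply, LinearMap.smul_apply, br_e hμ, br_e hν, gf_e hμ, gf_e hν,
    collinear hμ hν h, h1, h2, ad_e_nn hμ hν (by omega), smul_eq_mul]
  module

theorem X_conj_m1 {α β : Lat} (hα : ip α α = 2) (hβ : ip β β = 2) (h : ip α β = -1) (s t : R) :
    X α s * X β t * (X α s)⁻¹ = X β t * X (α + β) (t * (s * eps α β)) := by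
  ext1 v
  rw [conj_X_apply (X_aut α s) hβ, X_e_m1 hα hβ h, smul_add, smul_smul,
    ex_collinear hβ ((root_add hα hβ).2 h) (by rw [ip_add_right, ip_comm]; omega)]

/-- An automorphism transports structure along a bracket. -/
theorem aut_step {g : Aut R} (hg : g ∈ AutG R) {α β α' β' : Lat} (hα : ip α α = 2)
    (hβ : ip β β = 2) (hα' : ip α' α' = 2) (hβ' : ip β' β' = 2) (h : ip α β = -1)
    (h' : ip α' β' = -1) {c : R} (h1 : g (e α) = e α') (h2 : g (e β) = c • e β') :
    g (e (α + β)) = (c * eps α β * eps α' β') • e (α' + β') := by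
  have h3 := hg.1 (e α) (e β)
  rw [h1, h2, br_e hα, br_e hα', map_smul, ad_e_m1 hα hβ h, ad_e_m1 hα' hβ' h', map_smul] at h3
  have h4 := congrArg (fun v => (eps α β : R) • v) h3
  simp only [smul_smul, eps_cast_mul_self, one_smul] at h4
  rw [h4]; congr 1; ring

theorem aut_neg {g : Aut R} (hg : g ∈ AutG R) {α β γ : Lat} (hα : ip α α = 2) (hβ : ip β β = 2)
    {c d : R} (h1 : g (e α) = c • e β) (h2 : g (e (-α)) = d • e γ) : c * d = 1 := by
  have h3 := hg.2 (e α) (e (-α))
  rw [h1, h2, gf_e hα, co_e_self (root_neg hα), map_smul, map_smul, LinearMap.smul_apply, gf_e hβ,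
    co_e] at h3
  split_ifs at h3
  · simpa [mul_comm] using h3
  · have : (0 : R) = 1 := by simpa using h3
    rw [← mul_one (c * d), ← this, mul_zero]

theorem aut_hv {g : Aut R} (hg : g ∈ AutG R) {α β : Lat} (hα : ip α α = 2) (hβ : ip β β = 2)
    {c d : R} (h1 : g (e α) = c • e β) (h2 : g (e (-α)) = d • e (-β)) : g (hv α) = hv β := by
  have h4 := aut_neg hg hα hβ h1 h2
  have h3 := hg.1 (e α) (e (-α))
  rw [h1, h2, br_e hα, ad_e_m2 hα, map_smul, map_smul, LinearMap.smul_apply, br_e hβ, ad_e_m2 hβ,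
    smul_smul, mul_comm, h4, one_smul, map_neg, neg_inj] at h3
  exact h3

end Pool.Agent.MP_db74b1_al.Exc
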