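import Mathlib

set_option autoImplicit false

namespace Pool.Agent.MP_db74b1_al.Exc

/-- The root lattice of type `E₈`, in the basis of simple roots (Bourbaki numbering, from 0). -/
abbrev Lat : Type := Fin 8 → ℤ

/-- The invariant form of the root lattice. -/
def ip (x y : Lat) : ℤ := x ⬝ᵥ (CartanMatrix.E₈.mulVec y)

/-- The 240 roots. -/
abbrev Root : Type := {x : Lat // ip x x = 2}

/-- Euler form of an orientation of the Dynkin diagram: `form x y + form y x = ip x y`. -/
def form (x y : Lat) : ℤ :=
  x ⬝ᵥ y - x 0 * y 2 - x 2 * y 3 - x 1 * y 3 - x 4 * y 3 - x 5 * y 4 - x 6 * y 5 - x 7 * y 6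

/-- The bimultiplicative sign of the Frenkel-Kac construction. -/
def eps (x y : Lat) : ℤ := if Even (form x y) then 1 else -1

/-- The Lie algebra of type `E₈` over `R`: Cartan part and root coordinates. -/
abbrev L (R : Type) : Type := (Fin 8 → R) × (Root → R)

/-- The graph symmetry of the `E₆` diagram when `b` holds, the identity otherwise. -/
def sig (b : Bool) (y : Lat) : Lat := if b then ![y 5, y 1, y 4, y 3, y 2, y 0, y 6, y 7] else y

end Pool.Agent.MP_db74b1_al.Exc
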