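import Pool.Agent.MP_db74b1_al.ExcDefs

set_option autoImplicit false

namespace Pool.Agent.MP_db74b1_al.Exc

variable {R : Type} [CommRing R]

/-- Coefficient of the root vector `e_β` in `v` (zero when `β` is not a root). -/
def cf (β : Lat) (v : L R) : R := if h : ip β β = 2 then v.2 ⟨β, h⟩ else 0

/-- `ad e_α`: `[e_α, h] = -α(h) e_α`, `[e_α, e_{-α}] = -α`, `[e_α, e_β] = ε(α,β) e_{α+β}`. -/
def adf (α : Lat) (v : L R) : L R :=
  (fun i => -(α i : R) * cf (-α) v, fun β =>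
    if β.1 = α then -∑ i : Fin 8, (ip (Pi.single i 1) α : R) * v.1 i
    else (eps α (β.1 - α) : R) * cf (β.1 - α) v)

/-- `exp (t ad e_α) = 1 + t ad e_α + t² (ad e_α)² / 2`. -/
def xf (α : Lat) (t : R) (v : L R) : L R :=
  (fun i => v.1 i + t * (adf α v).1 i, fun β =>
    v.2 β + t * (adf α v).2 β + if β.1 = α then t ^ 2 * cf (-α) v else 0)

theorem cf_eq (β : Lat) (v : L R) : cf β v = co β v := by
  unfold cf; split_ifs with h
  · rw [co_of_root h]
  · rw [co_of_not h]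

theorem adf_eq (α : Lat) (v : L R) : adf α v = ad α v := by
  ext i
  · simp [adf, ad_fst, cf_eq]
  · simp [adf, ad_snd, cf_eq, hp_apply]

theorem xf_eq (α : Lat) (t : R) (v : L R) : xf α t v = xl α t v := by
  ext i <;> simp [xf, xl_apply, adf_eq, cf_eq, e]

theorem xf_xf (α : Root) (t : R) (v : L R) : xf α.1 (-t) (xf α.1 t v) = v := by
  simp [xf_eq, xl_xl α.2, xl_apply α.1 (0 : R)]

theorem xf_xf' (α : Root) (t : R) (v : L R) : xf α.1 t (xf α.1 (-t) v) = v := by
  simp [xf_eq, xl_xl α.2, xl_apply α.1 (0 : R)]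

/-- The root element `x_α(t)`, with inverse `x_α(-t)`. -/
def xp (α : Root) (t : R) : Equiv.Perm (L R) :=
  ⟨xf α.1 t, xf α.1 (-t), xf_xf α t, xf_xf' α t⟩

/-- The group generated by the root elements `x_α(t)` (`σα = α`, `τ t = t`) and
`x_α(t) x_{σα}(τ t)` (`σα ≠ α`), for `α` a root in the span of the first `n` simple roots. -/
def chevP (n : ℕ) (b : Bool) (τ : R →+* R) : Subgroup (Equiv.Perm (L R)) :=
  Subgroup.closure {g | ∃ (α β : Root) (t : R), (∀ j : Fin 8, n ≤ j.1 → α.1 j = 0) ∧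
    β.1 = sig b α.1 ∧ ((β = α ∧ τ t = t ∧ g = xp α t) ∨ (β ≠ α ∧ g = xp α t * xp β (τ t)))}

/-- No product of two nontrivial conjugacy classes of `G` is a conjugacy class. -/
def AH (G : Type) [Group G] : Prop :=
  ∀ x y z : G, x ≠ 1 → y ≠ 1 → {g | ∃ p q, IsConj x p ∧ IsConj y q ∧ g = p * q} ≠ {g | IsConj z g}

/-- The same for the central quotient `G / Z(G)`. -/
def AHZ (G : Type) [Group G] : Prop := AH (G ⧸ Subgroup.center G)

end Pool.Agent.MP_db74b1_al.Exc
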