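import Pool.Agent.MP_db74b1_al.ExcMain
import Pool.Agent.MP_db74b1_al.ExcStmt

set_option autoImplicit false

namespace Pool.Agent.MP_db74b1_al.Exc

theorem AH_congr {G H : Type} [Group G] [Group H] (f : G ≃* H) (h : AH G) : AH H := by
  intro x y z hx hy hE
  obtain ⟨x, rfl⟩ := f.surjective x
  obtain ⟨y, rfl⟩ := f.surjective y
  obtain ⟨z, rfl⟩ := f.surjective z
  have hc : ∀ p q : G, IsConj (f p) (f q) ↔ IsConj p q := fun p q =>
    ⟨fun h => by simpa using f.symm.toMonoidHom.map_isConj h, fun h => f.toMonoidHom.map_isConj h⟩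
  refine h x y z (fun h => hx (by simp [h])) (fun h => hy (by simp [h])) ?_
  ext g
  have := Set.ext_iff.1 hE (f g)
  simp only [Set.mem_ofPred_eq, f.surjective.exists, hc, ← map_mul, f.injective.eq_iff] at this
  exact this

theorem AHZ_congr {G H : Type} [Group G] [Group H] (f : G ≃* H) (h : AHZ G) : AHZ H := by
  refine AH_congr (QuotientGroup.congr (Subgroup.center G) (Subgroup.center H) f ?_) h
  ext y
  obtain ⟨x, rfl⟩ := f.surjective y
  rw [show f x ∈ Subgroup.map (f : G →* H) (Subgroup.center G) ↔ x ∈ Subgroup.center G from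
    Subgroup.mem_map_iff_mem (f := (f : G →* H)) f.injective, Subgroup.mem_center_iff,
    Subgroup.mem_center_iff, f.surjective.forall]
  simp only [← map_mul, f.injective.eq_iff]

variable {K : Type} [Field K]

def toP (K : Type) [Field K] : Aut K →* Equiv.Perm (L K) where
  toFun g := g.toEquiv
  map_one' := rfl
  map_mul' _ _ := rfl

theorem toP_inj : Function.Injective (toP K) := fun _ _ h => LinearEquiv.toEquiv_injective h

theorem toP_x (α : Root) (t : K) : toP K (x α t) = xp α t := by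
  ext1 v; exact (xf_eq α.1 t v).symm

theorem chevP_eq (n : ℕ) (b : Bool) (τ : K →+* K) : (chev n b τ).map (toP K) = chevP n b τ := by
  rw [chev, chevP, MonoidHom.map_closure]
  congr 1
  ext g
  constructor
  · rintro ⟨_, ⟨α, β, t, h1, h2, ⟨h3, h4, rfl⟩ | ⟨h3, rfl⟩⟩, rfl⟩
    · exact ⟨α, β, t, h1, h2, Or.inl ⟨h3, h4, toP_x α t⟩⟩
    · exact ⟨α, β, t, h1, h2, Or.inr ⟨h3, by rw [map_mul, toP_x, toP_x]⟩⟩
  · rintro ⟨α, β, t, h1, h2, ⟨h3, h4, rfl⟩ | ⟨h3, rfl⟩⟩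
    · exact ⟨_, ⟨α, β, t, h1, h2, Or.inl ⟨h3, h4, rfl⟩⟩, toP_x α t⟩
    · exact ⟨_, ⟨α, β, t, h1, h2, Or.inr ⟨h3, rfl⟩⟩, by rw [map_mul, toP_x, toP_x]⟩

theorem exceptional (n : ℕ) (b : Bool) (τ : K →+* K)
    (h : (b = false ∧ τ = RingHom.id K ∧ (n = 6 ∨ n = 7 ∨ n = 8)) ∨
      (b = true ∧ n = 6 ∧ τ.comp τ = RingHom.id K))
    (hr : ∃ r : K, τ r = r ∧ r ≠ 0 ∧ r ≠ 1) : AHZ (chevP n b τ) := by
  obtain ⟨r, h1, h2, h3⟩ := hr
  rw [← chevP_eq]
  exact AHZ_congr (Subgroup.equivMapOfInjective _ _ toP_inj)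
    (Cfg.final ⟨n, b, τ, h.imp (fun h => ⟨h.1, fun t => by rw [h.2.1]; rfl, h.2.2⟩)
      fun h => ⟨h.1, h.2.1, fun t => RingHom.congr_fun h.2.2 t⟩⟩ h1 h2 h3)

end Pool.Agent.MP_db74b1_al.Exc
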