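import Pool.Agent.MP_db74b1_al.ExcGrp

set_option autoImplicit false

namespace Pool.Agent.MP_db74b1_al.Exc

def sv (b : Bool) (x : Lat) : Lat := fun i => cv x i + cv x (pm b i)

def hout (J : Fin 8 → Bool) (x : Lat) : ℤ :=
  cond (J 0) 0 (x 0) + cond (J 1) 0 (x 1) + cond (J 2) 0 (x 2) + cond (J 3) 0 (x 3)
    + cond (J 4) 0 (x 4) + cond (J 5) 0 (x 5) + cond (J 6) 0 (x 6) + cond (J 7) 0 (x 7)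

structure V8 where
  (a b c d e f g h : ℤ)

structure B8 where
  (a b c d e f g h : Bool)

def V8.l (v : V8) : Lat := v8 v.a v.b v.c v.d v.e v.f v.g v.h

def B8.of (J : Fin 8 → Bool) : B8 := ⟨J 0, J 1, J 2, J 3, J 4, J 5, J 6, J 7⟩

def posV : List V8 :=
  [⟨1,0,0,0,0,0,0,0⟩, ⟨0,1,0,0,0,0,0,0⟩, ⟨0,0,1,0,0,0,0,0⟩, ⟨0,0,0,1,0,0,0,0⟩,
  ⟨0,0,0,0,1,0,0,0⟩, ⟨0,0,0,0,0,1,0,0⟩, ⟨0,0,0,0,0,0,1,0⟩, ⟨0,0,0,0,0,0,0,1⟩,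
  ⟨1,0,1,0,0,0,0,0⟩, ⟨0,1,0,1,0,0,0,0⟩, ⟨0,0,1,1,0,0,0,0⟩, ⟨0,0,0,1,1,0,0,0⟩,
  ⟨0,0,0,0,1,1,0,0⟩, ⟨0,0,0,0,0,1,1,0⟩, ⟨0,0,0,0,0,0,1,1⟩, ⟨1,0,1,1,0,0,0,0⟩,
  ⟨0,1,1,1,0,0,0,0⟩, ⟨0,1,0,1,1,0,0,0⟩, ⟨0,0,1,1,1,0,0,0⟩, ⟨0,0,0,1,1,1,0,0⟩,
  ⟨0,0,0,0,1,1,1,0⟩, ⟨0,0,0,0,0,1,1,1⟩, ⟨1,1,1,1,0,0,0,0⟩, ⟨1,0,1,1,1,0,0,0⟩,
  ⟨0,1,1,1,1,0,0,0⟩, ⟨0,1,0,1,1,1,0,0⟩, ⟨0,0,1,1,1,1,0,0⟩, ⟨0,0,0,1,1,1,1,0⟩,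
  ⟨0,0,0,0,1,1,1,1⟩, ⟨1,1,1,1,1,0,0,0⟩, ⟨1,0,1,1,1,1,0,0⟩, ⟨0,1,1,2,1,0,0,0⟩,
  ⟨0,1,1,1,1,1,0,0⟩, ⟨0,1,0,1,1,1,1,0⟩, ⟨0,0,1,1,1,1,1,0⟩, ⟨0,0,0,1,1,1,1,1⟩,
  ⟨1,1,1,2,1,0,0,0⟩, ⟨1,1,1,1,1,1,0,0⟩, ⟨1,0,1,1,1,1,1,0⟩, ⟨0,1,1,2,1,1,0,0⟩,
  ⟨0,1,1,1,1,1,1,0⟩, ⟨0,1,0,1,1,1,1,1⟩, ⟨0,0,1,1,1,1,1,1⟩, ⟨1,1,2,2,1,0,0,0⟩,
  ⟨1,1,1,2,1,1,0,0⟩, ⟨1,1,1,1,1,1,1,0⟩, ⟨1,0,1,1,1,1,1,1⟩, ⟨0,1,1,2,2,1,0,0⟩,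
  ⟨0,1,1,2,1,1,1,0⟩, ⟨0,1,1,1,1,1,1,1⟩, ⟨1,1,2,2,1,1,0,0⟩, ⟨1,1,1,2,2,1,0,0⟩,
  ⟨1,1,1,2,1,1,1,0⟩, ⟨1,1,1,1,1,1,1,1⟩, ⟨0,1,1,2,2,1,1,0⟩, ⟨0,1,1,2,1,1,1,1⟩,
  ⟨1,1,2,2,2,1,0,0⟩, ⟨1,1,2,2,1,1,1,0⟩, ⟨1,1,1,2,2,1,1,0⟩, ⟨1,1,1,2,1,1,1,1⟩,
  ⟨0,1,1,2,2,2,1,0⟩, ⟨0,1,1,2,2,1,1,1⟩, ⟨1,1,2,3,2,1,0,0⟩, ⟨1,1,2,2,2,1,1,0⟩,
  ⟨1,1,2,2,1,1,1,1⟩, ⟨1,1,1,2,2,2,1,0⟩, ⟨1,1,1,2,2,1,1,1⟩, ⟨0,1,1,2,2,2,1,1⟩,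
  ⟨1,2,2,3,2,1,0,0⟩, ⟨1,1,2,3,2,1,1,0⟩, ⟨1,1,2,2,2,2,1,0⟩, ⟨1,1,2,2,2,1,1,1⟩,
  ⟨1,1,1,2,2,2,1,1⟩, ⟨0,1,1,2,2,2,2,1⟩, ⟨1,2,2,3,2,1,1,0⟩, ⟨1,1,2,3,2,2,1,0⟩,
  ⟨1,1,2,3,2,1,1,1⟩, ⟨1,1,2,2,2,2,1,1⟩, ⟨1,1,1,2,2,2,2,1⟩, ⟨1,2,2,3,2,2,1,0⟩,
  ⟨1,2,2,3,2,1,1,1⟩, ⟨1,1,2,3,3,2,1,0⟩, ⟨1,1,2,3,2,2,1,1⟩, ⟨1,1,2,2,2,2,2,1⟩,
  ⟨1,2,2,3,3,2,1,0⟩, ⟨1,2,2,3,2,2,1,1⟩, ⟨1,1,2,3,3,2,1,1⟩, ⟨1,1,2,3,2,2,2,1⟩,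
  ⟨1,2,2,4,3,2,1,0⟩, ⟨1,2,2,3,3,2,1,1⟩, ⟨1,2,2,3,2,2,2,1⟩, ⟨1,1,2,3,3,2,2,1⟩,
  ⟨1,2,3,4,3,2,1,0⟩, ⟨1,2,2,4,3,2,1,1⟩, ⟨1,2,2,3,3,2,2,1⟩, ⟨1,1,2,3,3,3,2,1⟩,
  ⟨2,2,3,4,3,2,1,0⟩, ⟨1,2,3,4,3,2,1,1⟩, ⟨1,2,2,4,3,2,2,1⟩, ⟨1,2,2,3,3,3,2,1⟩,
  ⟨2,2,3,4,3,2,1,1⟩, ⟨1,2,3,4,3,2,2,1⟩, ⟨1,2,2,4,3,3,2,1⟩, ⟨2,2,3,4,3,2,2,1⟩,
  ⟨1,2,3,4,3,3,2,1⟩, ⟨1,2,2,4,4,3,2,1⟩, ⟨2,2,3,4,3,3,2,1⟩, ⟨1,2,3,4,4,3,2,1⟩,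
  ⟨2,2,3,4,4,3,2,1⟩, ⟨1,2,3,5,4,3,2,1⟩, ⟨2,2,3,5,4,3,2,1⟩, ⟨1,3,3,5,4,3,2,1⟩,
  ⟨2,3,3,5,4,3,2,1⟩, ⟨2,2,4,5,4,3,2,1⟩, ⟨2,3,4,5,4,3,2,1⟩, ⟨2,3,4,6,4,3,2,1⟩,
  ⟨2,3,4,6,5,3,2,1⟩, ⟨2,3,4,6,5,4,2,1⟩, ⟨2,3,4,6,5,4,3,1⟩, ⟨2,3,4,6,5,4,3,2⟩]

theorem posL_eq : posL = posV.map V8.l := rfl

def houtV (j : B8) (v : V8) : ℤ :=
  cond j.a 0 v.a + cond j.b 0 v.b + cond j.c 0 v.c + cond j.d 0 v.d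
    + cond j.e 0 v.e + cond j.f 0 v.f + cond j.g 0 v.g + cond j.h 0 v.h

theorem houtV_eq (J : Fin 8 → Bool) (v : V8) : houtV (B8.of J) v = hout J v.l := rfl

def cvV (v : V8) : V8 :=
  ⟨2 * v.a - v.c, 2 * v.b - v.d, 2 * v.c - v.a - v.d, 2 * v.d - v.b - v.c - v.e,
    2 * v.e - v.d - v.f, 2 * v.f - v.e - v.g, 2 * v.g - v.f - v.h, 2 * v.h - v.g⟩

def sgV : Bool → V8 → V8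
  | true, v => ⟨v.f, v.b, v.e, v.d, v.c, v.a, v.g, v.h⟩
  | false, v => v

theorem sgV_l (b : Bool) (v : V8) : (sgV b v).l = sg b v.l := by
  cases b <;> ext i <;> fin_cases i <;> rfl

def addV (v w : V8) : V8 :=
  ⟨v.a + w.a, v.b + w.b, v.c + w.c, v.d + w.d, v.e + w.e, v.f + w.f, v.g + w.g, v.h + w.h⟩

def svV (b : Bool) (v : V8) : V8 := addV (cvV v) (sgV b (cvV v))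

theorem svV_l (b : Bool) (v : V8) : (svV b v).l = sv b v.l := by
  cases b <;> ext i <;> fin_cases i <;> rfl

def eqV (v w : V8) : Bool :=
  v.a == w.a && v.b == w.b && v.c == w.c && v.d == w.d && v.e == w.e && v.f == w.f
    && v.g == w.g && v.h == w.h

theorem eqV_iff (v w : V8) : eqV v w = true ↔ v.l = w.l := by
  constructor
  · intro h
    simp only [eqV, Bool.and_eq_true, beq_iff_eq] at h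
    obtain ⟨⟨⟨⟨⟨⟨⟨h0, h1⟩, h2⟩, h3⟩, h4⟩, h5⟩, h6⟩, h7⟩ := h
    exact lat_ext h0 h1 h2 h3 h4 h5 h6 h7
  · intro h
    simp only [eqV, Bool.and_eq_true, beq_iff_eq]
    exact ⟨⟨⟨⟨⟨⟨⟨congrFun h 0, congrFun h 1⟩, congrFun h 2⟩, congrFun h 3⟩, congrFun h 4⟩,
      congrFun h 5⟩, congrFun h 6⟩, congrFun h 7⟩

def spV (n : ℕ) (v : V8) : Bool := (Nat.ble 7 n || v.g == 0) && (Nat.ble 8 n || v.h == 0)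

theorem spV_of {n : ℕ} {v : V8} (h : Sp n v.l) : spV n v = true := by
  simp only [spV, Bool.and_eq_true, Bool.or_eq_true, Nat.ble_eq, beq_iff_eq]
  exact ⟨(le_or_gt 7 n).imp id fun h' => h 6 (by simp; omega),
    (le_or_gt 8 n).imp id fun h' => h 7 (by simp; omega)⟩

def eqJ (j : B8) (p q : V8) : Bool :=
  (!j.a || p.a == -q.a) && (!j.b || p.b == -q.b) && (!j.c || p.c == -q.c) && (!j.d || p.d == -q.d)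
    && (!j.e || p.e == -q.e) && (!j.f || p.f == -q.f) && (!j.g || p.g == -q.g)
    && (!j.h || p.h == -q.h)

theorem eqJ_of {J : Fin 8 → Bool} {p q : V8} (h : ∀ i, J i = true → p.l i = -q.l i) :
    eqJ (B8.of J) p q = true := by
  have k : ∀ i, (!J i || p.l i == -q.l i) = true := fun i => by
    cases h' : J i
    · rfl
    · simp [h i h']
  simp only [eqJ, Bool.and_eq_true]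
  exact ⟨⟨⟨⟨⟨⟨⟨k 0, k 1⟩, k 2⟩, k 3⟩, k 4⟩, k 5⟩, k 6⟩, k 7⟩

def mainV (n : ℕ) (b lg : Bool) (wit : List V8) (j : B8) : Bool :=
  wit.any fun ν => decide (0 < houtV j ν) && posV.all fun x =>
    !(spV n x && houtV j x == houtV j ν && eqV (sgV b x) x == lg && eqJ j (svV b x) (svV b ν))
      || eqV x ν || eqV x (sgV b ν)

theorem main_spec {n : ℕ} {b lg : Bool} {wit : List V8} {J : Fin 8 → Bool}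
    (hw : ∀ ν ∈ wit, ipx ν.l ν.l = 2 ∧ Sp n ν.l ∧ eqV (sgV b ν) ν = lg)
    (h : mainV n b lg wit (B8.of J) = true) : ∃ ν : Lat, ip ν ν = 2 ∧ Sp n ν ∧
      (sg b ν = ν ↔ lg = true) ∧ 0 < hout J ν ∧ ∀ x, ip x x = 2 → 0 ≤ x → Sp n x →
      (sg b x = x ↔ lg = true) → hout J x = hout J ν →
      (∀ i, J i = true → sv b x i = -sv b ν i) → x = ν ∨ x = sg b ν := by
  simp only [mainV, List.any_eq_true, Bool.and_eq_true, decide_eq_true_eq, List.all_eq_true] at h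
  obtain ⟨ν, h1, h2, h3⟩ := h
  obtain ⟨h4, h5, h6⟩ := hw ν h1
  refine ⟨ν.l, by rw [ip_x, h4], h5, by rw [← sgV_l, ← eqV_iff, h6], h2,
    fun x hx h0 hs hf ho hj => ?_⟩
  have hm := mem_posL hx h0
  rw [posL_eq] at hm
  obtain ⟨v, hv, rfl⟩ := List.mem_map.1 hm
  have h7 := h3 v hv
  have h8 : eqV (sgV b v) v = lg := by
    rw [← sgV_l, ← eqV_iff] at hf
    cases lg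
    · simpa using hf
    · simpa using hf
  rw [spV_of hs, houtV_eq, houtV_eq, ho, h8, eqJ_of (by rwa [svV_l, svV_l])] at h7
  simpa [eqV_iff, sgV_l] using h7

def wit8 : List V8 := [⟨2,3,4,6,5,4,3,2⟩, ⟨2,3,4,6,4,3,2,1⟩, ⟨2,3,4,6,5,4,2,1⟩, ⟨1,2,2,3,2,2,2,1⟩]
def wit7 : List V8 := [⟨2,2,3,4,3,2,1,0⟩, ⟨1,2,2,4,3,2,1,0⟩, ⟨1,1,2,2,1,1,1,0⟩, ⟨0,1,0,1,1,0,0,0⟩]
def wit6 : List V8 := [⟨1,2,2,3,2,1,0,0⟩, ⟨1,1,2,2,2,1,0,0⟩, ⟨0,1,1,2,1,0,0,0⟩, ⟨1,1,2,2,1,0,0,0⟩,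
  ⟨0,1,1,2,2,1,0,0⟩]
def wit6l : List V8 := [⟨1,2,2,3,2,1,0,0⟩, ⟨0,1,1,2,1,0,0,0⟩, ⟨1,1,2,2,2,1,0,0⟩]
def wit6s : List V8 := [⟨1,1,2,2,1,1,0,0⟩, ⟨1,0,1,1,1,0,0,0⟩, ⟨1,1,1,2,1,0,0,0⟩]

theorem wit8_ok : ∀ ν ∈ wit8, ipx ν.l ν.l = 2 ∧ Sp 8 ν.l ∧ eqV (sgV false ν) ν = true := by
  decide +kernel
theorem wit7_ok : ∀ ν ∈ wit7, ipx ν.l ν.l = 2 ∧ Sp 7 ν.l ∧ eqV (sgV false ν) ν = true := by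
  decide +kernel
theorem wit6_ok : ∀ ν ∈ wit6, ipx ν.l ν.l = 2 ∧ Sp 6 ν.l ∧ eqV (sgV false ν) ν = true := by
  decide +kernel
theorem wit6l_ok : ∀ ν ∈ wit6l, ipx ν.l ν.l = 2 ∧ Sp 6 ν.l ∧ eqV (sgV true ν) ν = true := by
  decide +kernel
theorem wit6s_ok : ∀ ν ∈ wit6s, ipx ν.l ν.l = 2 ∧ Sp 6 ν.l ∧ eqV (sgV true ν) ν = false := by
  decide +kernel

theorem main8 : ∀ a b c d e f g h : Bool, (a && b && c && d && e && f && g && h) = true ∨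
    mainV 8 false true wit8 ⟨a, b, c, d, e, f, g, h⟩ = true := by decide +kernel

theorem main7 : ∀ a b c d e f g : Bool, (a && b && c && d && e && f && g) = true ∨
    mainV 7 false true wit7 ⟨a, b, c, d, e, f, g, false⟩ = true := by decide +kernel

theorem main6 : ∀ a b c d e f : Bool, (a && b && c && d && e && f) = true ∨
    (!a && b && c && d && e && !f) = true ∨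
    mainV 6 false true wit6 ⟨a, b, c, d, e, f, false, false⟩ = true := by decide +kernel

theorem main6l : ∀ a b c d : Bool, (a && b && c && d) = true ∨ (!a && b && c && d) = true ∨
    mainV 6 true true wit6l ⟨a, b, c, d, c, a, false, false⟩ = true := by decide +kernel

theorem main6s : ∀ a b c d : Bool, (a && b && c && d) = true ∨ (a && !b && c && d) = true ∨
    mainV 6 true false wit6s ⟨a, b, c, d, c, a, false, false⟩ = true := by decide +kernel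

def th : ℕ → Lat
  | 6 => v8 1 2 2 3 2 1 0 0
  | 7 => v8 2 2 3 4 3 2 1 0
  | _ => v8 2 3 4 6 5 4 3 2

def k0 : Lat := v8 1 1 2 2 1 1 0 0

theorem le_th6 : ∀ x ∈ posL, Sp 6 x → ∀ i, x i ≤ th 6 i := by decide +kernel
theorem le_th7 : ∀ x ∈ posL, Sp 7 x → ∀ i, x i ≤ th 7 i := by decide +kernel
theorem le_th8 : ∀ x ∈ posL, ∀ i, x i ≤ th 8 i := by decide +kernel

theorem desc0 : ∀ x ∈ posL, ∃ i, 0 < x i ∧ 0 < sv false x i := by decide +kernel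
theorem desc1 : ∀ x ∈ posL, Sp 6 x → ∃ i, 0 < x i ∧ 0 < sv true x i := by decide +kernel

theorem supp_two : ∀ x ∈ posL, ∀ (b : Bool) (i : Fin 8), (∀ j, j ≠ i → j ≠ pm b i → x j = 0) →
    (∀ j, x j = a i j) ∨ ∀ j, x j = a (pm b i) j := by decide +kernel

theorem up6 : ∀ x ∈ posL, Sp 6 x → (∀ j, x j = th 6 j) ∨ ∃ i : Fin 8, i.1 < 6 ∧ sv false x i < 0 := by
  decide +kernel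
theorem up7 : ∀ x ∈ posL, Sp 7 x → (∀ j, x j = th 7 j) ∨ ∃ i : Fin 8, i.1 < 7 ∧ sv false x i < 0 := by
  decide +kernel
theorem up8 : ∀ x ∈ posL, (∀ j, x j = th 8 j) ∨ ∃ i : Fin 8, i.1 < 8 ∧ sv false x i < 0 := by
  decide +kernel
theorem up6t : ∀ x ∈ posL, Sp 6 x → (∀ j, x j = th 6 j) ∨ (∀ j, x j = k0 j) ∨
    (∀ j, x j = sg true k0 j) ∨ ∃ i : Fin 8, i.1 < 6 ∧ sv true x i < 0 := by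
  decide +kernel

end Pool.Agent.MP_db74b1_al.Exc
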