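import Pool.Agent.MP_db74b1_al.ExcU
import Pool.Agent.MP_db74b1_al.ExcFin

set_option autoImplicit false

namespace Pool.Agent.MP_db74b1_al.Exc

variable {K : Type} [Field K]

theorem a_nonneg (i : Fin 8) : 0 ≤ a i := fun j => by simp only [a, Pi.zero_apply]; split_ifs <;> omega

theorem a_inj : ∀ i j : Fin 8, a i = a j ↔ i = j := by decide

theorem not_neg_nonneg {x : Lat} (h : ip x x = 2) (h0 : 0 ≤ x) : ¬ 0 ≤ -x := fun h' =>
  root_ne_zero h (le_antisymm (neg_nonneg.1 h') h0)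

theorem neg_nonneg_of {x : Lat} (h : ip x x = 2) (h0 : ¬ 0 ≤ x) : 0 ≤ -x :=
  neg_nonneg.2 ((root_dich h).resolve_left h0)

theorem ht_eq_one (x : Lat) {y : Lat} (h1 : 0 ≤ y) (hy : ip y y = 2) :
    ht x < ht (y + x) := by
  rw [ht_add]; have := root_ht_pos hy h1; omega

namespace Cfg

variable (c : Cfg K)

def Pos (β : Lat) : Prop := Sp c.n β ∧ 0 ≤ β

def U : Subgroup (Aut K) := c.G ⊓ Ucl K c.Pos

def Ui (i : Fin 8) (β : Lat) : Prop := c.Pos β ∧ β ≠ a i ∧ β ≠ a (pm c.b i)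

variable {c}

theorem Pos.sg {β : Lat} (h : c.Pos β) : c.Pos (sg c.b β) := ⟨c.Sp_sg h.1, sg_nonneg h.2⟩

theorem Pos.add {β γ : Lat} (h : c.Pos β) (h' : c.Pos γ) : c.Pos (β + γ) :=
  ⟨h.1.add h'.1, add_nonneg h.2 h'.2⟩

theorem Pos_a {i : Fin 8} (hi : i.1 < c.n) : c.Pos (a i) := ⟨Sp_a hi, a_nonneg i⟩

theorem Ui.sg {i : Fin 8} {β : Lat} (h : c.Ui i β) : c.Ui i (sg c.b β) :=
  ⟨h.1.sg, fun h' => h.2.2 (by rw [← sg_a, ← h', sg_sg]),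
    fun h' => h.2.1 (by rw [← sg_a, sg_inj] at h'; exact h')⟩

theorem Y_mem_U {α : Lat} (h : c.R α) (h0 : 0 ≤ α) {t : K} (ht : c.Al α t) : c.Y α t ∈ c.U :=
  ⟨Y_mem h ht, Y_mem_Ucl (A := c.Pos) ⟨h.2, h0⟩ (Pos.sg ⟨h.2, h0⟩) t⟩

theorem Ui_le (i : Fin 8) : Ucl K (c.Ui i) ≤ Ucl K c.Pos := Ucl_mono fun _ _ h => h.1

theorem Ui_add {i : Fin 8} {ζ β : Lat} (hζ : c.Pos ζ) (hζ' : ip ζ ζ = 2) (h : c.Ui i β)
    (hβ : ip β β = 2) : c.Ui i (ζ + β) := by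
  have h1 := ht_eq_one β hζ.2 hζ'
  have h2 := root_ht_pos hβ h.1.2
  refine ⟨hζ.add h.1, fun h' => ?_, fun h' => ?_⟩ <;> rw [h', ht_a] at h1 <;> omega

theorem peel_i {i : Fin 8} (hi : i.1 < c.n) {u : Aut K} (hu : u ∈ c.U) :
    ∃ t, c.Al (a i) t ∧ ∃ u' ∈ Ucl K (c.Ui i), u = c.Y (a i) t * u' := by
  obtain ⟨t, h1, h2, _⟩ := peelY htL (R_a hi) (A := c.Ui i) (by rw [htL_apply, ht_a]; omega)
    (ht_sg _ _) (fun β h _ => by rw [sg_a]; unfold Ui; tauto) (fun β h hβ => ⟨by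
      have := root_ht_pos hβ h.1.2
      rw [htL_apply, htL_apply, ht_a]; omega, h.2.1, by rw [sg_a]; exact h.2.2,
      fun _ => Ui_add (Pos_a hi) (root_a i) h hβ,
      fun _ => Ui_add (Pos_a hi).sg (R_a hi).sg.1 h hβ⟩) hu.1 hu.2
  exact ⟨t, h1, h2⟩

theorem Ui_conj_Y {i : Fin 8} (hi : i.1 < c.n) (s : K) {u : Aut K} (hu : u ∈ Ucl K (c.Ui i)) :
    c.Y (a i) s * u * (c.Y (a i) s)⁻¹ ∈ Ucl K (c.Ui i) :=
  Ucl_conj_Y (R_a hi) (fun _ h hβ => ⟨fun h' => not_neg_nonneg (root_a i) (a_nonneg i) (h' ▸ h.1.2),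
      fun _ => Ui_add (Pos_a hi) (root_a i) h hβ⟩)
    (fun _ h hβ => ⟨fun h' => not_neg_nonneg (R_a hi).sg.1 (Pos_a hi).sg.2 (h' ▸ h.1.2),
      fun _ => Ui_add (Pos_a hi).sg (R_a hi).sg.1 h hβ⟩) s hu

theorem wY_coord {i : Fin 8} (hi : i.1 < c.n) (x : Lat) {j : Fin 8} (h1 : j ≠ i)
    (h2 : j ≠ pm c.b i) : c.wY (a i) x j = x j := by
  by_cases h : sg c.b (a i) = a i
  · simp [wY_fix (R_a hi) h, a, h1]
  · rw [wY_mov (R_a hi) h, sg_a]; simp [a, h1, h2]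

theorem ht_wY {i : Fin 8} (hi : i.1 < c.n) (x : Lat) :
    (0 < sv c.b x i → ht (c.wY (a i) x) < ht x) ∧ (sv c.b x i < 0 → ht x < ht (c.wY (a i) x)) := by
  by_cases h : sg c.b (a i) = a i
  · have h1 : pm c.b i = i := by rwa [sg_a, a_inj] at h
    rw [wY_fix (R_a hi) h, ht_sub, ht_smul, ht_a, sv, h1, ip_a]
    constructor <;> intro <;> omega
  · rw [wY_mov (R_a hi) h, ht_sub, ht_sub, ht_smul, ht_smul, sg_a, ht_a, ht_a, sv, ip_a, ip_a]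
    constructor <;> intro <;> omega

theorem n_Mon {i : Fin 8} (hi : i.1 < c.n) : c.Mon (c.NY (a i) 1) (c.wY (a i)) :=
  NY_Mon (R_a hi) one_ne_zero (Al_one _)

theorem wY_sg_self {α : Lat} (hα : c.R α) : c.wY α (sg c.b α) = -sg c.b α := by
  rw [(NY_Mon hα one_ne_zero (Al_one _)).sg hα, wY_self hα, sg_neg]

theorem wY_Ui {i : Fin 8} (hi : i.1 < c.n) {β : Lat} (h : c.Ui i β) (hβ : ip β β = 2) :
    c.Ui i (c.wY (a i) β) := by
  have hR := (n_Mon hi).R ⟨hβ, h.1.1⟩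
  refine ⟨⟨hR.2, ?_⟩, fun h' => ?_, fun h' => ?_⟩
  · by_contra h1
    have h2 := neg_nonneg_of hR.1 h1
    rcases supp_two β (mem_posL hβ h.1.2) c.b i (fun j h3 h4 => by
      have h5 := h2 j
      have h6 := h.1.2 j
      simp only [Pi.neg_apply, wY_coord hi β h3 h4, Pi.zero_apply] at h5 h6
      omega) with h3 | h3
    · exact h.2.1 (funext h3)
    · exact h.2.2 (funext h3)
  · have := congrArg (c.wY (a i)) h'
    rw [wY_wY (R_a hi), wY_self (R_a hi)] at this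
    exact not_neg_nonneg (root_a i) (a_nonneg i) (this ▸ h.1.2)
  · have := congrArg (c.wY (a i)) h'
    rw [wY_wY (R_a hi), ← sg_a, wY_sg_self (R_a hi)] at this
    exact not_neg_nonneg (R_a hi).sg.1 (Pos_a hi).sg.2 (this ▸ h.1.2)

theorem Ui_conj {i : Fin 8} (hi : i.1 < c.n) {m : Aut K} (hm : c.Mon m (c.wY (a i))) {u : Aut K}
    (hu : u ∈ Ucl K (c.Ui i)) : m * u * m⁻¹ ∈ Ucl K (c.Ui i) :=
  hm.conjU (fun _ h hβ => wY_Ui hi h hβ) hu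

theorem desc {x : Lat} (hx : c.R x) (h0 : 0 ≤ x) : ∃ i : Fin 8, i.1 < c.n ∧ 0 < x i ∧ 0 < sv c.b x i := by
  have key : ∃ i, 0 < x i ∧ 0 < sv c.b x i := by
    rcases c.ok with ⟨hb, _, _⟩ | ⟨hb, hn, _⟩
    · rw [hb]; exact desc0 x (mem_posL hx.1 h0)
    · rw [hb]; exact desc1 x (mem_posL hx.1 h0) (hn ▸ hx.2)
  obtain ⟨i, h1, h2⟩ := key
  exact ⟨i, not_le.1 fun h => by rw [hx.2 i h] at h1; omega, h1, h2⟩

theorem sv_neg (b : Bool) (x : Lat) (i : Fin 8) : sv b (-x) i = -sv b x i := by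
  simp only [sv, ← ip_a, ip_neg_left]; ring

/-- Induction over roots: from positive roots to all roots. -/
theorem root_ind {p : Lat → Prop} (h0 : ∀ α, c.R α → 0 ≤ α → p α)
    (h1 : ∀ α (i : Fin 8), i.1 < c.n → c.R α → p (c.wY (a i) α) → p α) {α : Lat} (hα : c.R α) :
    p α := by
  induction' hk : (-ht α).toNat using Nat.strong_induction_on with k ih generalizing α
  by_cases h : 0 ≤ α
  · exact h0 α hα h
  · obtain ⟨i, hi, _, h3⟩ := desc hα.neg (neg_nonneg_of hα.1 h)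
    have h4 := (ht_wY hi α).2 (by rw [sv_neg] at h3; omega)
    have h5 := root_ht_neg hα.1 h
    exact h1 α i hi hα (ih _ (by omega) ((n_Mon hi).R hα) rfl)

def Br (g : Aut K) : Prop := ∃ u1 ∈ c.U, ∃ m w, c.Mon m w ∧ ∃ u2 ∈ c.U, g = u1 * m * u2

theorem Y_swap {m : Aut K} {w : W} (hm : c.Mon m w) {α : Lat} (hα : c.R α) {t : K}
    (ht : c.Al α t) : ∃ t', c.Al (w⁻¹ α) t' ∧ c.Y (w⁻¹ α) t' = m⁻¹ * c.Y α t * m := by
  obtain ⟨t', h1, _, h2⟩ := hm.inv.conjY' hα ht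
  exact ⟨t', h1, by rw [h2]; group⟩

theorem mem_U {u : Aut K} (h1 : u ∈ c.G) (h2 : u ∈ Ucl K c.Pos) : u ∈ c.U := ⟨h1, h2⟩
theorem U_G {u : Aut K} (h : u ∈ c.U) : u ∈ c.G := h.1
theorem U_P {u : Aut K} (h : u ∈ c.U) : u ∈ Ucl K c.Pos := h.2

theorem conj_Ui_mem {i : Fin 8} (hi : i.1 < c.n) {m0 : Aut K} (h0 : c.Mon m0 (c.wY (a i)))
    {u : Aut K} (hG : u ∈ c.G) (hu : u ∈ Ucl K (c.Ui i)) {r : K} (hr : c.Al (a i) r) :
    m0 * (c.Y (a i) r * u * (c.Y (a i) r)⁻¹) * m0⁻¹ ∈ c.U :=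
  mem_U (mul_mem (mul_mem h0.mem (mul_mem (mul_mem (Y_mem (R_a hi) hr) hG)
    (inv_mem (Y_mem (R_a hi) hr)))) (inv_mem h0.mem)) (Ui_le i (Ui_conj hi h0 (Ui_conj_Y hi r hu)))

theorem peel_i' {i : Fin 8} (hi : i.1 < c.n) {u : Aut K} (hu : u ∈ c.U) :
    ∃ t, c.Al (a i) t ∧ ∃ u' ∈ Ucl K (c.Ui i), u' ∈ c.G ∧ u = c.Y (a i) t * u' := by
  obtain ⟨t, ht, u', hu', h⟩ := peel_i hi hu
  refine ⟨t, ht, u', hu', ?_, h⟩
  have := mul_mem (inv_mem (Y_mem (R_a hi) ht)) (U_G hu)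
  rwa [h, inv_mul_cancel_left] at this

theorem Br_n {i : Fin 8} (hi : i.1 < c.n) {m0 : Aut K} (h0 : c.Mon m0 (c.wY (a i))) {g : Aut K}
    (hg : c.Br g) : c.Br (m0 * g) := by
  obtain ⟨u1, hu1, m, w, hm, u2, hu2, rfl⟩ := hg
  obtain ⟨t, ht, u', hu', hG, rfl⟩ := peel_i' hi hu1
  have hR := R_a hi
  have h1 := conj_Ui_mem hi h0 hG hu' ht
  by_cases h : 0 ≤ w⁻¹ (a i)
  · obtain ⟨t', h2, h3⟩ := Y_swap hm hR ht
    refine ⟨_, h1, _, _, h0.mul hm, _, mul_mem (Y_mem_U (hm.inv.R hR) h h2) hu2, ?_⟩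
    rw [h3]; group
  · by_cases ht0 : t = 0
    · refine ⟨_, h1, _, _, h0.mul hm, _, hu2, ?_⟩
      rw [ht0, Y_zero]; group
    obtain ⟨r1, r2, h', h2, h3, h4, h5⟩ := rank_one hR h0 ht0 ht
    obtain ⟨t', h6, h7⟩ := Y_swap hm hR.neg h3
    refine ⟨_, mul_mem h1 (Y_mem_U hR (a_nonneg i) h2), _, _, h4.mul hm, _,
      mul_mem (Y_mem_U (hm.inv.R hR.neg) ?_ h6) hu2, ?_⟩
    · rw [map_neg]; exact neg_nonneg_of (hm.inv.R hR).1 h
    · have h8 : c.Y (a i) r1 = m0 * c.Y (a i) t * (c.Y (-a i) r2)⁻¹ * h'⁻¹ := by rw [h5]; group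
      rw [h7, h8]; group

theorem bruhat {g : Aut K} (hg : g ∈ c.G) : c.Br g := by
  refine G_induction ⟨1, one_mem _, 1, 1, Mon.one, 1, one_mem _, by simp⟩
    (fun α t g hα ht hg => ?_) hg
  revert t g
  refine root_ind (p := fun α => ∀ t g, c.Al α t → c.Br g → c.Br (c.Y α t * g))
    (fun α hα h0 t g ht hg => ?_) (fun α i hi hα ih t g ht hg => ?_) hα
  · obtain ⟨u1, hu1, m, w, hm, u2, hu2, rfl⟩ := hg
    exact ⟨_, mul_mem (Y_mem_U hα h0 ht) hu1, m, w, hm, u2, hu2, by group⟩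
  · obtain ⟨t', h1, _, h2⟩ := (n_Mon hi).conjY' hα ht
    have h3 := (n_Mon hi).inv
    rw [wY_inv (R_a hi)] at h3
    have := Br_n hi h3 (ih t' _ h1 (Br_n hi (n_Mon hi) hg))
    rwa [← mul_assoc (c.Y _ t'), ← h2, mul_assoc, inv_mul_cancel_left] at this

def P (w : W) : ℤ := ht (w rho)

theorem Mon.P_inv {m : Aut K} {w : W} (h : c.Mon m w) : P w⁻¹ = P w := by
  rw [P, P, ← ip_rho, ← ip_rho, ← h.iso, W_app_inv, ip_comm]

theorem Mon.P_ge {m : Aut K} {w : W} (h : c.Mon m w) : -ip rho rho ≤ P w := by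
  have := ip_self_nonneg (rho + w rho)
  rw [norm_add, h.iso, ip_rho (w rho)] at this
  unfold P; omega

theorem Mon.P_mul {m : Aut K} {w : W} (h : c.Mon m w) {i : Fin 8} (hi : i.1 < c.n)
    (h0 : 0 ≤ w (a i)) : P (w * c.wY (a i)) < P w := by
  have h1 := root_ht_pos (h.root (root_a i)) h0
  unfold P
  rw [LinearEquiv.mul_apply]
  by_cases h' : Exc.sg c.b (a i) = a i
  · rw [wY_fix (R_a hi) h', ip_rho, ht_a, one_smul, map_sub, ht_sub]; omega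
  · rw [wY_mov (R_a hi) h', ip_rho, ip_rho, ht_sg, ht_a, one_smul, one_smul, map_sub, map_sub,
      ht_sub, ht_sub, h.sg (R_a hi), ht_sg]; omega

theorem Mon.P_mul' {m : Aut K} {w : W} (h : c.Mon m w) {i : Fin 8} (hi : i.1 < c.n)
    (h0 : 0 ≤ w⁻¹ (a i)) : P (c.wY (a i) * w) < P w := by
  rw [← ((n_Mon hi).mul h).P_inv, ← h.P_inv, mul_inv_rev, wY_inv (R_a hi)]
  exact h.inv.P_mul hi h0

variable (c)

def Low (g : Aut K) (k : ℤ) : Prop := ∀ h ∈ c.G, ∀ u1 ∈ c.U, ∀ m w, c.Mon m w → ∀ u2 ∈ c.U,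
  h * g * h⁻¹ = u1 * m * u2 → k ≤ P w

structure MP (m : Aut K) (w : W) (u : Aut K) : Prop where
  mon : c.Mon m w
  mem : u ∈ c.U
  low : c.Low (m * u) (P w)

variable {c}

theorem Low.conj {g : Aut K} {k : ℤ} (hl : c.Low g k) {h : Aut K} (hh : h ∈ c.G) :
    c.Low (h * g * h⁻¹) k := fun h' hh' u1 hu1 m w hm u2 hu2 e =>
  hl (h' * h) (mul_mem hh' hh) u1 hu1 m w hm u2 hu2 (by rw [← e]; group)

theorem exists_MP {g : Aut K} (hg : g ∈ c.G) :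
    ∃ h ∈ c.G, ∃ m w u, c.MP m w u ∧ h * g * h⁻¹ = m * u := by
  obtain ⟨k, ⟨h, hh, u1, hu1, m, w, hm, u2, hu2, e, rfl⟩, hk⟩ := Int.exists_least_of_bdd
    (P := fun k => ∃ h ∈ c.G, ∃ u1 ∈ c.U, ∃ m w, c.Mon m w ∧ ∃ u2 ∈ c.U,
      h * g * h⁻¹ = u1 * m * u2 ∧ k = P w) ⟨-ip rho rho, by
        rintro k ⟨_, _, _, _, m, w, hm, _, _, _, rfl⟩; exact hm.P_ge⟩ (by
        obtain ⟨u1, hu1, m, w, hm, u2, hu2, e⟩ := bruhat hg
        exact ⟨_, 1, one_mem _, u1, hu1, m, w, hm, u2, hu2, by simpa using e, rfl⟩)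
  have hl : c.Low g (P w) := fun h hh u1 hu1 m w hm u2 hu2 e =>
    hk _ ⟨h, hh, u1, hu1, m, w, hm, u2, hu2, e, rfl⟩
  have e2 : u1⁻¹ * h * g * (u1⁻¹ * h)⁻¹ = m * (u2 * u1) := by
    rw [show u1⁻¹ * h * g * (u1⁻¹ * h)⁻¹ = u1⁻¹ * (h * g * h⁻¹) * u1 by group, e]; group
  have hh' := mul_mem (inv_mem (U_G hu1)) hh
  exact ⟨_, hh', m, w, _, ⟨hm, mul_mem hu2 hu1, e2 ▸ hl.conj hh'⟩, e2⟩

theorem low_contra {m : Aut K} {w : W} (hm : c.Mon m w) {i : Fin 8} (hi : i.1 < c.n)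
    (h0 : 0 ≤ w (a i)) {g : Aut K} (hl : c.Low g (P w)) {m0 : Aut K}
    (hm0 : c.Mon m0 (c.wY (a i))) {h u1 u2 : Aut K} (hh : h ∈ c.G) (hu1 : u1 ∈ c.U)
    (hu2 : u2 ∈ c.U) {r : K} (hr : r ≠ 0) (ha : c.Al (a i) r)
    (hneg : ¬ 0 ≤ (w * c.wY (a i))⁻¹ (a i))
    (e : h * g * h⁻¹ = u1 * (m0 * c.Y (a i) r) * (m * m0⁻¹) * u2) : False := by
  have hR := R_a hi
  have h3 := hm0.inv
  rw [wY_inv hR] at h3
  have hM := hm.mul h3
  obtain ⟨r1, r2, h', h2, h3, h4, h5⟩ := rank_one hR hm0 hr ha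
  obtain ⟨t', h6, h7⟩ := Y_swap hM hR.neg h3
  have := hl h hh _ (mul_mem hu1 (Y_mem_U hR (a_nonneg i) h2)) _ _ (h4.mul hM) _
    (mul_mem (Y_mem_U (hM.inv.R hR.neg) (by
      rw [map_neg]; exact neg_nonneg_of (hM.inv.R hR).1 hneg) h6) hu2) (by
      rw [e, h5, h7]; group)
  rw [one_mul] at this
  have := hm.P_mul hi h0
  omega

theorem MP.star {m u : Aut K} {w : W} (H : c.MP m w u) {i : Fin 8} (hi : i.1 < c.n)
    (h0 : 0 ≤ w (a i)) : u ∈ Ucl K (c.Ui i) ∧ ((w (a i) = a i ∧ m (e (a i)) = e (a i)) ∨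
      (sg c.b (a i) ≠ a i ∧ (∀ t, c.τ t = t) ∧ w (a i) = sg c.b (a i) ∧
        m (e (a i)) = e (sg c.b (a i)))) := by
  obtain ⟨hm, hu, hl⟩ := H
  obtain ⟨t, ht, u', hu', hG, rfl⟩ := peel_i' hi hu
  have hR := R_a hi
  have h1 := n_Mon hi
  set m0 := c.NY (a i) 1
  have h1' := h1.inv
  rw [wY_inv hR] at h1'
  obtain ⟨s, hs, h2⟩ := hm.mono _ hR.1
  have hc : ∀ r, c.Al (a i) r → m0 * c.Y (a i) r ∈ c.G := fun r hr => mul_mem h1.mem (Y_mem hR hr)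
  have key : ∀ r, m0 * c.Y (a i) r * (m * (c.Y (a i) t * u')) * (m0 * c.Y (a i) r)⁻¹ =
      m0 * c.Y (a i) r * c.Y (w (a i)) (s * (t + -r)) * (m * m0⁻¹) *
        (m0 * (c.Y (a i) r * u' * (c.Y (a i) r)⁻¹) * m0⁻¹) := fun r => by
    rw [← hm.conjY hR h2, add_comm, ← Y_add hR, ← Y_inv hR]
    have := Y_add hR t r
    rw [add_comm, ← Y_add hR] at this
    have h3 : c.Y (a i) t = c.Y (a i) r * c.Y (a i) t * (c.Y (a i) r)⁻¹ := by rw [← this]; group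
    conv_rhs => rw [h3]
    group
  have hB : ∀ f : K → K, (∀ x, c.Al (a i) x → c.Al (a i) (f x) ∧
      c.Y (w (a i)) (s * x) = c.Y (a i) (f x)) → ¬ 0 ≤ (w * c.wY (a i))⁻¹ (a i) →
      ∀ r, c.Al (a i) r → r + f (t + -r) = 0 := fun f hf hneg r hr => by
    by_contra h3
    obtain ⟨h4, h5⟩ := hf _ (ht.add hr.neg)
    refine low_contra hm hi h0 hl h1 (hc r hr) (one_mem _) (conj_Ui_mem hi h1 hG hu' hr) h3
      (hr.add h4) hneg ?_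
    rw [key, h5, ← Y_add hR]; group
  by_cases e1 : w (a i) = a i
  · have h3 := hB (fun x => s * x) (fun x hx => ⟨e1 ▸ hm.Al_mul hR hs h2 hx, by rw [e1]⟩) (by
      rw [mul_inv_rev, wY_inv hR, LinearEquiv.mul_apply, ← e1, W_inv_app, e1, wY_self hR]
      exact not_neg_nonneg hR.1 (a_nonneg i))
    have h4 : t = 0 := by simpa [hs] using h3 0 (Al_zero _)
    have h5 : s = 1 := by have := h3 1 (Al_one _); rw [h4] at this; linear_combination -this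
    rw [h4, Y_zero, one_mul]
    exact ⟨hu', Or.inl ⟨e1, by rw [h2, h5, e1, one_smul]⟩⟩
  by_cases e2 : w (a i) = sg c.b (a i)
  · have hmov : sg c.b (a i) ≠ a i := e2 ▸ e1
    have hal : ∀ x, c.Al (a i) x := fun x h => absurd h hmov
    have h3 := hB (fun x => c.τ (s * x)) (fun x _ => ⟨hal _, by
      rw [e2, ← Y_sg hR (hal _), c.ττ]⟩) (by
      have : w⁻¹ (a i) = sg c.b (a i) := by
        rw [← w.injective.eq_iff, W_app_inv, hm.sg hR, e2, sg_sg]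
      rw [mul_inv_rev, wY_inv hR, LinearEquiv.mul_apply, this, wY_sg_self hR]
      exact not_neg_nonneg hR.sg.1 (Pos_a hi).sg.2)
    have h4 : t = 0 := by simpa [hs] using h3 0 (Al_zero _)
    have h5 : c.τ s = 1 := by
      have := h3 1 (Al_one _); rw [h4] at this; simp at this; linear_combination -this
    have h6 : s = 1 := by rw [← c.ττ s, h5, map_one]
    rw [h4, Y_zero, one_mul]
    refine ⟨hu', Or.inr ⟨hmov, fun r => ?_, e2, by rw [h2, h6, e2, one_smul]⟩⟩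
    have := h3 r (hal r); rw [h4, h6] at this; simp at this; linear_combination -this
  exfalso
  have hUi : c.Ui i (w (a i)) := ⟨⟨hm.Sp hR.2, h0⟩, e1, by rwa [← sg_a]⟩
  have hY : ∀ r, c.Al (a i) r → m0 * (c.Y (a i) r * c.Y (w (a i)) (s * (t + -r)) *
      (c.Y (a i) r)⁻¹) * m0⁻¹ ∈ c.U := fun r hr =>
    conj_Ui_mem hi h1 (Y_mem (hm.R hR) (hm.Al_mul hR hs h2 (ht.add hr.neg)))
      (Y_mem_Ucl hUi hUi.sg _) hr
  by_cases h3 : 0 ≤ (w * c.wY (a i))⁻¹ (a i)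
  · have h4 := hl _ (hc 0 (Al_zero _)) _ (hY 0 (Al_zero _)) _ _ (h1.mul (hm.mul h1')) _
      (conj_Ui_mem hi h1 hG hu' (Al_zero _)) (by rw [key, Y_zero]; group)
    have h5 := (hm.mul h1').P_mul' hi h3
    have h6 := hm.P_mul hi h0
    omega
  · exact low_contra hm hi h0 hl h1 (hc 1 (Al_one _)) (hY 1 (Al_one _))
      (conj_Ui_mem hi h1 hG hu' (Al_one _)) one_ne_zero (Al_one _) h3 (by rw [key]; group)

end Cfg

end Pool.Agent.MP_db74b1_al.Exc
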