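import Pool.Agent.MP_db74b1_al.ExcBase

set_option autoImplicit false

namespace Pool.Agent.MP_db74b1_al.Exc

variable {R : Type} [CommRing R]

/-- Coefficient of the root vector `e β` (zero when `β` is not a root). -/
def co (β : Lat) : L R →ₗ[R] R :=
  if h : ip β β = 2 then (LinearMap.proj (⟨β, h⟩ : Root)).comp (LinearMap.snd R _ _) else 0

/-- The value of `α` on the Cartan part. -/
def hp (α : Lat) : L R →ₗ[R] R :=
  ∑ i : Fin 8, (ip (Pi.single i 1) α : R) • (LinearMap.proj i).comp (LinearMap.fst R _ _)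

/-- The root vector. -/
def e (α : Lat) : L R := (0, fun β => if β.1 = α then 1 else 0)

/-- `ad e_α`: `[e_α, h] = -α(h) e_α`, `[e_α, e_{-α}] = -α`, `[e_α, e_β] = ε(α,β) e_{α+β}`. -/
def ad (α : Lat) : L R →ₗ[R] L R :=
  LinearMap.prod (LinearMap.pi fun i => -(α i : R) • co (-α))
    (LinearMap.pi fun β : Root =>
      if β.1 = α then -hp α else (eps α (β.1 - α) : R) • co (β.1 - α))

/-- `exp (t ad e_α) = 1 + t ad e_α + t² (ad e_α)² / 2`. -/
def xl (α : Lat) (t : R) : L R →ₗ[R] L R :=
  LinearMap.id + t • ad α + t ^ 2 • (co (-α)).smulRight (e α)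

theorem ip_eq (x y : Lat) : ip x y = form x y + form y x := by
  simp [ip, form, Matrix.mulVec, dotProduct, Fin.sum_univ_eight, CartanMatrix.E₈]
  ring

theorem ip_comm (x y : Lat) : ip x y = ip y x := by rw [ip_eq, ip_eq, add_comm]

theorem ip_sub_left (x y z : Lat) : ip (x - y) z = ip x z - ip y z := by
  simp [ip, sub_dotProduct]

theorem ip_sub_right (x y z : Lat) : ip x (y - z) = ip x y - ip x z := by
  rw [ip_comm, ip_sub_left, ip_comm y, ip_comm z]

theorem ip_neg_left (x z : Lat) : ip (-x) z = -ip x z := by simp [ip]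

theorem ip_neg_right (x z : Lat) : ip x (-z) = -ip x z := by
  rw [ip_comm, ip_neg_left, ip_comm z]

theorem co_of_root {β : Lat} (h : ip β β = 2) (v : L R) : co β v = v.2 ⟨β, h⟩ := by
  simp [co, h]

theorem co_of_not {β : Lat} (h : ip β β ≠ 2) (v : L R) : co β v = 0 := by
  simp [co, h]

theorem ad_fst (α : Lat) (v : L R) (i : Fin 8) : (ad α v).1 i = -(α i : R) * co (-α) v := by
  simp [ad]

theorem ad_snd (α : Lat) (v : L R) (β : Root) : (ad α v).2 β =
    if β.1 = α then -hp α v else (eps α (β.1 - α) : R) * co (β.1 - α) v := by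
  change (if β.1 = α then -hp α else (eps α (β.1 - α) : R) • co (β.1 - α)) v = _
  split_ifs <;> simp

theorem co_ad (α β : Lat) (v : L R) : co β (ad α v) = if ip β β = 2 then
    (if β = α then -hp α v else (eps α (β - α) : R) * co (β - α) v) else 0 := by
  split_ifs with h h'
  · rw [co_of_root h, ad_snd, if_pos h']
  · rw [co_of_root h, ad_snd, if_neg h']
  · exact co_of_not h _

theorem co_e (α β : Lat) : co β (e α : L R) = if ip β β = 2 ∧ β = α then 1 else 0 := by
  by_cases h : ip β β = 2
  · rw [co_of_root h]; simp [e, h]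
  · rw [co_of_not h]; simp [h]

theorem hp_apply (α : Lat) (v : L R) :
    hp α v = ∑ i : Fin 8, (ip (Pi.single i 1) α : R) * v.1 i := by
  simp [hp, LinearMap.sum_apply]

theorem sum_ip (x y : Lat) : ∑ i : Fin 8, ip (Pi.single i 1) y * x i = ip x y := by
  simp [ip, dotProduct, mul_comm, Pi.single_apply]

theorem neg_ne_self {α : Lat} (h : ip α α = 2) : -α ≠ α := fun h' => by
  have := ip_neg_left α α
  rw [h'] at this
  omega

theorem co_neg_ad {α : Lat} (h : ip α α = 2) (v : L R) : co (-α) (ad α v) = 0 := by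
  rw [co_ad, if_neg (neg_ne_self h), co_of_not (β := -α - α), mul_zero, ite_self]
  simp only [ip_sub_left, ip_sub_right, ip_neg_left, ip_neg_right]
  omega

theorem hp_e (α β : Lat) : hp α (e β : L R) = 0 := by simp [hp_apply, e]

theorem ad_e_self {α : Lat} (h : ip α α = 2) : ad α (e α : L R) = 0 := by
  ext i
  · simp [ad_fst, co_e, neg_ne_self h]
  · rw [ad_snd, hp_e, co_e]
    by_cases h1 : i.1 = α
    · simp [h1]
    · rw [if_neg h1, if_neg, mul_zero]
      · rfl
      · rintro ⟨h2, h3⟩
        have h4 := i.2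
        have h5 := ip_sub_left i.1 α α
        have h6 := ip_sub_left i.1 α i.1
        rw [h3] at h5 h6
        rw [ip_comm] at h5
        have h7 := ip_comm i.1 α
        omega

theorem ad_ad {α : Lat} (h : ip α α = 2) (v : L R) :
    ad α (ad α v) = (2 * co (-α) v) • e α := by
  ext i
  · simp [ad_fst, co_neg_ad h, e]
  · rw [ad_snd]
    by_cases h1 : i.1 = α
    · have h2 := congrArg (Int.cast : ℤ → R) (sum_ip α α)
      push_cast [h] at h2
      simp only [h1, if_true, hp_apply, ad_fst, e, Prod.smul_snd, Pi.smul_apply, smul_eq_mul,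
        mul_one, ← h2, Finset.sum_mul, ← Finset.sum_neg_distrib]
      exact Finset.sum_congr rfl fun j _ => by ring
    · have h4 := i.2
      have h7 := ip_comm i.1 α
      rw [if_neg h1, co_ad]
      simp only [e, Prod.smul_snd, Pi.smul_apply, if_neg h1, smul_zero]
      split_ifs with h2 h3
      · have h5 := ip_sub_left i.1 α α
        have h6 := ip_sub_left i.1 α i.1
        rw [h3] at h5 h6
        omega
      · rw [co_of_not, mul_zero, mul_zero]
        simp only [ip_sub_left, ip_sub_right] at h2 ⊢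
        omega
      · simp

theorem xl_apply (α : Lat) (t : R) (v : L R) :
    xl α t v = v + t • ad α v + (t ^ 2 * co (-α) v) • e α := by
  simp [xl, mul_smul]

theorem xl_xl {α : Lat} (h : ip α α = 2) (s t : R) (v : L R) :
    xl α s (xl α t v) = xl α (s + t) v := by
  simp only [xl_apply, map_add, map_smul, ad_ad h, ad_e_self h, co_neg_ad h, co_e,
    neg_ne_self h, and_false, if_false]
  module

/-- The root element `x_α(t)` as an automorphism of the module. -/
def x (α : Root) (t : R) : L R ≃ₗ[R] L R :=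
  LinearEquiv.ofLinearMap (xl α.1 t) (xl α.1 (-t))
    (LinearMap.ext fun v => by simp [xl_xl α.2, xl_apply α.1 (0 : R)])
    (LinearMap.ext fun v => by simp [xl_xl α.2, xl_apply α.1 (0 : R)])

/-- The group generated by the root elements `x_α(t)` (`σα = α`, `τ t = t`) and
`x_α(t) x_{σα}(τ t)` (`σα ≠ α`), for `α` a root in the span of the first `n` simple roots. -/
def chev (n : ℕ) (b : Bool) (τ : R →+* R) : Subgroup (L R ≃ₗ[R] L R) :=
  Subgroup.closure {g | ∃ (α β : Root) (t : R), (∀ j : Fin 8, n ≤ j.1 → α.1 j = 0) ∧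
    β.1 = sig b α.1 ∧ ((β = α ∧ τ t = t ∧ g = x α t) ∨ (β ≠ α ∧ g = x α t * x β (τ t)))}

end Pool.Agent.MP_db74b1_al.Exc
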