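import Pool.Agent.MP_db74b1_al.ExcTr

set_option autoImplicit false

namespace Pool.Agent.MP_db74b1_al.Exc

variable {K : Type} [Field K]

def ts : Lat := v8 1 0 1 1 1 1 0 0
def k1 : Lat := v8 1 1 1 2 2 1 0 0
def et : Lat := v8 0 1 1 1 0 0 0 0
def eu : Lat := v8 0 1 0 1 1 0 0 0

theorem fa1 : ∀ x ∈ posL, Sp 6 x → x 0 + x 5 = 1 → (∀ i, x i = a 0 i) ∨ (∀ i, x i = a 5 i) ∨
    ∃ j : Fin 8, (j = 1 ∨ j = 2 ∨ j = 3 ∨ j = 4) ∧ 0 < sv true x j := by decide +kernel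
theorem fa2 : ∀ x ∈ posL, Sp 6 x → x 0 + x 5 = 2 → (∀ i, sg true x i = x i) → (∀ i, x i = ts i) ∨
    ∃ j : Fin 8, (j = 1 ∨ j = 2 ∨ j = 3 ∨ j = 4) ∧ 0 < sv true x j := by decide +kernel
theorem fa2' : ∀ x ∈ posL, Sp 6 x → 1 < x 0 + x 5 → x 0 + x 5 = 2 ∧ ((∀ i, sg true x i = x i) ∨
    (∀ i, x i = k0 i) ∨ ∀ i, x i = k1 i) := by decide +kernel
theorem fa3 : ∀ x ∈ posL, Sp 6 x → 0 < x 0 + x 5 → (∀ i, x i = a 0 i) ∨ (∀ i, x i = a 5 i) ∨
    1 ≤ x 2 + x 4 := by decide +kernel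
theorem fa4 : ∀ x ∈ posL, Sp 6 x → 1 < x 0 + x 5 → (∀ i, x i = ts i) ∨ 1 ≤ x 1 := by decide +kernel

def crd (i : Fin 8) : Lat →+ ℤ := AddMonoidHom.mk' (fun x => x i) fun _ _ => rfl

theorem crd_apply (i : Fin 8) (x : Lat) : crd i x = x i := rfl

theorem eps_ne (x y : Lat) : (eps x y : K) ≠ 0 := fun h => by
  have := eps_cast_mul_self (R := K) x y; rw [h] at this; simp at this

theorem rt {x : Lat} (h : ipx x x = 2) : ip x x = 2 := by rw [ip_x, h]

theorem van_X0 (l : Lat →+ ℤ) (k : ℤ) {α : Lat} (hα : ip α α = 2) (h : l α = 0) (t : K) {v : L K}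
    (hv : van (fun β => l β ≤ k) v) : van (fun β => l β ≤ k) (X α t v) := by
  simpa using (van_X hα (fun _ h => h) (fun β hβ => by rw [map_sub]; omega) t hv).add hv

def wa (x : Lat) : Lat :=
  v8 (-x 5) (x 1 - x 0 - x 5) (x 4 - x 0 - 2 * x 5) (x 3 - 2 * x 0 - 2 * x 5) (x 2 - 2 * x 0 - x 5)
    (-x 0) 0 0

namespace Cfg

variable {c : Cfg K}

theorem R6 (hb : c.b = true) {x : Lat} (h : ipx x x = 2 ∧ Sp 6 x) : c.R x :=
  ⟨rt h.1, n6_of_b hb ▸ h.2⟩

theorem test_co (l : Lat →+ ℤ) (k : ℤ) {ζ : Lat} (hζ : c.R ζ) (h1 : l ζ = 0)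
    (h2 : l (sg c.b ζ) = 0) {A : Lat → Prop} (hA : ∀ α, A α → ip α α = 2 → 1 ≤ l α) {u : Aut K}
    (hu : u ∈ Ucl K A) {x x0 : L K} (hx : van (fun β => l β < k) x)
    (hx0 : van (fun β => l β ≤ k) (x - x0)) (t : K) {β : Lat} (hβ : l β ≤ k) :
    co β ((c.Y ζ t * u) x) = co β (c.Y ζ t x0) := by
  have h3 := (van_lin l k hA hx hu).add hx0
  rw [sub_add_sub_cancel] at h3
  have h4 : van (fun β => l β ≤ k) (c.Y ζ t (u x - x0)) := by
    unfold Y; split_ifs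
    · exact van_X0 l k hζ.1 h1 t h3
    · exact van_X0 l k hζ.1 h1 t (van_X0 l k hζ.sg.1 h2 _ h3)
  have := h4.1 β hβ
  rwa [map_sub, map_sub, sub_eq_zero] at this

theorem Y_e_two (hτ : ∀ t, c.τ t = t) {ζ β : Lat} (hζ : c.R ζ) (hm : sg c.b ζ ≠ ζ)
    (hβ : ip β β = 2) (h1 : ip ζ β = -1) (h2 : ip (sg c.b ζ) β = -1) :
    ∃ p q r : K, r ≠ 0 ∧ ∀ t, c.Y ζ t (e β) = e β + (t * p) • e (ζ + β)
      + (t * q) • e (sg c.b ζ + β) + (t ^ 2 * r) • e (ζ + (sg c.b ζ + β)) := by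
  refine ⟨eps ζ β, eps (sg c.b ζ) β, eps (sg c.b ζ) β * eps ζ (sg c.b ζ + β),
    mul_ne_zero (eps_ne _ _) (eps_ne _ _), fun t => ?_⟩
  rw [Y_mov hm, hτ, LinearEquiv.mul_apply, X_e_m1 hζ.sg.1 hβ h2, map_add, map_smul,
    X_e_m1 hζ.1 hβ h1, X_e_m1 hζ.1 ((root_add hζ.sg.1 hβ).2 h2)
      (by rw [ip_add_right, hζ.orth hm, h1]; rfl)]
  module

theorem Mon.triv_of {m : Aut K} {w : W} (h : c.Mon m w)
    (h1 : ∀ i : Fin 8, i.1 < c.n → m (e (a i)) = e (a i)) : c.Triv m := by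
  refine fun v hv => gen_fix h.aut (fun i hi => ⟨h1 i hi, ?_⟩) hv
  obtain ⟨s, hs, h2⟩ := h.mono _ (root_a i)
  have h3 := (e_inj (h.root (root_a i)) hs (h2.symm.trans ((h1 i hi).trans (one_smul _ _).symm))).1
  rw [h.neg_of (root_a i) (s := 1) (by rw [h3, h1 i hi, one_smul]), h3, inv_one, one_smul]

structure FA (c : Cfg K) (w : W) : Prop where
  hb : c.b = true
  hτ : ∀ t, c.τ t = t
  j0 : c.Jw w 0 = false
  j1 : c.Jw w 1 = true
  j2 : c.Jw w 2 = true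
  j3 : c.Jw w 3 = true
  j4 : c.Jw w 4 = true
  j5 : c.Jw w 5 = false
  w2 : w (a 2) = a 4
  w4 : w (a 4) = a 2
  w0 : w (a 0) = -v8 0 1 1 2 2 1 0 0

theorem FA.hout {w : W} (F : FA c w) {x : Lat} (hx : Sp c.n x) :
    hout (c.Jw w) x = x 0 + x 5 := by
  rw [n6_of_b F.hb] at hx
  rw [Exc.hout, F.j0, F.j1, F.j2, F.j3, F.j4, F.j5, hx 6 (by decide), hx 7 (by decide)]
  simp

theorem FA.mem {w : W} (F : FA c w) {x : Lat} (hx : ip x x = 2) (hs : Sp c.n x)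
    (h : 0 < Exc.hout (c.Jw w) x) : x ∈ posL ∧ Sp 6 x :=
  ⟨mem_posL hx (pos_of_hout hx h), n6_of_b F.hb ▸ hs⟩

theorem FA.J {w : W} (F : FA c w) {j : Fin 8} (h : j = 1 ∨ j = 2 ∨ j = 3 ∨ j = 4) :
    c.Jw w j = true := by
  rcases h with rfl | rfl | rfl | rfl
  exacts [F.j1, F.j2, F.j3, F.j4]

theorem FA.w_eq {m u : Aut K} {w : W} (F : FA c w) (H : c.MP m w u) {x : Lat} (hx : Sp 6 x) :
    w x = wa x := by
  have h1 := H.w_fix F.j1 (by rw [F.hb]; rfl)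
  have h3 := H.w_fix F.j3 (by rw [F.hb]; rfl)
  have h5 := H.mon.sg (R6 F.hb (x := a 0) (by decide))
  rw [F.hb, F.w0, show sg true (a 0) = a 5 by decide] at h5
  rw [lat_sum x]
  simp only [map_add, map_smul, h1, h3, h5, F.w0, F.w2, F.w4, hx 6 (by decide), hx 7 (by decide),
    zero_smul]
  apply lat_ext <;> simp [wa, a, v8, sg, pm] <;> ring

theorem FA.gf_e {m u : Aut K} {w : W} (F : FA c w) (H : c.MP m w u) (ν μ : Lat)
    (h : ipx ν ν = 2 ∧ Sp 6 μ ∧ wa μ = -ν) :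
    ∃ s : K, s ≠ 0 ∧ ∀ v, gf (e ν) (m v) = s * co μ v := by
  obtain ⟨s, hs, h1⟩ := H.mon.gf_e (rt h.1)
  refine ⟨s, hs, fun v => ?_⟩
  rw [h1, ← map_neg, ← h.2.2, ← F.w_eq H h.2.1, W_inv_app]

theorem FA.T1 {m u : Aut K} {w : W} (F : FA c w) (H : c.MP m w u) (hq : c.QL (m * u)) :
    c.Good m (m * u) (a 0) := by
  intro u' hu' hc
  have H' := H.of_cj hu' hc
  have hb := F.hb
  have hζ := R6 hb (x := a 0) (by decide)
  have hs : sg c.b (a 0) = a 5 := by rw [hb]; decide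
  have l0 : Exc.hout (c.Jw w) (a 0) = 1 := by rw [F.hout hζ.2]; rfl
  have l5 : Exc.hout (c.Jw w) (a 5) = 1 := by rw [F.hout (hs ▸ hζ.sg.2)]; rfl
  obtain ⟨t, _, ⟨u1, h1, h2⟩, h3⟩ := peelY (houtL (c.Jw w)) hζ
    (A := fun β => Sp c.n β ∧ 0 < Exc.hout (c.Jw w) β ∧ β ≠ a 0 ∧ β ≠ a 5)
    (by rw [houtL_apply, l0]; omega) (by rw [hs, houtL_apply, houtL_apply, l0, l5])
    (fun β h _ => by rw [hs]; tauto) (fun β h hβ => by
      have k : ∀ ζ, Sp c.n ζ → Exc.hout (c.Jw w) ζ = 1 → Sp c.n (ζ + β) ∧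
          0 < Exc.hout (c.Jw w) (ζ + β) ∧ ζ + β ≠ a 0 ∧ ζ + β ≠ a 5 := fun ζ h1 h2 => by
        have h3 := map_add (houtL (c.Jw w)) ζ β
        have h4 := h.2.1
        simp only [houtL_apply] at h3
        exact ⟨h1.add h.1, by omega, fun h5 => by rw [h5] at h3; omega,
          fun h5 => by rw [h5] at h3; omega⟩
      rw [hs, houtL_apply, houtL_apply, l0]
      exact ⟨h.2.1, h.2.2.1, h.2.2.2, fun _ => k _ hζ.2 l0, fun _ => k _ (hs ▸ hζ.sg.2) l5⟩)
    (U_G hu') H'.b1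
  suffices t = 0 by ext i; rw [h3, this]; simp
  have hz := R6 hb (x := v8 1 0 1 1 1 0 0 0) (by decide)
  have hts := R6 hb (x := -ts) (by decide)
  obtain ⟨p, q, r, hr, h4⟩ := Y_e_two F.hτ hz (by rw [hb]; decide) hts.1 (by rw [ip_x]; decide)
    (by rw [hb, ip_x]; decide)
  have h5 := hc.QL hq _ ((orb_long hts (by rw [hb]; decide)).app (Y_mem hz (Al_one _)))
  obtain ⟨p', q', r', hr', h6⟩ := Y_e_two F.hτ hζ (by rw [hb]; decide) hts.1
    (by rw [ip_x]; decide) (by rw [hb, ip_x]; decide)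
  rw [hb] at h4 h6
  rw [show v8 1 0 1 1 1 0 0 0 + -ts = -a 5 by decide,
    show sg true (v8 1 0 1 1 1 0 0 0) + -ts = -a 0 by decide,
    show v8 1 0 1 1 1 0 0 0 + -a 0 = v8 0 0 1 1 1 0 0 0 by decide] at h4
  have h7 : ∀ β, (crd 2 + crd 4) β ≤ -2 → co β (u' (c.Y (v8 1 0 1 1 1 0 0 0) 1 (e (-ts)))) =
      co β (c.Y (a 0) t (e (-ts))) := fun β hβ => by
    rw [h2]
    refine test_co (crd 2 + crd 4) (-2) hζ rfl (by rw [hs]; rfl) (fun α h hα => ?_) h1 ?_ ?_ t hβ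
    · obtain ⟨k1, k2⟩ := F.mem hα h.1 h.2.1
      rcases fa3 α k1 k2 (F.hout h.1 ▸ h.2.1) with k | k | k
      · exact absurd (funext k) h.2.2.1
      · exact absurd (funext k) h.2.2.2
      · exact k
    · rw [h4]
      exact (((van_e (by decide)).add ((van_e (by decide)).smul _)).add
        ((van_e (by decide)).smul _)).add ((van_e (by decide)).smul _)
    · rw [h4, add_assoc, add_assoc, add_sub_cancel_left]
      exact ((van_e (by decide)).smul _).add (((van_e (by decide)).smul _).add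
        ((van_e (by decide)).smul _))
  obtain ⟨s1, _, g1⟩ := F.gf_e H (-ts) (-th 6) (by decide)
  obtain ⟨s2, _, g2⟩ := F.gf_e H (-a 5) (-v8 1 1 2 2 1 0 0 0) (by decide)
  obtain ⟨s3, _, g3⟩ := F.gf_e H (-a 0) (-v8 0 1 1 2 2 1 0 0) (by decide)
  obtain ⟨s4, hs4, g4⟩ := F.gf_e H (v8 0 0 1 1 1 0 0 0) (-v8 0 0 1 1 1 0 0 0) (by decide)
  rw [LinearEquiv.mul_apply] at h5
  generalize u' (c.Y (v8 1 0 1 1 1 0 0 0) 1 (e (-ts))) = y at h5 h7
  rw [h4] at h5
  simp only [map_add, map_smul, LinearMap.add_apply, LinearMap.smul_apply, g1, g2, g3, g4] at h5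
  rw [h7 _ (by decide), h7 _ (by decide), h7 _ (by decide), h7 _ (by decide), h6,
    show a 0 + (sg true (a 0) + -ts) = -v8 0 0 1 1 1 0 0 0 by decide] at h5
  simp only [map_add, map_smul, co_e_self (rt (x := -v8 0 0 1 1 1 0 0 0) (by decide))] at h5
  repeat rw [co_e_ne (by decide)] at h5
  simpa [hr, hr', hs4] using h5

theorem FA.lev1 {m u : Aut K} {w : W} (F : FA c w) (H : c.MP m w u) (hq : c.QL (m * u)) :
    u ∈ Ucl K (fun β => Sp c.n β ∧ 1 < Exc.hout (c.Jw w) β) := by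
  refine peel_all (c := c) (houtL (c.Jw w)) 1 (fun ζ hζ h1 h2 => ?_) H.b1
  rw [houtL_apply] at h1 h2
  refine H.good_ind' _ one_pos (fun β hβ h0 h3 _ => ?_) hζ (by push_cast at h2; omega) Iff.rfl u
    H.mem (Cj.refl _)
  obtain ⟨k1, k2⟩ := F.mem hβ.1 hβ.2 (by omega)
  rcases fa1 β k1 k2 (F.hout hβ.2 ▸ h3) with k | k | ⟨j, hj, k⟩
  · left; rw [show β = a 0 from funext k]; exact F.T1 H hq
  · left; rw [show β = a 5 from funext k]
    have := (F.T1 H hq).sg (R6 F.hb (by decide))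
    rwa [F.hb, show sg true (a 0) = a 5 by decide] at this
  · exact Or.inr ⟨j, F.J hj, F.hb ▸ k⟩

theorem FA.T2 {m u : Aut K} {w : W} (F : FA c w) (H : c.MP m w u) (hq : c.QL (m * u)) :
    c.Good m (m * u) ts := by
  intro u' hu' hc
  have H' := H.of_cj hu' hc
  have hb := F.hb
  have hζ := R6 hb (x := ts) (by decide)
  have hs : sg c.b ts = ts := by rw [hb]; decide
  have l0 : Exc.hout (c.Jw w) ts = 2 := by rw [F.hout hζ.2]; rfl
  obtain ⟨t, _, ⟨u1, h1, h2⟩, h3⟩ := peelY (houtL (c.Jw w)) hζ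
    (A := fun β => Sp c.n β ∧ 1 < Exc.hout (c.Jw w) β ∧ β ≠ ts)
    (by rw [houtL_apply, l0]; omega) (by rw [hs])
    (fun β h _ => by rw [hs]; tauto) (fun β h hβ => by
      have h3 := map_add (houtL (c.Jw w)) ts β
      have h4 := h.2.1
      simp only [houtL_apply] at h3
      have k : Sp c.n (ts + β) ∧ 1 < Exc.hout (c.Jw w) (ts + β) ∧ ts + β ≠ ts :=
        ⟨hζ.2.add h.1, by omega, fun h5 => by rw [h5] at h3; omega⟩
      rw [hs, houtL_apply, houtL_apply, l0]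
      exact ⟨h.2.1, h.2.2, h.2.2, fun _ => k, fun _ => k⟩)
    (U_G hu') (F.lev1 H' (hc.QL hq))
  suffices t = 0 by ext i; rw [h3, this]; simp
  have hz := k0_R hb
  obtain ⟨p, q, r, hr, h4⟩ := Y_e_two F.hτ hz (k0_mov hb) hζ.neg.1 (by rw [ip_x]; decide)
    (by rw [hb, ip_x]; decide)
  have h5 := hc.QL hq _ ((orb_long hζ.neg (by rw [hb]; decide)).app (Y_mem hz (Al_one _)))
  rw [hb] at h4
  rw [show k0 + -ts = et by decide, show sg true k0 + -ts = eu by decide,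
    show k0 + eu = th 6 by decide] at h4
  have h7 : ∀ β, crd 1 β ≤ 0 → co β (u' (c.Y k0 1 (e (-ts)))) =
      co β (c.Y ts t (e (-ts))) := fun β hβ => by
    rw [h2]
    refine test_co (crd 1) 0 hζ rfl (by rw [hs]; rfl) (fun α h hα => ?_) h1 ?_ ?_ t hβ
    · obtain ⟨k1, k2⟩ := F.mem hα h.1 (by have := h.2.1; omega)
      exact (fa4 α k1 k2 (F.hout h.1 ▸ h.2.1)).resolve_left fun k => h.2.2 (funext k)
    · rw [h4]
      exact (((van_e (by decide)).add ((van_e (by decide)).smul _)).add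
        ((van_e (by decide)).smul _)).add ((van_e (by decide)).smul _)
    · rw [h4, add_assoc, add_assoc, add_sub_cancel_left]
      exact ((van_e (by decide)).smul _).add (((van_e (by decide)).smul _).add
        ((van_e (by decide)).smul _))
  obtain ⟨s1, _, g1⟩ := F.gf_e H (-ts) (-th 6) (by decide)
  obtain ⟨s2, _, g2⟩ := F.gf_e H et (-eu) (by decide)
  obtain ⟨s3, _, g3⟩ := F.gf_e H eu (-et) (by decide)
  obtain ⟨s4, hs4, g4⟩ := F.gf_e H (th 6) ts (by decide)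
  rw [LinearEquiv.mul_apply] at h5
  generalize u' (c.Y k0 1 (e (-ts))) = y at h5 h7
  rw [h4] at h5
  simp only [map_add, map_smul, LinearMap.add_apply, LinearMap.smul_apply, g1, g2, g3, g4] at h5
  rw [h7 _ (by decide), h7 _ (by decide), h7 _ (by decide), h7 _ (by decide), Y_fix hs,
    X_e_m2 hζ.1] at h5
  simp only [map_add, map_sub, map_smul, co_e_self hζ.1, co_hv] at h5
  repeat rw [co_e_ne (by decide)] at h5
  simpa [hr, hs4] using h5

theorem FA.T3 {m u : Aut K} {w : W} (F : FA c w) (H : c.MP m w u) (hq : c.QL (m * u)) : u = 1 := by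
  have hb := F.hb
  have hz := k0_R hb
  have hs : sg c.b k0 = k1 := by rw [hb]; decide
  have l0 : Exc.hout (c.Jw w) k0 = 2 := by rw [F.hout hz.2]; rfl
  have l1 : Exc.hout (c.Jw w) k1 = 2 := by rw [F.hout (hs ▸ hz.sg.2)]; rfl
  have h0 : u ∈ Ucl K (fun β => β = k0 ∨ β = k1) := by
    refine peel_level (c := c) (houtL (c.Jw w)) two_pos (fun β h _ => ?_) (fun β h h' => ?_)
      (fun ζ h hζ h' => ?_) (F.lev1 H hq)
    · rw [houtL_apply]
      rcases h with (rfl | rfl) | h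
      · exact ⟨hz.2, l0.ge⟩
      · exact ⟨hs ▸ hz.sg.2, l1.ge⟩
      · exact h
    · rw [houtL_apply] at h'
      obtain ⟨k1, k2⟩ := F.mem h.1 h.2 (by omega)
      have := (fa2' β k1 k2 (by rw [← F.hout h.2]; omega)).1
      rw [← F.hout h.2] at this; omega
    · obtain ⟨k1, k2⟩ := F.mem hζ h.1 (by have := h.2; omega)
      obtain ⟨k3, k4⟩ := fa2' ζ k1 k2 (F.hout h.1 ▸ h.2)
      have k5 : sg c.b ζ = ζ := by
        rw [hb]
        exact funext (k4.resolve_right fun k => h' (k.imp funext funext))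
      refine H.good_ind' True two_pos (fun β hβ h0 h3 h4 => ?_) ⟨hζ, h.1⟩ (F.hout h.1 ▸ k3)
        (iff_true_intro k5) u H.mem (Cj.refl _)
      obtain ⟨k1, k2⟩ := F.mem hβ.1 hβ.2 (by omega)
      rw [hb] at h4
      rcases fa2 β k1 k2 (F.hout hβ.2 ▸ h3) (congrFun (h4.2 trivial)) with k | ⟨j, hj, k⟩
      · left; rw [show β = ts from funext k]; exact F.T2 H hq
      · exact Or.inr ⟨j, F.J hj, hb ▸ k⟩
  obtain ⟨t, _, ⟨u1, h1, h2⟩, _⟩ := peelY (houtL (c.Jw w)) hz (A := fun _ => False)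
    (by rw [houtL_apply, l0]; omega) (by rw [hs, houtL_apply, houtL_apply, l0, l1])
    (fun β h _ => by rw [hs]; exact Or.inr h) (fun β h => h.elim) (U_G H.mem) h0
  rw [Ucl_empty (fun _ h _ => h) h1, mul_one] at h2
  suffices t = 0 by rw [h2, this, Y_zero]
  have hζ := R6 hb (x := ts) (by decide)
  have hf : sg c.b ts = ts := by rw [hb]; decide
  have h5 := hq _ ((orb_long hζ.neg (by rw [hb]; decide)).app (Y_mem hζ (Al_one _)))
  obtain ⟨p, q, r, hr, h4⟩ := Y_e_two F.hτ hz (k0_mov hb) hζ.neg.1 (by rw [ip_x]; decide)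
    (by rw [hb, ip_x]; decide)
  rw [hb, show k0 + -ts = et by decide, show sg true k0 + -ts = eu by decide,
    show k0 + eu = th 6 by decide] at h4
  have hk1 : ip k1 k1 = 2 := rt (by decide)
  have h6 : c.Y k0 t (Exc.hv ts) = Exc.hv ts - t • e k0 - t • e k1 := by
    rw [Y_mov (k0_mov hb), hs, F.hτ, LinearEquiv.mul_apply, X_hv hk1, map_sub, map_smul, X_hv hz.1,
      X_e_nn hz.1 hk1 (by rw [ip_x]; decide), show ip ts k0 = 1 by rw [ip_x]; decide,
      show ip ts k1 = 1 by rw [ip_x]; decide]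
    simp
  have h7 : c.Y k0 t (e ts) = e ts := by
    rw [Y_mov (k0_mov hb), hs, LinearEquiv.mul_apply, X_e_nn hk1 hζ.1 (by rw [ip_x]; decide),
      X_e_nn hz.1 hζ.1 (by rw [ip_x]; decide)]
  obtain ⟨s1, _, g1⟩ := F.gf_e H (-ts) (-th 6) (by decide)
  obtain ⟨s2, hs2, g2⟩ := F.gf_e H ts (th 6) (by decide)
  have g3 : ∀ v, gf (Exc.hv ts) (m v) = gf (Exc.hv (-th 6)) v := fun v => by
    rw [← H.mon.aut.2 _ v, H.mon.hv (rt (by decide)), F.w_eq H (by decide),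
      show wa (-th 6) = ts by decide]
  rw [Y_fix hf, X_e_m2 hζ.1, LinearEquiv.mul_apply, h2] at h5
  simp only [map_add, map_sub, map_smul, LinearMap.add_apply, LinearMap.sub_apply,
    LinearMap.smul_apply, g1, g2, g3, h4, h6, h7, gf_hv_e, gf_hv_hv, co_hv,
    co_e_self (rt (x := th 6) (by decide)), show ip (-th 6) ts = 0 by rw [ip_x]; decide] at h5
  repeat rw [co_e_ne (by decide)] at h5
  simpa [hr, hs2] using h5

theorem FA.sq {m u : Aut K} {w : W} (F : FA c w) (H : c.MP m w u) : c.Triv (m * m) := by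
  have hb := F.hb
  have e1 := H.e_J F.j1
  have e2 := H.e_J F.j2
  have e3 := H.e_J F.j3
  have e4 := H.e_J F.j4
  rw [H.w_fix F.j1 (by rw [hb]; rfl)] at e1
  rw [H.w_fix F.j3 (by rw [hb]; rfl)] at e3
  rw [F.w2] at e2
  rw [F.w4] at e4
  have h0 := R6 hb (x := a 0) (by decide)
  obtain ⟨s, hs, e0⟩ := H.mon.mono _ h0.1
  have e5 := H.mon.e_sg h0 e0
  rw [F.w0] at e0 e5
  rw [F.hτ, hb] at e5
  have A := H.mon.aut
  have c1 := aut_step A (root_a _) (rt (by decide)) (root_a _) (rt (by decide))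
    (by rw [ip_x]; decide) (by rw [ip_x]; decide) e4 e5
  have c2 := aut_step A (root_a _) (rt (by decide)) (root_a _) (rt (by decide))
    (by rw [ip_x]; decide) (by rw [ip_x]; decide) e3 c1
  have c3 := aut_step A (root_a _) (rt (by decide)) (root_a _) (rt (by decide))
    (by rw [ip_x]; decide) (by rw [ip_x]; decide) e1 c2
  have c4 := aut_step A (root_a _) (rt (by decide)) (root_a _) (rt (by decide))
    (by rw [ip_x]; decide) (by rw [ip_x]; decide) e2 c3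
  have c5 := aut_step A (root_a _) (rt (by decide)) (root_a _) (rt (by decide))
    (by rw [ip_x]; decide) (by rw [ip_x]; decide) e3 c4
  have c6 := aut_step A (root_a _) (rt (by decide)) (root_a _) (rt (by decide))
    (by rw [ip_x]; decide) (by rw [ip_x]; decide) e4 c5
  simp only [mul_assoc, ← Int.cast_mul, eps_x] at c6
  rw [show a 4 + (a 3 + (a 2 + (a 1 + (a 3 + (a 4 + sg true (a 0)))))) = v8 0 1 1 2 2 1 0 0 by decide,
    show a 2 + (a 3 + (a 4 + (a 1 + (a 3 + (a 2 + sg true (-v8 0 1 1 2 2 1 0 0)))))) =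
      wa (v8 0 1 1 2 2 1 0 0) by decide, ← F.w_eq H (by decide)] at c6
  have c7 := H.mon.neg_of (rt (by decide)) c6
  rw [F.w_eq H (by decide), show -wa (v8 0 1 1 2 2 1 0 0) = a 0 by decide] at c7
  have c8 : (m * m) (e (a 0)) = e (a 0) := by
    rw [LinearEquiv.mul_apply, e0, map_smul, c7, smul_smul]
    generalize hz : (_ * _ : ℤ) = z
    obtain rfl : z = 1 := by rw [← hz]; decide
    simp [hs]
  have hM := H.mon.mul H.mon
  have c9 := hM.e_sg h0 (s := 1) (by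
    rw [c8, one_smul, LinearEquiv.mul_apply, F.w0, F.w_eq H (by decide),
      show wa (-v8 0 1 1 2 2 1 0 0) = a 0 by decide])
  rw [LinearEquiv.mul_apply w, F.w0, F.w_eq H (by decide), F.hτ, one_smul, hb,
    show wa (-v8 0 1 1 2 2 1 0 0) = a 0 by decide, show sg true (a 0) = a 5 by decide] at c9
  refine hM.triv_of fun i hi => ?_
  rw [n6_of_b hb] at hi
  fin_cases i
  · exact c8
  · change m (m (e (a 1))) = _; rw [e1, e1]; rfl
  · change m (m (e (a 2))) = _; rw [e2, e4]; rfl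
  · change m (m (e (a 3))) = _; rw [e3, e3]; rfl
  · change m (m (e (a 4))) = _; rw [e4, e2]; rfl
  · exact c9
  · exact absurd hi (by decide)
  · exact absurd hi (by decide)

end Cfg

end Pool.Agent.MP_db74b1_al.Exc
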