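import Pool.Agent.MP_db74b1_al.ExcF4a

set_option autoImplicit false

namespace Pool.Agent.MP_db74b1_al.Exc

variable {K : Type} [Field K]

theorem fb0' : ∀ x ∈ posL, Sp 6 x → x 1 = 1 ∧ cv x 0 = 0 ∧ cv x 2 = 0 → cv x 3 = 1 ∧ cv x 4 = 0 ∧
    cv x 5 = 0 → ∀ i, x i = v8 1 1 2 3 2 1 0 0 i := by decide +kernel
theorem fb0 : ∀ x ∈ posL, Sp 6 x → x 1 = 1 → cv x 0 = 0 → cv x 2 = 0 → cv x 3 = 1 → cv x 4 = 0 →
    cv x 5 = 0 → ∀ i, x i = v8 1 1 2 3 2 1 0 0 i :=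
  fun x hx hs h1 h2 h3 h4 h5 h6 => fb0' x hx hs ⟨h1, h2, h3⟩ ⟨h4, h5, h6⟩
theorem fb1 : ∀ x ∈ posL, Sp 6 x → x 1 = 1 → (∀ i, sg true x i = x i) → (∀ i, x i = a 1 i) ∨
    ∃ j : Fin 8, (j = 0 ∨ j = 2 ∨ j = 3 ∨ j = 4 ∨ j = 5) ∧ 0 < sv true x j := by decide +kernel
theorem fb2 : ∀ x ∈ posL, Sp 6 x → x 1 = 1 → (∀ i, sg true x i = x i) ∨ (∀ i, x i = et i) ∨
    (∀ i, x i = eu i) ∨
    ∃ j : Fin 8, (j = 0 ∨ j = 2 ∨ j = 3 ∨ j = 4 ∨ j = 5) ∧ 0 < sv true x j := by decide +kernel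
theorem fb3 : ∀ x ∈ posL, Sp 6 x → 1 < x 1 → ∀ i, x i = th 6 i := by decide +kernel
theorem fb4 : ∀ x ∈ posL, Sp 6 x → 0 < x 1 → (∀ i, x i = a 1 i) ∨ 1 ≤ x 3 := by decide +kernel
theorem fb5 : ∀ x ∈ posL, Sp 6 x → 0 < x 1 → (1 < x 1 ∨ ¬ ∀ i, sg true x i = x i) →
    (∀ i, x i = et i) ∨ (∀ i, x i = eu i) ∨ 1 ≤ x 0 + x 5 := by decide +kernel

def wb (x : Lat) : Lat := x - x 1 • th 6

theorem gf_ee {α β : Lat} (hα : ip α α = 2) (h : -α ≠ β) : gf (e α : L K) (e β) = 0 := by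
  rw [gf_e hα, co_e_ne h]

namespace Cfg

variable {c : Cfg K}

structure FB (c : Cfg K) (w : W) : Prop where
  hb : c.b = true
  hτ : ∀ t, c.τ t = t
  j0 : c.Jw w 0 = true
  j1 : c.Jw w 1 = false
  j2 : c.Jw w 2 = true
  j3 : c.Jw w 3 = true
  j4 : c.Jw w 4 = true
  j5 : c.Jw w 5 = true

theorem FB.hout {w : W} (F : FB c w) {x : Lat} (hx : Sp c.n x) : hout (c.Jw w) x = x 1 := by
  rw [n6_of_b F.hb] at hx
  rw [Exc.hout, F.j0, F.j1, F.j2, F.j3, F.j4, F.j5, hx 6 (by decide), hx 7 (by decide)]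
  simp

theorem FB.mem {w : W} (F : FB c w) {x : Lat} (hx : ip x x = 2) (hs : Sp c.n x)
    (h : 0 < Exc.hout (c.Jw w) x) : x ∈ posL ∧ Sp 6 x :=
  ⟨mem_posL hx (pos_of_hout hx h), n6_of_b F.hb ▸ hs⟩

theorem FB.J {w : W} (F : FB c w) {j : Fin 8} (h : j = 0 ∨ j = 2 ∨ j = 3 ∨ j = 4 ∨ j = 5) :
    c.Jw w j = true := by
  rcases h with rfl | rfl | rfl | rfl | rfl
  exacts [F.j0, F.j2, F.j3, F.j4, F.j5]

theorem FB.w_eq {m u : Aut K} {w : W} (F : FB c w) (H : c.MP m w u) {x : Lat} (hx : Sp 6 x) :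
    w x = wb x := by
  obtain ⟨h0, h2, h4, h5⟩ := H.no_swap F.hb (n6_of_b F.hb) F.j0 F.j2
  have h3 := H.w_fix F.j3 (by rw [F.hb]; rfl)
  have hR := R6 F.hb (x := a 1) (by decide)
  have l1 : Exc.hout (c.Jw w) (a 1) = 1 := by rw [F.hout hR.2]; rfl
  obtain ⟨k1, k2, k3, _, _⟩ := H.phi hR (by omega)
  have h1 : w (a 1) = -v8 1 1 2 3 2 1 0 0 := neg_eq_iff_eq_neg.1 (funext (fb0 _ (mem_posL k1.1 k2)
    (n6_of_b F.hb ▸ k1.2) (by rw [← F.hout k1.2, k3, l1])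
    (by rw [← ip_a, ← h0, ip_neg_left, H.mon.iso, ip_a]; rfl)
    (by rw [← ip_a, ← h2, ip_neg_left, H.mon.iso, ip_a]; rfl)
    (by rw [← ip_a, ← h3, ip_neg_left, H.mon.iso, ip_a]; rfl)
    (by rw [← ip_a, ← h4, ip_neg_left, H.mon.iso, ip_a]; rfl)
    (by rw [← ip_a, ← h5, ip_neg_left, H.mon.iso, ip_a]; rfl)))
  rw [lat_sum x]
  simp only [map_add, map_smul, h0, h1, h2, h3, h4, h5, hx 6 (by decide), hx 7 (by decide),
    zero_smul]
  apply lat_ext <;> simp [wb, a, v8, th] <;> ring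

theorem FB.gf_e {m u : Aut K} {w : W} (F : FB c w) (H : c.MP m w u) (ν μ : Lat)
    (h : ipx ν ν = 2 ∧ Sp 6 μ ∧ wb μ = -ν) :
    ∃ s : K, s ≠ 0 ∧ ∀ v, gf (e ν) (m v) = s * co μ v := by
  obtain ⟨s, hs, h1⟩ := H.mon.gf_e (rt h.1)
  refine ⟨s, hs, fun v => ?_⟩
  rw [h1, ← map_neg, ← h.2.2, ← F.w_eq H h.2.1, W_inv_app]

theorem FB.T4 {m u : Aut K} {w : W} (F : FB c w) (H : c.MP m w u) (hq : c.QS (m * u)) :
    c.Good m (m * u) (a 1) := by
  intro u' hu' hc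
  have H' := H.of_cj hu' hc
  have hb := F.hb
  have hζ := R6 hb (x := a 1) (by decide)
  have hs : sg c.b (a 1) = a 1 := by rw [hb]; decide
  have l0 : Exc.hout (c.Jw w) (a 1) = 1 := by rw [F.hout hζ.2]; rfl
  obtain ⟨t, _, ⟨u1, h1, h2⟩, h3⟩ := peelY (houtL (c.Jw w)) hζ
    (A := fun β => Sp c.n β ∧ 0 < Exc.hout (c.Jw w) β ∧ β ≠ a 1)
    (by rw [houtL_apply, l0]; omega) (by rw [hs])
    (fun β h _ => by rw [hs]; tauto) (fun β h hβ => by
      have h3 := map_add (houtL (c.Jw w)) (a 1) β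
      have h4 := h.2.1
      simp only [houtL_apply] at h3
      have k : Sp c.n (a 1 + β) ∧ 0 < Exc.hout (c.Jw w) (a 1 + β) ∧ a 1 + β ≠ a 1 :=
        ⟨hζ.2.add h.1, by omega, fun h5 => by rw [h5] at h3; omega⟩
      rw [hs, houtL_apply, houtL_apply, l0]
      exact ⟨h.2.1, h.2.2, h.2.2, fun _ => k, fun _ => k⟩)
    (U_G hu') H'.b1
  suffices t = 0 by ext i; rw [h3, this]; simp
  have hδ := R6 hb (x := v8 0 0 1 1 0 0 0 0) (by decide)
  have hδ' := R6 hb (x := v8 0 0 0 1 1 0 0 0) (by decide)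
  have hl := R6 hb (x := v8 1 1 1 1 1 1 0 0) (by decide)
  have h5 := hc.QS hb hq _ ((orb_short hb hδ (by rw [hb]; decide)).app (Y_mem hl (Al_one _)))
  rw [Y_fix (by rw [hb]; decide), X_e_m1 hl.1 hδ.1 (by rw [ip_x]; decide),
    show v8 1 1 1 1 1 1 0 0 + v8 0 0 1 1 0 0 0 0 = k0 by decide, map_add c.st, map_smulₛₗ c.st,
    st_e hδ.2, st_e (k0_R hb).2, F.hτ, hb, show sg true k0 = k1 by decide,
    show sg true (v8 0 0 1 1 0 0 0 0) = v8 0 0 0 1 1 0 0 0 by decide] at h5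
  have hr : (1 * eps (v8 1 1 1 1 1 1 0 0) (v8 0 0 1 1 0 0 0 0) : K) ≠ 0 := by simp [eps_ne]
  generalize (1 * eps (v8 1 1 1 1 1 1 0 0) (v8 0 0 1 1 0 0 0 0) : K) = r at h5 hr
  have h7 : ∀ β, crd 3 β ≤ 1 → co β (u' (e (v8 0 0 1 1 0 0 0 0) + r • e k0 -
      (e (v8 0 0 0 1 1 0 0 0) + r • e k1))) =
      co β (c.Y (a 1) t (e (v8 0 0 1 1 0 0 0 0) - e (v8 0 0 0 1 1 0 0 0))) := fun β hβ => by
    rw [h2]
    refine test_co (crd 3) 1 hζ rfl (by rw [hs]; rfl) (fun α h hα => ?_) h1 ?_ ?_ t hβ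
    · obtain ⟨k1, k2⟩ := F.mem hα h.1 h.2.1
      exact (fb4 α k1 k2 (F.hout h.1 ▸ h.2.1)).resolve_left fun k => h.2.2 (funext k)
    · exact ((van_e (by decide)).add ((van_e (by decide)).smul _)).sub
        ((van_e (by decide)).add ((van_e (by decide)).smul _))
    · rw [show ∀ p q p' q' : L K, p + q - (p' + q') - (p - p') = q - q' from fun _ _ _ _ => by abel]
      exact ((van_e (by decide)).smul _).sub ((van_e (by decide)).smul _)
  obtain ⟨s1, _, g1⟩ := F.gf_e H (v8 0 0 1 1 0 0 0 0) (-v8 0 0 1 1 0 0 0 0) (by decide)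
  obtain ⟨s2, hs2, g2⟩ := F.gf_e H k0 eu (by decide)
  rw [LinearEquiv.mul_apply] at h5
  generalize u' (e (v8 0 0 1 1 0 0 0 0) + r • e k0 - (e (v8 0 0 0 1 1 0 0 0) + r • e k1)) = y
    at h5 h7
  simp only [map_add, map_smul, LinearMap.add_apply, LinearMap.smul_apply, g1, g2] at h5
  rw [h7 _ (by decide), h7 _ (by decide), Y_fix hs, map_sub,
    X_e_m1 hζ.1 hδ.1 (by rw [ip_x]; decide), X_e_m1 hζ.1 hδ'.1 (by rw [ip_x]; decide),
    show a 1 + v8 0 0 0 1 1 0 0 0 = eu by decide] at h5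
  simp only [map_add, map_sub, map_smul, co_e_self (rt (x := eu) (by decide))] at h5
  repeat rw [co_e_ne (by decide)] at h5
  simpa [hr, hs2, eps_ne] using h5

theorem FB.long1 {m u : Aut K} {w : W} (F : FB c w) (H : c.MP m w u) (hq : c.QS (m * u))
    {ζ : Lat} (hζ : c.R ζ) (h1 : Exc.hout (c.Jw w) ζ = 1) (h2 : sg c.b ζ = ζ) :
    c.Good m (m * u) ζ := by
  refine H.good_ind' True one_pos (fun β hβ h0 h3 h4 => ?_) hζ h1 (iff_true_intro h2)
  obtain ⟨k1, k2⟩ := F.mem hβ.1 hβ.2 (by omega)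
  rw [F.hb] at h4
  rcases fb1 β k1 k2 (F.hout hβ.2 ▸ h3) (congrFun (h4.2 trivial)) with k | ⟨j, hj, k⟩
  · left; rw [show β = a 1 from funext k]; exact F.T4 H hq
  · exact Or.inr ⟨j, F.J hj, F.hb ▸ k⟩

theorem FB.T5 {m u : Aut K} {w : W} (F : FB c w) (H : c.MP m w u) (hq : c.QS (m * u)) :
    c.Good m (m * u) et := by
  intro u' hu' hc
  have H' := H.of_cj hu' hc
  have hb := F.hb
  have hζ := R6 hb (x := et) (by decide)
  have hζ' := R6 hb (x := eu) (by decide)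
  have hs : sg c.b et = eu := by rw [hb]; decide
  have l0 : Exc.hout (c.Jw w) et = 1 := by rw [F.hout hζ.2]; rfl
  have l1 : Exc.hout (c.Jw w) eu = 1 := by rw [F.hout hζ'.2]; rfl
  have h0 : u' ∈ Ucl K (fun β => Sp c.n β ∧ 0 < Exc.hout (c.Jw w) β ∧
      (1 < Exc.hout (c.Jw w) β ∨ sg c.b β ≠ β)) := by
    refine peel_level (c := c) (houtL (c.Jw w)) one_pos (fun β h _ => ?_) (fun β h h' => ?_)
      (fun ζ h hζ h' => ?_) H'.b1
    · rcases h with h | h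
      · exact ⟨h.1, h.2.1⟩
      · exact h
    · rw [houtL_apply] at h'
      exact ⟨h.2, by omega, Or.inl h'⟩
    · have h2 := h.2
      refine F.long1 H hq ⟨hζ, h.1⟩ ?_ ?_ u' hu' hc
      · by_contra h3; exact h' ⟨h.1, h.2, Or.inl (by omega)⟩
      · by_contra h3; exact h' ⟨h.1, h.2, Or.inr h3⟩
  obtain ⟨t, _, ⟨u1, h1, h2⟩, h3⟩ := peelY (houtL (c.Jw w)) hζ
    (A := fun β => (Sp c.n β ∧ 0 < Exc.hout (c.Jw w) β ∧
      (1 < Exc.hout (c.Jw w) β ∨ sg c.b β ≠ β)) ∧ β ≠ et ∧ β ≠ eu)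
    (by rw [houtL_apply, l0]; omega) (by rw [hs, houtL_apply, houtL_apply, l0, l1])
    (fun β h _ => by rw [hs]; tauto) (fun β h hβ => by
      have k : ∀ ζ, Sp c.n ζ → Exc.hout (c.Jw w) ζ = 1 → (Sp c.n (ζ + β) ∧
          0 < Exc.hout (c.Jw w) (ζ + β) ∧ (1 < Exc.hout (c.Jw w) (ζ + β) ∨ sg c.b (ζ + β) ≠ ζ + β))
          ∧ ζ + β ≠ et ∧ ζ + β ≠ eu := fun ζ h1 h2 => by
        have h3 := map_add (houtL (c.Jw w)) ζ β
        have h4 := h.1.2.1
        simp only [houtL_apply] at h3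
        exact ⟨⟨h1.add h.1.1, by omega, Or.inl (by omega)⟩, fun h5 => by rw [h5] at h3; omega,
          fun h5 => by rw [h5] at h3; omega⟩
      rw [hs, houtL_apply, houtL_apply, l0]
      exact ⟨h.1.2.1, h.2.1, h.2.2, fun _ => k _ hζ.2 l0, fun _ => k _ hζ'.2 l1⟩)
    (U_G hu') h0
  suffices t = 0 by ext i; rw [h3, this]; simp
  have hθ := R6 hb (x := th 6) (by decide)
  have h5 := hc.QS hb hq _ ((orb_short hb hζ.neg (by rw [hb]; decide)).app (Y_mem hθ (Al_one _)))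
  rw [Y_fix (by rw [hb]; decide), X_e_m1 hθ.1 hζ.neg.1 (by rw [ip_x]; decide),
    show th 6 + -et = k1 by decide, map_add c.st, map_smulₛₗ c.st,
    st_e hζ.neg.2, st_e (R6 hb (x := k1) (by decide)).2, F.hτ, hb, show sg true k1 = k0 by decide,
    show sg true (-et) = -eu by decide] at h5
  have hr : (1 * eps (th 6) (-et) : K) ≠ 0 := by simp [eps_ne]
  generalize (1 * eps (th 6) (-et) : K) = r at h5 hr
  have h7 : ∀ β, (crd 0 + crd 5) β ≤ 0 → co β (u' (e (-et) + r • e k1 - (e (-eu) + r • e k0))) =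
      co β (c.Y et t (e (-et) - e (-eu))) := fun β hβ => by
    rw [h2]
    refine test_co (crd 0 + crd 5) 0 hζ rfl (by rw [hs]; rfl) (fun α h hα => ?_) h1 ?_ ?_ t hβ
    · obtain ⟨k1, k2⟩ := F.mem hα h.1.1 h.1.2.1
      have k3 := h.1.2.2
      rw [F.hout h.1.1, hb] at k3
      rcases fb5 α k1 k2 (F.hout h.1.1 ▸ h.1.2.1) (k3.imp id fun k4 k5 => k4 (funext k5))
        with k | k | k
      · exact absurd (funext k) h.2.1
      · exact absurd (funext k) h.2.2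
      · exact k
    · exact ((van_e (by decide)).add ((van_e (by decide)).smul _)).sub
        ((van_e (by decide)).add ((van_e (by decide)).smul _))
    · rw [show ∀ p q p' q' : L K, p + q - (p' + q') - (p - p') = q - q' from fun _ _ _ _ => by abel]
      exact ((van_e (by decide)).smul _).sub ((van_e (by decide)).smul _)
  obtain ⟨s1, _, g1⟩ := F.gf_e H (-et) (-k1) (by decide)
  obtain ⟨s2, hs2, g2⟩ := F.gf_e H k1 et (by decide)
  rw [LinearEquiv.mul_apply] at h5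
  generalize u' (e (-et) + r • e k1 - (e (-eu) + r • e k0)) = y at h5 h7
  simp only [map_add, map_smul, LinearMap.add_apply, LinearMap.smul_apply, g1, g2] at h5
  rw [h7 _ (by decide), h7 _ (by decide), Y_mov (by rw [hb]; decide), hs,
    LinearEquiv.mul_apply, map_sub, X_e_nn hζ'.1 hζ.neg.1 (by rw [ip_x]; decide),
    X_e_m2 hζ'.1] at h5
  simp only [map_add, map_sub, map_smul, X_e_m2 hζ.1, X_hv hζ.1,
    X_e_nn hζ.1 hζ'.neg.1 (by rw [ip_x]; decide), X_e_nn hζ.1 hζ'.1 (by rw [ip_x]; decide),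
    show ip eu et = 0 by rw [ip_x]; decide, co_e_self hζ.1, co_hv] at h5
  repeat rw [co_e_ne (by decide)] at h5
  simpa [hr, hs2] using h5

theorem FB.u_th {m u : Aut K} {w : W} (F : FB c w) (H : c.MP m w u) (hq : c.QS (m * u)) :
    ∃ t, u = X (th 6) t := by
  have h0 := peel_all (c := c) (houtL (c.Jw w)) 1 (fun ζ hζ h1 h2 => ?_) H.b1
  · obtain ⟨s, u', h1, h2⟩ := peel (A := fun _ => False) (rt (x := th 6) (by decide))
      (fun β h hβ => by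
        have h1 := h.2
        rw [houtL_apply] at h1
        obtain ⟨k1, k2⟩ := F.mem hβ h.1 (by push_cast at h1; omega)
        exact Or.inr (funext (fb3 β k1 k2 (F.hout h.1 ▸ h1)))) (fun β h => h.elim) h0
    exact ⟨s, by rw [h2, Ucl_empty (fun _ h _ => h) h1, mul_one]⟩
  rw [houtL_apply] at h1 h2
  have h3 : Exc.hout (c.Jw w) ζ = 1 := by push_cast at h2; omega
  by_cases h4 : sg c.b ζ = ζ
  · exact F.long1 H hq hζ h3 h4 u H.mem (Cj.refl _)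
  refine H.good_ind' False one_pos (fun β hβ h0 h3 h4 => ?_) hζ h3 (iff_false_intro h4) u
    H.mem (Cj.refl _)
  obtain ⟨k1, k2⟩ := F.mem hβ.1 hβ.2 (by omega)
  rw [F.hb] at h4
  rcases fb2 β k1 k2 (F.hout hβ.2 ▸ h3) with k | k | k | ⟨j, hj, k⟩
  · exact (h4.1 (funext k)).elim
  · left; rw [show β = et from funext k]; exact F.T5 H hq
  · left; rw [show β = eu from funext k]
    have := (F.T5 H hq).sg (R6 F.hb (by decide))
    rwa [F.hb, show sg true et = eu by decide] at this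
  · exact Or.inr ⟨j, F.J hj, F.hb ▸ k⟩

variable (c)

def Eqv (g g' : Aut K) : Prop := ∀ v ∈ c.V, g v = g' v

variable {c}

theorem Eqv.QS (hb : c.b = true) {g g' : Aut K} (h : c.Eqv g g') (hq : c.QS g) : c.QS g' :=
  fun x hx => by
    have h1 := hx.mem (k0_R hb).2
    rw [← h _ (sub_mem h1 (st_mem h1))]; exact hq x hx

theorem Eqv.conj {g g' p : Aut K} (h : c.Eqv g g') (hp : p ∈ c.G) :
    c.Eqv (p * g * p⁻¹) (p * g' * p⁻¹) := fun v hv => by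
  simp only [LinearEquiv.mul_apply, h _ (G_mem (inv_mem hp) hv)]

theorem T6 (hb : c.b = true) {μ η : K} (hμ : μ ≠ 0) (hq : c.QS (X (-th 6) μ * X (th 6) η)) :
    η = 0 := by
  have hk := k0_R hb
  have hk1 := R6 hb (x := k1) (by decide)
  have hθ := R6 hb (x := th 6) (by decide)
  have h5 := hq _ ((orb_short hb hk.neg (by rw [hb]; decide)).app (Y_mem hk (Al_one _)))
  have hx : c.Y k0 1 (e (-k0)) = e (-k0) - Exc.hv k0 + e k0 := by
    rw [Y_mov (k0_mov hb), LinearEquiv.mul_apply,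
      X_e_nn hk.sg.1 hk.neg.1 (by rw [hb, ip_x]; decide), X_e_m2 hk.1, one_smul, one_pow, one_smul]
  have hst : c.st (e (-k0) - Exc.hv k0 + e k0) = e (-k1) - Exc.hv k1 + e k1 := by
    rw [map_add c.st, map_sub c.st, st_e hk.neg.2, st_e hk.2,
      st_hv, hb, show sg true k0 = k1 by decide, show sg true (-k0) = -k1 by decide]
  simp only [hx, hst, LinearEquiv.mul_apply, gf_inv (X_aut (-th 6) μ), X_inv] at h5
  simp only [map_add, map_sub, X_hv hθ.1, X_hv hθ.neg.1,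
    X_e_nn hθ.neg.1 hk.neg.1 (by rw [ip_x]; decide), X_e_m1 hθ.neg.1 hk.1 (by rw [ip_x]; decide),
    X_e_m1 hθ.1 hk.neg.1 (by rw [ip_x]; decide), X_e_m1 hθ.1 hk1.neg.1 (by rw [ip_x]; decide),
    X_e_nn hθ.1 hk.1 (by rw [ip_x]; decide), X_e_nn hθ.1 hk1.1 (by rw [ip_x]; decide),
    show th 6 + -k0 = eu by decide, show th 6 + -k1 = et by decide,
    show -th 6 + k0 = -eu by decide, show ip k0 (th 6) = 1 by rw [ip_x]; decide,
    show ip k1 (th 6) = 1 by rw [ip_x]; decide, show ip k0 (-th 6) = -1 by rw [ip_x]; decide,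
    map_smul, LinearMap.add_apply, LinearMap.sub_apply, LinearMap.smul_apply, gf_hv_e, gf_hv_hv,
    gf_e hk.1, gf_e hk.neg.1, gf_e hθ.neg.1, gf_e (rt (x := -eu) (by decide)), neg_neg, co_hv,
    co_e_self hk.1, co_e_self hk.neg.1, co_e_self hθ.1, co_e_self (rt (x := eu) (by decide)),
    hk.1, show ip k0 k1 = 0 by rw [ip_x]; decide] at h5
  repeat rw [co_e_ne (by decide)] at h5
  have h6 : μ * η * eps (-th 6) k0 * eps (th 6) (-k0) = 0 := by
    simp only [smul_eq_mul] at h5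
    push_cast at h5
    linear_combination -h5
  simpa [hμ, eps_ne] using h6

theorem FB.struct {m u : Aut K} {w : W} (F : FB c w) (H : c.MP m w u) (hq : c.QS (m * u)) :
    ∃ μ g, μ ≠ 0 ∧ c.Cj (m * u) g ∧ c.Eqv g (X (th 6) μ) := by
  have hb := F.hb
  have hθ := R6 hb (x := th 6) (by decide)
  have hf : sg c.b (th 6) = th 6 := by rw [hb]; decide
  obtain ⟨t, rfl⟩ := F.u_th H hq
  obtain ⟨s, hs, h1⟩ := H.mon.mono _ (root_a 1)
  rw [F.w_eq H (by decide)] at h1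
  have hr : s⁻¹ * eps (th 6) (a 1) ≠ 0 := mul_ne_zero (inv_ne_zero hs) (eps_ne _ _)
  set r := s⁻¹ * eps (th 6) (a 1) with hr'
  have hN := NY_Mon hθ hr (Al_fix (F.hτ r) _)
  have h2 := (hN.inv.mul H.mon).triv_of fun i hi => by
    rw [LinearEquiv.mul_apply, ← (c.NY (th 6) r).injective.eq_iff, app_inv, NY_fix hf]
    by_cases h : i = 1
    · rw [h, h1, N1_one hθ.1 (root_a 1) (by rw [ip_a]; decide) hr,
        show wb (a 1) = a 1 - th 6 by decide, hr']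
      congr 1
      have := eps_ne (K := K) (th 6) (a 1)
      field_simp
    · rw [n6_of_b hb] at hi
      have h3 : i = 0 ∨ i = 2 ∨ i = 3 ∨ i = 4 ∨ i = 5 := by revert i; decide
      rw [H.e_J (F.J h3), F.w_eq H (Sp_a hi), N1_zero hθ.1 (root_a i)
        (by rw [ip_a]; revert i; decide), show wb (a i) = a i by revert i; decide]
  have hX : ∀ x, X (th 6) x ∈ c.G := fun x => Y_fix hf x ▸ Y_mem hθ (Al_fix (F.hτ x) _)
  have h3 : c.Eqv (m * X (th 6) t) (N1 (th 6) r * X (th 6) t) := fun v hv => by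
    have := h2 _ (G_mem (hX t) hv)
    rw [LinearEquiv.mul_apply, ← (c.NY (th 6) r).injective.eq_iff, app_inv, NY_fix hf] at this
    exact this
  have h4 := h3.conj (inv_mem (hX r))
  rw [show (X (th 6) r)⁻¹ * (N1 (th 6) r * X (th 6) t) * (X (th 6) r)⁻¹⁻¹ =
    X (-th 6) r⁻¹ * X (th 6) (r + t + r) by rw [N1, ← X_add, ← X_add]; group] at h4
  have h5 : c.Cj (m * X (th 6) t) _ := ⟨_, inv_mem (hX r), rfl⟩
  rw [T6 hb (inv_ne_zero hr) (h4.QS hb (h5.QS hb hq)), X_zero, mul_one] at h4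
  obtain ⟨s', hs', h6⟩ := hN.mono _ hθ.neg.1
  rw [map_neg, wY_self hθ, neg_neg] at h6
  have h7 := h4.conj hN.mem
  rw [conj_X hN.aut hθ.neg.1 hθ.1 h6] at h7
  exact ⟨_, _, mul_ne_zero hs' (inv_ne_zero hr), h5.trans ⟨_, hN.mem, rfl⟩, h7⟩

end Cfg

end Pool.Agent.MP_db74b1_al.Exc
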