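import Pool.Agent.MP_db74b1_al.ExcMin

set_option autoImplicit false

namespace Pool.Agent.MP_db74b1_al.Exc

variable {K : Type} [Field K]

namespace Cfg

variable (c : Cfg K)

def Cj (g g' : Aut K) : Prop := ∃ h ∈ c.G, h * g * h⁻¹ = g'

def Good (m g : Aut K) (ζ : Lat) : Prop := ∀ u ∈ c.U, c.Cj g (m * u) → H0 ζ u

def Triv (g : Aut K) : Prop := ∀ v ∈ c.V, g v = v

variable {c}

theorem Cj.refl (g : Aut K) : c.Cj g g := ⟨1, one_mem _, by simp⟩

theorem Cj.trans {g g' g'' : Aut K} (h : c.Cj g g') (h' : c.Cj g' g'') : c.Cj g g'' := by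
  obtain ⟨p, hp, rfl⟩ := h
  obtain ⟨q, hq, rfl⟩ := h'
  exact ⟨q * p, mul_mem hq hp, by group⟩

theorem Cj.symm {g g' : Aut K} (h : c.Cj g g') : c.Cj g' g := by
  obtain ⟨p, hp, rfl⟩ := h
  exact ⟨p⁻¹, inv_mem hp, by group⟩

theorem Cj.mem {g g' : Aut K} (h : c.Cj g g') (hg : g ∈ c.G) : g' ∈ c.G := by
  obtain ⟨p, hp, rfl⟩ := h
  exact mul_mem (mul_mem hp hg) (inv_mem hp)

theorem Cj.triv {g g' : Aut K} (h : c.Cj g g') (hg : c.Triv g) : c.Triv g' := by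
  obtain ⟨p, hp, rfl⟩ := h
  intro v hv
  rw [LinearEquiv.mul_apply, LinearEquiv.mul_apply, hg _ (G_mem (inv_mem hp) hv), app_inv]

theorem MP.of_cj {m u u' : Aut K} {w : W} (H : c.MP m w u) (hu : u' ∈ c.U)
    (h : c.Cj (m * u) (m * u')) : c.MP m w u' := by
  obtain ⟨p, hp, e⟩ := h
  exact ⟨H.mon, hu, e ▸ H.low.conj hp⟩

theorem MP.commY {m u : Aut K} {w : W} (H : c.MP m w u) {j : Fin 8} (hj : c.Jw w j = true) (t : K) :
    m * c.Y (a j) t * m⁻¹ = c.Y (a j) t ∧ m * c.Y (-a j) t * m⁻¹ = c.Y (-a j) t := by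
  have hR := R_a (Jw_iff.1 hj).1
  have h1 := H.mon.conjY hR (s := 1) (by rw [H.e_J hj, one_smul]) t
  have h2 := H.mon.conjY hR.neg (s := 1) (by rw [H.e_J' hj, one_smul, map_neg]) t
  rw [one_mul] at h1 h2
  rw [h1, h2, map_neg]
  rcases (H.star (Jw_iff.1 hj).1 (Jw_iff.1 hj).2).2 with h | ⟨_, h3, h4, _⟩
  · rw [h.1]; exact ⟨rfl, rfl⟩
  · rw [h4, ← sg_neg, ← Y_sg hR (Al_fix (h3 t) _), ← Y_sg hR.neg (Al_fix (h3 t) _), h3 t]
    exact ⟨rfl, rfl⟩

theorem MP.good_step {m u : Aut K} {w : W} (H : c.MP m w u) {j : Fin 8} (hj : c.Jw w j = true)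
    {ζ : Lat} (hζ : ip ζ ζ = 2) (h : c.Good m (m * u) (c.wY (a j) ζ)) : c.Good m (m * u) ζ := by
  intro u' hu' hc
  have hi := (Jw_iff.1 hj).1
  have h1 := ((H.of_cj hu' hc).star hi (Jw_iff.1 hj).2).1
  have h2 := n_Mon hi
  have h3 : m * c.NY (a j) 1 * m⁻¹ = c.NY (a j) 1 := by
    conv_rhs => rw [NY, ← (H.commY hj 1).1, ← (H.commY hj 1⁻¹).2]
    rw [NY]; group
  refine h2.H0 hζ (h _ (mem_U (mul_mem (mul_mem h2.mem (U_G hu')) (inv_mem h2.mem))
    (Ui_le j (Ui_conj hi h2 h1))) (hc.trans ⟨_, h2.mem, ?_⟩))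
  rw [show c.NY (a j) 1 * (m * u') * (c.NY (a j) 1)⁻¹ = c.NY (a j) 1 * m * u' * (c.NY (a j) 1)⁻¹
    by group, ← mul_inv_eq_iff_eq_mul.1 h3]
  group

theorem Good.sg {m g : Aut K} {ζ : Lat} (hζ : c.R ζ) (h : c.Good m g ζ) :
    c.Good m g (sg c.b ζ) := fun u hu hc => H0_sg hζ (U_G hu) (h u hu hc)

theorem H0_of {A : Lat → Prop} (l : Lat →+ ℤ) {ζ : Lat} (hζ : ip ζ ζ = 2) (hl : 0 < l ζ)
    (h : ∀ β, A β → ip β β = 2 → l ζ ≤ l β ∧ β ≠ ζ) {u : Aut K} (hu : u ∈ Ucl K A) : H0 ζ u := by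
  ext i
  simpa [X_zero] using H_peel l hζ hl h hu 0 i

theorem MP.good_J {m u : Aut K} {w : W} (H : c.MP m w u) {j : Fin 8} (hj : c.Jw w j = true) :
    c.Good m (m * u) (a j) := fun u' hu' hc =>
  H0_of htL (root_a j) (by rw [htL_apply, ht_a]; omega) (fun β h hβ => ⟨by
    have := root_ht_pos hβ h.1.2
    rw [htL_apply, htL_apply, ht_a]; omega, h.2.1⟩)
    ((H.of_cj hu' hc).star (Jw_iff.1 hj).1 (Jw_iff.1 hj).2).1

theorem MP.hout_wY {m u : Aut K} {w : W} (H : c.MP m w u) {j : Fin 8} (hj : c.Jw w j = true)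
    (x : Lat) : hout (c.Jw w) (c.wY (a j) x) = hout (c.Jw w) x := by
  rw [hout_sum, hout_sum]
  refine Finset.sum_congr rfl fun i _ => ?_
  cases hi : c.Jw w i
  · rw [wY_coord (Jw_iff.1 hj).1]
    · rintro rfl; rw [hi] at hj; exact absurd hj (by simp)
    · rintro rfl; rw [H.mon.J_pm hj] at hi; exact absurd hi (by simp)
  · rfl

theorem MP.good_ind {m u : Aut K} {w : W} (H : c.MP m w u) (lg : Prop) (k : ℤ)
    (h : ∀ β, c.R β → 0 ≤ β → hout (c.Jw w) β = k → (sg c.b β = β ↔ lg) →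
      c.Good m (m * u) β ∨ ∃ j, c.Jw w j = true ∧ 0 < sv c.b β j ∧ 0 ≤ c.wY (a j) β)
    {β : Lat} (hβ : c.R β) (h0 : 0 ≤ β) (hk : hout (c.Jw w) β = k) (hl : sg c.b β = β ↔ lg) :
    c.Good m (m * u) β := by
  induction' hn : (ht β).toNat using Nat.strong_induction_on with n ih generalizing β
  rcases h β hβ h0 hk hl with h1 | ⟨j, hj, h1, h2⟩
  · exact h1
  · have hi := (Jw_iff.1 hj).1
    have h3 := (ht_wY hi β).1 h1
    have h4 := ht_nonneg h2
    exact H.good_step hj hβ.1 (ih _ (by omega) ((n_Mon hi).R hβ) h2 (by rw [H.hout_wY hj, hk])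
      (((n_Mon hi).fix_iff hβ).trans hl) rfl)

theorem MP.good_ind' {m u : Aut K} {w : W} (H : c.MP m w u) (lg : Prop) {k : ℤ} (hk0 : 0 < k)
    (h : ∀ β, c.R β → 0 ≤ β → hout (c.Jw w) β = k → (sg c.b β = β ↔ lg) →
      c.Good m (m * u) β ∨ ∃ j, c.Jw w j = true ∧ 0 < sv c.b β j)
    {β : Lat} (hβ : c.R β) (hk : hout (c.Jw w) β = k) (hl : sg c.b β = β ↔ lg) :
    c.Good m (m * u) β :=
  H.good_ind lg k (fun β h1 h2 h3 h4 => (h β h1 h2 h3 h4).imp id fun ⟨j, hj, h5⟩ => ⟨j, hj, h5,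
    pos_of_hout (J := c.Jw w) ((n_Mon (Jw_iff.1 hj).1).R h1).1 (by rw [H.hout_wY hj]; omega)⟩)
    hβ (pos_of_hout hβ.1 (hk ▸ hk0)) hk hl

theorem MP.good_zero {m u : Aut K} {w : W} (H : c.MP m w u) {β : Lat} (hβ : c.R β) (h0 : 0 ≤ β)
    (hk : hout (c.Jw w) β = 0) : c.Good m (m * u) β := by
  refine H.good_ind _ 0 (fun β h1 h2 h3 _ => ?_) hβ h0 hk Iff.rfl
  obtain ⟨i, hi, h4, h5⟩ := desc h1 h2
  have hJ := hout_eq_zero h2 h3.le h4.ne'
  by_cases h6 : β = a i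
  · left; rw [h6]; exact H.good_J hJ
  by_cases h7 : β = a (pm c.b i)
  · left; rw [h7]; exact H.good_J (H.mon.J_pm hJ)
  exact Or.inr ⟨i, hJ, h5, (wY_Ui hi ⟨⟨h1.2, h2⟩, h6, h7⟩ h1.1).1.2⟩

theorem MP.b1 {m u : Aut K} {w : W} (H : c.MP m w u) :
    u ∈ Ucl K (fun β => Sp c.n β ∧ 0 < hout (c.Jw w) β) := by
  let l : Lat →+ ℤ := htL + 100 • houtL (c.Jw w)
  have hl : ∀ x, l x = ht x + 100 * hout (c.Jw w) x := fun x => rfl
  refine Ucl_mono (fun β hβ h => ⟨h.1, ?_⟩) (peel_all (c := c) l 50 (fun ζ hζ h1 h2 => ?_)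
    (Ucl_mono (fun β hβ h => ⟨h.1, ?_⟩) (U_P H.mem)))
  rotate_left
  · have h1 := R.ht_le ⟨hβ, h.1⟩
    have h2 := c.ht_th
    have h3 := h.2
    rw [hl] at h3; push_cast at h3; omega
  rotate_right
  · rw [hl] at h1 h2
    have h0 : 0 ≤ ζ := by
      by_contra h3
      have h4 := root_ht_neg hζ.1 h3
      have h5 := hout_nonneg (c.Jw w) (neg_nonneg_of hζ.1 h3)
      rw [hout_neg] at h5; omega
    have h3 := hout_nonneg (c.Jw w) h0
    have h4 := ht_nonneg h0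
    exact H.good_zero hζ h0 (by push_cast at h2; omega) u H.mem (Cj.refl _)
  · have h1 := root_ht_pos hβ h.2
    have h2 := hout_nonneg (c.Jw w) h.2
    rw [hl]; omega

theorem Ucl_empty {A : Lat → Prop} (h : ∀ β, A β → ip β β = 2 → False) {u : Aut K}
    (hu : u ∈ Ucl K A) : u = 1 :=
  Subgroup.mem_bot.1 (Ucl_le (H := ⊥) (fun β _ h1 h2 => (h β h1 h2).elim) hu)

theorem n6_of_b (hb : c.b = true) : c.n = 6 := by
  rcases c.ok with ⟨h, _⟩ | ⟨_, h, _⟩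
  · rw [h] at hb; exact absurd hb (by simp)
  · exact h

theorem MP.triv {m u : Aut K} {w : W} (H : c.MP m w u)
    (hJ : ∀ i : Fin 8, i.1 < c.n → c.Jw w i = true) : c.Triv (m * u) := by
  have hu : u = 1 := Ucl_empty (fun β h _ => by
    have h1 := lat_lin (houtL (c.Jw w)) 0 β fun j hj => by
      rw [houtL_apply, hout_a, hJ j (not_le.1 fun h' => hj (h.1 j h'))]; rfl
    have h2 := h.2
    rw [houtL_apply] at h1
    rw [h1] at h2; simp at h2) H.b1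
  have hw : ∀ i : Fin 8, i.1 < c.n → w (a i) = a i := fun i hi => by
    cases hb : c.b
    · exact H.w_fix (hJ i hi) (by rw [hb, pm_false])
    · have hn := n6_of_b hb
      obtain ⟨h0, h2, h4, h5⟩ := H.no_swap hb hn (hJ 0 (by rw [hn]; decide)) (hJ 2 (by rw [hn]; decide))
      have h1 := H.w_fix (hJ 1 (by rw [hn]; decide)) (by rw [hb]; rfl)
      have h3 := H.w_fix (hJ 3 (by rw [hn]; decide)) (by rw [hb]; rfl)
      rw [hn] at hi
      fin_cases i <;> first | assumption | exact absurd hi (by decide)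
  rw [hu, mul_one]
  exact fun v hv => gen_fix H.mon.aut (fun i hi => ⟨by rw [H.e_J (hJ i hi), hw i hi],
    by rw [H.e_J' (hJ i hi), hw i hi]⟩) hv

theorem Triv.comm {g : Aut K} (hg : g ∈ c.G) (h : c.Triv g) {p : Aut K} (hp : p ∈ c.G) :
    p * g = g * p := by
  have hX : ∀ α t, c.R α → X α t ∈ Subgroup.centralizer {g} := fun α t hα => by
    rw [Subgroup.mem_centralizer_singleton_iff]
    have := conj_X (G_aut hg) hα.1 hα.1 (c := 1) (by rw [h _ (e_mem hα.2), one_smul]) t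
    rw [one_mul] at this
    exact (mul_inv_eq_iff_eq_mul.1 this).symm
  refine Subgroup.mem_centralizer_singleton_iff.1 (G_le (fun α t hα _ => ?_) hp)
  unfold Y; split_ifs
  · exact hX _ _ hα
  · exact mul_mem (hX _ _ hα) (hX _ _ hα.sg)

theorem U_th {u : Aut K} (hu : u ∈ Ucl K c.Pos) : u (e (th c.n)) = e (th c.n) := by
  refine Ucl_induction (p := fun u => u (e (th c.n)) = e (th c.n)) rfl
    (fun β t g h hβ _ hg => ?_) hu
  rw [LinearEquiv.mul_apply, hg]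
  rcases ip_cases hβ c.th_R.1 with h1 | h1 | h1
  · exact absurd (h1 ▸ c.th_nonneg) (not_neg_nonneg hβ h.2)
  · have h2 := R.ht_le ⟨(root_add hβ c.th_R.1).2 h1, h.1.add c.th_R.2⟩
    have h3 := ht_eq_one (th c.n) h.2 hβ
    omega
  · exact X_e_nn hβ c.th_R.1 h1 t

theorem X_th_mem {t : K} (ht : c.τ t = t) : X (th c.n) t ∈ c.G :=
  Y_fix c.th_sg t ▸ Y_mem c.th_R (Al_fix ht _)

theorem triv_of_central {z : Aut K} (hz : z ∈ c.G) (h : ∀ p ∈ c.G, p * z = z * p) : c.Triv z := by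
  obtain ⟨p, hp, m, w, u, H, e1⟩ := exists_MP hz
  rw [h p hp, mul_inv_cancel_right] at e1
  have hθ := c.th_R
  obtain ⟨s, _, h1⟩ := H.mon.mono _ hθ.1
  have h2 := conj_X (G_aut hz) hθ.1 (H.mon.root hθ.1) (c := s)
    (by rw [e1, LinearEquiv.mul_apply, U_th (U_P H.mem), h1]) 1
  rw [← h _ (X_th_mem (map_one _)), mul_inv_cancel_right] at h2
  have h3 : w (th c.n) = th c.n := by
    by_contra h3
    have h4 := congrArg (fun g : Aut K => co (th c.n) (g (e (-th c.n)))) h2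
    have h5 : th c.n - w (th c.n) ≠ -th c.n := fun h5 => by
      have h6 := H.mon.root hθ.1
      rw [show w (th c.n) = th c.n + th c.n by rw [← sub_eq_zero, ← neg_eq_zero, ← sub_eq_zero.2 h5]; abel,
        norm_add, hθ.1] at h6
      omega
    simp only [X_e_m2 hθ.1, X_apply (H.mon.root hθ.1), map_add, map_sub, map_smul, co_hv,
      co_e_self hθ.1, co_e_ne (neg_ne_self hθ.1).symm, co_ad, if_neg (Ne.symm h3),
      co_e_ne (Ne.symm h3), co_e_ne h5] at h4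
    simp at h4
  have h4 := H.hout_w hθ.2
  rw [h3] at h4
  rw [e1]
  exact H.triv fun i hi => hout_eq_zero c.th_nonneg (by omega) (c.th_pos i hi).ne'

theorem root_top {p : Lat → Prop} (h0 : p (th c.n)) (hk : c.b = true → p k0 ∧ p (sg c.b k0))
    (h1 : ∀ α (i : Fin 8), i.1 < c.n → c.R α → p (c.wY (a i) α) → p α) {α : Lat} (hα : c.R α) :
    p α := by
  refine root_ind (fun α hα hα0 => ?_) h1 hα
  induction' hn : (30 - ht α).toNat using Nat.strong_induction_on with n ih generalizing α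
  have hm := mem_posL hα.1 hα0
  have hs := hα.2
  have key : p α ∨ ∃ i : Fin 8, i.1 < c.n ∧ sv c.b α i < 0 := by
    rcases c.ok with ⟨hb, _, h | h | h⟩ | ⟨hb, h, _⟩ <;> rw [h] at hs h0 ⊢
    · rw [hb]; exact (up6 α hm hs).imp (fun h => (show α = _ from funext h) ▸ h0) id
    · rw [hb]; exact (up7 α hm hs).imp (fun h => (show α = _ from funext h) ▸ h0) id
    · rw [hb]; exact (up8 α hm).imp (fun h => (show α = _ from funext h) ▸ h0) id
    · have h2 := hk hb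
      rw [hb] at h2 ⊢
      rcases up6t α hm hs with h3 | h3 | h3 | h3
      · exact Or.inl (funext h3 ▸ h0)
      · exact Or.inl (funext h3 ▸ h2.1)
      · exact Or.inl (funext h3 ▸ h2.2)
      · exact Or.inr h3
  rcases key with h2 | ⟨i, hi, h2⟩
  · exact h2
  · have h3 := (ht_wY hi α).2 h2
    have h4 := (n_Mon hi).R hα
    have h5 := h4.ht_le
    have h6 := c.ht_th
    have h7 := ht_nonneg hα0
    exact h1 α i hi hα (ih _ (by omega) _ h4 (pos_of_ht h4.1 (by omega)) rfl)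

variable (c)

def Orb (β : Lat) (x : L K) : Prop := ∃ h ∈ c.G, ∃ r : K, x = r • h (e β)

variable {c}

theorem Orb.self (β : Lat) : c.Orb β (e β) := ⟨1, one_mem _, 1, by simp⟩

theorem Orb.app {β : Lat} {x : L K} (h : c.Orb β x) {g : Aut K} (hg : g ∈ c.G) : c.Orb β (g x) := by
  obtain ⟨p, hp, r, rfl⟩ := h
  exact ⟨g * p, mul_mem hg hp, r, by rw [map_smul]; rfl⟩

theorem Orb.smul {β : Lat} {x : L K} (h : c.Orb β x) (s : K) : c.Orb β (s • x) := by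
  obtain ⟨p, hp, r, rfl⟩ := h
  exact ⟨p, hp, s * r, by rw [smul_smul]⟩

theorem Orb.mem {β : Lat} (hβ : Sp c.n β) {x : L K} (h : c.Orb β x) : x ∈ c.V := by
  obtain ⟨p, hp, r, rfl⟩ := h
  exact c.V.smul_mem _ (G_mem hp (e_mem hβ))

theorem Mon.orb {m : Aut K} {w : W} (h : c.Mon m w) {α β : Lat} (hα : ip α α = 2)
    (h1 : c.Orb β (e (w α))) : c.Orb β (e α) := by
  obtain ⟨s, _, h2⟩ := h.mono α hα
  have := (h1.smul s).app h.inv.mem
  rwa [← h2, inv_app] at this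

theorem orb_long {α : Lat} (hα : c.R α) : sg c.b α = α → c.Orb (th c.n) (e α) :=
  root_top (p := fun α => sg c.b α = α → c.Orb (th c.n) (e α)) (fun _ => Orb.self _)
    (fun hb => by rw [hb]; exact ⟨fun h => absurd h (by decide), fun h => absurd h (by decide)⟩)
    (fun α _ hi hα h h' => (n_Mon hi).orb hα.1 (h (((n_Mon hi).fix_iff hα).2 h'))) hα

theorem k0_R (hb : c.b = true) : c.R k0 := by
  rw [R, n6_of_b hb, ip_x]; decide

theorem orb_short (hb : c.b = true) {α : Lat} (hα : c.R α) : sg c.b α ≠ α → c.Orb k0 (e α) := by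
  refine root_top (p := fun α => sg c.b α ≠ α → c.Orb k0 (e α)) (fun h => absurd c.th_sg h)
    (fun _ => ⟨fun _ => Orb.self _, fun _ => ?_⟩)
    (fun α _ hi hα h h' => (n_Mon hi).orb hα.1 (h fun h2 => h' (((n_Mon hi).fix_iff hα).1 h2))) hα
  have hi : (2 : Fin 8).1 < c.n := by rw [n6_of_b hb]; decide
  refine (n_Mon hi).orb (k0_R hb).sg.1 ?_
  rw [wY_mov (R_a hi) (by rw [hb]; decide), hb, sg_a, ip_a, ip_a]
  rw [show sg true k0 - cv (sg true k0) 2 • a 2 - cv (sg true k0) (pm true 2) • a (pm true 2) = k0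
    by decide]
  exact Orb.self _

theorem MP.co_self {m u : Aut K} {w : W} (H : c.MP m w u) {ν β : Lat} (h : ht β = ht ν) :
    co β (u (e ν)) = co β (e ν) :=
  co_lin htL (ht ν) (fun _ h1 h2 => root_ht_pos h2 h1.2) (van_e (lt_irrefl _)) (U_P H.mem) h.le

theorem Mon.gf_e {m : Aut K} {w : W} (h : c.Mon m w) {ν : Lat} (hν : ip ν ν = 2) :
    ∃ s : K, s ≠ 0 ∧ ∀ v, gf (e ν) (m v) = s * co (-w⁻¹ ν) v := by
  obtain ⟨s, hs, h1⟩ := h.inv.mono ν hν
  exact ⟨s, hs, fun v => by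
    rw [gf_inv h.aut, h1, map_smul, LinearMap.smul_apply, Exc.gf_e (h.inv.root hν), smul_eq_mul]⟩

theorem MP.q_ne {m u : Aut K} {w : W} (H : c.MP m w u) {ν : Lat} (hν : ip ν ν = 2)
    (h : w ν = -ν) : gf (e ν) ((m * u) (e ν)) ≠ 0 := by
  obtain ⟨s, hs, h1⟩ := H.mon.gf_e hν
  have h2 : -w⁻¹ ν = ν := by
    rw [← map_neg, ← h, W_inv_app]
  rw [LinearEquiv.mul_apply, h1, h2, H.co_self rfl, co_e_self hν, mul_one]
  exact hs

variable (c)

def QL (g : Aut K) : Prop := ∀ x, c.Orb (th c.n) x → gf x (g x) = 0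

def QS (g : Aut K) : Prop := ∀ x, c.Orb k0 x → gf x (g (x - c.st x)) = 0

variable {c}

theorem Cj.QL {g g' : Aut K} (h : c.Cj g g') (hg : c.QL g) : c.QL g' := by
  obtain ⟨p, hp, rfl⟩ := h
  intro x hx
  rw [LinearEquiv.mul_apply, LinearEquiv.mul_apply, gf_inv (G_aut hp)]
  exact hg _ (hx.app (inv_mem hp))

theorem Cj.QS (hb : c.b = true) {g g' : Aut K} (h : c.Cj g g') (hg : c.QS g) : c.QS g' := by
  obtain ⟨p, hp, rfl⟩ := h
  intro x hx
  rw [LinearEquiv.mul_apply, LinearEquiv.mul_apply, gf_inv (G_aut hp), map_sub,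
    ← G_st (inv_mem hp) (hx.mem (k0_R hb).2)]
  exact hg _ (hx.app (inv_mem hp))

theorem MP.long_struct {m u : Aut K} {w : W} (H : c.MP m w u) (hq : c.QL (m * u)) :
    c.Triv (m * u) ∨ (c.b = true ∧ (∀ t, c.τ t = t) ∧ c.Jw w 0 = false ∧ c.Jw w 1 = true ∧
      c.Jw w 2 = true ∧ c.Jw w 3 = true ∧ c.Jw w 4 = true ∧ c.Jw w 5 = false ∧
      w (a 2) = a 4 ∧ w (a 4) = a 2 ∧ w (a 0) = -v8 0 1 1 2 2 1 0 0) := by
  rcases H.long_cases with h | ⟨hn, h0, h1, h2, h3, h4, h5⟩ | ⟨ν, h1, h2, h3⟩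
  · exact Or.inl (H.triv h)
  · obtain ⟨k1, k2, k3⟩ := H.psi hn h0 h1 h2 h3 h4 h5
    exact Or.inr ⟨k1, k2, h0, h1, h2, h3, h4, h5, k3⟩
  · exact absurd (hq _ (orb_long h1 h2)) (H.q_ne h1.1 h3)

theorem MP.short_struct {m u : Aut K} {w : W} (H : c.MP m w u) (hb : c.b = true)
    (hq : c.QS (m * u)) : c.Triv (m * u) ∨ (c.Jw w 0 = true ∧ c.Jw w 1 = false ∧
      c.Jw w 2 = true ∧ c.Jw w 3 = true ∧ c.Jw w 4 = true ∧ c.Jw w 5 = true) := by
  rcases H.short_cases hb with h | h | ⟨ν, h1, h2, h3⟩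
  · exact Or.inl (H.triv h)
  · exact Or.inr h
  · exfalso
    have h4 := hq _ (orb_short hb h1 h2)
    obtain ⟨s, hs, h5⟩ := H.mon.gf_e h1.1
    rw [LinearEquiv.mul_apply, h5, st_e h1.2, map_sub, map_sub] at h4
    rcases h3 with h3 | h3
    · have h6 : -w⁻¹ ν = ν := by rw [← map_neg, ← h3, W_inv_app]
      rw [h6, H.co_self rfl, H.co_self (ht_sg _ _).symm, co_e_self h1.1, co_e_ne h2.symm] at h4
      simp [hs] at h4
    · have h6 : -w⁻¹ ν = sg c.b ν := by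
        rw [neg_eq_iff_eq_neg, ← w.injective.eq_iff, W_app_inv, map_neg, H.mon.sg h1, h3, sg_neg,
          sg_sg, neg_neg]
      rw [h6, H.co_self (ht_sg _ _), H.co_self rfl, co_e_self h1.sg.1, co_e_ne h2] at h4
      simp [hs] at h4

end Cfg

end Pool.Agent.MP_db74b1_al.Exc
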