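import Pool.Agent.MP_db74b1_al.ExcAut

set_option autoImplicit false

namespace Pool.Agent.MP_db74b1_al.Exc

def pm : Bool → Fin 8 → Fin 8
  | true, 0 => 5 | true, 2 => 4 | true, 4 => 2 | true, 5 => 0 | _, i => i

theorem pm_pm : ∀ b i, pm b (pm b i) = i := by decide

def sg (b : Bool) (y : Lat) : Lat := fun i => y (pm b i)

theorem sig_eq (b : Bool) (y : Lat) : sig b y = sg b y := by
  cases b
  · ext i; fin_cases i <;> rfl
  · ext i; fin_cases i <;> rfl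

theorem sg_false (y : Lat) : sg false y = y := by ext i; fin_cases i <;> rfl
theorem sg_sg (b : Bool) (y : Lat) : sg b (sg b y) = y := by ext i; simp [sg, pm_pm]
theorem sg_add (b : Bool) (x y : Lat) : sg b (x + y) = sg b x + sg b y := rfl
theorem sg_sub (b : Bool) (x y : Lat) : sg b (x - y) = sg b x - sg b y := rfl
theorem sg_neg (b : Bool) (x : Lat) : sg b (-x) = -sg b x := rfl
theorem sg_smul (b : Bool) (c : ℤ) (x : Lat) : sg b (c • x) = c • sg b x := rfl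
theorem sg_zero (b : Bool) : sg b 0 = 0 := rfl
theorem sg_inj {b : Bool} {x y : Lat} : sg b x = sg b y ↔ x = y :=
  ⟨fun h => by rw [← sg_sg b x, h, sg_sg], fun h => h ▸ rfl⟩
theorem sg_a : ∀ b i, sg b (a i) = a (pm b i) := by decide
theorem ht_sg (b : Bool) (x : Lat) : ht (sg b x) = ht x := by
  cases b
  · rw [sg_false]
  · simp only [ht, sg, pm]; ring
theorem sg_nonneg {b : Bool} {x : Lat} (h : 0 ≤ x) : 0 ≤ sg b x := fun _ => h _

def Sp (n : ℕ) (x : Lat) : Prop := ∀ j : Fin 8, n ≤ j.1 → x j = 0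

instance (n : ℕ) (x : Lat) : Decidable (Sp n x) := by unfold Sp; infer_instance

theorem Sp.add {n : ℕ} {x y : Lat} (hx : Sp n x) (hy : Sp n y) : Sp n (x + y) :=
  fun j hj => by simp [hx j hj, hy j hj]
theorem Sp.neg {n : ℕ} {x : Lat} (hx : Sp n x) : Sp n (-x) := fun j hj => by simp [hx j hj]
theorem Sp.sub {n : ℕ} {x y : Lat} (hx : Sp n x) (hy : Sp n y) : Sp n (x - y) :=
  fun j hj => by simp [hx j hj, hy j hj]
theorem Sp.smul {n : ℕ} {x : Lat} (hx : Sp n x) (c : ℤ) : Sp n (c • x) :=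
  fun j hj => by simp [hx j hj]
theorem Sp_a {n : ℕ} {i : Fin 8} (h : i.1 < n) : Sp n (a i) := fun j hj => by
  have : j ≠ i := by rintro rfl; omega
  simp [a, this]

theorem form_sg6 {x y : Lat} (hx : Sp 6 x) (hy : Sp 6 y) :
    form (sg true x) (sg true y) = form x y := by
  have h1 := hx 6 (by decide); have h2 := hx 7 (by decide)
  have h3 := hy 6 (by decide); have h4 := hy 7 (by decide)
  simp only [form_x, formx, sg, pm, h1, h2, h3, h4]; ring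

theorem sg_orth : ∀ x ∈ posL, Sp 6 x → (∀ i, sg true x i = x i) ∨ ipx x (sg true x) = 0 := by
  decide +kernel

variable {K : Type} [Field K]

structure Cfg (K : Type) [Field K] where
  n : ℕ
  b : Bool
  τ : K →+* K
  ok : (b = false ∧ (∀ t, τ t = t) ∧ (n = 6 ∨ n = 7 ∨ n = 8)) ∨
    (b = true ∧ n = 6 ∧ ∀ t, τ (τ t) = t)

namespace Cfg

variable (c : Cfg K)

theorem ττ (t : K) : c.τ (c.τ t) = t := by
  rcases c.ok with ⟨_, h, _⟩ | ⟨_, _, h⟩
  · rw [h, h]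
  · exact h t

theorem pm_lt (i : Fin 8) : (pm c.b i).1 < c.n ↔ i.1 < c.n := by
  rcases c.ok with ⟨h, _, _⟩ | ⟨h, h', _⟩
  · rw [h]; revert i; intro i; fin_cases i <;> rfl
  · rw [h, h']; revert i; decide

theorem Sp_sg {x : Lat} (h : Sp c.n x) : Sp c.n (sg c.b x) := fun j hj =>
  h _ (by have := c.pm_lt j; omega)

theorem form_sg {x y : Lat} (hx : Sp c.n x) (hy : Sp c.n y) :
    form (sg c.b x) (sg c.b y) = form x y := by
  rcases c.ok with ⟨h, _, _⟩ | ⟨h, h', _⟩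
  · rw [h, sg_false, sg_false]
  · rw [h]; rw [h'] at hx hy; exact form_sg6 hx hy

theorem ip_sg {x y : Lat} (hx : Sp c.n x) (hy : Sp c.n y) :
    ip (sg c.b x) (sg c.b y) = ip x y := by rw [ip_eq, ip_eq, c.form_sg hx hy, c.form_sg hy hx]

theorem ip_sg' {x y : Lat} (hx : Sp c.n x) (hy : Sp c.n y) :
    ip (sg c.b x) y = ip x (sg c.b y) := by rw [← c.ip_sg hx (c.Sp_sg hy), sg_sg]

theorem eps_sg {x y : Lat} (hx : Sp c.n x) (hy : Sp c.n y) :
    eps (sg c.b x) (sg c.b y) = eps x y := by rw [eps, eps, c.form_sg hx hy]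

/-- roots of the subsystem -/
def R (x : Lat) : Prop := ip x x = 2 ∧ Sp c.n x

variable {c}

theorem R.sg {x : Lat} (h : c.R x) : c.R (sg c.b x) := ⟨by rw [c.ip_sg h.2 h.2, h.1], c.Sp_sg h.2⟩
theorem R.neg {x : Lat} (h : c.R x) : c.R (-x) := ⟨root_neg h.1, h.2.neg⟩
theorem R_a {i : Fin 8} (h : i.1 < c.n) : c.R (a i) := ⟨root_a i, Sp_a h⟩

theorem R.orth {x : Lat} (h : c.R x) (h' : Exc.sg c.b x ≠ x) : ip x (Exc.sg c.b x) = 0 := by
  rcases c.ok with ⟨hb, _, _⟩ | ⟨hb, hn, _⟩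
  · rw [hb, sg_false] at h'; exact absurd rfl h'
  · obtain ⟨h1, h2⟩ := h
    rw [hb] at h' ⊢; rw [hn] at h2
    rcases root_dich h1 with h3 | h3
    · rw [ip_x]; exact (sg_orth x (mem_posL h1 h3) h2).resolve_left fun h4 => h' (funext h4)
    · have := (sg_orth (-x) (mem_posL (root_neg h1) (neg_nonneg.2 h3)) h2.neg).resolve_left
        fun h4 => h' (neg_inj.1 (funext h4))
      rwa [← ip_x, sg_neg, ip_neg_left, ip_neg_right, neg_neg] at this

variable (c)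

def G : Subgroup (Aut K) := chev c.n c.b c.τ

noncomputable def Y (α : Lat) (t : K) : Aut K :=
  if sg c.b α = α then X α t else X α t * X (sg c.b α) (c.τ t)

def Al (α : Lat) (t : K) : Prop := sg c.b α = α → c.τ t = t

variable {c}

theorem Y_fix {α : Lat} (h : sg c.b α = α) (t : K) : c.Y α t = X α t := if_pos h
theorem Y_mov {α : Lat} (h : sg c.b α ≠ α) (t : K) :
    c.Y α t = X α t * X (sg c.b α) (c.τ t) := if_neg h

theorem Al.neg {α : Lat} {t : K} (h : c.Al α t) : c.Al α (-t) := fun h' => by rw [map_neg, h h']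
theorem Al.add {α : Lat} {s t : K} (h : c.Al α s) (h2 : c.Al α t) : c.Al α (s + t) :=
  fun h' => by rw [map_add, h h', h2 h']
theorem Al.inv {α : Lat} {t : K} (h : c.Al α t) : c.Al α t⁻¹ := fun h' => by rw [map_inv₀, h h']
theorem Al.neg' {α : Lat} {t : K} (h : c.Al α t) : c.Al (-α) t := fun h' => h (neg_inj.1 h')
theorem Al_fix {t : K} (h : c.τ t = t) (α : Lat) : c.Al α t := fun _ => h
theorem Al_one (α : Lat) : c.Al α 1 := fun _ => map_one _
theorem Al_zero (α : Lat) : c.Al α 0 := fun _ => map_zero _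

theorem Y_mem {α : Lat} (h : c.R α) {t : K} (ht : c.Al α t) : c.Y α t ∈ c.G := by
  apply Subgroup.subset_closure
  refine ⟨⟨α, h.1⟩, ⟨sg c.b α, h.sg.1⟩, t, h.2, (sig_eq _ _).symm, ?_⟩
  by_cases h' : sg c.b α = α
  · exact Or.inl ⟨Subtype.ext h', ht h', by rw [Y_fix h', X_eq]⟩
  · exact Or.inr ⟨fun h2 => h' (congrArg Subtype.val h2), by rw [Y_mov h', X_eq, X_eq]⟩

theorem gen_Y {g : Aut K} (hg : g ∈ {g : Aut K | ∃ (α β : Root) (t : K),
    (∀ j : Fin 8, c.n ≤ j.1 → α.1 j = 0) ∧ β.1 = sig c.b α.1 ∧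
    ((β = α ∧ c.τ t = t ∧ g = x α t) ∨ (β ≠ α ∧ g = x α t * x β (c.τ t)))}) :
    ∃ α t, c.R α ∧ c.Al α t ∧ g = c.Y α t := by
  obtain ⟨α, β, t, h1, h2, h3⟩ := hg
  rw [sig_eq] at h2
  refine ⟨α.1, t, ⟨α.2, h1⟩, ?_⟩
  rcases h3 with ⟨rfl, h4, rfl⟩ | ⟨h4, rfl⟩
  · exact ⟨Al_fix h4 _, by rw [Y_fix h2.symm, X_eq]⟩
  · have h5 : sg c.b α.1 ≠ α.1 := fun h => h4 (Subtype.ext (h2.trans h))
    exact ⟨fun h => absurd h h5, by rw [Y_mov h5, X_eq, X_eq, h2]⟩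

theorem G_le {H : Subgroup (Aut K)} (h : ∀ α t, c.R α → c.Al α t → c.Y α t ∈ H) : c.G ≤ H :=
  (Subgroup.closure_le _).2 fun g hg => by
    obtain ⟨α, t, h1, h2, rfl⟩ := gen_Y hg
    exact h α t h1 h2

theorem Y_aut (α : Lat) (t : K) : c.Y α t ∈ AutG K := by
  unfold Y; split_ifs
  · exact X_aut _ _
  · exact mul_mem (X_aut _ _) (X_aut _ _)

theorem G_aut {g : Aut K} (hg : g ∈ c.G) : g ∈ AutG K := G_le (fun α t _ _ => Y_aut α t) hg

theorem Y_add {α : Lat} (h : c.R α) (s t : K) : c.Y α s * c.Y α t = c.Y α (s + t) := by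
  by_cases h' : sg c.b α = α
  · simp only [Y_fix h', X_add]
  · simp only [Y_mov h', map_add, ← X_add]
    have := X_comm h.1 h.sg.1 (h.orth h').ge t (c.τ s)
    rw [mul_assoc, ← mul_assoc (X (sg c.b α) (c.τ s)), ← this]; simp only [mul_assoc]

theorem Y_zero (α : Lat) : c.Y α 0 = 1 := by
  unfold Y; split_ifs <;> simp [X_zero]

theorem Y_inv {α : Lat} (h : c.R α) (t : K) : (c.Y α t)⁻¹ = c.Y α (-t) := by
  rw [inv_eq_iff_mul_eq_one, Y_add h, add_neg_cancel, Y_zero]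

theorem Y_sg {α : Lat} (h : c.R α) {t : K} (ht : c.Al α t) :
    c.Y (sg c.b α) (c.τ t) = c.Y α t := by
  by_cases h' : sg c.b α = α
  · rw [h', ht h']
  · rw [Y_mov h', Y_mov (by rw [sg_sg]; exact Ne.symm h'), sg_sg, c.ττ,
      X_comm h.1 h.sg.1 (h.orth h').ge]

theorem G_induction {p : Aut K → Prop} (h1 : p 1)
    (h : ∀ α t g, c.R α → c.Al α t → p g → p (c.Y α t * g)) {g : Aut K} (hg : g ∈ c.G) : p g := by
  induction hg using Subgroup.closure_induction_left with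
  | one => exact h1
  | mul_left x hx y _ hy =>
    obtain ⟨α, t, h2, h3, rfl⟩ := gen_Y hx
    exact h α t y h2 h3 hy
  | inv_mul_cancel x hx y _ hy =>
    obtain ⟨α, t, h2, h3, rfl⟩ := gen_Y hx
    rw [Y_inv h2]; exact h α _ y h2 h3.neg hy

/-! The subalgebra and the semilinear graph-field automorphism. -/

variable (c)

def V : Submodule K (L K) where
  carrier := {v | (∀ j : Fin 8, c.n ≤ j.1 → v.1 j = 0) ∧ ∀ β, ¬ Sp c.n β → co β v = 0}
  zero_mem' := ⟨fun _ _ => rfl, fun _ _ => map_zero _⟩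
  add_mem' := fun {v w} hv hw => ⟨fun j hj => by simp [hv.1 j hj, hw.1 j hj],
    fun β hβ => by simp [hv.2 β hβ, hw.2 β hβ]⟩
  smul_mem' := fun r v hv => ⟨fun j hj => by simp [hv.1 j hj], fun β hβ => by simp [hv.2 β hβ]⟩

def st : L K →ₛₗ[c.τ] L K where
  toFun v := (fun i => c.τ (v.1 (pm c.b i)), fun β => c.τ (co (sg c.b β.1) v))
  map_add' v w := by ext <;> simp
  map_smul' r v := by ext <;> simp

variable {c}

theorem hv_mem {y : Lat} (h : Sp c.n y) : (hv y : L K) ∈ c.V :=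
  ⟨fun j hj => by simp [hv, h j hj], fun β _ => co_hv _ _⟩

theorem e_mem {y : Lat} (h : Sp c.n y) : (e y : L K) ∈ c.V :=
  ⟨fun _ _ => rfl, fun _ hβ => co_e_ne fun h' => hβ (h' ▸ h)⟩

theorem V_ind {P : L K → Prop} (hadd : ∀ v w, v ∈ c.V → w ∈ c.V → P v → P w → P (v + w))
    (hsmul : ∀ (r : K) v, v ∈ c.V → P v → P (r • v)) (h1 : ∀ i : Fin 8, i.1 < c.n → P (hv (a i)))
    (h2 : ∀ β, c.R β → P (e β)) {v : L K} (hv' : v ∈ c.V) : P v := by
  have hn : (0 : Fin 8).1 < c.n := by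
    rcases c.ok with ⟨_, _, h | h | h⟩ | ⟨_, h, _⟩ <;> simp [h]
  have h0 : P 0 := by simpa using hsmul 0 _ (hv_mem (Sp_a hn)) (h1 0 hn)
  have hadd' : ∀ v w, (v ∈ c.V ∧ P v) → (w ∈ c.V ∧ P w) → (v + w ∈ c.V ∧ P (v + w)) :=
    fun v w hv hw => ⟨add_mem hv.1 hw.1, hadd v w hv.1 hw.1 hv.2 hw.2⟩
  rw [L_decomp v]
  refine (hadd' _ _ (Finset.sum_induction _ (fun v => v ∈ c.V ∧ P v) hadd' ⟨zero_mem _, h0⟩
    fun i _ => ?_) (Finset.sum_induction _ (fun v => v ∈ c.V ∧ P v) hadd' ⟨zero_mem _, h0⟩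
    fun β _ => ?_)).2
  · by_cases hi : i.1 < c.n
    · exact ⟨c.V.smul_mem _ (hv_mem (Sp_a hi)), hsmul _ _ (hv_mem (Sp_a hi)) (h1 i hi)⟩
    · rw [hv'.1 i (by omega), zero_smul]; exact ⟨zero_mem _, h0⟩
  · by_cases hβ : Sp c.n β.1
    · exact ⟨c.V.smul_mem _ (e_mem hβ), hsmul _ _ (e_mem hβ) (h2 _ ⟨β.2, hβ⟩)⟩
    · rw [← co_of_root β.2, hv'.2 _ hβ, zero_smul]; exact ⟨zero_mem _, h0⟩

theorem st_hv (y : Lat) : c.st (hv y) = hv (sg c.b y) := by
  ext <;> simp [st, hv, sg]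
  rw [← hv, co_hv]

theorem st_e {y : Lat} (h : Sp c.n y) : c.st (e y) = e (sg c.b y) := by
  ext i
  · simp [st, e]
  · change c.τ (co (sg c.b i.1) (e y)) = if i.1 = sg c.b y then 1 else 0
    rw [co_e]
    by_cases h1 : i.1 = sg c.b y
    · have h2 : ip y y = 2 := by rw [← c.ip_sg h h, ← h1, i.2]
      simp [h1, sg_sg, h2]
    · have h2 : sg c.b i.1 ≠ y := fun h' => h1 (by rw [← h', sg_sg])
      simp [h1, h2]

theorem st_fst (v : L K) (i : Fin 8) : (c.st v).1 i = c.τ (v.1 (pm c.b i)) := rfl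

theorem ad_mem {α : Lat} (h : c.R α) {v : L K} (hv' : v ∈ c.V) : ad α v ∈ c.V := by
  refine V_ind (P := fun v => ad α v ∈ c.V) (fun v w _ _ h1 h2 => ?_) (fun r v _ h1 => ?_)
    (fun i _ => ?_) (fun β hβ => ?_) hv'
  · rw [map_add]; exact add_mem h1 h2
  · rw [map_smul]; exact c.V.smul_mem _ h1
  · rw [ad_hv]; exact c.V.smul_mem _ (e_mem h.2)
  · rw [ad_e hβ.1]
    refine sub_mem (c.V.smul_mem _ (e_mem (h.2.add hβ.2))) ?_
    split_ifs
    · exact hv_mem h.2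
    · exact zero_mem _

theorem X_mem {α : Lat} (h : c.R α) (t : K) {v : L K} (hv' : v ∈ c.V) : X α t v ∈ c.V := by
  rw [X_apply h.1]
  exact add_mem (add_mem hv' (c.V.smul_mem _ (ad_mem h hv'))) (c.V.smul_mem _ (e_mem h.2))

theorem st_mem {v : L K} (hv' : v ∈ c.V) : c.st v ∈ c.V := by
  refine V_ind (P := fun v => c.st v ∈ c.V) (fun v w _ _ h1 h2 => ?_) (fun r v _ h1 => ?_)
    (fun i hi => ?_) (fun β hβ => ?_) hv'
  · rw [map_add]; exact add_mem h1 h2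
  · rw [map_smulₛₗ]; exact c.V.smul_mem _ h1
  · rw [st_hv]; exact hv_mem (c.Sp_sg (Sp_a hi))
  · rw [st_e hβ.2]; exact e_mem hβ.sg.2

theorem st_st {v : L K} (hv' : v ∈ c.V) : c.st (c.st v) = v := by
  refine V_ind (P := fun v => c.st (c.st v) = v) (fun v w _ _ h1 h2 => ?_) (fun r v _ h1 => ?_)
    (fun i hi => ?_) (fun β hβ => ?_) hv'
  · simp only [map_add, h1, h2]
  · simp only [map_smulₛₗ, h1, c.ττ]
  · rw [st_hv, st_hv, sg_sg]
  · rw [st_e hβ.2, st_e hβ.sg.2, sg_sg]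

theorem co_st {α : Lat} (h : c.R α) (v : L K) : co (sg c.b α) (c.st v) = c.τ (co α v) := by
  rw [co_of_root h.sg.1]
  change c.τ (co (sg c.b (sg c.b α)) v) = _
  rw [sg_sg]

theorem st_ad {α : Lat} (h : c.R α) {v : L K} (hv' : v ∈ c.V) :
    c.st (ad α v) = ad (sg c.b α) (c.st v) := by
  refine V_ind (P := fun v => c.st (ad α v) = ad (sg c.b α) (c.st v)) (fun v w _ _ h1 h2 => ?_)
    (fun r v _ h1 => ?_) (fun i hi => ?_) (fun β hβ => ?_) hv'
  · simp only [map_add, h1, h2]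
  · simp only [map_smulₛₗ, h1, RingHom.id_apply]
  · rw [st_hv, ad_hv, ad_hv, map_smulₛₗ, st_e h.2, c.ip_sg (Sp_a hi) h.2]; simp
  · rw [st_e hβ.2, ad_e hβ.1, ad_e hβ.sg.1, map_sub, map_smulₛₗ, st_e (h.2.add hβ.2),
      c.eps_sg h.2 hβ.2, ← sg_add]
    have : sg c.b (α + β) = 0 ↔ α + β = 0 := by rw [← sg_zero c.b, sg_inj, sg_zero]
    by_cases h1 : α + β = 0
    · simp [h1, sg_zero, st_hv]
    · simp [h1, this]

theorem st_X {α : Lat} (h : c.R α) (t : K) {v : L K} (hv' : v ∈ c.V) :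
    c.st (X α t v) = X (sg c.b α) (c.τ t) (c.st v) := by
  rw [X_apply h.1, X_apply h.sg.1, map_add, map_add, map_smulₛₗ, map_smulₛₗ, st_ad h hv',
    st_e h.2, ← sg_neg, co_st h.neg]
  simp

theorem G_V {g : Aut K} (hg : g ∈ c.G) :
    ∀ v ∈ c.V, g v ∈ c.V ∧ c.st (g v) = g (c.st v) := by
  refine G_induction (p := fun g => ∀ v ∈ c.V, g v ∈ c.V ∧ c.st (g v) = g (c.st v))
    (fun v hv => ⟨hv, rfl⟩) (fun α t g h ht hp v hv => ?_) hg
  obtain ⟨h1, h2⟩ := hp v hv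
  simp only [LinearEquiv.mul_apply, ← h2]
  by_cases h' : sg c.b α = α
  · rw [Y_fix h']
    exact ⟨X_mem h t h1, by rw [st_X h t h1, h', ht h']⟩
  · rw [Y_mov h']
    refine ⟨X_mem h t (X_mem h.sg _ h1), ?_⟩
    rw [LinearEquiv.mul_apply, st_X h t (X_mem h.sg _ h1), st_X h.sg _ h1, sg_sg, c.ττ,
      X_comm h.1 h.sg.1 (h.orth h').ge]
    rfl

theorem G_mem {g : Aut K} (hg : g ∈ c.G) {v : L K} (hv : v ∈ c.V) : g v ∈ c.V := (G_V hg v hv).1

theorem G_st {g : Aut K} (hg : g ∈ c.G) {v : L K} (hv : v ∈ c.V) : c.st (g v) = g (c.st v) :=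
  (G_V hg v hv).2

theorem gf_st {v w : L K} (hv' : v ∈ c.V) (hw : w ∈ c.V) :
    gf (c.st v) (c.st w) = c.τ (gf v w) := by
  refine V_ind (P := fun v => gf (c.st v) (c.st w) = c.τ (gf v w)) (fun v w _ _ h1 h2 => ?_)
    (fun r v _ h1 => ?_) (fun i hi => ?_) (fun β hβ => ?_) hv'
  · simp only [map_add, LinearMap.add_apply, h1, h2]
  · simp only [map_smulₛₗ, LinearMap.smul_apply, h1, RingHom.id_apply, smul_eq_mul, map_mul]
  · refine V_ind (P := fun w => gf (c.st (hv (a i))) (c.st w) = c.τ (gf (hv (a i)) w))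
      (fun v w _ _ h1 h2 => ?_) (fun r v _ h1 => ?_) (fun j hj => ?_) (fun β hβ => ?_) hw
    · simp only [map_add, h1, h2]
    · simp only [map_smulₛₗ, h1, RingHom.id_apply, smul_eq_mul, map_mul]
    · rw [st_hv, st_hv, gf_hv_hv, gf_hv_hv, c.ip_sg (Sp_a hi) (Sp_a hj)]; simp
    · rw [st_hv, st_e hβ.2, gf_hv_e, gf_hv_e, map_zero]
  · rw [st_e hβ.2, gf_e hβ.1, gf_e hβ.sg.1, ← sg_neg, co_st hβ.neg]

end Cfg

end Pool.Agent.MP_db74b1_al.Exc
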