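import Pool.Agent.MP_db74b1_al.ExcDefs

set_option autoImplicit false

namespace Pool.Agent.MP_db74b1_al.Exc

/-! Lattice facts. -/

def v8 (a b c d e f g h : ℤ) : Lat
  | 0 => a | 1 => b | 2 => c | 3 => d | 4 => e | 5 => f | 6 => g | 7 => h

def a (i : Fin 8) : Lat := fun j => if j = i then 1 else 0

theorem a_eq (i : Fin 8) : Pi.single i 1 = a i := by
  ext j; simp [a, Pi.single_apply]

def formx (x y : Lat) : ℤ :=
  x 0 * y 0 + x 1 * y 1 + x 2 * y 2 + x 3 * y 3 + x 4 * y 4 + x 5 * y 5 + x 6 * y 6 + x 7 * y 7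
   - x 0 * y 2 - x 2 * y 3 - x 1 * y 3 - x 4 * y 3 - x 5 * y 4 - x 6 * y 5 - x 7 * y 6

theorem form_x (x y : Lat) : form x y = formx x y := by
  simp [form, formx, dotProduct, Fin.sum_univ_eight]

def ipx (x y : Lat) : ℤ := formx x y + formx y x

theorem ip_x (x y : Lat) : ip x y = ipx x y := by rw [ip_eq, form_x, form_x, ipx]

def epsx (x y : Lat) : ℤ := if formx x y % 2 = 0 then 1 else -1

theorem eps_x (x y : Lat) : eps x y = epsx x y := by
  simp only [eps, epsx, form_x, Int.even_iff]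

theorem ip_add_left (x y z : Lat) : ip (x + y) z = ip x z + ip y z := by
  simp [ip, add_dotProduct]

theorem ip_add_right (x y z : Lat) : ip x (y + z) = ip x y + ip x z := by
  rw [ip_comm, ip_add_left, ip_comm y, ip_comm z]

theorem ip_smul_left (c : ℤ) (x z : Lat) : ip (c • x) z = c * ip x z := by
  simp only [ip, smul_dotProduct, smul_eq_mul]

theorem ip_smul_right (c : ℤ) (x z : Lat) : ip x (c • z) = c * ip x z := by
  rw [ip_comm, ip_smul_left, ip_comm z]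

theorem ip_zero_left (z : Lat) : ip 0 z = 0 := by simp [ip]

theorem ip_zero_right (z : Lat) : ip z 0 = 0 := by simp [ip]

theorem ip_sos (x : Lat) : 4 * ip x x = (x 0 + 2 * x 1 - 2 * x 2) ^ 2
    + (-x 0 + 2 * x 1 + 2 * x 2 - 2 * x 3) ^ 2 + (-x 0 + 2 * x 3 - 2 * x 4) ^ 2
    + (-x 0 + 2 * x 4 - 2 * x 5) ^ 2 + (-x 0 + 2 * x 5 - 2 * x 6) ^ 2
    + (-x 0 + 2 * x 6 - 2 * x 7) ^ 2 + (-x 0 + 2 * x 7) ^ 2 + (x 0) ^ 2 := by
  rw [ip_x, ipx, formx]; ring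

theorem ip_self_nonneg (x : Lat) : 0 ≤ ip x x := by
  have := ip_sos x
  have h : 0 ≤ 4 * ip x x := by rw [this]; positivity
  omega

theorem lat_ext {x y : Lat} (h0 : x 0 = y 0) (h1 : x 1 = y 1) (h2 : x 2 = y 2) (h3 : x 3 = y 3)
    (h4 : x 4 = y 4) (h5 : x 5 = y 5) (h6 : x 6 = y 6) (h7 : x 7 = y 7) : x = y := by
  ext i; fin_cases i <;> assumption

theorem ip_self_eq_zero {x : Lat} (h : ip x x = 0) : x = 0 := by
  have := ip_sos x
  rw [h] at this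
  have s1 := sq_nonneg (x 0 + 2 * x 1 - 2 * x 2)
  have s2 := sq_nonneg (-x 0 + 2 * x 1 + 2 * x 2 - 2 * x 3)
  have s3 := sq_nonneg (-x 0 + 2 * x 3 - 2 * x 4)
  have s4 := sq_nonneg (-x 0 + 2 * x 4 - 2 * x 5)
  have s5 := sq_nonneg (-x 0 + 2 * x 5 - 2 * x 6)
  have s6 := sq_nonneg (-x 0 + 2 * x 6 - 2 * x 7)
  have s7 := sq_nonneg (-x 0 + 2 * x 7)
  have s8 := sq_nonneg (x 0)
  have t1 := pow_eq_zero_iff (two_ne_zero) |>.1 (show (x 0 + 2 * x 1 - 2 * x 2) ^ 2 = 0 by linarith)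
  have t2 := pow_eq_zero_iff (two_ne_zero) |>.1
    (show (-x 0 + 2 * x 1 + 2 * x 2 - 2 * x 3) ^ 2 = 0 by linarith)
  have t3 := pow_eq_zero_iff (two_ne_zero) |>.1 (show (-x 0 + 2 * x 3 - 2 * x 4) ^ 2 = 0 by linarith)
  have t4 := pow_eq_zero_iff (two_ne_zero) |>.1 (show (-x 0 + 2 * x 4 - 2 * x 5) ^ 2 = 0 by linarith)
  have t5 := pow_eq_zero_iff (two_ne_zero) |>.1 (show (-x 0 + 2 * x 5 - 2 * x 6) ^ 2 = 0 by linarith)
  have t6 := pow_eq_zero_iff (two_ne_zero) |>.1 (show (-x 0 + 2 * x 6 - 2 * x 7) ^ 2 = 0 by linarith)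
  have t7 := pow_eq_zero_iff (two_ne_zero) |>.1 (show (-x 0 + 2 * x 7) ^ 2 = 0 by linarith)
  have t8 := pow_eq_zero_iff (two_ne_zero) |>.1 (show (x 0) ^ 2 = 0 by linarith)
  clear this s1 s2 s3 s4 s5 s6 s7 s8
  have u7 : x 7 = 0 := by omega
  have u6 : x 6 = 0 := by omega
  have u5 : x 5 = 0 := by omega
  have u4 : x 4 = 0 := by omega
  have u3 : x 3 = 0 := by omega
  have u2 : x 2 = 0 := by omega
  have u1 : x 1 = 0 := by omega
  exact lat_ext t8 u1 u2 u3 u4 u5 u6 u7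

theorem ip_self_form (x : Lat) : ip x x = 2 * form x x := by rw [ip_eq]; ring

theorem two_le_ip_self {x : Lat} (h : x ≠ 0) : 2 ≤ ip x x := by
  have h1 := ip_self_nonneg x
  have h2 := ip_self_form x
  have h3 : ip x x ≠ 0 := fun h' => h (ip_self_eq_zero h')
  omega

theorem norm_add (x y : Lat) : ip (x + y) (x + y) = ip x x + 2 * ip x y + ip y y := by
  rw [ip_add_left, ip_add_right, ip_add_right, ip_comm y x]; ring

theorem norm_sub (x y : Lat) : ip (x - y) (x - y) = ip x x - 2 * ip x y + ip y y := by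
  rw [ip_sub_left, ip_sub_right, ip_sub_right, ip_comm y x]; ring

theorem norm_neg (x : Lat) : ip (-x) (-x) = ip x x := by
  rw [ip_neg_left, ip_neg_right, neg_neg]

theorem root_neg {x : Lat} (h : ip x x = 2) : ip (-x) (-x) = 2 := by rw [norm_neg, h]

theorem root_ne_zero {x : Lat} (h : ip x x = 2) : x ≠ 0 := by
  rintro rfl; rw [ip_zero_left] at h; omega

theorem ip_le_one {x y : Lat} (hx : ip x x = 2) (hy : ip y y = 2) (h : x ≠ y) : ip x y ≤ 1 := by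
  have h1 := two_le_ip_self (sub_ne_zero.2 h)
  rw [norm_sub] at h1
  omega

theorem ip_le_two {x y : Lat} (hx : ip x x = 2) (hy : ip y y = 2) : ip x y ≤ 2 := by
  by_cases h : x = y
  · rw [← h, hx]
  · have := ip_le_one hx hy h; omega

theorem neg_one_le_ip {x y : Lat} (hx : ip x x = 2) (hy : ip y y = 2) (h : x + y ≠ 0) :
    -1 ≤ ip x y := by
  have h1 := two_le_ip_self h
  rw [norm_add] at h1
  omega

theorem root_add {x y : Lat} (hx : ip x x = 2) (hy : ip y y = 2) :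
    ip (x + y) (x + y) = 2 ↔ ip x y = -1 := by rw [norm_add]; omega

theorem root_sub {x y : Lat} (hx : ip x x = 2) (hy : ip y y = 2) :
    ip (x - y) (x - y) = 2 ↔ ip x y = 1 := by rw [norm_sub]; omega

/-! Signs. -/

theorem form_add_left (x y z : Lat) : form (x + y) z = form x z + form y z := by
  simp only [form_x, formx, Pi.add_apply]; ring

theorem form_add_right (x y z : Lat) : form x (y + z) = form x y + form x z := by
  simp only [form_x, formx, Pi.add_apply]; ring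

theorem form_neg_left (x z : Lat) : form (-x) z = -form x z := by
  simp only [form_x, formx, Pi.neg_apply]; ring

theorem form_neg_right (x z : Lat) : form x (-z) = -form x z := by
  simp only [form_x, formx, Pi.neg_apply]; ring

theorem eps_add_left (x y z : Lat) : eps (x + y) z = eps x z * eps y z := by
  simp only [eps, form_add_left, Int.even_iff]
  split_ifs <;> omega

theorem eps_add_right (x y z : Lat) : eps x (y + z) = eps x y * eps x z := by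
  simp only [eps, form_add_right, Int.even_iff]
  split_ifs <;> omega

theorem eps_neg_left (x z : Lat) : eps (-x) z = eps x z := by
  simp only [eps, form_neg_left, even_neg]

theorem eps_neg_right (x z : Lat) : eps x (-z) = eps x z := by
  simp only [eps, form_neg_right, even_neg]

theorem eps_sub_left (x y z : Lat) : eps (x - y) z = eps x z * eps y z := by
  rw [sub_eq_add_neg, eps_add_left, eps_neg_left]

theorem eps_sub_right (x y z : Lat) : eps x (y - z) = eps x y * eps x z := by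
  rw [sub_eq_add_neg, eps_add_right, eps_neg_right]

theorem eps_cases (x y : Lat) : eps x y = 1 ∨ eps x y = -1 := by
  unfold eps; split_ifs <;> simp

theorem eps_mul_self (x y : Lat) : eps x y * eps x y = 1 := by
  rcases eps_cases x y with h | h <;> simp [h]

theorem eps_self {x : Lat} (h : ip x x = 2) : eps x x = -1 := by
  have := ip_self_form x
  simp only [eps, Int.even_iff]
  rw [if_neg]; omega

theorem eps_swap_odd {x y : Lat} (h : ip x y % 2 = 1) : eps y x = -eps x y := by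
  have := ip_eq x y
  simp only [eps, Int.even_iff]
  split_ifs <;> omega

theorem eps_swap_even {x y : Lat} (h : ip x y % 2 = 0) : eps y x = eps x y := by
  have := ip_eq x y
  simp only [eps, Int.even_iff]
  split_ifs <;> omega

/-! Simple roots, height, positivity. -/

def cv (x : Lat) : Lat :=
  v8 (2 * x 0 - x 2) (2 * x 1 - x 3) (2 * x 2 - x 0 - x 3) (2 * x 3 - x 1 - x 2 - x 4)
    (2 * x 4 - x 3 - x 5) (2 * x 5 - x 4 - x 6) (2 * x 6 - x 5 - x 7) (2 * x 7 - x 6)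

theorem ip_a (x : Lat) (i : Fin 8) : ip x (a i) = cv x i := by
  rw [ip_x]
  fin_cases i <;> simp [ipx, formx, a, cv, v8] <;> ring

theorem root_a (i : Fin 8) : ip (a i) (a i) = 2 := by
  rw [ip_a]; revert i; decide

def ht (x : Lat) : ℤ := x 0 + x 1 + x 2 + x 3 + x 4 + x 5 + x 6 + x 7

theorem ht_add (x y : Lat) : ht (x + y) = ht x + ht y := by simp only [ht, Pi.add_apply]; ring
theorem ht_sub (x y : Lat) : ht (x - y) = ht x - ht y := by simp only [ht, Pi.sub_apply]; ring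
theorem ht_neg (x : Lat) : ht (-x) = -ht x := by simp only [ht, Pi.neg_apply]; ring
theorem ht_smul (c : ℤ) (x : Lat) : ht (c • x) = c * ht x := by
  simp only [ht, Pi.smul_apply, smul_eq_mul]; ring
theorem ht_a (i : Fin 8) : ht (a i) = 1 := by revert i; decide
theorem ht_zero : ht 0 = 0 := rfl

def rho : Lat := v8 46 68 91 135 110 84 57 29

theorem ip_rho (x : Lat) : ip rho x = ht x := by
  rw [ip_x]; simp only [ipx, formx, rho, v8, ht]; ring

theorem lat_sum (x : Lat) : x = x 0 • a 0 + x 1 • a 1 + x 2 • a 2 + x 3 • a 3 + x 4 • a 4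
    + x 5 • a 5 + x 6 • a 6 + x 7 • a 7 := by
  apply lat_ext <;> simp [a]

theorem ip_expand (x y : Lat) : ip y x = x 0 * cv y 0 + x 1 * cv y 1 + x 2 * cv y 2 + x 3 * cv y 3
    + x 4 * cv y 4 + x 5 * cv y 5 + x 6 * cv y 6 + x 7 * cv y 7 := by
  rw [ip_x]; simp only [ipx, formx, cv, v8]; ring

theorem root_dich {x : Lat} (h : ip x x = 2) : 0 ≤ x ∨ x ≤ 0 := by
  by_contra hc
  rw [not_or] at hc
  set p : Lat := fun i => max (x i) 0 with hp
  set q : Lat := fun i => max (-x i) 0 with hq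
  have hx : x = p - q := by ext i; simp only [hp, hq, Pi.sub_apply]; omega
  have hp0 : p ≠ 0 := fun h0 => hc.2 fun i => by
    have := congrFun h0 i; simp only [hp, Pi.zero_apply] at this ⊢; omega
  have hq0 : q ≠ 0 := fun h0 => hc.1 fun i => by
    have := congrFun h0 i; simp only [hq, Pi.zero_apply] at this ⊢; omega
  have h1 := two_le_ip_self hp0
  have h2 := two_le_ip_self hq0
  have hz : ∀ i, p i * q i = 0 := fun i => by
    simp only [hp, hq]; rcases le_total (x i) 0 with h | h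
    · rw [max_eq_right h, zero_mul]
    · rw [max_eq_right (neg_nonpos.2 h), mul_zero]
  have hn : ∀ i j, 0 ≤ p i * q j := fun i j => mul_nonneg (le_max_right _ _) (le_max_right _ _)
  have h3 : ip p q ≤ 0 := by
    rw [ip_x]; simp only [ipx, formx]
    simp only [mul_comm (q _) (p _), hz]
    have := hn 0 2; have := hn 2 0; have := hn 2 3; have := hn 3 2; have := hn 1 3
    have := hn 3 1; have := hn 4 3; have := hn 3 4; have := hn 5 4; have := hn 4 5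
    have := hn 6 5; have := hn 5 6; have := hn 7 6; have := hn 6 7
    linarith
  rw [hx, norm_sub] at h
  omega

theorem ht_nonneg {x : Lat} (h : 0 ≤ x) : 0 ≤ ht x := by
  have := h 0; have := h 1; have := h 2; have := h 3; have := h 4; have := h 5; have := h 6
  have := h 7
  simp only [Pi.zero_apply, ht] at *; omega

theorem ht_pos {x : Lat} (h : 0 ≤ x) (h0 : x ≠ 0) : 0 < ht x := by
  by_contra hc
  apply h0
  have := h 0; have := h 1; have := h 2; have := h 3; have := h 4; have := h 5; have := h 6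
  have := h 7
  simp only [Pi.zero_apply, ht] at *
  apply lat_ext <;> simp only [Pi.zero_apply] <;> omega

theorem pos_of_ht {x : Lat} (h : ip x x = 2) (h0 : 0 ≤ ht x) : 0 ≤ x := by
  rcases root_dich h with h1 | h1
  · exact h1
  · have := ht_pos (neg_nonneg.2 h1) (neg_ne_zero.2 (root_ne_zero h))
    rw [ht_neg] at this; omega

theorem root_ht_pos {x : Lat} (h : ip x x = 2) (h0 : 0 ≤ x) : 0 < ht x :=
  ht_pos h0 (root_ne_zero h)

theorem root_ht_neg {x : Lat} (h : ip x x = 2) (h0 : ¬ 0 ≤ x) : ht x < 0 := by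
  by_contra hc
  exact h0 (pos_of_ht h (by omega))

theorem exists_cv_pos {x : Lat} (h : ip x x = 2) (h0 : 0 ≤ x) : ∃ i, 0 < cv x i := by
  by_contra hc
  push Not at hc
  rw [ip_expand] at h
  have k := fun i => mul_nonpos_of_nonneg_of_nonpos (h0 i) (hc i)
  have := k 0; have := k 1; have := k 2; have := k 3; have := k 4
  have := k 5; have := k 6; have := k 7
  linarith

def posL : List Lat :=
  [v8 1 0 0 0 0 0 0 0, v8 0 1 0 0 0 0 0 0, v8 0 0 1 0 0 0 0 0, v8 0 0 0 1 0 0 0 0,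
  v8 0 0 0 0 1 0 0 0, v8 0 0 0 0 0 1 0 0, v8 0 0 0 0 0 0 1 0, v8 0 0 0 0 0 0 0 1,
  v8 1 0 1 0 0 0 0 0, v8 0 1 0 1 0 0 0 0, v8 0 0 1 1 0 0 0 0, v8 0 0 0 1 1 0 0 0,
  v8 0 0 0 0 1 1 0 0, v8 0 0 0 0 0 1 1 0, v8 0 0 0 0 0 0 1 1, v8 1 0 1 1 0 0 0 0,
  v8 0 1 1 1 0 0 0 0, v8 0 1 0 1 1 0 0 0, v8 0 0 1 1 1 0 0 0, v8 0 0 0 1 1 1 0 0,
  v8 0 0 0 0 1 1 1 0, v8 0 0 0 0 0 1 1 1, v8 1 1 1 1 0 0 0 0, v8 1 0 1 1 1 0 0 0,
  v8 0 1 1 1 1 0 0 0, v8 0 1 0 1 1 1 0 0, v8 0 0 1 1 1 1 0 0, v8 0 0 0 1 1 1 1 0,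
  v8 0 0 0 0 1 1 1 1, v8 1 1 1 1 1 0 0 0, v8 1 0 1 1 1 1 0 0, v8 0 1 1 2 1 0 0 0,
  v8 0 1 1 1 1 1 0 0, v8 0 1 0 1 1 1 1 0, v8 0 0 1 1 1 1 1 0, v8 0 0 0 1 1 1 1 1,
  v8 1 1 1 2 1 0 0 0, v8 1 1 1 1 1 1 0 0, v8 1 0 1 1 1 1 1 0, v8 0 1 1 2 1 1 0 0,
  v8 0 1 1 1 1 1 1 0, v8 0 1 0 1 1 1 1 1, v8 0 0 1 1 1 1 1 1, v8 1 1 2 2 1 0 0 0,
  v8 1 1 1 2 1 1 0 0, v8 1 1 1 1 1 1 1 0, v8 1 0 1 1 1 1 1 1, v8 0 1 1 2 2 1 0 0,
  v8 0 1 1 2 1 1 1 0, v8 0 1 1 1 1 1 1 1, v8 1 1 2 2 1 1 0 0, v8 1 1 1 2 2 1 0 0,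
  v8 1 1 1 2 1 1 1 0, v8 1 1 1 1 1 1 1 1, v8 0 1 1 2 2 1 1 0, v8 0 1 1 2 1 1 1 1,
  v8 1 1 2 2 2 1 0 0, v8 1 1 2 2 1 1 1 0, v8 1 1 1 2 2 1 1 0, v8 1 1 1 2 1 1 1 1,
  v8 0 1 1 2 2 2 1 0, v8 0 1 1 2 2 1 1 1, v8 1 1 2 3 2 1 0 0, v8 1 1 2 2 2 1 1 0,
  v8 1 1 2 2 1 1 1 1, v8 1 1 1 2 2 2 1 0, v8 1 1 1 2 2 1 1 1, v8 0 1 1 2 2 2 1 1,
  v8 1 2 2 3 2 1 0 0, v8 1 1 2 3 2 1 1 0, v8 1 1 2 2 2 2 1 0, v8 1 1 2 2 2 1 1 1,
  v8 1 1 1 2 2 2 1 1, v8 0 1 1 2 2 2 2 1, v8 1 2 2 3 2 1 1 0, v8 1 1 2 3 2 2 1 0,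
  v8 1 1 2 3 2 1 1 1, v8 1 1 2 2 2 2 1 1, v8 1 1 1 2 2 2 2 1, v8 1 2 2 3 2 2 1 0,
  v8 1 2 2 3 2 1 1 1, v8 1 1 2 3 3 2 1 0, v8 1 1 2 3 2 2 1 1, v8 1 1 2 2 2 2 2 1,
  v8 1 2 2 3 3 2 1 0, v8 1 2 2 3 2 2 1 1, v8 1 1 2 3 3 2 1 1, v8 1 1 2 3 2 2 2 1,
  v8 1 2 2 4 3 2 1 0, v8 1 2 2 3 3 2 1 1, v8 1 2 2 3 2 2 2 1, v8 1 1 2 3 3 2 2 1,
  v8 1 2 3 4 3 2 1 0, v8 1 2 2 4 3 2 1 1, v8 1 2 2 3 3 2 2 1, v8 1 1 2 3 3 3 2 1,
  v8 2 2 3 4 3 2 1 0, v8 1 2 3 4 3 2 1 1, v8 1 2 2 4 3 2 2 1, v8 1 2 2 3 3 3 2 1,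
  v8 2 2 3 4 3 2 1 1, v8 1 2 3 4 3 2 2 1, v8 1 2 2 4 3 3 2 1, v8 2 2 3 4 3 2 2 1,
  v8 1 2 3 4 3 3 2 1, v8 1 2 2 4 4 3 2 1, v8 2 2 3 4 3 3 2 1, v8 1 2 3 4 4 3 2 1,
  v8 2 2 3 4 4 3 2 1, v8 1 2 3 5 4 3 2 1, v8 2 2 3 5 4 3 2 1, v8 1 3 3 5 4 3 2 1,
  v8 2 3 3 5 4 3 2 1, v8 2 2 4 5 4 3 2 1, v8 2 3 4 5 4 3 2 1, v8 2 3 4 6 4 3 2 1,
  v8 2 3 4 6 5 3 2 1, v8 2 3 4 6 5 4 2 1, v8 2 3 4 6 5 4 3 1, v8 2 3 4 6 5 4 3 2]

theorem posL_a : ∀ i : Fin 8, ∃ y ∈ posL, ∀ j, a i j = y j := by decide +kernel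

theorem posL_step : ∀ x ∈ posL, ∀ i : Fin 8, cv x i = -1 → ∃ y ∈ posL, ∀ j, x j + a i j = y j := by
  decide +kernel

theorem mem_posL {x : Lat} (h : ip x x = 2) (h0 : 0 ≤ x) : x ∈ posL := by
  induction' hk : (ht x).toNat using Nat.strong_induction_on with k ih generalizing x
  obtain ⟨i, hi⟩ := exists_cv_pos h h0
  by_cases hx : x = a i
  · obtain ⟨y, hy, hy'⟩ := posL_a i
    rw [hx, funext hy']; exact hy
  have h1 : ip x (a i) = 1 := by
    have := ip_le_one h (root_a i) hx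
    rw [← ip_a] at hi; omega
  have h2 := (root_sub h (root_a i)).2 h1
  have h3 := root_ht_pos h h0
  have h4 : ht (x - a i) = ht x - 1 := by rw [ht_sub, ht_a]
  have h5 := ih (ht (x - a i)).toNat (by omega) h2 (pos_of_ht h2 (by omega)) rfl
  obtain ⟨y, hy, hy'⟩ := posL_step _ h5 i (by rw [← ip_a, ip_sub_left, h1, root_a]; rfl)
  have : x = y := funext fun j => by rw [← hy' j]; simp
  rw [this]; exact hy

instance : Finite Root := by
  have : {x : Lat | ip x x = 2}.Finite := by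
    apply ((posL.finite_toSet).union ((posL.map Neg.neg).finite_toSet)).subset
    intro x hx
    rcases root_dich hx with h | h
    · exact Or.inl (mem_posL hx h)
    · exact Or.inr (List.mem_map.2 ⟨-x, mem_posL (root_neg hx) (neg_nonneg.2 h), neg_neg x⟩)
  exact this

noncomputable instance : Fintype Root := Fintype.ofFinite _

theorem exists_ip_one {x : Lat} (h : ip x x = 2) : ∃ y, ip y x = 1 := by
  have key : ∀ x ∈ posL, ∃ i : Fin 8, cv x i = 1 ∨ cv x i = -1 := by decide +kernel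
  have k2 : ∀ x : Lat, ip x x = 2 → 0 ≤ x → ∃ y, ip y x = 1 := fun x h h0 => by
    obtain ⟨i, hi | hi⟩ := key x (mem_posL h h0)
    · exact ⟨a i, by rw [ip_comm, ip_a, hi]⟩
    · exact ⟨-a i, by rw [ip_neg_left, ip_comm, ip_a, hi]; rfl⟩
  rcases root_dich h with h1 | h1
  · exact k2 x h h1
  · obtain ⟨y, hy⟩ := k2 (-x) (root_neg h) (neg_nonneg.2 h1)
    exact ⟨-y, by rw [ip_neg_left, ← ip_neg_right, hy]⟩

end Pool.Agent.MP_db74b1_al.Exc
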