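import Pool.Agent.MP_db74b1_al.ExcLat

set_option autoImplicit false

namespace Pool.Agent.MP_db74b1_al.Exc

variable {R : Type} [CommRing R]

def hv (y : Lat) : L R := (fun i => (y i : R), 0)

theorem hv_add (y z : Lat) : (hv (y + z) : L R) = hv y + hv z := by ext <;> simp [hv]
theorem hv_neg (y : Lat) : (hv (-y) : L R) = -hv y := by ext <;> simp [hv]
theorem hv_sub (y z : Lat) : (hv (y - z) : L R) = hv y - hv z := by ext <;> simp [hv]

theorem co_hv (β y : Lat) : co β (hv y : L R) = 0 := by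
  by_cases h : ip β β = 2
  · rw [co_of_root h]; rfl
  · exact co_of_not h _

theorem hp_hv (β y : Lat) : hp β (hv y : L R) = (ip y β : R) := by
  rw [hp_apply, ← sum_ip y β]; simp [hv]

theorem e_of_not {δ : Lat} (h : ip δ δ ≠ 2) : (e δ : L R) = 0 := by
  ext i
  · rfl
  · have : i.1 ≠ δ := fun h' => h (h' ▸ i.2)
    simp [e, this]

theorem co_e_self {α : Lat} (h : ip α α = 2) : co α (e α : L R) = 1 := by simp [co_e, h]

theorem co_e_ne {α β : Lat} (h : β ≠ α) : co β (e α : L R) = 0 := by simp [co_e, h]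

theorem e_fst (α : Lat) : (e α : L R).1 = 0 := rfl

theorem L_eq {v w : L R} (h1 : v.1 = w.1) (h2 : ∀ β, ip β β = 2 → co β v = co β w) : v = w := by
  ext i
  · rw [h1]
  · have := h2 i.1 i.2
    rwa [co_of_root i.2, co_of_root i.2] at this

theorem L_decomp (v : L R) :
    v = ∑ i : Fin 8, v.1 i • (hv (a i) : L R) + ∑ β : Root, v.2 β • (e β.1 : L R) := by
  ext i
  · simp [Prod.fst_sum, Finset.sum_apply, hv, a, e]
  · simp [Prod.snd_sum, Finset.sum_apply, hv, e, Subtype.val_inj]

theorem L_ind {P : L R → Prop} (hadd : ∀ v w, P v → P w → P (v + w))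
    (hsmul : ∀ (c : R) v, P v → P (c • v)) (h1 : ∀ y, P (hv y))
    (h2 : ∀ β, ip β β = 2 → P (e β)) (v : L R) : P v := by
  have h0 : P 0 := by simpa using hsmul 0 _ (h1 0)
  rw [L_decomp v]
  exact hadd _ _ (Finset.sum_induction _ P hadd h0 fun i _ => hsmul _ _ (h1 _))
    (Finset.sum_induction _ P hadd h0 fun β _ => hsmul _ _ (h2 _ β.2))

theorem L_ext {M : Type} [AddCommGroup M] [Module R M] {f g : L R →ₗ[R] M}
    (h1 : ∀ y, f (hv y) = g (hv y)) (h2 : ∀ β, ip β β = 2 → f (e β) = g (e β)) : f = g :=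
  LinearMap.ext <| L_ind (P := fun v => f v = g v) (fun v w hv hw => by simp [hv, hw])
    (fun c v hv => by simp [hv]) h1 h2

theorem ad_hv {α : Lat} (y : Lat) : ad α (hv y : L R) = -(ip y α : R) • e α := by
  apply L_eq
  · ext i; simp [ad_fst, co_hv, e]
  · intro β hβ
    rw [co_ad, if_pos hβ, hp_hv, co_hv, map_smul, co_e]
    split_ifs with h1 h2 h2 <;> simp_all

theorem ad_e {α β : Lat} (hβ : ip β β = 2) :
    ad α (e β : L R) = (eps α β : R) • e (α + β) - if α + β = 0 then hv α else 0 := by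
  apply L_eq
  · ext i
    rw [ad_fst, co_e]
    by_cases h : α + β = 0
    · have : -α = β := by rw [neg_eq_iff_add_eq_zero, h]
      simp [h, this, hβ, e, hv]
    · have : -α ≠ β := by rwa [Ne, neg_eq_iff_add_eq_zero]
      simp [h, this, e]
  · intro γ hγ
    rw [co_ad, if_pos hγ, hp_e, map_sub, map_smul, co_e, co_e]
    have h0 : co γ (if α + β = 0 then (hv α : L R) else 0) = 0 := by
      split_ifs <;> simp [co_hv]
    rw [h0]
    by_cases h : γ = α + β
    · have h1 : γ ≠ α := fun h' => root_ne_zero hβ (by rw [h'] at h; simpa using h)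
      have h2 : γ - α = β := by rw [h]; simp
      simp [h1, h2, hβ, hγ, ← h]
    · have h2 : γ - α ≠ β := fun h' => h (by rw [← h']; simp)
      simp [h, h2]

theorem ad_e_m2 {α : Lat} (h : ip α α = 2) : ad α (e (-α) : L R) = -hv α := by
  rw [ad_e (root_neg h), e_of_not]
  · simp
  · simp [ip_zero_left]

theorem ad_e_m2' {α : Lat} (h : ip α α = 2) : ad (-α) (e α : L R) = hv α := by
  have := ad_e_m2 (R := R) (root_neg h)
  rwa [neg_neg, hv_neg, neg_neg] at this

theorem ad_e_ne {α β : Lat} (hβ : ip β β = 2) (h : α + β ≠ 0) :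
    ad α (e β : L R) = (eps α β : R) • e (α + β) := by
  rw [ad_e hβ, if_neg h, sub_zero]

theorem add_ne_zero_of_ip {α β : Lat} (hα : ip α α = 2) (h : -1 ≤ ip α β) : α + β ≠ 0 := by
  intro h'
  have : β = -α := by rw [eq_neg_iff_add_eq_zero, add_comm, h']
  rw [this, ip_neg_right] at h; omega

theorem ad_e_m1 {α β : Lat} (hα : ip α α = 2) (hβ : ip β β = 2) (h : ip α β = -1) :
    ad α (e β : L R) = (eps α β : R) • e (α + β) :=
  ad_e_ne hβ (add_ne_zero_of_ip hα h.ge)

theorem ad_e_nn {α β : Lat} (hα : ip α α = 2) (hβ : ip β β = 2) (h : 0 ≤ ip α β) :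
    ad α (e β : L R) = 0 := by
  rw [ad_e_ne hβ (add_ne_zero_of_ip hα (by omega)), e_of_not, smul_zero]
  rw [Ne, root_add hα hβ]; omega

/-- trichotomy -/
theorem ip_cases {α β : Lat} (hα : ip α α = 2) (hβ : ip β β = 2) :
    β = -α ∨ ip α β = -1 ∨ 0 ≤ ip α β := by
  by_cases h : α + β = 0
  · left; rw [eq_neg_iff_add_eq_zero, add_comm, h]
  · have := neg_one_le_ip hα hβ h; omega

theorem ad_e_swap {α β : Lat} (hα : ip α α = 2) (hβ : ip β β = 2) :
    ad β (e α : L R) = -ad α (e β) := by
  rcases ip_cases hα hβ with rfl | h | h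
  · rw [ad_e_m2 hα, ad_e_m2' hα, neg_neg]
  · rw [ad_e_m1 hα hβ h, ad_e_m1 hβ hα (by rw [ip_comm, h]), eps_swap_odd (by rw [h]; rfl),
      add_comm β]
    simp
  · rw [ad_e_nn hα hβ h, ad_e_nn hβ hα (by rwa [ip_comm]), neg_zero]

def dd : L R →ₗ[R] L R →ₗ[R] L R :=
  LinearMap.mk₂ R (fun x y => (0, fun β => hp β.1 x * y.2 β))
    (fun x x' y => by ext <;> simp [add_mul]) (fun c x y => by ext <;> simp [mul_assoc])
    (fun x y y' => by ext <;> simp [mul_add]) (fun c x y => by ext <;> simp [mul_left_comm])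

noncomputable def br : L R →ₗ[R] L R →ₗ[R] L R :=
  (∑ α : Root, (co α.1).smulRight (ad α.1)) + dd

theorem br_e {α : Lat} (h : ip α α = 2) : br (e α : L R) = ad α := by
  have h1 : dd (e α : L R) = 0 := by ext y <;> simp [dd, hp_e]
  rw [br, LinearMap.add_apply, h1, add_zero, LinearMap.sum_apply,
    Finset.sum_eq_single (⟨α, h⟩ : Root)]
  · simp [co_e_self h]
  · intro β _ hβ
    simp [co_e_ne (fun h' => hβ (Subtype.ext h') : β.1 ≠ α)]
  · simp

theorem br_hv (y : Lat) : br (hv y : L R) = dd (hv y) := by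
  simp [br, LinearMap.sum_apply, co_hv]

theorem br_hv_hv (y z : Lat) : br (hv y : L R) (hv z) = 0 := by
  rw [br_hv]; ext <;> simp [dd, hv]

theorem br_hv_e (y β : Lat) : br (hv y : L R) (e β) = (ip y β : R) • e β := by
  rw [br_hv]; ext i
  · simp [dd, e]
  · simp only [dd, LinearMap.mk₂_apply, hp_hv, e, Prod.smul_snd, Pi.smul_apply, smul_eq_mul]
    split_ifs with h
    · rw [h]
    · simp

theorem br_anti (x y : L R) : br x y = -br y x := by
  induction x using L_ind with
  | hadd v w h1 h2 => simp only [map_add, LinearMap.add_apply, h1, h2]; abel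
  | hsmul c v h1 => simp [h1]
  | h1 z =>
    induction y using L_ind with
    | hadd v w h1 h2 => simp only [map_add, LinearMap.add_apply, h1, h2]; abel
    | hsmul c v h1 => simp [h1]
    | h1 z' => simp [br_hv_hv]
    | h2 β hβ => rw [br_hv_e, br_e hβ, ad_hv]; simp
  | h2 α hα =>
    induction y using L_ind with
    | hadd v w h1 h2 => simp only [map_add, LinearMap.add_apply, h1, h2]; abel
    | hsmul c v h1 => simp [h1]
    | h1 z' => rw [br_hv_e, br_e hα, ad_hv]; simp
    | h2 β hβ => rw [br_e hα, br_e hβ, ad_e_swap hβ hα]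

theorem br_e_right {α : Lat} (h : ip α α = 2) (x : L R) : br x (e α) = -ad α x := by
  rw [br_anti, br_e h]

theorem eps_cast_mul_self (x y : Lat) : (eps x y : R) * (eps x y : R) = 1 := by
  rw [← Int.cast_mul, eps_mul_self, Int.cast_one]

theorem jac_A {α β : Lat} (hα : ip α α = 2) (hβ : ip β β = 2) (hne : α ≠ β) :
    ad α (ad β (e (-β) : L R)) - ad β (ad α (e (-β))) = br (ad α (e β)) (e (-β)) := by
  have hβ' := root_neg hβ
  rw [ad_e_m2 hβ, map_neg, ad_hv, ip_comm β]
  rcases ip_cases hα hβ with rfl | h | h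
  · rw [neg_neg, ad_e_self hα, ad_e_m2 hα, map_neg, LinearMap.neg_apply, br_hv_e, ip_neg_right, hα]
    simp
  · have h1 := (root_add hα hβ).2 h
    rw [ad_e_nn hα hβ' (by rw [ip_neg_right]; omega), ad_e_m1 hα hβ h, map_smul,
      LinearMap.smul_apply, br_e h1, ad_e_m1 h1 hβ' (by rw [ip_neg_right, ip_add_left]; omega),
      eps_neg_right, eps_add_left, eps_self hβ, h, smul_smul, add_neg_cancel_right]
    have := eps_cast_mul_self (R := R) α β
    push_cast
    rw [← mul_assoc, this]; simp
  · rw [ad_e_nn hα hβ h]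
    have h2 := ip_le_one hα hβ hne
    by_cases h3 : ip α β = 0
    · rw [ad_e_nn hα hβ' (by rw [ip_neg_right]; omega), h3]; simp
    · have h4 : ip α β = 1 := by omega
      have h5 : ip α (-β) = -1 := by rw [ip_neg_right, h4]
      rw [ad_e_m1 hα hβ' h5, map_smul, ad_e_m1 hβ ((root_add hα hβ').2 h5)
        (by rw [ip_add_right, ip_neg_right, ip_comm β α]; omega), eps_neg_right, eps_add_right,
        eps_neg_right, eps_self hβ, eps_swap_odd (x := α) (y := β) (by rw [h4]; rfl), h4, smul_smul,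
        show β + (α + -β) = α by abel]
      have := eps_cast_mul_self (R := R) α β
      push_cast
      rw [neg_mul_neg, mul_one, this]; simp

theorem ad_ad_e {α β γ : Lat} (hβ : ip β β = 2) (hγ : ip γ γ = 2) (h1 : -1 ≤ ip β γ)
    (h2 : α + β + γ ≠ 0) : ad α (ad β (e γ : L R)) =
      (if ip β γ = -1 then (eps β γ * (eps α β * eps α γ) : R) else 0) • e (α + β + γ) := by
  split_ifs with h
  · rw [ad_e_m1 hβ hγ h, map_smul, ad_e_ne ((root_add hβ hγ).2 h) (by rwa [← add_assoc]),
      eps_add_right, smul_smul, add_assoc]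
    push_cast; rfl
  · rw [ad_e_nn hβ hγ (by omega)]; simp

theorem jac_e {α β γ : Lat} (hα : ip α α = 2) (hβ : ip β β = 2) (hγ : ip γ γ = 2) :
    ad α (ad β (e γ : L R)) - ad β (ad α (e γ)) = br (ad α (e β)) (e γ) := by
  by_cases hne : α = β
  · subst hne; simp [ad_e_self hα]
  by_cases h1 : β + γ = 0
  · obtain rfl : γ = -β := by rw [eq_neg_iff_add_eq_zero, add_comm, h1]
    exact jac_A hα hβ hne
  by_cases h2 : α + γ = 0
  · obtain rfl : γ = -α := by rw [eq_neg_iff_add_eq_zero, add_comm, h2]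
    have := jac_A (R := R) hβ hα (Ne.symm hne)
    rw [ad_e_swap hα hβ, map_neg, LinearMap.neg_apply] at this
    rw [← neg_inj, ← this]; abel
  have h1' := neg_one_le_ip hβ hγ h1
  have h2' := neg_one_le_ip hα hγ h2
  by_cases h4 : α + β + γ = 0
  · have hγe : γ = -α - β := by rw [← sub_eq_zero, ← h4]; abel
    have hab : ip α β = -1 := by
      rw [← root_add hα hβ, ← norm_neg, ← hγ, hγe]; congr 1 <;> abel
    have hbg : ip β γ = -1 := by rw [hγe, ip_sub_right, ip_neg_right, ip_comm β α]; omega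
    have hag : ip α γ = -1 := by rw [hγe, ip_sub_right, ip_neg_right]; omega
    have e1 : β + γ = -α := by rw [hγe]; abel
    have e2 : α + γ = -β := by rw [hγe]; abel
    have e3 : γ = -(α + β) := by rw [hγe]; abel
    have s1 : eps β γ = eps α β := by
      rw [hγe, eps_sub_right, eps_neg_right, eps_self hβ, eps_swap_odd (x := α) (y := β)
        (by rw [hab]; rfl)]; ring
    have s2 : eps α γ = -eps α β := by
      rw [hγe, eps_sub_right, eps_neg_right, eps_self hα]; ring
    rw [ad_e_m1 hβ hγ hbg, ad_e_m1 hα hγ hag, ad_e_m1 hα hβ hab, e1, e2, map_smul, map_smul,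
      map_smul, LinearMap.smul_apply, br_e ((root_add hα hβ).2 hab), ad_e_m2 hα, ad_e_m2 hβ, s1, s2,
      e3, ad_e_m2 ((root_add hα hβ).2 hab), hv_add]
    push_cast; module
  rw [ad_ad_e hβ hγ h1' h4, ad_ad_e hα hγ h2' (by rwa [add_comm β α]), add_comm β α]
  have hn : ip (α + β + γ) (α + β + γ) = 6 + 2 * (ip α β + ip α γ + ip β γ) := by
    rw [norm_add, norm_add, ip_add_left]; omega
  rcases ip_cases hα hβ with rfl | h | h
  · have h5 : ip α γ ≤ 1 := by rw [ip_neg_left] at h1'; omega
    rw [ad_e_m2 hα, map_neg, LinearMap.neg_apply, br_hv_e, add_neg_cancel, zero_add,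
      ip_neg_left, eps_neg_left, eps_neg_right, eps_neg_left, eps_self hα]
    have := eps_cast_mul_self (R := R) α γ
    have h6 : (eps α γ : R) * (((-1 : ℤ) : R) * eps α γ) = -1 := by
      push_cast; linear_combination -this
    rw [h6]
    have h7 : ip α γ = -1 ∨ ip α γ = 0 ∨ ip α γ = 1 := by omega
    rcases h7 with h7 | h7 | h7 <;> simp [h7]
  · have h5 := (root_add hα hβ).2 h
    rw [ad_e_m1 hα hβ h, map_smul, LinearMap.smul_apply, br_e h5, ad_e_ne hγ h4, eps_add_left,
      eps_swap_odd (x := α) (y := β) (by rw [h]; rfl), smul_smul, ← sub_smul]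
    by_cases h6 : ip (α + β + γ) (α + β + γ) = 2
    · congr 1
      push_cast
      split_ifs with h7 h8 h8
      · omega
      · ring
      · ring
      · omega
    · simp [e_of_not h6]
  · rw [ad_e_nn hα hβ h, map_zero, LinearMap.zero_apply, ← sub_smul]
    by_cases h6 : ip (α + β + γ) (α + β + γ) = 2
    · rw [if_pos (by omega), if_pos (by omega),
        eps_swap_even (x := α) (y := β) (by rw [show ip α β = 0 by omega]; rfl)]
      rw [show (eps β γ * (eps α β * eps α γ) - eps α γ * (eps α β * eps β γ) : R) = 0 by ring,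
        zero_smul]
    · simp [e_of_not h6]

theorem jac_ee {α β : Lat} (hα : ip α α = 2) (hβ : ip β β = 2) (v : L R) :
    ad α (ad β v) - ad β (ad α v) = br (ad α (e β)) v := by
  induction v using L_ind with
  | hadd v w h1 h2 => simp only [map_add, ← h1, ← h2]; abel
  | hsmul c v h1 => simp only [map_smul, ← h1, smul_sub]
  | h2 γ hγ => exact jac_e hα hβ hγ
  | h1 y =>
    rw [ad_hv, ad_hv, map_smul, map_smul, ad_e_swap hα hβ]
    rcases ip_cases hα hβ with rfl | h | h
    · rw [ad_e_m2 hα, map_neg, LinearMap.neg_apply, br_hv_hv, ip_neg_right]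
      push_cast; module
    · rw [ad_e_m1 hα hβ h, map_smul, LinearMap.smul_apply, br_e ((root_add hα hβ).2 h), ad_hv,
        ip_add_right]
      push_cast; module
    · rw [ad_e_nn hα hβ h]; simp

theorem ad_br {α : Lat} (hα : ip α α = 2) (x y : L R) :
    ad α (br x y) = br (ad α x) y + br x (ad α y) := by
  induction x using L_ind with
  | hadd v w h1 h2 => simp only [map_add, LinearMap.add_apply, h1, h2]; abel
  | hsmul c v h1 => simp only [map_smul, LinearMap.smul_apply, h1, smul_add]
  | h2 β hβ => rw [← jac_ee hα hβ, br_e hβ]; abel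
  | h1 z =>
    rw [ad_hv, map_smul, LinearMap.smul_apply, br_e hα]
    induction y using L_ind with
    | hadd v w h1 h2 => simp only [map_add, h1, h2]; module
    | hsmul c v h1 => simp only [map_smul, h1]; module
    | h1 y => rw [br_hv_hv, ad_hv, map_smul, br_hv_e, map_zero]; module
    | h2 β hβ =>
      rw [br_hv_e, map_smul, ad_e hβ]
      split_ifs with h
      · have : β = -α := by rw [eq_neg_iff_add_eq_zero, add_comm, h]
        rw [h, e_of_not (δ := 0) (by simp [ip_zero_left]), this, ip_neg_right]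
        simp [br_hv_hv]
      · simp only [sub_zero, map_smul, br_hv_e, ip_add_right]
        push_cast; module

end Pool.Agent.MP_db74b1_al.Exc
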