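import Pool.Agent.MP_db74b1_al.ExcF4b

set_option autoImplicit false

namespace Pool.Agent.MP_db74b1_al.Exc

variable {K : Type} [Field K]

namespace Cfg

variable {c : Cfg K}

theorem SC.symm {a b : Aut K} (ha : a ∈ c.G) (h : c.SC a b) : c.SC b a := by
  obtain ⟨g, hg, h⟩ := h
  refine ⟨g, hg, fun b' a' hb' ha' => ?_⟩
  obtain ⟨z, g', hz, hg', e⟩ := h a' b' ha' hb'
  have h1 := inv_mem (ha'.mem ha)
  refine ⟨_, _, Cj.triv ⟨_, h1, rfl⟩ hz, hg'.trans ⟨_, h1, rfl⟩, ?_⟩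
  rw [show b' * a' = a'⁻¹ * (a' * b') * a' by group, e]; group

theorem QS_X (hb : c.b = true) (hτ : ∀ t, c.τ t = t) {β : Lat} (hβ : c.R β) (hf : sg c.b β = β)
    {μ : K} (hμ : μ ≠ 0) (hq : c.QS (X β μ)) (ν : K) : c.QS (X β ν) := by
  intro x hx
  have hV := hx.mem (k0_R hb).2
  have h1 : co (-β) (x - c.st x) = 0 := by
    have := co_st hβ.neg x
    rw [sg_neg, hf, hτ] at this
    rw [map_sub, this, sub_self]
  have h2 : gf x (x - c.st x) = 0 := by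
    obtain ⟨p, hp, r, rfl⟩ := hx
    have hk := k0_R hb
    rw [map_smulₛₗ c.st, hτ, G_st hp (e_mem hk.2), ← smul_sub, ← map_sub, map_smul, map_smul,
      LinearMap.smul_apply, (G_aut hp).2, st_e hk.2, map_sub, gf_ee hk.1 (by decide),
      gf_ee hk.1 (by rw [hb]; decide)]
    simp
  have h3 := hq x hx
  simp only [X_apply hβ.1, map_add, map_smul, h1, h2, smul_eq_mul] at h3 ⊢
  have h4 : gf x (ad β (x - c.st x)) = 0 := by simpa [hμ] using h3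
  rw [h4]; simp

theorem not_QS (hb : c.b = true) {μ ν : K} (hμ : μ ≠ 0) (hν : ν ≠ 0) :
    ¬ c.QS (X (-ts) μ * X (th 6) ν) := fun hq => by
  have hζ := R6 hb (x := -et) (by decide)
  have hζ' := R6 hb (x := -eu) (by decide)
  have hθ := R6 hb (x := th 6) (by decide)
  have ht := R6 hb (x := -ts) (by decide)
  have h5 := hq _ (orb_short hb hζ (by rw [hb]; decide))
  have hst : c.st (e (-et)) = e (-eu) := by
    rw [st_e hζ.2, hb, show sg true (-et) = -eu by decide]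
  simp only [hst, LinearEquiv.mul_apply, map_sub, map_add, map_smul, gf_e hζ.1, neg_neg,
    X_e_m1 hθ.1 hζ.1 (by rw [ip_x]; decide), X_e_m1 hθ.1 hζ'.1 (by rw [ip_x]; decide),
    show th 6 + -et = k1 by decide, show th 6 + -eu = k0 by decide,
    X_e_m1 ht.1 hζ.1 (by rw [ip_x]; decide), X_e_m1 ht.1 hζ'.1 (by rw [ip_x]; decide),
    X_e_m1 ht.1 (rt (x := k0) (by decide)) (by rw [ip_x]; decide),
    X_e_m1 ht.1 (rt (x := k1) (by decide)) (by rw [ip_x]; decide),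
    show -ts + k0 = et by decide, co_e_self (rt (x := et) (by decide))] at h5
  repeat rw [co_e_ne (by decide)] at h5
  simp [hμ, hν, eps_ne] at h5

theorem sq_eqv {a b b' z g : Aut K} (hb : b ∈ c.G) (hg : g ∈ c.G) (hz : c.Triv z)
    (e : a * b = z * g) (h : c.Eqv b b') (h2 : c.Triv (a * a)) :
    c.Eqv (g * g) (a * b' * a⁻¹ * b') := fun v hv => by
  have h3 : ∀ v ∈ c.V, g v = a (b' v) := fun v hv => by
    rw [← h v hv, ← hz _ (G_mem hg hv)]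
    exact (congrArg (fun p : Aut K => p v) e).symm
  have h4 : b' v ∈ c.V := h v hv ▸ G_mem hb hv
  have h5 : a⁻¹ (b' v) = a (b' v) := by
    rw [← a.injective.eq_iff, app_inv]; exact (h2 _ h4).symm
  simp only [LinearEquiv.mul_apply]
  rw [h3 _ (G_mem hg hv), h3 v hv, h5]

theorem F4_contra {a b m u : Aut K} {w : W} (hb' : b ∈ c.G) (h : c.SC a b) (ha : c.Cj a (m * u))
    (H : c.MP m w u) (F : FA c w) (hq : c.QL (m * u)) (hs : c.QS b) : c.Triv b := by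
  have hb := F.hb
  obtain ⟨p, hp, m', w', u', H', e'⟩ := exists_MP hb'
  have hc : c.Cj b (m' * u') := ⟨p, hp, e'⟩
  have hs' := hc.QS hb hs
  rcases H'.short_struct hb hs' with h1 | ⟨j0, j1, j2, j3, j4, j5⟩
  · exact hc.symm.triv h1
  exfalso
  obtain ⟨μ, b2, hμ, c2, q2⟩ := FB.struct ⟨hb, F.hτ, j0, j1, j2, j3, j4, j5⟩ H' hs'
  rw [F.T3 H hq, mul_one] at ha
  have hθ := R6 hb (x := th 6) (by decide)
  have h1 := R6 hb (x := Exc.a 1) (by decide)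
  have f1 : sg c.b (Exc.a 1) = Exc.a 1 := by rw [hb]; decide
  obtain ⟨g1, hg1, r, e1⟩ := orb_long h1 f1
  rw [n6_of_b hb] at e1
  have hr : r ≠ 0 := by
    rintro rfl
    have := congrArg (co (Exc.a 1)) e1
    simp [co_e_self h1.1] at this
  have q1 := q2.conj hg1
  rw [conj_X (G_aut hg1) hθ.1 h1.1 (c := r⁻¹) (by rw [e1, smul_smul, inv_mul_cancel₀ hr, one_smul])]
    at q1
  have c2' := hc.trans c2
  have c1 : c.Cj b (g1 * b2 * g1⁻¹) := c2'.trans ⟨g1, hg1, rfl⟩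
  obtain ⟨g, hg, h⟩ := h
  obtain ⟨z1, p1, hz1, cp1, k1⟩ := h _ _ ha c1
  obtain ⟨z2, p2, hz2, cp2, k2⟩ := h _ _ ha c2'
  have s1 := sq_eqv (c1.mem hb') (cp1.mem hg) hz1 k1 q1 (F.sq H)
  have s2 := sq_eqv (c2'.mem hb') (cp2.mem hg) hz2 k2 q2 (F.sq H)
  have e2 := H.e_J F.j1
  rw [H.w_fix F.j1 (by rw [hb]; rfl)] at e2
  rw [conj_X H.mon.aut h1.1 h1.1 (c := 1) (by rw [e2, one_smul]), X_add] at s1
  obtain ⟨s, hs0, e3⟩ := H.mon.mono _ hθ.1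
  rw [F.w_eq H (by decide), show wa (th 6) = -ts by decide] at e3
  rw [conj_X H.mon.aut hθ.1 (rt (by decide)) e3] at s2
  have t1 : c.QS (p1 * p1) := Eqv.QS hb (fun v hv => (s1 v hv).symm) (QS_X hb F.hτ h1 f1
    (mul_ne_zero (inv_ne_zero hr) hμ) (q1.QS hb (c1.QS hb hs)) _)
  obtain ⟨y, hy, rfl⟩ := cp1.symm.trans cp2
  exact not_QS hb (mul_ne_zero hs0 hμ) hμ (s2.QS hb (Cj.QS hb ⟨y, hy, by group⟩ t1))

theorem main_QL {a b : Aut K} (ha : a ∈ c.G) (hb : b ∈ c.G) (h : c.SC a b) {r : K} (hr0 : r ≠ 0)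
    (hr1 : r ≠ 1) (hq : c.QL a) : c.Triv a ∨ c.Triv b := by
  obtain ⟨p, hp, m, w, u, H, e⟩ := exists_MP ha
  have hc : c.Cj a (m * u) := ⟨p, hp, e⟩
  rcases H.long_struct (hc.QL hq) with h1 | ⟨k1, k2, j0, j1, j2, j3, j4, j5, k3, k4, k5⟩
  · exact Or.inl (hc.symm.triv h1)
  rcases h.short ha hb k1 k2 hr0 hr1 with h2 | h2
  · rcases H.short_struct k1 (hc.QS k1 h2) with h1 | h1
    · exact Or.inl (hc.symm.triv h1)
    · rw [j0] at h1; exact absurd h1.1 (by simp)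
  · exact Or.inr (F4_contra hb h hc H ⟨k1, k2, j0, j1, j2, j3, j4, j5, k3, k4, k5⟩ (hc.QL hq) h2)

theorem main {a b : Aut K} (ha : a ∈ c.G) (hb : b ∈ c.G) (h : c.SC a b) {r : K} (hr : c.τ r = r)
    (hr0 : r ≠ 0) (hr1 : r ≠ 1) : c.Triv a ∨ c.Triv b := by
  rcases h.long ha hb hr hr0 hr1 with h1 | h1
  · exact main_QL ha hb h hr0 hr1 h1
  · exact (main_QL hb ha (h.symm ha) hr0 hr1 h1).symm

theorem final (c : Cfg K) {r : K} (hr : c.τ r = r) (hr0 : r ≠ 0) (hr1 : r ≠ 1)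
    (x y z : c.G ⧸ Subgroup.center c.G) (hx : x ≠ 1) (hy : y ≠ 1) :
    {g | ∃ a b, IsConj x a ∧ IsConj y b ∧ g = a * b} ≠ {g | IsConj z g} := by
  intro hE
  obtain ⟨a, rfl⟩ := QuotientGroup.mk_surjective x
  obtain ⟨b, rfl⟩ := QuotientGroup.mk_surjective y
  obtain ⟨g, rfl⟩ := QuotientGroup.mk_surjective z
  have hone : ∀ a : c.G, c.Triv a.1 → (a : c.G ⧸ Subgroup.center c.G) = 1 := fun a h =>
    (QuotientGroup.eq_one_iff _).2 (Subgroup.mem_center_iff.2 fun p =>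
      Subtype.ext (h.comm a.2 p.2))
  refine (main a.2 b.2 ⟨g.1, g.2, ?_⟩ hr hr0 hr1).elim (fun h => hx (hone a h))
    fun h => hy (hone b h)
  rintro _ _ ⟨p, hp, rfl⟩ ⟨q, hq, rfl⟩
  let P : c.G := ⟨p, hp⟩
  let Q : c.G := ⟨q, hq⟩
  have h1 : ((P * a * P⁻¹ * (Q * b * Q⁻¹) : c.G) : c.G ⧸ Subgroup.center c.G) ∈
      {g' : c.G ⧸ Subgroup.center c.G | IsConj (g : c.G ⧸ Subgroup.center c.G) g'} := by
    rw [← hE]
    exact ⟨_, _, isConj_iff.2 ⟨(P : c.G ⧸ Subgroup.center c.G), rfl⟩,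
      isConj_iff.2 ⟨(Q : c.G ⧸ Subgroup.center c.G), rfl⟩, rfl⟩
  obtain ⟨s, hs⟩ := isConj_iff.1 h1
  obtain ⟨S, rfl⟩ := QuotientGroup.mk_surjective s
  have h2 : (S * g * S⁻¹)⁻¹ * (P * a * P⁻¹ * (Q * b * Q⁻¹)) ∈ Subgroup.center c.G :=
    QuotientGroup.eq.1 hs
  have h3 := Subgroup.mem_center_iff.1 h2
  refine ⟨_, (S * g * S⁻¹ : c.G), triv_of_central
    ((S * g * S⁻¹)⁻¹ * (P * a * P⁻¹ * (Q * b * Q⁻¹)) : c.G).2
    (fun t ht => congrArg Subtype.val (h3 ⟨t, ht⟩)), ⟨S, S.2, rfl⟩, ?_⟩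
  have h4 := congrArg Subtype.val (h3 (S * g * S⁻¹))
  rw [mul_inv_cancel_left] at h4
  exact h4

end Cfg

end Pool.Agent.MP_db74b1_al.Exc
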