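import Pool.Agent.MP_db74b1_al.ExcBru

set_option autoImplicit false

namespace Pool.Agent.MP_db74b1_al.Exc

variable {K : Type} [Field K]

theorem lat_sum' (x : Lat) : x = ∑ j, x j • a j := by
  rw [Fin.sum_univ_eight]; exact lat_sum x

theorem lat_lin {M : Type} [AddCommGroup M] (f g : Lat →+ M) (x : Lat)
    (h : ∀ j, x j ≠ 0 → f (a j) = g (a j)) : f x = g x := by
  rw [lat_sum' x, map_sum, map_sum]
  refine Finset.sum_congr rfl fun j _ => ?_
  by_cases hj : x j = 0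
  · simp [hj]
  · rw [map_zsmul, map_zsmul, h j hj]

theorem hout_sum (J : Fin 8 → Bool) (x : Lat) : hout J x = ∑ j, cond (J j) 0 (x j) := by
  rw [Fin.sum_univ_eight]; rfl

def houtL (J : Fin 8 → Bool) : Lat →+ ℤ := AddMonoidHom.mk' (hout J) fun x y => by
  rw [hout_sum, hout_sum, hout_sum, ← Finset.sum_add_distrib]
  exact Finset.sum_congr rfl fun j _ => by cases J j <;> simp

theorem houtL_apply (J : Fin 8 → Bool) (x : Lat) : houtL J x = hout J x := rfl

theorem hout_neg (J : Fin 8 → Bool) (x : Lat) : hout J (-x) = -hout J x := map_neg (houtL J) x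

theorem hout_a (J : Fin 8 → Bool) (i : Fin 8) : hout J (a i) = cond (J i) 0 1 := by
  rw [hout_sum, Finset.sum_eq_single i]
  · simp [a]
  · intro j _ hj; cases J j <;> simp [a, hj]
  · simp

theorem hout_mono (J : Fin 8 → Bool) {x y : Lat} (h : x ≤ y) : hout J x ≤ hout J y := by
  rw [hout_sum, hout_sum]
  exact Finset.sum_le_sum fun j _ => by cases J j <;> simp [h j]

theorem hout_zero (J : Fin 8 → Bool) : hout J 0 = 0 := map_zero (houtL J)

theorem hout_nonneg (J : Fin 8 → Bool) {x : Lat} (h : 0 ≤ x) : 0 ≤ hout J x :=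
  hout_zero J ▸ hout_mono J h

theorem hout_eq_zero {J : Fin 8 → Bool} {x : Lat} (h : 0 ≤ x) (h0 : hout J x ≤ 0) {j : Fin 8}
    (hj : x j ≠ 0) : J j = true := by
  have h1 : ∀ i ∈ Finset.univ, 0 ≤ cond (J i) 0 (x i) := fun i _ => by
    have := h i; cases J i <;> simp_all
  have h2 := (Finset.sum_eq_zero_iff_of_nonneg h1).1
    (by rw [← hout_sum]; exact le_antisymm h0 (hout_nonneg J h)) j (Finset.mem_univ _)
  cases h3 : J j
  · rw [h3] at h2; exact absurd h2 hj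
  · rfl

theorem pos_of_hout {J : Fin 8 → Bool} {x : Lat} (hx : ip x x = 2) (h : 0 < hout J x) : 0 ≤ x := by
  by_contra h1
  have := hout_nonneg J (neg_nonneg_of hx h1)
  rw [hout_neg] at this; omega

theorem pm_false : ∀ i, pm false i = i := by decide

theorem psi_a : ∀ x ∈ posL, Sp 6 x → x 0 + x 5 = 1 → cv x 1 = 0 → cv x 3 = 0 →
    (cv x 2 = 1 → cv x 4 = 0 → ∀ j, x j = v8 1 1 2 2 1 0 0 0 j) ∧
    (cv x 2 = 0 → cv x 4 = 1 → ∀ j, x j = v8 0 1 1 2 2 1 0 0 j) := by decide +kernel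

theorem gen_fix {g : Aut K} (hg : g ∈ AutG K) {c : Cfg K}
    (h : ∀ i : Fin 8, i.1 < c.n → g (e (a i)) = e (a i) ∧ g (e (-a i)) = e (-a i))
    {v : L K} (hv' : v ∈ c.V) : g v = v := by
  have key : ∀ β, c.R β → 0 ≤ β → g (e β) = e β ∧ g (e (-β)) = e (-β) := by
    intro β hβ h0
    induction' hk : (ht β).toNat using Nat.strong_induction_on with k ih generalizing β
    obtain ⟨i, h1, h2⟩ := desc0 β (mem_posL hβ.1 h0)
    have hi : i.1 < c.n := not_le.1 fun h => by rw [hβ.2 i h] at h1; omega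
    by_cases h3 : β = a i
    · rw [h3]; exact h i hi
    have h4 : ip β (a i) = 1 := by
      have := ip_le_one hβ.1 (root_a i) h3
      have h5 : pm false i = i := pm_false i
      rw [sv, h5, ← ip_a] at h2; omega
    have h5 := (root_sub hβ.1 (root_a i)).2 h4
    have h6 := root_ht_pos hβ.1 h0
    have h7 : ht (β - a i) = ht β - 1 := by rw [ht_sub, ht_a]
    obtain ⟨h8, h9⟩ := ih (ht (β - a i)).toNat (by omega) _ ⟨h5, hβ.2.sub (Sp_a hi)⟩
      (pos_of_ht h5 (by omega)) rfl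
    have e1 : ip (a i) (β - a i) = -1 := by rw [ip_sub_right, ip_comm, h4, root_a]; rfl
    have e2 : ip (-a i) (-(β - a i)) = -1 := by rw [ip_neg_left, ip_neg_right, neg_neg, e1]
    have k1 := aut_step hg (root_a i) h5 (root_a i) h5 e1 e1 (h i hi).1 (c := 1)
      (by rw [h8, one_smul])
    have k2 := aut_step hg (root_neg (root_a i)) (root_neg h5) (root_neg (root_a i)) (root_neg h5)
      e2 e2 (h i hi).2 (c := 1) (by rw [h9, one_smul])
    rw [one_mul, eps_cast_mul_self, one_smul] at k1 k2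
    rw [add_sub_cancel] at k1
    rw [← neg_add, add_sub_cancel] at k2
    exact ⟨k1, k2⟩
  refine Cfg.V_ind (P := fun v => g v = v) (fun v w _ _ h1 h2 => by rw [map_add, h1, h2])
    (fun r v _ h1 => by rw [map_smul, h1]) (fun i hi => ?_) (fun β hβ => ?_) hv'
  · exact aut_hv hg (root_a i) (root_a i) (c := 1) (d := 1) (by rw [(h i hi).1, one_smul])
      (by rw [(h i hi).2, one_smul])
  · by_cases h0 : 0 ≤ β
    · exact (key β hβ h0).1
    · simpa using (key _ hβ.neg (neg_nonneg_of hβ.1 h0)).2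

namespace Cfg

variable (c : Cfg K)

theorem th_R : c.R (th c.n) := by
  rcases c.ok with ⟨_, _, h | h | h⟩ | ⟨_, h, _⟩ <;> rw [R, h, ip_x] <;> decide

theorem th_sg : sg c.b (th c.n) = th c.n := by
  rcases c.ok with ⟨h, _, _⟩ | ⟨h', h, _⟩
  · rw [h, sg_false]
  · rw [h, h']; decide

theorem th_pos (i : Fin 8) (hi : i.1 < c.n) : 0 < th c.n i := by
  revert i
  rcases c.ok with ⟨_, _, h | h | h⟩ | ⟨_, h, _⟩ <;> rw [h] <;> decide

theorem th_nonneg : 0 ≤ th c.n := by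
  change ∀ i, (0 : ℤ) ≤ th c.n i
  rcases c.ok with ⟨_, _, h | h | h⟩ | ⟨_, h, _⟩ <;> rw [h] <;> decide

theorem ht_th : ht (th c.n) ≤ 29 := by
  rcases c.ok with ⟨_, _, h | h | h⟩ | ⟨_, h, _⟩ <;> rw [h] <;> decide

open Classical in
noncomputable def Jw (w : W) : Fin 8 → Bool := fun i => decide (i.1 < c.n ∧ 0 ≤ w (a i))

variable {c}

theorem R.le_th {x : Lat} (hx : c.R x) : x ≤ th c.n := by
  by_cases h0 : 0 ≤ x
  · have hm := mem_posL hx.1 h0
    have hs := hx.2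
    rcases c.ok with ⟨_, _, h | h | h⟩ | ⟨_, h, _⟩ <;> rw [h] at hs ⊢
    · exact le_th6 x hm hs
    · exact le_th7 x hm hs
    · exact le_th8 x hm
    · exact le_th6 x hm hs
  · exact ((root_dich hx.1).resolve_left h0).trans c.th_nonneg

theorem R.ht_le {x : Lat} (hx : c.R x) : ht x ≤ ht (th c.n) := by
  have := ht_nonneg (sub_nonneg.2 hx.le_th)
  rw [ht_sub] at this; omega

theorem Jw_iff {w : W} {i : Fin 8} : c.Jw w i = true ↔ i.1 < c.n ∧ 0 ≤ w (a i) := by simp [Jw]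

theorem Mon.J_pm {m : Aut K} {w : W} (h : c.Mon m w) {i : Fin 8} (hi : c.Jw w i = true) :
    c.Jw w (pm c.b i) = true := by
  rw [Jw_iff] at hi ⊢
  exact ⟨(c.pm_lt i).2 hi.1, by rw [← sg_a, h.sg (R_a hi.1)]; exact sg_nonneg hi.2⟩

theorem Mon.J_pm_eq {m : Aut K} {w : W} (h : c.Mon m w) (i : Fin 8) :
    c.Jw w (pm c.b i) = c.Jw w i := by
  rw [Bool.eq_iff_iff]
  exact ⟨fun h' => by simpa [pm_pm] using h.J_pm h', h.J_pm⟩

theorem Mon.neg_of {m : Aut K} {w : W} (h : c.Mon m w) {α : Lat} (hα : ip α α = 2) {s : K}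
    (h1 : m (e α) = s • e (w α)) : m (e (-α)) = s⁻¹ • e (-w α) := by
  obtain ⟨s', _, h2⟩ := h.mono _ (root_neg hα)
  rw [h2, map_neg, eq_inv_of_mul_eq_one_right (aut_neg h.aut hα (h.root hα) h1 h2)]

theorem MP.w_J {m u : Aut K} {w : W} (H : c.MP m w u) {i : Fin 8} (hi : c.Jw w i = true) :
    w (a i) = a i ∨ w (a i) = a (pm c.b i) := by
  rw [Jw_iff] at hi
  rcases (H.star hi.1 hi.2).2 with h | h
  · exact Or.inl h.1
  · exact Or.inr (by rw [h.2.2.1, sg_a])

theorem MP.e_J {m u : Aut K} {w : W} (H : c.MP m w u) {i : Fin 8} (hi : c.Jw w i = true) :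
    m (e (a i)) = e (w (a i)) := by
  rw [Jw_iff] at hi
  rcases (H.star hi.1 hi.2).2 with h | h
  · rw [h.1, h.2]
  · rw [h.2.2.1, h.2.2.2]

theorem MP.e_J' {m u : Aut K} {w : W} (H : c.MP m w u) {i : Fin 8} (hi : c.Jw w i = true) :
    m (e (-a i)) = e (-w (a i)) := by
  rw [H.mon.neg_of (root_a i) (s := 1) (by rw [H.e_J hi, one_smul]), inv_one, one_smul]

theorem MP.w_sum {m u : Aut K} {w : W} (H : c.MP m w u) {i : Fin 8} (hi : c.Jw w i = true) :
    w (a i) + w (a (pm c.b i)) = a i + a (pm c.b i) := by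
  have h1 := H.mon.sg (R_a (Jw_iff.1 hi).1)
  rw [sg_a] at h1
  rcases H.w_J hi with h | h
  · rw [h1, h, sg_a]
  · rw [h1, h, sg_a, pm_pm, add_comm]

theorem MP.hout_w {m u : Aut K} {w : W} (H : c.MP m w u) {x : Lat} (hx : Sp c.n x) :
    hout (c.Jw w) (w x) = -hout (c.Jw w) x := by
  set J := c.Jw w
  have h1 : ∀ j, J j = true → hout J (w (a j)) = 0 := fun j hj => by
    rcases H.w_J hj with h | h
    · rw [h, hout_a, hj]; rfl
    · rw [h, hout_a, show J (pm c.b j) = true from H.mon.J_pm hj]; rfl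
  let D : Lat →+ ℤ := -((houtL J).comp w.toLinearMap.toAddMonoidHom) - houtL J
  have hD : ∀ x, D x = -hout J (w x) - hout J x := fun x => rfl
  have h2 : ∀ i : Fin 8, i.1 < c.n → 0 ≤ D (a i) := fun i hi => by
    rw [hD, hout_a]
    cases hJ : J i
    · have h3 : ¬ 0 ≤ w (a i) := fun h => by
        rw [show J i = true from Jw_iff.2 ⟨hi, h⟩] at hJ; exact absurd hJ (by simp)
      have h4 := neg_nonneg_of (H.mon.root (root_a i)) h3
      by_contra h5
      have h6 : hout J (-w (a i)) ≤ 0 := by rw [hout_neg]; simp at h5; omega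
      let w2 : Lat →+ Lat := (w * w).toLinearMap.toAddMonoidHom
      have h7 := lat_lin w2 (AddMonoidHom.id _) (-w (a i)) (fun j hj => by
        have h8 := hout_eq_zero h4 h6 hj
        change w (w (a j)) = a j
        rcases H.w_J h8 with h | h
        · rw [h, h]
        · have := H.w_sum h8
          rw [h, add_comm, add_right_cancel_iff] at this
          rw [h, this])
      have h8 := lat_lin ((houtL J).comp w.toLinearMap.toAddMonoidHom) 0 (-w (a i))
        (fun j hj => h1 j (hout_eq_zero h4 h6 hj))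
      change w (w (-w (a i))) = -w (a i) at h7
      change hout J (w (-w (a i))) = 0 at h8
      rw [← map_neg w (a i), w.injective.eq_iff, map_neg w (a i)] at h7
      rw [h7, hout_neg, hout_a, hJ] at h8
      simp at h8
    · rw [h1 i hJ]; simp
  have h3 : D (th c.n) ≤ 0 := by
    have := hout_mono J (H.mon.R c.th_R).neg.le_th
    rw [hout_neg] at this
    rw [hD]; omega
  have h4 : ∀ i ∈ Finset.univ, 0 ≤ th c.n i • D (a i) := fun i _ => by
    by_cases hi : i.1 < c.n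
    · exact mul_nonneg (c.th_nonneg i) (h2 i hi)
    · rw [c.th_R.2 i (by omega)]; simp
  have h5 : ∀ i : Fin 8, i.1 < c.n → D (a i) = 0 := fun i hi => by
    rw [lat_sum' (th c.n), map_sum] at h3
    simp only [map_zsmul] at h3
    have := (Finset.sum_eq_zero_iff_of_nonneg h4).1 (le_antisymm h3 (Finset.sum_nonneg h4)) i
      (Finset.mem_univ _)
    exact (mul_eq_zero.1 this).resolve_left (c.th_pos i hi).ne'
  have h6 := lat_lin D 0 x fun j hj => h5 j (not_le.1 fun h => hj (hx j h))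
  rw [hD] at h6
  simp only [AddMonoidHom.zero_apply] at h6
  omega

theorem MP.phi {m u : Aut K} {w : W} (H : c.MP m w u) {ν : Lat} (hν : c.R ν)
    (h0 : 0 < hout (c.Jw w) ν) : c.R (-w ν) ∧ 0 ≤ -w ν ∧ hout (c.Jw w) (-w ν) = hout (c.Jw w) ν ∧
      (sg c.b (-w ν) = -w ν ↔ sg c.b ν = ν) ∧
      ∀ i, c.Jw w i = true → sv c.b (-w ν) i = -sv c.b ν i := by
  have h1 := (H.mon.R hν).neg
  have h2 : hout (c.Jw w) (-w ν) = hout (c.Jw w) ν := by rw [hout_neg, H.hout_w hν.2, neg_neg]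
  refine ⟨h1, pos_of_hout h1.1 (h2 ▸ h0), h2, by rw [sg_neg, neg_inj, H.mon.fix_iff hν],
    fun i hi => ?_⟩
  have := H.mon.iso ν (a i + a (pm c.b i))
  rw [map_add, H.w_sum hi] at this
  rw [sv_neg, sv, sv, ← ip_a, ← ip_a, ← ip_a, ← ip_a, ← ip_add_right, ← ip_add_right, this]

theorem MP.of_main {m u : Aut K} {w : W} (H : c.MP m w u) {lg : Bool} {wit : List V8}
    (hw : ∀ ν ∈ wit, ipx ν.l ν.l = 2 ∧ Sp c.n ν.l ∧ eqV (sgV c.b ν) ν = lg)
    (h : mainV c.n c.b lg wit (B8.of (c.Jw w)) = true) :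
    ∃ ν, c.R ν ∧ (sg c.b ν = ν ↔ lg = true) ∧ (w ν = -ν ∨ w ν = -sg c.b ν) := by
  obtain ⟨ν, h1, h2, h3, h4, h5⟩ := main_spec hw h
  obtain ⟨k1, k2, k3, k4, k5⟩ := H.phi ⟨h1, h2⟩ h4
  refine ⟨ν, ⟨h1, h2⟩, h3, ?_⟩
  simpa only [neg_eq_iff_eq_neg] using h5 _ k1.1 k2 k1.2 (k4.trans h3) k3 k5

theorem J_out {w : W} {i : Fin 8} (hi : c.n ≤ i.1) : c.Jw w i = false := by
  rw [← Bool.not_eq_true, Jw_iff]; omega

theorem MP.long_cases {m u : Aut K} {w : W} (H : c.MP m w u) :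
    (∀ i : Fin 8, i.1 < c.n → c.Jw w i = true) ∨ (c.n = 6 ∧ c.Jw w 0 = false ∧ c.Jw w 1 = true ∧
      c.Jw w 2 = true ∧ c.Jw w 3 = true ∧ c.Jw w 4 = true ∧ c.Jw w 5 = false) ∨
      ∃ ν, c.R ν ∧ sg c.b ν = ν ∧ w ν = -ν := by
  have key : ∀ wit : List V8,
      (∀ ν ∈ wit, ipx ν.l ν.l = 2 ∧ Sp c.n ν.l ∧ eqV (sgV c.b ν) ν = true) →
      mainV c.n c.b true wit (B8.of (c.Jw w)) = true →
      ∃ ν, c.R ν ∧ sg c.b ν = ν ∧ w ν = -ν := fun wit hw h => by
    obtain ⟨ν, h1, h2, h3⟩ := H.of_main hw h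
    exact ⟨ν, h1, h2.2 rfl, by rwa [h2.2 rfl, or_self] at h3⟩
  have h6 : c.n ≤ 6 → c.Jw w 6 = false := fun h => J_out h
  have h7 : c.n ≤ 7 → c.Jw w 7 = false := fun h => J_out h
  have p0 := H.mon.J_pm_eq 0
  have p2 := H.mon.J_pm_eq 2
  generalize c.Jw w = J at *
  rcases c.ok with ⟨hb, _, h | h | h⟩ | ⟨hb, h, _⟩ <;> rw [h, hb] at key <;> rw [h] at h6 h7 ⊢
  · rcases main6 (J 0) (J 1) (J 2) (J 3) (J 4) (J 5) with h1 | h1 | h1
    · left; intro i hi; fin_cases i <;> simp_all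
    · right; left; simp_all
    · right; right; rw [hb]
      exact key wit6 wit6_ok (by rwa [B8.of, h6 (by omega), h7 (by omega)])
  · rcases main7 (J 0) (J 1) (J 2) (J 3) (J 4) (J 5) (J 6) with h1 | h1
    · left; intro i hi; fin_cases i <;> simp_all
    · right; right; rw [hb]
      exact key wit7 wit7_ok (by rwa [B8.of, h7 (by omega)])
  · rcases main8 (J 0) (J 1) (J 2) (J 3) (J 4) (J 5) (J 6) (J 7) with h1 | h1
    · left; intro i hi; fin_cases i <;> simp_all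
    · right; right; rw [hb]
      exact key wit8 wit8_ok h1
  · rw [hb] at p0 p2
    change J 5 = J 0 at p0
    change J 4 = J 2 at p2
    rcases main6l (J 0) (J 1) (J 2) (J 3) with h1 | h1 | h1
    · left; intro i hi; fin_cases i <;> simp_all
    · right; left; simp_all
    · right; right; rw [hb]
      exact key wit6l wit6l_ok (by rwa [B8.of, h6 (by omega), h7 (by omega), p0, p2])

theorem MP.short_cases {m u : Aut K} {w : W} (H : c.MP m w u) (hb : c.b = true) :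
    (∀ i : Fin 8, i.1 < c.n → c.Jw w i = true) ∨ (c.Jw w 0 = true ∧ c.Jw w 1 = false ∧
      c.Jw w 2 = true ∧ c.Jw w 3 = true ∧ c.Jw w 4 = true ∧ c.Jw w 5 = true) ∨
      ∃ ν, c.R ν ∧ sg c.b ν ≠ ν ∧ (w ν = -ν ∨ w ν = -sg c.b ν) := by
  have key : ∀ wit : List V8,
      (∀ ν ∈ wit, ipx ν.l ν.l = 2 ∧ Sp c.n ν.l ∧ eqV (sgV c.b ν) ν = false) →
      mainV c.n c.b false wit (B8.of (c.Jw w)) = true →
      ∃ ν, c.R ν ∧ sg c.b ν ≠ ν ∧ (w ν = -ν ∨ w ν = -sg c.b ν) := fun wit hw h => by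
    obtain ⟨ν, h1, h2, h3⟩ := H.of_main hw h
    exact ⟨ν, h1, by simpa using h2, h3⟩
  have h6 : c.n ≤ 6 → c.Jw w 6 = false := fun h => J_out h
  have h7 : c.n ≤ 7 → c.Jw w 7 = false := fun h => J_out h
  have p0 := H.mon.J_pm_eq 0
  have p2 := H.mon.J_pm_eq 2
  have h : c.n = 6 := by
    rcases c.ok with ⟨h, _⟩ | ⟨_, h, _⟩
    · rw [h] at hb; exact absurd hb (by simp)
    · exact h
  generalize c.Jw w = J at *
  rw [hb] at p0 p2
  change J 5 = J 0 at p0
  change J 4 = J 2 at p2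
  rcases main6s (J 0) (J 1) (J 2) (J 3) with h1 | h1 | h1
  · left; intro i hi; rw [h] at hi; fin_cases i <;> simp_all
  · right; left; simp_all
  · right; right
    refine key wit6s (by rw [h, hb]; exact wit6s_ok) ?_
    rwa [B8.of, h6 (by omega), h7 (by omega), p0, p2, h, hb]

theorem Mon.rho6 {m : Aut K} {w : W} (h : c.Mon m w) (hn : c.n = 6) :
    (2 * w (a 0) 0 + 4 * w (a 2) 0 + 5 * w (a 4) 0 + 4 * w (a 5) 0) % 3 = 2 := by
  have h1 := h.perp (y := v8 2 3 4 6 5 4 3 0) (fun x hx => by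
    rw [hn] at hx
    rw [ip_expand, hx 6 (by decide), hx 7 (by decide)]
    simp [cv, v8])
  have h2 := congrFun h1 0
  rw [lat_sum (v8 2 3 4 6 5 4 3 0)] at h2
  simp only [map_add, map_smul, Pi.add_apply, Pi.smul_apply, smul_eq_mul] at h2
  simp only [v8, a] at h2 ⊢
  simp at h2 ⊢
  omega

theorem MP.no_swap {m u : Aut K} {w : W} (H : c.MP m w u) (hb : c.b = true) (hn : c.n = 6)
    (h0 : c.Jw w 0 = true) (h2 : c.Jw w 2 = true) :
    w (a 0) = a 0 ∧ w (a 2) = a 2 ∧ w (a 4) = a 4 ∧ w (a 5) = a 5 := by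
  have k0 := H.w_sum h0
  have k2 := H.w_sum h2
  have k := H.mon.iso (a 0) (a 2)
  have r := H.mon.rho6 hn
  have j0 := H.w_J h0
  have j2 := H.w_J h2
  rw [hb] at k0 k2 j0 j2
  change _ + w (a 5) = _ + a 5 at k0
  change _ + w (a 4) = _ + a 4 at k2
  change _ ∨ _ = a 5 at j0
  change _ ∨ _ = a 4 at j2
  rcases j0 with j0 | j0 <;> rcases j2 with j2 | j2 <;> simp only [j0, j2, ip_a] at k
  · rw [j0, add_left_cancel_iff] at k0
    rw [j2, add_left_cancel_iff] at k2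
    exact ⟨j0, j2, k2, k0⟩
  · exact absurd k (by decide)
  · exact absurd k (by decide)
  · rw [j0, add_comm, add_right_cancel_iff] at k0
    rw [j2, add_comm, add_right_cancel_iff] at k2
    rw [j0, j2, k0, k2] at r
    exact absurd r (by decide)

theorem MP.w_fix {m u : Aut K} {w : W} (H : c.MP m w u) {i : Fin 8} (hi : c.Jw w i = true)
    (h : pm c.b i = i) : w (a i) = a i := by
  have := H.w_J hi
  rwa [h, or_self] at this

theorem MP.psi {m u : Aut K} {w : W} (H : c.MP m w u) (hn : c.n = 6) (h0 : c.Jw w 0 = false)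
    (h1 : c.Jw w 1 = true) (h2 : c.Jw w 2 = true) (h3 : c.Jw w 3 = true) (h4 : c.Jw w 4 = true)
    (h5 : c.Jw w 5 = false) : c.b = true ∧ (∀ t, c.τ t = t) ∧ w (a 2) = a 4 ∧ w (a 4) = a 2 ∧
      w (a 0) = -v8 0 1 1 2 2 1 0 0 := by
  have e1 := H.w_fix h1 (by cases c.b <;> rfl)
  have e3 := H.w_fix h3 (by cases c.b <;> rfl)
  have key : ∀ i : Fin 8, i = 0 ∨ i = 5 →
      (cv (-w (a i)) 2 = 1 → cv (-w (a i)) 4 = 0 → w (a i) = -v8 1 1 2 2 1 0 0 0) ∧
      (cv (-w (a i)) 2 = 0 → cv (-w (a i)) 4 = 1 → w (a i) = -v8 0 1 1 2 2 1 0 0) := by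
    intro i hi
    have hi' : i.1 < c.n := by rw [hn]; rcases hi with rfl | rfl <;> decide
    have ho : hout (c.Jw w) (a i) = 1 := by
      rw [hout_a]; rcases hi with rfl | rfl
      · rw [h0]; rfl
      · rw [h5]; rfl
    obtain ⟨k1, k2, k3, _, _⟩ := H.phi (R_a hi') (by omega)
    have hs := k1.2
    rw [hn] at hs
    have := psi_a _ (mem_posL k1.1 k2) hs (by
      rw [ho, hout, h0, h1, h2, h3, h4, h5, hs 6 (by decide), hs 7 (by decide)] at k3
      simpa using k3)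
      (by rw [← ip_a, ← e1, ip_neg_left, H.mon.iso, ip_a]; rcases hi with rfl | rfl <;> rfl)
      (by rw [← ip_a, ← e3, ip_neg_left, H.mon.iso, ip_a]; rcases hi with rfl | rfl <;> rfl)
    exact ⟨fun p q => neg_eq_iff_eq_neg.1 (funext (this.1 p q)),
      fun p q => neg_eq_iff_eq_neg.1 (funext (this.2 p q))⟩
  have hfix : w (a 2) = a 2 → w (a 4) = a 4 → False := fun e2 e4 => by
    have r := H.mon.rho6 hn
    rw [(key 0 (Or.inl rfl)).1 (by rw [← ip_a, ← e2, ip_neg_left, H.mon.iso, ip_a]; rfl)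
      (by rw [← ip_a, ← e4, ip_neg_left, H.mon.iso, ip_a]; rfl),
      (key 5 (Or.inr rfl)).2 (by rw [← ip_a, ← e2, ip_neg_left, H.mon.iso, ip_a]; rfl)
      (by rw [← ip_a, ← e4, ip_neg_left, H.mon.iso, ip_a]; rfl), e2, e4] at r
    exact absurd r (by decide)
  have hs := H.w_sum h2
  rcases (H.star (Jw_iff.1 h2).1 (Jw_iff.1 h2).2).2 with ⟨e2, _⟩ | ⟨k1, k2, e2, _⟩
  · exfalso
    cases hb : c.b
    · exact hfix e2 (H.w_fix h4 (by rw [hb]; rfl))
    · rw [hb, e2, add_left_cancel_iff] at hs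
      exact hfix e2 hs
  · have hb : c.b = true := by
      cases hb : c.b
      · rw [hb, sg_false] at k1; exact absurd rfl k1
      · rfl
    rw [sg_a, hb] at e2
    change _ = a 4 at e2
    rw [hb, e2, add_comm] at hs
    change w (a 4) + a 4 = a 2 + a 4 at hs
    rw [add_right_cancel_iff] at hs
    exact ⟨hb, k2, e2, hs, (key 0 (Or.inl rfl)).2
      (by rw [← ip_a, ← hs, ip_neg_left, H.mon.iso, ip_a]; rfl)
      (by rw [← ip_a, ← e2, ip_neg_left, H.mon.iso, ip_a]; rfl)⟩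

end Cfg

end Pool.Agent.MP_db74b1_al.Exc
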