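import Pool.Agent.MP_db74b1_al.ExcGrp

set_option autoImplicit false

namespace Pool.Agent.MP_db74b1_al.Exc

abbrev W : Type := Lat ≃ₗ[ℤ] Lat

def rfl0 (α : Lat) : Lat →ₗ[ℤ] Lat where
  toFun x := x - ip x α • α
  map_add' x y := by rw [ip_add_left, add_smul]; abel
  map_smul' r x := by rw [ip_smul_left, RingHom.id_apply, smul_sub, smul_smul]

theorem rfl0_inv {α : Lat} (h : ip α α = 2) : Function.Involutive (rfl0 α) := fun x => by
  change x - ip x α • α - ip (x - ip x α • α) α • α = x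
  rw [ip_sub_left, ip_smul_left, h]; module

noncomputable def rf (α : Lat) : W :=
  if h : ip α α = 2 then LinearEquiv.ofInvolutive (rfl0 α) (rfl0_inv h) else 1

theorem rf_apply {α : Lat} (h : ip α α = 2) (x : Lat) : rf α x = x - ip x α • α := by
  simp only [rf, dif_pos h]; rfl

theorem rf_iso {α : Lat} (h : ip α α = 2) (x y : Lat) : ip (rf α x) (rf α y) = ip x y := by
  rw [rf_apply h, rf_apply h, ip_sub_left, ip_sub_right, ip_sub_right, ip_smul_left, ip_smul_left,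
    ip_smul_right, ip_smul_right, h, ip_comm α y]; ring

variable {K : Type} [Field K]

theorem e_inj {β γ : Lat} (hβ : ip β β = 2) {r s : K} (hr : r ≠ 0)
    (h : r • (e β : L K) = s • e γ) : β = γ ∧ r = s := by
  have h1 := congrArg (co β) h
  rw [map_smul, map_smul, co_e_self hβ] at h1
  by_cases h2 : β = γ
  · subst h2; rw [co_e_self hβ] at h1; simpa using h1
  · rw [co_e_ne h2] at h1; simp [hr] at h1

theorem cast_root {β : Lat} (hβ : ip β β = 2) {r : K} (h : ∀ i, r * (β i : K) = 0) : r = 0 := by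
  obtain ⟨y, hy⟩ := exists_ip_one hβ
  have h1 := congrArg (fun z : ℤ => r * (z : K)) (sum_ip β y)
  simp only [ip_comm β, hy] at h1
  push_cast at h1
  rw [Finset.mul_sum, Finset.sum_eq_zero fun i _ => by rw [mul_left_comm, h i, mul_zero]] at h1
  simpa using h1.symm

noncomputable def N1 (α : Lat) (r : K) : Aut K := X α r * X (-α) r⁻¹ * X α r

theorem N1_zero {α β : Lat} (hα : ip α α = 2) (hβ : ip β β = 2) (h : ip α β = 0) (r : K) :
    N1 α r (e β) = e β := by
  simp only [N1, LinearEquiv.mul_apply]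
  rw [X_e_nn hα hβ h.ge, X_e_nn (root_neg hα) hβ (by rw [ip_neg_left]; omega), X_e_nn hα hβ h.ge]

theorem N1_one {α β : Lat} (hα : ip α α = 2) (hβ : ip β β = 2) (h : ip α β = 1) {r : K}
    (hr : r ≠ 0) : N1 α r (e β) = (r⁻¹ * eps α β) • e (β - α) := by
  simp only [N1, LinearEquiv.mul_apply]
  have h1 : ip (-α) β = -1 := by rw [ip_neg_left, h]
  have h2 := (root_add (root_neg hα) hβ).2 h1
  rw [X_e_nn hα hβ (by omega), X_e_m1 (root_neg hα) hβ h1, map_add, map_smul,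
    X_e_nn hα hβ (by omega), X_e_m1 hα h2 (by rw [ip_add_right, ip_neg_right]; omega),
    eps_neg_left, eps_add_right, eps_neg_right, eps_self hα, add_neg_cancel_left,
    neg_add_eq_sub, smul_add, smul_smul]
  have := eps_cast_mul_self (R := K) α β
  have h3 : r⁻¹ * (eps α β : K) * (r * ((-1 * eps α β : ℤ) : K)) = -1 := by
    push_cast; field_simp; linear_combination -this
  rw [h3]; module

theorem N1_e {α β : Lat} (hα : ip α α = 2) (hβ : ip β β = 2) {r : K} (hr : r ≠ 0) :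
    ∃ s : K, s ≠ 0 ∧ N1 α r (e β) = s • e (rf α β) := by
  have hα' := root_neg hα
  have he : (eps α β : K) ≠ 0 := fun h => by
    have := eps_cast_mul_self (R := K) α β; rw [h] at this; simp at this
  rw [rf_apply hα, ip_comm β]
  rcases ip_cases hα hβ with rfl | h | h
  · refine ⟨r ^ 2, by positivity, ?_⟩
    have h1 := X_e_m2 hα' r⁻¹
    rw [neg_neg, hv_neg] at h1
    simp only [N1, LinearEquiv.mul_apply, X_e_m2 hα, map_add, map_sub, map_smul, X_hv hα',
      X_e_nn hα' hα' (by omega), h1, ip_neg_right, hα, X_hv hα, map_neg, X_e_nn hα hα (by omega),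
      show -α - (-2 : ℤ) • α = α by module]
    push_cast
    match_scalars <;> field_simp <;> ring
  · refine ⟨r * eps α β, mul_ne_zero hr he, ?_⟩
    have h2 := (root_add hα hβ).2 h
    simp only [N1, LinearEquiv.mul_apply]
    rw [X_e_m1 hα hβ h, map_add, map_smul, X_e_nn hα' hβ (by rw [ip_neg_left]; omega),
      X_e_m1 hα' h2 (by rw [ip_neg_left, ip_add_right]; omega), eps_neg_left, eps_add_right,
      eps_self hα, neg_add_cancel_left, smul_add, smul_smul, h,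
      show β - (-1 : ℤ) • α = α + β by module]
    have := eps_cast_mul_self (R := K) α β
    have h3 : r * (eps α β : K) * (r⁻¹ * ((-1 * eps α β : ℤ) : K)) = -1 := by
      push_cast; field_simp; linear_combination -this
    rw [h3, show (e β : L K) + ((r * eps α β) • e (α + β) + (-1 : K) • e β)
      = (r * eps α β) • e (α + β) by module, map_smul,
      X_e_nn hα h2 (by rw [ip_add_right]; omega)]
  · have h1 := ip_le_two hα hβ
    have h2 : ip α β = 0 ∨ ip α β = 1 ∨ ip α β = 2 := by omega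
    rcases h2 with h2 | h2 | h2
    · exact ⟨1, one_ne_zero, by rw [N1_zero hα hβ h2, h2]; simp⟩
    · exact ⟨_, mul_ne_zero (inv_ne_zero hr) he, by rw [N1_one hα hβ h2 hr, h2, one_smul]⟩
    · obtain rfl : α = β := by
        by_contra h3; have := ip_le_one hα hβ h3; omega
      refine ⟨r⁻¹ ^ 2, by positivity, ?_⟩
      have h1 := X_e_m2 hα' r⁻¹
      rw [neg_neg, hv_neg] at h1
      simp only [N1, LinearEquiv.mul_apply, X_e_m2 hα, map_add, map_sub, map_smul,
        h1, hα, X_hv hα, map_neg, X_e_nn hα hα (by omega),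
        show α - (2 : ℤ) • α = -α by module]
      push_cast
      match_scalars <;> field_simp <;> ring

namespace Cfg

variable (c : Cfg K)

structure Mon (m : Aut K) (w : W) : Prop where
  mem : m ∈ c.G
  iso : ∀ x y, ip (w x) (w y) = ip x y
  mono : ∀ α, ip α α = 2 → ∃ s : K, s ≠ 0 ∧ m (e α) = s • e (w α)
  out : ∀ x, Sp c.n (w x - x)

noncomputable def wY (α : Lat) : W := if sg c.b α = α then rf α else rf α * rf (sg c.b α)

noncomputable def NY (α : Lat) (r : K) : Aut K := c.Y α r * c.Y (-α) r⁻¹ * c.Y α r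

variable {c}

theorem Mon.one : c.Mon 1 1 :=
  ⟨one_mem _, fun _ _ => rfl, fun α _ => ⟨1, one_ne_zero, by simp⟩, fun x j _ => by simp⟩

theorem Mon.root {m : Aut K} {w : W} (h : c.Mon m w) {α : Lat} (hα : ip α α = 2) :
    ip (w α) (w α) = 2 := by rw [h.iso, hα]

theorem Mon.mul {m m' : Aut K} {w w' : W} (h : c.Mon m w) (h' : c.Mon m' w') :
    c.Mon (m * m') (w * w') := by
  refine ⟨mul_mem h.mem h'.mem, fun x y => ?_, fun α hα => ?_, fun x => ?_⟩
  · simp only [LinearEquiv.mul_apply, h.iso, h'.iso]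
  · obtain ⟨s, hs, h1⟩ := h'.mono α hα
    obtain ⟨s', hs', h2⟩ := h.mono _ (h'.root hα)
    exact ⟨s * s', mul_ne_zero hs hs', by
      simp only [LinearEquiv.mul_apply, h1, map_smul, h2, smul_smul]⟩
  · have := (h.out (w' x)).add (h'.out x)
    rwa [sub_add_sub_cancel] at this

theorem W_inv_app (w : W) (x : Lat) : w⁻¹ (w x) = x := by simp
theorem W_app_inv (w : W) (x : Lat) : w (w⁻¹ x) = x := by simp

theorem Mon.inv {m : Aut K} {w : W} (h : c.Mon m w) : c.Mon m⁻¹ w⁻¹ := by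
  have hi : ∀ x y, ip (w⁻¹ x) (w⁻¹ y) = ip x y := fun x y => by
    rw [← h.iso, W_app_inv, W_app_inv]
  refine ⟨inv_mem h.mem, hi, fun α hα => ?_, fun x => ?_⟩
  · obtain ⟨s, hs, h1⟩ := h.mono (w⁻¹ α) (by rw [hi, hα])
    rw [W_app_inv] at h1
    refine ⟨s⁻¹, inv_ne_zero hs, m.injective ?_⟩
    rw [app_inv, map_smul, h1, smul_smul, inv_mul_cancel₀ hs, one_smul]
  · have := (h.out (w⁻¹ x)).neg
    rwa [W_app_inv, neg_sub] at this

theorem Mon.Sp {m : Aut K} {w : W} (h : c.Mon m w) {x : Lat} (hx : Sp c.n x) : Sp c.n (w x) := by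
  have := (h.out x).add hx
  rwa [sub_add_cancel] at this

theorem Mon.R {m : Aut K} {w : W} (h : c.Mon m w) {x : Lat} (hx : c.R x) : c.R (w x) :=
  ⟨h.root hx.1, h.Sp hx.2⟩

theorem Mon.aut {m : Aut K} {w : W} (h : c.Mon m w) : m ∈ AutG K := G_aut h.mem

theorem Mon.e_sg {m : Aut K} {w : W} (h : c.Mon m w) {α : Lat} (hα : c.R α) {s : K}
    (h1 : m (e α) = s • e (w α)) : m (e (sg c.b α)) = c.τ s • e (sg c.b (w α)) := by
  rw [← st_e hα.2, ← G_st h.mem (e_mem hα.2), h1, map_smulₛₗ, st_e (h.R hα).2]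

theorem Mon.sg {m : Aut K} {w : W} (h : c.Mon m w) {α : Lat} (hα : c.R α) :
    w (sg c.b α) = sg c.b (w α) := by
  obtain ⟨s, _, h1⟩ := h.mono α hα.1
  obtain ⟨s', hs', h2⟩ := h.mono _ hα.sg.1
  exact (e_inj (h.root hα.sg.1) hs' (h2.symm.trans (h.e_sg hα h1))).1

theorem Mon.fix_iff {m : Aut K} {w : W} (h : c.Mon m w) {α : Lat} (hα : c.R α) :
    Exc.sg c.b (w α) = w α ↔ Exc.sg c.b α = α := by rw [← h.sg hα, w.injective.eq_iff]

theorem Mon.conjY {m : Aut K} {w : W} (h : c.Mon m w) {α : Lat} (hα : c.R α) {s : K}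
    (h1 : m (e α) = s • e (w α)) (t : K) : m * c.Y α t * m⁻¹ = c.Y (w α) (s * t) := by
  by_cases h' : Exc.sg c.b α = α
  · rw [Y_fix h', Y_fix ((h.fix_iff hα).2 h'), conj_X h.aut hα.1 (h.root hα.1) h1]
  · rw [Y_mov h', Y_mov (fun h2 => h' ((h.fix_iff hα).1 h2)), map_mul,
      ← conj_X h.aut hα.1 (h.root hα.1) h1,
      ← conj_X h.aut hα.sg.1 (h.R hα).sg.1 (h.e_sg hα h1)]
    group

theorem Mon.Al {m : Aut K} {w : W} (h : c.Mon m w) {α : Lat} (hα : c.R α) {s : K} (hs : s ≠ 0)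
    (h1 : m (e α) = s • e (w α)) : c.Al (w α) s := fun h' => by
  have h2 := h.e_sg hα h1
  rw [(h.fix_iff hα).1 h', h', h1] at h2
  exact (e_inj (h.root hα.1) hs h2).2.symm

theorem Mon.Al_mul {m : Aut K} {w : W} (h : c.Mon m w) {α : Lat} (hα : c.R α) {s : K} (hs : s ≠ 0)
    (h1 : m (e α) = s • e (w α)) {t : K} (ht : c.Al α t) : c.Al (w α) (s * t) := fun h' => by
  rw [map_mul, h.Al hα hs h1 h', ht ((h.fix_iff hα).1 h')]

/-- `conjY` in existential form. -/
theorem Mon.conjY' {m : Aut K} {w : W} (h : c.Mon m w) {α : Lat} (hα : c.R α) {t : K}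
    (ht : c.Al α t) : ∃ t', c.Al (w α) t' ∧ (t ≠ 0 → t' ≠ 0) ∧ m * c.Y α t = c.Y (w α) t' * m := by
  obtain ⟨s, hs, h1⟩ := h.mono α hα.1
  exact ⟨s * t, h.Al_mul hα hs h1 ht, mul_ne_zero hs, by rw [← h.conjY hα h1]; group⟩

theorem Mon.fst_zero {m : Aut K} {w : W} (h : c.Mon m w) {v : L K} (hv : v.1 = 0) :
    (m v).1 = 0 := by
  rw [L_decomp v, hv]
  simp only [Pi.zero_apply, zero_smul, Finset.sum_const_zero, zero_add, map_sum, map_smul,
    Prod.fst_sum]
  refine Finset.sum_eq_zero fun β _ => ?_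
  obtain ⟨s, _, h1⟩ := h.mono β.1 β.2
  rw [h1]; simp [e_fst]

theorem Mon.perp {m : Aut K} {w : W} (h : c.Mon m w) {y : Lat}
    (hy : ∀ x, Exc.Sp c.n x → ip y x = 0) : w y = y := by
  have h1 := hy _ (h.out y)
  rw [← sub_eq_zero]
  apply ip_self_eq_zero
  rw [ip_sub_right, ip_comm y] at h1
  rw [norm_sub, h.iso]; omega

theorem Mon.hv {m : Aut K} {w : W} (h : c.Mon m w) {α : Lat} (hα : ip α α = 2) :
    m (Exc.hv α) = Exc.hv (w α) := by
  obtain ⟨s, _, h1⟩ := h.mono α hα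
  obtain ⟨s', _, h2⟩ := h.mono _ (root_neg hα)
  rw [map_neg] at h2
  exact aut_hv h.aut hα (h.root hα) h1 h2

theorem wY_fix {α : Lat} (hα : c.R α) (h : sg c.b α = α) (x : Lat) :
    c.wY α x = x - ip x α • α := by rw [wY, if_pos h, rf_apply hα.1]

theorem wY_mov {α : Lat} (hα : c.R α) (h : sg c.b α ≠ α) (x : Lat) :
    c.wY α x = x - ip x α • α - ip x (sg c.b α) • sg c.b α := by
  rw [wY, if_neg h, LinearEquiv.mul_apply, rf_apply hα.1, rf_apply hα.sg.1, ip_sub_left,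
    ip_smul_left, ip_comm (sg c.b α), hα.orth h]; module

theorem wY_self {α : Lat} (hα : c.R α) : c.wY α α = -α := by
  by_cases h : sg c.b α = α
  · rw [wY_fix hα h, hα.1]; module
  · rw [wY_mov hα h, hα.1, hα.orth h]; module

theorem wY_wY {α : Lat} (hα : c.R α) (x : Lat) : c.wY α (c.wY α x) = x := by
  by_cases h : sg c.b α = α
  · rw [wY_fix hα h, wY_fix hα h, ip_sub_left, ip_smul_left, hα.1]; module
  · rw [wY_mov hα h, wY_mov hα h]
    simp only [ip_sub_left, ip_smul_left, hα.1, hα.sg.1, ip_comm (sg c.b α) α, hα.orth h]; module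

theorem wY_mul {α : Lat} (hα : c.R α) : c.wY α * c.wY α = 1 := LinearEquiv.ext (wY_wY hα)

theorem wY_inv {α : Lat} (hα : c.R α) : (c.wY α)⁻¹ = c.wY α := inv_eq_of_mul_eq_one_left (wY_mul hα)

theorem NY_fix {α : Lat} (h : sg c.b α = α) (r : K) : c.NY α r = N1 α r := by
  rw [NY, Y_fix h, Y_fix (by rw [sg_neg, h]), N1]

theorem NY_mov {α : Lat} (hα : c.R α) (h : sg c.b α ≠ α) (r : K) :
    c.NY α r = N1 α r * N1 (sg c.b α) (c.τ r) := by
  have h0 := hα.orth h
  have c1 := X_comm hα.1 hα.sg.1 h0.ge r (c.τ r)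
  have c2 := X_comm hα.neg.1 hα.sg.1 (by rw [ip_neg_left, h0]; rfl) r⁻¹ (c.τ r)
  have c3 := X_comm hα.1 hα.sg.neg.1 (by rw [ip_neg_right, h0]; rfl) r (c.τ r)⁻¹
  rw [NY, Y_mov h, Y_mov (by rw [sg_neg]; exact fun h' => h (neg_inj.1 h')), N1, N1, sg_neg,
    map_inv₀]
  generalize X α r = p at *
  generalize X (-α) r⁻¹ = q at *
  generalize X (sg c.b α) (c.τ r) = p' at *
  generalize X (-sg c.b α) (c.τ r)⁻¹ = q' at *
  calc p * p' * (q * q') * (p * p') = p * (p' * q) * (q' * p) * p' := by group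
    _ = p * q * (p' * p) * q' * p' := by rw [← c2, ← c3]; group
    _ = _ := by rw [← c1]; group

theorem NY_Mon {α : Lat} (hα : c.R α) {r : K} (hr : r ≠ 0) (ha : c.Al α r) :
    c.Mon (c.NY α r) (c.wY α) := by
  have hm : c.NY α r ∈ c.G :=
    mul_mem (mul_mem (Y_mem hα ha) (Y_mem hα.neg ha.inv.neg')) (Y_mem hα ha)
  by_cases h : sg c.b α = α
  · refine ⟨hm, fun x y => by rw [wY, if_pos h, rf_iso hα.1], fun β hβ => ?_, fun x => ?_⟩
    · rw [NY_fix h, wY, if_pos h]; exact N1_e hα.1 hβ hr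
    · rw [wY_fix hα h, sub_sub_cancel_left]; exact (hα.2.smul _).neg
  · refine ⟨hm, fun x y => ?_, fun β hβ => ?_, fun x => ?_⟩
    · rw [wY, if_neg h, LinearEquiv.mul_apply, LinearEquiv.mul_apply, rf_iso hα.1, rf_iso hα.sg.1]
    · rw [NY_mov hα h, wY, if_neg h]
      obtain ⟨s, hs, h1⟩ := N1_e hα.sg.1 hβ ((map_ne_zero c.τ).2 hr)
      obtain ⟨s', hs', h2⟩ := N1_e hα.1 (β := rf (sg c.b α) β) (by rw [rf_iso hα.sg.1, hβ]) hr
      exact ⟨s * s', mul_ne_zero hs hs', by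
        simp only [LinearEquiv.mul_apply, h1, map_smul, h2, smul_smul]⟩
    · rw [wY_mov hα h, show ∀ x p q : Lat, x - p - q - x = -p - q from fun x p q => by abel]
      exact (hα.2.smul _).neg.sub (hα.sg.2.smul _)

/-- The rank one identity. -/
theorem rank_one {α : Lat} (hα : c.R α) {m : Aut K} (hm : c.Mon m (c.wY α)) {r : K} (hr : r ≠ 0)
    (ha : c.Al α r) : ∃ r1 r2 h, c.Al α r1 ∧ c.Al (-α) r2 ∧ c.Mon h 1 ∧
      m * c.Y α r = c.Y α r1 * h * c.Y (-α) r2 := by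
  obtain ⟨t, ht, ht0, h1⟩ := hm.conjY' hα ha
  rw [wY_self hα] at ht h1
  have ht' : c.Al α t⁻¹ := by have := ht.inv.neg'; rwa [neg_neg] at this
  have hN := NY_Mon hα (inv_ne_zero (ht0 hr)) ht'
  obtain ⟨t2, ht2, _, h2⟩ := hm.inv.conjY' hα ht'.neg
  rw [wY_inv hα, wY_self hα] at ht2 h2
  refine ⟨-t⁻¹, t2, c.NY α t⁻¹ * m, ht'.neg, ht2, wY_mul hα ▸ hN.mul hm, ?_⟩
  have h3 : c.Y (-α) t2 = m⁻¹ * c.Y α (-t⁻¹) * m := by rw [h2]; group
  rw [h1, h3, NY, inv_inv, ← Y_inv hα]; group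

end Cfg

end Pool.Agent.MP_db74b1_al.Exc
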