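import Pool.Agent.MP_db74b1_al.ExcMain

set_option autoImplicit false

namespace Pool.Agent.MP_db74b1_al.Exc

def Dop {A : Type} [Ring A] (N φ : A) : A := N * φ + φ * N + N * φ * N

theorem six {A : Type} [Ring A] (P : A) (M : Fin 5 → A) (φ : A)
    (h1 : ∀ i j, P * (M i * M j) = 0) (h2 : ∀ i j, M j * (M i * P) = 0)
    (h3 : ∀ j, M 0 * (M 1 * M j) = 0) (h4 : ∀ j, M 0 * (M 2 * M j) = 0)
    (h5 : ∀ j, M j * (M 1 * M 0) = 0) (h6 : ∀ j, M j * (M 2 * M 0) = 0) :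
    Dop (M 4) (Dop (M 3) (Dop (M 2) (Dop (M 1) (Dop (M 0) (Dop P φ))))) =
      M 0 * P * φ * (M 1 * M 2 * M 3 * M 4) + M 4 * M 3 * M 2 * M 1 * φ * (P * M 0) := by
  have k2 : ∀ i j z, M j * (M i * (P * z)) = 0 := fun i j z => by
    rw [← mul_assoc (M i), ← mul_assoc, h2, zero_mul]
  have k5 : ∀ j z, M j * (M 1 * (M 0 * z)) = 0 := fun j z => by
    rw [← mul_assoc (M 1), ← mul_assoc, h5, zero_mul]
  have k6 : ∀ j z, M j * (M 2 * (M 0 * z)) = 0 := fun j z => by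
    rw [← mul_assoc (M 2), ← mul_assoc, h6, zero_mul]
  simp only [Dop, mul_add, add_mul, mul_assoc, h1, h3, h4, k2, k5, k6, mul_zero,
    add_zero, zero_add]
  rw [add_comm]

variable {K : Type} [Field K]

/-- `g - 1` -/
def Nn (g : Aut K) : En K := g.toLinearMap - 1

theorem Nn_apply (g : Aut K) (v : L K) : Nn g v = g v - v := rfl

theorem Nn_comm {g h : Aut K} (H : g * h = h * g) : Nn g * Nn h = Nn h * Nn g := by
  refine LinearMap.ext fun v => ?_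
  have := congrArg (fun p : Aut K => p v) H
  simp only [LinearEquiv.mul_apply] at this
  simp only [Module.End.mul_apply, Nn_apply, map_sub, this]; abel

def Ww (μ ν : Lat) : En K := (co (-μ)).smulRight (e ν) + (co (-ν)).smulRight (e μ)

theorem Ww_apply (μ ν : Lat) (v : L K) : Ww μ ν v = co (-μ) v • e ν + co (-ν) v • e μ := rfl

theorem NN_one {μ ν : Lat} (hμ : ip μ μ = 2) (hν : ip ν ν = 2) (h : ip μ ν = 1) (s t : K)
    (v : L K) : Nn (X μ s) (Nn (X ν t) v) = (s * t) • Ww μ ν v := by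
  have h1 := ex_collinear hμ hν h s t v
  rw [LinearEquiv.mul_apply] at h1
  rw [Nn_apply, Nn_apply, map_sub, ← h1, X_ex hμ, X_ex hν, Ww_apply]
  simp only [ex, map_add, map_smul, LinearMap.add_apply, LinearMap.smul_apply, gf_e hμ, gf_e hν,
    smul_eq_mul]
  module

section comm
variable {T : Lat → Prop} (hT : ∀ α β, T α → T β → 0 ≤ ip α β)
include hT

theorem Ucl_fix {g : Aut K} (hg : g ∈ Ucl K T) {α : Lat} (h : T α) (hα : ip α α = 2) :
    g (e α) = e α :=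
  Ucl_induction (p := fun g => g (e α) = e α) rfl (fun β t g h1 h2 _ h3 => by
    rw [LinearEquiv.mul_apply, h3, X_e_nn h2 hα (hT _ _ h1 h)]) hg

theorem Ucl_comm {g g' : Aut K} (hg : g ∈ Ucl K T) (hg' : g' ∈ Ucl K T) : g * g' = g' * g := by
  refine Ucl_induction (p := fun g' => g * g' = g' * g) (by simp) (fun β t g' h1 h2 _ h3 => ?_) hg'
  have := conj_X (Ucl_aut hg) h2 h2 (c := 1) (by rw [Ucl_fix hT hg h1 h2, one_smul]) t
  rw [one_mul] at this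
  rw [← mul_assoc, mul_inv_eq_iff_eq_mul.1 this, mul_assoc, h3, mul_assoc]

theorem Ucl_sq (h2 : (2 : K) = 0) {g : Aut K} (hg : g ∈ Ucl K T) : g * g = 1 := by
  refine Ucl_induction (p := fun g => g * g = 1) (by simp) (fun β t g h1 _ hg h3 => ?_) hg
  rw [mul_assoc, ← mul_assoc g, Ucl_comm hT hg (X_mem_Ucl h1 t), mul_assoc, h3, mul_one, X_add,
    ← two_mul, h2, zero_mul, X_zero]

theorem Ucl_kill {T' : Lat → Prop} {μ : Lat} (hμ : ip μ μ = 2) (h : T μ)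
    (h' : ∀ ν, T' ν → T ν ∧ ip μ ν = 1) (s : K) {g g' : Aut K} (hg : g ∈ Ucl K T')
    (hg' : g' ∈ Ucl K T) : Nn g' * (Nn (X μ s) * Nn g) = 0 := by
  refine LinearMap.ext fun v => ?_
  change Nn g' (Nn (X μ s) (g v - v)) = 0
  refine Ucl_induction (p := fun g => Nn g' (Nn (X μ s) (g v - v)) = 0) (by simp)
    (fun β t g h1 h2 _ h3 => ?_) hg
  rw [LinearEquiv.mul_apply, ← sub_add_sub_cancel _ (g v), map_add, map_add, h3, add_zero,
    ← Nn_apply (X β t), NN_one hμ h2 (h' β h1).2, Ww_apply]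
  simp [Nn_apply, Ucl_fix hT hg' h hμ, Ucl_fix hT hg' (h' β h1).1 h2]

end comm

def ipL (θ : Lat) : Lat →+ ℤ := AddMonoidHom.mk' (fun x => ip x θ) fun x y => ip_add_left x y θ

theorem ipL_apply (θ x : Lat) : ipL θ x = ip x θ := rfl

theorem van_top {θ : Lat} (hθ : ip θ θ = 2) {v : L K} (h : van (fun β => ip β θ ≤ 2) v) : v = 0 :=
  L_eq (h.2 (by simp [ip_zero_left])) fun β hβ => by
    rw [h.1 β (ip_le_two hβ hθ), map_zero]

theorem van_bot {θ : Lat} (hθ : ip θ θ = 2) (v : L K) :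
    van (fun β => ip β θ < -1) (v - co (-θ) v • e (-θ)) := by
  refine ⟨fun β h => ?_, fun h => by simp [ip_zero_left] at h⟩
  replace h : ip β θ < -1 := h
  by_cases hβ : ip β β = 2
  · rcases ip_cases hθ hβ with rfl | h1 | h1
    · simp [co_e_self hβ]
    · rw [ip_comm] at h; omega
    · rw [ip_comm] at h; omega
  · exact co_of_not hβ _

theorem four {θ : Lat} (hθ : ip θ θ = 2) {A : Lat → Prop} (hA : ∀ α, A α → 1 ≤ ip α θ)
    {g1 g2 g3 g4 : Aut K} (h1 : g1 ∈ Ucl K A) (h2 : g2 ∈ Ucl K A) (h3 : g3 ∈ Ucl K A)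
    (h4 : g4 ∈ Ucl K A) (h : Nn g1 (Nn g2 (Nn g3 (Nn g4 (e (-θ))))) = e θ) :
    Nn g1 * Nn g2 * Nn g3 * Nn g4 = (co (-θ)).smulRight (e θ) := by
  refine LinearMap.ext fun v => ?_
  have k : ∀ (k : ℤ) {g : Aut K} (_ : g ∈ Ucl K A) {v : L K}, van (fun β => ip β θ < k) v →
      van (fun β => ip β θ < k + 1) (Nn g v) := fun k g hg v hv =>
    (van_lin (ipL θ) k (fun α h _ => hA α h) hv hg).mono fun β h => by rw [ipL_apply]; omega
  have h5 := van_top hθ ((k _ h1 (k _ h2 (k _ h3 (k _ h4 (van_bot hθ v))))).mono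
    fun β h => by omega)
  simp only [map_sub, map_smul, h, sub_eq_zero] at h5
  exact h5

noncomputable def bt (g : Aut K) (x y : L K) : K := gf x (g y) + gf y (g x)

def g0 : Lat := v8 1 1 2 3 2 1 0 0
def g3 : Lat := v8 0 1 0 1 0 0 0 0
def g4 : Lat := v8 0 1 1 1 1 0 0 0

def T6s (α : Lat) : Prop := α = th 6 ∨ α = g0 ∨ α = k0 ∨ α = k1 ∨ α = g3 ∨ α = g4

theorem T6s_ip (α β : Lat) (h1 : T6s α) (h2 : T6s β) : 0 ≤ ip α β := by
  rw [ip_x]
  rcases h1 with rfl | rfl | rfl | rfl | rfl | rfl <;>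
    rcases h2 with rfl | rfl | rfl | rfl | rfl | rfl <;> decide

namespace Cfg

variable (c : Cfg K)

/-- The fixed field of `τ` has two elements. -/
def Q2 : Prop := ∀ t, c.τ t = t → t = 0 ∨ t = 1

/-- Not of type `F₄`. -/
def NS : Prop := ¬ (c.b = true ∧ ∀ t, c.τ t = t)

/-- Long roots. -/
def Lg (α : Lat) : Prop := c.R α ∧ sg c.b α = α

def TI (b : Aut K) (φ : En K) : Prop :=
  (∀ v ∈ c.V, φ v ∈ c.V) ∧ ∀ b', c.Cj b b' → TW c.V (φ * b'.toLinearMap) = 0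

def BZ (g : Aut K) : Prop := ∀ p ∈ c.G, ∀ μ ν, c.Lg μ → c.Lg ν → ip μ ν = 1 →
  bt g (p (e μ)) (p (e ν)) = 0

variable {c}

theorem Q2.two (hq : c.Q2) : (2 : K) = 0 := by
  rcases hq 2 (map_ofNat c.τ 2) with h | h
  · exact h
  · exact absurd (by linear_combination h : (1 : K) = 0) one_ne_zero

theorem Q2.eps (hq : c.Q2) (x y : Lat) : (eps x y : K) = 1 := by
  rcases eps_cases x y with h | h <;> rw [h]
  · exact Int.cast_one
  · push_cast; linear_combination -hq.two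

theorem Q2.omega (hq : c.Q2) (hn : c.NS) (hb : c.b = true) : ∃ t, c.τ t = t + 1 := by
  obtain ⟨t, ht⟩ : ∃ t, c.τ t ≠ t := by
    by_contra h; push Not at h; exact hn ⟨hb, h⟩
  refine ⟨t, ?_⟩
  rcases hq (t + c.τ t) (by rw [map_add, c.ττ, add_comm]) with h | h
  · exact absurd (by linear_combination h - t * hq.two) ht
  · linear_combination h - t * hq.two

theorem six_le : 6 ≤ c.n := by
  rcases c.ok with ⟨_, _, h | h | h⟩ | ⟨_, h, _⟩ <;> omega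

theorem R6' {x : Lat} (h : ipx x x = 2 ∧ Sp 6 x) : c.R x :=
  ⟨rt h.1, fun j hj => h.2 j (six_le.trans hj)⟩

theorem Lg6 {x : Lat} (h : ipx x x = 2 ∧ Sp 6 x ∧ sg true x = x) : c.Lg x :=
  ⟨R6' ⟨h.1, h.2.1⟩, by
    cases c.b
    · exact sg_false x
    · exact h.2.2⟩

theorem Lg.neg {α : Lat} (h : c.Lg α) : c.Lg (-α) := ⟨h.1.neg, by rw [sg_neg, h.2]⟩

theorem Lg.X_mem {α : Lat} (h : c.Lg α) : X α 1 ∈ c.G :=
  Y_fix h.2 (1 : K) ▸ Y_mem h.1 (Al_one _)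

theorem Dop_eq {g : Aut K} (h2 : g * g = 1) (φ : En K) :
    Dop (Nn g) φ = g.toLinearMap * φ * (g⁻¹).toLinearMap - φ := by
  rw [inv_eq_of_mul_eq_one_left h2, Dop, Nn]
  simp only [sub_mul, mul_sub, one_mul, mul_one]; abel

theorem TW_conj {g b : Aut K} (hg : g ∈ c.G) (hb : b ∈ c.G) {φ : En K} (hφ : ∀ v ∈ c.V, φ v ∈ c.V) :
    TW c.V (g.toLinearMap * φ * (g⁻¹).toLinearMap * b.toLinearMap) =
      TW c.V (φ * (g⁻¹ * b * g⁻¹⁻¹).toLinearMap) := by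
  rw [mul_assoc, mul_assoc, TW_comm (g := φ * ((g⁻¹).toLinearMap * b.toLinearMap))
    (fun v hv => G_mem hg hv) (fun v hv => hφ _ (G_mem (inv_mem hg) (G_mem hb hv))), inv_inv]
  rfl

theorem TI.D {b g : Aut K} (hb : b ∈ c.G) (hg : g ∈ c.G) (h2 : g * g = 1) {φ : En K}
    (h : c.TI b φ) : c.TI b (Dop (Nn g) φ) := by
  rw [Dop_eq h2]
  refine ⟨fun v hv => sub_mem (G_mem hg (h.1 _ (G_mem (inv_mem hg) hv))) (h.1 v hv),
    fun b' hb' => ?_⟩
  rw [sub_mul, map_sub, TW_conj hg (hb'.mem hb) h.1, h.2 _ hb',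
    h.2 _ (hb'.trans ⟨_, inv_mem hg, rfl⟩), sub_zero]

theorem SC.TI {a b a' g : Aut K} (h : c.SC a b) (ha : a ∈ c.G) (hb : b ∈ c.G) (ha' : c.Cj a a')
    (hg : g ∈ c.G) (h2 : g * g = 1) : c.TI b (Dop (Nn g) a'.toLinearMap) := by
  obtain ⟨k, hk⟩ := h.trace le_rfl (fun g hg v hv => G_mem hg hv)
  have h1 : ∀ v ∈ c.V, a'.toLinearMap v ∈ c.V := fun v hv => G_mem (ha'.mem ha) hv
  rw [Dop_eq h2]
  refine ⟨fun v hv => sub_mem (G_mem hg (h1 _ (G_mem (inv_mem hg) hv))) (h1 v hv),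
    fun b' hb' => ?_⟩
  rw [sub_mul, map_sub, TW_conj hg (hb'.mem hb) h1]
  exact sub_eq_zero.2 ((hk _ _ ha' (hb'.trans ⟨_, inv_mem hg, rfl⟩)).trans (hk _ _ ha' hb').symm)

structure Pair (c : Cfg K) (g1 g2 : Aut K) : Prop where
  h1 : g1 ∈ c.G
  h2 : g2 ∈ c.G
  u1 : g1 ∈ Ucl K fun β => β = k0 ∨ β = k1
  u2 : g2 ∈ Ucl K fun β => β = k0 ∨ β = k1
  h3 : Nn g1 (Nn g2 (e (-ts))) = e (th 6)

theorem exists_pair (hq : c.Q2) (hn : c.NS) : ∃ g1 g2, Pair c g1 g2 := by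
  have r0 : c.R k0 := R6' (by decide)
  have r1 : c.R k1 := R6' (by decide)
  have rt' : c.R (-ts) := R6' (by decide)
  have ru : c.R eu := R6' (by decide)
  have re : c.R et := R6' (by decide)
  have rθ : c.R (th 6) := R6' (by decide)
  have a1 : ∀ t : K, X k1 t (e (-ts)) = e (-ts) + t • e eu := fun t => by
    rw [X_e_m1 r1.1 rt'.1 (by rw [ip_x]; decide), hq.eps, mul_one, show k1 + -ts = eu by decide]
  have a2 : ∀ t : K, X k0 t (e (-ts)) = e (-ts) + t • e et := fun t => by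
    rw [X_e_m1 r0.1 rt'.1 (by rw [ip_x]; decide), hq.eps, mul_one, show k0 + -ts = et by decide]
  have a3 : ∀ t : K, X k0 t (e eu) = e eu + t • e (th 6) := fun t => by
    rw [X_e_m1 r0.1 ru.1 (by rw [ip_x]; decide), hq.eps, mul_one, show k0 + eu = th 6 by decide]
  have a4 : ∀ t : K, X k1 t (e et) = e et + t • e (th 6) := fun t => by
    rw [X_e_m1 r1.1 re.1 (by rw [ip_x]; decide), hq.eps, mul_one, show k1 + et = th 6 by decide]
  have a5 : ∀ t : K, X k1 t (e eu) = e eu := X_e_nn r1.1 ru.1 (by rw [ip_x]; decide)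
  have a6 : ∀ t : K, X k0 t (e et) = e et := X_e_nn r0.1 re.1 (by rw [ip_x]; decide)
  have a7 : ∀ t : K, X k0 t (e (th 6)) = e (th 6) := X_e_nn r0.1 rθ.1 (by rw [ip_x]; decide)
  have a8 : ∀ t : K, X k1 t (e (th 6)) = e (th 6) := X_e_nn r1.1 rθ.1 (by rw [ip_x]; decide)
  cases hb : c.b
  · refine ⟨X k0 1, X k1 1, Lg.X_mem ⟨r0, by rw [hb, sg_false]⟩, Lg.X_mem ⟨r1, by rw [hb, sg_false]⟩,
      X_mem_Ucl (Or.inl rfl) _, X_mem_Ucl (Or.inr rfl) _, ?_⟩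
    simp [Nn_apply, a1, a3]
  · obtain ⟨t, ht⟩ := hq.omega hn hb
    have hs : sg c.b k0 = k1 := by rw [hb]; decide
    have hY : ∀ t, c.Y k0 t ∈ c.G := fun t => Y_mem r0 fun h => absurd h (k0_mov hb)
    have hU : ∀ t, c.Y k0 t ∈ Ucl K fun β => β = k0 ∨ β = k1 := fun t =>
      Y_mem_Ucl (Or.inl rfl) (Or.inr hs) t
    refine ⟨_, _, hY 1, hY t, hU 1, hU t, ?_⟩
    simp only [Nn_apply, Y_mov (k0_mov hb), hs, LinearEquiv.mul_apply, map_add, map_sub, map_smul,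
      a1, a2, a3, a4, a5, a6, a7, a8, map_one, ht]
    have := hq.two
    match_scalars <;> first | ring1 | linear_combination t * this

theorem Pair.mem {g1 g2 : Aut K} (H : Pair c g1 g2) (i : Fin 5) :
    ![X g0 1, g1, g2, X g3 1, X g4 1] i ∈ c.G ∧
    ![X g0 1, g1, g2, X g3 1, X g4 1] i ∈ Ucl K fun β => T6s β ∧ ip (th 6) β = 1 := by
  have k : ∀ g ∈ Ucl K fun β => β = k0 ∨ β = k1,
      g ∈ Ucl K fun β => T6s β ∧ ip (th 6) β = 1 := fun g hg =>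
    Ucl_mono (by rintro β _ (rfl | rfl) <;> rw [ip_x] <;> simp [T6s] <;> decide) hg
  fin_cases i
  · exact ⟨(Lg6 (x := g0) (by decide)).X_mem,
      X_mem_Ucl (β := g0) ⟨by simp [T6s], by rw [ip_x]; decide⟩ _⟩
  · exact ⟨H.h1, k _ H.u1⟩
  · exact ⟨H.h2, k _ H.u2⟩
  · exact ⟨(Lg6 (x := g3) (by decide)).X_mem,
      X_mem_Ucl (β := g3) ⟨by simp [T6s], by rw [ip_x]; decide⟩ _⟩
  · exact ⟨(Lg6 (x := g4) (by decide)).X_mem,
      X_mem_Ucl (β := g4) ⟨by simp [T6s], by rw [ip_x]; decide⟩ _⟩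

theorem Pair.four (hq : c.Q2) {g1 g2 : Aut K} (H : Pair c g1 g2) :
    Nn g1 * Nn g2 * Nn (X g3 1) * Nn (X g4 1) = (co (-th 6)).smulRight (e (th 6)) := by
  have lθ : c.Lg (th 6) := Lg6 (by decide)
  have l3 : c.Lg g3 := Lg6 (by decide)
  have l4 : c.Lg g4 := Lg6 (by decide)
  refine Exc.four lθ.1.1 (fun α h => by rw [ip_comm, h.2]) (H.mem 1).2 (H.mem 2).2 (H.mem 3).2
    (H.mem 4).2 ?_
  rw [Nn_apply (X g4 1), X_e_m1 l4.1.1 lθ.1.neg.1 (by rw [ip_x]; decide), add_sub_cancel_left,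
    hq.eps, mul_one, one_smul, Nn_apply (X g3 1), X_e_m1 l3.1.1 (rt (by decide))
    (by rw [ip_x]; decide), add_sub_cancel_left, hq.eps, mul_one, one_smul,
    show g3 + (g4 + -th 6) = -ts by decide, H.h3]

theorem star_of (hq : c.Q2) (hn : c.NS) {a b : Aut K} (h : c.SC a b) (ha : a ∈ c.G) (hb : b ∈ c.G)
    {a' b' : Aut K} (ha' : c.Cj a a') (hb' : c.Cj b b') :
    gf (e (th 6)) (a' (e (th 6))) * bt b' (e (th 6)) (e g0) +
      bt a' (e (th 6)) (e g0) * gf (e (th 6)) (b' (e (th 6))) = 0 := by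
  obtain ⟨g1, g2, H⟩ := exists_pair hq hn
  have lθ : c.Lg (th 6) := Lg6 (by decide)
  have l0 : c.Lg g0 := Lg6 (by decide)
  let g : Fin 5 → Aut K := ![X g0 1, g1, g2, X g3 1, X g4 1]
  have hA : ∀ i, g i ∈ Ucl K fun β => T6s β ∧ ip (th 6) β = 1 := fun i => (H.mem i).2
  have hT : ∀ i, g i ∈ Ucl K T6s := fun i => Ucl_mono (fun _ _ h => h.1) (hA i)
  have hG : ∀ i, g i ∈ c.G := fun i => (H.mem i).1
  have hP : X (th 6) 1 ∈ Ucl K T6s := X_mem_Ucl (Or.inl rfl) _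
  have hc : ∀ i j, Nn (g i) * Nn (g j) = Nn (g j) * Nn (g i) := fun i j =>
    Nn_comm (Ucl_comm T6s_ip (hT i) (hT j))
  have hc' : ∀ i, Nn (X (th 6) 1) * Nn (g i) = Nn (g i) * Nn (X (th 6) 1) := fun i =>
    Nn_comm (Ucl_comm T6s_ip hP (hT i))
  have e2 : ∀ i j, Nn (g j) * (Nn (X (th 6) 1) * Nn (g i)) = 0 := fun i j =>
    Ucl_kill T6s_ip lθ.1.1 (Or.inl rfl) (fun _ h => h) 1 (hA i) (hT j)
  have k : ∀ β, β = k0 ∨ β = k1 → T6s β ∧ ip g0 β = 1 := by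
    rintro β (rfl | rfl) <;> rw [ip_x] <;> simp [T6s] <;> decide
  have e5 : ∀ j, Nn (g j) * (Nn (g 0) * Nn (g 1)) = 0 := fun j =>
    Ucl_kill T6s_ip l0.1.1 (by simp [T6s]) k 1 H.u1 (hT j)
  have e6 : ∀ j, Nn (g j) * (Nn (g 0) * Nn (g 2)) = 0 := fun j =>
    Ucl_kill T6s_ip l0.1.1 (by simp [T6s]) k 1 H.u2 (hT j)
  have e7 := six (Nn (X (th 6) 1)) (fun i => Nn (g i)) a'.toLinearMap
    (fun i j => by rw [hc i j, ← mul_assoc, hc', mul_assoc, e2]) (fun i j => by rw [← hc', e2])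
    (fun j => by rw [hc 1 j, ← mul_assoc, hc 0 j, mul_assoc, e5])
    (fun j => by rw [hc 2 j, ← mul_assoc, hc 0 j, mul_assoc, e6])
    (fun j => by rw [hc 1 0, e5]) (fun j => by rw [hc 2 0, e6])
  have s : ∀ i, g i * g i = 1 := fun i => Ucl_sq T6s_ip hq.two (hT i)
  have e8 := (((((h.TI ha hb ha' lθ.X_mem (Ucl_sq T6s_ip hq.two hP)).D hb (hG 0) (s 0)).D hb
    (hG 1) (s 1)).D hb (hG 2) (s 2)).D hb (hG 3) (s 3)).D hb (hG 4) (s 4)
  have e9 : Nn (g 1) * Nn (g 2) * Nn (g 3) * Nn (g 4) = _ := H.four hq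
  have e10 : Nn (X (th 6) 1) * Nn (g 0) = Ww (th 6) g0 := LinearMap.ext fun v => by
    have := NN_one lθ.1.1 l0.1.1 (by rw [ip_x]; decide) (1 : K) 1 v
    rwa [one_mul, one_smul] at this
  rw [e7, ← hc' 0, e10, show Nn (g 4) * Nn (g 3) * Nn (g 2) * Nn (g 1) =
    Nn (g 1) * Nn (g 2) * Nn (g 3) * Nn (g 4) by
      rw [hc 4 3, mul_assoc, mul_assoc, hc 2 1, ← mul_assoc (Nn (g 4)), hc 4 1, mul_assoc,
        hc 4 2, ← mul_assoc, hc 3 1, mul_assoc, ← mul_assoc (Nn (g 3)), hc 3 2]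
      simp only [mul_assoc], e9] at e8
  have e11 := e8.2 b' hb'
  have hV : Ww (th 6) g0 (a' (e (th 6))) ∈ c.V :=
    add_mem (c.V.smul_mem _ (e_mem l0.1.2)) (c.V.smul_mem _ (e_mem lθ.1.2))
  rw [add_mul, map_add, show Ww (th 6) g0 * a'.toLinearMap * (co (-th 6)).smulRight (e (th 6)) *
      b'.toLinearMap = ((co (-th 6)) ∘ₗ b'.toLinearMap).smulRight (Ww (th 6) g0 (a' (e (th 6))))
      from LinearMap.ext fun v => by simp,
    show (co (-th 6)).smulRight (e (th 6)) * a'.toLinearMap * Ww (th 6) g0 * b'.toLinearMap =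
      ((co (-th 6)) ∘ₗ a'.toLinearMap ∘ₗ Ww (th 6) g0 ∘ₗ b'.toLinearMap).smulRight (e (th 6))
      from LinearMap.ext fun v => by simp, TW_rank _ hV, TW_rank _ (e_mem lθ.1.2)] at e11
  simp only [LinearMap.comp_apply, LinearEquiv.coe_coe, Ww_apply, map_add, map_smul,
    smul_eq_mul] at e11
  simp only [bt, gf_e lθ.1.1, gf_e l0.1.1]
  linear_combination e11

end Cfg

end Pool.Agent.MP_db74b1_al.Exc
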