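import Pool.Agent.MP_db74b1_al.ExcQ1

set_option autoImplicit false

namespace Pool.Agent.MP_db74b1_al.Exc

variable {K : Type} [Field K]

def gam : ℕ → Lat
  | 6 => g0
  | 7 => v8 1 2 3 4 3 2 1 0
  | _ => v8 2 3 4 6 5 4 3 1

def bet : ℕ → Lat
  | 6 => ts
  | 7 => v8 0 1 1 2 2 2 1 0
  | _ => v8 2 2 3 4 3 2 1 0

def allL : List Lat := posL ++ posL.map Neg.neg

theorem mem_allL {x : Lat} (h : ip x x = 2) : x ∈ allL := by
  rcases root_dich h with h1 | h1
  · exact List.mem_append_left _ (mem_posL h h1)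
  · exact List.mem_append_right _
      (List.mem_map.2 ⟨-x, mem_posL (root_neg h) (neg_nonneg.2 h1), neg_neg x⟩)

def domP (n : ℕ) (b : Bool) (x : Lat) : Prop :=
  Sp n x → (∀ i, sg b x i = x i) → (∀ i : Fin 8, i.1 < n → cv (th n) i = 0 → 0 ≤ sv b x i) →
    (ipx x (th n) = 1 → ∀ i, x i = gam n i) ∧ (ipx x (th n) = 0 → ∀ i, x i = bet n i)

instance (n : ℕ) (b : Bool) (x : Lat) : Decidable (domP n b x) := by unfold domP; infer_instance

theorem dom6 : ∀ x ∈ allL, domP 6 false x := by decide +kernel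
theorem dom6t : ∀ x ∈ allL, domP 6 true x := by decide +kernel
theorem dom7 : ∀ x ∈ allL, domP 7 false x := by decide +kernel
theorem dom8 : ∀ x ∈ allL, domP 8 false x := by decide +kernel

def zerP (n : ℕ) (x : Lat) : Prop :=
  Sp n x → ipx x (th n) = 0 → ∃ y ∈ posL, ipx y y = 2 ∧ Sp n y ∧ ipx y (th n) = 1 ∧ ipx y x = 1

instance (n : ℕ) (x : Lat) : Decidable (zerP n x) := by unfold zerP; infer_instance

theorem zer6 : ∀ x ∈ allL, zerP 6 x := by decide +kernel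
theorem zer7 : ∀ x ∈ allL, zerP 7 x := by decide +kernel
theorem zer8 : ∀ x ∈ allL, zerP 8 x := by decide +kernel

theorem short1 : ∀ x ∈ allL, Sp 6 x → ipx x (th 6) = 1 → (∀ i, sg true x i = x i) ∨
    ∃ y ∈ posL, ipx y y = 2 ∧ Sp 6 y ∧ ipx y (th 6) = 1 ∧ ipx y x = 1 ∧ ∀ i, sg true y i = y i := by
  decide +kernel

theorem fix_add {g : Aut K} (hg : g ∈ AutG K) {α β : Lat} (hα : ip α α = 2) (hβ : ip β β = 2)
    (h : ip α β = -1) (h1 : g (e α) = e α) (h2 : g (e β) = e β) : g (e (α + β)) = e (α + β) := by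
  have := aut_step hg hα hβ hα hβ h h h1 (c := 1) (by rw [h2, one_smul])
  rwa [one_mul, eps_cast_mul_self, one_smul] at this

theorem gf_zero {θ : Lat} {v w : L K} (hv : van (fun β => ip β θ ≤ 0) v)
    (hw : van (fun β => ip β θ ≤ 0) w) : gf v w = 0 := by
  rw [gf, LinearMap.sub_apply, LinearMap.sum_apply, LinearMap.sum_apply, LinearMap.sub_apply,
    LinearMap.sum_apply, LinearMap.sum_apply, Finset.sum_eq_zero, Finset.sum_eq_zero, sub_zero]
  · intro i _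
    simp [hv.2 (by simp [ip_zero_left])]
  · intro α _
    by_cases h : ip α.1 θ ≤ 0
    · simp [hv.1 _ h]
    · simp [hw.1 (-α.1) (show ip (-α.1) θ ≤ 0 by rw [ip_neg_left]; omega)]

/-- The degree one part for the grading by `θ`. -/
def V1 (θ : Lat) (v : L K) : Prop := van (fun β => ip β θ ≠ 1) v

theorem V1.co {θ : Lat} {v : L K} (h : V1 θ v) (β : Lat) (hβ : ip β θ ≠ 1) : co β v = 0 := h.1 β hβ

theorem V1.fst {θ : Lat} {v : L K} (h : V1 θ v) : v.1 = 0 := h.2 (by simp [ip_zero_left])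

theorem V1_e {θ β : Lat} (h : ip β θ = 1) : V1 θ (e β : L K) := van_e (by simp [h])

theorem neg_eq2 (h2 : (2 : K) = 0) (v : L K) : -v = v := by
  rw [neg_eq_iff_add_eq_zero, ← two_smul K, h2, zero_smul]

theorem co_br_hv (y β : Lat) (v : L K) : co β (br (hv y) v) = ip y β * co β v := by
  by_cases h : ip β β = 2
  · rw [br_hv, co_of_root h, co_of_root h]; simp [dd, hp_hv]
  · simp [co_of_not h]

section
variable {θ : Lat} (hθ : ip θ θ = 2) (h2 : (2 : K) = 0)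
include hθ h2

theorem V1_iff (v : L K) : V1 θ v ↔ br (hv θ) v = v ∧ ad θ v = 0 := by
  have h0 : ip 0 θ ≠ 1 := by simp [ip_zero_left]
  constructor
  · intro h
    refine ⟨L_eq (by rw [br_hv, h.2 h0]; rfl) fun β hβ => ?_, L_eq ?_ fun β hβ => ?_⟩
    · rw [co_br_hv]
      by_cases h1 : ip β θ = 1
      · rw [ip_comm, h1]; simp
      · rw [h.1 β h1, mul_zero]
    · ext i; rw [ad_fst, h.co (-θ) (by rw [ip_neg_left]; omega)]; simp
    · rw [co_ad, if_pos hβ, map_zero]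
      split_ifs with h1
      · simp [hp_apply, h.2 h0]
      · rw [h.co (β - θ) (by have := ip_le_one hβ hθ h1; rw [ip_sub_left]; omega), mul_zero]
  · rintro ⟨h, h'⟩
    refine ⟨fun β h1 => ?_, fun _ => by rw [← h, br_hv]; rfl⟩
    replace h1 : ip β θ ≠ 1 := h1
    by_cases hβ : ip β β = 2
    swap
    · exact co_of_not hβ _
    have h3 := congrArg (co β) h
    rw [co_br_hv] at h3
    by_cases h4 : ip θ β = -1
    · have h5 := congrArg (co (θ + β)) h'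
      rw [co_ad, if_pos ((root_add hθ hβ).2 h4), if_neg (by simpa using root_ne_zero hβ),
        add_sub_cancel_left, map_zero] at h5
      exact (mul_eq_zero.1 h5).resolve_left (eps_ne _ _)
    · have h5 : ip θ β = -2 ∨ ip θ β = 0 ∨ ip θ β = 2 := by
        have h6 := ip_le_two hθ hβ
        have h7 := ip_le_two hθ (root_neg hβ)
        rw [ip_neg_right] at h7
        rw [ip_comm] at h1
        omega
      rcases h5 with h5 | h5 | h5 <;> rw [h5] at h3 <;> push_cast at h3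
      · linear_combination -h3 - co β v * h2
      · linear_combination -h3
      · linear_combination -h3 + co β v * h2

theorem V1.aut {g : Aut K} (hg : g ∈ AutG K) (h1 : g (e θ) = e θ) (h3 : g (e (-θ)) = e (-θ))
    {v : L K} (h : V1 θ v) : V1 θ (g v) := by
  rw [V1_iff hθ h2] at h ⊢
  have h4 := aut_hv hg hθ hθ (c := 1) (d := 1) (by rw [h1, one_smul]) (by rw [h3, one_smul])
  exact ⟨by rw [← h4, ← hg.1, h.1], by rw [← br_e hθ, ← h1, ← hg.1, br_e hθ, h.2, map_zero]⟩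

theorem V1.AA {v : L K} (h : V1 θ v) : ad θ (ad (-θ) v) = v := by
  have h1 := jac_ee hθ (root_neg hθ) v
  rw [V1_iff hθ h2] at h
  rwa [h.2, map_zero, sub_zero, ad_e_m2 hθ, map_neg, LinearMap.neg_apply, h.1,
    neg_eq2 h2] at h1

theorem V1.X0 {v : L K} (h : V1 θ v) (t : K) : X θ t v = v := by
  rw [X_apply hθ, ((V1_iff hθ h2 v).1 h).2, h.co (-θ) (by rw [ip_neg_left]; omega)]; simp

theorem V1.X1 {v : L K} (h : V1 θ v) (t : K) : X θ t (ad (-θ) v) = ad (-θ) v + t • v := by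
  rw [X_apply hθ, h.AA hθ h2, co_ad, if_pos (root_neg hθ), if_pos rfl, hp_apply,
    h.2 (by simp [ip_zero_left])]
  simp

theorem V1.n0 {v : L K} (h : V1 θ v) : N1 θ 1 v = ad (-θ) v := by
  rw [N1, LinearEquiv.mul_apply, LinearEquiv.mul_apply, h.X0 hθ h2, X_apply (root_neg hθ), neg_neg,
    h.co θ (by omega), map_add, map_add, map_smul, h.X0 hθ h2, h.X1 hθ h2]
  have := neg_eq2 h2 v
  simp only [inv_one, one_smul, mul_zero, zero_smul, map_zero, add_zero]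
  linear_combination (exp := 1) -this

theorem V1.n1 {v : L K} (h : V1 θ v) : N1 θ 1 (ad (-θ) v) = v := by
  have h3 : X (-θ) 1 (ad (-θ) v) = ad (-θ) v := by
    rw [X_apply (root_neg hθ), ad_ad (root_neg hθ), co_neg_ad (root_neg hθ), h2]; simp
  rw [N1, LinearEquiv.mul_apply, LinearEquiv.mul_apply, h.X1 hθ h2, inv_one, map_add, h3, one_smul,
    X_apply (root_neg hθ), neg_neg, h.co θ (by omega)]
  have := neg_eq2 h2 (ad (-θ) v)
  rw [show ad (-θ) v + (v + (1 : K) • ad (-θ) v + ((1 : K) ^ 2 * 0) • e (-θ)) = v by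
    simp only [one_smul, mul_zero, zero_smul]; linear_combination (exp := 1) -this, h.X0 hθ h2]

omit hθ h2 in
theorem V1.ge {v : L K} (h : V1 θ v) : van (fun β => ip β θ ≤ 0) v :=
  h.mono fun β h => by omega

end

namespace Cfg

variable {c : Cfg K}

theorem Mon.Lg {m : Aut K} {w : W} (h : c.Mon m w) {α : Lat} (hα : c.Lg α) : c.Lg (w α) :=
  ⟨h.R hα.1, (h.fix_iff hα.1).2 hα.2⟩

theorem Q2.mon_e (hq : c.Q2) {m : Aut K} {w : W} (h : c.Mon m w) {α : Lat} (hα : c.Lg α) :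
    m (e α) = e (w α) := by
  obtain ⟨s, hs, h1⟩ := h.mono α hα.1.1
  rw [h1, (hq s (h.Al hα.1 hs h1 (h.Lg hα).2)).resolve_left hs, one_smul]

theorem th_Lg : c.Lg (th c.n) := ⟨c.th_R, c.th_sg⟩

theorem to_th {α : Lat} (hα : c.Lg α) : ∃ m w, c.Mon m w ∧ w α = th c.n := by
  refine root_top (p := fun α => sg c.b α = α → ∃ m w, c.Mon m w ∧ w α = th c.n)
    (fun _ => ⟨1, 1, Mon.one, rfl⟩)
    (fun hb => by rw [hb]; exact ⟨fun h => absurd h (by decide), fun h => absurd h (by decide)⟩)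
    (fun α i hi hα h h' => ?_) hα.1 hα.2
  obtain ⟨m, w, h1, h2⟩ := h (((n_Mon hi).fix_iff hα).2 h')
  exact ⟨_, _, h1.mul (n_Mon hi), h2⟩

theorem to_dom {β : Lat} (hβ : c.Lg β) : ∃ m w, c.Mon m w ∧ w (th c.n) = th c.n ∧
    (ip β (th c.n) = 1 → w β = gam c.n) ∧ (ip β (th c.n) = 0 → w β = bet c.n) := by
  induction' hn : (ht (th c.n) - ht β).toNat using Nat.strong_induction_on with n ih generalizing β
  by_cases h : ∀ i : Fin 8, i.1 < c.n → cv (th c.n) i = 0 → 0 ≤ sv c.b β i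
  · have h1 : domP c.n c.b β := by
      rcases c.ok with ⟨hb, _, h | h | h⟩ | ⟨hb, h, _⟩ <;> rw [h, hb]
      exacts [dom6 β (mem_allL hβ.1.1), dom7 β (mem_allL hβ.1.1), dom8 β (mem_allL hβ.1.1),
        dom6t β (mem_allL hβ.1.1)]
    have h2 := h1 hβ.1.2 (congrFun hβ.2) h
    rw [← ip_x] at h2
    exact ⟨1, 1, Mon.one, rfl, fun h => funext (h2.1 h), fun h => funext (h2.2 h)⟩
  · push Not at h
    obtain ⟨i, hi, h1, h2⟩ := h
    have h3 := (ht_wY hi β).2 h2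
    have h4 := (n_Mon hi).Lg hβ
    have h5 := h4.1.ht_le
    have h6 : c.wY (a i) (th c.n) = th c.n := by
      rw [← ip_a] at h1
      by_cases h7 : sg c.b (a i) = a i
      · rw [wY_fix (R_a hi) h7, h1]; simp
      · rw [wY_mov (R_a hi) h7, ← c.ip_sg' c.th_R.2 (Sp_a hi), c.th_sg, h1]; simp
    obtain ⟨m, w, k1, k2, k3⟩ := ih _ (by omega) h4 rfl
    have h7 : ip (c.wY (a i) β) (th c.n) = ip β (th c.n) := by
      rw [← (n_Mon hi).iso β, h6]
    rw [h7] at k3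
    exact ⟨_, _, k1.mul (n_Mon hi), by rw [LinearEquiv.mul_apply, h6, k2], k3⟩

theorem to_pair {α β : Lat} (hα : c.Lg α) (hβ : c.Lg β) : ∃ m w, c.Mon m w ∧ w α = th c.n ∧
    (ip β α = 1 → w β = gam c.n) ∧ (ip β α = 0 → w β = bet c.n) := by
  obtain ⟨m, w, h1, h2⟩ := to_th hα
  obtain ⟨m', w', h3, h4, h5⟩ := to_dom (h1.Lg hβ)
  rw [← h2, h1.iso] at h5
  exact ⟨_, _, h3.mul h1, by rw [LinearEquiv.mul_apply, h2, h4], h5⟩

theorem gam_Lg : c.Lg (gam c.n) ∧ ip (gam c.n) (th c.n) = 1 := by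
  rw [Lg, R, ip_x, ip_x]
  rcases c.ok with ⟨hb, _, h | h | h⟩ | ⟨hb, h, _⟩ <;> rw [h, hb] <;> decide

theorem bet_Lg : c.Lg (bet c.n) ∧ ip (bet c.n) (th c.n) = 0 := by
  rw [Lg, R, ip_x, ip_x]
  rcases c.ok with ⟨hb, _, h | h | h⟩ | ⟨hb, h, _⟩ <;> rw [h, hb] <;> decide

theorem bt_conj {g p : Aut K} (hp : p ∈ c.G) (x y : L K) :
    bt (p⁻¹ * g * p⁻¹⁻¹) x y = bt g (p x) (p y) := by
  simp only [bt, inv_inv, LinearEquiv.mul_apply, gf_inv (G_aut (inv_mem hp))]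

theorem BZ.conj {g g' : Aut K} (h : c.BZ g) (h' : c.Cj g g') : c.BZ g' := by
  obtain ⟨p, hp, rfl⟩ := h'
  intro q hq μ ν hμ hν h1
  have := bt_conj (g := g) (inv_mem hp) (q (e μ)) (q (e ν))
  rw [inv_inv] at this
  rw [this]
  exact h _ (mul_mem (inv_mem hp) hq) μ ν hμ hν h1

theorem BZ.inv {g : Aut K} (hg : g ∈ c.G) (h : c.BZ g) : c.BZ g⁻¹ := fun q hq μ ν hμ hν h1 => by
  have := h q hq μ ν hμ hν h1
  rwa [bt, gf_inv (G_aut hg), gf_inv (G_aut hg), gf_comm, add_comm, gf_comm] at this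

theorem exists_q (hq : c.Q2) {g : Aut K} (h : ¬ c.QL g) {α : Lat} (hα : c.Lg α) :
    ∃ g', c.Cj g g' ∧ gf (e α) (g' (e α)) ≠ 0 := by
  unfold QL at h
  push Not at h
  obtain ⟨_, ⟨p, hp, r, rfl⟩, h⟩ := h
  obtain ⟨m, w, h1, h2⟩ := to_th hα
  have h3 := mul_mem hp h1.mem
  refine ⟨_, ⟨_, inv_mem h3, rfl⟩, fun h4 => h ?_⟩
  rw [inv_inv, LinearEquiv.mul_apply, LinearEquiv.mul_apply, gf_inv (G_aut (inv_mem h3)), inv_inv,
    LinearEquiv.mul_apply, hq.mon_e h1 hα, h2] at h4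
  simp [h4]

theorem SC.BZ (hq : c.Q2) (hn : c.NS) {a b : Aut K} (h : c.SC a b) (ha : a ∈ c.G) (hb : b ∈ c.G)
    (h1 : ¬ c.QL a) : c.BZ b := by
  have lθ : c.Lg (th 6) := Lg6 (by decide)
  have l0 : c.Lg g0 := Lg6 (by decide)
  have lδ : c.Lg (-Exc.a 3) := Lg6 (by decide)
  obtain ⟨a', ha', h2⟩ := exists_q hq h1 lθ
  have k : ∀ p ∈ c.G, gf (e (th 6)) (a' (e (th 6))) * bt b (p (e (th 6))) (p (e g0)) +
      bt a' (e (th 6)) (e g0) * gf (p (e (th 6))) (b (p (e (th 6)))) = 0 := fun p hp => by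
    have := star_of hq hn h ha hb ha' ⟨_, inv_mem hp, rfl⟩
    rwa [bt_conj hp, inv_inv, LinearEquiv.mul_apply, LinearEquiv.mul_apply,
      gf_inv (G_aut (inv_mem hp)), inv_inv] at this
  have k2 : ∀ p ∈ c.G, bt b (p (e (th 6))) (p (e g0)) = 0 := fun p hp => by
    have hN := NY_Mon lδ.1 one_ne_zero (Al_one _)
    have e0 := k p hp
    have e1 := k _ (mul_mem hp lδ.X_mem)
    have e2 := k _ (mul_mem hp hN.mem)
    simp only [LinearEquiv.mul_apply] at e1 e2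
    rw [X_e_nn lδ.1.1 lθ.1.1 (by rw [ip_x]; decide), X_e_m1 lδ.1.1 l0.1.1 (by rw [ip_x]; decide),
      hq.eps, mul_one, one_smul] at e1
    rw [hq.mon_e hN lθ, hq.mon_e hN l0, wY_fix lδ.1 lδ.2, wY_fix lδ.1 lδ.2, ip_x, ip_x,
      show th 6 - ipx (th 6) (-Exc.a 3) • -Exc.a 3 = th 6 by decide,
      show g0 - ipx g0 (-Exc.a 3) • -Exc.a 3 = -Exc.a 3 + g0 by decide] at e2
    simp only [bt, map_add, LinearMap.add_apply] at e0 e1 e2 ⊢
    apply mul_left_cancel₀ h2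
    linear_combination e1 - e2
  intro p hp μ ν hμ hν h3
  obtain ⟨m, w, i1, i2, i3, _⟩ := to_pair hμ hν
  obtain ⟨m', w', j1, j2, j3, _⟩ := to_pair lθ l0
  have := k2 _ (mul_mem (mul_mem hp i1.inv.mem) j1.mem)
  simp only [LinearEquiv.mul_apply] at this
  rwa [hq.mon_e j1 lθ, hq.mon_e j1 l0, j2, j3 (by rw [ip_x]; decide), ← i3 (by rw [ip_comm, h3]),
    ← i2, ← hq.mon_e i1 hμ, ← hq.mon_e i1 hν, inv_app, inv_app] at this

end Cfg

end Pool.Agent.MP_db74b1_al.Exc
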