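import Pool.Agent.MP_db74b1_al.ExcQ2

set_option autoImplicit false

namespace Pool.Agent.MP_db74b1_al.Exc

variable {K : Type} [Field K]

namespace Cfg

variable {c : Cfg K}

theorem th_pos_ip {β : Lat} (hβ : c.R β) (h0 : 0 ≤ β) : 0 ≤ ip β (th c.n) := by
  rcases ip_cases hβ.1 c.th_R.1 with h1 | h1 | h1
  · exact absurd (h1 ▸ c.th_nonneg) (not_neg_nonneg hβ.1 h0)
  · have h2 := R.ht_le ⟨(root_add hβ.1 c.th_R.1).2 h1, hβ.2.add c.th_R.2⟩
    have h3 := ht_eq_one (th c.n) h0 hβ.1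
    omega
  · exact h1

theorem opp (hq : c.Q2) {g : Aut K} (hg : g ∈ c.G) (h : co (-th c.n) (g (e (th c.n))) ≠ 0) :
    ∃ u ∈ c.U, g (e (th c.n)) = u (e (-th c.n)) := by
  obtain ⟨u1, hu1, m, w, hm, u2, hu2, rfl⟩ := bruhat hg
  rw [LinearEquiv.mul_apply, LinearEquiv.mul_apply, U_th (U_P hu2), hq.mon_e hm th_Lg] at h ⊢
  refine ⟨u1, hu1, ?_⟩
  by_contra h1
  apply h
  have h2 := (hm.R c.th_R).neg.ht_le
  rw [ht_neg] at h2
  rw [co_lin htL (ht (w (th c.n))) (fun _ h1 h2 => root_ht_pos h2 h1.2) (van_e (lt_irrefl _))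
    (U_P hu1) (by rw [htL_apply, ht_neg]; omega), co_e_ne]
  exact fun h3 => h1 (by rw [h3])

variable (c) in
def QA (β : Lat) : Prop := Sp c.n β ∧ 1 ≤ ip β (th c.n)

theorem toQ {u : Aut K} (hu : u ∈ Ucl K c.Pos) :
    ∃ q ∈ Ucl K c.QA, u (e (-th c.n)) = q (e (-th c.n)) := by
  refine Ucl_induction (p := fun u => ∃ q ∈ Ucl K c.QA, u (e (-th c.n)) = q (e (-th c.n)))
    ⟨1, one_mem _, rfl⟩ (fun β t g h hβ _ ⟨q, h1, h2⟩ => ?_) hu
  have h3 := th_pos_ip ⟨hβ, h.1⟩ h.2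
  rw [LinearEquiv.mul_apply, h2]
  by_cases h4 : 1 ≤ ip β (th c.n)
  · exact ⟨_, mul_mem (X_mem_Ucl ⟨h.1, h4⟩ t) h1, rfl⟩
  · refine ⟨X β t * q * (X β t)⁻¹, Ucl_conj_X hβ (fun γ h5 _ => ?_) t h1, ?_⟩
    · have := h5.2
      exact ⟨fun h6 => by rw [h6, ip_neg_left] at this; omega,
        fun _ => ⟨h.1.add h5.1, by rw [ip_add_left]; omega⟩⟩
    · rw [LinearEquiv.mul_apply, LinearEquiv.mul_apply, X_inv,
        X_e_nn hβ c.th_R.neg.1 (by rw [ip_neg_right]; omega)]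

theorem Q_H (hq : c.Q2) {q : Aut K} (h : q ∈ Ucl K c.QA) {γ : Lat} (hγ : ip γ γ = 2)
    (h1 : ip γ (th c.n) = 1) (i : Fin 8) :
    (q (e (-γ))).1 i = co (γ - th c.n) (q (e (-th c.n))) * γ i := by
  have hθ := c.th_R.1
  have hr := (root_sub hγ hθ).2 h1
  refine Ucl_induction
    (p := fun q : Aut K => (q (e (-γ))).1 i = co (γ - th c.n) (q (e (-th c.n))) * γ i)
    (by
      have : γ - th c.n ≠ -th c.n := by simpa [sub_eq_add_neg] using root_ne_zero hγ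
      simp [e_fst, co_e_ne this]) (fun β t g hA hβ hg ih => ?_) h
  have h2 := hA.2
  have h3 : γ - th c.n ≠ β := fun h => by rw [← h, ip_sub_left] at h2; omega
  have e1 : co (-β) (g (e (-γ))) = co (-β) (e (-γ)) :=
    co_lin (ipL (th c.n)) (-1) (fun _ h _ => h.2) (van_e (by rw [ipL_apply, ip_neg_left]; omega)) hg
      (by rw [ipL_apply, ip_neg_left]; omega)
  have e2 : co (γ - th c.n - β) (g (e (-th c.n))) = co (γ - th c.n - β) (e (-th c.n)) :=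
    co_lin (ipL (th c.n)) (-2) (fun _ h _ => h.2) (van_e (by rw [ipL_apply, ip_neg_left]; omega)) hg
      (by rw [ipL_apply, ip_sub_left, ip_sub_left]; omega)
  simp only [LinearEquiv.mul_apply, X_apply hβ, map_add, map_smul, Prod.fst_add, Prod.smul_fst,
    Pi.add_apply, Pi.smul_apply, ad_fst, e_fst, ih, e1, co_ad, if_pos hr, if_neg h3, e2, hq.eps,
    co_e_ne h3, smul_eq_mul, Pi.zero_apply]
  by_cases h4 : β = γ
  · subst h4
    rw [co_e_self (root_neg hβ), show β - th c.n - β = -th c.n by abel, co_e_self (root_neg hθ)]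
    linear_combination -(t * β i) * hq.two
  · rw [co_e_ne (by simpa using h4), co_e_ne (fun h5 => h4 (by
      rw [← sub_eq_zero, ← neg_eq_zero, ← sub_eq_zero.2 h5]; abel))]
    ring

theorem Q_peel (hq : c.Q2) {q : Aut K} (h : q ∈ Ucl K c.QA) {A : Lat → Prop} (hA : ∀ β, A β → c.QA β)
    (h0 : A (th c.n)) (h1 : ∀ γ, c.R γ → ip γ (th c.n) = 1 → ¬ A γ →
      co (γ - th c.n) (q (e (-th c.n))) = 0) : q ∈ Ucl K A := by
  have k : ∀ β, ip β β = 2 → 1 < ip β (th c.n) → A β := fun β hβ h => by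
    by_contra h2
    have := ip_le_one hβ c.th_R.1 (fun h3 => h2 (h3 ▸ h0)); omega
  refine peel_level (c := c) (ipL (th c.n)) one_pos (fun β h _ => h.elim (hA β) id)
    (fun β h h' => k β h.1 h') (fun ζ h2 h3 h4 => ?_) h
  have h5 : ip ζ (th c.n) = 1 := le_antisymm (not_lt.1 fun h => h4 (k ζ h3 h)) h2.2
  ext i
  rw [Q_H hq h h3 h5, h1 ζ ⟨h3, h2.1⟩ h5 h4]; simp

variable (c) in
/-- Elements fixing the highest and the lowest root vector. -/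
def Lv (p : Aut K) : Prop := p ∈ c.G ∧ p (e (th c.n)) = e (th c.n) ∧ p (e (-th c.n)) = e (-th c.n)

theorem span1 (hq : c.Q2) (hn : c.NS) (S : Submodule K (L K))
    (h : ∀ p, c.Lv p → p (e (gam c.n)) ∈ S) {γ : Lat} (hγ : c.R γ) (h1 : ip γ (th c.n) = 1) :
    e γ ∈ S := by
  have k : ∀ p, c.Lv p → ∀ γ, c.Lg γ → ip γ (th c.n) = 1 → p (e γ) ∈ S := fun p hp γ hγ h1 => by
    obtain ⟨m, w, i1, i2, i3, _⟩ := to_dom hγ
    have i4 : w⁻¹ (th c.n) = th c.n := by rw [← i2, W_inv_app, i2]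
    have := h (p * m⁻¹) ⟨mul_mem hp.1 i1.inv.mem,
      by rw [LinearEquiv.mul_apply, hq.mon_e i1.inv th_Lg, i4, hp.2.1],
      by rw [LinearEquiv.mul_apply, hq.mon_e i1.inv th_Lg.neg, map_neg, i4, hp.2.2]⟩
    rwa [LinearEquiv.mul_apply, ← i3 h1, ← hq.mon_e i1 hγ, inv_app] at this
  have k1 := k 1 ⟨one_mem _, rfl, rfl⟩
  by_cases hs : sg c.b γ = γ
  · exact k1 γ ⟨hγ, hs⟩ h1
  have hb : c.b = true := by
    cases hb : c.b
    · rw [hb, sg_false] at hs; exact absurd rfl hs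
    · rfl
  have h6 := n6_of_b hb
  obtain ⟨y, _, y1, y2, y3, y4, y5⟩ := (short1 γ (mem_allL hγ.1) (h6 ▸ hγ.2)
    (by rw [← ip_x, ← h6, h1])).resolve_left (fun h => hs (by rw [hb]; exact funext h))
  rw [← ip_x] at y1 y3 y4
  rw [← h6] at y2 y3
  have hy : c.Lg y := ⟨⟨y1, y2⟩, by rw [hb]; exact funext y5⟩
  have hδ : c.R (γ - y) := ⟨(root_sub hγ.1 y1).2 (by rw [ip_comm, y4]), hγ.2.sub y2⟩
  have hm : sg c.b (γ - y) ≠ γ - y := by rw [sg_sub, hy.2]; simpa using hs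
  have d1 : ip (γ - y) y = -1 := by rw [ip_sub_left, ip_comm, y4, y1]; rfl
  have d2 : ip (sg c.b (γ - y)) y = -1 := by rw [c.ip_sg' hδ.2 y2, hy.2, d1]
  have d3 : ip (γ - y) (th c.n) = 0 := by rw [ip_sub_left, h1, y3]; rfl
  have d4 : ip (sg c.b (γ - y)) (th c.n) = 0 := by rw [c.ip_sg' hδ.2 c.th_R.2, c.th_sg, d3]
  have r1 := (root_add hδ.sg.1 y1).2 d2
  have d5 : ip (γ - y) (sg c.b (γ - y) + y) = -1 := by rw [ip_add_right, hδ.orth hm, d1]; rfl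
  have l2 : c.Lg (γ - y + (sg c.b (γ - y) + y)) :=
    ⟨⟨(root_add hδ.1 r1).2 d5, hδ.2.add (hδ.sg.2.add y2)⟩, by
      rw [sg_add, sg_add, sg_sg, hy.2]; abel⟩
  have key : ∀ t : K, t • e γ + c.τ t • e (sg c.b (γ - y) + y) ∈ S := fun t => by
    have f : ∀ α, ip α α = 2 → ip (γ - y) α = 0 → ip (sg c.b (γ - y)) α = 0 →
        c.Y (γ - y) t (e α) = e α := fun α h1 h2 h3 => by
      rw [Y_mov hm, LinearEquiv.mul_apply, X_e_nn hδ.sg.1 h1 h3.ge, X_e_nn hδ.1 h1 h2.ge]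
    have e1 := k _ ⟨Y_mem hδ fun h => absurd h hm, f _ c.th_R.1 d3 d4,
      f _ c.th_R.neg.1 (by rw [ip_neg_right, d3]; rfl) (by rw [ip_neg_right, d4]; rfl)⟩ y hy y3
    rw [Y_mov hm, LinearEquiv.mul_apply, X_e_m1 hδ.sg.1 y1 d2, map_add, map_smul,
      X_e_m1 hδ.1 y1 d1, X_e_m1 hδ.1 r1 d5, sub_add_cancel] at e1
    simp only [hq.eps, mul_one] at e1
    have e2 := sub_mem (sub_mem e1 (k1 y hy y3)) (S.smul_mem (c.τ t * t)
      (k1 _ l2 (by rw [ip_add_left, ip_add_left, d3, d4, y3]; rfl)))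
    convert e2 using 1
    simp only [LinearEquiv.coe_one, id]
    module
  obtain ⟨t, ht⟩ := hq.omega hn hb
  have e3 := sub_mem (S.smul_mem (t + 1) (key 1)) (key t)
  rw [map_one, ht] at e3
  convert e3 using 1
  module

theorem BZ.one (hq : c.Q2) (hn : c.NS) {g : Aut K} (h : c.BZ g) {γ : Lat} (hγ : c.R γ)
    (h1 : ip γ (th c.n) = 1) : bt g (e (th c.n)) (e γ) = 0 := by
  have := span1 hq hn (LinearMap.ker (gf (e (th c.n)) ∘ₗ g.toLinearMap + gf.flip (g (e (th c.n)))))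
    (fun p hp => by
      have := h p hp.1 _ _ th_Lg gam_Lg.1 (by rw [ip_comm, gam_Lg.2])
      rwa [hp.2.1] at this) hγ h1
  exact this

theorem n_th (hq : c.Q2) {θ : Lat} (h : c.Lg θ) :
    N1 θ (1 : K) ∈ c.G ∧ N1 θ (1 : K) (e θ) = e (-θ) ∧ N1 θ (1 : K) (e (-θ)) = e θ ∧
      N1 θ (1 : K) (Exc.hv θ) = Exc.hv θ := by
  have hN := NY_Mon h.1 one_ne_zero (Al_one _)
  rw [NY_fix h.2] at hN
  exact ⟨hN.mem, by rw [hq.mon_e hN h, wY_self h.1],
    by rw [hq.mon_e hN h.neg, map_neg, wY_self h.1, neg_neg],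
    by rw [hN.hv h.1.1, wY_self h.1, hv_neg, neg_eq2 hq.two]⟩

theorem X_m2 (hq : c.Q2) {θ : Lat} (h : ip θ θ = 2) :
    X θ (1 : K) (e (-θ)) = e θ + Exc.hv θ + e (-θ) := by
  rw [X_e_m2 h, sub_eq_add_neg, neg_eq2 hq.two]; simp only [one_smul, one_pow]; abel

theorem SL (hq : c.Q2) (hn : c.NS) {g : Aut K} (hg : g ∈ c.G) (h : c.BZ g)
    (h1 : g (e (th c.n)) = e (-th c.n)) :
    ∃ l, c.Lv l ∧ (g = N1 (th c.n) 1 * l ∨ g = N1 (th c.n) 1 * X (th c.n) 1 * l) := by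
  have hθ := c.th_R
  have A := G_aut hg
  obtain ⟨u, hu, h2⟩ := opp hq (inv_mem hg) (by
    rw [← gf_e hθ.1, gf_inv (inv_mem A), inv_inv, h1, gf_e hθ.neg.1, neg_neg, co_e_self hθ.1]
    exact one_ne_zero)
  obtain ⟨q, hq1, h3⟩ := toQ (U_P hu)
  rw [h3] at h2
  have h4 := Q_peel hq hq1 (A := fun β => β = th c.n) (by rintro _ rfl; exact ⟨hθ.2, by rw [hθ.1]; decide⟩)
    rfl (fun γ hγ h5 _ => by
      have h6 : c.R (th c.n - γ) := ⟨(root_sub hθ.1 hγ.1).2 (by rw [ip_comm, h5]), hθ.2.sub hγ.2⟩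
      have h7 := h.one hq hn h6 (by rw [ip_sub_left, hθ.1, h5]; rfl)
      rw [bt, h1, gf_e h6.1, co_e_ne (by
        simpa [sub_eq_add_neg] using root_ne_zero hγ.1), add_zero] at h7
      rw [← h2, ← neg_sub, ← gf_e h6.1, gf_inv (inv_mem A), inv_inv, gf_comm, h7])
  obtain ⟨s, u', h5, h6⟩ := peel (A := fun _ => False) hθ.1 (fun β h _ => Or.inr h)
    (fun _ h => h.elim) h4
  rw [Ucl_empty (fun _ h _ => h) h5, mul_one] at h6
  rw [h6] at h2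
  have h7 : c.τ (s ^ 2) = s ^ 2 := by
    have e1 := co_st hθ (g⁻¹ (e (th c.n)))
    rw [G_st (inv_mem hg) (e_mem hθ.2), st_e hθ.2, c.th_sg, h2, X_e_m2 hθ.1] at e1
    simpa [co_hv, co_e_self hθ.1, co_e_ne (neg_ne_self hθ.1).symm] using e1.symm
  have h8 : s = 0 ∨ s = 1 := (hq _ h7).imp (by simp) fun h => by
    have : (s - 1) ^ 2 = 0 := by linear_combination h + (1 - s) * hq.two
    exact sub_eq_zero.1 (pow_eq_zero_iff two_ne_zero |>.1 this)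
  obtain ⟨n1, n2, n3, _⟩ := n_th hq (th_Lg (c := c))
  have hX : X (th c.n) s ∈ c.G := X_th_mem (by rcases h8 with rfl | rfl <;> simp)
  have f1 : ((X (th c.n) s)⁻¹ * (N1 (th c.n) 1)⁻¹ * g : Aut K) (e (th c.n)) = e (th c.n) := by
    rw [LinearEquiv.mul_apply, LinearEquiv.mul_apply, h1, ← n2, inv_app, X_inv,
      X_e_nn hθ.1 hθ.1 (by rw [hθ.1]; decide)]
  have hl := mul_mem (mul_mem (inv_mem hX) (inv_mem n1)) hg
  refine ⟨_, ⟨hl, f1, ?_⟩, ?_⟩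
  · have f2 := conj_X (G_aut hl) hθ.1 hθ.1 (c := 1) (by rw [f1, one_smul]) s
    rw [one_mul, mul_inv_eq_iff_eq_mul] at f2
    have f3 := congrArg (fun p : Aut K => p (e (-th c.n))) f2
    simp only [LinearEquiv.mul_apply] at f3 ⊢
    rw [← h2, app_inv, ← n3, inv_app] at f3
    apply (X (th c.n) s).injective
    rw [← f3, X_inv, show -s = s by linear_combination -s * hq.two]
  · rcases h8 with rfl | rfl
    · left; rw [X_zero]; group
    · right; group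

theorem norm (hq : c.Q2) {g p : Aut K} (hg : g ∈ c.G) (hp : p ∈ c.G)
    (h : gf (p (e (th c.n))) (g (p (e (th c.n)))) ≠ 0) :
    ∃ P ∈ c.G, P (e (th c.n)) = p (e (th c.n)) ∧ (P⁻¹ * g * P⁻¹⁻¹) (e (th c.n)) = e (-th c.n) := by
  obtain ⟨u, hu, h1⟩ := opp hq (mul_mem (mul_mem (inv_mem hp) hg) hp) (by
    rwa [← gf_e c.th_R.1, LinearEquiv.mul_apply, LinearEquiv.mul_apply, gf_inv (G_aut (inv_mem hp)),
      inv_inv])
  refine ⟨_, mul_mem hp (U_G hu), by rw [LinearEquiv.mul_apply, U_th (U_P hu)], ?_⟩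
  simp only [LinearEquiv.mul_apply, inv_inv, mul_inv_rev, U_th (U_P hu)] at h1 ⊢
  rw [h1, inv_app]

theorem typ (hq : c.Q2) (hn : c.NS) {g p : Aut K} (hg : g ∈ c.G) (h : c.BZ g) (hp : p ∈ c.G) {x : L K}
    (hx : x = p (e (th c.n))) (h1 : gf x (g x) ≠ 0) :
    g (g x) = x ∨ (g (g x) = x + br x (g x) + g x ∧ gf x (g (g x)) = 1) := by
  subst hx
  obtain ⟨P, hP, h2, h3⟩ := norm hq hg hp h1
  have hc : c.Cj g (P⁻¹ * g * P⁻¹⁻¹) := ⟨_, inv_mem hP, rfl⟩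
  obtain ⟨l, hl, h4⟩ := SL hq hn (hc.mem hg) (h.conj hc) h3
  obtain ⟨_, n2, n3, n4⟩ := n_th hq (th_Lg (c := c))
  have h5 : g (p (e (th c.n))) = P (e (-th c.n)) := by rw [← h3, ← h2]; simp
  have h6 : ∀ v, g (P v) = P ((P⁻¹ * g * P⁻¹⁻¹) v) := fun v => by simp
  rw [h5, h6, ← h2]
  refine h4.imp (fun h4 => ?_) fun h4 => ?_
  · rw [h4, LinearEquiv.mul_apply, hl.2.2, n3]
  · rw [h4, LinearEquiv.mul_apply, LinearEquiv.mul_apply, hl.2.2, X_m2 hq c.th_R.1, map_add (N1 _ _), map_add (N1 _ _),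
      n2, n3, n4, ← (G_aut hP).1, (G_aut hP).2, br_e c.th_R.1, ad_e_m2 c.th_R.1, neg_eq2 hq.two,
      gf_e c.th_R.1]
    refine ⟨by simp only [map_add]; abel, ?_⟩
    simp [co_hv, co_e_self c.th_R.neg.1, co_e_ne (neg_ne_self c.th_R.1)]

theorem triv_of_V1 {g : Aut K} (hg : g ∈ AutG K) (h1 : g (e (th c.n)) = e (th c.n))
    (h2 : g (e (-th c.n)) = e (-th c.n))
    (h3 : ∀ γ, c.R γ → ip γ (th c.n) = 1 → g (e γ) = e γ) : c.Triv g := by
  have hθ := c.th_R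
  have k : ∀ α, c.R α → ip α (th c.n) = -1 → g (e α) = e α := fun α hα h => by
    have h4 : c.R (α + th c.n) := ⟨(root_add hα.1 hθ.1).2 h, hα.2.add hθ.2⟩
    have := fix_add hg h4.1 hθ.neg.1 (by rw [ip_neg_right, ip_add_left, h, hθ.1]; rfl)
      (h3 _ h4 (by rw [ip_add_left, h, hθ.1]; rfl)) h2
    rwa [add_neg_cancel_right] at this
  have key : ∀ α, c.R α → g (e α) = e α := fun α hα => by
    rcases ip_cases hθ.1 hα.1 with rfl | h | h
    · exact h2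
    · exact k α hα (by rw [ip_comm, h])
    by_cases h4 : α = th c.n
    · rw [h4, h1]
    have h5 := ip_le_one hα.1 hθ.1 h4
    rw [ip_comm] at h
    by_cases h6 : ip α (th c.n) = 1
    · exact h3 α hα h6
    have h7 : zerP c.n α := by
      rcases c.ok with ⟨_, _, h | h | h⟩ | ⟨_, h, _⟩ <;> rw [h]
      exacts [zer6 α (mem_allL hα.1), zer7 α (mem_allL hα.1), zer8 α (mem_allL hα.1),
        zer6 α (mem_allL hα.1)]
    obtain ⟨y, _, y1, y2, y3, y4⟩ := h7 hα.2 (by rw [← ip_x]; omega)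
    rw [← ip_x] at y1 y3 y4
    have h8 : c.R (α - y) := ⟨(root_sub hα.1 y1).2 (by rw [ip_comm, y4]), hα.2.sub y2⟩
    have := fix_add hg y1 h8.1 (by rw [ip_sub_right, y4, y1]; rfl) (h3 y ⟨y1, y2⟩ y3)
      (k _ h8 (by rw [ip_sub_left]; omega))
    rwa [add_sub_cancel] at this
  exact fun v hv => gen_fix hg (fun i hi => ⟨key _ (R_a hi), key _ (R_a hi).neg⟩) hv

theorem Lv.V1 (hq : c.Q2) {l : Aut K} (h : c.Lv l) {v : L K} (hv : V1 (th c.n) v) :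
    V1 (th c.n) (l v) := hv.aut c.th_R.1 hq.two (G_aut h.1) h.2.1 h.2.2

theorem Lv.ad {l : Aut K} (h : c.Lv l) (v : L K) : l (ad (-th c.n) v) = ad (-th c.n) (l v) := by
  rw [← br_e c.th_R.neg.1, (G_aut h.1).1, h.2.2]

/-- A point on the line through `e_θ` and `y` that is moved to an opposite point. -/
theorem line_pt (hq : c.Q2) {g p : Aut K} (h : c.BZ g) (h1 : g (e (th c.n)) = e (-th c.n))
    (hp : c.Lv p) : ∃ s : K, (s = 0 ∨ s = 1) ∧
      (∃ P ∈ c.G, p (e (gam c.n)) + s • e (th c.n) = P (e (th c.n))) ∧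
      gf (p (e (gam c.n)) + s • e (th c.n)) (g (p (e (gam c.n)) + s • e (th c.n))) ≠ 0 := by
  have hθ := c.th_R
  obtain ⟨hγ, h2⟩ := gam_Lg (c := c)
  obtain ⟨m, w, i1, i2⟩ := to_th hγ
  have i3 : m⁻¹ (e (th c.n)) = e (gam c.n) := by rw [← i2, ← hq.mon_e i1 hγ, inv_app]
  by_cases h3 : gf (p (e (gam c.n))) (g (p (e (gam c.n)))) = 0
  · have h4 : c.Lg (th c.n - gam c.n) := ⟨⟨(root_sub hθ.1 hγ.1.1).2 (by rw [ip_comm, h2]),
      hθ.2.sub hγ.1.2⟩, by rw [sg_sub, c.th_sg, hγ.2]⟩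
    refine ⟨1, Or.inr rfl, ⟨_, mul_mem (mul_mem hp.1 h4.X_mem) i1.inv.mem, ?_⟩, ?_⟩
    · rw [LinearEquiv.mul_apply, LinearEquiv.mul_apply, i3, X_e_m1 h4.1.1 hγ.1.1
        (by rw [ip_sub_left, ip_comm, h2, hγ.1.1]; rfl), hq.eps, sub_add_cancel, map_add, map_smul,
        hp.2.1, mul_one]
    · have h5 := h p hp.1 _ _ th_Lg hγ (by rw [ip_comm, h2])
      rw [bt, hp.2.1, h1] at h5
      simp only [one_smul, map_add, LinearMap.add_apply, h3, h1, gf_e hθ.1 , co_e_self hθ.neg.1] at h5 ⊢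
      intro h6
      exact one_ne_zero (by linear_combination h6 - h5 : (1 : K) = 0)
  · exact ⟨0, Or.inl rfl, ⟨_, mul_mem hp.1 i1.inv.mem, by simp [i3]⟩, by simpa using h3⟩

theorem T2 (hq : c.Q2) (hn : c.NS) {g l : Aut K} (hg : g ∈ c.G) (h : c.BZ g) (hl : c.Lv l)
    (h1 : g = N1 (th c.n) 1 * l) : c.Triv (g * g) := by
  have hθ := c.th_R
  obtain ⟨_, n2, n3, _⟩ := n_th hq (th_Lg (c := c))
  have e1 : g (e (th c.n)) = e (-th c.n) := by rw [h1, LinearEquiv.mul_apply, hl.2.1, n2]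
  have e2 : g (e (-th c.n)) = e (th c.n) := by rw [h1, LinearEquiv.mul_apply, hl.2.2, n3]
  refine triv_of_V1 (G_aut (mul_mem hg hg)) (by rw [LinearEquiv.mul_apply, e1, e2])
    (by rw [LinearEquiv.mul_apply, e2, e1]) fun γ hγ h2 => ?_
  have := span1 hq hn (LinearMap.ker (Nn (g * g))) (fun p hp => ?_) hγ h2
  · exact sub_eq_zero.1 this
  obtain ⟨s, _, ⟨P, hP, h3⟩, h4⟩ := line_pt hq h e1 hp
  have v1 := hp.V1 hq (V1_e gam_Lg.2)
  generalize p (e (gam c.n)) = y at *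
  have v2 := hl.V1 hq v1
  have v3 := hl.V1 hq v2
  have e3 : g (g (y + s • e (th c.n))) = l (l y) + s • e (th c.n) := by
    rw [map_add, map_add, map_smul, map_smul, e1, e2, h1]
    simp only [LinearEquiv.mul_apply]
    rw [v2.n0 hθ.1 hq.two, hl.ad, v3.n1 hθ.1 hq.two]
  have z : van (fun β => ip β (th c.n) ≤ 0) (s • (e (th c.n) : L K)) :=
    (van_e (by rw [hθ.1]; decide)).smul s
  rcases typ hq hn hg h hP h3 h4 with h5 | ⟨_, h5⟩
  · rw [map_add, map_add, map_smul, map_smul, e1, e2, add_left_inj] at h5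
    exact sub_eq_zero.2 h5
  · rw [e3, gf_zero (v1.ge.add z) (v3.ge.add z)] at h5
    exact absurd h5 zero_ne_one

end Cfg

end Pool.Agent.MP_db74b1_al.Exc
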