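import Pool.Agent.MP_db74b1_al.ExcQ3

set_option autoImplicit false

namespace Pool.Agent.MP_db74b1_al.Exc

variable {K : Type} [Field K]

def Cm : Matrix (Fin 8) (Fin 8) ℤ := Matrix.of fun i j => ipx (a i) (a j)

def Ci : Matrix (Fin 8) (Fin 8) ℤ :=
  !![4, 5, 7, 10, 8, 6, 4, 2; 5, 8, 10, 15, 12, 9, 6, 3; 7, 10, 14, 20, 16, 12, 8, 4;
    10, 15, 20, 30, 24, 18, 12, 6; 8, 12, 16, 24, 20, 15, 10, 5; 6, 9, 12, 18, 15, 12, 8, 4;
    4, 6, 8, 12, 10, 8, 6, 3; 2, 3, 4, 6, 5, 4, 3, 2]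

theorem Ci_Cm : Ci * Cm = 1 := by decide +kernel

theorem gf_hv_a (k : Fin 8) (v : L K) : gf (hv (a k)) v = -∑ i, (Cm i k : K) * v.1 i := by
  rw [gf, LinearMap.sub_apply, LinearMap.sum_apply, LinearMap.sum_apply, LinearMap.sub_apply,
    LinearMap.sum_apply, LinearMap.sum_apply, Finset.sum_eq_zero (fun α _ => by simp [co_hv]),
    Finset.sum_eq_single k]
  · simp [hv, a, hp_apply, a_eq, Cm, ip_x]
  · intro j _ hj; simp [hv, a, hj]
  · simp

theorem htr_inv {g : Aut K} (hg : g ∈ AutG K) :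
    ∑ i, (g⁻¹ (hv (a i))).1 i = ∑ i, (g (hv (a i))).1 i := by
  let M : Aut K → Matrix (Fin 8) (Fin 8) K := fun g => Matrix.of fun i j => (g (hv (a j))).1 i
  let C : Matrix (Fin 8) (Fin 8) K := Cm.map (Int.castRingHom K)
  let D : Matrix (Fin 8) (Fin 8) K := Ci.map (Int.castRingHom K)
  have h1 : D * C = 1 := by rw [← Matrix.map_mul, Ci_Cm]; simp
  have h2 : C * D = 1 := mul_eq_one_comm.1 h1
  have hs : ∀ i j, Cm i j = Cm j i := by decide
  have h3 : C * M g = (M g⁻¹).transpose * C := by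
    ext k j
    have := gf_inv hg (hv (a k)) (hv (a j))
    rw [gf_comm (g⁻¹ _), gf_hv_a, gf_hv_a, neg_inj] at this
    simp only [Matrix.mul_apply, Matrix.transpose_apply, C, M, Matrix.map_apply, Matrix.of_apply,
      eq_intCast, hs k, mul_comm _ (Cm _ j : K)]
    exact this
  change (M g⁻¹).trace = (M g).trace
  rw [← Matrix.trace_transpose, ← one_mul (M g), ← h1, mul_assoc, h3, Matrix.trace_mul_comm,
    mul_assoc, h2, mul_one]

namespace Cfg

variable {c : Cfg K}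

theorem TW_eq {f : En K} (hf : ∀ v ∈ c.V, f v ∈ c.V) : TW c.V f =
    ∑ α : Root, (if Sp c.n α.1 then co α.1 (f (e α.1)) else 0) +
      ∑ i : Fin 8, if i.1 < c.n then (f (Exc.hv (a i))).1 i else 0 := by
  rw [TW_congr (g := ∑ α : Root, (if Sp c.n α.1 then (co α.1 ∘ₗ f).smulRight (e α.1) else 0) +
      ∑ i : Fin 8, if i.1 < c.n then ((LinearMap.proj i ∘ₗ LinearMap.fst K _ _) ∘ₗ f).smulRight
        (Exc.hv (a i)) else 0), map_add, map_sum, map_sum]
  · congr 1
    · refine Finset.sum_congr rfl fun α _ => ?_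
      split_ifs with h
      · rw [TW_rank _ (e_mem h)]; rfl
      · exact map_zero _
    · refine Finset.sum_congr rfl fun i _ => ?_
      split_ifs with h
      · rw [TW_rank _ (hv_mem (Sp_a h))]; rfl
      · exact map_zero _
  · intro v hv
    have h1 := hf v hv
    rw [LinearMap.add_apply, LinearMap.sum_apply, LinearMap.sum_apply, add_comm]
    refine (L_decomp (f v)).trans ?_
    congr 1
    · refine Finset.sum_congr rfl fun i _ => ?_
      split_ifs with h
      · rfl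
      · rw [h1.1 i (by omega), zero_smul]; rfl
    · refine Finset.sum_congr rfl fun α _ => ?_
      rw [← co_of_root α.2]
      split_ifs with h
      · rfl
      · rw [h1.2 _ h, zero_smul]; rfl

theorem G_hv {g : Aut K} (hg : g ∈ c.G) (y : Lat) : g (Exc.hv y) - Exc.hv y ∈ c.V := by
  have k : ∀ α t, c.R α → ∀ v, v - Exc.hv y ∈ c.V → X α t v - Exc.hv y ∈ c.V := fun α t h v h1 => by
    have := add_mem (X_mem h t h1) (c.V.smul_mem (-(t * ip y α)) (e_mem h.2))
    rwa [map_sub, X_hv h.1, show X α t v - (Exc.hv y - (t * ip y α) • e α) + -(t * ip y α) • e α =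
      X α t v - Exc.hv y by module] at this
  refine G_induction (p := fun g => g (Exc.hv y) - Exc.hv y ∈ c.V) (by simp)
    (fun α t g h _ h1 => ?_) hg
  unfold Y; split_ifs
  · exact k α t h _ h1
  · exact k α t h _ (k _ _ h.sg _ h1)

def negR : Root ≃ Root :=
  ⟨fun α => ⟨-α.1, root_neg α.2⟩, fun α => ⟨-α.1, root_neg α.2⟩, fun _ => by simp, fun _ => by simp⟩

theorem TW_inv {g : Aut K} (hg : g ∈ c.G) :
    TW c.V (g⁻¹).toLinearMap = TW c.V g.toLinearMap := by
  rw [TW_eq fun v hv => G_mem hg hv, TW_eq fun v hv => G_mem (inv_mem hg) hv]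
  congr 1
  · rw [← negR.sum_comp]
    refine Finset.sum_congr rfl fun α _ => ?_
    change (if Sp c.n (-α.1) then co (-α.1) (g⁻¹ (e (-α.1))) else 0) = _
    rw [← gf_e_right α.2, ← gf_inv (G_aut hg), gf_e (root_neg α.2), neg_neg]
    exact if_congr ⟨fun h => by simpa using h.neg, fun h => h.neg⟩ rfl rfl
  · have k : ∀ g ∈ c.G, ∑ i : Fin 8, (if i.1 < c.n then (g (Exc.hv (a i))).1 i else 0) =
        ∑ i, (g (Exc.hv (a i))).1 i - ∑ i : Fin 8, if i.1 < c.n then 0 else 1 := fun g hg => by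
      rw [← Finset.sum_sub_distrib]
      refine Finset.sum_congr rfl fun i _ => ?_
      split_ifs with h
      · simp
      · have := (G_hv hg (a i)).1 i (by omega)
        simpa [Exc.hv, a, eq_comm] using this
    exact (k _ (inv_mem hg)).trans ((k _ hg).trans (by rw [htr_inv (G_aut hg)])).symm

theorem Triv.inv_eq {g : Aut K} (h : c.Triv (g * g)) {v : L K} (hv : v ∈ c.V) :
    g⁻¹ v = g v := by
  rw [← g.injective.eq_iff, app_inv]; exact (h _ hv).symm

theorem Cj.sq {g g' : Aut K} (h : c.Cj g g') (h2 : c.Triv (g * g)) : c.Triv (g' * g') := by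
  obtain ⟨p, hp, rfl⟩ := h
  exact Cj.triv ⟨p, hp, by group⟩ h2

theorem SC.inv_inv (hq : c.Q2) (hn : c.NS) {a b : Aut K} (h : c.SC a b) (ha : a ∈ c.G)
    (hb : b ∈ c.G) (h1 : c.Triv (a * a)) (h2 : c.Triv (b * b)) : c.QL a ∨ c.QL b := by
  by_contra h3
  push Not at h3
  have lθ : c.Lg (th 6) := Lg6 (by decide)
  obtain ⟨a', ha', h4⟩ := exists_q hq h3.1 lθ
  obtain ⟨b', hb', h5⟩ := exists_q hq h3.2 lθ
  obtain ⟨k, hk⟩ := h.trace le_rfl (fun g hg v hv => G_mem hg hv)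
  obtain ⟨g1, g2, H⟩ := exists_pair hq hn
  let E : Subgroup (Aut K) := c.G ⊓ Ucl K T6s
  let F : En K → En K → K := fun P R => TW c.V (a'.toLinearMap * P * b'.toLinearMap * R)
  let Z : En K → K → Prop := fun P κ => ∀ g ∈ E, ∀ g' ∈ E,
    F (g.toLinearMap * P) (g'.toLinearMap * P) = F (g'.toLinearMap * P) (g.toLinearMap * P) ∧
      F (g.toLinearMap * P) (g.toLinearMap * P) = κ
  have iE : ∀ g ∈ E, g⁻¹ = g := fun g hg =>
    inv_eq_of_mul_eq_one_left (Ucl_sq T6s_ip hq.two hg.2)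
  have ma := ha'.mem ha
  have mb := hb'.mem hb
  have z0 : Z 1 k := fun g hg g' hg' => by
    simp only [F, mul_one]
    refine ⟨?_, ?_⟩
    · have e1 := TW_inv (mul_mem (mul_mem (mul_mem ma hg.1) mb) hg'.1)
      have e2 := TW_comm (M := c.V) (f := (g' * b' * g).toLinearMap) (g := a'.toLinearMap)
        (fun v hv => G_mem (mul_mem (mul_mem hg'.1 mb) hg.1) hv) fun v hv => G_mem ma hv
      refine e1.symm.trans ((TW_congr fun v hv => ?_).trans e2)
      simp only [mul_inv_rev, iE g hg, iE g' hg', LinearEquiv.coe_coe, LinearEquiv.mul_apply,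
        Module.End.mul_apply]
      rw [Triv.inv_eq (ha'.sq h1) hv, Triv.inv_eq (hb'.sq h2) (G_mem hg.1 (G_mem ma hv))]
    · rw [← hk _ _ ha' (hb'.trans ⟨g, hg.1, rfl⟩), iE g hg]; rfl
  have st : ∀ P κ, Z P κ → ∀ x ∈ E, Z (Nn x * P) 0 := fun P κ z x hx g hg g' hg' => by
    have e : ∀ g : Aut K, g.toLinearMap * (Nn x * P) =
        (g * x).toLinearMap * P - g.toLinearMap * P := fun g => by
      rw [Nn, sub_mul, mul_sub, one_mul]; rfl
    have f : ∀ p q r s, F (p - q) (r - s) = F p r - F p s - F q r + F q s := fun p q r s => by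
      simp only [F, mul_sub, sub_mul, map_sub]; ring
    have m1 := mul_mem hg hx
    have m2 := mul_mem hg' hx
    simp only [e, f]
    exact ⟨by rw [(z _ m1 _ m2).1, (z _ m1 _ hg').1, (z _ hg _ m2).1, (z _ hg _ hg').1]; ring, by
      rw [(z _ m1 _ hg).1, (z _ m1 _ hg).2, (z _ hg _ hg).2]
      linear_combination (κ - F (g.toLinearMap * P) ((g * x).toLinearMap * P)) * hq.two⟩
  have mE : ∀ i, ![X g0 1, g1, g2, X g3 1, X g4 1] i ∈ E := fun i =>
    ⟨(H.mem i).1, Ucl_mono (fun _ _ h => h.1) (H.mem i).2⟩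
  have z := (st _ _ (st _ _ (st _ _ (st _ _ z0 _ (mE 4)) _ (mE 3)) _ (mE 2)) _ (mE 1) 1 (one_mem _)
    1 (one_mem _)).2
  change F (1 * (Nn g1 * (Nn g2 * (Nn (X g3 1) * (Nn (X g4 1) * 1)))))
    (1 * (Nn g1 * (Nn g2 * (Nn (X g3 1) * (Nn (X g4 1) * 1))))) = 0 at z
  rw [one_mul, mul_one, ← mul_assoc, ← mul_assoc, H.four hq] at z
  simp only [F] at z
  rw [show a'.toLinearMap * (co (-th 6)).smulRight (e (th 6)) * b'.toLinearMap *
      (co (-th 6)).smulRight (e (th 6)) = (co (-th 6)).smulRight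
      (co (-th 6) (b' (e (th 6))) • a' (e (th 6))) from LinearMap.ext fun v => by
        simp [smul_smul], TW_rank _ (c.V.smul_mem _ (G_mem ma (e_mem lθ.1.2))), map_smul,
    ← gf_e lθ.1.1] at z
  exact mul_ne_zero h5 h4 z

end Cfg

end Pool.Agent.MP_db74b1_al.Exc
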