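import Pool.Agent.MP_db74b1_al.ExcQ4

set_option autoImplicit false

namespace Pool.Agent.MP_db74b1_al.Exc

variable {K : Type} [Field K]

theorem hv_br {θ : Lat} (hθ : ip θ θ = 2) (x z : L K) :
    br (hv θ) (br x z) = br (br (hv θ) x) z + br x (br (hv θ) z) := by
  rw [← ad_e_m2' hθ, ← jac_ee (root_neg hθ) hθ, ← jac_ee (root_neg hθ) hθ,
    ← jac_ee (root_neg hθ) hθ]
  simp only [ad_br hθ, ad_br (root_neg hθ), map_add, map_sub, LinearMap.sub_apply]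
  abel

theorem co_of_ad {ζ μ : Lat} (hζ : ip ζ ζ = 2) (hμ : ip μ μ = 2) (h : ip ζ μ = -1) {v : L K}
    (hv : ad ζ v = 0) : co μ v = 0 := by
  have h5 := congrArg (co (ζ + μ)) hv
  rw [co_ad, if_pos ((root_add hζ hμ).2 h), if_neg (by simpa using root_ne_zero hμ),
    add_sub_cancel_left, map_zero] at h5
  exact (mul_eq_zero.1 h5).resolve_left (eps_ne _ _)

theorem aut_ad {g : Aut K} (hg : g ∈ AutG K) {ζ : Lat} (hζ : ip ζ ζ = 2) (h : g (e ζ) = e ζ)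
    (v : L K) : g (ad ζ v) = ad ζ (g v) := by rw [← br_e hζ, hg.1, h]

theorem add_self2 (h2 : (2 : K) = 0) (v : L K) : v + v = 0 := by
  rw [← two_smul K, h2, zero_smul]

/-- An element of order three in the long root `SL₂`. -/
noncomputable def rr (θ : Lat) : Aut K := N1 θ 1 * X θ 1

theorem rr_conj {m : Aut K} (hm : m ∈ AutG K) {δ θ : Lat} (hδ : ip δ δ = 2) (hθ : ip θ θ = 2)
    (h1 : m (e δ) = e θ) (h2 : m (e (-δ)) = e (-θ)) : m * rr δ * m⁻¹ = rr θ := by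
  have k1 := conj_X hm hδ hθ (c := 1) (by rw [h1, one_smul]) 1
  have k2 := conj_X hm (root_neg hδ) (root_neg hθ) (c := 1) (by rw [h2, one_smul]) 1
  rw [one_mul] at k1 k2
  rw [rr, rr, N1, N1, inv_one, ← k1, ← k2]; group

theorem rr_comm {m : Aut K} (hm : m ∈ AutG K) {θ : Lat} (hθ : ip θ θ = 2)
    (h1 : m (e θ) = e θ) (h2 : m (e (-θ)) = e (-θ)) : m * rr θ = rr θ * m :=
  mul_inv_eq_iff_eq_mul.1 (rr_conj hm hθ hθ h1 h2)

theorem rr_fix {θ β : Lat} (hθ : ip θ θ = 2) (hβ : ip β β = 2) (h : ip θ β = 0) :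
    rr θ (e β : L K) = e β := by
  rw [rr, LinearEquiv.mul_apply, X_e_nn hθ hβ h.ge, N1_zero hθ hβ h]

theorem rr_mem {A : Lat → Prop} {θ : Lat} (h1 : A θ) (h2 : A (-θ)) : rr θ ∈ Ucl K A :=
  mul_mem (mul_mem (mul_mem (X_mem_Ucl h1 _) (X_mem_Ucl h2 _)) (X_mem_Ucl h1 _)) (X_mem_Ucl h1 _)

theorem inv_fix {g : Aut K} {v : L K} (h : g v = v) : g⁻¹ v = v := by
  rw [← g.injective.eq_iff, app_inv, h]

theorem V1.r0 {θ : Lat} (hθ : ip θ θ = 2) (h2 : (2 : K) = 0) {v : L K} (h : V1 θ v) :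
    rr θ v = ad (-θ) v := by rw [rr, LinearEquiv.mul_apply, h.X0 hθ h2, h.n0 hθ h2]

theorem V1.r1 {θ : Lat} (hθ : ip θ θ = 2) (h2 : (2 : K) = 0) {v : L K} (h : V1 θ v) :
    rr θ (ad (-θ) v) = v + ad (-θ) v := by
  rw [rr, LinearEquiv.mul_apply, h.X1 hθ h2, one_smul, map_add, h.n0 hθ h2, h.n1 hθ h2]

theorem Ucl_fix' {A : Lat → Prop} {α : Lat} (hα : ip α α = 2)
    (h : ∀ β, A β → ip β β = 2 → 0 ≤ ip β α) {g : Aut K} (hg : g ∈ Ucl K A) : g (e α) = e α :=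
  Ucl_induction (p := fun g => g (e α) = e α) rfl (fun β t g h1 h2 _ h3 => by
    rw [LinearEquiv.mul_apply, h3, X_e_nn h2 hα (h _ h1 h2)]) hg

theorem short2 : ∀ x ∈ allL, Sp 6 x → ipx x (th 6) = 1 → ipx x g0 = 1 → (∀ i, sg true x i = x i) ∨
    ∃ y ∈ posL, ipx y y = 2 ∧ Sp 6 y ∧ ipx y (th 6) = 1 ∧ ipx y g0 = 1 ∧ ipx y x = 1 ∧
      ∀ i, sg true y i = y i := by
  decide +kernel

namespace Cfg

variable {c : Cfg K}

theorem V1.mem {θ : Lat} {v : L K} (h : V1 θ v) (hV : v ∈ c.V) (S : Submodule K (L K))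
    (hS : ∀ γ, c.R γ → ip γ θ = 1 → e γ ∈ S) : v ∈ S := by
  rw [L_decomp v, h.fst]
  refine add_mem (by simp) (S.sum_mem fun β _ => ?_)
  rw [← co_of_root β.2]
  by_cases h1 : Sp c.n β.1 ∧ ip β.1 θ = 1
  · exact S.smul_mem _ (hS _ ⟨β.2, h1.1⟩ h1.2)
  · rw [not_and_or] at h1
    rw [h1.elim (hV.2 _) (h.co _), zero_smul]; exact zero_mem _

variable (c) in
def Sp3 (g : Aut K) : Prop := g ∈ c.G ∧ c.BZ g ∧ ¬ c.Triv (g * g)

theorem Sp3.conj {g g' : Aut K} (h : c.Sp3 g) (h' : c.Cj g g') : c.Sp3 g' :=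
  ⟨h'.mem h.1, h.2.1.conj h', fun h2 => h.2.2 (h'.symm.sq h2)⟩

theorem Sp3.inv {g : Aut K} (h : c.Sp3 g) : c.Sp3 g⁻¹ :=
  ⟨inv_mem h.1, h.2.1.inv h.1, fun h2 => h.2.2 fun v hv => by
    have := h2 _ (G_mem (mul_mem h.1 h.1) hv)
    simp only [LinearEquiv.mul_apply, inv_app] at this ⊢
    exact this.symm⟩

theorem rr_th (hq : c.Q2) {θ : Lat} (h : c.Lg θ) :
    (rr θ : Aut K) ∈ c.G ∧ rr θ (e θ : L K) = e (-θ) ∧
      rr θ (e (-θ) : L K) = e θ + Exc.hv θ + e (-θ) := by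
  obtain ⟨n1, n2, n3, n4⟩ := n_th hq h
  refine ⟨mul_mem n1 h.X_mem, ?_, ?_⟩
  · rw [rr, LinearEquiv.mul_apply, X_e_nn h.1.1 h.1.1 (by rw [h.1.1]; decide), n2]
  · rw [rr, LinearEquiv.mul_apply, X_m2 hq h.1.1, map_add, map_add, n2, n3, n4]; abel

theorem SL3 (hq : c.Q2) (hn : c.NS) {g : Aut K} (h : c.Sp3 g)
    (h1 : g (e (th c.n)) = e (-th c.n)) : ∃ l, c.Lv l ∧ g = rr (th c.n) * l := by
  obtain ⟨l, hl, h2 | h2⟩ := SL hq hn h.1 h.2.1 h1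
  · exact absurd (T2 hq hn h.1 h.2.1 hl h2) h.2.2
  · exact ⟨l, hl, h2⟩

theorem typ3 (hq : c.Q2) (hn : c.NS) {g p : Aut K} (h : c.Sp3 g) (hp : p ∈ c.G) {x : L K}
    (hx : x = p (e (th c.n))) (h1 : gf x (g x) ≠ 0) : g (g x) = x + br x (g x) + g x := by
  subst hx
  obtain ⟨P, hP, h2, h3⟩ := norm hq h.1 hp h1
  obtain ⟨l, hl, h4⟩ := SL3 hq hn (h.conj ⟨_, inv_mem hP, rfl⟩) h3
  have h5 : g (p (e (th c.n))) = P (e (-th c.n)) := by rw [← h3, ← h2]; simp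
  have h6 : ∀ v, g (P v) = P ((P⁻¹ * g * P⁻¹⁻¹) v) := fun v => by simp
  rw [h5, h6, ← h2, h4, LinearEquiv.mul_apply, hl.2.2, (rr_th hq th_Lg).2.2, ← (G_aut hP).1,
    br_e c.th_R.1, ad_e_m2 c.th_R.1, neg_eq2 hq.two, map_add, map_add]

theorem S12 (hq : c.Q2) (hn : c.NS) {l p : Aut K} (h : c.Sp3 (rr (th c.n) * l)) (hl : c.Lv l)
    (hp : c.Lv p) {y : L K} (hy : y = p (e (gam c.n))) :
    l (l y) = l y + y ∧ br y (l y) = 0 ∧ br y (ad (-th c.n) (l y)) = 0 := by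
  have hθ := c.th_R
  have t2 := add_self2 hq.two
  obtain ⟨_, r1, r2⟩ := rr_th hq (th_Lg (c := c))
  have e1 : (rr (th c.n) * l : Aut K) (e (th c.n)) = e (-th c.n) := by
    rw [LinearEquiv.mul_apply, hl.2.1, r1]
  obtain ⟨s, hs, ⟨P, hP, h3⟩, h4⟩ := line_pt hq h.2.1 e1 hp
  have v1 := hp.V1 hq (V1_e gam_Lg.2)
  have q0 : gf y (ad (-th c.n) y) = 0 := by
    rw [hy, ← hp.ad, (G_aut hp.1).2, gf_e gam_Lg.1.1.1, ad_e_m1 hθ.neg.1 gam_Lg.1.1.1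
      (by rw [ip_neg_left, ip_comm, gam_Lg.2]), map_smul, co_e_ne, smul_zero]
    intro h5
    have h6 := congrArg (fun x => ip x (gam c.n)) h5
    simp only [ip_add_left, ip_neg_left, gam_Lg.1.1.1, ip_comm (th c.n), gam_Lg.2] at h6
    omega
  rw [← hy] at v1 h3 h4
  have v2 := hl.V1 hq v1
  have v3 := hl.V1 hq v2
  have h5 := typ3 hq hn h hP h3 h4
  have e2 : (rr (th c.n) * l : Aut K) y = ad (-th c.n) (l y) := v2.r0 hθ.1 hq.two
  rw [map_add (rr (th c.n) * l), map_smul (rr (th c.n) * l), e1, e2] at h4 h5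
  rw [map_add, map_smul, LinearEquiv.mul_apply, LinearEquiv.mul_apply, hl.ad, hl.2.2,
    v3.r1 hθ.1 hq.two, r2] at h5
  simp only [map_add, map_smul, LinearMap.add_apply, LinearMap.smul_apply, br_e hθ.1,
    br_e_right hθ.neg.1, ad_e_m2 hθ.1, v2.AA hθ.1 hq.two, neg_eq2 hq.two] at h5
  have w1 := (V1_iff hθ.1 hq.two _).1 v1
  have w2 := (V1_iff hθ.1 hq.two _).1 v2
  have w3 := (V1_iff hθ.1 hq.two _).1 v3
  have a1 : ad (th c.n) (Exc.hv (th c.n) : L K) = 0 := by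
    rw [ad_hv, hθ.1]; push_cast; rw [hq.two, neg_zero, zero_smul]
  have b1 : br (Exc.hv (th c.n)) (br y (l y)) = 0 := by rw [hv_br hθ.1, w1.1, w2.1, t2]
  rcases hs with rfl | rfl
  · exfalso
    simp only [zero_smul, add_zero] at h4 h5
    have k1 := congrArg (ad (th c.n)) h5
    simp only [map_add, w1.2, w3.2, v3.AA hθ.1 hq.two, v2.AA hθ.1 hq.two, ad_br hθ.1, map_zero,
      LinearMap.zero_apply, zero_add] at k1
    have k2 := congrArg (br (Exc.hv (th c.n))) k1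
    rw [map_add, w3.1, b1, w2.1, zero_add, l.injective.eq_iff] at k2
    exact h4 (by rw [k2, q0])
  · simp only [one_smul] at h5
    have k1 := congrArg (ad (th c.n)) h5
    simp only [map_add, w1.2, w2.2, w3.2, v3.AA hθ.1 hq.two, v2.AA hθ.1 hq.two, v1.AA hθ.1 hq.two,
      ad_br hθ.1, map_zero, a1, ad_e_self hθ.1, LinearMap.zero_apply, zero_add, add_zero] at k1
    rw [← add_assoc, add_left_inj] at k1
    have k2 := congrArg (br (Exc.hv (th c.n))) k1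
    rw [map_add, map_add, w3.1, b1, w2.1, zero_add, w1.1] at k2
    refine ⟨by rw [k2, add_comm], by rw [k2] at k1; linear_combination (norm := module) -k1, ?_⟩
    rw [k2, map_add] at h5
    linear_combination (norm := module) -h5

theorem S1 (hq : c.Q2) (hn : c.NS) {l : Aut K} (h : c.Sp3 (rr (th c.n) * l)) (hl : c.Lv l)
    {v : L K} (h1 : V1 (th c.n) v) (hV : v ∈ c.V) : l (l v) = l v + v := by
  have := V1.mem h1 hV (LinearMap.ker ((l * l).toLinearMap - l.toLinearMap - 1)) fun γ hγ h2 =>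
    span1 hq hn _ (fun p hp => by
      change l (l _) - l _ - p _ = 0
      rw [(S12 hq hn h hl hp rfl).1]; abel) hγ h2
  change l (l v) - l v - v = 0 at this
  linear_combination (norm := module) this

theorem supp (hq : c.Q2) (hn : c.NS) {l : Aut K} (h : c.Sp3 (rr (th c.n) * l)) (hl : c.Lv l)
    {μ : Lat} (h2 : ip μ (gam c.n) ≤ 0) : co μ (l (e (gam c.n))) = 0 := by
  have hθ := c.th_R
  have hγ := (gam_Lg (c := c)).1.1.1
  obtain ⟨_, k1, k2⟩ := S12 hq hn h hl ⟨one_mem _, rfl, rfl⟩ (y := e (gam c.n)) rfl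
  rw [br_e hγ] at k1 k2
  by_cases h1 : ip μ (th c.n) = 1
  swap
  · exact (hl.V1 hq (V1_e gam_Lg.2)).co μ h1
  by_cases hμ : ip μ μ = 2
  swap
  · exact co_of_not hμ _
  rcases ip_cases hγ hμ with rfl | h3 | h3
  · rw [ip_neg_left, gam_Lg.2] at h1; omega
  · exact co_of_ad hγ hμ h3 k1
  · have h4 := (root_sub hμ hθ.1).2 h1
    have h5 := co_of_ad hγ h4 (by rw [ip_sub_right, gam_Lg.2, ip_comm]; rw [ip_comm] at h3; omega) k2
    rw [co_ad, if_pos h4, if_neg (by simpa [sub_eq_add_neg] using root_ne_zero hμ),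
      sub_neg_eq_add, sub_add_cancel, hq.eps, one_mul] at h5
    exact h5

theorem span_short (hq : c.Q2) (hn : c.NS) (hb : c.b = true) (S : Submodule K (L K)) {γ y : Lat}
    (hγ : c.R γ) (hs : sg c.b γ ≠ γ) (hy : c.Lg y) (y4 : ip y γ = 1)
    (h1 : ∀ t, c.Y (γ - y) t (e y) ∈ S)
    (h2 : c.Lg (γ - y + (sg c.b (γ - y) + y)) → e (γ - y + (sg c.b (γ - y) + y)) ∈ S) :
    e γ ∈ S := by
  have y1 := hy.1.1
  have y2 := hy.1.2
  have hδ : c.R (γ - y) := ⟨(root_sub hγ.1 y1).2 (by rw [ip_comm, y4]), hγ.2.sub y2⟩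
  have hm : sg c.b (γ - y) ≠ γ - y := by rw [sg_sub, hy.2]; simpa using hs
  have d1 : ip (γ - y) y = -1 := by rw [ip_sub_left, ip_comm, y4, y1]; rfl
  have d2 : ip (sg c.b (γ - y)) y = -1 := by rw [c.ip_sg' hδ.2 y2, hy.2, d1]
  have r1 := (root_add hδ.sg.1 y1).2 d2
  have d5 : ip (γ - y) (sg c.b (γ - y) + y) = -1 := by rw [ip_add_right, hδ.orth hm, d1]; rfl
  have l2 := h2 ⟨⟨(root_add hδ.1 r1).2 d5, hδ.2.add (hδ.sg.2.add y2)⟩, by
      rw [sg_add, sg_add, sg_sg, hy.2]; abel⟩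
  have key : ∀ t : K, t • e γ + c.τ t • e (sg c.b (γ - y) + y) ∈ S := fun t => by
    have e0 := h1 0
    have e1 := h1 t
    rw [Y_zero] at e0
    rw [Y_mov hm, LinearEquiv.mul_apply, X_e_m1 hδ.sg.1 y1 d2, map_add, map_smul,
      X_e_m1 hδ.1 y1 d1, X_e_m1 hδ.1 r1 d5, sub_add_cancel] at e1
    simp only [hq.eps, mul_one] at e1
    have e2 := sub_mem (sub_mem e1 e0) (S.smul_mem (c.τ t * t) l2)
    convert e2 using 1
    simp only [LinearEquiv.coe_one, id]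
    module
  obtain ⟨t, ht⟩ := hq.omega hn hb
  have e3 := sub_mem (S.smul_mem (t + 1) (key 1)) (key t)
  rw [map_one, ht] at e3
  convert e3 using 1
  module

theorem Lv.conj {l p : Aut K} (hl : c.Lv l) (hp : c.Lv p) :
    c.Lv (p⁻¹ * l * p) ∧ c.Cj (rr (th c.n) * l) (rr (th c.n) * (p⁻¹ * l * p)) := by
  refine ⟨⟨mul_mem (mul_mem (inv_mem hp.1) hl.1) hp.1, ?_, ?_⟩, p⁻¹, inv_mem hp.1, ?_⟩
  · rw [LinearEquiv.mul_apply, LinearEquiv.mul_apply, hp.2.1, hl.2.1, inv_fix hp.2.1]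
  · rw [LinearEquiv.mul_apply, LinearEquiv.mul_apply, hp.2.2, hl.2.2, inv_fix hp.2.2]
  · rw [← mul_assoc, rr_comm (inv_mem (G_aut hp.1)) c.th_R.1 (inv_fix hp.2.1) (inv_fix hp.2.2)]
    group

theorem Y_perp {δ α : Lat} (hδ : c.R δ) (hα : c.Lg α) (h : ip δ α = 0) (t : K) :
    c.Y δ t (e α) = e α := by
  unfold Y; split_ifs
  · exact X_e_nn hδ.1 hα.1.1 h.ge t
  · rw [LinearEquiv.mul_apply, X_e_nn hδ.sg.1 hα.1.1 (by rw [c.ip_sg' hδ.2 hα.1.2, hα.2, h]),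
      X_e_nn hδ.1 hα.1.1 h.ge]

theorem step3 (hq : c.Q2) (hn : c.NS) {l : Aut K} (h : c.Sp3 (rr (th c.n) * l)) (hl : c.Lv l) :
    ∃ l', c.Lv l' ∧ c.Cj (rr (th c.n) * l) (rr (th c.n) * l') ∧ ∃ γ, c.Lg γ ∧
      ip γ (th c.n) = 1 ∧ ip γ (gam c.n) = 1 ∧ co γ (l' (e (gam c.n))) ≠ 0 := by
  by_contra H
  push Not at H
  obtain ⟨hγ, g1⟩ := gam_Lg (c := c)
  have hV := G_mem hl.1 (e_mem hγ.1.2)
  have v1 := hl.V1 hq (V1_e g1)
  have H0 := H l hl (Cj.refl _)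
  have key : ∀ μ, ip μ μ = 2 → μ ≠ gam c.n → co μ (l (e (gam c.n))) = 0 := fun μ hμ h1 => by
    by_cases h2 : Sp c.n μ ∧ ip μ (th c.n) = 1
    swap
    · rw [not_and_or] at h2; exact h2.elim (hV.2 _) (v1.co _)
    have h3 := ip_le_one hμ hγ.1.1 h1
    by_cases h4 : ip μ (gam c.n) ≤ 0
    · exact supp hq hn h hl h4
    by_cases hs : sg c.b μ = μ
    · exact H0 μ ⟨⟨hμ, h2.1⟩, hs⟩ h2.2 (by omega)
    have hb : c.b = true := by
      cases hb : c.b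
      · rw [hb, sg_false] at hs; exact absurd rfl hs
      · rfl
    have h6 := n6_of_b hb
    have h7 : gam c.n = g0 := by rw [h6]; rfl
    obtain ⟨y, _, y1, y2, y3, y4, y5, y6⟩ := (short2 μ (mem_allL hμ) (h6 ▸ h2.1)
      (by rw [← ip_x, ← h6, h2.2]) (by rw [← ip_x, ← h7]; omega)).resolve_left
      (fun h => hs (by rw [hb]; exact funext h))
    rw [← ip_x] at y1 y3 y4 y5
    rw [← h6] at y2 y3
    rw [← h7] at y4
    have hy : c.Lg y := ⟨⟨y1, y2⟩, by rw [hb]; exact funext y6⟩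
    have hδ : c.R (-μ - -y) := ⟨(root_sub (root_neg hμ) (root_neg y1)).2
      (by rw [ip_neg_left, ip_neg_right, neg_neg, ip_comm, y5]), h2.1.neg.sub y2.neg⟩
    have d3 : ip (-μ - -y) (th c.n) = 0 := by rw [ip_sub_left, ip_neg_left, ip_neg_left]; omega
    have d4 : ip (-μ - -y) (gam c.n) = 0 := by rw [ip_sub_left, ip_neg_left, ip_neg_left]; omega
    have hm : sg c.b (-μ) ≠ -μ := fun h => hs (neg_inj.1 h)
    have := span_short hq hn hb (LinearMap.ker (gf.flip (l (e (gam c.n))))) (R.neg ⟨hμ, h2.1⟩) hm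
      hy.neg (by rw [ip_neg_left, ip_neg_right, neg_neg, y5]) (fun t => ?_) fun h8 => ?_
    · change gf _ _ = 0 at this
      rwa [gf_e (root_neg hμ), neg_neg] at this
    · have hp : c.Lv (c.Y (-μ - -y) t) := ⟨Y_mem hδ fun h8 => absurd (by
        rwa [sg_sub, hy.neg.2, sub_left_inj] at h8) hm, Y_perp hδ th_Lg d3 t,
        Y_perp hδ th_Lg.neg (by rw [ip_neg_right, d3]; rfl) t⟩
      have h8 := H _ (hl.conj hp).1 (hl.conj hp).2 y hy y3 y4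
      rw [LinearEquiv.mul_apply, LinearEquiv.mul_apply, Y_perp hδ hγ d4] at h8
      change gf _ _ = 0
      rw [← inv_inv (c.Y _ t), ← gf_inv (inv_mem (G_aut hp.1)), gf_e (root_neg y1), neg_neg, h8]
    · change gf _ _ = 0
      rw [gf_e h8.1.1]
      refine H0 _ h8.neg ?_ ?_
      · rw [ip_neg_left, ip_add_left, ip_add_left, c.ip_sg' hδ.2 c.th_R.2, c.th_sg, d3, ip_neg_left]
        omega
      · rw [ip_neg_left, ip_add_left, ip_add_left, c.ip_sg' hδ.2 hγ.1.2, hγ.2, d4, ip_neg_left]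
        omega
  have e1 : l (e (gam c.n)) = co (gam c.n) (l (e (gam c.n))) • e (gam c.n) :=
    L_eq (by rw [v1.fst]; simp [e_fst]) fun β hβ => by
      by_cases h1 : β = gam c.n
      · simp [h1, co_e_self hγ.1.1]
      · simp [key β hβ h1, co_e_ne h1]
  have e2 := co_st hγ.1 (l (e (gam c.n)))
  rw [G_st hl.1 (e_mem hγ.1.2), st_e hγ.1.2, hγ.2] at e2
  have e3 := congrArg (co (gam c.n)) (S12 hq hn h hl ⟨one_mem _, rfl, rfl⟩ (y := e (gam c.n)) rfl).1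
  rw [e1, map_smul, map_smul, ← e1, map_add, co_e_self hγ.1.1, smul_eq_mul] at e3
  rcases hq _ e2.symm with h1 | h1 <;> rw [h1] at e3 <;> simp at e3

theorem step3' (hq : c.Q2) (hn : c.NS) {l : Aut K} (h : c.Sp3 (rr (th c.n) * l)) (hl : c.Lv l)
    {γ : Lat} (hγ : c.Lg γ) (h1 : ip γ (th c.n) = 1) (h2 : ip γ (gam c.n) = 1)
    (h3 : co γ (l (e (gam c.n))) ≠ 0) :
    ∃ δ, c.Lg δ ∧ ip (th c.n) δ = 0 ∧ gf (e δ) (l (e δ)) ≠ 0 := by
  obtain ⟨hg, g1⟩ := gam_Lg (c := c)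
  have hδ : c.Lg (gam c.n - γ) := ⟨⟨(root_sub hg.1.1 hγ.1.1).2 (by rw [ip_comm, h2]),
    hg.1.2.sub hγ.1.2⟩, by rw [sg_sub, hg.2, hγ.2]⟩
  have v1 := hl.V1 hq (V1_e g1)
  refine ⟨_, hδ, by rw [ip_comm, ip_sub_left, g1, h1]; rfl, ?_⟩
  have e1 : ad (gam c.n - γ) (l (e (gam c.n))) = co γ (l (e (gam c.n))) • e (gam c.n) := by
    refine L_eq ?_ fun β hβ => ?_
    · ext i
      rw [ad_fst, v1.co _ (by rw [ip_neg_left, ip_sub_left]; omega)]; simp [e_fst]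
    rw [co_ad, if_pos hβ, map_smul, hq.eps, one_mul]
    by_cases h4 : β = gam c.n
    · rw [h4, if_neg (by simpa [sub_eq_add_neg] using root_ne_zero hγ.1.1), co_e_self hg.1.1,
        sub_sub_cancel, smul_eq_mul, mul_one]
    rw [co_e_ne h4, smul_zero]
    split_ifs with h5
    · simp [hp_apply, v1.fst]
    by_cases h6 : ip (β - (gam c.n - γ)) (β - (gam c.n - γ)) = 2
    swap
    · exact co_of_not h6 _
    refine supp hq hn h hl ?_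
    have h7 := (root_sub hβ hδ.1.1).1 h6
    have h8 := ip_le_one h6 hγ.1.1 (fun h => h4 (by rw [sub_eq_iff_eq_add.1 h]; abel))
    have h9 := hδ.1.1
    simp only [ip_sub_left, ip_sub_right] at h7 h8 h9 ⊢
    omega
  have e2 : l (l (e (gam c.n)) + e (gam c.n)) = e (gam c.n) := by
    rw [map_add, (S12 hq hn h hl ⟨one_mem _, rfl, rfl⟩ (y := e (gam c.n)) rfl).1]
    linear_combination (norm := module) add_self2 hq.two (l (e (gam c.n)))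
  have e3 := (G_aut hl.1).1 (l (e (gam c.n)) + e (gam c.n)) (e (gam c.n - γ))
  rw [e2, br_e hg.1.1, br_e_right hδ.1.1, map_add, e1, ad_e_nn hδ.1.1 hg.1.1
    (by rw [ip_sub_left, hg.1.1, h2]; decide), add_zero, map_neg, map_smul] at e3
  have e4 := gf_ad hg.1.1 (e (-γ)) (l (e (gam c.n - γ)))
  rw [← e3, ad_e_m1 hg.1.1 hγ.1.neg.1 (by rw [ip_neg_right, ip_comm, h2]), hq.eps, one_smul,
    ← sub_eq_add_neg, gf_e hγ.1.neg.1, neg_neg, map_neg, neg_neg, map_smul] at e4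
  rw [e4]
  exact mul_ne_zero h3 h3

theorem G_le_R : c.G ≤ Ucl K c.R := G_le fun _ t h _ => Y_mem_Ucl h h.sg t

theorem R_mem {u : Aut K} (hu : u ∈ Ucl K c.R) {v : L K} (hv : v ∈ c.V) : u v ∈ c.V :=
  Ucl_induction (p := fun u => u v ∈ c.V) hv (fun _ t _ h _ _ h1 => X_mem h t h1) hu

theorem R_le_G (hb : c.b = false) : Ucl K c.R ≤ c.G := Ucl_le fun β t h _ => by
  rw [← Y_fix (c := c) (by rw [hb, sg_false])]
  refine Y_mem h (Al_fix ?_ _)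
  rcases c.ok with ⟨_, h, _⟩ | ⟨h, _⟩
  · exact h t
  · rw [h] at hb; exact absurd hb (by simp)

variable (c) in
structure Two (l : Aut K) : Prop where
  mem : l ∈ Ucl K c.R
  f1 : l (e (th c.n)) = e (th c.n)
  f2 : l (e (-th c.n)) = e (-th c.n)
  f3 : l (e (bet c.n)) = e (bet c.n)
  f4 : l (e (-bet c.n)) = e (-bet c.n)
  q : ∀ v, V1 (th c.n) v → v ∈ c.V →
    rr (bet c.n) (l (rr (bet c.n) (l v))) = rr (bet c.n) (l v) + v

theorem step0 (hq : c.Q2) (hn : c.NS) {g : Aut K} (h : c.Sp3 g) (h1 : ¬ c.QL g) :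
    ∃ l, c.Lv l ∧ c.Cj g (rr (th c.n) * l) := by
  obtain ⟨g1, c1, h2⟩ := exists_q hq h1 th_Lg
  obtain ⟨P, hP, _, h3⟩ := norm hq (c1.mem h.1) (one_mem _) h2
  have c2 := c1.trans ⟨_, inv_mem hP, rfl⟩
  obtain ⟨l, hl, h4⟩ := SL3 hq hn (h.conj c2) h3
  exact ⟨l, hl, h4 ▸ c2⟩

theorem step4 (hq : c.Q2) (hn : c.NS) {g : Aut K} (h : c.Sp3 g) (h1 : ¬ c.QL g) :
    ∃ g', c.Cj g g' ∧ ∃ q ∈ Ucl K c.R, ∃ l, c.Two l ∧
      q⁻¹ * g' * q = rr (th c.n) * (rr (bet c.n) * l) := by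
  have hθ := th_Lg (c := c)
  obtain ⟨hβ, b0⟩ := bet_Lg (c := c)
  obtain ⟨l0, hl0, c0⟩ := step0 hq hn h h1
  obtain ⟨l1, hl1, c1, γ, i1, i2, i3, i4⟩ := step3 hq hn (h.conj c0) hl0
  have c2 := c0.trans c1
  obtain ⟨δ, hδ, i5, i6⟩ := step3' hq hn (h.conj c2) hl1 i1 i2 i3 i4
  obtain ⟨m, w, hm, j1, _, j2⟩ := to_pair hδ hθ
  have m1 : m (e (th c.n)) = e (bet c.n) := by rw [hq.mon_e hm hθ, j2 i5]
  have m2 : m (e (-th c.n)) = e (-bet c.n) := by rw [hq.mon_e hm hθ.neg, map_neg, j2 i5]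
  have m3 : m (e δ) = e (th c.n) := by rw [hq.mon_e hm hδ, j1]
  obtain ⟨l4, e4⟩ : ∃ l4, l4 = m * l1 * m⁻¹ := ⟨_, rfl⟩
  have G4 : l4 ∈ c.G := e4 ▸ mul_mem (mul_mem hm.mem hl1.1) hm.inv.mem
  have p1 : l4 (e (bet c.n)) = e (bet c.n) := by rw [e4, ← m1]; simp [hl1.2.1]
  have p2 : l4 (e (-bet c.n)) = e (-bet c.n) := by rw [e4, ← m2]; simp [hl1.2.2]
  have c3 : c.Cj g (rr (bet c.n) * l4) :=
    c2.trans ⟨m, hm.mem, by rw [e4, ← rr_conj hm.aut hθ.1.1 hβ.1.1 m1 m2]; group⟩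
  have e5 : (rr (bet c.n) * l4 : Aut K) (e (th c.n)) = l4 (e (th c.n)) := by
    rw [← rr_comm (G_aut G4) hβ.1.1 p1 p2, LinearEquiv.mul_apply, rr_fix hβ.1.1 hθ.1.1 b0]
  obtain ⟨u, hu, e6⟩ := opp hq (c3.mem h.1) (by
    rwa [e5, ← gf_e hθ.1.1, ← m3, e4, LinearEquiv.mul_apply, LinearEquiv.mul_apply, inv_app,
      hm.aut.2])
  obtain ⟨q, hq1, e7⟩ := toQ (U_P hu)
  have hq2 := Q_peel hq hq1 (A := fun ζ => c.QA ζ ∧ ip ζ (bet c.n) = 0) (fun _ h => h.1)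
    ⟨⟨hθ.1.2, by rw [hθ.1.1]; decide⟩, by rw [ip_comm, b0]⟩ fun ζ hζ k1 k2 => by
      have k3 : ip ζ (bet c.n) ≠ 0 := fun h => k2 ⟨⟨hζ.2, k1.ge⟩, h⟩
      have k4 := (root_sub hζ.1 hθ.1.1).2 k1
      rw [← e7, ← e6, e5]
      rcases ip_cases hβ.1.1 hζ.1 with rfl | k5 | k5
      · rw [ip_neg_left] at k1; omega
      · refine co_of_ad hβ.1.1 k4 (by rw [ip_sub_right]; omega) ?_
        rw [← aut_ad (G_aut G4) hβ.1.1 p1, ad_e_nn hβ.1.1 hθ.1.1 b0.ge, map_zero]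
      · have k6 := ip_le_one hβ.1.1 hζ.1 (by rintro rfl; omega)
        rw [ip_comm] at k3
        refine co_of_ad hβ.neg.1.1 k4 (by rw [ip_neg_left, ip_sub_right]; omega) ?_
        rw [← aut_ad (G_aut G4) hβ.neg.1.1 p2, ad_e_nn hβ.neg.1.1 hθ.1.1
          (by rw [ip_neg_left]; omega), map_zero]
  have qR : q ∈ Ucl K c.R := Ucl_mono (fun _ h1 h2 => ⟨h1, h2.1⟩) hq1
  have q1 := Ucl_fix' hθ.1.1 (fun _ h _ => by have := h.2; omega) hq1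
  have q3 := Ucl_fix' hβ.1.1 (fun _ h _ => h.2.ge) hq2
  have q4 := Ucl_fix' hβ.neg.1.1 (fun _ h _ => by rw [ip_neg_right, h.2]; rfl) hq2
  have c5 : c.Cj g (u⁻¹ * (rr (bet c.n) * l4) * u⁻¹⁻¹) := c3.trans ⟨_, inv_mem (U_G hu), rfl⟩
  obtain ⟨l5, hl5, e8⟩ := SL3 hq hn (h.conj c5) (by
    rw [inv_inv, LinearEquiv.mul_apply, LinearEquiv.mul_apply, U_th (U_P hu), e6, inv_app])
  have s5 := @S1 _ _ _ hq hn l5 (e8 ▸ h.conj c5) hl5
  obtain ⟨v, ev⟩ : ∃ v, v = q⁻¹ * u := ⟨_, rfl⟩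
  have vR : v ∈ Ucl K c.R := ev ▸ mul_mem (inv_mem qR) (G_le_R (U_G hu))
  have v1 : v (e (th c.n)) = e (th c.n) := by
    rw [ev, LinearEquiv.mul_apply, U_th (U_P hu), inv_fix q1]
  have v2 : v (e (-th c.n)) = e (-th c.n) := by rw [ev, LinearEquiv.mul_apply, e7, inv_app]
  have e9 : q⁻¹ * (rr (bet c.n) * l4) * q = rr (th c.n) * (v * l5 * v⁻¹) := by
    rw [← mul_assoc (rr (th c.n)), ← mul_assoc (rr (th c.n)), ← rr_comm (Ucl_aut vR) hθ.1.1 v1 v2,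
      mul_assoc v, ← e8, ev]
    group
  have rβ : (rr (bet c.n) : Aut K) ∈ Ucl K c.R := rr_mem hβ.1 hβ.neg.1
  have rθ : (rr (th c.n) : Aut K) ∈ Ucl K c.R := rr_mem hθ.1 hθ.neg.1
  have e10 : (rr (bet c.n))⁻¹ * (v * l5 * v⁻¹) = (rr (th c.n))⁻¹ * q⁻¹ * l4 * q := by
    have := rr_comm (Ucl_aut (mul_mem (inv_mem rθ) (inv_mem qR))) hβ.1.1
      (by rw [LinearEquiv.mul_apply, inv_fix q3, inv_fix (rr_fix hθ.1.1 hβ.1.1 (by rw [ip_comm, b0]))])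
      (by rw [LinearEquiv.mul_apply, inv_fix q4, inv_fix (rr_fix hθ.1.1 hβ.neg.1.1
        (by rw [ip_neg_right, ip_comm, b0]; rfl))])
    rw [← inv_mul_eq_iff_eq_mul] at e9
    rw [← e9, inv_mul_eq_iff_eq_mul, ← mul_assoc (rr _), ← mul_assoc (rr _), ← this]; group
  refine ⟨_, c3, q, qR, (rr (bet c.n))⁻¹ * (v * l5 * v⁻¹), ⟨mul_mem (inv_mem rβ)
    (mul_mem (mul_mem vR (G_le_R hl5.1)) (inv_mem vR)), ?_, ?_, ?_, ?_, fun x hx hV => ?_⟩,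
    by rw [e9, mul_inv_cancel_left]⟩
  · simp only [LinearEquiv.mul_apply, inv_fix v1, hl5.2.1, v1, inv_fix (rr_fix hβ.1.1 hθ.1.1 b0)]
  · simp only [LinearEquiv.mul_apply, inv_fix v2, hl5.2.2, v2,
      inv_fix (rr_fix hβ.1.1 hθ.neg.1.1 (by rw [ip_neg_right, b0]; rfl))]
  · simp only [e10, LinearEquiv.mul_apply, q3, p1, inv_fix q3,
      inv_fix (rr_fix hθ.1.1 hβ.1.1 (by rw [ip_comm, b0]))]
  · simp only [e10, LinearEquiv.mul_apply, q4, p2, inv_fix q4,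
      inv_fix (rr_fix hθ.1.1 hβ.neg.1.1 (by rw [ip_neg_right, ip_comm, b0]; rfl))]
  · simp only [LinearEquiv.mul_apply, app_inv, inv_app]
    rw [s5 (hx.aut hθ.1.1 hq.two (Ucl_aut (inv_mem vR)) (inv_fix v1) (inv_fix v2))
      (R_mem (inv_mem vR) hV), map_add, app_inv]

end Cfg

end Pool.Agent.MP_db74b1_al.Exc
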