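import Pool.Agent.MP_db74b1_al.ExcQ6

set_option autoImplicit false

namespace Pool.Agent.MP_db74b1_al.Exc

variable {K : Type} [Field K]

theorem XX (h2 : (2 : K) = 0) (θ : Lat) : X θ (1 : K) * X θ 1 = 1 := by
  rw [X_add, one_add_one_eq_two, h2, X_zero]

theorem rr_eq (h2 : (2 : K) = 0) (θ : Lat) : rr θ = X θ (1 : K) * X (-θ) 1 := by
  rw [rr, N1, inv_one, mul_assoc, XX h2, mul_one]

theorem rr_inv (h2 : (2 : K) = 0) (θ : Lat) :
    X θ (1 : K) * (rr θ)⁻¹ * (X θ 1)⁻¹ = rr θ := by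
  have h1 := inv_eq_of_mul_eq_one_left (XX h2 θ)
  have h3 := inv_eq_of_mul_eq_one_left (XX h2 (-θ))
  rw [rr_eq h2, mul_inv_rev, h1, h3, mul_assoc, mul_assoc, XX h2, mul_one]

noncomputable def a0 : Aut K := rr (th 7) * (rr (bet 7) * rr (a 6))

namespace Cfg

variable {c : Cfg K}

theorem b_of_7 (hn : c.n = 7) : c.b = false ∧ ∀ t, c.τ t = t := by
  rcases c.ok with ⟨h, h', _⟩ | ⟨_, h, _⟩
  · exact ⟨h, h'⟩
  · omega

theorem triv7 (hn : c.n = 7) {g : Aut K} (hg : g ∈ AutG K)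
    (hF : ∀ ζ, ip ζ ζ = 2 → Fb 7 ζ → g (e ζ) = e ζ) (h1 : g (e ka7) = e ka7)
    (h2 : g (e kb7) = e kb7) : c.Triv g := fun v hv => gen_fix hg (fun i hi => by
  have k := chain_sc hg hF (t := 1) ch7 [(ka7, 0), (kb7, 0)]
    (by simpa using ⟨⟨rt (by decide), h1⟩, rt (by decide), h2⟩)
  have := ch7_ok i (hn ▸ hi)
  exact ⟨by simpa using (okB_sc hF k this.1).2, by simpa using (okB_sc hF k this.2).2⟩) hv

theorem Two.n7 (hq : c.Q2) {l : Aut K} (H : c.Two l) (hn : c.n = 7) :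
    c.Triv ((rr (a 6))⁻¹ * l) ∨ c.Triv (rr (a 6) * l) := by
  have hF := H.fixF hq
  have r1 : ip ka7 ka7 = 2 := rt (by decide)
  have r2 : ip kb7 kb7 = 2 := rt (by decide)
  have R1 : c.R ka7 := ⟨r1, by rw [hn]; decide⟩
  have v1 := (V1_e (θ := th c.n) (β := ka7) (by rw [hn, ip_x]; decide)).aut c.th_R.1 hq.two H.aut
    H.f1 H.f2
  have q := H.q10 R1 (by rw [hn, ip_x]; decide) (by rw [hn, ip_x]; decide)
  have hV := (R_mem H.mem (e_mem R1.2)).2
  rw [hn] at hF v1 hV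
  have ne : kb7 ≠ ka7 := by decide
  have e1 := eq_one r2 (v := l (e ka7) - co ka7 (l (e ka7)) • e ka7)
    (by rw [Prod.fst_sub, v1.fst]; simp [e_fst]) fun μ hμ h => by
    by_cases h0 : μ = ka7
    · simp [h0, co_e_self r1]
    rw [map_sub, map_smul, co_e_ne h0, smul_zero, sub_zero]
    by_cases h1 : Sp 7 μ ∧ ip μ (th 7) = 1
    · exact ann H.aut hF r1 hμ (((ann7 μ (mem_allL hμ) h1.1 (ip_x _ _ ▸ h1.2)).resolve_left
        fun h2 => h0 (funext h2)).resolve_left fun h2 => h (funext h2))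
    · rw [not_and_or] at h1; exact h1.elim (hV _) (v1.co _)
  rw [sub_eq_iff_eq_add] at e1
  generalize co kb7 (l (e ka7) - co ka7 (l (e ka7)) • e ka7) = t at e1
  generalize co ka7 (l (e ka7)) = s at e1
  have w : V1 (a 6) (e kb7 : L K) := V1_e (by rw [ip_x]; decide)
  have w0 : ad (-a 6) (e kb7 : L K) = e ka7 := by
    rw [ad_e_m1 (root_neg (root_a 6)) r2 (by rw [ip_x]; decide), hq.eps, one_smul,
      show -a 6 + kb7 = ka7 by decide]
  have w1 := w.r0 (root_a 6) hq.two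
  have w2 := w.r1 (root_a 6) hq.two
  rw [w0] at w1 w2
  have ar : (rr (a 6) : Aut K) ∈ AutG K := Ucl_aut (rr_mem (A := fun _ => True) trivial trivial)
  have fr : ∀ ζ, ip ζ ζ = 2 → Fb 7 ζ → rr (a 6) (e ζ : L K) = e ζ := fun ζ h1 h2 =>
    rr_fix (root_a 6) h1 (by rw [ip_comm, ip_a, perp7 ζ (mem_allL h1) h2])
  have t2 := add_self2 hq.two
  rcases hq t ((b_of_7 hn).2 t) with rfl | rfl
  · exfalso
    have := congrArg (co ka7) q
    simp only [e1, zero_smul, zero_add, map_smul, map_add, co_e_self r1, smul_eq_mul,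
      mul_one] at this
    rcases hq s ((b_of_7 hn).2 s) with rfl | rfl <;> simp at this
  rcases hq s ((b_of_7 hn).2 s) with rfl | rfl
  · rw [zero_smul, add_zero, one_smul] at e1
    rw [e1] at q
    refine Or.inr (triv7 hn (mul_mem ar H.aut) (fun ζ h1 h2 => ?_) ?_ ?_)
    · rw [LinearEquiv.mul_apply, hF ζ h1 h2, fr ζ h1 h2]
    · rw [LinearEquiv.mul_apply, e1, w1]
    · rw [LinearEquiv.mul_apply, q, map_add, w1, w2]
      linear_combination (norm := module) t2 (e ka7)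
  · rw [one_smul, one_smul] at e1
    rw [e1, map_add, e1, add_left_comm, add_comm _ (e ka7), add_assoc, add_left_cancel_iff,
      add_comm (e ka7), add_left_inj] at q
    refine Or.inl (triv7 hn (mul_mem (inv_mem ar) H.aut) (fun ζ h1 h2 => ?_) ?_ ?_)
    · rw [LinearEquiv.mul_apply, hF ζ h1 h2, inv_fix (fr ζ h1 h2)]
    · rw [LinearEquiv.mul_apply, e1, ← w2, inv_app]
    · rw [LinearEquiv.mul_apply, q, ← w1, inv_app]

theorem classify (hq : c.Q2) (hn : c.NS) {g : Aut K} (h : c.Sp3 g) (h1 : ¬ c.QL g) :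
    c.n = 7 ∧ ∃ g', c.Cj g g' ∧ c.Eqv g' a0 := by
  obtain ⟨g', c1, q, hq1, l, H, e1⟩ := step4 hq hn h h1
  have h7 : c.n = 7 := by
    have := H.n6 hq
    have := H.n8 hq
    rcases c.ok with ⟨_, _, h⟩ | ⟨_, h, _⟩ <;> omega
  have hb := (b_of_7 h7).1
  have c2 : c.Cj g (rr (th 7) * (rr (bet 7) * l)) :=
    c1.trans ⟨q⁻¹, inv_mem (R_le_G hb hq1), by rw [inv_inv, e1, h7]⟩
  refine ⟨h7, ?_⟩
  rcases H.n7 hq h7 with h2 | h2
  · refine ⟨_, c2, fun v hv => ?_⟩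
    have := h2 v hv
    rw [LinearEquiv.mul_apply, ← (rr (a 6)).injective.eq_iff, app_inv] at this
    simp only [a0, LinearEquiv.mul_apply, this]
  · have l6 : c.Lg (a 6) := ⟨R_a (by rw [h7]; decide), by rw [hb, sg_false]⟩
    have k : ∀ θ, ip θ θ = 2 → ip (a 6) θ = 0 → X (a 6) (1 : K) * rr θ = rr θ * X (a 6) 1 :=
      fun θ h1 h2 => rr_comm (X_aut _ _) h1 (X_e_nn (root_a 6) h1 h2.ge _)
        (X_e_nn (root_a 6) (root_neg h1) (by rw [ip_neg_right, h2]; rfl) _)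
    have h3 : c.Eqv (rr (th 7) * (rr (bet 7) * l)) (rr (th 7) * (rr (bet 7) * (rr (a 6))⁻¹)) :=
      fun v hv => by
        have := h2 v hv
        rw [LinearEquiv.mul_apply, ← (rr (a 6))⁻¹.injective.eq_iff, inv_app] at this
        simp only [LinearEquiv.mul_apply, this]
    have h4 := h3.conj l6.X_mem
    rw [← mul_assoc _ (rr (th 7)) (_ * _⁻¹), k _ (rt (by decide)) (by rw [ip_x]; decide),
      mul_assoc (rr (th 7)), ← mul_assoc _ (rr (bet 7)) _⁻¹, k _ (rt (by decide))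
      (by rw [ip_x]; decide), mul_assoc (rr (th 7)), mul_assoc (rr (bet 7)), mul_assoc (rr (bet 7)),
      rr_inv hq.two] at h4
    exact ⟨_, c2.trans ⟨_, l6.X_mem, rfl⟩, h4⟩

theorem Cj.inv {g g' : Aut K} (h : c.Cj g g') : c.Cj g⁻¹ g'⁻¹ := by
  obtain ⟨p, hp, rfl⟩ := h
  exact ⟨p, hp, by group⟩

theorem SC.sp_sp (hq : c.Q2) (hn : c.NS) {a b : Aut K} (h : c.SC a b) (ha : c.Sp3 a)
    (hb : c.Sp3 b) (h1 : ¬ c.QL a) (h2 : ¬ c.QL b) : False := by
  obtain ⟨h7, a', c1, e1⟩ := classify hq hn ha h1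
  obtain ⟨_, b', c2, e2⟩ := classify hq hn hb.inv (fun h3 => h2 fun x hx => by
    rw [gf_inv (G_aut hb.1), gf_comm]; exact h3 x hx)
  have c3 := c2.inv
  rw [_root_.inv_inv] at c3
  obtain ⟨g, hg, h⟩ := h
  obtain ⟨z, g', hz, c4, e3⟩ := h _ _ c1 c3
  have t1 : c.Triv g := c4.symm.triv fun v hv => by
    have h3 := G_mem (c3.mem hb.1) hv
    rw [← hz _ (G_mem (c4.mem hg) hv), ← LinearEquiv.mul_apply, ← e3, LinearEquiv.mul_apply,
      e1 _ h3, ← e2 _ h3, app_inv]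
  have hθ := th_Lg (c := c)
  obtain ⟨z, g', hz, c4, e3⟩ := h _ _ (c1.trans ⟨_, hθ.X_mem, rfl⟩) c3
  have e4 : (a0 : Aut K) (e (th c.n)) = e (-th c.n) := by
    rw [← (rr_th hq hθ).2.1, a0, h7, LinearEquiv.mul_apply, LinearEquiv.mul_apply,
      rr_fix (root_a 6) (rt (by decide)) (by rw [ip_x]; decide),
      rr_fix (rt (by decide)) (rt (by decide)) (by rw [ip_x]; decide)]
  have e5 := congrArg (fun p : Aut K => co (th c.n) (p (e (-th c.n)))) e3
  simp only [LinearEquiv.mul_apply] at e5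
  rw [c4.triv t1 _ (e_mem hθ.neg.1.2), hz _ (e_mem hθ.neg.1.2), co_e_ne (neg_ne_self hθ.1.1).symm,
    ← e4, ← e2 _ (e_mem hθ.1.2), inv_app, inv_fix (X_e_nn hθ.1.1 hθ.1.1 (by rw [hθ.1.1]; decide) _),
    e1 _ (e_mem hθ.1.2), e4, X_m2 hq hθ.1.1] at e5
  simp [co_hv, co_e_self hθ.1.1, co_e_ne (neg_ne_self hθ.1.1).symm] at e5

end Cfg

end Pool.Agent.MP_db74b1_al.Exc
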