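import Pool.Agent.MP_db74b1_al.ExcQ7
import Pool.Agent.MP_db74b1_al.ExcQ8
import Pool.Agent.MP_db74b1_al.ExcBridge

set_option autoImplicit false

namespace Pool.Agent.MP_db74b1_al.Exc

variable {K : Type} [Field K]

noncomputable def Pj (θ : Lat) : En K := ad θ * ad (-θ) * br (hv θ)

theorem Pj_apply (θ : Lat) (v : L K) : Pj θ v = ad θ (ad (-θ) (br (hv θ) v)) := rfl

theorem Pj_conj {m : Aut K} (hm : m ∈ AutG K) {δ θ : Lat} (hδ : ip δ δ = 2) (hθ : ip θ θ = 2)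
    (h1 : m (e δ) = e θ) (h2 : m (e (-δ)) = e (-θ)) (v : L K) : m (Pj δ v) = Pj θ (m v) := by
  rw [Pj_apply, Pj_apply, ← br_e hδ, ← br_e (root_neg hδ), hm.1, hm.1, hm.1, h1, h2, br_e hθ,
    br_e (root_neg hθ), aut_hv hm hδ hθ (c := 1) (d := 1) (by rw [h1, one_smul])
    (by rw [h2, one_smul])]

theorem ip_range {α β : Lat} (hα : ip α α = 2) (hβ : ip β β = 2) :
    ip α β = -2 ∨ ip α β = -1 ∨ ip α β = 0 ∨ ip α β = 1 ∨ ip α β = 2 := by
  have h6 := ip_le_two hα hβ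
  have h7 := ip_le_two hα (root_neg hβ)
  rw [ip_neg_right] at h7
  omega

section
variable {θ : Lat} (hθ : ip θ θ = 2) (h2 : (2 : K) = 0)
include hθ h2

theorem Pj_spec (v : L K) :
    (Pj θ v).1 = 0 ∧ ∀ α, co α (Pj θ v) = if ip α θ = 1 then co α v else 0 := by
  induction v using L_ind with
  | hadd v w h1 h2 =>
    refine ⟨by simp [h1.1, h2.1], fun α => ?_⟩
    simp only [map_add, h1.2, h2.2]; split_ifs <;> simp
  | hsmul c v h1 =>
    refine ⟨by simp [h1.1], fun α => ?_⟩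
    simp only [map_smul, h1.2]; split_ifs <;> simp
  | h1 y => simp [Pj_apply, br_hv_hv, co_hv]
  | h2 β hβ =>
    have key : Pj θ (e β : L K) = if ip β θ = 1 then e β else 0 := by
      rw [Pj_apply, br_hv_e, map_smul, map_smul, ip_comm β]
      rcases ip_range hθ hβ with h | h | h | h | h
      · simp [h, h2]
      · simp [h, ad_e_nn (root_neg hθ) hβ (by rw [ip_neg_left]; omega)]
      · simp [h]
      · simp [h, (V1_e (K := K) (ip_comm θ β ▸ h)).AA hθ h2]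
      · simp [h, h2]
    rw [key]
    refine ⟨by split_ifs <;> rfl, fun α => ?_⟩
    by_cases h : α = β
    · rw [h]; split_ifs <;> simp
    · split_ifs <;> simp [co_e_ne h]

theorem Pj_V1 (v : L K) : V1 θ (Pj θ v) :=
  ⟨fun β h => by rw [(Pj_spec hθ h2 v).2, if_neg h], fun _ => (Pj_spec hθ h2 v).1⟩

theorem H_split (v : L K) : br (hv θ) v = Pj θ v + Pj (-θ) v := by
  refine L_eq ?_ fun β hβ => ?_
  · rw [Prod.fst_add, (Pj_spec hθ h2 v).1, (Pj_spec (root_neg hθ) h2 v).1, br_hv, add_zero]; rfl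
  · rw [co_br_hv, map_add, (Pj_spec hθ h2 v).2, (Pj_spec (root_neg hθ) h2 v).2, ip_neg_right,
      ip_comm β]
    rcases ip_range hθ hβ with h | h | h | h | h <;> simp [h, h2]
    linear_combination -co β v * h2

theorem psi (v : L K) : X (-θ) 1 (X θ 1 v) - X θ 1 (X (-θ) 1 v) = br (hv θ) v
    + gf (e θ + hv θ) v • (e (-θ) + hv θ) + gf (e (-θ) + hv θ) v • (e θ + hv θ) := by
  have j := jac_ee (root_neg hθ) hθ v
  have c1 := gf_ad hθ (e (-θ)) v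
  have c2 := gf_ad (root_neg hθ) (e θ) v
  rw [ad_e_m2' hθ] at j c2
  rw [ad_e_m2 hθ, gf_e (root_neg hθ), neg_neg, map_neg, LinearMap.neg_apply, neg_inj] at c1
  rw [gf_e hθ, ← neg_eq_iff_eq_neg] at c2
  simp only [X_apply hθ, X_apply (root_neg hθ), neg_neg, map_add, map_smul, ← c1, ← c2, ad_e_m2 hθ,
    ad_e_m2' hθ, co_e_self hθ, co_e_self (root_neg hθ), gf_e hθ, gf_e (root_neg hθ),
    LinearMap.add_apply, ← j, smul_eq_mul]
  linear_combination (norm := module) h2 • (-gf (hv θ) v • hv θ - co θ v • e θ)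

end

namespace Cfg

variable {c : Cfg K}

theorem Pj_mem (hq : c.Q2) {θ : Lat} (hθ : ip θ θ = 2) {v : L K} (hv : v ∈ c.V) : Pj θ v ∈ c.V :=
  ⟨fun j _ => by rw [(Pj_spec hθ hq.two v).1]; rfl, fun β hβ => by
    rw [(Pj_spec hθ hq.two v).2, hv.2 β hβ, ite_self]⟩

theorem TP (hq : c.Q2) {θ : Lat} (hθ : ip θ θ = 2) {g : Aut K} (hg : g ∈ c.G) :
    TW c.V (Pj θ * g.toLinearMap) =
      ∑ α : Root, if Sp c.n α.1 ∧ ip α.1 θ = 1 then co α.1 (g (e α.1)) else 0 := by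
  rw [TW_eq (f := Pj θ * g.toLinearMap) fun v hv => Pj_mem hq hθ (G_mem hg hv), Finset.sum_eq_zero (s := Finset.univ)
    (f := fun i : Fin 8 => _) fun i _ => by
      rw [Module.End.mul_apply, (Pj_spec hθ hq.two _).1]; simp, add_zero]
  refine Finset.sum_congr rfl fun α _ => ?_
  rw [Module.End.mul_apply, (Pj_spec hθ hq.two _).2, ite_and]; rfl

theorem TP_inv (hq : c.Q2) {θ : Lat} (hθ : ip θ θ = 2) {g : Aut K} (hg : g ∈ c.G) :
    TW c.V (Pj (-θ) * g.toLinearMap) = TW c.V (Pj θ * (g⁻¹).toLinearMap) := by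
  rw [TP hq (root_neg hθ) hg, TP hq hθ (inv_mem hg), ← negR.sum_comp]
  refine Finset.sum_congr rfl fun α _ => ?_
  change (if Sp c.n (-α.1) ∧ ip (-α.1) (-θ) = 1 then co (-α.1) (g (e (-α.1))) else 0) = _
  rw [← gf_e α.2, gf_inv (G_aut hg), gf_e_right (root_neg α.2), neg_neg, ip_neg_left, ip_neg_right,
    neg_neg]
  exact if_congr (and_congr_left' ⟨fun h => by simpa using h.neg, fun h => h.neg⟩) rfl rfl

theorem SC.Z (hq : c.Q2) (hn : c.NS) {a b : Aut K} (h : c.SC a b) (ha : c.Sp3 a) (h1 : ¬ c.QL a)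
    (hb : b ∈ c.G) (h2 : c.Triv (b * b)) {b' : Aut K} (hb' : c.Cj b b') :
    TW c.V (Pj (th c.n) * b'.toLinearMap) = 0 := by
  obtain ⟨l, hl, c1⟩ := step0 hq hn ha h1
  have hθ := th_Lg (c := c)
  have mb := hb'.mem hb
  have A := G_aut hl.1
  have e0 := (h.TI ha.1 hb c1 hθ.X_mem (XX hq.two _)).2 b' hb'
  have f0 : l (hv (th c.n)) = hv (th c.n) :=
    aut_hv A hθ.1.1 hθ.1.1 (c := 1) (d := 1) (by rw [hl.2.1, one_smul]) (by rw [hl.2.2, one_smul])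
  obtain ⟨p, hp⟩ : ∃ p : L K, p = e (th c.n) + hv (th c.n) := ⟨_, rfl⟩
  obtain ⟨p', hp'⟩ : ∃ p : L K, p = e (-th c.n) + hv (th c.n) := ⟨_, rfl⟩
  have f1 : l p = p := by rw [hp, map_add, hl.2.1, f0]
  have f2 : l p' = p' := by rw [hp', map_add, hl.2.2, f0]
  have m1 : p ∈ c.V := hp ▸ add_mem (e_mem hθ.1.2) (hv_mem hθ.1.2)
  have m2 : p' ∈ c.V := hp' ▸ add_mem (e_mem hθ.neg.1.2) (hv_mem hθ.1.2)
  have e1 : X (th c.n) 1 * (rr (th c.n) * l) * (X (th c.n) 1)⁻¹ =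
      X (-th c.n) 1 * X (th c.n) 1 * l := by
    have k := conj_X A hθ.1.1 hθ.1.1 (c := 1) (by rw [hl.2.1, one_smul]) 1
    rw [one_mul, mul_inv_eq_iff_eq_mul] at k
    rw [rr_eq hq.two, inv_eq_of_mul_eq_one_left (XX hq.two _), ← mul_assoc, ← mul_assoc, XX hq.two,
      one_mul, mul_assoc, k, mul_assoc]
  rw [Dop_eq (XX hq.two _), TW_congr (g := Pj (th c.n) * (l * b').toLinearMap +
    Pj (-th c.n) * (l * b').toLinearMap + (gf p ∘ₗ b'.toLinearMap).smulRight p' +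
    (gf p' ∘ₗ b'.toLinearMap).smulRight p) fun v _ => by
      change (X (th c.n) 1 * (rr (th c.n) * l) * (X (th c.n) 1)⁻¹ : Aut K) (b' v) -
        (rr (th c.n) * l : Aut K) (b' v) = Pj _ (l (b' v)) + Pj _ (l (b' v)) + gf p (b' v) • p' +
        gf p' (b' v) • p
      rw [e1, rr_eq hq.two]
      simp only [LinearEquiv.mul_apply]
      rw [psi hθ.1.1 hq.two, H_split hθ.1.1 hq.two, ← hp, ← hp', gf_inv A, gf_inv A, inv_fix f1,
        inv_fix f2], map_add, map_add, map_add, TW_rank _ m1, TW_rank _ m2,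
    TP_inv hq hθ.1.1 (mul_mem hl.1 mb)] at e0
  have e2 : gf p' (b' p) = gf p (b' p') := by
    rw [gf_inv (G_aut mb), Triv.inv_eq (hb'.sq h2) m2, gf_comm]
  have e3 : TW c.V (Pj (th c.n) * ((l * b')⁻¹).toLinearMap) =
      TW c.V ((l⁻¹).toLinearMap * (Pj (th c.n) * (b'⁻¹).toLinearMap)) := by
    rw [TW_comm (f := (l⁻¹).toLinearMap) (g := Pj (th c.n) * (b'⁻¹).toLinearMap) (fun v hv => G_mem (inv_mem hl.1) hv)
      fun v hv => Pj_mem hq hθ.1.1 (G_mem (inv_mem mb) hv), mul_inv_rev]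
    rfl
  simp only [LinearMap.comp_apply, LinearEquiv.coe_coe] at e0
  rw [e3, e2, add_assoc, ← two_mul, hq.two, zero_mul, add_zero, ← map_add] at e0
  refine (TW_congr fun v hv => ?_).trans e0
  change Pj _ (b' v) = Pj _ (l (b' v)) + l⁻¹ (Pj _ (b'⁻¹ v))
  rw [Triv.inv_eq (hb'.sq h2) hv, ← Pj_conj A hθ.1.1 hθ.1.1 hl.2.1 hl.2.2]
  have v1 := Pj_V1 hθ.1.1 hq.two (b' v)
  have v2 := Pj_mem hq hθ.1.1 (G_mem mb hv)
  generalize Pj (th c.n) (b' v) = x at *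
  have := S1 hq hn (ha.conj c1) hl (v1.aut hθ.1.1 hq.two (inv_mem A) (inv_fix hl.2.1)
    (inv_fix hl.2.2)) (G_mem (inv_mem hl.1) v2)
  rw [app_inv] at this
  rw [this, add_assoc, add_self2 hq.two, add_zero]

theorem Z_all (hq : c.Q2) {b : Aut K} (hb : b ∈ c.G)
    (h : ∀ b', c.Cj b b' → TW c.V (Pj (th c.n) * b'.toLinearMap) = 0) {δ : Lat} (hδ : c.Lg δ)
    {b' : Aut K} (hb' : c.Cj b b') : TW c.V (Pj δ * b'.toLinearMap) = 0 := by
  obtain ⟨m, w, hm, h1⟩ := to_th hδ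
  have h2 := TW_conj hm.inv.mem (hb'.mem hb) (φ := Pj (th c.n)) fun v hv => Pj_mem hq c.th_R.1 hv
  rw [h _ (hb'.trans ⟨_, inv_mem hm.inv.mem, rfl⟩)] at h2
  refine (TW_congr fun v _ => ?_).trans h2
  change Pj δ (b' v) = m⁻¹ (Pj _ (m⁻¹⁻¹ (b' v)))
  rw [inv_inv, ← Pj_conj hm.aut hδ.1.1 c.th_R.1 (by rw [hq.mon_e hm hδ, h1])
    (by rw [hq.mon_e hm hδ.neg, map_neg, h1]), inv_app]

theorem Lg_of (hb : c.b = false) {α : Lat} (h : c.R α) : c.Lg α := ⟨h, by rw [hb, sg_false]⟩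

theorem MP.u_fix (hq : c.Q2) (hb : c.b = false) {m u : Aut K} {w : W} (H : c.MP m w u)
    (h2 : c.Triv (m * u * (m * u))) {α : Lat} (hα : c.R α) : u (e α) = e α := by
  have hu := H.b1
  have hw := @H.hout_w
  generalize c.Jw w = J at hu hw
  have hA : ∀ β, (Sp c.n β ∧ 0 < hout J β) → ip β β = 2 → 1 ≤ houtL J β := fun β h _ => h.2
  have d1 := van_lin (houtL J) (hout J α) hA (van_e (β := α) (lt_irrefl _)) hu
  have o1 : hout J (w⁻¹ α) = -hout J α := by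
    have := hw (H.mon.inv.R hα).2
    rw [W_app_inv] at this; omega
  have o2 : ¬ hout J (w⁻¹ α) < -hout J α := by omega
  have d2 := van_lin (houtL J) (-hout J α) hA (van_e o2) (inv_mem hu)
  have e1 : (u⁻¹ (e (w⁻¹ α)) - e (w⁻¹ α)) + e (w⁻¹ α) - e (w α) = m (u (e α) - e α) := by
    rw [map_sub, hq.mon_e H.mon (Lg_of hb hα), sub_add_cancel, ← hq.mon_e H.mon.inv (Lg_of hb hα)]
    have := h2 _ (e_mem hα.2)
    simp only [LinearEquiv.mul_apply] at this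
    conv_lhs => rw [← this, inv_app, inv_app]
  have d3 : van (fun β => hout J β < -hout J α) (m (u (e α) - e α)) :=
    e1 ▸ ((d2.mono fun β h => le_of_lt h).add (van_e o2)).sub (van_e (by rw [houtL_apply, hw hα.2]; omega))
  have hV := sub_mem (G_mem (U_G H.mem) (e_mem hα.2)) (e_mem hα.2)
  rw [← sub_eq_zero]
  generalize u (e α) - e α = d at *
  refine L_eq ?_ fun β hβ => ?_
  · by_cases h : 0 ≤ hout J α
    · exact d1.2 (by simpa using h)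
    · have := H.mon.inv.fst_zero (d3.2 (by simp only [hout_zero]; omega))
      rwa [inv_app] at this
  rw [map_zero]
  by_cases h : Sp c.n β
  swap
  · exact hV.2 β h
  by_cases h1 : hout J β ≤ hout J α
  · exact d1.1 β h1
  have h3 := d3.1 (w β) (by simp only [hw h]; omega)
  have r : c.R β := ⟨hβ, h⟩
  rwa [← neg_neg (w β), ← gf_e (H.mon.R r).neg.1, ← map_neg, ← hq.mon_e H.mon (Lg_of hb r.neg),
    H.mon.aut.2, gf_e r.neg.1, neg_neg] at h3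

theorem MP.fix_iff (hb : c.b = false) {m u : Aut K} {w : W} (H : c.MP m w u) {α : Lat}
    (hα : c.R α) : w α = α ↔ hout (c.Jw w) α = 0 := by
  refine ⟨fun h => by have := H.hout_w hα.2; rw [h] at this; omega, fun h => ?_⟩
  refine lat_lin w.toLinearMap.toAddMonoidHom (AddMonoidHom.id _) α fun j hj =>
    H.w_fix ?_ (by rw [hb, pm_false])
  by_cases h0 : 0 ≤ α
  · exact hout_eq_zero h0 h.le hj
  · exact hout_eq_zero (neg_nonneg_of hα.1 h0) (by rw [hout_neg]; omega) (by simpa using hj)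

theorem MP.Z_contra (hq : c.Q2) (hn : c.n = 7) {m u : Aut K} {w : W} (H : c.MP m w u)
    (h2 : c.Triv (m * u * (m * u)))
    (hZ : ∀ δ, c.Lg δ → ∀ b', c.Cj (m * u) b' → TW c.V (Pj δ * b'.toLinearMap) = 0) :
    c.Triv (m * u) := by
  have hb := (b_of_7 hn).1
  have hG := mul_mem H.mon.mem (U_G H.mem)
  have he : ∀ α, c.R α → (m * u : Aut K) (e α) = e (w α) := fun α hα => by
    rw [LinearEquiv.mul_apply, H.u_fix hq hb h2 hα, hq.mon_e H.mon (Lg_of hb hα)]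
  have hJ : (⟨c.Jw w 0, c.Jw w 1, c.Jw w 2, c.Jw w 3, c.Jw w 4, c.Jw w 5, c.Jw w 6, false⟩ : B8) =
      B8.of (c.Jw w) := by rw [B8.of, J_out (c := c) (i := 7) (by rw [hn]; decide)]
  have hφ : ∀ (ν : V8) P, c.R ν.l → 0 < hout (c.Jw w) ν.l → allV (B8.of (c.Jw w)) ν P = true →
      ∃ v : V8, v.l = -w ν.l ∧ P v = true := fun ν P h1 h3 h4 => by
    obtain ⟨k1, k2, k3, _, k5⟩ := H.phi h1 h3
    exact allV_spec h4 k1.1 k2 (hn ▸ k1.2) k3 (hb ▸ k5)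
  have h := fin7 (c.Jw w 0) (c.Jw w 1) (c.Jw w 2) (c.Jw w 3) (c.Jw w 4) (c.Jw w 5) (c.Jw w 6)
  rw [hJ] at h
  rcases h with h | ⟨i, hi, h⟩ | ⟨ν, h1, h3, h4⟩ | ⟨h3, h4⟩
  · refine H.triv fun i hi => ?_
    rw [hn] at hi
    fin_cases i <;> simp_all
  · exfalso
    have h3 := hZ _ (Lg_of hb (R_a (hn ▸ hi))) _ (Cj.refl _)
    rw [TP hq (root_a i) hG, Finset.sum_congr rfl (g := fun α : Root => if Sp 7 α.1 ∧ cv α.1 i = 1 ∧
      houtB (B8.of (c.Jw w)) α.1 = 0 then (1 : K) else 0) fun α _ => ?_,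
      sum_root fun x => Sp 7 x ∧ cv x i = 1 ∧ houtB (B8.of (c.Jw w)) x = 0] at h3
    · obtain ⟨k, hk⟩ := Nat.odd_iff.2 h
      rw [cnt] at hk
      rw [hk] at h3
      push_cast at h3
      exact one_ne_zero (α := K) (by linear_combination h3 - k * hq.two)
    · rw [ip_a, ← hn]
      split_ifs with h4 h5 h5
      · rw [he _ ⟨α.2, h4.1⟩, (H.fix_iff hb ⟨α.2, h4.1⟩).2 h5.2.2, co_e_self α.2]
      · rw [he _ ⟨α.2, h4.1⟩,
          co_e_ne fun h6 => h5 ⟨h4.1, h4.2, (H.fix_iff hb ⟨α.2, h4.1⟩).1 h6.symm⟩]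
      · exact absurd ⟨h5.1, h5.2.1⟩ h4
      · rfl
  · obtain ⟨_, _, h5⟩ := hφ ν _ ⟨rt (witB_ok ν h1).1, hn ▸ (witB_ok ν h1).2⟩ h3 h4
    exact absurd h5 (by simp)
  exfalso
  have hθ := th_Lg (c := c)
  have ht : thV.l = th c.n := by rw [hn]; rfl
  rw [houtV_eq, ht] at h3
  obtain ⟨v, h5, h6⟩ := hφ thV _ (ht ▸ hθ.1)
    (by have := hout_nonneg (c.Jw w) c.th_nonneg; rw [ht]; omega) h4
  rw [eqV_iff, h5, ht, neg_eq_iff_eq_neg] at h6
  have k1 := hZ _ gam_Lg.1 _ (Cj.refl _)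
  have k2 := hZ _ gam_Lg.1 _ ⟨_, hθ.X_mem, rfl⟩
  rw [TP hq gam_Lg.1.1.1 hG] at k1
  rw [TP hq gam_Lg.1.1.1 (mul_mem (mul_mem hθ.X_mem hG) (inv_mem hθ.X_mem)),
    inv_eq_of_mul_eq_one_left (XX hq.two _)] at k2
  have k3 := sub_eq_zero.2 (k2.trans k1.symm)
  have i1 : ∀ α, ip (th c.n) (w α) = -ip (th c.n) α := fun α => by
    rw [← H.mon.iso (th c.n) α, h6, ip_neg_left, neg_neg]
  have i2 : ∀ α, c.R α → w α + th c.n ≠ α ∧ w α + -th c.n ≠ α := fun α hα => by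
    constructor <;> intro h <;> have := congrArg (houtL (c.Jw w)) h <;>
      simp only [map_add, houtL_apply, hout_neg, H.hout_w hα.2] at this <;> omega
  rw [← Finset.sum_sub_distrib, Finset.sum_eq_single ⟨_, hθ.1.1⟩ (fun α _ h7 => ?_) (by simp)] at k3
  · rw [if_pos ⟨hθ.1.2, by rw [ip_comm, gam_Lg.2]⟩, if_pos ⟨hθ.1.2, by rw [ip_comm, gam_Lg.2]⟩,
      LinearEquiv.mul_apply, LinearEquiv.mul_apply,
      X_e_nn hθ.1.1 hθ.1.1 (by rw [hθ.1.1]; decide), he _ hθ.1, h6, X_m2 hq hθ.1.1] at k3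
    simp [co_hv, co_e_self hθ.1.1] at k3
  split_ifs with h8
  swap
  · exact sub_self _
  have r : c.R α.1 := ⟨α.2, h8.1⟩
  have r' := H.mon.R r
  rw [LinearEquiv.mul_apply, LinearEquiv.mul_apply, he _ r]
  rcases ip_cases hθ.1.1 α.2 with h9 | h9 | h9
  · have := h8.2
    rw [h9, ip_neg_left, ip_comm, gam_Lg.2] at this; omega
  · have r2 : c.R (th c.n + α.1) := ⟨(root_add hθ.1.1 α.2).2 h9, hθ.1.2.add r.2⟩
    rw [X_e_m1 hθ.1.1 α.2 h9, hq.eps, mul_one, one_smul, map_add, he _ r, he _ r2, map_add,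
      X_e_nn hθ.1.1 r'.1 (by rw [i1]; omega), X_e_m1 hθ.1.1 (H.mon.R r2).1
      (by rw [i1, ip_add_right, hθ.1.1, h9]; rfl), hq.eps, mul_one, one_smul, map_add w, h6,
      add_neg_cancel_left, add_comm (-th c.n), map_add, map_add, co_e_ne (i2 _ r).2.symm]
    by_cases h : α.1 = w α.1
    · have := i1 α.1
      rw [← h] at this; omega
    · simp [co_e_ne h]
  · rw [X_e_nn hθ.1.1 α.2 h9, he _ r]
    have h10 := ip_le_one hθ.1.1 α.2 fun h => h7 (Subtype.ext h.symm)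
    by_cases h11 : ip (th c.n) α.1 = 0
    · rw [X_e_nn hθ.1.1 r'.1 (by rw [i1]; omega), sub_self]
    · rw [X_e_m1 hθ.1.1 r'.1 (by rw [i1]; omega), map_add, map_smul, add_comm (th c.n),
        co_e_ne (i2 _ r).1.symm]
      simp

theorem SC.sp_inv (hq : c.Q2) (hn : c.NS) {a b : Aut K} (h : c.SC a b) (ha : c.Sp3 a)
    (h1 : ¬ c.QL a) (hb : b ∈ c.G) (h2 : c.Triv (b * b)) : c.Triv b := by
  obtain ⟨p, hp, m, w, u, H, e⟩ := exists_MP hb
  have hc : c.Cj b (m * u) := ⟨p, hp, e⟩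
  exact hc.symm.triv (H.Z_contra hq (classify hq hn ha h1).1 (hc.sq h2) fun δ hδ b' hb' =>
    Z_all hq hb (fun _ => h.Z hq hn ha h1 hb h2) hδ (hc.trans hb'))

theorem triv_of_QL (hn : c.NS) {a : Aut K} (ha : a ∈ c.G) (hq : c.QL a) : c.Triv a := by
  obtain ⟨p, hp, m, w, u, H, e⟩ := exists_MP ha
  have hc : c.Cj a (m * u) := ⟨p, hp, e⟩
  exact hc.symm.triv ((H.long_struct (hc.QL hq)).resolve_right fun h => hn ⟨h.1, h.2.1⟩)

theorem main2 (hq : c.Q2) (hn : c.NS) {a b : Aut K} (ha : a ∈ c.G) (hb : b ∈ c.G) (h : c.SC a b) :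
    c.Triv a ∨ c.Triv b := by
  by_contra h0
  push Not at h0
  have h1 : ¬ c.QL a := fun h => h0.1 (triv_of_QL hn ha h)
  have h2 : ¬ c.QL b := fun h => h0.2 (triv_of_QL hn hb h)
  have z1 := (h.symm ha).BZ hq hn hb ha h2
  have z2 := h.BZ hq hn ha hb h1
  by_cases t1 : c.Triv (a * a) <;> by_cases t2 : c.Triv (b * b)
  · exact (h.inv_inv hq hn ha hb t1 t2).elim h1 h2
  · exact h0.1 ((h.symm ha).sp_inv hq hn ⟨hb, z2, t2⟩ h2 ha t1)
  · exact h0.2 (h.sp_inv hq hn ⟨ha, z1, t1⟩ h1 hb t2)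
  · exact h.sp_sp hq hn ⟨ha, z1, t1⟩ ⟨hb, z2, t2⟩ h1 h2

theorem final' (c : Cfg K) (hm : ∀ a ∈ c.G, ∀ b ∈ c.G, c.SC a b → c.Triv a ∨ c.Triv b)
    (x y z : c.G ⧸ Subgroup.center c.G) (hx : x ≠ 1) (hy : y ≠ 1) :
    {g | ∃ a b, IsConj x a ∧ IsConj y b ∧ g = a * b} ≠ {g | IsConj z g} := by
  intro hE
  obtain ⟨a, rfl⟩ := QuotientGroup.mk_surjective x
  obtain ⟨b, rfl⟩ := QuotientGroup.mk_surjective y
  obtain ⟨g, rfl⟩ := QuotientGroup.mk_surjective z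
  have hone : ∀ a : c.G, c.Triv a.1 → (a : c.G ⧸ Subgroup.center c.G) = 1 := fun a h =>
    (QuotientGroup.eq_one_iff _).2 (Subgroup.mem_center_iff.2 fun p =>
      Subtype.ext (h.comm a.2 p.2))
  refine (hm _ a.2 _ b.2 ⟨g.1, g.2, ?_⟩).elim (fun h => hx (hone a h))
    fun h => hy (hone b h)
  rintro _ _ ⟨p, hp, rfl⟩ ⟨q, hq, rfl⟩
  let P : c.G := ⟨p, hp⟩
  let Q : c.G := ⟨q, hq⟩
  have h1 : ((P * a * P⁻¹ * (Q * b * Q⁻¹) : c.G) : c.G ⧸ Subgroup.center c.G) ∈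
      {g' : c.G ⧸ Subgroup.center c.G | IsConj (g : c.G ⧸ Subgroup.center c.G) g'} := by
    rw [← hE]
    exact ⟨_, _, isConj_iff.2 ⟨(P : c.G ⧸ Subgroup.center c.G), rfl⟩,
      isConj_iff.2 ⟨(Q : c.G ⧸ Subgroup.center c.G), rfl⟩, rfl⟩
  obtain ⟨s, hs⟩ := isConj_iff.1 h1
  obtain ⟨S, rfl⟩ := QuotientGroup.mk_surjective s
  have h2 : (S * g * S⁻¹)⁻¹ * (P * a * P⁻¹ * (Q * b * Q⁻¹)) ∈ Subgroup.center c.G :=
    QuotientGroup.eq.1 hs
  have h3 := Subgroup.mem_center_iff.1 h2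
  refine ⟨_, (S * g * S⁻¹ : c.G), triv_of_central
    ((S * g * S⁻¹)⁻¹ * (P * a * P⁻¹ * (Q * b * Q⁻¹)) : c.G).2
    (fun t ht => congrArg Subtype.val (h3 ⟨t, ht⟩)), ⟨S, S.2, rfl⟩, ?_⟩
  have h4 := congrArg Subtype.val (h3 (S * g * S⁻¹))
  rw [mul_inv_cancel_left] at h4
  exact h4

theorem main3 (c : Cfg K) (hr : c.NS ∨ ∃ r : K, r ≠ 0 ∧ r ≠ 1) :
    ∀ a ∈ c.G, ∀ b ∈ c.G, c.SC a b → c.Triv a ∨ c.Triv b := fun a ha b hb h => by
  by_cases hq : c.Q2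
  · by_cases hn : c.NS
    · exact main2 hq hn ha hb h
    · obtain ⟨r, h0, h1⟩ := hr.resolve_left hn
      exact ((hq r ((not_not.1 hn).2 r)).elim h0 h1).elim
  · unfold Q2 at hq
    push Not at hq
    obtain ⟨r, h0, h1, h2⟩ := hq
    exact main ha hb h h0 h1 h2

end Cfg

theorem exceptional' (n : ℕ) (b : Bool) (τ : K →+* K)
    (h : (b = false ∧ τ = RingHom.id K ∧ (n = 6 ∨ n = 7 ∨ n = 8)) ∨
      (b = true ∧ n = 6 ∧ τ.comp τ = RingHom.id K))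
    (hr : b = true → τ = RingHom.id K → ∃ r : K, r ≠ 0 ∧ r ≠ 1) : AHZ (chevP n b τ) := by
  rw [← chevP_eq]
  refine AHZ_congr (Subgroup.equivMapOfInjective _ _ toP_inj)
    (Cfg.final' ⟨n, b, τ, h.imp (fun h => ⟨h.1, fun t => by rw [h.2.1]; rfl, h.2.2⟩)
      fun h => ⟨h.1, h.2.1, fun t => RingHom.congr_fun h.2.2 t⟩⟩ (Cfg.main3 _ ?_))
  by_cases h1 : b = true ∧ ∀ t, τ t = t
  · exact Or.inr (hr h1.1 (RingHom.ext h1.2))
  · exact Or.inl h1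

end Pool.Agent.MP_db74b1_al.Exc
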