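import Pool.Agent.MP_db74b1_al.ExcGood

set_option autoImplicit false

namespace Pool.Agent.MP_db74b1_al.Exc

variable {K : Type} [Field K]

abbrev En (K : Type) [Field K] : Type := Module.End K (L K)

noncomputable def prj (M : Submodule K (L K)) : L K →ₗ[K] M :=
  (M.subtype.exists_leftInverse_of_injective M.ker_subtype).choose

theorem prj_apply (M : Submodule K (L K)) {v : L K} (hv : v ∈ M) : (prj M v : L K) = v := by
  have := LinearMap.congr_fun (M.subtype.exists_leftInverse_of_injective M.ker_subtype).choose_spec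
    ⟨v, hv⟩
  exact congrArg Subtype.val this

noncomputable def TW (M : Submodule K (L K)) : En K →ₗ[K] K where
  toFun f := LinearMap.trace K M (prj M ∘ₗ f ∘ₗ M.subtype)
  map_add' f g := by rw [LinearMap.add_comp, LinearMap.comp_add, map_add]
  map_smul' r f := by rw [LinearMap.smul_comp, LinearMap.comp_smul, map_smul]; rfl

theorem TW_congr {M : Submodule K (L K)} {f g : En K} (h : ∀ v ∈ M, f v = g v) :
    TW M f = TW M g := by
  change LinearMap.trace K M _ = LinearMap.trace K M _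
  congr 1
  ext1 v
  simp [h v.1 v.2]

theorem TW_comm {M : Submodule K (L K)} {f g : En K} (hf : ∀ v ∈ M, f v ∈ M)
    (hg : ∀ v ∈ M, g v ∈ M) : TW M (f * g) = TW M (g * f) := by
  have key : ∀ f g : En K, (∀ v ∈ M, g v ∈ M) → prj M ∘ₗ (f * g) ∘ₗ M.subtype =
      (prj M ∘ₗ f ∘ₗ M.subtype) * (prj M ∘ₗ g ∘ₗ M.subtype) := fun f g hg => by
    ext1 v
    simp [prj_apply M (hg v.1 v.2)]
  change LinearMap.trace K M _ = LinearMap.trace K M _
  rw [key f g hg, key g f hf, LinearMap.trace_mul_comm]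

theorem TW_rank {M : Submodule K (L K)} (φ : L K →ₗ[K] K) {y : L K} (hy : y ∈ M) :
    TW M (φ.smulRight y) = φ y := by
  change LinearMap.trace K M _ = _
  have : prj M ∘ₗ φ.smulRight y ∘ₗ M.subtype = (φ ∘ₗ M.subtype).smulRight (prj M y) := by
    ext1 v; simp
  rw [this, LinearMap.trace_smulRight]
  simp [prj_apply M hy]

theorem step1_abs {M : Submodule K (L K)} (a b A1 A2 : En K) (p1 p2 : L K) (f1 f2 : L K →ₗ[K] K)
    (h1 : a p1 ∈ M) (h2 : a p2 ∈ M) {r k : K} (hr0 : r ≠ 0) (hr1 : r ≠ 1)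
    (h : ∀ s t, (s = 0 ∨ s = 1 ∨ s = r) → (t = 0 ∨ t = 1 ∨ t = r) →
      TW M (a * (1 + (s • A1 + t • A2) + (s • f1 + t • f2).smulRight (s • p1 + t • p2)) * b *
        (1 - (s • A1 + t • A2) + (s • f1 + t • f2).smulRight (s • p1 + t • p2))) = k) :
    f1 (a p1) * f2 (b p2) + (f1 (a p2) + f2 (a p1)) * (f1 (b p2) + f2 (b p1))
      + f2 (a p2) * f1 (b p1) = 0 := by
  let Φ : En K →ₗ[K] En K →ₗ[K] K := LinearMap.mk₂ K (fun x y => TW M (a * x * b * y))
    (fun x x' y => by simp [mul_add, add_mul]) (fun c x y => by simp)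
    (fun x y y' => by simp [mul_add]) (fun c x y => by simp)
  have hΦ : ∀ x y, TW M (a * x * b * y) = Φ x y := fun _ _ => rfl
  have hB : ∀ s t : K, (s • f1 + t • f2).smulRight (s • p1 + t • p2) = (s ^ 2) • f1.smulRight p1
      + (s * t) • (f1.smulRight p2 + f2.smulRight p1) + (t ^ 2) • f2.smulRight p2 := fun s t => by
    refine LinearMap.ext fun v => ?_
    simp only [LinearMap.smulRight_apply, LinearMap.add_apply, LinearMap.smul_apply, smul_eq_mul]
    module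
  have hr : ∀ (f f' : L K →ₗ[K] K) (p p' : L K), a p ∈ M →
      Φ (f.smulRight p) (f'.smulRight p') = f (b p') * f' (a p) := fun f f' p p' hp => by
    rw [← hΦ, show a * f.smulRight p * b * f'.smulRight p' = f'.smulRight (f (b p') • a p) by
      refine LinearMap.ext fun v => ?_; simp [smul_smul], TW_rank _ (M.smul_mem _ hp)]
    simp
  have hc : Φ (f1.smulRight p1) (f2.smulRight p2) + Φ (f1.smulRight p2 + f2.smulRight p1)
      (f1.smulRight p2 + f2.smulRight p1) + Φ (f2.smulRight p2) (f1.smulRight p1) = 0 := by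
    simp only [hΦ, hB] at h
    generalize f1.smulRight p2 + f2.smulRight p1 = B12 at *
    generalize f1.smulRight p1 = B11 at *
    generalize f2.smulRight p2 = B22 at *
    simp only [map_add, map_sub, map_smul, LinearMap.add_apply, LinearMap.smul_apply,
      smul_eq_mul] at h
    have e00 := h 0 0 (by simp) (by simp)
    have e01 := h 0 1 (by simp) (by simp)
    have e02 := h 0 r (by simp) (by simp)
    have e10 := h 1 0 (by simp) (by simp)
    have e11 := h 1 1 (by simp) (by simp)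
    have e12 := h 1 r (by simp) (by simp)
    have e20 := h r 0 (by simp) (by simp)
    have e21 := h r 1 (by simp) (by simp)
    have e22 := h r r (by simp) (by simp)
    have hr2 : (r ^ 2 - r) ^ 2 ≠ 0 := pow_ne_zero _ (by
      rw [show r ^ 2 - r = r * (r - 1) by ring]; exact mul_ne_zero hr0 (sub_ne_zero.2 hr1))
    apply mul_left_cancel₀ hr2
    linear_combination (r - 1) * ((r - 1) * e00 - r * e01 + e02) - r * ((r - 1) * e10 - r * e11 + e12)
      + ((r - 1) * e20 - r * e21 + e22)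
  simp only [map_add, LinearMap.add_apply, hr _ _ _ _ h1, hr _ _ _ _ h2] at hc
  linear_combination hc

theorem k0_fix : ∀ x ∈ posL, Sp 6 x → ipx k0 x * ipx (sg true k0) x = 1 → ∀ i, sg true x i = x i := by
  decide +kernel

namespace Cfg

variable (c : Cfg K)

/-- The product of the classes of `a` and `b` lies in one class, up to the centre. -/
def SC (a b : Aut K) : Prop := ∃ g ∈ c.G, ∀ a' b', c.Cj a a' → c.Cj b b' →
  ∃ z g', c.Triv z ∧ c.Cj g g' ∧ a' * b' = z * g'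

variable {c}

theorem SC.trace {a b : Aut K} (h : c.SC a b) {M : Submodule K (L K)} (hM : M ≤ c.V)
    (hG : ∀ g ∈ c.G, ∀ v ∈ M, g v ∈ M) :
    ∃ k, ∀ a' b', c.Cj a a' → c.Cj b b' → TW M (a' * b' : Aut K) = k := by
  obtain ⟨g, hg, h⟩ := h
  refine ⟨TW M g, fun a' b' ha hb => ?_⟩
  obtain ⟨z, _, hz, ⟨p, hp, rfl⟩, e⟩ := h a' b' ha hb
  have h1 := mul_mem (mul_mem hp hg) (inv_mem hp)
  rw [e, TW_congr (g := ((p * g).toLinearMap * (p⁻¹).toLinearMap : En K))
    fun v hv => hz _ (hM (hG _ h1 v hv)),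
    TW_comm (hG _ (mul_mem hp hg)) (hG _ (inv_mem hp))]
  exact TW_congr fun v _ => by simp

theorem step1 {a b : Aut K} (ha : a ∈ c.G) (hb : b ∈ c.G) (h : c.SC a b) {r : K} (hr : c.τ r = r)
    (hr0 : r ≠ 0) (hr1 : r ≠ 1) {M : Submodule K (L K)} (hM : M ≤ c.V)
    (hG : ∀ g ∈ c.G, ∀ v ∈ M, g v ∈ M) (D : En K) (A : L K →ₗ[K] En K) {e1 e2 : L K}
    (he1 : e1 ∈ c.V) (he2 : e2 ∈ c.V) (hD : ∀ v ∈ c.V, D v ∈ M)
    (hDG : ∀ g ∈ c.G, ∀ v ∈ c.V, g (D v) = D (g v))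
    (hU : ∀ s t, c.τ s = s → c.τ t = t → ∃ U ∈ c.G, ∀ m ∈ M,
      U m = m + A (s • e1 + t • e2) m + gf (s • e1 + t • e2) m • D (s • e1 + t • e2) ∧
      U⁻¹ m = m - A (s • e1 + t • e2) m + gf (s • e1 + t • e2) m • D (s • e1 + t • e2))
    (hS : ∀ t, c.τ t = t → ∃ p ∈ c.G, p e1 = e1 + t • e2 ∧ p e2 = e2) :
    (∀ a', c.Cj a a' → gf e2 (a' (D e2)) = 0) ∨ ∀ b', c.Cj b b' → gf e2 (b' (D e2)) = 0 := by
  obtain ⟨k, hk⟩ := h.trace hM hG
  have hF : ∀ s, (s = 0 ∨ s = 1 ∨ s = r) → c.τ s = s := by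
    rintro s (rfl | rfl | rfl) <;> simp [hr]
  have key : ∀ a' b', c.Cj a a' → c.Cj b b' →
      gf e1 (a' (D e1)) * gf e2 (b' (D e2)) + (gf e1 (a' (D e2)) + gf e2 (a' (D e1))) *
        (gf e1 (b' (D e2)) + gf e2 (b' (D e1))) + gf e2 (a' (D e2)) * gf e1 (b' (D e1)) = 0 := by
    intro a' b' ha' hb'
    refine step1_abs (M := M) (a' : En K) (b' : En K) (A e1) (A e2) (D e1) (D e2) (gf e1) (gf e2)
      (hG _ (ha'.mem ha) _ (hD _ he1)) (hG _ (ha'.mem ha) _ (hD _ he2)) hr0 hr1 (k := k)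
      fun s t hs ht => ?_
    obtain ⟨U, hU1, hU2⟩ := hU s t (hF s hs) (hF t ht)
    rw [← hk a' _ ha' (hb'.trans ⟨U, hU1, rfl⟩)]
    refine TW_congr fun m hm => ?_
    have h1 := hG _ (inv_mem hU1) m hm
    have h2 := (hU2 _ (hG _ (hb'.mem hb) _ h1)).1
    have h3 := (hU2 m hm).2
    simp only [map_add, map_smul] at h2 h3
    change a' _ = a' (U (b' (U⁻¹ m)))
    rw [h2, h3]
    simp
  by_contra hc
  push Not at hc
  obtain ⟨⟨a', ha', h1⟩, b', hb', h2⟩ := hc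
  have k2 : ∀ t, (t = 0 ∨ t = 1 ∨ t = r) →
      gf e1 (a' (D e1)) * gf e2 (b' (D e2)) + (gf e1 (a' (D e2)) + gf e2 (a' (D e1))) *
        (gf e1 (b' (D e2)) + gf e2 (b' (D e1)) + 2 * t * gf e2 (b' (D e2))) + gf e2 (a' (D e2)) *
        (gf e1 (b' (D e1)) + t * (gf e1 (b' (D e2)) + gf e2 (b' (D e1)))
          + t ^ 2 * gf e2 (b' (D e2))) = 0 := by
    intro t ht
    obtain ⟨p, hp, h3, h4⟩ := hS t (hF t ht)
    have h5 := key a' _ ha' (hb'.trans ⟨p⁻¹, inv_mem hp, rfl⟩)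
    simp only [inv_inv, LinearEquiv.mul_apply, gf_inv (G_aut (inv_mem hp)), hDG p hp _ he1,
      hDG p hp _ he2, h3, h4, map_add, map_smul, LinearMap.add_apply, LinearMap.smul_apply,
      smul_eq_mul] at h5
    linear_combination h5
  have hr2 : r ^ 2 - r ≠ 0 := by
    rw [show r ^ 2 - r = r * (r - 1) by ring]; exact mul_ne_zero hr0 (sub_ne_zero.2 hr1)
  apply mul_ne_zero hr2 (mul_ne_zero h1 h2)
  linear_combination (r - 1) * k2 0 (by simp) - r * k2 1 (by simp) + k2 r (by simp)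

theorem polar : ∃ k : Fin 8, k.1 < c.n ∧ pm c.b k = k ∧ cv (th c.n) k = 1 := by
  rcases c.ok with ⟨hb, _, h | h | h⟩ | ⟨hb, h, _⟩ <;> rw [h, hb] <;> decide

theorem SC.long {a b : Aut K} (ha : a ∈ c.G) (hb : b ∈ c.G) (h : c.SC a b) {r : K}
    (hr : c.τ r = r) (hr0 : r ≠ 0) (hr1 : r ≠ 1) : c.QL a ∨ c.QL b := by
  obtain ⟨k, hk, h1, h2⟩ := polar (c := c)
  have hθ := c.th_R
  rw [← ip_a] at h2
  have hμ : c.R (th c.n - Exc.a k) := ⟨(root_sub hθ.1 (root_a k)).2 h2, hθ.2.sub (Sp_a hk)⟩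
  have hs : sg c.b (Exc.a k) = Exc.a k := by rw [sg_a, h1]
  have hμs : sg c.b (th c.n - Exc.a k) = th c.n - Exc.a k := by rw [sg_sub, c.th_sg, hs]
  have h3 : ip (th c.n - Exc.a k) (th c.n) = 1 := by rw [ip_sub_left, hθ.1, ip_comm, h2]; rfl
  have hQ : ∀ g ∈ c.G, (∀ g', c.Cj g g' → gf (e (th c.n)) (g' (e (th c.n))) = 0) → c.QL g := by
    rintro g _ hg _ ⟨p, hp, s, rfl⟩
    have := hg _ ⟨p⁻¹, inv_mem hp, rfl⟩
    rw [inv_inv, LinearEquiv.mul_apply, LinearEquiv.mul_apply, gf_inv (G_aut (inv_mem hp)),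
      inv_inv] at this
    simp [this]
  refine (step1 ha hb h hr hr0 hr1 le_rfl (fun g hg v hv => G_mem hg hv) LinearMap.id br
    (e_mem hμ.2) (e_mem hθ.2) (fun v hv => hv) (fun _ _ _ _ => rfl) (fun s t hs' ht => ?_)
    fun t ht => ?_).imp (hQ a ha) (hQ b hb)
  · refine ⟨X _ s * X _ t, mul_mem (Y_fix hμs s ▸ Y_mem hμ (Al_fix hs' _)) (X_th_mem ht),
      fun m _ => ⟨(ex_collinear hμ.1 hθ.1 h3 s t m).symm, ?_⟩⟩
    rw [mul_inv_rev, X_inv, X_inv, ← X_comm hμ.1 hθ.1 (by omega), ← ex_collinear hμ.1 hθ.1 h3,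
      ex, neg_smul, neg_smul, ← neg_add]
    generalize s • (e (th c.n - Exc.a k) : L K) + t • e (th c.n) = x
    simp [sub_eq_add_neg]
  · have h4 : ip (Exc.a k) (th c.n - Exc.a k) = -1 := by
      rw [ip_sub_right, ip_comm, h2, root_a]; rfl
    refine ⟨X (Exc.a k) (t * eps (Exc.a k) (th c.n - Exc.a k)),
      Y_fix hs _ ▸ Y_mem (R_a hk) (Al_fix (by simp [ht]) _), ?_,
      X_e_nn (root_a k) hθ.1 (by rw [ip_comm]; omega) _⟩
    rw [X_e_m1 (root_a k) hμ.1 h4, mul_assoc, eps_cast_mul_self, mul_one, add_sub_cancel]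

/-- The linear version of `st` when the field automorphism is trivial. -/
def stl (hτ : ∀ t, c.τ t = t) : En K where
  toFun := c.st
  map_add' := map_add _
  map_smul' r v := by rw [map_smulₛₗ, hτ]; rfl

theorem stl_apply (hτ : ∀ t, c.τ t = t) (v : L K) : stl hτ v = c.st v := rfl

theorem k0_mov (hb : c.b = true) : sg c.b k0 ≠ k0 := by rw [hb]; decide

theorem ad_ad_M (hb : c.b = true) (hτ : ∀ t, c.τ t = t) {v : L K} (hv' : v ∈ c.V) :
    ad k0 (ad (sg c.b k0) (v - c.st v)) = 0 := by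
  have hk := k0_R hb
  have h0 := hk.orth (k0_mov hb)
  have key : ∀ β, c.R β → sg c.b β ≠ β → ad k0 (ad (sg c.b k0) (e β : L K)) = 0 := by
    intro β hβ hm
    rcases ip_cases hk.sg.1 hβ.1 with rfl | h | h
    · rw [ad_e_m2 hk.sg.1, map_neg, ad_hv, ip_comm, h0]; simp
    · rw [ad_e_m1 hk.sg.1 hβ.1 h, map_smul, ad_e_nn hk.1 ((root_add hk.sg.1 hβ.1).2 h), smul_zero]
      rw [ip_add_right, h0, zero_add]
      rcases ip_cases hk.1 hβ.1 with rfl | h1 | h1
      · rw [ip_neg_right, ip_comm, h0] at h; omega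
      · exfalso
        have hs := hβ.2
        rw [n6_of_b hb] at hs
        rw [hb] at h hm
        by_cases h2 : 0 ≤ β
        · exact hm (funext (k0_fix β (mem_posL hβ.1 h2) hs (by rw [← ip_x, ← ip_x, h, h1]; rfl)))
        · exact hm (neg_inj.1 (funext (k0_fix (-β) (mem_posL hβ.neg.1 (neg_nonneg_of hβ.1 h2))
            hs.neg (by rw [← ip_x, ← ip_x, ip_neg_right, ip_neg_right, h, h1]; rfl))))
      · exact h1
    · rw [ad_e_nn hk.sg.1 hβ.1 h, map_zero]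
  refine V_ind (P := fun v => ad k0 (ad (sg c.b k0) (v - c.st v)) = 0) (fun v w _ _ h1 h2 => ?_)
    (fun r v _ h1 => ?_) (fun i _ => ?_) (fun β hβ => ?_) hv'
  · rw [map_add, add_sub_add_comm, map_add, map_add, h1, h2, add_zero]
  · rw [map_smulₛₗ, hτ, ← smul_sub, map_smul, map_smul, h1, smul_zero]
  · rw [st_hv, ← hv_sub, ad_hv, map_smul, ad_e_nn hk.1 hk.sg.1 h0.ge, smul_zero]
  · rw [st_e hβ.2]
    by_cases h : sg c.b β = β
    · simp [h]
    · rw [map_sub, map_sub, key β hβ h, key _ hβ.sg (by rw [sg_sg]; exact Ne.symm h), sub_zero]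

theorem Y_k0_M (hb : c.b = true) (hτ : ∀ t, c.τ t = t) (r : K) {v : L K} (hv' : v ∈ c.V) :
    c.Y k0 r (v - c.st v) = v - c.st v + br (r • e k0 + c.st (r • e k0)) (v - c.st v)
      + gf (r • e k0) (v - c.st v) • (r • e k0 - c.st (r • e k0)) := by
  have hk := k0_R hb
  have h0 := hk.orth (k0_mov hb)
  have hne : -k0 ≠ sg c.b k0 := by rw [hb]; decide
  have h1 : ∀ m : L K, co (-k0) (ad (sg c.b k0) m) = 0 := fun m => by
    rw [co_ad, if_neg hne, co_of_not (β := -k0 - sg c.b k0), mul_zero, ite_self]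
    rw [norm_sub, norm_neg, ip_neg_left, h0, hk.1, hk.sg.1]; decide
  have h2 : co (-sg c.b k0) (v - c.st v) = -co (-k0) (v - c.st v) := by
    have e1 := co_st hk.neg v
    have e2 := co_st hk.neg.sg v
    rw [sg_sg, hτ] at e2
    rw [hτ] at e1
    rw [← sg_neg, map_sub, map_sub, e1, e2]; ring
  have h3 := ad_ad_M hb hτ hv'
  generalize v - c.st v = m at *
  rw [Y_mov (k0_mov hb), hτ, LinearEquiv.mul_apply, X_apply hk.1, X_apply hk.sg.1, map_smulₛₗ, hτ,
    st_e hk.2]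
  simp only [map_add, map_smul, h1, h2, h3, ad_e_nn hk.1 hk.sg.1 h0.ge, co_e_ne hne,
    LinearMap.add_apply, LinearMap.smul_apply, br_e hk.1, br_e hk.sg.1, gf_e hk.1, smul_eq_mul]
  module

theorem SC.short {a b : Aut K} (ha : a ∈ c.G) (hb' : b ∈ c.G) (h : c.SC a b) (hb : c.b = true)
    (hτ : ∀ t, c.τ t = t) {r : K} (hr0 : r ≠ 0) (hr1 : r ≠ 1) : c.QS a ∨ c.QS b := by
  have hk := k0_R hb
  have hn := n6_of_b hb
  have h5 : (5 : Fin 8).1 < c.n := by rw [hn]; decide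
  have hμ : c.R (k0 - Exc.a 5) := by rw [R, hn, ip_x]; decide
  have hm5 : sg c.b (Exc.a 5) ≠ Exc.a 5 := by rw [hb]; decide
  have hs5 : sg c.b (Exc.a 5) = Exc.a 0 := by rw [hb]; decide
  have hQ : ∀ g ∈ c.G, (∀ g', c.Cj g g' → gf (e k0) (g' ((1 - stl hτ) (e k0))) = 0) → c.QS g := by
    rintro g _ hg _ ⟨p, hp, s, rfl⟩
    have := hg _ ⟨p⁻¹, inv_mem hp, rfl⟩
    rw [inv_inv, LinearEquiv.mul_apply, LinearEquiv.mul_apply, gf_inv (G_aut (inv_mem hp)),
      inv_inv] at this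
    rw [map_smulₛₗ c.st, hτ, G_st hp (e_mem hk.2), ← smul_sub, ← map_sub]
    change gf _ (g (p (e k0 - c.st (e k0)))) = 0 at this
    simp only [map_smul, this, LinearMap.smul_apply, smul_zero]
  have hDG : ∀ g ∈ c.G, ∀ v ∈ c.V, g ((1 - stl hτ) v) = (1 - stl hτ) (g v) := fun g hg v hv => by
    change g (v - c.st v) = g v - c.st (g v)
    rw [map_sub, G_st hg hv]
  refine (step1 ha hb' h (hτ r) hr0 hr1 (M := c.V.map (1 - stl hτ)) ?_ ?_ (1 - stl hτ)
    (br ∘ₗ (1 + stl hτ)) (e_mem hμ.2) (e_mem hk.2) (fun v hv => ⟨v, hv, rfl⟩) hDG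
    (fun s t _ _ => ?_) fun t _ => ?_).imp (hQ a ha) (hQ b hb')
  · rintro _ ⟨v, hv, rfl⟩
    exact sub_mem hv (st_mem hv)
  · rintro g hg _ ⟨v, hv, rfl⟩
    exact ⟨g v, G_mem hg hv, (hDG g hg v hv).symm⟩
  · have ho : c.Orb k0 (s • e (k0 - Exc.a 5) + t • e k0) := by
      by_cases ht : t = 0
      · rw [ht, zero_smul, add_zero]
        exact (orb_short hb hμ (by rw [hb]; decide)).smul s
      · refine ⟨c.Y (-Exc.a 5) (s / t * eps (-Exc.a 5) k0), Y_mem (R_a h5).neg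
          (Al_fix (hτ _) _), t, ?_⟩
        rw [Y_mov (by rw [hb]; decide), LinearEquiv.mul_apply, X_e_nn (R_a h5).neg.sg.1 hk.1
          (by rw [hb, ip_x]; decide), X_e_m1 (R_a h5).neg.1 hk.1 (by rw [ip_x]; decide),
          mul_assoc, eps_cast_mul_self, neg_add_eq_sub, smul_add, smul_smul, add_comm]
        congr 2; field_simp
    obtain ⟨p, hp, q, e1⟩ := ho
    rw [e1]
    have key : ∀ q : K, ∀ m ∈ c.V.map (1 - stl hτ), (p * c.Y k0 q * p⁻¹) m =
        m + br (q • p (e k0) + c.st (q • p (e k0))) m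
          + gf (q • p (e k0)) m • (q • p (e k0) - c.st (q • p (e k0))) := by
      rintro q _ ⟨v, hv, rfl⟩
      have hq := c.V.smul_mem q (e_mem hk.2)
      rw [LinearEquiv.mul_apply, LinearEquiv.mul_apply, hDG _ (inv_mem hp) v hv]
      change p (c.Y k0 q (p⁻¹ v - c.st (p⁻¹ v))) = _
      have aux : ∀ x ∈ c.V, ∀ m, p (m + br (x + c.st x) m + gf x m • (x - c.st x)) =
          p m + br (p x + c.st (p x)) (p m) + gf (p x) (p m) • (p x - c.st (p x)) := fun x hx m => by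
        rw [map_add p, map_add p, map_smul p, map_sub p, (G_aut hp).1, (G_aut hp).2, map_add p,
          G_st hp hx]
      rw [Y_k0_M hb hτ q (G_mem (inv_mem hp) hv), aux _ hq, G_st (inv_mem hp) hv, ← map_sub p⁻¹,
        app_inv, map_smul p]
      rfl
    refine ⟨p * c.Y k0 q * p⁻¹, mul_mem (mul_mem hp (Y_mem hk (Al_fix (hτ _) _))) (inv_mem hp),
      fun m hm => ⟨key q m hm, ?_⟩⟩
    rw [show (p * c.Y k0 q * p⁻¹)⁻¹ = p * (c.Y k0 q)⁻¹ * p⁻¹ by group, Y_inv hk, key _ m hm]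
    simp [stl_apply, hτ]
    module
  · refine ⟨c.Y (Exc.a 5) (t * eps (Exc.a 5) (k0 - Exc.a 5)), Y_mem (R_a h5) (Al_fix (hτ _) _),
      ?_, ?_⟩ <;> rw [Y_mov hm5, hs5, LinearEquiv.mul_apply]
    · rw [X_e_nn (root_a 0) hμ.1 (by rw [ip_x]; decide), X_e_m1 (root_a 5) hμ.1
        (by rw [ip_x]; decide), mul_assoc, eps_cast_mul_self, mul_one, add_sub_cancel]
    · rw [X_e_nn (root_a 0) hk.1 (by rw [ip_x]; decide), X_e_nn (root_a 5) hk.1
        (by rw [ip_x]; decide)]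

end Cfg

end Pool.Agent.MP_db74b1_al.Exc
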