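import Pool.Agent.MP_db74b1_al.ExcMon

set_option autoImplicit false

namespace Pool.Agent.MP_db74b1_al.Exc

variable {K : Type} [Field K]

def Ucl (K : Type) [Field K] (A : Lat → Prop) : Subgroup (Aut K) :=
  Subgroup.closure {g | ∃ β t, A β ∧ ip β β = 2 ∧ g = X β t}

theorem X_mem_Ucl {A : Lat → Prop} {β : Lat} (h : A β) (t : K) : X β t ∈ Ucl K A := by
  by_cases hβ : ip β β = 2
  · exact Subgroup.subset_closure ⟨β, t, h, hβ, rfl⟩
  · simp [X, hβ]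

theorem Ucl_le {A : Lat → Prop} {H : Subgroup (Aut K)}
    (h : ∀ β t, A β → ip β β = 2 → X β t ∈ H) : Ucl K A ≤ H :=
  (Subgroup.closure_le _).2 fun g hg => by
    obtain ⟨β, t, h1, h2, rfl⟩ := hg
    exact h β t h1 h2

theorem Ucl_mono {A B : Lat → Prop} (h : ∀ β, ip β β = 2 → A β → B β) : Ucl K A ≤ Ucl K B :=
  Ucl_le fun β t h1 h2 => X_mem_Ucl (h β h2 h1) t

theorem Ucl_aut {A : Lat → Prop} {u : Aut K} (hu : u ∈ Ucl K A) : u ∈ AutG K :=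
  Ucl_le (fun β t _ _ => X_aut β t) hu

theorem Ucl_induction {A : Lat → Prop} {p : Aut K → Prop} (h1 : p 1)
    (h : ∀ β t g, A β → ip β β = 2 → g ∈ Ucl K A → p g → p (X β t * g)) {g : Aut K}
    (hg : g ∈ Ucl K A) : p g := by
  induction hg using Subgroup.closure_induction_left with
  | one => exact h1
  | mul_left x hx y hy' hy =>
    obtain ⟨α, t, h2, h3, rfl⟩ := hx
    exact h α t y h2 h3 hy' hy
  | inv_mul_cancel x hx y hy' hy =>
    obtain ⟨α, t, h2, h3, rfl⟩ := hx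
    rw [X_inv]; exact h α _ y h2 h3 hy' hy

theorem Ucl_conj {A B : Lat → Prop} {g : Aut K}
    (h : ∀ β t, A β → ip β β = 2 → g * X β t * g⁻¹ ∈ Ucl K B) {u : Aut K} (hu : u ∈ Ucl K A) :
    g * u * g⁻¹ ∈ Ucl K B := by
  refine Ucl_induction (p := fun u => g * u * g⁻¹ ∈ Ucl K B) (by simp) (fun β t u h1 h2 _ h3 => ?_) hu
  have := mul_mem (h β t h1 h2) h3
  rwa [show g * X β t * g⁻¹ * (g * u * g⁻¹) = g * (X β t * u) * g⁻¹ by group] at this

theorem Ucl_conj_X {A : Lat → Prop} {ζ : Lat} (hζ : ip ζ ζ = 2)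
    (h : ∀ β, A β → ip β β = 2 → β ≠ -ζ ∧ (ip ζ β = -1 → A (ζ + β))) (s : K) {u : Aut K}
    (hu : u ∈ Ucl K A) : X ζ s * u * (X ζ s)⁻¹ ∈ Ucl K A := by
  refine Ucl_conj (fun β t h1 h2 => ?_) hu
  rcases ip_cases hζ h2 with h3 | h3 | h3
  · exact absurd h3 (h β h1 h2).1
  · rw [X_conj_m1 hζ h2 h3]
    exact mul_mem (X_mem_Ucl h1 _) (X_mem_Ucl ((h β h1 h2).2 h3) _)
  · rw [X_comm hζ h2 h3, mul_inv_cancel_right]; exact X_mem_Ucl h1 _

theorem peel {A B : Lat → Prop} {ζ : Lat} (hζ : ip ζ ζ = 2)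
    (hB : ∀ β, B β → ip β β = 2 → A β ∨ β = ζ)
    (h : ∀ β, A β → ip β β = 2 → β ≠ -ζ ∧ (ip ζ β = -1 → A (ζ + β))) {u : Aut K}
    (hu : u ∈ Ucl K B) : ∃ s, ∃ u' ∈ Ucl K A, u = X ζ s * u' := by
  refine Ucl_induction (p := fun u => ∃ s, ∃ u' ∈ Ucl K A, u = X ζ s * u')
    ⟨0, 1, one_mem _, by simp [X_zero]⟩ (fun β t u h1 h2 _ ⟨s, u', h3, h4⟩ => ?_) hu
  rcases hB β h1 h2 with h5 | rfl
  · refine ⟨s, _, mul_mem (Ucl_conj_X hζ h (-s) (X_mem_Ucl h5 t)) h3, ?_⟩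
    rw [h4, ← X_inv]; group
  · exact ⟨t + s, u', h3, by rw [h4, ← X_add, mul_assoc]⟩

/-- vanishing of coefficients on a set of weights -/
def van (Z : Lat → Prop) (v : L K) : Prop := (∀ β, Z β → co β v = 0) ∧ (Z 0 → v.1 = 0)

theorem van.add {Z : Lat → Prop} {v w : L K} (hv : van Z v) (hw : van Z w) : van Z (v + w) :=
  ⟨fun β h => by rw [map_add, hv.1 β h, hw.1 β h, add_zero],
    fun h => by rw [Prod.fst_add, hv.2 h, hw.2 h, add_zero]⟩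

theorem van.smul {Z : Lat → Prop} {v : L K} (hv : van Z v) (r : K) : van Z (r • v) :=
  ⟨fun β h => by rw [map_smul, hv.1 β h, smul_zero],
    fun h => by rw [Prod.smul_fst, hv.2 h, smul_zero]⟩

theorem van.neg {Z : Lat → Prop} {v : L K} (hv : van Z v) : van Z (-v) := by
  simpa using hv.smul (-1)

theorem van.sub {Z : Lat → Prop} {v w : L K} (hv : van Z v) (hw : van Z w) : van Z (v - w) := by
  rw [sub_eq_add_neg]; exact hv.add hw.neg

theorem van.mono {Z Z' : Lat → Prop} {v : L K} (hv : van Z v) (h : ∀ β, Z' β → Z β) : van Z' v :=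
  ⟨fun β h' => hv.1 β (h β h'), fun h' => hv.2 (h _ h')⟩

theorem van_e {Z : Lat → Prop} {β : Lat} (h : ¬ Z β) : van Z (e β : L K) :=
  ⟨fun _ h' => co_e_ne fun h2 => h (h2 ▸ h'), fun _ => rfl⟩

theorem van_hv {Z : Lat → Prop} (h : ¬ Z 0) (y : Lat) : van Z (hv y : L K) :=
  ⟨fun _ _ => co_hv _ _, fun h' => absurd h' h⟩

theorem van_X {Z Z' : Lat → Prop} {α : Lat} (hα : ip α α = 2) (hZ : ∀ β, Z' β → Z β)
    (h : ∀ β, Z β → Z' (β - α)) (t : K) {v : L K} (hv : van Z' v) : van Z (X α t v - v) := by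
  rw [X_apply hα, add_assoc, add_sub_cancel_left]
  refine ⟨fun β hβ => ?_, fun h0 => ?_⟩
  · rw [map_add, map_smul, map_smul, co_ad, hv.1 _ (h β hβ), co_e]
    by_cases h1 : β = α
    · subst h1
      have h2 : Z' 0 := by simpa using h β hβ
      have h3 : Z' (-β) := by simpa using h 0 (hZ _ h2)
      rw [hv.1 _ h3, hp_apply, hv.2 h2]; simp
    · simp [h1]
  · have h3 : Z' (-α) := by simpa using h 0 h0
    ext i; simp [ad_fst, hv.1 _ h3]

theorem van_Ucl {A Z Z' : Lat → Prop} (hZ : ∀ β, Z' β → Z β)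
    (h : ∀ α, A α → ip α α = 2 → ∀ β, Z β → Z' (β - α)) {v : L K} (hv : van Z' v) {u : Aut K}
    (hu : u ∈ Ucl K A) : van Z (u v - v) := by
  refine Ucl_induction (p := fun u => van Z (u v - v)) ⟨by simp, by simp⟩
    (fun α t u h1 h2 _ h3 => ?_) hu
  have h4 : van Z' (u v) := by simpa using (h3.mono hZ).add hv
  have := (van_X h2 hZ (h α h1 h2) t h4).add h3
  rwa [sub_add_sub_cancel] at this

/-- Filtration version. -/
theorem van_lin {A : Lat → Prop} (l : Lat →+ ℤ) (k : ℤ) (h : ∀ α, A α → ip α α = 2 → 1 ≤ l α)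
    {v : L K} (hv : van (fun β => l β < k) v) {u : Aut K} (hu : u ∈ Ucl K A) :
    van (fun β => l β ≤ k) (u v - v) :=
  van_Ucl (fun _ h' => h'.le) (fun α h1 h2 β hβ => by
    have := h α h1 h2; rw [map_sub]; omega) hv hu

theorem co_lin {A : Lat → Prop} (l : Lat →+ ℤ) (k : ℤ) (h : ∀ α, A α → ip α α = 2 → 1 ≤ l α)
    {v : L K} (hv : van (fun β => l β < k) v) {u : Aut K} (hu : u ∈ Ucl K A) {β : Lat}
    (hβ : l β ≤ k) : co β (u v) = co β v := by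
  have := (van_lin l k h hv hu).1 β hβ
  rwa [map_sub, sub_eq_zero] at this

theorem H_peel {A : Lat → Prop} (l : Lat →+ ℤ) {ζ : Lat} (hζ : ip ζ ζ = 2) (hl : 0 < l ζ)
    (h : ∀ β, A β → ip β β = 2 → l ζ ≤ l β ∧ β ≠ ζ) {u : Aut K} (hu : u ∈ Ucl K A) (s : K)
    (i : Fin 8) : ((X ζ s * u) (e (-ζ))).1 i = -(s * ζ i) := by
  have h1 := van_Ucl (Z := fun β => l β < 0 ∨ β = 0) (Z' := fun β => (l β < 0 ∨ β = 0) ∧ β ≠ -ζ)
    (fun _ h' => h'.1) (fun α h1 h2 β hβ => ?_) (van_e (β := -ζ) (by simp)) hu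
  · have h2 := h1.1 (-ζ) (Or.inl (by rw [map_neg]; omega))
    have h3 := h1.2 (Or.inr rfl)
    rw [map_sub, co_e_self (root_neg hζ), sub_eq_zero] at h2
    rw [Prod.fst_sub, e_fst, sub_zero] at h3
    rw [LinearEquiv.mul_apply, X_apply hζ]
    simp [h3, ad_fst, h2, e_fst]
  · obtain ⟨h3, h4⟩ := h α h1 h2
    rcases hβ with hβ | rfl
    · refine ⟨Or.inl (by rw [map_sub]; omega), fun h5 => ?_⟩
      have := congrArg l h5
      rw [map_sub, map_neg] at this; omega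
    · exact ⟨Or.inl (by rw [zero_sub, map_neg]; omega), by simpa using h4⟩

def H0 (ζ : Lat) (u : Aut K) : Prop := (u (e (-ζ))).1 = 0

def htL : Lat →+ ℤ := AddMonoidHom.mk' ht ht_add

theorem htL_apply (x : Lat) : htL x = ht x := rfl

namespace Cfg

variable {c : Cfg K}

theorem peel_level (l : Lat →+ ℤ) {k : ℤ} (hk : 0 < k) {A B : Lat → Prop}
    (hB : ∀ β, A β ∨ B β → ip β β = 2 → Sp c.n β ∧ k ≤ l β) (hup : ∀ β, c.R β → k < l β → A β)
    {u : Aut K} (hH : ∀ ζ, B ζ → ip ζ ζ = 2 → ¬ A ζ → H0 ζ u) (hu : u ∈ Ucl K B) :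
    u ∈ Ucl K A := by
  classical
  have key : ∀ T : Finset Root, (∀ ζ ∈ T, B ζ.1 ∧ ¬ A ζ.1) →
      u ∈ Ucl K (fun β => A β ∨ ∃ ζ ∈ T, ζ.1 = β) → u ∈ Ucl K A := by
    intro T
    induction T using Finset.induction_on with
    | empty => exact fun _ h => Ucl_mono (fun β _ h' => by simpa using h') h
    | insert ζ T hζ ih =>
      intro hT hu
      apply ih fun ζ' h' => hT ζ' (Finset.mem_insert_of_mem h')
      obtain ⟨h1, h2⟩ := hT ζ (Finset.mem_insert_self _ _)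
      obtain ⟨h3, h4⟩ := hB _ (Or.inr h1) ζ.2
      have h5 : l ζ.1 = k := le_antisymm (not_lt.1 fun h => h2 (hup _ ⟨ζ.2, h3⟩ h)) h4
      have hA : ∀ β, (A β ∨ ∃ ζ ∈ T, ζ.1 = β) → ip β β = 2 → Sp c.n β ∧ k ≤ l β ∧ β ≠ ζ.1 := by
        rintro β (h | ⟨ζ', h, rfl⟩) hβ
        · exact ⟨(hB β (Or.inl h) hβ).1, (hB β (Or.inl h) hβ).2, fun h' => h2 (h' ▸ h)⟩
        · have := hB _ (Or.inr (hT ζ' (Finset.mem_insert_of_mem h)).1) hβ
          exact ⟨this.1, this.2, fun h' => hζ (Subtype.ext h' ▸ h)⟩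
      obtain ⟨s, u', h6, h7⟩ := peel (A := fun β => A β ∨ ∃ ζ ∈ T, ζ.1 = β) ζ.2
        (fun β h _ => by
          rcases h with h | ⟨ζ', h, rfl⟩
          · exact Or.inl (Or.inl h)
          · rcases Finset.mem_insert.1 h with rfl | h
            · exact Or.inr rfl
            · exact Or.inl (Or.inr ⟨ζ', h, rfl⟩))
        (fun β h hβ => by
          obtain ⟨h8, h9, _⟩ := hA β h hβ
          refine ⟨fun h' => ?_, fun h' => Or.inl (hup _ ⟨(root_add ζ.2 hβ).2 h', h3.add h8⟩ ?_)⟩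
          · rw [h', map_neg] at h9; omega
          · rw [map_add]; omega) hu
      have h8 : s = 0 := cast_root ζ.2 fun i => by
        have := H_peel l ζ.2 (by omega) (fun β h hβ => ⟨h5 ▸ (hA β h hβ).2.1, (hA β h hβ).2.2⟩)
          h6 s i
        rw [← h7, hH _ h1 ζ.2 h2] at this
        simpa using this
      rw [h7, h8, X_zero, one_mul]; exact h6
  refine key (Finset.univ.filter fun ζ : Root => B ζ.1 ∧ ¬ A ζ.1) (fun ζ h => by simpa using h)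
    (Ucl_mono (fun β hβ h => ?_) hu)
  by_cases h' : A β
  · exact Or.inl h'
  · exact Or.inr ⟨⟨β, hβ⟩, by simp [h, h'], rfl⟩

theorem peel_all (l : Lat →+ ℤ) (k : ℕ) {u : Aut K}
    (hH : ∀ ζ, c.R ζ → 0 < l ζ → l ζ ≤ k → H0 ζ u)
    (hu : u ∈ Ucl K (fun β => Sp c.n β ∧ 0 < l β)) : u ∈ Ucl K (fun β => Sp c.n β ∧ k < l β) := by
  induction k with
  | zero => exact hu
  | succ k ih =>
    refine peel_level (c := c) l (k := k + 1) (by omega) (fun β h _ => ?_) (fun β h h' => ⟨h.2, h'⟩)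
      (fun ζ h h' h2 => hH ζ ⟨h', h.1⟩ (by have := h.2; omega) (not_lt.1 fun h3 => h2 ⟨h.1, h3⟩))
      (ih fun ζ h1 h2 h3 => hH ζ h1 h2 (by push_cast; omega))
    rcases h with h | h
    · exact ⟨h.1, by have := h.2; push_cast at this; omega⟩
    · exact ⟨h.1, by have := h.2; omega⟩

theorem peelY (l : Lat →+ ℤ) {ζ : Lat} (hζ : c.R ζ) (hl : 0 < l ζ) (hl' : l (sg c.b ζ) = l ζ)
    {A B : Lat → Prop} (hB : ∀ β, B β → ip β β = 2 → A β ∨ β = ζ ∨ β = sg c.b ζ)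
    (hA : ∀ β, A β → ip β β = 2 → l ζ ≤ l β ∧ β ≠ ζ ∧ β ≠ sg c.b ζ ∧
      (ip ζ β = -1 → A (ζ + β)) ∧ (ip (sg c.b ζ) β = -1 → A (sg c.b ζ + β)))
    {u : Aut K} (hG : u ∈ c.G) (hu : u ∈ Ucl K B) :
    ∃ t, c.Al ζ t ∧ (∃ u' ∈ Ucl K A, u = c.Y ζ t * u') ∧ ∀ i, (u (e (-ζ))).1 i = -(t * ζ i) := by
  have hn : ∀ β, A β → ip β β = 2 → β ≠ -ζ ∧ β ≠ -sg c.b ζ := fun β h hβ => by
    have := (hA β h hβ).1
    constructor <;> rintro rfl <;> rw [map_neg] at this <;> omega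
  have hst : ∀ i, (u (e (-sg c.b ζ))).1 i = c.τ ((u (e (-ζ))).1 (pm c.b i)) := fun i => by
    rw [← sg_neg, ← st_e hζ.neg.2, ← G_st hG (e_mem hζ.neg.2), st_fst]
  by_cases h : sg c.b ζ = ζ
  · obtain ⟨s, u', h1, h2⟩ := peel (A := A) hζ.1 (fun β h1 h2 => by
      rcases hB β h1 h2 with h3 | h3 | h3
      · exact Or.inl h3
      · exact Or.inr h3
      · exact Or.inr (h3.trans h)) (fun β h1 h2 => ⟨(hn β h1 h2).1, (hA β h1 h2).2.2.2.1⟩) hu
    have h3 := H_peel l hζ.1 hl (fun β h1 h2 => ⟨(hA β h1 h2).1, (hA β h1 h2).2.1⟩) h1 s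
    rw [← h2] at h3
    refine ⟨s, fun _ => ?_, ⟨u', h1, by rw [Y_fix h, h2]⟩, h3⟩
    rw [← sub_eq_zero]
    refine cast_root hζ.1 fun i => ?_
    have h4 := hst i
    rw [h, h3, h3, map_neg, map_mul, map_intCast, show ζ (pm c.b i) = ζ i from congrFun h i] at h4
    linear_combination h4
  · have h0 := hζ.orth h
    obtain ⟨s, u1, h1, h2⟩ := peel (A := fun β => A β ∨ β = sg c.b ζ) hζ.1
      (fun β h1 h2 => by have := hB β h1 h2; tauto) (fun β h1 h2 => by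
        rcases h1 with h1 | rfl
        · exact ⟨(hn β h1 h2).1, fun h3 => Or.inl ((hA β h1 h2).2.2.2.1 h3)⟩
        · exact ⟨fun h3 => by rw [h3, ip_neg_right, hζ.1] at h0; omega,
            fun h3 => by omega⟩) hu
    obtain ⟨s', u', h3, h4⟩ := peel (A := A) hζ.sg.1 (fun β h1 _ => h1)
      (fun β h1 h2 => ⟨(hn β h1 h2).2, (hA β h1 h2).2.2.2.2⟩) h1
    have h5 := H_peel l hζ.1 hl (fun β h1 h2 => by
      rcases h1 with h1 | rfl
      · exact ⟨(hA β h1 h2).1, (hA β h1 h2).2.1⟩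
      · exact ⟨hl'.ge, h⟩) h1 s
    have h6 := H_peel (A := fun β => A β ∨ β = ζ) l hζ.sg.1 (by omega) (fun β h1 h2 => by
      rcases h1 with h1 | rfl
      · exact ⟨hl' ▸ (hA β h1 h2).1, (hA β h1 h2).2.2.1⟩
      · exact ⟨hl'.le, Ne.symm h⟩)
      (mul_mem (X_mem_Ucl (Or.inr rfl) s) (Ucl_mono (fun _ _ h => Or.inl h) h3)) s'
    rw [← mul_assoc, ← X_comm hζ.1 hζ.sg.1 h0.ge, mul_assoc, ← h4, ← h2] at h6
    rw [← h2] at h5
    have h7 : s' = c.τ s := by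
      rw [← sub_eq_zero]
      refine cast_root hζ.sg.1 fun i => ?_
      have h8 := hst i
      rw [h5, h6, map_neg, map_mul, map_intCast] at h8
      change _ * (ζ (pm c.b i) : K) = 0
      change -(_ * (ζ (pm c.b i) : K)) = _ at h8
      linear_combination -h8
    exact ⟨s, fun h' => absurd h' h, ⟨u', h3, by rw [Y_mov h, h2, h4, h7, mul_assoc]⟩, h5⟩

theorem Mon.conjU {m : Aut K} {w : W} (h : c.Mon m w) {A B : Lat → Prop}
    (hA : ∀ β, A β → ip β β = 2 → B (w β)) {u : Aut K} (hu : u ∈ Ucl K A) :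
    m * u * m⁻¹ ∈ Ucl K B := by
  refine Ucl_conj (fun β t h1 h2 => ?_) hu
  obtain ⟨s, _, h3⟩ := h.mono β h2
  rw [conj_X h.aut h2 (h.root h2) h3]
  exact X_mem_Ucl (hA β h1 h2) _

theorem Mon.H0 {m : Aut K} {w : W} (h : c.Mon m w) {ζ : Lat} (hζ : ip ζ ζ = 2) {u : Aut K}
    (hu : H0 (w ζ) (m * u * m⁻¹)) : H0 ζ u := by
  obtain ⟨s, _, h1⟩ := h.mono _ (root_neg hζ)
  have h2 : u (e (-ζ)) = s • m⁻¹ ((m * u * m⁻¹) (e (-w ζ))) := by
    rw [← map_neg w, ← map_smul, ← map_smul, ← h1]; simp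
  rw [Exc.H0, h2, Prod.smul_fst, h.inv.fst_zero hu, smul_zero]

theorem H0_sg {ζ : Lat} (hζ : c.R ζ) {u : Aut K} (hG : u ∈ c.G) (hu : H0 ζ u) :
    H0 (sg c.b ζ) u := by
  ext i
  rw [← sg_neg, ← st_e hζ.neg.2, ← G_st hG (e_mem hζ.neg.2), st_fst, hu]; simp

theorem Y_mem_Ucl {A : Lat → Prop} {α : Lat} (h1 : A α) (h2 : A (sg c.b α)) (t : K) :
    c.Y α t ∈ Ucl K A := by
  unfold Y; split_ifs
  · exact X_mem_Ucl h1 _
  · exact mul_mem (X_mem_Ucl h1 _) (X_mem_Ucl h2 _)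

theorem Ucl_conj_Y {A : Lat → Prop} {ζ : Lat} (hζ : c.R ζ)
    (h : ∀ β, A β → ip β β = 2 → β ≠ -ζ ∧ (ip ζ β = -1 → A (ζ + β)))
    (h' : ∀ β, A β → ip β β = 2 → β ≠ -sg c.b ζ ∧ (ip (sg c.b ζ) β = -1 → A (sg c.b ζ + β)))
    (s : K) {u : Aut K} (hu : u ∈ Ucl K A) : c.Y ζ s * u * (c.Y ζ s)⁻¹ ∈ Ucl K A := by
  unfold Y; split_ifs
  · exact Ucl_conj_X hζ.1 h s hu
  · have := Ucl_conj_X hζ.1 h s (Ucl_conj_X hζ.sg.1 h' (c.τ s) hu)
    rwa [show ∀ p q u : Aut K, p * (q * u * q⁻¹) * p⁻¹ = p * q * u * (p * q)⁻¹ from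
      fun p q u => by group] at this

end Cfg

end Pool.Agent.MP_db74b1_al.Exc
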