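import Pool.Agent.MP_db74b1_al.F2A0

/-! `F₄(2)`: brackets, root elements and the invariant form on the 26-dimensional module. -/

set_option autoImplicit false

namespace Pool.Agent.MP_db74b1_al.Exc

namespace A2

theorem ip_ss {x y : Lat} (hx : Sp 6 x) (hy : Sp 6 y) : ip (sg true x) (sg true y) = ip x y := by
  rw [ip_eq, ip_eq, form_sg6 hx hy, form_sg6 hy hx]

theorem Sp_s {x : Lat} (hx : Sp 6 x) : Sp 6 (sg true x) := fun j hj => by
  have h6 := hx 6 (by decide)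
  have h7 := hx 7 (by decide)
  fin_cases j <;> first | (exfalso; revert hj; decide) | exact h6 | exact h7

theorem ip_s {x y : Lat} (hx : Sp 6 x) (hy : Sp 6 y) : ip (sg true x) y = ip x (sg true y) := by
  rw [← ip_ss hx (Sp_s hy), sg_sg]

theorem Lo_fix {l : Lat} (h : Lo l) : sg true l = l := funext h.2.2

theorem gf_hv {R : Type} [CommRing R] (y : Lat) (v : L R) : gf (hv y : L R) v = -hp y v := by
  induction v using L_ind with
  | hadd v w h1 h2 => rw [map_add, map_add, h1, h2, neg_add]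
  | hsmul r v h1 => rw [map_smul, map_smul, h1, smul_neg]
  | h1 z => rw [gf_hv_hv, hp_hv, ip_comm]
  | h2 β _ => rw [gf_hv_e, hp_e, neg_zero]

theorem sp0 : Sp 6 (a 0) := by decide
theorem sp2 : Sp 6 (a 2) := by decide
theorem k0_Sh : Sh k0 := by decide
theorem p2_k0 : Sp 6 p2 ∧ ips p2 k0 = 1 := by decide

end A2

open A2

variable {K : Type} [Field K]

namespace Cfg

variable {c : Cfg K}

namespace F2

variable (F : c.F2)
include F

theorem YY {β : Lat} (h : Sh β) : c.Y β 1 * c.Y β 1 = 1 := by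
  rw [Y_add (F.R_Sh h), one_add_one_eq_two, F.two, Y_zero]

theorem a_orth {β : Lat} (h : Sh β) : ip β (sg true β) = 0 := by
  have := (F.R_Sh h).orth (F.mov h)
  rwa [F.hb] at this

theorem a_ne {β : Lat} (h : Sh β) : β ≠ sg true β := fun h' => by
  have h1 := F.a_orth h
  rw [← h', h.root] at h1
  omega

theorem a_m1 {α β : Lat} (hα : ip α α = 2) (hβ : ip β β = 2) (h : ip α β = -1) :
    ad α (e β : L K) = e (α + β) := by
  rw [ad_e_m1 hα hβ h, F.hq.eps, one_smul]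

theorem a_neg (t : K) : -t = t := by linear_combination (-t) * F.two

theorem a_Sp {β : Lat} (h : Sp 6 β) : Sp c.n β := by rw [n6_of_b F.hb]; exact h

theorem a_fix {β γ : Lat} (hβ : Sh β) (hγ : Sh γ) (h1 : ip β γ = -1)
    (h2 : 1 ≤ ip β (sg true γ)) : sg true β + sg true γ = β + γ := by
  by_contra hc
  have hR : c.R (β + γ) := ⟨(root_add hβ.root hγ.root).2 h1, F.a_Sp (hβ.2.1.add hγ.2.1)⟩
  have h3 := hR.orth (by rw [F.hb]; exact hc)
  rw [F.hb, sg_add, ip_add_left, ip_add_right, ip_add_right, F.a_orth hβ, F.a_orth hγ,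
    ip_comm γ, ip_s hβ.2.1 hγ.2.1] at h3
  omega

theorem a_nn {β γ : Lat} (hβ : Sh β) (hγ : Sh γ) (h : 0 ≤ ips β γ) :
    ip β γ = -1 ∨ 0 ≤ ip β γ := by
  refine (ip_cases hβ.root hγ.root).resolve_left ?_
  rintro rfl
  rw [ips, ← ip_x, ← ip_x, sg_neg, ip_neg_right, ip_neg_right, F.a_orth hβ, hβ.root] at h
  omega

theorem a_m1nn {β γ : Lat} (hβ : Sh β) (hγ : Sh γ) (h : ip (sg true β) γ = -1) : 0 ≤ ip β γ := by
  have h0 := F.a_orth hβ
  have h1 := ips_cases hβ hγ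
  rw [ips, ← ip_x, ← ip_x, ← ip_s hβ.2.1 hγ.2.1] at h1
  rcases h1 with ⟨h1, _⟩ | h1 | h1 | ⟨h1, _⟩ | ⟨_, rfl | rfl⟩
  · omega
  · omega
  · omega
  · omega
  · rw [ip_neg_right, ip_comm, h0] at h; omega
  · rw [ip_neg_right, hβ.sg.root] at h; omega

omit F in
theorem a_br_sh (β : Lat) (h : Sh β) (v : L K) :
    br (sh β) v = ad β v + ad (sg true β) v := by
  rw [sh, map_add, LinearMap.add_apply, br_e h.root, br_e h.sg.root]

theorem br_sh (β : Lat) (h : Sh β) (v : L K) : br (sh β) v = ad β v + ad (sg true β) v := by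
  have _ := F
  exact a_br_sh β h v

theorem br_comm (v w : L K) : br v w = br w v := by rw [br_anti, neg_eq2 F.two]

theorem jac_sh {β : Lat} (h : Sh β) (v w : L K) :
    br (sh β) (br v w) = br (br (sh β) v) w + br v (br (sh β) w) := by
  rw [F.br_sh β h, F.br_sh β h, F.br_sh β h, ad_br h.root, ad_br h.sg.root, map_add,
    LinearMap.add_apply, map_add]
  abel

theorem a_adad {β : Lat} (h : Sh β) {m : L K} (hm : m ∈ MM K) :
    ad β (ad (sg true β) m) = 0 := by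
  have h0 := F.a_orth h
  have key : ∀ γ, Sh γ → ad β (ad (sg true β) (e γ : L K)) = 0 := by
    intro γ hγ
    rcases ip_cases h.sg.root hγ.root with rfl | h1 | h1
    · rw [ad_e_m2 h.sg.root, map_neg, ad_hv, ip_comm, h0]; simp
    · rw [F.a_m1 h.sg.root hγ.root h1, ad_e_nn h.root ((root_add h.sg.root hγ.root).2 h1)]
      rw [ip_add_right, h0, zero_add]
      exact F.a_m1nn h hγ h1
    · rw [ad_e_nn h.sg.root hγ.root h1, map_zero]
  have k2 : ∀ y, ad β (ad (sg true β) (hs y : L K)) = 0 := fun y => by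
    rw [hs, map_add, ad_hv, ad_hv, map_add, map_smul, map_smul, ad_e_nn h.root h.sg.root h0.ge]
    simp
  refine F.MM_ind (P := fun m => ad β (ad (sg true β) m) = 0) (by simp) (fun v w _ _ h1 h2 => ?_)
    (fun γ hγ => ?_) (k2 _) (k2 _) hm
  · rw [map_add, map_add, h1, h2, add_zero]
  · rw [sh, map_add, map_add, key γ hγ, key _ hγ.sg, add_zero]

theorem Y_M {β : Lat} (h : Sh β) {m : L K} (hm : m ∈ MM K) :
    c.Y β 1 m = m + br (sh β) m + co (-β) m • sh β := by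
  have h0 := F.a_orth h
  have hne : -β ≠ sg true β := fun h' => by
    rw [← h', ip_neg_right, h.root] at h0; omega
  have h1 : co (-β) (ad (sg true β) m) = 0 := by
    rw [co_ad, if_neg hne, co_of_not (β := -β - sg true β), mul_zero, ite_self]
    rw [norm_sub, norm_neg, ip_neg_left, h0, h.root, h.sg.root]; decide
  have h2 : co (-sg true β) m = co (-β) m := hm.2.1 _ h.neg
  have h3 := F.a_adad h hm
  rw [Y_mov (F.mov h), F.hb, map_one, LinearEquiv.mul_apply, X_apply h.root, X_apply h.sg.root,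
    F.br_sh β h, sh]
  simp only [map_add, map_smul, h1, h2, h3, ad_e_nn h.root h.sg.root h0.ge, co_e_ne hne,
    smul_eq_mul]
  module

theorem X_M {l : Lat} (h : Lo l) {m : L K} (hm : m ∈ MM K) : X l 1 m = m + ad l m := by
  have _ := F
  rw [X_apply h.root, hm.1 _ h.neg.not_Sh]
  simp

omit F in
theorem a_four {β γ : Lat} (hβ : Sh β) : br (sh β : L K) (sh γ) =
    ad β (e γ) + ad (sg true β) (e (sg true γ)) +
      (ad β (e (sg true γ)) + ad (sg true β) (e γ)) := by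
  rw [a_br_sh β hβ, sh, map_add, map_add]; abel

theorem br_sh_nn {β γ : Lat} (hβ : Sh β) (hγ : Sh γ) (h : 0 ≤ ips β γ) :
    br (sh β : L K) (sh γ) = 0 := by
  have e1 := ip_ss hβ.2.1 hγ.2.1
  have e2 := ip_s hβ.2.1 hγ.2.1
  rw [a_four hβ]
  have h' := h
  rw [ips, ← ip_x, ← ip_x] at h'
  rcases F.a_nn hβ hγ h with h1 | h1 <;>
    rcases F.a_nn hβ hγ.sg (by rwa [ips_sg]) with h2 | h2
  · omega
  · rw [F.a_m1 hβ.root hγ.root h1, ad_e_nn hβ.root hγ.sg.root h2,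
      F.a_m1 hβ.sg.root hγ.sg.root (e1.trans h1), ad_e_nn hβ.sg.root hγ.root (e2 ▸ h2),
      F.a_fix hβ hγ h1 (by omega), F.add_self (e _)]
    simp
  · have h3 := F.a_fix hβ hγ.sg h2 (by rw [sg_sg]; omega)
    rw [sg_sg] at h3
    rw [ad_e_nn hβ.root hγ.root h1, F.a_m1 hβ.root hγ.sg.root h2,
      ad_e_nn hβ.sg.root hγ.sg.root (e1 ▸ h1), F.a_m1 hβ.sg.root hγ.root (e2.trans h2), h3,
      F.add_self (e _)]
    simp
  · rw [ad_e_nn hβ.root hγ.root h1, ad_e_nn hβ.root hγ.sg.root h2,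
      ad_e_nn hβ.sg.root hγ.sg.root (e1 ▸ h1), ad_e_nn hβ.sg.root hγ.root (e2 ▸ h2)]
    simp

theorem br_sh_m1 {β γ : Lat} (hβ : Sh β) (hγ : Sh γ) (h1 : ipx β γ = -1)
    (h2 : ipx β (sg true γ) = 0) : br (sh β : L K) (sh γ) = sh (β + γ) := by
  have e1 := ip_ss hβ.2.1 hγ.2.1
  have e2 := ip_s hβ.2.1 hγ.2.1
  rw [← ip_x] at h1 h2
  rw [a_four hβ, F.a_m1 hβ.root hγ.root h1, ad_e_nn hβ.root hγ.sg.root h2.ge,
    F.a_m1 hβ.sg.root hγ.sg.root (e1.trans h1), ad_e_nn hβ.sg.root hγ.root (e2.trans h2).ge,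
    sh, sg_add]
  simp

theorem br_sh_m2 {β : Lat} (hβ : Sh β) : br (sh β : L K) (sh (-β)) = hs β := by
  have h0 := F.a_orth hβ
  rw [a_four hβ, sg_neg, ad_e_m2 hβ.root, ad_e_m2 hβ.sg.root,
    ad_e_nn hβ.root (root_neg hβ.sg.root) (by rw [ip_neg_right, h0]; rfl),
    ad_e_nn hβ.sg.root (root_neg hβ.root) (by rw [ip_neg_right, ip_comm, h0]; rfl),
    neg_eq2 F.two, neg_eq2 F.two, hs]
  simp

theorem br_hs_sh {β γ : Lat} (hβ : Sp 6 β) (hγ : Sh γ) :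
    br (hs β : L K) (sh γ) = (ips β γ : K) • sh γ := by
  have _ := F
  rw [hs, sh, ips, ← ip_x, ← ip_x]
  simp only [map_add, LinearMap.add_apply, br_hv_e, ip_ss hβ hγ.2.1, ip_s hβ hγ.2.1]
  push_cast
  module

theorem br_hs_fst (β : Lat) (v : L K) : (br (hs β) v).1 = 0 := by
  have _ := F
  rw [hs, map_add, LinearMap.add_apply, br_hv, br_hv]
  simp [dd]

theorem co_br_hs {β γ : Lat} (hβ : Sp 6 β) (hγ : Sp 6 γ) (v : L K) :
    co γ (br (hs β) v) = (ips β γ : K) * co γ v := by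
  have _ := F
  rw [hs, map_add, LinearMap.add_apply, map_add, co_br_hv, co_br_hv, ips, ← ip_x, ← ip_x,
    ip_s hβ hγ]
  push_cast
  ring

theorem ad_sh_m1 {l γ : Lat} (hl : Lo l) (hγ : Sh γ) (h : ipx l γ = -1) :
    ad l (sh γ : L K) = sh (l + γ) := by
  have e2 := ip_s hl.2.1 hγ.2.1
  rw [← ip_x] at h
  rw [Lo_fix hl] at e2
  rw [sh, sh, map_add, F.a_m1 hl.root hγ.root h, F.a_m1 hl.root hγ.sg.root (e2.symm.trans h),
    sg_add, Lo_fix hl]

theorem ad_sh_nn {l γ : Lat} (hl : Lo l) (hγ : Sh γ) (h : 0 ≤ ipx l γ) :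
    ad l (sh γ : L K) = 0 := by
  have _ := F
  have e2 := ip_s hl.2.1 hγ.2.1
  rw [← ip_x] at h
  rw [Lo_fix hl] at e2
  rw [sh, map_add, ad_e_nn hl.root hγ.root h, ad_e_nn hl.root hγ.sg.root (e2 ▸ h), add_zero]

theorem ad_hs {l β : Lat} (hl : Lo l) (hβ : Sp 6 β) : ad l (hs β : L K) = 0 := by
  rw [hs, map_add, ad_hv, ad_hv, ip_s hβ hl.2.1, Lo_fix hl, F.add_self]

theorem co_ad_Lo {l γ : Lat} (hl : Lo l) (hγ : Sh γ) (v : L K) :
    co γ (ad l v) = co (γ - l) v := by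
  have hne : γ ≠ l := fun h => hl.not_Sh (h ▸ hγ)
  rw [co_ad, if_pos hγ.root, if_neg hne, F.hq.eps, one_mul]

theorem brbr {β : Lat} (h : Sh β) {m : L K} (hm : m ∈ MM K) :
    br (sh β) (br (sh β) m) = 0 := by
  have h1 := F.a_adad h hm
  have h2 := F.a_adad h.sg hm
  rw [sg_sg] at h2
  rw [F.br_sh β h, F.br_sh β h, map_add, map_add, h1, h2, ad_ad h.root, ad_ad h.sg.root, F.two]
  simp

theorem co_br_sh {γ δ : Lat} (hγ : Sh γ) (hδ : Sh δ) (h : δ ≠ γ ∧ δ ≠ sg true γ) (v : L K) :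
    co δ (br (sh γ) v) = co (δ - γ) v + co (δ - sg true γ) v := by
  rw [F.br_sh γ hγ, map_add, co_ad, co_ad, if_pos hδ.root, if_pos hδ.root, if_neg h.1, if_neg h.2,
    F.hq.eps, F.hq.eps, one_mul, one_mul]

theorem co_br_self {γ : Lat} (hγ : Sh γ) (v : L K) : co γ (br (sh γ) v) = hp γ v := by
  rw [F.br_sh γ hγ, map_add, co_ad, co_ad, if_pos hγ.root, if_pos hγ.root, if_pos rfl,
    if_neg (F.a_ne hγ), co_of_not (β := γ - sg true γ), mul_zero, add_zero, F.a_neg]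
  rw [norm_sub, F.a_orth hγ, hγ.root, hγ.sg.root]; decide

theorem br_mem {m m' : L K} (hm : m ∈ MM K) (hm' : m' ∈ MM K) : br m m' ∈ MM K := by
  have k1 : ∀ y γ, Sp 6 y → Sh γ → br (hs y : L K) (sh γ) ∈ MM K := fun y γ hy hγ => by
    rw [F.br_hs_sh hy hγ]; exact (MM K).smul_mem _ (sh_mem hγ)
  have k2 : ∀ y z, br (hs y : L K) (hs z) ∈ MM K := fun y z => by
    simp only [hs, map_add, LinearMap.add_apply, br_hv_hv, add_zero]; exact zero_mem _
  have k3 : ∀ β γ, Sh β → Sh γ → br (sh β : L K) (sh γ) ∈ MM K := fun β γ hβ hγ => by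
    rcases ips_cases hβ hγ with ⟨h, _⟩ | h | h | ⟨_, ⟨h1, h2⟩ | ⟨h1, h2⟩⟩ | ⟨_, rfl | rfl⟩
    · rw [F.br_sh_nn hβ hγ (by omega)]; exact zero_mem _
    · rw [F.br_sh_nn hβ hγ (by omega)]; exact zero_mem _
    · rw [F.br_sh_nn hβ hγ (by omega)]; exact zero_mem _
    · rw [F.br_sh_m1 hβ hγ h1 h2]; exact sh_mem (hβ.add hγ h1 h2)
    · have h3 : ipx β (sg true (sg true γ)) = 0 := by rwa [sg_sg]
      rw [← sh_sg γ, F.br_sh_m1 hβ hγ.sg h2 h3]; exact sh_mem (hβ.add hγ.sg h2 h3)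
    · rw [F.br_sh_m2 hβ]; exact F.hs_mem hβ.2.1
    · rw [← sg_neg, sh_sg, F.br_sh_m2 hβ]; exact F.hs_mem hβ.2.1
  have step : ∀ x : L K, (∀ γ, Sh γ → br x (sh γ) ∈ MM K) → br x (hs (a 0)) ∈ MM K →
      br x (hs (a 2)) ∈ MM K → br x m' ∈ MM K := fun x h1 h2 h3 =>
    F.MM_ind (P := fun m => br x m ∈ MM K) (by simp) (fun v w _ _ h1 h2 => by
      rw [map_add]; exact add_mem h1 h2) h1 h2 h3 hm'
  refine F.MM_ind (P := fun m => br m m' ∈ MM K) (by simp) (fun v w _ _ h1 h2 => ?_)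
    (fun β hβ => step _ (fun γ hγ => k3 β γ hβ hγ) ?_ ?_)
    (step _ (fun γ hγ => k1 _ γ sp0 hγ) (k2 _ _) (k2 _ _))
    (step _ (fun γ hγ => k1 _ γ sp2 hγ) (k2 _ _) (k2 _ _)) hm
  · rw [map_add, LinearMap.add_apply]; exact add_mem h1 h2
  · rw [F.br_comm]; exact k1 _ β sp0 hβ
  · rw [F.br_comm]; exact k1 _ β sp2 hβ

theorem ad_mem {l : Lat} (hl : Lo l) {m : L K} (hm : m ∈ MM K) : ad l m ∈ MM K := by
  refine F.MM_ind (P := fun m => ad l m ∈ MM K) (by simp) (fun v w _ _ h1 h2 => ?_)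
    (fun γ hγ => ?_) ?_ ?_ hm
  · rw [map_add]; exact add_mem h1 h2
  · rcases hl.cases hγ with h | h
    · rw [F.ad_sh_m1 hl hγ h]; exact sh_mem (hl.add hγ h)
    · rw [F.ad_sh_nn hl hγ h]; exact zero_mem _
  · rw [F.ad_hs hl sp0]; exact zero_mem _
  · rw [F.ad_hs hl sp2]; exact zero_mem _

theorem Bm_D {v m : L K} (hv : v ∈ c.V) (hm : m ∈ MM K) : Bm (v - c.st v) m = gf v m := by
  obtain ⟨h1, h2⟩ := F.D_sec (F.D_mem hv)
  obtain ⟨h3, h4⟩ := F.D_sec hm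
  change gf (sec (v - c.st v)) m = _
  generalize sec (v - c.st v) = u at h1 h2
  have h5 : c.st (u - v) = u - v := by
    rw [map_sub]; linear_combination (exp := 1) -h2
  have h6 := gf_st (sub_mem h1 hv) h3
  rw [h5, F.hτ] at h6
  have h7 : gf (u - v) m = 0 := by rw [← h4, map_sub (gf (u - v)), h6, sub_self]
  rw [map_sub, LinearMap.sub_apply] at h7
  exact sub_eq_zero.1 h7

theorem Bm_sh {β : Lat} (h : Sh β) {m : L K} (hm : m ∈ MM K) : Bm (sh β) m = co (-β) m := by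
  rw [← F.D_e h.2.1, F.Bm_D (e_mem (F.a_Sp h.2.1)) hm, gf_e h.root]

theorem Bm_hs {β : Lat} (h : Sp 6 β) {m : L K} (hm : m ∈ MM K) : Bm (hs β) m = hp β m := by
  have h1 : (hs β : L K) = hv β - c.st (hv β) := by
    rw [st_hv, F.hb, sub_eq_add_neg, neg_eq2 F.two, hs]
  rw [h1, F.Bm_D (hv_mem (F.a_Sp h)) hm, gf_hv, F.a_neg]

theorem Bm_comm {m m' : L K} (hm : m ∈ MM K) (hm' : m' ∈ MM K) : Bm m m' = Bm m' m := by
  obtain ⟨h1, h2⟩ := F.D_sec hm
  obtain ⟨h3, h4⟩ := F.D_sec hm'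
  change gf (sec m) m' = gf (sec m') m
  generalize sec m = v at h1 h2
  generalize sec m' = w at h3 h4
  have h5 := gf_st (st_mem h1) h3
  rw [st_st h1, F.hτ] at h5
  rw [← h2, ← h4, map_sub, map_sub, h5, gf_comm w, gf_comm w]

theorem Bm_inv {g : Aut K} (hg : g ∈ c.G) {m m' : L K} (hm : m ∈ MM K) (hm' : m' ∈ MM K) :
    Bm m (g m') = Bm (g⁻¹ m) m' := by
  obtain ⟨h1, h2⟩ := F.D_sec hm
  have h3 := F.Bm_D (G_mem (inv_mem hg) h1) hm'
  rw [G_st (inv_mem hg) h1, ← map_sub, h2] at h3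
  rw [h3, ← gf_inv (G_aut hg)]
  rfl

theorem Bm_nd {m : L K} (hm : m ∈ MM K) (h : ∀ m' ∈ MM K, Bm m' m = 0) : m = 0 := by
  have h1 : ∀ β, Sp 6 β → hp β m = 0 := fun β hβ => by
    rw [← F.Bm_hs hβ hm]; exact h _ (F.hs_mem hβ)
  have h2 : ∀ β, Sh β → co β m = 0 := fun β hβ => by
    rw [← neg_neg β, ← F.Bm_sh hβ.neg hm]; exact h _ (sh_mem hβ.neg)
  refine (F.cartan hm (h1 _ k0_Sh.2.1) h2).resolve_right fun h3 => ?_
  have h4 := h1 _ p2_k0.1
  rw [h3, hp_hs, p2_k0.2] at h4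
  simp at h4

theorem QS_iff {g : Aut K} (hg : g ∈ c.G) :
    c.QS g ↔ ∀ p ∈ c.G, Bm (p (sh k0)) (g (p (sh k0))) = 0 := by
  have hk : (e k0 : L K) ∈ c.V := e_mem (F.a_Sp k0_Sh.2.1)
  have key : ∀ p ∈ c.G, p (e k0) - c.st (p (e k0)) = p (sh k0) := fun p hp => by
    rw [G_st hp hk, ← map_sub, F.D_e k0_Sh.2.1]
  have k2 : ∀ p ∈ c.G, Bm (p (sh k0)) (g (p (sh k0))) = gf (p (e k0)) (g (p (sh k0))) :=
    fun p hp => by
      rw [← F.Bm_D (G_mem hp hk) (F.MM_G hg (F.MM_G hp (sh_mem k0_Sh))), key p hp]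
  constructor
  · intro h p hp
    rw [k2 p hp, ← key p hp]
    exact h _ ⟨p, hp, 1, (one_smul _ _).symm⟩
  · rintro h _ ⟨p, hp, r, rfl⟩
    have h1 := h p hp
    rw [k2 p hp] at h1
    rw [map_smulₛₗ c.st, F.hτ, ← smul_sub, key p hp]
    simp only [map_smul, LinearMap.smul_apply, h1, smul_zero]

end F2

end Cfg

end Pool.Agent.MP_db74b1_al.Exc
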