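import Pool.Agent.MP_db74b1_al.ExcQ2

/-! `F₄(2)`: the 26-dimensional module. -/

set_option autoImplicit false

namespace Pool.Agent.MP_db74b1_al.Exc

/-- short roots of `F₄`, as roots of `E₆` moved by the graph symmetry -/
def Sh (β : Lat) : Prop := ipx β β = 2 ∧ Sp 6 β ∧ ¬ ∀ i, sg true β i = β i
/-- long roots of `F₄` -/
def Lo (β : Lat) : Prop := ipx β β = 2 ∧ Sp 6 β ∧ ∀ i, sg true β i = β i
instance (β : Lat) : Decidable (Sh β) := by unfold Sh; infer_instance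
instance (β : Lat) : Decidable (Lo β) := by unfold Lo; infer_instance
/-- twice the `F₄` inner product (short roots have `ips β β = 2`) -/
def ips (β γ : Lat) : ℤ := ipx β γ + ipx β (sg true γ)
def p2 : Lat := v8 1 1 2 2 1 0 0 0
def s1 : Lat := v8 1 0 1 1 1 0 0 0
def l3 : Lat := v8 1 1 1 1 1 1 0 0
def be : Lat := v8 0 0 1 1 0 0 0 0

variable {K : Type} [Field K]

noncomputable def sh (β : Lat) : L K := e β + e (sg true β)
def hs (β : Lat) : L K := hv β + hv (sg true β)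

/-- the module -/
def MM (K : Type) [Field K] : Submodule K (L K) where
  carrier := {m | (∀ β, ¬ Sh β → co β m = 0) ∧ (∀ β, Sh β → co (sg true β) m = co β m) ∧
    m.1 1 = 0 ∧ m.1 3 = 0 ∧ m.1 6 = 0 ∧ m.1 7 = 0 ∧ m.1 5 = m.1 0 ∧ m.1 4 = m.1 2}
  zero_mem' := ⟨fun _ _ => map_zero _, fun _ _ => by simp, rfl, rfl, rfl, rfl, rfl, rfl⟩
  add_mem' := fun {v w} ⟨h1, h2, h3, h4, h5, h6, h7, h8⟩ ⟨k1, k2, k3, k4, k5, k6, k7, k8⟩ =>
    ⟨fun β h => by simp [h1 β h, k1 β h], fun β h => by simp [h2 β h, k2 β h],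
      by simp [h3, k3], by simp [h4, k4], by simp [h5, k5], by simp [h6, k6], by simp [h7, k7],
      by simp [h8, k8]⟩
  smul_mem' := fun r v ⟨h1, h2, h3, h4, h5, h6, h7, h8⟩ =>
    ⟨fun β h => by simp [h1 β h], fun β h => by simp [h2 β h], by simp [h3], by simp [h4],
      by simp [h5], by simp [h6], by simp [h7], by simp [h8]⟩

/-- representatives of the pairs `β, sg β` -/
def rep (β : Lat) : Prop := β 5 < β 0 ∨ (β 5 = β 0 ∧ β 4 < β 2)
instance (β : Lat) : Decidable (rep β) := by unfold rep; infer_instance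

/-- a section of `v ↦ v - st v` -/
def sec : L K →ₗ[K] L K where
  toFun m := (fun i => if i = 0 ∨ i = 2 then m.1 i else 0, fun β => if rep β.1 then m.2 β else 0)
  map_add' v w := by ext i <;> simp only [Prod.fst_add, Prod.snd_add, Pi.add_apply] <;>
    split_ifs <;> simp
  map_smul' r v := by ext i <;> simp

/-- the invariant form of `MM` -/
noncomputable def Bm : L K →ₗ[K] L K →ₗ[K] K := gf ∘ₗ sec

theorem ipx_comm (x y : Lat) : ipx x y = ipx y x := add_comm _ _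

theorem ipx_sg6 {x y : Lat} (hx : Sp 6 x) (hy : Sp 6 y) :
    ipx (sg true x) (sg true y) = ipx x y := by
  simp only [ipx, ← form_x, form_sg6 hx hy, form_sg6 hy hx]

theorem Sp6_sg {x : Lat} (h : Sp 6 x) : Sp 6 (sg true x) := fun j hj => by
  have h6 := h 6 (by decide)
  have h7 := h 7 (by decide)
  fin_cases j <;> first | exact absurd hj (by decide) | assumption

theorem Sh.ne {β : Lat} (h : Sh β) : sg true β ≠ β := fun h' => h.2.2 fun i => congrFun h' i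

theorem Sh.neg {β : Lat} (h : Sh β) : Sh (-β) :=
  ⟨by rw [← ip_x, norm_neg, ip_x, h.1], h.2.1.neg, fun h' => h.2.2 fun i => neg_inj.1 (h' i)⟩
theorem Sh.sg {β : Lat} (h : Sh β) : Sh (sg true β) :=
  ⟨by rw [ipx_sg6 h.2.1 h.2.1, h.1], Sp6_sg h.2.1, fun h' => h.2.2 fun i => by
    have := h' i
    rw [sg_sg] at this
    exact this.symm⟩
theorem Sh.root {β : Lat} (h : Sh β) : ip β β = 2 := by rw [ip_x, h.1]
theorem Sh.allL {β : Lat} (h : Sh β) : β ∈ allL := mem_allL h.root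
theorem Lo.neg {β : Lat} (h : Lo β) : Lo (-β) :=
  ⟨by rw [← ip_x, norm_neg, ip_x, h.1], h.2.1.neg, fun i => congrArg Neg.neg (h.2.2 i)⟩
theorem Lo.root {β : Lat} (h : Lo β) : ip β β = 2 := by rw [ip_x, h.1]
theorem Lo.allL {β : Lat} (h : Lo β) : β ∈ allL := mem_allL h.root
theorem Lo.not_Sh {β : Lat} (h : Lo β) : ¬ Sh β := fun h' => h'.2.2 h.2.2
theorem sh_sg (β : Lat) : (sh (sg true β) : L K) = sh β := by rw [sh, sh, sg_sg, add_comm]
theorem hs_sg (β : Lat) : (hs (sg true β) : L K) = hs β := by rw [hs, hs, sg_sg, add_comm]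
theorem ips_sg {β γ : Lat} : ips β (sg true γ) = ips β γ := by rw [ips, ips, sg_sg, add_comm]
theorem ips_comm {β γ : Lat} (hβ : Sp 6 β) (hγ : Sp 6 γ) : ips β γ = ips γ β := by
  rw [ips, ips, ← ipx_sg6 hβ (Sp6_sg hγ), sg_sg, ipx_comm β, ipx_comm (sg true β)]
theorem ips_neg (β γ : Lat) : ips β (-γ) = -ips β γ := by
  simp only [ips, sg_neg, ← ip_x, ip_neg_right]; ring
theorem ips_add (β γ δ : Lat) : ips β (γ + δ) = ips β γ + ips β δ := by
  simp only [ips, sg_add, ← ip_x, ip_add_right]; ring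

theorem sh_orth_fin : ∀ β ∈ allL, Sh β → ipx β (sg true β) = 0 := by decide +kernel

theorem sh_pair_fin : ∀ β ∈ allL.filter fun x => decide (Sh x),
    ∀ γ ∈ allL.filter fun x => decide (Sh x), ¬ (ipx β γ = 1 ∧ ipx β (sg true γ) = 1) := by
  decide +kernel

theorem Sh.orth {β : Lat} (h : Sh β) : ip β (Exc.sg true β) = 0 := by
  rw [ip_x]; exact sh_orth_fin β h.allL h

theorem Sh.pair {β γ : Lat} (hβ : Sh β) (hγ : Sh γ) :
    ¬ (ip β γ = 1 ∧ ip β (Exc.sg true γ) = 1) := by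
  rw [ip_x, ip_x]
  exact sh_pair_fin β (List.mem_filter.2 ⟨hβ.allL, decide_eq_true hβ⟩) γ
    (List.mem_filter.2 ⟨hγ.allL, decide_eq_true hγ⟩)

theorem ips_cases {β γ : Lat} (hβ : Sh β) (hγ : Sh γ) :
    (ips β γ = 2 ∧ (γ = β ∨ γ = sg true β)) ∨ ips β γ = 1 ∨ ips β γ = 0 ∨
    (ips β γ = -1 ∧ ((ipx β γ = -1 ∧ ipx β (sg true γ) = 0) ∨
      (ipx β γ = 0 ∧ ipx β (sg true γ) = -1))) ∨
    (ips β γ = -2 ∧ (γ = -β ∨ γ = -sg true β)) := by
  have o := hβ.orth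
  have r := hβ.root
  simp only [ips, ← ip_x]
  by_cases h1 : γ = β
  · subst h1; exact Or.inl ⟨by omega, Or.inl rfl⟩
  by_cases h2 : γ = sg true β
  · subst h2; exact Or.inl ⟨by rw [sg_sg]; omega, Or.inr rfl⟩
  by_cases h3 : γ = -β
  · subst h3
    exact Or.inr (Or.inr (Or.inr (Or.inr ⟨by rw [sg_neg, ip_neg_right, ip_neg_right]; omega,
      Or.inl rfl⟩)))
  by_cases h4 : γ = -sg true β
  · subst h4
    exact Or.inr (Or.inr (Or.inr (Or.inr
      ⟨by rw [sg_neg, sg_sg, ip_neg_right, ip_neg_right]; omega, Or.inr rfl⟩)))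
  have a1 := ip_le_one r hγ.root (Ne.symm h1)
  have a2 := ip_le_one r hγ.sg.root fun h => h2 (by rw [h, sg_sg])
  have a3 := neg_one_le_ip r hγ.root fun h => h3 (eq_neg_of_add_eq_zero_right h)
  have a4 := neg_one_le_ip r hγ.sg.root fun h => h4 (by
    rw [← sg_neg, ← eq_neg_of_add_eq_zero_right h, sg_sg])
  have a5 := hβ.pair hγ
  have a6 := hβ.pair hγ.neg
  rw [sg_neg, ip_neg_right, ip_neg_right] at a6
  refine Or.inr ?_
  rw [← or_assoc, ← or_assoc]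
  refine Or.inl ?_
  omega
theorem Sh.add {β γ : Lat} (hβ : Sh β) (hγ : Sh γ) (h1 : ipx β γ = -1)
    (h2 : ipx β (Exc.sg true γ) = 0) : Sh (β + γ) := by
  rw [← ip_x] at h1 h2
  refine ⟨by rw [← ip_x, root_add hβ.root hγ.root, h1], hβ.2.1.add hγ.2.1, fun h => ?_⟩
  have h3 := congrArg (ip β) (funext h)
  rw [sg_add, ip_add_right, ip_add_right, hβ.orth, hβ.root] at h3
  omega
theorem Lo.add {l γ : Lat} (hl : Lo l) (hγ : Sh γ) (h : ipx l γ = -1) : Sh (l + γ) := by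
  rw [← ip_x] at h
  refine ⟨by rw [← ip_x, root_add hl.root hγ.root, h], hl.2.1.add hγ.2.1, fun h' => hγ.2.2 fun i => ?_⟩
  have h1 := h' i
  have h2 := hl.2.2 i
  rw [sg_add, Pi.add_apply, Pi.add_apply] at h1
  omega
theorem Lo.cases {l γ : Lat} (hl : Lo l) (hγ : Sh γ) : ipx l γ = -1 ∨ 0 ≤ ipx l γ := by
  rw [← ip_x]
  exact (ip_cases hl.root hγ.root).resolve_left fun h => hl.neg.not_Sh (h ▸ hγ)
theorem co_sh {β γ : Lat} (h : Sh γ) :
    co β (sh γ : L K) = if β = γ ∨ β = sg true γ then 1 else 0 := by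
  rw [sh, map_add]
  by_cases h1 : β = γ
  · subst h1; simp [co_e_self h.root, co_e_ne h.ne.symm]
  by_cases h2 : β = sg true γ
  · subst h2; simp [co_e_self h.sg.root, co_e_ne h.ne]
  simp [co_e_ne h1, co_e_ne h2, h1, h2]
theorem sh_fst (β : Lat) : (sh β : L K).1 = 0 := by simp [sh, e_fst]
theorem sh_mem {β : Lat} (h : Sh β) : (sh β : L K) ∈ MM K := by
  refine ⟨fun γ hγ => ?_, fun γ _ => ?_, ?_, ?_, ?_, ?_, ?_, ?_⟩
  · rw [co_sh h, if_neg]
    rintro (rfl | rfl)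
    · exact hγ h
    · exact hγ h.sg
  · rw [co_sh h, co_sh h]
    refine if_congr ?_ rfl rfl
    rw [sg_inj, or_comm]
    exact or_congr Iff.rfl ⟨fun h' => by rw [← h', sg_sg], fun h' => by rw [h', sg_sg]⟩
  all_goals simp [sh_fst]
theorem co_sh_self {γ : Lat} (h : Sh γ) : co γ (sh γ : L K) = 1 := by simp [co_sh h]
theorem co_sh_ne {β γ : Lat} (h : β ≠ γ ∧ β ≠ sg true γ) : co β (sh γ : L K) = 0 := by
  simp [sh, co_e_ne h.1, co_e_ne h.2]
theorem co_hs (β γ : Lat) : co β (hs γ : L K) = 0 := by simp [hs, co_hv]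
theorem hp_sh (β γ : Lat) : hp β (sh γ : L K) = 0 := by simp [sh, hp_e]
theorem hp_hs {β γ : Lat} : hp γ (hs β : L K) = (ips γ β : K) := by
  simp [hs, hp_hv, ips, ← ip_x, ip_comm γ]

theorem rep_sg {β : Lat} (h : Sh β) : rep (sg true β) ↔ ¬ rep β := by
  have h1 : ¬ (β 5 = β 0 ∧ β 4 = β 2) := fun h' => h.2.2 fun i => by
    fin_cases i <;> simp [sg, pm, h'.1, h'.2]
  change (β 0 < β 5 ∨ (β 0 = β 5 ∧ β 2 < β 4)) ↔ ¬ (β 5 < β 0 ∨ (β 5 = β 0 ∧ β 4 < β 2))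
  omega

theorem co_sec (β : Lat) (m : L K) : co β (sec m) = if rep β then co β m else 0 := by
  by_cases h : ip β β = 2
  · rw [co_of_root h, co_of_root h]; rfl
  · simp [co_of_not h]

theorem sec_fst (m : L K) (i : Fin 8) : (sec m).1 i = if i = 0 ∨ i = 2 then m.1 i else 0 := rfl

theorem hp_cv (β : Lat) (m : L K) : hp β m = ∑ i : Fin 8, (cv β i : K) * m.1 i := by
  simp only [hp_apply, a_eq, ip_comm _ β, ip_a]

namespace Cfg

variable {c : Cfg K}

/-- the group `F₄(2)` -/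
structure F2 (c : Cfg K) : Prop where
  hb : c.b = true
  hτ : ∀ t, c.τ t = t
  hq : c.Q2

variable (c) in
/-- constant trace on `MM` -/
def H2 (a b : Aut K) : Prop :=
  ∃ k, ∀ a' b', c.Cj a a' → c.Cj b b' → TW (MM K) (a' * b' : Aut K) = k

variable (c) in
/-- `g + g⁻¹` is orthogonal to the pairs of short root vectors with `ips = k`. -/
def BS (k : ℤ) (g : Aut K) : Prop := ∀ p ∈ c.G, ∀ β γ, Sh β → Sh γ → ips β γ = k →
  Bm (p (sh β)) (g (p (sh γ))) = Bm (p (sh γ)) (g (p (sh β)))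

namespace F2

variable (F : c.F2)
include F

theorem two : (2 : K) = 0 := F.hq.two
theorem val (t : K) : t = 0 ∨ t = 1 := F.hq t (F.hτ t)
theorem hn : c.n = 6 := by
  rcases c.ok with ⟨h, _⟩ | ⟨_, h, _⟩
  · rw [F.hb] at h; exact absurd h (by decide)
  · exact h
theorem add_self (v : L K) : v + v = 0 := by rw [← two_smul K, F.two, zero_smul]
theorem sub_eq (v w : L K) : v - w = v + w := by rw [sub_eq_add_neg, neg_eq2 F.two]
theorem sub_swap (s t : K) : s - t = t - s := by linear_combination (s - t) * F.two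
theorem R_Sh {β : Lat} (h : Sh β) : c.R β := ⟨h.root, F.hn ▸ h.2.1⟩
theorem mov {β : Lat} (h : Sh β) : sg c.b β ≠ β := F.hb ▸ h.ne
theorem Lg_Lo {β : Lat} (h : Lo β) : c.Lg β := ⟨⟨h.root, F.hn ▸ h.2.1⟩, F.hb ▸ funext h.2.2⟩
theorem R_cases {β : Lat} (h : c.R β) : Sh β ∨ Lo β := by
  have h1 : ipx β β = 2 := by rw [← ip_x, h.1]
  have h2 : Sp 6 β := F.hn ▸ h.2
  by_cases h3 : ∀ i, sg true β i = β i
  · exact Or.inr ⟨h1, h2, h3⟩
  · exact Or.inl ⟨h1, h2, h3⟩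
theorem Y_mem_Sh {β : Lat} (h : Sh β) : c.Y β 1 ∈ c.G := Y_mem (F.R_Sh h) (Al_one _)
theorem X_mem_Lo {β : Lat} (h : Lo β) : X β 1 ∈ c.G := (F.Lg_Lo h).X_mem
theorem hs_mem {β : Lat} (h : Sp 6 β) : (hs β : L K) ∈ MM K := by
  have h6 := h 6 (by decide)
  have h7 := h 7 (by decide)
  refine ⟨fun γ _ => co_hs _ _, fun γ _ => by rw [co_hs, co_hs], ?_, ?_, ?_, ?_, ?_, ?_⟩ <;>
    simp only [hs, hv, sg, pm, Prod.fst_add, Pi.add_apply, h6, h7]
  · linear_combination (β 1 : K) * F.two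
  · linear_combination (β 3 : K) * F.two
  · simp
  · simp
  · ring
  · ring
theorem MM_le : MM K ≤ c.V := fun m hm => by
  refine ⟨fun j hj => ?_, fun β hβ => hm.1 β fun h => hβ (F.hn ▸ h.2.1)⟩
  rw [F.hn] at hj
  have h6 := hm.2.2.2.2.1
  have h7 := hm.2.2.2.2.2.1
  fin_cases j <;> first | exact absurd hj (by decide) | assumption
theorem D_e {β : Lat} (h : Sp 6 β) : e β - c.st (e β) = sh β := by
  rw [st_e (F.hn ▸ h), F.hb, F.sub_eq, sh]
theorem D_hv (β : Lat) : hv β - c.st (hv β) = hs β := by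
  rw [st_hv, F.hb, F.sub_eq, hs]
theorem co_st' {β : Lat} (h : c.R β) (v : L K) : co β (c.st v) = co (sg true β) v := by
  have := co_st h.sg v
  rwa [sg_sg, F.hτ, F.hb] at this
theorem st_fst' (v : L K) (i : Fin 8) : (c.st v).1 i = v.1 (pm true i) := by
  rw [st_fst, F.hτ, F.hb]
theorem D_mem {v : L K} (hv : v ∈ c.V) : v - c.st v ∈ MM K := by
  have h6 := hv.1 6 (by rw [F.hn]; decide)
  have h7 := hv.1 7 (by rw [F.hn]; decide)
  refine ⟨fun β hβ => ?_, fun β hβ => ?_, ?_, ?_, ?_, ?_, ?_, ?_⟩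
  · by_cases h1 : ip β β = 2
    · by_cases h2 : Sp c.n β
      · have h3 := (F.R_cases ⟨h1, h2⟩).resolve_left hβ
        rw [map_sub, F.co_st' ⟨h1, h2⟩, funext h3.2.2, sub_self]
      · exact (sub_mem hv (st_mem hv)).2 β h2
    · exact co_of_not h1 _
  · rw [map_sub, map_sub, F.co_st' (F.R_Sh hβ), F.co_st' (F.R_Sh hβ.sg), sg_sg, F.sub_swap]
  all_goals simp only [Prod.fst_sub, Pi.sub_apply, F.st_fst', pm, sub_self]
  · exact F.sub_swap _ _
  · exact F.sub_swap _ _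
theorem D_sec {m : L K} (hm : m ∈ MM K) : sec m ∈ c.V ∧ sec m - c.st (sec m) = m := by
  have h0 : sec m ∈ c.V := by
    refine ⟨fun j hj => ?_, fun β hβ => ?_⟩
    · rw [sec_fst, (F.MM_le hm).1 j hj, ite_self]
    · rw [co_sec, (F.MM_le hm).2 β hβ, ite_self]
  refine ⟨h0, L_eq ?_ fun β _ => ?_⟩
  · obtain ⟨-, -, h1, h3, h6, h7, h5, h4⟩ := hm
    ext i
    rw [F.sub_eq, Prod.fst_add, Pi.add_apply, F.st_fst', sec_fst, sec_fst]
    fin_cases i <;> simp [pm, h1, h3, h6, h7, h5, h4]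
  · by_cases h : Sh β
    · rw [F.sub_eq, map_add, F.co_st' (F.R_Sh h), co_sec, co_sec, hm.2.1 β h]
      by_cases h1 : rep β <;> simp [rep_sg h, h1]
    · rw [hm.1 β h, (F.D_mem h0).1 β h]
theorem MM_G {g : Aut K} (hg : g ∈ c.G) {m : L K} (hm : m ∈ MM K) : g m ∈ MM K := by
  obtain ⟨h1, h2⟩ := F.D_sec hm
  rw [← h2, map_sub, ← G_st hg h1]
  exact F.D_mem (G_mem hg h1)
theorem MM_gen {P : L K → Prop} (h0 : P 0)
    (hadd : ∀ v w, v ∈ MM K → w ∈ MM K → P v → P w → P (v + w)) {m : L K} (hm : m ∈ MM K)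
    (hS : ∀ β, Sh β → co β m ≠ 0 → P (sh β)) (h1 : m.1 0 ≠ 0 → P (hs (a 0)))
    (h2 : m.1 2 ≠ 0 → P (hs (a 2))) : P m := by
  have hadd' : ∀ v w, (v ∈ MM K ∧ P v) → (w ∈ MM K ∧ P w) → (v + w ∈ MM K ∧ P (v + w)) :=
    fun v w hv hw => ⟨add_mem hv.1 hw.1, hadd v w hv.1 hw.1 hv.2 hw.2⟩
  have e1 : m = ∑ i : Fin 8, (sec m).1 i • (hv (a i) - c.st (hv (a i))) +
      ∑ β : Root, (sec m).2 β • (e β.1 - c.st (e β.1)) := by
    conv_lhs => rw [← (F.D_sec hm).2, L_decomp (sec m)]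
    simp only [map_add, map_sum, map_smulₛₗ, F.hτ, smul_sub, Finset.sum_sub_distrib]
    abel
  rw [e1]
  refine (hadd' _ _ (Finset.sum_induction _ (fun v => v ∈ MM K ∧ P v) hadd' ⟨zero_mem _, h0⟩
    fun i _ => ?_) (Finset.sum_induction _ (fun v => v ∈ MM K ∧ P v) hadd' ⟨zero_mem _, h0⟩
    fun β _ => ?_)).2
  · rcases F.val ((sec m).1 i) with h | h
    · rw [h, zero_smul]; exact ⟨zero_mem _, h0⟩
    · rw [h, one_smul, F.D_hv]
      rw [sec_fst] at h
      split_ifs at h with hi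
      · rcases hi with rfl | rfl
        · exact ⟨F.hs_mem (by decide), h1 (by rw [h]; exact one_ne_zero)⟩
        · exact ⟨F.hs_mem (by decide), h2 (by rw [h]; exact one_ne_zero)⟩
      · exact absurd h zero_ne_one
  · rcases F.val ((sec m).2 β) with h | h
    · rw [h, zero_smul]; exact ⟨zero_mem _, h0⟩
    · rw [h, one_smul]
      rw [← co_of_root β.2, co_sec] at h
      have h3 : co β.1 m ≠ 0 := fun h4 => by simp [h4] at h
      have h4 : Sh β.1 := by_contra fun h5 => h3 (hm.1 _ h5)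
      rw [F.D_e h4.2.1]
      exact ⟨sh_mem h4, hS _ h4 h3⟩
theorem MM_supp (S : Lat → Prop) {P : L K → Prop} (h0 : P 0)
    (hadd : ∀ v w, v ∈ MM K → w ∈ MM K → P v → P w → P (v + w))
    (hS : ∀ β, Sh β → S β → P (sh β)) {m : L K} (hm : m ∈ MM K) (h1 : m.1 = 0)
    (h2 : ∀ β, Sh β → ¬ S β → co β m = 0) : P m :=
  F.MM_gen h0 hadd hm (fun β h h3 => hS β h (by_contra fun h4 => h3 (h2 β h h4)))
    (fun h => absurd (congrFun h1 0) h) fun h => absurd (congrFun h1 2) h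
theorem MM_ind {P : L K → Prop} (h0 : P 0)
    (hadd : ∀ v w, v ∈ MM K → w ∈ MM K → P v → P w → P (v + w))
    (hS : ∀ β, Sh β → P (sh β)) (h1 : P (hs (a 0))) (h2 : P (hs (a 2))) {m : L K}
    (hm : m ∈ MM K) : P m :=
  F.MM_gen h0 hadd hm (fun β h _ => hS β h) (fun _ => h1) fun _ => h2
theorem MM_ext {m : L K} (hm : m ∈ MM K) (h1 : m.1 = 0) (h2 : ∀ β, Sh β → co β m = 0) :
    m = 0 :=
  F.MM_supp (fun _ => False) (P := fun v => v = 0) rfl (fun v w _ _ hv hw => by rw [hv, hw, add_zero])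
    (fun _ _ h => h.elim) hm h1 fun β h _ => h2 β h
theorem cartan {m : L K} (hm : m ∈ MM K) (h1 : hp k0 m = 0) (h2 : ∀ β, Sh β → co β m = 0) :
    m = 0 ∨ m = hs k0 := by
  have hk : (hs k0 : L K) ∈ MM K := F.hs_mem (by decide)
  have k0' : (hs k0 : L K).1 0 = 0 := by
    simp only [hs, hv, sg, pm, k0, v8, Prod.fst_add, Pi.add_apply]
    push_cast
    linear_combination F.two
  have k2' : (hs k0 : L K).1 2 = 1 := by
    simp only [hs, hv, sg, pm, k0, v8, Prod.fst_add, Pi.add_apply]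
    push_cast
    linear_combination F.two
  have h0 : m.1 0 = 0 := by
    obtain ⟨-, -, a1, a3, a6, a7, a5, a4⟩ := hm
    rw [hp_cv, Fin.sum_univ_eight, a1, a3, a6, a7, a5, a4] at h1
    simp only [cv, k0, v8] at h1
    push_cast at h1
    linear_combination h1
  have key : ∀ v ∈ MM K, v.1 0 = 0 → v.1 2 = 0 → v.1 = 0 := fun v hv b0 b2 => by
    obtain ⟨-, -, a1, a3, a6, a7, a5, a4⟩ := hv
    ext i
    fin_cases i <;> simp [a1, a3, a6, a7, a5, a4, b0, b2]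
  rcases F.val (m.1 2) with h | h
  · exact Or.inl (F.MM_ext hm (key m hm h0 h) h2)
  · refine Or.inr (sub_eq_zero.1 (F.MM_ext (sub_mem hm hk) (key _ (sub_mem hm hk) ?_ ?_)
      fun β hβ => by rw [map_sub, h2 β hβ, co_hs, sub_self]))
    · rw [Prod.fst_sub, Pi.sub_apply, h0, k0', sub_self]
    · rw [Prod.fst_sub, Pi.sub_apply, h, k2', sub_self]
theorem hp_sg {β : Lat} (h : Sp 6 β) {m : L K} (hm : m ∈ MM K) : hp (sg true β) m = hp β m := by
  obtain ⟨-, -, a1, a3, a6, a7, a5, a4⟩ := hm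
  rw [hp_cv, hp_cv, Fin.sum_univ_eight, Fin.sum_univ_eight, a1, a3, a6, a7, a5, a4]
  simp only [cv, v8, sg, pm]
  push_cast
  ring

end F2

end Cfg

end Pool.Agent.MP_db74b1_al.Exc
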