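import Pool.Agent.MP_db74b1_al.F2A

/-! `F₄(2)`: Weyl group moves, levels and traces on the 26-dimensional module. -/

set_option autoImplicit false

namespace Pool.Agent.MP_db74b1_al.Exc

namespace B2

theorem dom : ∀ x ∈ allL, Sh x → 0 ≤ sv true x 1 → 0 ≤ sv true x 2 → 0 ≤ sv true x 3 →
    (ips k0 x = 1 → (∀ i, x i = p2 i) ∨ ∀ i, x i = sg true p2 i) ∧
    (ips k0 x = 0 → (∀ i, x i = et i) ∨ ∀ i, x i = sg true et i) := by decide +kernel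

theorem ht_le : ∀ x ∈ allL, Sh x → ht x ≤ 8 := by decide +kernel

def Qm (δ : Lat) : Prop := Sh (k0 + δ) ∧ ips k0 (k0 + δ) = 1 ∧ ipx (-k0) (k0 + δ) = -1 ∧
  ipx (-k0) (sg true (k0 + δ)) = 0

instance (δ : Lat) : Decidable (Qm δ) := by unfold Qm; infer_instance

theorem levm : ∀ x ∈ allL, Sh x → ips k0 x = -1 → Qm x ∨ Qm (sg true x) := by decide +kernel

theorem lev0 : ∀ x ∈ allL, Sh x → ips k0 x = 0 → ∃ y ∈ posL, ips k0 y = 1 ∧ Sh y ∧ Sh (x - y) ∧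
    ips k0 (x - y) = -1 ∧ ipx y (x - y) = -1 ∧ ipx y (sg true (x - y)) = 0 := by decide +kernel

theorem ips_neg_left (β γ : Lat) : ips (-β) γ = -ips β γ := by
  simp only [ips, ← ip_x, ip_neg_left]; ring

theorem ips_sg_left {β γ : Lat} (hβ : Sh β) (hγ : Sh γ) : ips (sg true β) γ = ips β γ := by
  rw [ips_comm hβ.sg.2.1 hγ.2.1, ips_sg, ips_comm hγ.2.1 hβ.2.1]

theorem van_sh {K : Type} [Field K] (δ : Lat) : van (fun β => htL β < ht δ) (sh δ : L K) :=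
  van.add (Z := fun β => htL β < ht δ)
    (van_e (Z := fun β => htL β < ht δ) (β := δ) (lt_irrefl (ht δ)))
    (van_e (Z := fun β => htL β < ht δ) (β := sg true δ)
      (show ¬ ht (sg true δ) < ht δ by rw [ht_sg]; exact lt_irrefl _))

theorem trace_adj {K V : Type} [Field K] [AddCommGroup V] [Module K V] [FiniteDimensional K V]
    (B : LinearMap.BilinForm K V) (hB : ∀ m, (∀ n, B m n = 0) → m = 0) (f g : V →ₗ[K] V)
    (h : ∀ m n, B m (f n) = B (g m) n) : LinearMap.trace K V g = LinearMap.trace K V f := by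
  have hi : Function.Injective (B : V →ₗ[K] Module.Dual K V) := by
    rw [injective_iff_map_eq_zero]
    exact fun m hm => hB m fun n => by rw [hm]; rfl
  let φ : V ≃ₗ[K] Module.Dual K V :=
    LinearMap.linearEquivOfInjective _ hi Subspace.dual_finrank_eq.symm
  have h1 : φ.conj g = Module.Dual.transpose (R := K) f := by
    ext l n
    obtain ⟨m, rfl⟩ := φ.surjective l
    simp only [LinearEquiv.conj_apply, LinearMap.comp_apply, LinearEquiv.coe_coe,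
      LinearEquiv.symm_apply_apply, Module.Dual.transpose_apply]
    exact (h m n).symm
  rw [← LinearMap.trace_conj' g φ, h1, LinearMap.trace_transpose']

end B2

variable {K : Type} [Field K]

namespace Cfg

variable {c : Cfg K}

namespace F2

variable (F : c.F2)
include F

theorem Mon_sh {m : Aut K} {w : W} (h : c.Mon m w) {β : Lat} (hβ : Sh β) :
    Sh (w β) ∧ m (sh β) = sh (w β) := by
  have hR := F.R_Sh hβ
  refine ⟨(F.R_cases (h.R hR)).resolve_right fun h1 =>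
    F.mov hβ ((h.fix_iff hR).1 (F.Lg_Lo h1).2), ?_⟩
  obtain ⟨s, hs, h1⟩ := h.mono β hR.1
  have h2 := h.e_sg hR h1
  rw [(F.val s).resolve_left hs] at h1 h2
  rw [F.hb] at h2
  rw [sh, map_add, h1, h2, map_one, one_smul, one_smul, sh]

theorem b_ips {m : Aut K} {w : W} (h : c.Mon m w) (β : Lat) {γ : Lat} (hγ : Sh γ) :
    ips (w β) (w γ) = ips β γ := by
  have h1 := h.sg (F.R_Sh hγ)
  rw [F.hb] at h1
  rw [ips, ips, ← h1, ← ip_x, ← ip_x, ← ip_x, ← ip_x, h.iso, h.iso]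

theorem b_k0 {β : Lat} (hβ : Sh β) :
    ∃ m w, c.Mon m w ∧ (w β = k0 ∨ w β = sg true k0) := by
  refine root_top (p := fun α => Sh α → ∃ m w, c.Mon m w ∧ (w α = k0 ∨ w α = sg true k0))
    (fun h => ?_) (fun _ => ⟨fun _ => ⟨1, 1, Mon.one, Or.inl rfl⟩,
      fun _ => ⟨1, 1, Mon.one, Or.inr (by rw [F.hb]; rfl)⟩⟩)
    (fun α i hi _ h h' => ?_) (F.R_Sh hβ) hβ
  · rw [F.hn] at h; exact absurd h (by decide)
  · obtain ⟨m, w, h1, h2⟩ := h (F.Mon_sh (n_Mon hi) h').1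
    exact ⟨_, _, h1.mul (n_Mon hi), h2⟩

theorem b_wY {i : Fin 8} (hi : i = 1 ∨ i = 2 ∨ i = 3) :
    i.1 < c.n ∧ (c.wY (a i) k0 = k0 ∨ c.wY (a i) k0 = sg true k0) := by
  have h0 : i.1 < c.n := by rw [F.hn]; rcases hi with rfl | rfl | rfl <;> decide
  refine ⟨h0, ?_⟩
  rcases hi with rfl | rfl | rfl
  · rw [wY_fix (R_a h0) (by rw [F.hb]; decide), ip_x]; decide
  · rw [wY_mov (R_a h0) (by rw [F.hb]; decide), F.hb, ip_x, ip_x]; decide
  · rw [wY_fix (R_a h0) (by rw [F.hb]; decide), ip_x]; decide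

theorem b_dom {γ : Lat} (hγ : Sh γ) : ∃ m ∈ c.G, m (sh k0) = sh k0 ∧
    (ips k0 γ = 1 → m (sh γ) = sh p2) ∧ (ips k0 γ = 0 → m (sh γ) = sh et) := by
  induction' hn : (8 - ht γ).toNat using Nat.strong_induction_on with n ih generalizing γ
  by_cases h : ∀ i : Fin 8, i = 1 ∨ i = 2 ∨ i = 3 → 0 ≤ sv true γ i
  · obtain ⟨h1, h2⟩ := B2.dom γ hγ.allL hγ (h 1 (by simp)) (h 2 (by simp)) (h 3 (by simp))
    refine ⟨1, one_mem _, rfl, fun h3 => ?_, fun h3 => ?_⟩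
    · rcases h1 h3 with h4 | h4 <;> rw [funext h4]
      · rfl
      · exact sh_sg _
    · rcases h2 h3 with h4 | h4 <;> rw [funext h4]
      · rfl
      · exact sh_sg _
  · push Not at h
    obtain ⟨i, hi, h2⟩ := h
    obtain ⟨h0, h1⟩ := F.b_wY hi
    have h3 := (ht_wY h0 γ).2 (by rwa [F.hb])
    obtain ⟨h4, h5⟩ := F.Mon_sh (n_Mon h0) hγ
    have h6 := B2.ht_le _ h4.allL h4
    obtain ⟨m, k1, k2, k3⟩ := ih _ (by omega) h4 rfl
    have h7 : ips k0 (c.wY (a i) γ) = ips k0 γ := by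
      rw [← F.b_ips (n_Mon h0) k0 hγ]
      rcases h1 with h1 | h1 <;> rw [h1]
      exact (B2.ips_sg_left A2.k0_Sh h4).symm
    have h8 : c.NY (a i) 1 (sh k0) = sh k0 := by
      rw [(F.Mon_sh (n_Mon h0) A2.k0_Sh).2]
      rcases h1 with h1 | h1 <;> rw [h1]
      exact sh_sg _
    rw [h7, ← h5] at k3
    exact ⟨_, mul_mem k1 (n_Mon h0).mem, by rw [LinearEquiv.mul_apply, h8, k2], k3⟩

theorem to_pair_s {β γ : Lat} (hβ : Sh β) (hγ : Sh γ) : ∃ m ∈ c.G, m (sh β) = sh k0 ∧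
    (ips β γ = 1 → m (sh γ) = sh p2) ∧ (ips β γ = 0 → m (sh γ) = sh et) := by
  obtain ⟨m, w, h1, h2⟩ := F.b_k0 hβ
  obtain ⟨h3, h4⟩ := F.Mon_sh h1 hγ
  obtain ⟨m', h5, h6, h7⟩ := F.b_dom h3
  have h8 : ips k0 (w γ) = ips β γ := by
    rw [← F.b_ips h1 β hγ]
    rcases h2 with h2 | h2 <;> rw [h2]
    exact (B2.ips_sg_left A2.k0_Sh h3).symm
  have h9 : m (sh β) = sh k0 := by
    rw [(F.Mon_sh h1 hβ).2]
    rcases h2 with h2 | h2 <;> rw [h2]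
    exact sh_sg _
  rw [h8, ← h4] at h7
  exact ⟨_, mul_mem h5 h1.mem, by rw [LinearEquiv.mul_apply, h9, h6], h7⟩

theorem b_U {u : Aut K} (hu : u ∈ c.U) : u (sh k0) = sh k0 := by
  have h := van_lin htL (ht k0) (fun _ h1 h2 => root_ht_pos h2 h1.2) (B2.van_sh k0) (U_P hu)
  have hx : (sh k0 : L K) ∈ MM K := sh_mem A2.k0_Sh
  exact sub_eq_zero.1 (F.MM_ext (sub_mem (F.MM_G (U_G hu) hx) hx) (h.2 (by decide))
    fun β hβ => h.1 β (B2.ht_le β hβ.allL hβ))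

theorem opp_s {g : Aut K} (hg : g ∈ c.G) (h : ¬ c.QS g) :
    ∃ g', c.Cj g g' ∧ g' (sh k0) = sh (-k0) := by
  rw [F.QS_iff hg] at h
  push Not at h
  obtain ⟨p, hp, h⟩ := h
  have hx : (sh k0 : L K) ∈ MM K := sh_mem A2.k0_Sh
  have h1 : c.Cj g (p⁻¹ * g * p⁻¹⁻¹) := ⟨_, inv_mem hp, rfl⟩
  have h2 : co (-k0) ((p⁻¹ * g * p⁻¹⁻¹) (sh k0)) ≠ 0 := by
    rwa [← F.Bm_sh A2.k0_Sh (F.MM_G (h1.mem hg) hx), inv_inv, LinearEquiv.mul_apply,
      LinearEquiv.mul_apply, F.Bm_inv (inv_mem hp) hx (F.MM_G hg (F.MM_G hp hx)), inv_inv]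
  obtain ⟨u1, hu1, m, w, hm, u2, hu2, e1⟩ := bruhat (h1.mem hg)
  obtain ⟨h3, h4⟩ := F.Mon_sh hm A2.k0_Sh
  have h5 := B2.ht_le _ h3.neg.allL h3.neg
  rw [ht_neg] at h5
  rw [e1] at h1 h2
  rw [LinearEquiv.mul_apply, LinearEquiv.mul_apply, F.b_U hu2, h4,
    co_lin htL (ht (w k0)) (fun _ h1 h2 => root_ht_pos h2 h1.2) (B2.van_sh _) (U_P hu1)
      (by rw [htL_apply, ht_neg, show ht k0 = 8 by decide]; omega)] at h2
  have h6 : (sh (w k0) : L K) = sh (-k0) := by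
    by_contra h6
    exact h2 (co_sh_ne ⟨fun h7 => h6 (by rw [h7]), fun h7 => h6 (by rw [h7, sh_sg])⟩)
  refine ⟨_, h1.trans ⟨u1⁻¹, inv_mem (U_G hu1), rfl⟩, ?_⟩
  simp only [inv_inv, LinearEquiv.mul_apply]
  rw [F.b_U hu1, F.b_U hu2, h4, inv_app, h6]

theorem gen_M {g : Aut K} (hg : g ∈ c.G) (h1 : g (sh k0) = sh k0) (h2 : g (sh (-k0)) = sh (-k0))
    (h3 : ∀ β, Sh β → ips k0 β = 1 → g (sh β) = sh β) : ∀ m ∈ MM K, g m = m := by
  have hb := (G_aut hg).1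
  have k : ∀ β γ, Sh β → Sh γ → ipx β γ = -1 → ipx β (sg true γ) = 0 → g (sh β) = sh β →
      g (sh γ) = sh γ → g (sh (β + γ)) = sh (β + γ) := fun β γ i1 i2 i3 i4 i5 i6 => by
    rw [← F.br_sh_m1 i1 i2 i3 i4, hb, i5, i6]
  have km : ∀ δ, B2.Qm δ → g (sh δ) = sh δ := fun δ h => by
    have := k _ _ A2.k0_Sh.neg h.1 h.2.2.1 h.2.2.2 h2 (h3 _ h.1 h.2.1)
    rwa [neg_add_cancel_left] at this
  have h4 : ∀ β, Sh β → ips k0 β = -1 → g (sh β) = sh β := fun β hβ h => by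
    rcases B2.levm β hβ.allL hβ h with h5 | h5
    · exact km _ h5
    · rw [← sh_sg]; exact km _ h5
  have h5 : ∀ β, Sh β → g (sh β) = sh β := fun β hβ => by
    rcases ips_cases A2.k0_Sh hβ with ⟨_, rfl | rfl⟩ | h | h | ⟨h, _⟩ | ⟨_, rfl | rfl⟩
    · exact h1
    · rwa [sh_sg]
    · exact h3 β hβ h
    · obtain ⟨y, _, i1, i2, i3, i4, i5, i6⟩ := B2.lev0 β hβ.allL hβ h
      have := k _ _ i2 i3 i5 i6 (h3 _ i2 i1) (h4 _ i3 i4)
      rwa [add_sub_cancel] at this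
    · exact h4 β hβ h
    · exact h2
    · rwa [← sg_neg, sh_sg]
  have h6 : ∀ β, Sh β → g (hs β) = hs β := fun β hβ => by
    rw [← F.br_sh_m2 hβ, hb, h5 _ hβ, h5 _ hβ.neg]
  intro m hm
  exact F.MM_ind (P := fun m => g m = m) (map_zero _)
    (fun v w _ _ i1 i2 => by rw [map_add, i1, i2]) h5 (h6 _ (by decide)) (h6 _ (by decide)) hm

theorem b_kill {θ β : Lat} (hθ : Sh θ) {m : L K} (hm : m ∈ MM K) (h2 : br (sh θ) m = 0)
    (hβ : Sh β) (h : ips θ β = -1) : co β m = 0 := by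
  have k : ∀ β, Sh β → ipx θ β = -1 → ipx θ (sg true β) = 0 → co β m = 0 := fun β hβ i1 i2 => by
    have i3 := hθ.orth
    have i4 := hθ.root
    have i5 := hβ.root
    have i6 := hθ.sg.root
    have i7 := hθ.add hβ i1 i2
    rw [← ip_x] at i1 i2
    have i8 : ip β (sg true θ) = 0 := by rw [← A2.ip_s hβ.2.1 hθ.2.1, ip_comm, i2]
    have := F.co_br_sh hθ i7 ⟨by simpa using root_ne_zero i5, fun h => by
      rw [← h, ip_add_right] at i3; omega⟩ m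
    rw [h2, map_zero, add_sub_cancel_left, co_of_not (β := θ + β - sg true θ) (by
      rw [norm_sub, norm_add, ip_add_left]; omega), add_zero] at this
    exact this.symm
  rcases ips_cases hθ hβ with ⟨h1, _⟩ | h1 | h1 | ⟨_, h1 | h1⟩ | ⟨h1, _⟩ <;> try omega
  · exact k β hβ h1.1 h1.2
  · rw [← hm.2.1 β hβ]
    exact k _ hβ.sg h1.2 (by rw [sg_sg]; exact h1.1)

theorem b_even {β : Lat} {m : L K} (h1 : br (hs k0) m = m) (hβ : Sh β) (h : ips k0 β ≠ 1)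
    (h' : ips k0 β ≠ -1) : co β m = 0 := by
  have h2 := F.co_br_hs A2.k0_Sh.2.1 hβ.2.1 m
  rw [h1] at h2
  have h3 := F.two
  rcases ips_cases A2.k0_Sh hβ with ⟨h4, _⟩ | h4 | h4 | ⟨h4, _⟩ | ⟨h4, _⟩ <;>
    first | omega | (rw [h4] at h2; push_cast at h2)
  · linear_combination h2 + co β m * h3
  · linear_combination h2
  · linear_combination h2 - co β m * h3

theorem b_two {θ : Lat} (hθ : Sh θ) (h : (θ 2 + θ 4) % 2 = 1) {m : L K} (hm : m ∈ MM K)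
    (h2 : br (sh θ) m = 0) : co (-θ) m = 0 := by
  have h1 := congrArg (fun v : L K => v.1 2) h2
  have h3 := hm.2.1 _ hθ.neg
  rw [sg_neg] at h3
  simp only [F.br_sh θ hθ, Prod.fst_add, Pi.add_apply, ad_fst, h3, Prod.fst_zero,
    Pi.zero_apply] at h1
  have h4 : ((θ 2 + θ 4 : ℤ) : K) = ((2 * ((θ 2 + θ 4) / 2) + 1 : ℤ) : K) := by
    congr 1; omega
  rw [Int.cast_add (2 * _), Int.cast_mul, Int.cast_two, F.two, zero_mul, zero_add, Int.cast_one,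
    Int.cast_add] at h4
  change -(θ 2 : K) * _ + -(θ 4 : K) * _ = 0 at h1
  linear_combination -h1 - co (-θ) m * h4

theorem lev_one {m : L K} (hm : m ∈ MM K) (h1 : br (hs k0) m = m) (h2 : br (sh k0) m = 0) :
    m.1 = 0 ∧ ∀ β, Sh β → ips k0 β ≠ 1 → co β m = 0 := by
  refine ⟨by rw [← h1, F.br_hs_fst], fun β hβ h => ?_⟩
  by_cases h3 : ips k0 β = -1
  · exact F.b_kill A2.k0_Sh hm h2 hβ h3
  · exact F.b_even h1 hβ h h3

theorem lev_neg {m : L K} (hm : m ∈ MM K) (h1 : br (hs k0) m = m) (h2 : br (sh (-k0)) m = 0) :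
    m.1 = 0 ∧ ∀ β, Sh β → ips k0 β ≠ -1 → co β m = 0 := by
  refine ⟨by rw [← h1, F.br_hs_fst], fun β hβ h => ?_⟩
  by_cases h3 : ips k0 β = 1
  · exact F.b_kill A2.k0_Sh.neg hm h2 hβ (by rw [B2.ips_neg_left, h3])
  · exact F.b_even h1 hβ h3 h

theorem lev_zero {m : L K} (hm : m ∈ MM K) (h1 : br (sh k0) m = 0) (h2 : br (sh (-k0)) m = 0) :
    hp k0 m = 0 ∧ ∀ β, Sh β → ips k0 β ≠ 0 → co β m = 0 := by
  refine ⟨by rw [← F.co_br_self A2.k0_Sh, h1, map_zero], fun β hβ h => ?_⟩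
  have h3 := F.b_two A2.k0_Sh (by decide) hm h1
  have h4 := F.b_two A2.k0_Sh.neg (by decide) hm h2
  rw [neg_neg] at h4
  rcases ips_cases A2.k0_Sh hβ with ⟨_, rfl | rfl⟩ | h5 | h5 | ⟨h5, _⟩ | ⟨_, rfl | rfl⟩
  · exact h4
  · rwa [hm.2.1 _ A2.k0_Sh]
  · exact F.b_kill A2.k0_Sh.neg hm h2 hβ (by rw [B2.ips_neg_left, h5])
  · exact absurd h5 h
  · exact F.b_kill A2.k0_Sh hm h1 hβ h5
  · exact h3
  · rwa [← sg_neg, hm.2.1 _ A2.k0_Sh.neg]

theorem BS_conj {k : ℤ} {g g' : Aut K} (hg : g ∈ c.G) (h : c.BS k g) (h' : c.Cj g g') :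
    c.BS k g' := by
  obtain ⟨q, hq, rfl⟩ := h'
  intro p hp β γ hβ hγ hk
  have h1 := F.MM_G hp (sh_mem hβ)
  have h2 := F.MM_G hp (sh_mem hγ)
  simp only [LinearEquiv.mul_apply]
  rw [F.Bm_inv hq h1 (F.MM_G hg (F.MM_G (inv_mem hq) h2)),
    F.Bm_inv hq h2 (F.MM_G hg (F.MM_G (inv_mem hq) h1))]
  exact h _ (mul_mem (inv_mem hq) hp) β γ hβ hγ hk

theorem BS_D {k : ℤ} {g p : Aut K} (hg : g ∈ c.G) (h : c.BS k g) (hp : p ∈ c.G) {β γ : Lat}
    (hβ : Sh β) (hγ : Sh γ) (hk : ips β γ = k) :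
    Bm (p (sh β)) (g (p (sh γ)) + g⁻¹ (p (sh γ))) = 0 := by
  have h1 := F.MM_G hp (sh_mem hβ)
  have h2 := F.MM_G hp (sh_mem hγ)
  rw [map_add, F.Bm_inv (inv_mem hg) h1 h2, inv_inv, F.Bm_comm (F.MM_G hg h1) h2,
    h p hp β γ hβ hγ hk, ← two_mul, F.two, zero_mul]

theorem H2_symm {a b : Aut K} (ha : a ∈ c.G) (hb : b ∈ c.G) (h : c.H2 a b) : c.H2 b a := by
  obtain ⟨k, hk⟩ := h
  refine ⟨k, fun b' a' h1 h2 => ?_⟩
  rw [← hk a' b' h2 h1]
  exact TW_comm (f := b'.toLinearMap) (g := a'.toLinearMap) (fun v hv => F.MM_G (h1.mem hb) hv)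
    fun v hv => F.MM_G (h2.mem ha) hv

theorem TW_inv_M {g : Aut K} (hg : g ∈ c.G) :
    TW (MM K) (g⁻¹ : Aut K).toLinearMap = TW (MM K) g.toLinearMap := by
  refine B2.trace_adj (LinearMap.BilinForm.restrict (Bm (K := K)) (MM K)) (fun m h => ?_) _ _
    fun m n => ?_
  · exact Subtype.ext (F.Bm_nd m.2 fun m' hm' => by
      rw [F.Bm_comm hm' m.2]; exact h ⟨m', hm'⟩)
  · change Bm m.1 (prj (MM K) (g n.1) : L K) = Bm (prj (MM K) (g⁻¹ m.1) : L K) n.1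
    rw [prj_apply _ (F.MM_G hg n.2), prj_apply _ (F.MM_G (inv_mem hg) m.2), F.Bm_inv hg m.2 n.2]

end F2

end Cfg

end Pool.Agent.MP_db74b1_al.Exc
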