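import Pool.Agent.MP_db74b1_al.F2B

/-! `F₄(2)`: the constant trace forces the symmetry of the form on pairs of short root vectors. -/

set_option autoImplicit false

namespace Pool.Agent.MP_db74b1_al.Exc

namespace C2

theorem three {A : Type} [Ring A] (n1 n2 n3 φ : A) (h12 : n2 * n1 = n1 * n2) (h31 : n3 * n1 = 0)
    (h32 : n3 * n2 = 0) (h13 : n1 * n3 = 0) (h23 : n2 * n3 = 0) :
    Dop n3 (Dop n1 (Dop n2 φ)) = n1 * n2 * φ * n3 + n3 * φ * (n1 * n2) := by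
  have k1 : ∀ z, n3 * (n1 * z) = 0 := fun z => by rw [← mul_assoc, h31, zero_mul]
  have k2 : ∀ z, n3 * (n2 * z) = 0 := fun z => by rw [← mul_assoc, h32, zero_mul]
  simp only [Dop, mul_add, add_mul, mul_assoc, k1, k2, h13, h23, h12, mul_zero, add_zero, zero_add]
  abel

theorem four {A : Type} [Ring A] (n E C φ : A) (h1 : n * E = 0) (h2 : E * n = 0)
    (h3 : C * n = n * C) :
    Dop n (E * φ * C + C * φ * E) = E * φ * (n * C) + n * C * φ * E := by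
  have k1 : ∀ z, n * (E * z) = 0 := fun z => by rw [← mul_assoc, h1, zero_mul]
  simp only [Dop, mul_add, add_mul, mul_assoc, k1, h2, h3, mul_zero, add_zero, zero_add]
  abel

theorem Dop_mul {A : Type} [Ring A] (g φ ψ : A) :
    Dop (g - 1) φ * ψ = g * (φ * (g * ψ)) - φ * ψ := by
  simp only [Dop, sub_mul, mul_sub, add_mul, one_mul, mul_one, mul_assoc]; abel

theorem cm_abs {A : Type} [Ring A] {g h : A} (H : g * h = h * g) :
    (g - 1) * (h - 1) = (h - 1) * (g - 1) := by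
  simp only [sub_mul, mul_sub, one_mul, mul_one, H]; abel

def p3 : Lat := v8 1 1 1 1 0 0 0 0
def p4 : Lat := v8 1 1 1 2 1 0 0 0
def p5 : Lat := v8 1 1 1 1 1 0 0 0

def T5 (α : Lat) : Prop := α = th 6 ∨ α = g0 ∨ α = l3 ∨ α = s1 ∨ α = sg true s1

theorem T5_ip (α β : Lat) (h1 : T5 α) (h2 : T5 β) : 0 ≤ ip α β := by
  rw [ip_x]
  rcases h1 with rfl | rfl | rfl | rfl | rfl <;> rcases h2 with rfl | rfl | rfl | rfl | rfl <;>
    decide

theorem E_fin : ∀ γ ∈ allL, Sh γ → ipx l3 γ = -1 → ipx g0 (l3 + γ) = -1 →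
    (∀ i, γ i = (-k0) i) ∨ ∀ i, γ i = sg true (-k0) i := by decide +kernel

theorem C_fin : ∀ γ ∈ allL, Sh γ → ipx (th 6) γ = -1 → ∃ δ ∈ [k0, et, p2, p3, p4, p5],
    (∀ i, γ i = (-δ) i) ∨ ∀ i, γ i = sg true (-δ) i := by decide +kernel

theorem sh_of {K : Type} [Field K] {γ δ : Lat}
    (h : (∀ i, γ i = δ i) ∨ ∀ i, γ i = sg true δ i) : (sh γ : L K) = sh δ := by
  rcases h with h | h
  · rw [funext h]
  · rw [funext h, sh_sg]

theorem ne_of {l γ δ : Lat} (hl : Lo l) (hγ : Sh γ) (h : ipx l γ ≠ ipx l δ) :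
    δ ≠ γ ∧ δ ≠ sg true γ := by
  refine ⟨fun h' => h (by rw [h']), fun h' => h ?_⟩
  rw [h', ← ipx_sg6 hl.2.1 hγ.2.1, funext hl.2.2]

theorem lθ : Lo (th 6) := by decide
theorem l0 : Lo g0 := by decide
theorem ll : Lo l3 := by decide
theorem sk : Sh k0 := by decide
theorem se : Sh et := by decide
theorem s2 : Sh p2 := by decide
theorem s3 : Sh p3 := by decide
theorem s4 : Sh p4 := by decide
theorem s5 : Sh p5 := by decide
theorem ss : Sh s1 := by decide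

end C2

open C2

variable {K : Type} [Field K]

/-- the symmetric rank two operator of a pair of short roots -/
noncomputable def Ws (β γ : Lat) (m : L K) : L K := co (-β) m • sh γ + co (-γ) m • sh β

theorem Ws_add (β γ : Lat) (v w : L K) : Ws β γ (v + w) = Ws β γ v + Ws β γ w := by
  simp only [Ws, map_add, add_smul]; abel

namespace Cfg

variable {c : Cfg K}

namespace F2

variable (F : c.F2)
include F

/-- the action on `MM` -/
noncomputable def rho : c.G →* Module.End K (MM K) where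
  toFun g := g.1.toLinearMap.restrict fun _ hm => F.MM_G g.2 hm
  map_one' := rfl
  map_mul' _ _ := rfl

theorem rho_val (g : c.G) (v : MM K) : (F.rho g v : L K) = g.1 v := rfl

/-- constant trace against the class of `b` -/
def TK (b : c.G) (φ : Module.End K (MM K)) (k : K) : Prop :=
  ∀ p : c.G, LinearMap.trace K _ (φ * F.rho (p * b * p⁻¹)) = k

theorem TK.D {b g : c.G} (h2 : g * g = 1) {φ : Module.End K (MM K)} {k : K} (h : F.TK b φ k) :
    F.TK b (Dop (F.rho g - 1) φ) 0 := fun p => by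
  have h1 := h (g * p)
  rw [mul_inv_rev, inv_eq_of_mul_eq_one_left h2] at h1
  rw [Dop_mul (F.rho g), map_sub, h p, LinearMap.trace_mul_comm, mul_assoc, ← map_mul, ← map_mul,
    ← h1, sub_eq_zero]
  simp only [mul_assoc]

theorem H2.TK {a b : c.G} (h : c.H2 a b) : ∃ k, ∀ q : c.G, F.TK b (F.rho (q * a * q⁻¹)) k := by
  obtain ⟨k, hk⟩ := h
  refine ⟨k, fun q p => ?_⟩
  rw [← hk _ _ ⟨q, q.2, rfl⟩ ⟨p, p.2, rfl⟩, ← map_mul]
  change _ = LinearMap.trace K (MM K) _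
  congr 1
  ext1 v
  exact Subtype.ext (prj_apply _ (F.rho (q * a * q⁻¹ * (p * b * p⁻¹)) v).2).symm

theorem adad0 {l l' : Lat} (hl : Lo l) (hl' : Lo l') (h : ipx l l' = 1) {m : L K} (hm : m ∈ MM K) :
    ad l (ad l' m) = 0 := by
  refine F.MM_ind (P := fun m => ad l (ad l' m) = 0) (by simp) (fun v w _ _ h1 h2 => ?_)
    (fun γ hγ => ?_) ?_ ?_ hm
  · rw [map_add, map_add, h1, h2, add_zero]
  · rcases hl'.cases hγ with h1 | h1
    · rw [F.ad_sh_m1 hl' hγ h1, F.ad_sh_nn hl (hl'.add hγ h1)]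
      have := hl.cases hγ
      rw [← ip_x] at this h ⊢
      rw [ip_add_right]; omega
    · rw [F.ad_sh_nn hl' hγ h1, map_zero]
  · rw [F.ad_hs hl' (by decide), map_zero]
  · rw [F.ad_hs hl' (by decide), map_zero]

theorem E_eq {m : L K} (hm : m ∈ MM K) : ad g0 (ad l3 m) = co (-k0) m • sh k0 := by
  refine F.MM_ind (P := fun m => ad g0 (ad l3 m) = co (-k0) m • sh k0) (by simp)
    (fun v w _ _ h1 h2 => ?_) (fun γ hγ => ?_) ?_ ?_ hm
  · rw [map_add, map_add, h1, h2, map_add, add_smul]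
  · by_cases h : -k0 = γ ∨ -k0 = sg true γ
    · have e : (sh γ : L K) = sh (-k0) := by
        rcases h with h | h
        · rw [h]
        · rw [h, sh_sg]
      rw [e, co_sh_self sk.neg, one_smul, F.ad_sh_m1 ll sk.neg (by decide),
        F.ad_sh_m1 l0 (by decide) (by decide)]
      exact sh_of (by decide)
    · rw [co_sh hγ, if_neg h, zero_smul]
      rcases ll.cases hγ with h1 | h1
      · rw [F.ad_sh_m1 ll hγ h1]
        refine F.ad_sh_nn l0 (ll.add hγ h1) ((l0.cases (ll.add hγ h1)).resolve_left fun h2 => h ?_)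
        rcases E_fin γ hγ.allL hγ h1 h2 with h3 | h3
        · exact Or.inl (funext h3).symm
        · exact Or.inr (by rw [funext h3, sg_sg])
      · rw [F.ad_sh_nn ll hγ h1, map_zero]
  · rw [F.ad_hs ll (by decide), map_zero, co_hs, zero_smul]
  · rw [F.ad_hs ll (by decide), map_zero, co_hs, zero_smul]

theorem C_eq {m : L K} (hm : m ∈ MM K) :
    ad (th 6) m = Ws k0 et m + Ws p2 p3 m + Ws p4 p5 m := by
  refine F.MM_ind (P := fun m => ad (th 6) m = Ws k0 et m + Ws p2 p3 m + Ws p4 p5 m)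
    (by simp [Ws]) (fun v w _ _ h1 h2 => ?_) (fun γ hγ => ?_) ?_ ?_ hm
  · rw [map_add, h1, h2, Ws_add, Ws_add, Ws_add]; abel
  · rcases lθ.cases hγ with h1 | h1
    · obtain ⟨δ, hδ, h2⟩ := C_fin γ hγ.allL hγ h1
      rw [sh_of h2]
      simp only [List.mem_cons, List.not_mem_nil, or_false] at hδ
      rcases hδ with rfl | rfl | rfl | rfl | rfl | rfl <;>
        rw [F.ad_sh_m1 lθ (by decide) (by decide)] <;>
        simp (disch := decide) only [Ws, co_sh_self, co_sh_ne, zero_smul, one_smul, add_zero,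
          zero_add] <;> exact sh_of (by decide)
    · have k : ∀ δ, ipx (th 6) (-δ) = -1 → co (-δ) (sh γ : L K) = 0 := fun δ h3 =>
        co_sh_ne (ne_of lθ hγ (by omega))
      rw [F.ad_sh_nn lθ hγ h1]
      simp (disch := decide) only [Ws, k, zero_smul, add_zero]
  · simp [F.ad_hs lθ (β := a 0) (by decide), Ws, co_hs]
  · simp [F.ad_hs lθ (β := a 2) (by decide), Ws, co_hs]

theorem Y_fix' {β γ : Lat} (hβ : Sh β) (hγ : Sh γ) (h : 0 ≤ ips β γ) :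
    c.Y β 1 (sh γ) = sh γ := by
  rw [F.Y_M hβ (sh_mem hγ), F.br_sh_nn hβ hγ h, co_sh_ne, zero_smul, add_zero, add_zero]
  have h2 : ips β (-β) = -2 := by
    rw [ips_neg, ips, hβ.1, ← ip_x, hβ.orth]; rfl
  constructor
  · rintro rfl; omega
  · intro h'
    rw [← ips_sg, ← h'] at h; omega

theorem Y_step {β γ : Lat} (hβ : Sh β) (hγ : Sh γ) (h1 : ipx β γ = -1)
    (h2 : ipx β (sg true γ) = 0) (h3 : -β ≠ γ ∧ -β ≠ sg true γ) :
    c.Y β 1 (sh γ) = sh γ + sh (β + γ) := by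
  rw [F.Y_M hβ (sh_mem hγ), F.br_sh_m1 hβ hγ h1 h2, co_sh_ne h3, zero_smul, add_zero]

theorem W_eq {m : L K} (hm : m ∈ MM K) : c.Y s1 1 (ad (th 6) m) - ad (th 6) m = Ws k0 p2 m := by
  have e1 : c.Y s1 1 (sh et) = sh et + sh p2 := by
    rw [F.Y_step ss se (by decide) (by decide) (by decide), sh_of (γ := s1 + et) (δ := p2) (by decide)]
  have e3 : c.Y s1 1 (sh p3) = sh p3 + sh k0 := by
    rw [← sh_sg p3, F.Y_step ss s3.sg (by decide) (by decide) (by decide),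
      sh_of (γ := s1 + sg true p3) (δ := k0) (by decide)]
  rw [F.C_eq hm]
  simp only [Ws, map_add, map_smul, e1, e3, F.Y_fix' ss sk (by decide), F.Y_fix' ss s2 (by decide),
    F.Y_fix' ss s4 (by decide), F.Y_fix' ss s5 (by decide)]
  module

theorem star {a b : c.G} {k : K} (h : F.TK b (F.rho a) k) (p : c.G) {b' : Aut K}
    (hb' : b' = (p * b * p⁻¹ : c.G)) :
    co (-k0) (a.1 (ad (th 6) (b' (sh k0)))) + co (-k0) (b' (ad (th 6) (a.1 (sh k0)))) = 0 ∧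
    co (-k0) (a.1 (Ws k0 p2 (b' (sh k0)))) + co (-k0) (b' (Ws k0 p2 (a.1 (sh k0)))) = 0 := by
  subst hb'
  let x1 : c.G := ⟨X g0 1, F.X_mem_Lo l0⟩
  let x2 : c.G := ⟨X l3 1, F.X_mem_Lo ll⟩
  let x3 : c.G := ⟨X (th 6) 1, F.X_mem_Lo lθ⟩
  let x4 : c.G := ⟨c.Y s1 1, F.Y_mem_Sh ss⟩
  have u1 : x1.1 ∈ Ucl K T5 := X_mem_Ucl (β := g0) (Or.inr (Or.inl rfl)) 1
  have u2 : x2.1 ∈ Ucl K T5 := X_mem_Ucl (β := l3) (Or.inr (Or.inr (Or.inl rfl))) 1
  have u3 : x3.1 ∈ Ucl K T5 := X_mem_Ucl (β := th 6) (Or.inl rfl) 1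
  have u4 : x4.1 ∈ Ucl K T5 := Y_mem_Ucl (α := s1) (Or.inr (Or.inr (Or.inr (Or.inl rfl))))
    (Or.inr (Or.inr (Or.inr (Or.inr (by rw [F.hb]))))) _
  have sq : ∀ g : c.G, g.1 ∈ Ucl K T5 → g * g = 1 := fun g hg =>
    Subtype.ext (Ucl_sq T5_ip F.two hg)
  have cm : ∀ g g' : c.G, g.1 ∈ Ucl K T5 → g'.1 ∈ Ucl K T5 →
      (F.rho g - 1) * (F.rho g' - 1) = (F.rho g' - 1) * (F.rho g - 1) := fun g g' hg hg' => by
    have : g * g' = g' * g := Subtype.ext (Ucl_comm T5_ip hg hg')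
    exact cm_abs (g := F.rho g) (h := F.rho g') (by rw [← map_mul, this, map_mul])
  have nv : ∀ {l : Lat} (hl : Lo l) (v : MM K),
      ((F.rho ⟨X l 1, F.X_mem_Lo hl⟩ - 1) v : L K) = ad l v := fun hl v => by
    change X _ 1 v.1 - v.1 = _
    rw [F.X_M hl v.2, add_sub_cancel_left]
  have z : ∀ {l l' : Lat} (hl : Lo l) (hl' : Lo l'), ipx l l' = 1 →
      (F.rho ⟨X l 1, F.X_mem_Lo hl⟩ - 1) * (F.rho ⟨X l' 1, F.X_mem_Lo hl'⟩ - 1) = 0 :=
    fun hl hl' h => LinearMap.ext fun v => Subtype.ext (by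
      rw [Module.End.mul_apply, nv hl, nv hl', F.adad0 hl hl' h v.2]; rfl)
  let E : Module.End K (MM K) := (co (-k0) ∘ₗ (MM K).subtype).smulRight ⟨sh k0, sh_mem sk⟩
  have hE : (F.rho x1 - 1) * (F.rho x2 - 1) = E := LinearMap.ext fun v => Subtype.ext (by
    rw [Module.End.mul_apply, nv l0, nv ll, F.E_eq v.2]; rfl)
  have h4 : (F.rho x4 - 1) * E = 0 := LinearMap.ext fun v => Subtype.ext (by
    change c.Y s1 1 (co (-k0) v.1 • sh k0) - co (-k0) v.1 • sh k0 = 0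
    rw [map_smul, F.Y_fix' ss sk (by decide), sub_self])
  have h4' : E * (F.rho x4 - 1) = 0 := by
    rw [← hE, mul_assoc, cm x2 x4 u2 u4, ← mul_assoc, cm x1 x4 u1 u4, mul_assoc, hE, h4]
  have t3 := TK.D F (sq _ u3) (TK.D F (sq _ u1) (TK.D F (sq _ u2) h))
  rw [three _ _ _ _ (cm _ _ u2 u1) (z lθ l0 (by decide)) (z lθ ll (by decide))
    (z l0 lθ (by decide)) (z ll lθ (by decide)), hE] at t3
  have t4 := TK.D F (sq _ u4) t3
  rw [C2.four _ _ _ _ h4 h4' (cm _ _ u3 u4)] at t4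
  have tr : ∀ Z φ ψ : Module.End K (MM K), LinearMap.trace K _ ((E * φ * Z + Z * φ * E) * ψ) =
      co (-k0) (φ (Z (ψ ⟨sh k0, sh_mem sk⟩))).1 + co (-k0) (ψ (Z (φ ⟨sh k0, sh_mem sk⟩))).1 := by
    have t : ∀ ψ : Module.End K (MM K), LinearMap.trace K _ (E * ψ) =
        co (-k0) (ψ ⟨sh k0, sh_mem sk⟩).1 := fun ψ => by
      rw [show E * ψ = ((co (-k0) ∘ₗ (MM K).subtype) ∘ₗ ψ).smulRight ⟨sh k0, sh_mem sk⟩ from rfl,
        LinearMap.trace_smulRight]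
      rfl
    intro Z φ ψ
    rw [add_mul, map_add, mul_assoc (Z * φ), LinearMap.trace_mul_comm K (Z * φ), mul_assoc,
      mul_assoc, mul_assoc, t, t]
    rfl
  have w : ∀ v : MM K, (((F.rho x4 - 1) * (F.rho x3 - 1)) v : L K) = Ws k0 p2 v.1 := fun v => by
    rw [← F.W_eq v.2, ← nv lθ]; rfl
  have r3 := t3 p
  have r4 := t4 p
  rw [tr] at r3 r4
  have w3 : ∀ v : MM K, ((F.rho x3 - 1) v : L K) = ad (th 6) v := nv lθ
  simp only [rho_val, w3, w] at r3 r4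
  exact ⟨r3, r4⟩

theorem co_conj {g p : Aut K} (hg : g ∈ c.G) (hp : p ∈ c.G) {β γ : Lat} (hβ : Sh β) (hγ : Sh γ) :
    co (-β) ((p⁻¹ * g * p) (sh γ)) = Bm (p (sh β)) (g (p (sh γ))) := by
  have h1 := F.MM_G hg (F.MM_G hp (sh_mem hγ))
  rw [LinearEquiv.mul_apply, LinearEquiv.mul_apply, ← F.Bm_sh hβ (F.MM_G (inv_mem hp) h1),
    F.Bm_inv (inv_mem hp) (sh_mem hβ) h1, inv_inv]

theorem setup {a b : Aut K} (ha : a ∈ c.G) (hb : b ∈ c.G) (h : c.H2 a b) (h1 : ¬ c.QS a) :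
    ∃ q ∈ c.G, co (-k0) ((q⁻¹ * a * q) (sh k0)) = 1 ∧ ∀ p ∈ c.G,
      co (-k0) ((q⁻¹ * a * q) (ad (th 6) ((p⁻¹ * b * p) (sh k0)))) +
        co (-k0) ((p⁻¹ * b * p) (ad (th 6) ((q⁻¹ * a * q) (sh k0)))) = 0 ∧
      co (-k0) ((q⁻¹ * a * q) (Ws k0 p2 ((p⁻¹ * b * p) (sh k0)))) +
        co (-k0) ((p⁻¹ * b * p) (Ws k0 p2 ((q⁻¹ * a * q) (sh k0)))) = 0 := by
  rw [F.QS_iff ha] at h1
  push Not at h1
  obtain ⟨q, hq, h2⟩ := h1
  obtain ⟨k, hk⟩ := H2.TK F (a := ⟨a, ha⟩) (b := ⟨b, hb⟩) h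
  refine ⟨q, hq, (F.val _).resolve_left (by rwa [F.co_conj ha hq sk sk]), fun p hp => ?_⟩
  exact F.star (hk ⟨q, hq⟩⁻¹) ⟨p, hp⟩⁻¹ (b' := p⁻¹ * b * p) (by simp)

theorem finish {b d : Aut K} (hd : d ∈ c.G) {k : ℤ} {μ ν : Lat}
    (hν : Sh ν) (h0 : ips k0 ν = k) (h1 : d (sh k0) = sh k0) (h2 : d (sh μ) = sh μ + sh ν)
    (h3 : ∀ β γ, Sh β → Sh γ → ips β γ = k → ∃ m ∈ c.G, m (sh β) = sh k0 ∧ m (sh γ) = sh μ)
    {t : K} (h4 : ∀ p ∈ c.G, Bm (p (sh k0)) (b (p (sh μ))) + Bm (p (sh μ)) (b (p (sh k0))) +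
      t * Bm (p (sh k0)) (b (p (sh k0))) = 0) : c.BS k b := by
  have iv : ∀ {m : Aut K} {v w : L K}, m v = w → m⁻¹ w = v := fun h => by rw [← h, inv_app]
  have k2 : ∀ p ∈ c.G, Bm (p (sh k0)) (b (p (sh μ))) + Bm (p (sh μ)) (b (p (sh k0))) = 0 := by
    intro p hp
    obtain ⟨m, hm, i1, i2⟩ := h3 k0 ν sk hν h0
    have e1 := h4 _ (mul_mem hp hd)
    have e2 := h4 _ (mul_mem hp (inv_mem hm))
    simp only [LinearEquiv.mul_apply, h1, h2, iv i1, iv i2, map_add, LinearMap.add_apply] at e1 e2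
    linear_combination e1 - e2
  intro p hp β γ hβ hγ h
  obtain ⟨m, hm, i1, i2⟩ := h3 β γ hβ hγ h
  have e := k2 _ (mul_mem hp (inv_mem hm))
  simp only [LinearEquiv.mul_apply, iv i1, iv i2] at e
  linear_combination e - Bm (p (sh γ)) (b (p (sh β))) * F.two

theorem BS_one {a b : Aut K} (ha : a ∈ c.G) (hb : b ∈ c.G) (h : c.H2 a b) (h1 : ¬ c.QS a) :
    c.BS 1 b := by
  obtain ⟨q, hq, h2, h3⟩ := F.setup ha hb h h1
  have hδ : Sh (-Exc.a 2) := by decide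
  refine F.finish (F.Y_mem_Sh hδ) (μ := p2) (ν := -Exc.a 2 + p2) (by decide) (by decide)
    (F.Y_fix' hδ sk (by decide)) (F.Y_step hδ s2 (by decide) (by decide) (by decide))
    (fun β γ hβ hγ h => ?_) (t := co (-k0) ((q⁻¹ * a * q) (sh p2)) +
      co (-p2) ((q⁻¹ * a * q) (sh k0))) fun p hp => ?_
  · obtain ⟨m, hm, i1, i2, _⟩ := F.to_pair_s hβ hγ
    exact ⟨m, hm, i1, i2 h⟩
  · have e := (h3 p hp).2
    simp only [Ws, map_add, map_smul, smul_eq_mul, h2, F.co_conj hb hp sk sk,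
      F.co_conj hb hp sk s2, F.co_conj hb hp s2 sk] at e
    linear_combination e

theorem BS_zero {a b : Aut K} (ha : a ∈ c.G) (hb : b ∈ c.G) (h : c.H2 a b) (h1 : ¬ c.QS a)
    (h2 : c.BS 1 a) (h3 : c.BS 1 b) : c.BS 0 b := by
  obtain ⟨q, hq, h4, h5⟩ := F.setup ha hb h h1
  have hδ : Lo (-Exc.a 1) := by decide
  have sy : ∀ {g p : Aut K}, g ∈ c.G → p ∈ c.G → c.BS 1 g → ∀ γ, Sh γ → ips k0 γ = 1 →
      co (-k0) ((p⁻¹ * g * p) (sh γ)) = co (-γ) ((p⁻¹ * g * p) (sh k0)) :=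
    fun hg hp h γ hγ h' => by
      rw [F.co_conj hg hp sk hγ, F.co_conj hg hp hγ sk, h _ hp _ _ sk hγ h']
  refine F.finish (F.X_mem_Lo hδ) (μ := et) (ν := -Exc.a 1 + et) (by decide) (by decide)
    (by rw [F.X_M hδ (sh_mem sk), F.ad_sh_nn hδ sk (by decide), add_zero])
    (by rw [F.X_M hδ (sh_mem se), F.ad_sh_m1 hδ se (by decide)])
    (fun β γ hβ hγ h => ?_) (t := co (-k0) ((q⁻¹ * a * q) (sh et)) +
      co (-et) ((q⁻¹ * a * q) (sh k0))) fun p hp => ?_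
  · obtain ⟨m, hm, i1, _, i2⟩ := F.to_pair_s hβ hγ
    exact ⟨m, hm, i1, i2 h⟩
  · have e := (h5 p hp).1
    have ma := F.MM_G (mul_mem (mul_mem (inv_mem hq) ha) hq) (sh_mem sk)
    have mb := F.MM_G (mul_mem (mul_mem (inv_mem hp) hb) hp) (sh_mem sk)
    simp only [F.C_eq ma, F.C_eq mb, Ws, map_add, map_smul, smul_eq_mul, h4,
      sy ha hq h2 p2 s2 (by decide), sy ha hq h2 p3 s3 (by decide), sy ha hq h2 p4 s4 (by decide),
      sy ha hq h2 p5 s5 (by decide), sy hb hp h3 p2 s2 (by decide), sy hb hp h3 p3 s3 (by decide),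
      sy hb hp h3 p4 s4 (by decide), sy hb hp h3 p5 s5 (by decide), F.co_conj hb hp sk sk,
      F.co_conj hb hp sk se, F.co_conj hb hp se sk] at e
    generalize co (-p2) ((q⁻¹ * a * q) (sh k0)) = a2 at e
    generalize co (-p3) ((q⁻¹ * a * q) (sh k0)) = a3 at e
    generalize co (-p4) ((q⁻¹ * a * q) (sh k0)) = a4 at e
    generalize co (-p5) ((q⁻¹ * a * q) (sh k0)) = a5 at e
    generalize co (-p2) ((p⁻¹ * b * p) (sh k0)) = b2 at e
    generalize co (-p3) ((p⁻¹ * b * p) (sh k0)) = b3 at e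
    generalize co (-p4) ((p⁻¹ * b * p) (sh k0)) = b4 at e
    generalize co (-p5) ((p⁻¹ * b * p) (sh k0)) = b5 at e
    linear_combination e - (a2 * b3 + a3 * b2 + a4 * b5 + a5 * b4) * F.two

end F2

end Cfg

end Pool.Agent.MP_db74b1_al.Exc
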