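import Pool.Agent.MP_db74b1_al.F2B

/-! `F₄(2)`: the two types of elements sending `x` to `y`, and the first type. -/

set_option autoImplicit false

namespace Pool.Agent.MP_db74b1_al.Exc

variable {K : Type} [Field K]

namespace F2DX

theorem s0 : Sh k0 := by decide
theorem se : Sh et := by decide
theorem sp : Sh p2 := by decide
theorem sq : Sh (-k0 + p2) := by decide

theorem lev_sub : ∀ δ ∈ allL, Sh δ → (Sh (δ - k0) → ips k0 (δ - k0) = -1 ∨ ips k0 (δ - k0) = 0) ∧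
    (Sh (δ - sg true k0) → ips k0 (δ - sg true k0) = -1 ∨ ips k0 (δ - sg true k0) = 0) := by
  decide +kernel

theorem pair_fact : ∀ γ ∈ allL, Sh γ → ips k0 γ = 1 → ∀ δ ∈ allL, Sh δ → ips k0 δ = 1 →
    ips γ δ = -1 →
    (ipx (-γ) k0 = -1 ∧ ipx (-γ) (sg true k0) = 0 ∧
      ((∀ i, (-γ + k0) i = δ i) ∨ ∀ i, (-γ + k0) i = sg true δ i)) ∨
    (ipx (-γ) (sg true k0) = -1 ∧ ipx (-γ) (sg true (sg true k0)) = 0 ∧
      ((∀ i, (-γ + sg true k0) i = δ i) ∨ ∀ i, (-γ + sg true k0) i = sg true δ i)) := by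
  decide +kernel

theorem ne_of_lev {β γ : Lat} (h : ips k0 β ≠ ips k0 γ) : β ≠ γ ∧ β ≠ sg true γ :=
  ⟨fun e => h (by rw [e]), fun e => h (by rw [e, ips_sg])⟩

theorem l0 : ips k0 k0 = 2 := by decide
theorem l0' : ips k0 (-k0) = -2 := by decide

end F2DX

namespace Cfg

variable {c : Cfg K}

namespace F2

variable (F : c.F2)
include F

open F2DX

theorem hp_et {m : L K} (hm : m ∈ MM K) : hp k0 m = hp et m := by
  refine F.MM_ind (P := fun m => hp k0 m = hp et m) (by simp) (fun v w _ _ h1 h2 => ?_)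
    (fun β _ => ?_) ?_ ?_ hm
  · simp only [map_add, h1, h2]
  · simp only [hp_sh]
  · simp only [hp_hs]
    rw [show ips k0 (a 0) = 1 by decide, show ips et (a 0) = -1 by decide]
    push_cast
    linear_combination F.two
  · simp only [hp_hs]
    rw [show ips k0 (a 2) = 0 by decide, show ips et (a 2) = 0 by decide]

theorem typ_s {g : Aut K} (hg : g ∈ c.G) (h1 : c.BS 1 g) (h0 : c.BS 0 g)
    (h : g (sh k0) = sh (-k0)) :
    g⁻¹ (sh k0) = sh (-k0) ∨ g⁻¹ (sh k0) = sh k0 + hs k0 + sh (-k0) := by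
  have mx : (sh k0 : L K) ∈ MM K := sh_mem s0
  have my : (sh (-k0) : L K) ∈ MM K := sh_mem s0.neg
  have mh : (hs k0 : L K) ∈ MM K := F.hs_mem s0.2.1
  have mz := F.MM_G (inv_mem hg) mx
  have A := G_aut (inv_mem hg)
  have Q : ∀ m ∈ MM K, br (g⁻¹ (sh k0)) (br (g⁻¹ (sh k0)) m) = 0 := fun m hm => by
    rw [← inv_app g m, ← A.1, ← A.1, F.brbr s0 (F.MM_G hg hm), map_zero]
  have B : ∀ m ∈ MM K, Bm (sh k0) (g m) = Bm m (g⁻¹ (sh k0)) := fun m hm => by
    rw [F.Bm_inv hg mx hm, F.Bm_comm mz hm]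
  have ey := F.Y_M se mx
  rw [F.br_sh_nn se s0 (by decide), co_sh_ne (ne_of_lev (by decide)), zero_smul, add_zero,
    add_zero] at ey
  have ey2 := F.Y_M se (sh_mem se.neg : (sh (-et) : L K) ∈ MM K)
  rw [F.br_sh_m2 se, co_sh_self se.neg, one_smul] at ey2
  have z0 := h0 _ (F.Y_mem_Sh se) k0 (-et) s0 se.neg (by decide)
  have me : (sh (-et) + hs et + sh et : L K) ∈ MM K :=
    add_mem (add_mem (sh_mem se.neg) (F.hs_mem se.2.1)) (sh_mem se)
  rw [ey, ey2, B _ me, h] at z0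
  have z1 := B _ mx
  rw [h, F.Bm_sh s0 my, F.Bm_sh s0 mz, co_sh_self s0.neg] at z1
  generalize g⁻¹ (sh k0) = z at mz Q B z0 z1 ⊢
  have z2 : ∀ β, Sh β → ips k0 β = -1 ∨ ips k0 β = 0 → co β z = 0 := fun β hβ hl => by
    have e : Bm (sh k0) (g (sh (-β))) = Bm (sh (-β)) (g (sh k0)) := by
      rcases hl with hl | hl
      · exact h1 1 (one_mem _) k0 (-β) s0 hβ.neg (by rw [ips_neg, hl]; rfl)
      · exact h0 1 (one_mem _) k0 (-β) s0 hβ.neg (by rw [ips_neg, hl]; rfl)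
    rwa [B _ (sh_mem hβ.neg), h, F.Bm_sh hβ.neg mz, F.Bm_sh hβ.neg my, neg_neg,
      co_sh_ne (ne_of_lev (by rw [l0']; omega))] at e
  have z3 : hp k0 z = 0 := by
    simp only [map_add, LinearMap.add_apply] at z0
    rw [F.Bm_sh se.neg mz, F.Bm_sh se mz, F.Bm_hs se.2.1 mz, F.Bm_sh se.neg my, F.Bm_sh se my,
      F.Bm_hs se.2.1 my, hp_sh, z2 _ se.neg.neg (by decide), z2 _ se.neg (by decide),
      co_sh_ne (ne_of_lev (by decide)), co_sh_ne (ne_of_lev (by decide))] at z0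
    rw [F.hp_et mz]
    simpa using z0
  have z4 : br (sh k0) (z - sh (-k0)) = 0 := by
    have mu := sub_mem mz my
    have c1 : co (-k0) (z - sh (-k0)) = 0 := by rw [map_sub, ← z1, co_sh_self s0.neg, sub_self]
    have c2 : ∀ β, (Sh β → ips k0 β = -1 ∨ ips k0 β = 0) → co β (z - sh (-k0)) = 0 :=
      fun β hβ => by
        by_cases hs : Sh β
        · rw [map_sub, z2 β hs (hβ hs), co_sh_ne (ne_of_lev (by
            rw [l0']; have := hβ hs; omega)), sub_self]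
        · exact mu.1 β hs
    refine F.MM_ext (F.br_mem mx mu) ?_ fun δ hδ => ?_
    · have c3 : co (-sg true k0) (z - sh (-k0)) = 0 := (mu.2.1 _ s0.neg).trans c1
      rw [F.br_sh k0 s0]
      funext i
      simp only [Prod.fst_add, Pi.add_apply, ad_fst, c1, c3, mul_zero, add_zero, Pi.zero_apply]
    · by_cases e1 : δ = k0
      · rw [e1, F.co_br_self s0, map_sub, z3, hp_sh, sub_self]
      by_cases e2 : δ = sg true k0
      · rw [e2, (F.br_mem mx mu).2.1 _ s0, F.co_br_self s0, map_sub, z3, hp_sh, sub_self]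
      rw [F.co_br_sh s0 hδ ⟨e1, e2⟩, c2 _ (lev_sub δ hδ.allL hδ).1, c2 _ (lev_sub δ hδ.allL hδ).2,
        add_zero]
  have z5 : br (hs k0) z = 0 := by
    have e : br (sh k0) z = hs k0 := by
      have := z4
      rwa [map_sub, F.br_sh_m2 s0, sub_eq_zero] at this
    have := Q _ mx
    rwa [F.br_comm z (sh k0), e, F.br_comm] at this
  have z6 : ∀ β, Sh β → ips k0 β = 1 → co β z = 0 := fun β hβ hl => by
    have := F.co_br_hs s0.2.1 hβ.2.1 z
    rw [z5, map_zero, hl] at this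
    simpa using this.symm
  have mu : z - sh (-k0) - co k0 z • sh k0 ∈ MM K :=
    sub_mem (sub_mem mz my) ((MM K).smul_mem _ mx)
  have z7 := F.cartan mu (by simp only [map_sub, map_smul, z3, hp_sh]; simp) fun β hβ => by
    have n1 : ips k0 β ≠ -2 → co β (sh (-k0) : L K) = 0 := fun e =>
      co_sh_ne (ne_of_lev (by rwa [l0']))
    have n2 : ips k0 β ≠ 2 → co β (sh k0 : L K) = 0 := fun e => co_sh_ne (ne_of_lev (by rwa [l0]))
    rcases ips_cases s0 hβ with ⟨_, rfl | rfl⟩ | e | e | ⟨e, -⟩ | ⟨_, rfl | rfl⟩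
    · simp only [map_sub, map_smul, n1 (by omega), co_sh_self s0]; simp
    · rw [mu.2.1 _ s0]
      simp only [map_sub, map_smul, co_sh_self s0,
        co_sh_ne (K := K) (ne_of_lev (β := k0) (γ := -k0) (by decide))]
      simp
    · simp only [map_sub, map_smul, n1 (by omega), n2 (by omega), z6 β hβ e]; simp
    · simp only [map_sub, map_smul, n1 (by omega), n2 (by omega), z2 β hβ (Or.inr e)]; simp
    · simp only [map_sub, map_smul, n1 (by omega), n2 (by omega), z2 β hβ (Or.inl e)]; simp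
    · simp only [map_sub, map_smul, n2 (by omega), co_sh_self s0.neg, ← z1]; simp
    · refine (mu.2.1 _ s0.neg).trans ?_
      simp only [map_sub, map_smul, co_sh_self s0.neg, ← z1,
        co_sh_ne (K := K) (ne_of_lev (β := -k0) (γ := k0) (by decide))]
      simp
  have q := Q _ (sh_mem sp)
  have b1 : br (sh (-k0) : L K) (sh p2) = sh (-k0 + p2) :=
    F.br_sh_m1 s0.neg sp (by decide) (by decide)
  have b2 : br (sh k0 : L K) (sh p2) = 0 := F.br_sh_nn s0 sp (by decide)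
  have b3 : br (sh (-k0) : L K) (sh (-k0 + p2)) = 0 := F.br_sh_nn s0.neg sq (by decide)
  have b4 : br (sh k0 : L K) (sh (-k0 + p2)) = sh p2 := by
    rw [F.br_sh_m1 s0 sq (by decide) (by decide), add_neg_cancel_left]
  have b5 : br (hs k0 : L K) (sh p2) = sh p2 := by
    rw [F.br_hs_sh s0.2.1 sp, show ips k0 p2 = 1 by decide, Int.cast_one, one_smul]
  have b6 : br (hs k0 : L K) (sh (-k0 + p2)) = -sh (-k0 + p2) := by
    rw [F.br_hs_sh s0.2.1 sq, show ips k0 (-k0 + p2) = -1 by decide]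
    simp
  have n : (sh p2 : L K) ≠ 0 := fun e => by
    have := co_sh_self (K := K) sp
    rw [e, map_zero] at this
    exact zero_ne_one this
  rcases F.val (co k0 z) with t | t <;> rw [t] at z7 <;> rcases z7 with e | e
  · left
    rwa [zero_smul, sub_zero, sub_eq_zero] at e
  · rw [zero_smul, sub_zero, sub_eq_iff_eq_add] at e
    rw [e] at q
    simp only [map_add, LinearMap.add_apply, b1, b3, b5, b6] at q
    exact absurd (by rw [← q]; abel) n
  · rw [one_smul, sub_sub, sub_eq_zero] at e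
    rw [e] at q
    simp only [map_add, LinearMap.add_apply, b1, b2, b3, b4, add_zero, zero_add] at q
    exact absurd q n
  · right
    rw [one_smul, sub_sub, sub_eq_iff_eq_add] at e
    rw [e]
    abel

theorem ncase {g : Aut K} (hg : g ∈ c.G) (h1 : c.BS 1 g) (h0 : c.BS 0 g)
    (h : g (sh k0) = sh (-k0)) (h' : g⁻¹ (sh k0) = sh (-k0)) : ∀ m ∈ MM K, g (g m) = m := by
  have mx : (sh k0 : L K) ∈ MM K := sh_mem s0
  have hy : g (sh (-k0)) = sh k0 := by rw [← h', app_inv]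
  have hy' : g⁻¹ (sh (-k0)) = sh k0 := by rw [← h, inv_app]
  have low : ∀ p ∈ c.G, p (sh k0) = sh (-k0) → p (sh (-k0)) = sh k0 → ∀ δ, Sh δ → ips k0 δ = 1 →
      (p (sh δ)).1 = 0 ∧ ∀ β, Sh β → ips k0 β ≠ -1 → co β (p (sh δ)) = 0 :=
    fun p hp e1 e2 δ hδ hl => by
      have A := (G_aut hp).1
      have e3 : p (hs k0) = hs k0 := by
        rw [← F.br_sh_m2 s0, A, e1, e2, F.br_comm]
      refine F.lev_neg (F.MM_G hp (sh_mem hδ)) ?_ ?_
      · rw [← e3, ← A, F.br_hs_sh s0.2.1 hδ, hl, Int.cast_one, one_smul]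
      · rw [← e1, ← A, F.br_sh_nn s0 hδ (by omega), map_zero]
  refine F.gen_M (g := g * g) (mul_mem hg hg) (by rw [LinearEquiv.mul_apply, h, hy])
    (by rw [LinearEquiv.mul_apply, hy, h]) fun δ hδ hl => ?_
  obtain ⟨a1, a2⟩ := low g hg h hy δ hδ hl
  obtain ⟨a3, a4⟩ := low g⁻¹ (inv_mem hg) h' hy' δ hδ hl
  have mw : (sh δ : L K) ∈ MM K := sh_mem hδ
  have mD := add_mem (F.MM_G hg mw) (F.MM_G (inv_mem hg) mw)
  have f1 : (g (sh δ) + g⁻¹ (sh δ)).1 = 0 := by rw [Prod.fst_add, a1, a3, add_zero]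
  have f2 : ∀ β, Sh β → ips k0 β ≠ -1 → co β (g (sh δ) + g⁻¹ (sh δ)) = 0 := fun β hβ e => by
    rw [map_add, a2 β hβ e, a4 β hβ e, add_zero]
  have key : g (sh δ) + g⁻¹ (sh δ) = 0 := F.MM_ext mD f1 fun β hβ => by
    by_cases e : ips k0 β = -1
    swap
    · exact f2 β hβ e
    obtain ⟨γ, rfl⟩ : ∃ γ, β = -γ := ⟨-β, (neg_neg β).symm⟩
    have hγ : Sh γ := by simpa using hβ.neg
    have lγ : ips k0 γ = 1 := by rw [ips_neg] at e; omega
    have two : sh δ = (sh γ : L K) → co (-γ) (g (sh δ) + g⁻¹ (sh δ)) = 0 := fun e => by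
      rw [← F.Bm_sh hγ mD, ← e, map_add, F.Bm_inv hg mw mw,
        F.Bm_comm (F.MM_G (inv_mem hg) mw) mw, ← two_mul, F.two, zero_mul]
    rcases ips_cases hγ hδ with ⟨_, rfl | rfl⟩ | e | e | ⟨e, -⟩ | ⟨_, rfl | rfl⟩
    · exact two rfl
    · exact two (sh_sg γ)
    · rw [← F.Bm_sh hγ mD]
      exact F.BS_D hg h1 (one_mem _) hγ hδ e
    · rw [← F.Bm_sh hγ mD]
      exact F.BS_D hg h0 (one_mem _) hγ hδ e
    · have b : br (sh (-γ) : L K) (sh k0) = sh δ := by
        rcases pair_fact γ hγ.allL hγ lγ δ hδ.allL hδ hl e with ⟨i1, i2, i3 | i3⟩ | ⟨i1, i2, i3 | i3⟩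
        · rw [F.br_sh_m1 hβ s0 i1 i2, funext i3]
        · rw [F.br_sh_m1 hβ s0 i1 i2, funext i3, sh_sg]
        · rw [← sh_sg k0, F.br_sh_m1 hβ s0.sg i1 i2, funext i3]
        · rw [← sh_sg k0, F.br_sh_m1 hβ s0.sg i1 i2, funext i3, sh_sg]
      have y1 := F.Y_M hβ mx
      rw [b, co_sh_ne (ne_of_lev (by rw [neg_neg, lγ, l0]; decide)), zero_smul, add_zero] at y1
      have y2 := F.Y_M hβ (sh_mem hβ.neg : (sh (- -γ) : L K) ∈ MM K)
      rw [F.br_sh_m2 hβ, co_sh_self hβ.neg, one_smul, neg_neg] at y2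
      have k := F.BS_D hg h1 (F.Y_mem_Sh hβ) hγ s0 (by rw [ips_comm hγ.2.1 s0.2.1, lγ])
      rw [y1, y2, map_add g, map_add g⁻¹, h, h', add_add_add_comm, F.add_self, zero_add] at k
      simp only [map_add Bm, LinearMap.add_apply] at k
      rw [F.Bm_sh hγ mD, F.Bm_sh hβ mD, F.Bm_hs hβ.2.1 mD, neg_neg, f2 γ hγ (by omega), hp_apply,
        f1] at k
      simpa using k
    · rw [ips_neg] at hl; omega
    · rw [ips_neg, ips_sg] at hl; omega
  rw [LinearEquiv.mul_apply, eq_neg_of_add_eq_zero_left key, neg_eq2 F.two, app_inv]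

end F2

end Cfg

end Pool.Agent.MP_db74b1_al.Exc
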