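import Pool.Agent.MP_db74b1_al.F2B

/-! `F₄(2)`: the case where `g` acts with order three on the short root `SL₂`. -/

set_option autoImplicit false

namespace Pool.Agent.MP_db74b1_al.Exc

variable {K : Type} [Field K]

namespace E2

theorem k0_Sh : Sh k0 := by decide +kernel
theorem lev0_et : ∀ β ∈ allL, Sh β → ips k0 β = 0 → ips (-β) et ≠ -1 := by decide +kernel
theorem lev0_be : ∀ β ∈ allL, Sh β → ips k0 β = 0 → ips (-β) be ≠ -1 := by decide +kernel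

theorem ips_neg' {β γ : Lat} (hβ : Sh β) (hγ : Sh γ) : ips (-β) γ = -ips β γ := by
  rw [ips_comm hβ.neg.2.1 hγ.2.1, ips_neg, ips_comm hβ.2.1 hγ.2.1]

theorem ips_self {β : Lat} (hβ : Sh β) : ips β β = 2 := by
  have : ∀ β ∈ allL, Sh β → ips β β = 2 := by decide +kernel
  exact this β hβ.allL hβ

theorem k2 : ips k0 k0 = 2 := ips_self k0_Sh
theorem k2' : ips k0 (-k0) = -2 := by rw [ips_neg, ips_self k0_Sh]

theorem sh_eq {β γ : Lat} (h : γ = β ∨ γ = sg true β) : (sh γ : L K) = sh β := by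
  rcases h with rfl | rfl
  · rfl
  · exact sh_sg _

theorem co_ne {β γ : Lat} (hβ : Sh β) (h : ips β γ ≠ -2) : co (-β) (sh γ : L K) = 0 := by
  refine co_sh_ne ⟨fun h1 => h ?_, fun h1 => h ?_⟩
  · rw [← h1, ips_neg, ips_self hβ]
  · rw [← ips_sg, ← h1, ips_neg, ips_self hβ]

theorem hp_zero (β : Lat) {v : L K} (h : v.1 = 0) : hp β v = 0 := by simp [hp_apply, h]

/-- the level one part -/
def V (w : L K) : Prop := w ∈ MM K ∧ br (hs k0) w = w ∧ br (sh k0) w = 0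

/-- the stabiliser of `x`, `y` -/
def Lv (c : Cfg K) (l : Aut K) : Prop := l ∈ c.G ∧ l (sh k0) = sh k0 ∧ l (sh (-k0)) = sh (-k0)

noncomputable def rho (c : Cfg K) : Aut K := c.Y k0 1 * c.Y (-k0) 1

theorem V.add {v w : L K} (hv : V v) (hw : V w) : V (v + w) :=
  ⟨add_mem hv.1 hw.1, by rw [map_add, hv.2.1, hw.2.1], by rw [map_add, hv.2.2, hw.2.2, add_zero]⟩

theorem V.smul {v : L K} (hv : V v) (t : K) : V (t • v) :=
  ⟨(MM K).smul_mem t hv.1, by rw [map_smul, hv.2.1], by rw [map_smul, hv.2.2, smul_zero]⟩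

variable {c : Cfg K}

theorem Lv.inv {l : Aut K} (h : Lv c l) : Lv c l⁻¹ :=
  ⟨inv_mem h.1, by rw [← l.injective.eq_iff, app_inv, h.2.1],
    by rw [← l.injective.eq_iff, app_inv, h.2.2]⟩

variable (F : c.F2)
include F

theorem Lv.h {l : Aut K} (h : Lv c l) : l (hs k0) = hs k0 := by
  rw [← F.br_sh_m2 k0_Sh, (Cfg.G_aut h.1).1, h.2.1, h.2.2]

theorem Lv.V {l : Aut K} (h : Lv c l) {w : L K} (hw : V w) : V (l w) :=
  ⟨F.MM_G h.1 hw.1, by rw [← h.h F, ← (Cfg.G_aut h.1).1, hw.2.1],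
    by rw [← h.2.1, ← (Cfg.G_aut h.1).1, hw.2.2, map_zero]⟩

theorem V_sh {γ : Lat} (hγ : Sh γ) (h : ips k0 γ = 1) : V (sh γ : L K) :=
  ⟨sh_mem hγ, by rw [F.br_hs_sh k0_Sh.2.1 hγ, h]; simp, F.br_sh_nn k0_Sh hγ (by omega)⟩

theorem hx : br (hs k0 : L K) (sh k0) = 0 := by
  rw [F.br_hs_sh k0_Sh.2.1 k0_Sh, ips_self k0_Sh]; push_cast; rw [F.two, zero_smul]

theorem hy : br (hs k0 : L K) (sh (-k0)) = 0 := by
  rw [F.br_hs_sh k0_Sh.2.1 k0_Sh.neg, ips_neg, ips_self k0_Sh]; push_cast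
  rw [F.two, neg_zero, zero_smul]

theorem V.xy {w : L K} (hw : V w) : br (sh k0) (br (sh (-k0)) w) = w := by
  rw [F.jac_sh k0_Sh, F.br_sh_m2 k0_Sh, hw.2.1, hw.2.2, map_zero, add_zero]

theorem V.neg {w : L K} (hw : V w) : (br (sh (-k0)) w).1 = 0 ∧
    ∀ β, Sh β → ips k0 β ≠ -1 → co β (br (sh (-k0)) w) = 0 := by
  refine F.lev_neg (F.br_mem (sh_mem k0_Sh.neg) hw.1) ?_ (F.brbr k0_Sh.neg hw.1)
  have := F.jac_sh k0_Sh.neg (hs k0) w
  rw [hw.2.1, F.br_comm _ (hs k0), hy F, map_zero, LinearMap.zero_apply, zero_add] at this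
  exact this.symm

theorem V.one {w : L K} (hw : V w) : w.1 = 0 ∧ ∀ β, Sh β → ips k0 β ≠ 1 → co β w = 0 :=
  F.lev_one hw.1 hw.2.1 hw.2.2

theorem V.Ym {w : L K} (hw : V w) : c.Y (-k0) 1 w = w + br (sh (-k0)) w := by
  rw [F.Y_M k0_Sh.neg hw.1, neg_neg, (hw.one F).2 _ k0_Sh (by rw [k2]; decide), zero_smul,
    add_zero]

theorem V.Yp {w : L K} (hw : V w) : c.Y k0 1 w = w := by
  rw [F.Y_M k0_Sh hw.1, hw.2.2, (hw.one F).2 _ k0_Sh.neg (by rw [k2']; decide), zero_smul,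
    add_zero, add_zero]

theorem rho_mem : rho c ∈ c.G := mul_mem (F.Y_mem_Sh k0_Sh) (F.Y_mem_Sh k0_Sh.neg)

theorem rho_inv : (rho c)⁻¹ = c.Y (-k0) 1 * c.Y k0 1 := by
  rw [rho, mul_inv_rev, inv_eq_of_mul_eq_one_right (F.YY k0_Sh),
    inv_eq_of_mul_eq_one_right (F.YY k0_Sh.neg)]

theorem V.rho {w : L K} (hw : V w) : rho c w = br (sh (-k0)) w := by
  rw [E2.rho, LinearEquiv.mul_apply, hw.Ym F, map_add, hw.Yp F,
    F.Y_M k0_Sh (F.br_mem (sh_mem k0_Sh.neg) hw.1), hw.xy F,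
    (hw.neg F).2 _ k0_Sh.neg (by rw [k2']; decide)]
  linear_combination (norm := module) F.add_self w

theorem V.rho' {w : L K} (hw : V w) : (E2.rho c)⁻¹ w = w + br (sh (-k0)) w := by
  rw [rho_inv F, LinearEquiv.mul_apply, hw.Yp F, hw.Ym F]

theorem rho_zero {n : L K} (hn : n ∈ MM K) (h1 : br (sh k0) n = 0) (h2 : br (sh (-k0)) n = 0) :
    rho c n = n := by
  have := (F.lev_zero hn h1 h2).2
  rw [rho, LinearEquiv.mul_apply, F.Y_M k0_Sh.neg hn, h2, neg_neg,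
    this _ k0_Sh (by rw [k2]; decide), zero_smul, add_zero, add_zero, F.Y_M k0_Sh hn, h1,
    this _ k0_Sh.neg (by rw [k2']; decide), zero_smul, add_zero, add_zero]

theorem Yx : c.Y k0 1 (sh k0) = sh k0 := by
  rw [F.Y_M k0_Sh (sh_mem k0_Sh), F.br_sh_nn k0_Sh k0_Sh (by rw [k2]; decide),
    co_ne k0_Sh (by rw [k2]; decide), zero_smul, add_zero, add_zero]

theorem Ys {β : Lat} (hβ : Sh β) : c.Y (-β) 1 (sh β) = sh β + hs β + sh (-β) := by
  rw [F.Y_M hβ.neg (sh_mem hβ), F.br_comm, F.br_sh_m2 hβ, neg_neg, co_sh_self hβ, one_smul]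

theorem rho_x : rho c (sh k0) = sh (-k0) := by
  have h1 : c.Y k0 1 (hs k0) = hs k0 := by
    rw [F.Y_M k0_Sh (F.hs_mem k0_Sh.2.1), F.br_comm, hx F, co_hs, zero_smul, add_zero, add_zero]
  rw [rho, LinearEquiv.mul_apply, Ys F k0_Sh, map_add, map_add, Yx F, h1,
    F.Y_M k0_Sh (sh_mem k0_Sh.neg), F.br_sh_m2 k0_Sh, co_sh_self k0_Sh.neg, one_smul]
  linear_combination (norm := module) F.add_self (sh k0) + F.add_self (hs k0)

theorem rho_x' : (rho c)⁻¹ (sh k0) = sh k0 + hs k0 + sh (-k0) := by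
  rw [rho_inv F, LinearEquiv.mul_apply, Yx F, Ys F k0_Sh]

omit F in
/-- the data of the case -/
structure RC (c : Cfg K) (l : Aut K) : Prop where
  lv : Lv c l
  b1 : c.BS 1 (rho c * l)
  b0 : c.BS 0 (rho c * l)

omit F in
/-- `g + g⁻¹` -/
noncomputable def D (c : Cfg K) (l : Aut K) : L K →ₗ[K] L K :=
  (rho c * l).toLinearMap + (rho c * l)⁻¹.toLinearMap

omit F in
theorem D_app (l : Aut K) (v : L K) : D c l v = (rho c * l) v + (rho c * l)⁻¹ v := rfl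

variable {l : Aut K}

theorem RC.mem (h : RC c l) : rho c * l ∈ c.G := mul_mem (rho_mem F) h.lv.1

theorem RC.Dmem (h : RC c l) {v : L K} (hv : v ∈ MM K) : D c l v ∈ MM K :=
  add_mem (F.MM_G (h.mem F) hv) (F.MM_G (inv_mem (h.mem F)) hv)

theorem RC.nn (h : RC c l) {β γ : Lat} (hβ : Sh β) (hγ : Sh γ) (h1 : 0 ≤ ips β γ) :
    Bm (sh β) (D c l (sh γ)) = 0 := by
  rcases ips_cases hβ hγ with ⟨_, h2⟩ | h2 | h2 | ⟨h2, _⟩ | ⟨h2, _⟩
  · rw [sh_eq h2, D_app, map_add, F.Bm_inv (h.mem F) (sh_mem hβ) (sh_mem hβ),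
      F.Bm_comm (F.MM_G (inv_mem (h.mem F)) (sh_mem hβ)) (sh_mem hβ), ← two_mul, F.two, zero_mul]
  · exact F.BS_D (h.mem F) h.b1 (one_mem _) hβ hγ h2
  · exact F.BS_D (h.mem F) h.b0 (one_mem _) hβ hγ h2
  · omega
  · omega

theorem RC.Dx (h : RC c l) : D c l (sh k0) = sh k0 + hs k0 := by
  rw [D_app, mul_inv_rev, LinearEquiv.mul_apply, LinearEquiv.mul_apply, h.lv.2.1, rho_x F,
    rho_x' F, map_add, map_add, h.lv.inv.2.1, h.lv.inv.2.2, h.lv.inv.h F]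
  linear_combination (norm := module) F.add_self (sh (-k0))

theorem RC.DV (h : RC c l) {w : L K} (hw : V w) :
    D c l w = l⁻¹ w + br (sh (-k0)) (l w + l⁻¹ w) := by
  rw [D_app, mul_inv_rev, LinearEquiv.mul_apply, LinearEquiv.mul_apply, (h.lv.V F hw).rho F,
    hw.rho' F, map_add, (Cfg.G_aut h.lv.inv.1).1, h.lv.inv.2.2, map_add]
  abel

theorem RC.T_sh (h : RC c l) {γ : Lat} (hγ : Sh γ) (h1 : ips k0 γ = 1)
    (h2 : ipx (-k0) γ = -1) (h3 : ipx (-k0) (sg true γ) = 0) :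
    l (sh γ) + l⁻¹ (sh γ) + sh γ = 0 := by
  have hw := V_sh F hγ h1
  have w1 := h.lv.V F hw
  have w2 := h.lv.inv.V F hw
  have hz := (w1.add w2).add hw
  have hδ := k0_Sh.neg.add hγ h2 h3
  have e1 := F.br_sh_m1 k0_Sh.neg hγ h2 h3
  rw [← hz.xy F, F.MM_ext (F.br_mem (sh_mem k0_Sh.neg) hz.1) (hz.neg F).1, map_zero]
  intro β' hβ'
  obtain ⟨β, rfl⟩ : ∃ β, β' = -β := ⟨-β', (neg_neg _).symm⟩
  have hβ : Sh β := neg_neg β ▸ hβ'.neg
  by_cases h4 : ips k0 β = 1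
  swap
  · exact (hz.neg F).2 _ hβ' (by rw [ips_neg]; omega)
  have h5 : ips β k0 = 1 := by rw [ips_comm hβ.2.1 k0_Sh.2.1, h4]
  have h6 : ips β (-k0 + γ) = -1 + ips β γ := by rw [ips_add, ips_neg, h5]
  have e2 : Bm (sh β) (D c l (sh γ)) = co (-β) (br (sh (-k0)) (l (sh γ) + l⁻¹ (sh γ))) := by
    rw [F.Bm_sh hβ (h.Dmem F hw.1), h.DV F hw, map_add,
      (w2.one F).2 _ hβ' (by rw [ips_neg]; omega), zero_add]
  rw [map_add, map_add, ← e2, e1]
  by_cases h7 : 0 ≤ ips β γ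
  · rw [h.nn F hβ hγ h7, co_ne hβ (by omega), add_zero]
  rcases ips_cases hβ hδ with ⟨h8, _⟩ | h8 | h8 | ⟨h8, _⟩ | ⟨h8, h9⟩
  · omega
  · omega
  · omega
  · omega
  have e3 : (sh (-k0 + γ) : L K) = sh (-β) := sh_eq h9
  have e4 : c.Y (-β) 1 (sh k0) = sh k0 + sh γ := by
    rw [F.Y_M hβ' (sh_mem k0_Sh), co_ne hβ' (by rw [ips_neg' hβ k0_Sh]; omega), F.br_comm, ← e3,
      ← e1, hw.xy F, zero_smul, add_zero]
  have e5 := F.BS_D (h.mem F) h.b1 (F.Y_mem_Sh hβ') hβ k0_Sh h5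
  rw [← D_app, e4, Ys F hβ] at e5
  simp only [map_add, LinearMap.add_apply] at e5
  rw [h.nn F hβ k0_Sh (by omega), h.nn F hβ' hγ (by rw [ips_neg' hβ hγ]; omega),
    F.Bm_hs hβ.2.1 (h.Dmem F hw.1), F.Bm_hs hβ.2.1 (h.Dmem F (sh_mem k0_Sh)),
    F.Bm_sh hβ' (h.Dmem F (sh_mem k0_Sh)), h.Dx F, h.DV F hw, map_add (hp β), map_add (hp β),
    hp_zero β (w2.one F).1, hp_zero β ((w1.add w2).neg F).1, hp_sh, hp_hs, h5, map_add, co_hs,
    co_ne hβ' (by rw [ips_neg' hβ k0_Sh]; omega), ← h.DV F hw] at e5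
  rw [e3, co_sh_self hβ']
  push_cast at e5
  linear_combination e5

theorem RC.T (h : RC c l) {w : L K} (hw : V w) : l⁻¹ w = w + l w := by
  have := F.MM_supp (fun γ => ips k0 γ = 1) (P := fun w => l w + l⁻¹ w + w = 0) (by simp)
    (fun v w _ _ h1 h2 => by
      simp only [map_add]; linear_combination (norm := module) h1 + h2)
    (fun γ hγ h1 => by
      rcases ips_cases k0_Sh.neg hγ with ⟨h2, _⟩ | h2 | h2 | ⟨_, h2 | h2⟩ | ⟨h2, _⟩
      any_goals rw [ips_neg' k0_Sh hγ] at h2; omega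
      · exact h.T_sh F hγ h1 h2.1 h2.2
      · rw [← sh_sg]
        exact h.T_sh F hγ.sg (by rw [ips_sg, h1]) h2.2 (by rw [sg_sg, h2.1]))
    hw.1 (hw.one F).1 (hw.one F).2
  linear_combination (norm := module) this - F.add_self w - F.add_self (l w)

theorem RC.U (h : RC c l) {γ m : Lat} (hγ : Sh γ) (h0 : ips k0 γ = 0) (hm : Lo m)
    (m1 : ipx m (-k0) = -1) (m2 : m + -k0 = -γ) (m3 : ipx m γ = -1) (m4 : m + γ = k0)
    (hl : ∀ β ∈ allL, Sh β → ips k0 β = 0 → ips (-β) γ ≠ -1) :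
    ∃ t : K, l (sh γ) + l⁻¹ (sh γ) + sh γ = t • hs k0 := by
  have u0 := sh_mem (K := K) hγ
  have h0' : ips (-k0) γ = 0 := by rw [ips_neg' k0_Sh hγ, h0, neg_zero]
  have u1 := F.br_sh_nn k0_Sh hγ h0.ge
  have u2 := F.br_sh_nn k0_Sh.neg hγ h0'.ge
  have key : ∀ p, Lv c p → p (sh γ) ∈ MM K ∧ br (sh k0) (p (sh γ)) = 0 ∧
      br (sh (-k0)) (p (sh γ)) = 0 := fun p hp =>
    ⟨F.MM_G hp.1 u0, by rw [← hp.2.1, ← (Cfg.G_aut hp.1).1, u1, map_zero],
      by rw [← hp.2.2, ← (Cfg.G_aut hp.1).1, u2, map_zero]⟩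
  obtain ⟨a0, a1, a2⟩ := key _ h.lv
  obtain ⟨b0, b1, b2⟩ := key _ h.lv.inv
  have e1 : D c l (sh γ) = l (sh γ) + l⁻¹ (sh γ) := by
    rw [D_app, mul_inv_rev, LinearEquiv.mul_apply, LinearEquiv.mul_apply, rho_zero F a0 a1 a2,
      ← rho_zero F u0 u1 u2, inv_app, rho_zero F u0 u1 u2]
  have z0 := add_mem (add_mem a0 b0) u0
  obtain ⟨z1, z2⟩ := F.lev_zero z0 (by simp only [map_add, a1, b1, u1, add_zero])
    (by simp only [map_add, a2, b2, u2, add_zero])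
  refine (F.cartan z0 z1 fun β hβ => ?_).elim (fun h1 => ⟨0, by rw [h1, zero_smul]⟩)
    fun h1 => ⟨1, by rw [h1, one_smul]⟩
  by_cases h2 : ips k0 β = 0
  swap
  · exact z2 β hβ h2
  rw [map_add, ← e1, ← neg_neg β, ← F.Bm_sh hβ.neg (h.Dmem F u0)]
  by_cases h3 : 0 ≤ ips (-β) γ
  · rw [h.nn F hβ.neg hγ h3, co_ne hβ.neg (by omega), add_zero]
  rcases ips_cases hβ.neg hγ with ⟨h8, _⟩ | h8 | h8 | ⟨h8, _⟩ | ⟨h8, h9⟩
  · omega
  · omega
  · omega
  · exact absurd h8 (hl β hβ.allL hβ h2)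
  rw [sg_neg, neg_neg, neg_neg] at h9
  have e3 : (sh (-γ) : L K) = sh (-β) := sh_eq (h9.imp (congrArg _) (congrArg Neg.neg))
  have e5 := F.BS_D (h.mem F) h.b0 (F.X_mem_Lo hm) k0_Sh.neg hγ h0'
  rw [← D_app, F.X_M hm (sh_mem k0_Sh.neg), F.X_M hm u0, F.ad_sh_m1 hm k0_Sh.neg m1,
    F.ad_sh_m1 hm hγ m3, m2, m4] at e5
  simp only [map_add, LinearMap.add_apply] at e5
  rw [h.nn F k0_Sh.neg hγ h0'.ge, h.nn F hγ.neg k0_Sh
    (by rw [ips_neg' hγ k0_Sh, ips_comm hγ.2.1 k0_Sh.2.1]; omega),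
    F.Bm_sh k0_Sh.neg (h.Dmem F (sh_mem k0_Sh)), h.Dx F, neg_neg, map_add, co_hs,
    co_sh_self k0_Sh, e3] at e5
  have e6 : co β (sh γ : L K) = 1 := by rw [sh_eq h9, co_sh_self hβ]
  rw [neg_neg, e6]
  linear_combination e5

theorem V.br {u w : L K} {γ : Lat} (hw : V w) (hγ : Sh γ) (h0 : ips k0 γ = 0) (hu : u = sh γ) :
    V (Exc.br u w) := by
  subst hu
  refine ⟨F.br_mem (sh_mem hγ) hw.1, ?_, ?_⟩
  · have := F.jac_sh hγ (hs k0) w
    rw [hw.2.1, F.br_comm _ (hs k0), F.br_hs_sh k0_Sh.2.1 hγ, h0] at this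
    simpa using this.symm
  · rw [F.jac_sh k0_Sh, hw.2.2, F.br_sh_nn k0_Sh hγ h0.ge]; simp

theorem RC.I (h : RC c l) {γ : Lat} (hγ : Sh γ) (h0 : ips k0 γ = 0) {t : K}
    (ht : l (sh γ) + l⁻¹ (sh γ) + sh γ = t • hs k0) {w : L K} (hw : V w) :
    l (br (sh γ) w) = br (sh γ) w + br (sh γ) (l w) + t • w := by
  have e1 := congrArg (fun u => br u w) ht
  have e2 : br (l (sh γ)) w = l (br (sh γ) (w + l w)) := by
    rw [← h.T F hw, (Cfg.G_aut h.lv.1).1, app_inv]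
  have e3 : br (l⁻¹ (sh γ)) w = br (sh γ) (l w) + l (br (sh γ) (l w)) := by
    rw [← h.T F ((h.lv.V F hw).br F hγ h0 rfl), (Cfg.G_aut h.lv.inv.1).1, inv_app]
  simp only [map_add, map_smul, LinearMap.add_apply, LinearMap.smul_apply, hw.2.1, e2, e3] at e1
  linear_combination (norm := module) e1 - F.add_self (l (br (sh γ) (l w)))
    - F.add_self (br (sh γ) (l w)) - F.add_self (br (sh γ) w)

theorem RC.J (h : RC c l) {γ : Lat} (hγ : Sh γ) (h0 : ips k0 γ = 0) {t : K}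
    (ht : l (sh γ) + l⁻¹ (sh γ) + sh γ = t • hs k0) {w : L K} (hw : V w) :
    br (l (sh γ)) w = br (sh γ) (l w) + t • w + t • l w := by
  have e2 : br (l (sh γ)) w = l (br (sh γ) (w + l w)) := by
    rw [← h.T F hw, (Cfg.G_aut h.lv.1).1, app_inv]
  have e3 : l (w + l w) = w := by rw [← h.T F hw, app_inv]
  rw [e2, h.I F hγ h0 ht (hw.add (h.lv.V F hw)), e3, map_add]
  linear_combination (norm := module) F.add_self (br (sh γ) w)

theorem RC.false (h : RC c l) : False := by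
  have s1 : Sh et := by decide +kernel
  have s2 : Sh be := by decide +kernel
  have s0 : Sh (a 0) := by decide +kernel
  have z1 : ips k0 et = 0 := by decide +kernel
  have z2 : ips k0 be = 0 := by decide +kernel
  obtain ⟨t1, h1⟩ := h.U F (m := ts) s1 z1 (by decide +kernel) (by decide +kernel)
    (by decide +kernel) (by decide +kernel) (by decide +kernel) lev0_et
  obtain ⟨t2, h2⟩ := h.U F (m := l3) s2 z2 (by decide +kernel) (by decide +kernel)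
    (by decide +kernel) (by decide +kernel) (by decide +kernel) lev0_be
  have hv := V_sh F s0 (by decide +kernel)
  have cm : ∀ w, br (sh be : L K) (br (sh et) w) = br (sh et) (br (sh be) w) := fun w => by
    rw [F.jac_sh s2, F.br_sh_nn s2 s1 (by decide +kernel)]; simp
  have e1 := F.jac_sh s2 (l (sh et)) (sh (a 0))
  rw [h.J F s1 z1 h1 hv, h.J F s1 z1 h1 (hv.br F s2 z2 rfl), h.I F s2 z2 h2 hv] at e1
  simp only [map_add, map_smul, cm] at e1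
  have e2 : br (br (sh be) (l (sh et))) (sh (a 0)) = br (sh et) (br (sh be) (sh (a 0))) +
      t2 • br (sh et) (sh (a 0)) + t1 • br (sh be) (sh (a 0)) + (t1 * t2) • (sh (a 0) : L K) := by
    linear_combination (norm := module) -e1 - F.add_self (br (sh et) (br (sh be) (sh (a 0))))
      - t2 • F.add_self (br (sh et) (sh (a 0))) - t1 • F.add_self (br (sh be) (sh (a 0)))
      - (t1 * t2) • F.add_self (sh (a 0))
  have n0 := F.br_mem (sh_mem s2) (F.MM_G h.lv.1 (sh_mem s1))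
  have sd : Sh (v8 1 1 1 2 1 0 0 0) := by decide +kernel
  have e3 := congrArg (co (v8 1 1 1 2 1 0 0 0)) e2
  rw [F.br_comm, F.co_br_sh s0 sd (by decide +kernel), n0.1 _ (by decide +kernel),
    n0.1 _ (by decide +kernel), F.br_sh_m1 s2 s0 (by decide +kernel) (by decide +kernel),
    F.br_sh_m1 s1 s0 (by decide +kernel) (by decide +kernel), ← sh_sg et,
    F.br_sh_m1 s1.sg (s2.add s0 (by decide +kernel) (by decide +kernel)) (by decide +kernel)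
      (by decide +kernel)] at e3
  simp only [map_add, map_smul] at e3
  rw [co_sh_ne (γ := a 0) (by decide +kernel), co_sh_ne (γ := be + a 0) (by decide +kernel),
    co_sh_ne (γ := et + a 0) (by decide +kernel),
    show sg true et + (be + a 0) = v8 1 1 1 2 1 0 0 0 by decide +kernel, co_sh_self sd] at e3
  simp at e3

end E2

namespace Cfg

variable {c : Cfg K}

namespace F2

variable (F : c.F2)
include F

theorem rcase {g : Aut K} (hg : g ∈ c.G) (h1 : c.BS 1 g) (h0 : c.BS 0 g)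
    (h : g (sh k0) = sh (-k0)) (h' : g⁻¹ (sh k0) = sh k0 + hs k0 + sh (-k0)) : False := by
  have e : E2.rho c * ((E2.rho c)⁻¹ * g) = g := mul_inv_cancel_left _ _
  have hl := mul_mem (inv_mem (E2.rho_mem F)) hg
  have e1 : ((E2.rho c)⁻¹ * g : Aut K) (sh k0) = sh k0 := by
    rw [LinearEquiv.mul_apply, h, ← E2.rho_x F, inv_app]
  have e2 : ((E2.rho c)⁻¹ * g : Aut K) (sh k0 + hs k0 + sh (-k0)) = sh k0 + hs k0 + sh (-k0) := by
    rw [LinearEquiv.mul_apply, ← h', app_inv, h', E2.rho_x' F]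
  have e3 : br (sh k0 : L K) (sh k0 + hs k0 + sh (-k0)) = hs k0 := by
    rw [map_add, map_add, F.br_sh_nn E2.k0_Sh E2.k0_Sh (by rw [E2.k2]; decide),
      F.br_comm _ (hs k0), E2.hx F, F.br_sh_m2 E2.k0_Sh, zero_add, zero_add]
  have e4 := (G_aut hl).1 (sh k0) (sh k0 + hs k0 + sh (-k0))
  rw [e1, e2, e3] at e4
  rw [map_add, map_add, e1, e4, add_right_inj] at e2
  exact E2.RC.false F (l := (E2.rho c)⁻¹ * g) ⟨⟨hl, e1, e2⟩, e.symm ▸ h1, e.symm ▸ h0⟩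

end F2

end Cfg

end Pool.Agent.MP_db74b1_al.Exc
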