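import Pool.Agent.MP_db74b1_al.F2B

set_option autoImplicit false

namespace Pool.Agent.MP_db74b1_al.Exc
variable {K : Type} [Field K]

namespace F2F

theorem fin1 : ∀ γ ∈ allL, Sh γ → ipx ts γ = -1 → ipx (th 6) (ts + γ) = -1 →
    ((∀ i, (-k0) i = γ i) ∨ ∀ i, (-k0) i = sg true γ i) ∧
    ((∀ i, (th 6 + (ts + γ)) i = k0 i) ∨ ∀ i, (th 6 + (ts + γ)) i = sg true k0 i) := by
  decide +kernel

theorem fin2 : ∀ γ ∈ allL, Sh γ → ((∀ i, (-k0) i = γ i) ∨ ∀ i, (-k0) i = sg true γ i) →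
    ipx ts γ = -1 ∧ ipx (th 6) (ts + γ) = -1 := by
  decide +kernel

theorem T_ip (α β : Lat) (h1 : α = th 6 ∨ α = ts) (h2 : β = th 6 ∨ β = ts) : 0 ≤ ip α β := by
  rw [ip_x]
  rcases h1 with rfl | rfl <;> rcases h2 with rfl | rfl <;> decide

theorem lo_th : Lo (th 6) := by decide
theorem lo_ts : Lo ts := by decide
theorem sh_k0 : Sh k0 := by decide

end F2F

namespace Cfg
variable {c : Cfg K}
namespace F2
variable (F : c.F2)
include F

theorem F2F_two {m : L K} (hm : m ∈ MM K) :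
    (Nn (X (th 6) (1 : K)) * Nn (X ts 1) : En K) m = co (-k0) m • sh k0 := by
  have e1 : ∀ l, Lo l → ∀ m ∈ MM K, Nn (X l (1 : K)) m = ad l m := fun l hl m hm => by
    rw [Nn_apply, F.X_M hl hm, add_sub_cancel_left]
  rw [Module.End.mul_apply, e1 _ F2F.lo_ts _ hm, e1 _ F2F.lo_th _ (F.ad_mem F2F.lo_ts hm)]
  have s0 : Sp 6 (a 0) := Sp_a (by decide)
  have s2 : Sp 6 (a 2) := Sp_a (by decide)
  refine F.MM_ind (P := fun m => ad (th 6) (ad ts m) = co (-k0) m • sh k0) (by simp)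
    (fun v w _ _ h1 h2 => by rw [map_add, map_add, h1, h2, map_add, add_smul])
    (fun β hβ => ?_) (by rw [F.ad_hs F2F.lo_ts s0, map_zero, co_hs, zero_smul])
    (by rw [F.ad_hs F2F.lo_ts s2, map_zero, co_hs, zero_smul]) hm
  rw [co_sh hβ]
  by_cases h : ipx ts β = -1 ∧ ipx (th 6) (ts + β) = -1
  · obtain ⟨h1, h2⟩ := F2F.fin1 β hβ.allL hβ h.1 h.2
    rw [if_pos (h1.imp funext funext), one_smul, F.ad_sh_m1 F2F.lo_ts hβ h.1,
      F.ad_sh_m1 F2F.lo_th (F2F.lo_ts.add hβ h.1) h.2]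
    rcases h2 with h2 | h2
    · rw [funext h2]
    · rw [funext h2, sh_sg]
  · rw [if_neg fun h1 => h (F2F.fin2 β hβ.allL hβ
      (h1.imp (fun e => congrFun e) fun e => congrFun e)), zero_smul]
    rcases F2F.lo_ts.cases hβ with h1 | h1
    · rw [F.ad_sh_m1 F2F.lo_ts hβ h1]
      have hs' := F2F.lo_ts.add hβ h1
      exact F.ad_sh_nn F2F.lo_th hs' ((F2F.lo_th.cases hs').resolve_left fun h2 => h ⟨h1, h2⟩)
    · rw [F.ad_sh_nn F2F.lo_ts hβ h1, map_zero]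

theorem F2F_q {g : Aut K} (hg : g ∈ c.G) (h : ¬ c.QS g) :
    ∃ g', c.Cj g g' ∧ co (-k0) (g' (sh k0)) ≠ 0 := by
  rw [F.QS_iff hg] at h
  push Not at h
  obtain ⟨p, hp, h⟩ := h
  have hx : (sh k0 : L K) ∈ MM K := sh_mem F2F.sh_k0
  have h1 := F.MM_G hg (F.MM_G hp hx)
  refine ⟨p⁻¹ * g * p⁻¹⁻¹, ⟨p⁻¹, inv_mem hp, rfl⟩, ?_⟩
  rw [inv_inv, LinearEquiv.mul_apply, LinearEquiv.mul_apply,
    ← F.Bm_sh F2F.sh_k0 (F.MM_G (inv_mem hp) h1), F.Bm_inv (inv_mem hp) hx h1, inv_inv]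
  exact h

theorem F2F_sq {g g' : Aut K} (h : c.Cj g g') (h2 : ∀ m ∈ MM K, g (g m) = m) :
    ∀ m ∈ MM K, g'⁻¹ m = g' m := by
  obtain ⟨p, hp, rfl⟩ := h
  intro m hm
  rw [← (p * g * p⁻¹).injective.eq_iff, app_inv]
  simp only [LinearEquiv.mul_apply]
  have : ∀ v, p⁻¹ (p v) = v := fun v => by simp
  rw [this, h2 _ (F.MM_G (inv_mem hp) hm), app_inv]

theorem inv_inv_s {a b : Aut K} (ha : a ∈ c.G) (hb : b ∈ c.G) (h : c.H2 a b)
    (h1 : ∀ m ∈ MM K, a (a m) = m) (h2 : ∀ m ∈ MM K, b (b m) = m) : c.QS a ∨ c.QS b := by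
  by_contra h3
  push Not at h3
  obtain ⟨a', ha', h4⟩ := F.F2F_q ha h3.1
  obtain ⟨b', hb', h5⟩ := F.F2F_q hb h3.2
  obtain ⟨k, hk⟩ := h
  let E : Subgroup (Aut K) := c.G ⊓ Ucl K (fun β => β = th 6 ∨ β = ts)
  let Φ : En K → En K → K := fun P R => TW (MM K) (a'.toLinearMap * P * b'.toLinearMap * R)
  let Z : En K → K → Prop := fun P κ => ∀ g ∈ E, ∀ g' ∈ E,
    Φ (g.toLinearMap * P) (g'.toLinearMap * P) = Φ (g'.toLinearMap * P) (g.toLinearMap * P) ∧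
      Φ (g.toLinearMap * P) (g.toLinearMap * P) = κ
  have iE : ∀ g ∈ E, g⁻¹ = g := fun g hg =>
    inv_eq_of_mul_eq_one_left (Ucl_sq F2F.T_ip F.two hg.2)
  have ma := ha'.mem ha
  have mb := hb'.mem hb
  have z0 : Z 1 k := fun g hg g' hg' => by
    simp only [Φ, mul_one]
    refine ⟨?_, ?_⟩
    · have e1 := F.TW_inv_M (mul_mem (mul_mem (mul_mem ma hg.1) mb) hg'.1)
      have e2 := TW_comm (M := MM K) (f := (g' * b' * g).toLinearMap) (g := a'.toLinearMap)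
        (fun v hv => F.MM_G (mul_mem (mul_mem hg'.1 mb) hg.1) hv) fun v hv => F.MM_G ma hv
      refine e1.symm.trans ((TW_congr fun v hv => ?_).trans e2)
      simp only [mul_inv_rev, iE g hg, iE g' hg', LinearEquiv.coe_coe, LinearEquiv.mul_apply,
        Module.End.mul_apply]
      rw [F.F2F_sq ha' h1 _ hv, F.F2F_sq hb' h2 _ (F.MM_G hg.1 (F.MM_G ma hv))]
    · rw [← hk _ _ ha' (hb'.trans ⟨g, hg.1, rfl⟩), iE g hg]; rfl
  have st : ∀ P κ, Z P κ → ∀ x ∈ E, Z (Nn x * P) 0 := fun P κ z x hx g hg g' hg' => by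
    have e : ∀ g : Aut K, g.toLinearMap * (Nn x * P) =
        (g * x).toLinearMap * P - g.toLinearMap * P := fun g => by
      rw [Nn, sub_mul, mul_sub, one_mul]; rfl
    have f : ∀ p q r s, Φ (p - q) (r - s) = Φ p r - Φ p s - Φ q r + Φ q s := fun p q r s => by
      simp only [Φ, mul_sub, sub_mul, map_sub]; ring
    have m1 := mul_mem hg hx
    have m2 := mul_mem hg' hx
    simp only [e, f]
    exact ⟨by rw [(z _ m1 _ m2).1, (z _ m1 _ hg').1, (z _ hg _ m2).1, (z _ hg _ hg').1]; ring, by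
      rw [(z _ m1 _ hg).1, (z _ m1 _ hg).2, (z _ hg _ hg).2]
      linear_combination (κ - Φ (g.toLinearMap * P) ((g * x).toLinearMap * P)) * F.two⟩
  have m1 : X (th 6) 1 ∈ E := ⟨F.X_mem_Lo F2F.lo_th, X_mem_Ucl (Or.inl rfl) 1⟩
  have m2 : X ts 1 ∈ E := ⟨F.X_mem_Lo F2F.lo_ts, X_mem_Ucl (Or.inr rfl) 1⟩
  have z := (st _ _ (st _ _ z0 _ m2) _ m1 1 (one_mem _) 1 (one_mem _)).2
  change Φ (1 * (Nn (X (th 6) 1) * (Nn (X ts 1) * 1)))
    (1 * (Nn (X (th 6) 1) * (Nn (X ts 1) * 1))) = 0 at z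
  rw [one_mul, mul_one] at z
  simp only [Φ] at z
  have hx : (sh k0 : L K) ∈ MM K := sh_mem F2F.sh_k0
  rw [TW_congr (g := (co (-k0)).smulRight (co (-k0) (b' (sh k0)) • a' (sh k0))) fun v hv => by
      rw [Module.End.mul_apply, F.F2F_two hv, Module.End.mul_apply, Module.End.mul_apply,
        LinearEquiv.coe_coe, LinearEquiv.coe_coe,
        F.F2F_two (F.MM_G mb ((MM K).smul_mem _ hx))]
      simp [smul_smul],
    TW_rank _ ((MM K).smul_mem _ (F.MM_G ma hx)), map_smul] at z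
  exact mul_ne_zero h5 h4 z

end F2
end Cfg
end Pool.Agent.MP_db74b1_al.Exc
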