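import Pool.Agent.MP_db74b1_al.F2A

/-! `F₄(2)`: the special isogeny, used as a correspondence on the group. -/

set_option autoImplicit false

namespace Pool.Agent.MP_db74b1_al.Exc

namespace Sig

/-- short roots go to long roots -/
def ph (b : Lat) : Lat := v8 (b 1) (b 0 + b 5) (b 3) (b 2 + b 4) (b 3) (b 1) 0 0

theorem ph_add (b c : Lat) : ph (b + c) = ph b + ph c := by
  apply lat_ext <;> simp only [ph, v8, Pi.add_apply] <;> ring

theorem ph_neg (b : Lat) : ph (-b) = -ph b := by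
  apply lat_ext <;> simp only [ph, v8, Pi.neg_apply] <;> ring

theorem ph_sg (b : Lat) : ph (sg true b) = ph b := by
  apply lat_ext <;> simp only [ph, v8, sg, pm] <;> ring

theorem sg_ph (b : Lat) : sg true (ph b) = ph b := by
  apply lat_ext <;> simp only [ph, v8, sg, pm]

theorem Sp_ph (b : Lat) : Sp 6 (ph b) := by
  intro j hj
  fin_cases j <;> first | rfl | exact absurd hj (by decide)

theorem ip_ph_ph {b c : Lat} (hb : Sp 6 b) (hc : Sp 6 c) : ip (ph b) (ph c) = ips b c := by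
  have h1 := hb 6 (by decide); have h2 := hb 7 (by decide)
  have h3 := hc 6 (by decide); have h4 := hc 7 (by decide)
  simp only [ip_x, ips, ipx, formx, ph, v8, sg, pm, h1, h2, h3, h4]; ring

theorem ip_ph {b c : Lat} (hb : Sp 6 b) (hc : Sp 6 c) : ip (ph b) c = ip b (ph c) := by
  have h1 := hb 6 (by decide); have h2 := hb 7 (by decide)
  have h3 := hc 6 (by decide); have h4 := hc 7 (by decide)
  simp only [ip_x, ipx, formx, ph, v8, h1, h2, h3, h4]; ring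

theorem ip_sg_ph {b : Lat} (hb : Sp 6 b) (c : Lat) : ip (sg true b) (ph c) = ip b (ph c) := by
  have h1 := hb 6 (by decide); have h2 := hb 7 (by decide)
  simp only [ip_x, ipx, formx, ph, v8, sg, pm, h1, h2]; ring

theorem ph_ph {b : Lat} (hb : Sp 6 b) : ph (ph b) = b + sg true b := by
  have h1 := hb 6 (by decide); have h2 := hb 7 (by decide)
  apply lat_ext <;> simp only [ph, v8, sg, pm, Pi.add_apply, h1, h2] <;> ring

theorem ph_Lo' : ∀ b ∈ allL, Sh b → Lo (ph b) := by decide +kernel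

theorem ph_Lo {b : Lat} (h : Sh b) : Lo (ph b) := ph_Lo' b h.allL h

theorem ph_surj' : ∀ l ∈ allL, Lo l → ∃ b ∈ allL, Sh b ∧ ∀ i, ph b i = l i := by decide +kernel

theorem ph_surj {l : Lat} (h : Lo l) : ∃ b, Sh b ∧ ph b = l := by
  obtain ⟨b, _, h1, h2⟩ := ph_surj' l h.allL h
  exact ⟨b, h1, funext h2⟩

theorem ph_k0 : ph k0 = th 6 := by decide

theorem Sh_k0 : Sh k0 := by decide

theorem ph_inj {b c : Lat} (hb : Sh b) (hc : Sh c) : ph b = ph c ↔ b = c ∨ b = sg true c := by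
  constructor
  · intro h
    have h1 := ip_ph_ph hc.2.1 hb.2.1
    rw [h, (ph_Lo hc).root] at h1
    rcases ips_cases hc hb with h2 | h2 | h2 | h2 | h2
    · exact h2.2
    all_goals omega
  · rintro (rfl | rfl)
    · rfl
    · exact ph_sg c

variable {K : Type} [Field K]

/-- the projection of the Lie algebra of type `F₄` onto the module -/
noncomputable def pj : L K →ₗ[K] L K where
  toFun v := (fun i => if i = 0 ∨ i = 5 then v.1 1 else if i = 2 ∨ i = 4 then v.1 3 else 0,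
    fun β => if Sh β.1 then co (ph β.1) v else 0)
  map_add' v w := by
    ext i <;> simp only [Prod.fst_add, Prod.snd_add, Pi.add_apply, map_add] <;> split_ifs <;> simp
  map_smul' r v := by
    ext i <;> simp only [Prod.smul_fst, Prod.smul_snd, Pi.smul_apply, map_smul, RingHom.id_apply] <;>
      split_ifs <;> simp

theorem pj_fst (v : L K) (i : Fin 8) :
    (pj v).1 i = if i = 0 ∨ i = 5 then v.1 1 else if i = 2 ∨ i = 4 then v.1 3 else 0 := rfl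

theorem co_pj (β : Lat) (v : L K) : co β (pj v) = if Sh β then co (ph β) v else 0 := by
  by_cases h : ip β β = 2
  · rw [co_of_root h]; rfl
  · rw [co_of_not h, if_neg fun h' => h h'.root]

theorem pj_M {m : L K} (hm : m ∈ MM K) : pj m = 0 := by
  apply L_eq
  · ext i
    rw [pj_fst, hm.2.2.1, hm.2.2.2.1]; simp
  · intro β _
    rw [co_pj, map_zero]
    split_ifs with h
    · exact hm.1 _ (ph_Lo h).not_Sh
    · rfl

theorem pj_e {γ : Lat} (h : Sh γ) : pj (e (ph γ) : L K) = sh γ := by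
  apply L_eq
  · ext i
    rw [pj_fst, sh_fst, e_fst]; simp
  · intro β _
    rw [co_pj, co_sh h]
    by_cases h1 : Sh β
    · rw [if_pos h1, co_e]
      simp only [(ph_Lo h1).root, true_and, ph_inj h1 h]
    · rw [if_neg h1, if_neg]
      rintro (rfl | rfl)
      · exact h1 h
      · exact h1 h.sg

theorem pj_hv (h2 : (2 : K) = 0) {γ : Lat} (h : Sp 6 γ) : pj (hv (ph γ) : L K) = hs γ := by
  have h6 := h 6 (by decide); have h7 := h 7 (by decide)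
  apply L_eq
  · ext i
    rw [pj_fst]
    fin_cases i <;> simp [hv, hs, ph, v8, sg, pm, h6, h7, add_comm, ← two_mul, h2]
  · intro β _
    rw [co_pj, co_hs, co_hv, ite_self]

/-- the Lie algebra of type `F₄` -/
def FF (K : Type) [Field K] : Submodule K (L K) :=
  Submodule.span K {v | v ∈ MM K ∨ (∃ γ, Sh γ ∧ v = e (ph γ)) ∨ ∃ γ, Sh γ ∧ v = hv (ph γ)}

theorem M_FF {m : L K} (h : m ∈ MM K) : m ∈ FF K := Submodule.subset_span (Or.inl h)
theorem e_FF {γ : Lat} (h : Sh γ) : (e (ph γ) : L K) ∈ FF K :=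
  Submodule.subset_span (Or.inr (Or.inl ⟨γ, h, rfl⟩))
theorem hv_FF {γ : Lat} (h : Sh γ) : (hv (ph γ) : L K) ∈ FF K :=
  Submodule.subset_span (Or.inr (Or.inr ⟨γ, h, rfl⟩))

/-- `g1` acts on the module as `g` acts on the quotient -/
def Rel (g g1 : Aut K) : Prop := ∀ v ∈ FF K, g v ∈ FF K ∧ pj (g v) = g1 (pj v)

theorem Rel.one : Rel (1 : Aut K) 1 := fun _ hv => ⟨hv, rfl⟩

theorem Rel.mul {g g1 h h1 : Aut K} (H : Rel g g1) (H' : Rel h h1) : Rel (g * h) (g1 * h1) :=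
  fun v hv => by
    obtain ⟨k1, k2⟩ := H' v hv
    obtain ⟨k3, k4⟩ := H _ k1
    exact ⟨k3, by rw [LinearEquiv.mul_apply, LinearEquiv.mul_apply, k4, k2]⟩

theorem Rel.of {g g1 : Aut K} (h0 : ∀ m ∈ MM K, g m ∈ MM K)
    (h1 : ∀ γ, Sh γ → g (e (ph γ)) ∈ FF K ∧ pj (g (e (ph γ))) = g1 (sh γ))
    (h2 : ∀ γ, Sh γ → g (hv (ph γ)) ∈ FF K ∧ pj (g (hv (ph γ))) = g1 (pj (hv (ph γ)))) :
    Rel g g1 := fun v hv => by
  induction hv using Submodule.span_induction with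
  | mem v hv =>
    rcases hv with hv | ⟨γ, hγ, rfl⟩ | ⟨γ, hγ, rfl⟩
    · exact ⟨M_FF (h0 v hv), by rw [pj_M (h0 v hv), pj_M hv, map_zero]⟩
    · rw [pj_e hγ]; exact h1 γ hγ
    · exact h2 γ hγ
  | zero => simp
  | add v w _ _ hv hw => exact ⟨by rw [map_add]; exact add_mem hv.1 hw.1,
      by simp only [map_add, hv.2, hw.2]⟩
  | smul r v _ hv => exact ⟨by rw [map_smul]; exact Submodule.smul_mem _ _ hv.1,
      by simp only [map_smul, hv.2]⟩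

end Sig

open Sig

variable {K : Type} [Field K]
namespace Cfg
variable {c : Cfg K}
namespace F2
variable (F : c.F2)
include F

namespace Sg

theorem n6 : c.n = 6 := n6_of_b F.hb

theorem neg_eq (v : L K) : -v = v := by rw [neg_eq_iff_add_eq_zero, F.add_self]

theorem sub_eq (v w : L K) : v - w = v + w := by rw [sub_eq_add_neg, neg_eq F]

theorem neg_eq' (t : K) : -t = t := by linear_combination (-t) * F.two

theorem FF_le : FF K ≤ c.V := Submodule.span_le.2 fun v hv => by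
  rcases hv with hv | ⟨γ, _, rfl⟩ | ⟨γ, _, rfl⟩
  · exact F.MM_le hv
  · exact e_mem (n6 F ▸ Sp_ph γ)
  · exact hv_mem (n6 F ▸ Sp_ph γ)

theorem pj_surj {m : L K} (hm : m ∈ MM K) : ∃ v ∈ FF K, pj v = m := by
  have s0 : Sh (a 0) := by decide
  have s2 : Sh (a 2) := by decide
  refine F.MM_ind (P := fun m => ∃ v ∈ FF K, pj v = m) ⟨0, zero_mem _, map_zero _⟩ ?_
    (fun β hβ => ⟨_, e_FF hβ, pj_e hβ⟩) ⟨_, hv_FF s0, pj_hv F.two s0.2.1⟩
    ⟨_, hv_FF s2, pj_hv F.two s2.2.1⟩ hm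
  rintro _ _ _ _ ⟨v, hv, rfl⟩ ⟨w, hw, rfl⟩
  exact ⟨v + w, add_mem hv hw, map_add _ _ _⟩

omit F in
theorem co_neg_sh {β γ : Lat} (hβ : Sh β) (h : -1 ≤ ips β γ) :
    co (-β) (sh γ : L K) = 0 := by
  have h2 : ips β β = 2 := by rw [← ip_ph_ph hβ.2.1 hβ.2.1, (ph_Lo hβ).root]
  refine co_sh_ne ⟨fun h1 => ?_, fun h1 => ?_⟩
  · rw [← h1, ips_neg] at h; omega
  · rw [← ips_sg, ← h1, ips_neg] at h; omega

theorem relXY {β : Lat} (hβ : Sh β) : Rel (X (ph β) (1 : K)) (c.Y β 1) := by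
  have hl := ph_Lo hβ
  have m1 : ∀ γ, Sh γ → ipx β γ = -1 → ipx β (sg true γ) = 0 →
      X (ph β) (1 : K) (e (ph γ)) ∈ FF K ∧ pj (X (ph β) (1 : K) (e (ph γ))) = c.Y β 1 (sh γ) := by
    intro γ hγ h1 h2
    have h3 : ips β γ = -1 := by rw [ips, h1, h2]; rfl
    have h4 := hβ.add hγ h1 h2
    rw [X_e_m1 hl.root (ph_Lo hγ).root (by rw [ip_ph_ph hβ.2.1 hγ.2.1, h3]), F.hq.eps, mul_one,
      one_smul, ← ph_add, map_add, pj_e hγ, pj_e h4, F.Y_M hβ (sh_mem hγ), F.br_sh_m1 hβ hγ h1 h2,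
      co_neg_sh hβ h3.ge, zero_smul, add_zero]
    exact ⟨add_mem (e_FF hγ) (e_FF h4), rfl⟩
  have m2 : X (ph β) (1 : K) (e (ph (-β))) ∈ FF K ∧
      pj (X (ph β) (1 : K) (e (ph (-β)))) = c.Y β 1 (sh (-β)) := by
    rw [F.Y_M hβ (sh_mem hβ.neg), F.br_sh_m2 hβ, co_sh_self hβ.neg, one_smul, ← pj_e hβ.neg,
      ← pj_e hβ, ← pj_hv F.two hβ.2.1, ← map_add, ← map_add, ph_neg, X_e_m2 hl.root, one_pow,
      one_smul, one_smul, sub_eq F, ← ph_neg]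
    exact ⟨add_mem (add_mem (e_FF hβ.neg) (hv_FF hβ)) (e_FF hβ), rfl⟩
  refine Rel.of (fun m hm => F.MM_G (F.X_mem_Lo hl) hm) (fun γ hγ => ?_) (fun γ hγ => ?_)
  · have nn : 0 ≤ ips β γ → X (ph β) (1 : K) (e (ph γ)) ∈ FF K ∧
        pj (X (ph β) (1 : K) (e (ph γ))) = c.Y β 1 (sh γ) := fun h => by
      rw [X_e_nn hl.root (ph_Lo hγ).root (by rwa [ip_ph_ph hβ.2.1 hγ.2.1]), pj_e hγ,
        F.Y_M hβ (sh_mem hγ), F.br_sh_nn hβ hγ h, co_neg_sh hβ (by omega), zero_smul,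
        add_zero, add_zero]
      exact ⟨e_FF hγ, rfl⟩
    rcases ips_cases hβ hγ with h | h | h | ⟨_, h | h⟩ | ⟨_, rfl | rfl⟩
    · exact nn (by omega)
    · exact nn (by omega)
    · exact nn (by omega)
    · exact m1 γ hγ h.1 h.2
    · have := m1 _ hγ.sg h.2 (by rw [sg_sg]; exact h.1)
      rwa [ph_sg, sh_sg] at this
    · exact m2
    · rw [← sg_neg, ph_sg, sh_sg]; exact m2
  · rw [X_hv hl.root, sub_eq F, map_add, map_smul, pj_e hβ, pj_hv F.two hγ.2.1,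
      F.Y_M hβ (F.hs_mem hγ.2.1), co_hs, zero_smul, add_zero, F.br_comm, F.br_hs_sh hγ.2.1 hβ,
      ip_ph_ph hγ.2.1 hβ.2.1, one_mul]
    exact ⟨add_mem (hv_FF hγ) (Submodule.smul_mem _ _ (e_FF hβ)), rfl⟩

theorem Y_eq {β : Lat} (hβ : Sh β) (v : L K) : c.Y β 1 v = X β 1 (X (sg true β) 1 v) := by
  rw [Y_mov (F.mov hβ), map_one, F.hb]; rfl

theorem relYX {β : Lat} (hβ : Sh β) : Rel (c.Y β 1) (X (ph β) (1 : K)) := by
  have hl := ph_Lo hβ
  have ho : ip β (sg true β) = 0 := by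
    have := (F.R_Sh hβ).orth (F.mov hβ)
    rwa [F.hb] at this
  refine Rel.of (fun m hm => F.MM_G (F.Y_mem_Sh hβ) hm) (fun γ hγ => ?_) (fun γ hγ => ?_)
  · have hm := ph_Lo hγ
    have h1 := ip_ph hβ.2.1 hγ.2.1
    have h2 := ip_sg_ph hβ.2.1 γ
    rw [Y_eq F hβ, F.X_M hl (sh_mem hγ)]
    rcases hl.cases hγ with h | h
    · have h3 : ip β (ph γ) = -1 := by rw [← h1, ip_x, h]
      have h4 : ip (sg true β) (ph γ) = -1 := by rw [h2, h3]
      have h5 := (root_add hβ.sg.root hm.root).2 h4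
      have h6 := hl.add hγ h
      have h7 : Sh (ph γ + β) := hm.add hβ (by rw [← ip_x, ip_comm, h3])
      have h8 : (e (β + ph γ) : L K) + e (sg true β + ph γ) = sh (ph γ + β) := by
        rw [sh, sg_add, sg_ph, add_comm (ph γ), add_comm (ph γ)]
      rw [X_e_m1 hβ.sg.root hm.root h4, F.hq.eps, mul_one, one_smul, map_add,
        X_e_m1 hβ.root hm.root h3, F.hq.eps, mul_one, one_smul,
        X_e_m1 hβ.root h5 (by rw [ip_add_right, ho, h3]; rfl), F.hq.eps, mul_one, one_smul,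
        ← add_assoc β, ← ph_ph hβ.2.1, ← ph_add, ← add_assoc, add_assoc (e (ph γ)), h8,
        F.ad_sh_m1 hl hγ h, map_add, map_add, pj_e hγ, pj_e h6, pj_M (sh_mem h7), add_zero]
      exact ⟨add_mem (add_mem (e_FF hγ) (M_FF (sh_mem h7))) (e_FF h6), rfl⟩
    · have h3 : 0 ≤ ip β (ph γ) := by rw [← h1, ip_x]; exact h
      rw [X_e_nn hβ.sg.root hm.root (by rwa [h2]), X_e_nn hβ.root hm.root h3, pj_e hγ,
        F.ad_sh_nn hl hγ h, add_zero]
      exact ⟨e_FF hγ, rfl⟩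
  · have h2 := ip_sg_ph hβ.2.1 γ
    rw [Y_eq F hβ, X_hv hβ.sg.root, map_sub, map_smul, X_hv hβ.root,
      X_e_nn hβ.root hβ.sg.root ho.ge, ip_comm (ph γ) (sg true β), h2, ip_comm (ph γ), sub_sub,
      ← smul_add, ← sh, map_sub, map_smul, pj_M (sh_mem hβ), smul_zero, sub_zero,
      pj_hv F.two hγ.2.1, F.X_M hl (F.hs_mem hγ.2.1), F.ad_hs hl hγ.2.1, add_zero]
    exact ⟨sub_mem (hv_FF hγ) (Submodule.smul_mem _ _ (M_FF (sh_mem hβ))), rfl⟩

theorem gen {α : Lat} {t : K} (h : c.R α) :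
    (∃ y ∈ c.G, Rel (c.Y α t) y) ∧ ∃ y ∈ c.G, Rel y (c.Y α t) := by
  rcases F.val t with rfl | rfl
  · rw [Y_zero]; exact ⟨⟨1, one_mem _, Rel.one⟩, 1, one_mem _, Rel.one⟩
  rcases F.R_cases h with h1 | h1
  · exact ⟨⟨_, F.X_mem_Lo (ph_Lo h1), relYX F h1⟩, _, F.X_mem_Lo (ph_Lo h1), relXY F h1⟩
  · rw [Y_fix (F.Lg_Lo h1).2]
    obtain ⟨β, hβ, rfl⟩ := ph_surj h1
    exact ⟨⟨_, F.Y_mem_Sh hβ, relXY F hβ⟩, _, F.Y_mem_Sh hβ, relYX F hβ⟩

theorem fwd {g : Aut K} (hg : g ∈ c.G) : ∃ g1 ∈ c.G, Rel g g1 := by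
  refine G_induction (p := fun g => ∃ g1 ∈ c.G, Rel g g1) ⟨1, one_mem _, Rel.one⟩ ?_ hg
  rintro α t g h _ ⟨g1, h1, h2⟩
  obtain ⟨y, h3, h4⟩ := (gen F (t := t) h).1
  exact ⟨_, mul_mem h3 h1, h4.mul h2⟩

theorem bwd {g1 : Aut K} (hg : g1 ∈ c.G) : ∃ g ∈ c.G, Rel g g1 := by
  refine G_induction (p := fun g1 => ∃ g ∈ c.G, Rel g g1) ⟨1, one_mem _, Rel.one⟩ ?_ hg
  rintro α t g h _ ⟨g1, h1, h2⟩
  obtain ⟨y, h3, h4⟩ := (gen F (t := t) h).2
  exact ⟨_, mul_mem h3 h1, h4.mul h2⟩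

theorem rel_inv {g g1 : Aut K} (hg : g ∈ c.G) (h : Rel g g1) : Rel g⁻¹ g1⁻¹ := fun v hv => by
  obtain ⟨_, _, h1⟩ := fwd F (inv_mem hg)
  have h2 := (h1 v hv).1
  have h3 := (h _ h2).2
  rw [app_inv] at h3
  exact ⟨h2, by rw [h3, inv_app]⟩

theorem rel_cj {a a1 a' : Aut K} (h : Rel a a1) (h' : c.Cj a1 a') :
    ∃ a0, c.Cj a a0 ∧ Rel a0 a' := by
  obtain ⟨p1, hp1, rfl⟩ := h'
  obtain ⟨p, hp, h1⟩ := bwd F hp1
  exact ⟨_, ⟨p, hp, rfl⟩, (h1.mul h).mul (rel_inv F hp h1)⟩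

theorem QL_of {a a1 : Aut K} (ha1 : a1 ∈ c.G) (h : Rel a a1) (hq : c.QS a1) : c.QL a := by
  rintro _ ⟨p, hp, r, rfl⟩
  obtain ⟨p1, hp1, h1⟩ := fwd F hp
  have h2 := ((rel_inv F hp h1).mul (h.mul h1) _ (e_FF Sh_k0)).2
  have h3 := congrArg (co (-k0)) h2
  have hx := sh_mem (K := K) Sh_k0
  have h4 := F.MM_G ha1 (F.MM_G hp1 hx)
  rw [co_pj, if_pos Sh_k0.neg, pj_e Sh_k0, ph_neg, ph_k0, LinearEquiv.mul_apply,
    LinearEquiv.mul_apply, LinearEquiv.mul_apply, LinearEquiv.mul_apply,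
    ← F.Bm_sh Sh_k0 (F.MM_G (inv_mem hp1) h4), F.Bm_inv (inv_mem hp1) hx h4, inv_inv,
    (F.QS_iff ha1).1 hq p1 hp1] at h3
  have h5 : gf (p (e (th c.n))) (a (p (e (th c.n)))) = 0 := by
    rw [gf_comm, gf_inv (G_aut hp), gf_e_right c.th_R.1, n6 F, h3]
  simp only [map_smul, LinearMap.smul_apply, h5, smul_zero]

end Sg

open Sg

theorem sigma {a b : Aut K} (ha : a ∈ c.G) (hb : b ∈ c.G) (h : c.SC a b) :
    ∃ a1 ∈ c.G, ∃ b1 ∈ c.G, c.H2 a1 b1 ∧ (c.QS a1 → c.QL a) ∧ (c.QS b1 → c.QL b) := by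
  obtain ⟨a1, ha1, ra⟩ := fwd F ha
  obtain ⟨b1, hb1, rb⟩ := fwd F hb
  refine ⟨a1, ha1, b1, hb1, ?_, QL_of F ha1 ra, QL_of F hb1 rb⟩
  obtain ⟨g, hg, h⟩ := h
  obtain ⟨g1, hg1, rg⟩ := fwd F hg
  refine ⟨TW (MM K) g1, fun a' b' ha' hb' => ?_⟩
  obtain ⟨a0, h1, h2⟩ := rel_cj F ra ha'
  obtain ⟨b0, h3, h4⟩ := rel_cj F rb hb'
  obtain ⟨z, _, hz, ⟨s, hs, rfl⟩, e1⟩ := h a0 b0 h1 h3
  obtain ⟨s1, hs1, rs⟩ := fwd F hs
  have h5 := (rs.mul rg).mul (rel_inv F hs rs)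
  have h6 : ∀ m ∈ MM K, (a' * b') m = (s1 * g1 * s1⁻¹) m := fun m hm => by
    obtain ⟨v, hv, rfl⟩ := pj_surj F hm
    rw [← ((h2.mul h4) v hv).2, ← (h5 v hv).2, e1, LinearEquiv.mul_apply z,
      hz _ (FF_le F (h5 v hv).1)]
  rw [TW_congr (g := ((s1 * g1).toLinearMap * (s1⁻¹).toLinearMap : En K)) h6,
    TW_comm (fun v hv => F.MM_G (mul_mem hs1 hg1) hv) (fun v hv => F.MM_G (inv_mem hs1) hv)]
  exact TW_congr fun v _ => by simp

end F2
end Cfg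
end Pool.Agent.MP_db74b1_al.Exc
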