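import Pool.Agent.MP_db74b1_al.ExcQ9
import Pool.Agent.MP_db74b1_al.F2C
import Pool.Agent.MP_db74b1_al.F2D
import Pool.Agent.MP_db74b1_al.F2E
import Pool.Agent.MP_db74b1_al.F2F
import Pool.Agent.MP_db74b1_al.F2G

/-! `F₄(2)` and the final statement for `Eₙ(q)`, `F₄(q)`, `²E₆(q)` over every field. -/

set_option autoImplicit false

namespace Pool.Agent.MP_db74b1_al.Exc

variable {K : Type} [Field K]

namespace Cfg

variable {c : Cfg K}

namespace F2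

variable (F : c.F2)
include F

theorem sq_M {a : Aut K} (ha : a ∈ c.G) (h : ¬ c.QS a) (h1 : c.BS 1 a) (h0 : c.BS 0 a) :
    ∀ m ∈ MM K, a (a m) = m := by
  obtain ⟨g, hc, e⟩ := F.opp_s ha h
  have hg := hc.mem ha
  have k1 := F.BS_conj ha h1 hc
  have k0 := F.BS_conj ha h0 hc
  have k := (F.typ_s hg k1 k0 e).elim (F.ncase hg k1 k0 e) fun e' => (F.rcase hg k1 k0 e e').elim
  obtain ⟨p, hp, rfl⟩ := hc
  intro m hm
  have := k _ (F.MM_G hp hm)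
  simp only [LinearEquiv.mul_apply, inv_app] at this
  exact p.injective this

theorem S_thm {a b : Aut K} (ha : a ∈ c.G) (hb : b ∈ c.G) (h : c.H2 a b) : c.QS a ∨ c.QS b := by
  by_contra h0
  push Not at h0
  have h' := F.H2_symm ha hb h
  have b1 := F.BS_one ha hb h h0.1
  have a1 := F.BS_one hb ha h' h0.2
  exact (F.inv_inv_s ha hb h (F.sq_M ha h0.1 a1 (F.BS_zero hb ha h' h0.2 b1 a1))
    (F.sq_M hb h0.2 b1 (F.BS_zero ha hb h h0.1 a1 b1))).elim h0.1 h0.2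

theorem main_QL2 {a b : Aut K} (ha : a ∈ c.G) (hb : b ∈ c.G) (h : c.SC a b) (hq : c.QL a) :
    c.Triv a ∨ c.Triv b := by
  obtain ⟨p, hp, m, w, u, H, e⟩ := exists_MP ha
  have hc : c.Cj a (m * u) := ⟨p, hp, e⟩
  rcases H.long_struct (hc.QL hq) with h1 | ⟨k1, k2, j0, j1, j2, j3, j4, j5, k3, k4, k5⟩
  · exact Or.inl (hc.symm.triv h1)
  rcases F.S_thm ha hb (h.trace F.MM_le fun g hg v hv => F.MM_G hg hv) with h2 | h2
  · rcases H.short_struct k1 (hc.QS k1 h2) with h1 | h1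
    · exact Or.inl (hc.symm.triv h1)
    · rw [j0] at h1; exact absurd h1.1 (by simp)
  · exact Or.inr (F4_contra hb h hc H ⟨k1, k2, j0, j1, j2, j3, j4, j5, k3, k4, k5⟩ (hc.QL hq) h2)

theorem main4 {a b : Aut K} (ha : a ∈ c.G) (hb : b ∈ c.G) (h : c.SC a b) :
    c.Triv a ∨ c.Triv b := by
  obtain ⟨a1, ha1, b1, hb1, k, k1, k2⟩ := F.sigma ha hb h
  rcases F.S_thm ha1 hb1 k with h1 | h1
  · exact F.main_QL2 ha hb h (k1 h1)
  · exact (F.main_QL2 hb ha (h.symm ha) (k2 h1)).symm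

end F2

theorem main5 (c : Cfg K) : ∀ a ∈ c.G, ∀ b ∈ c.G, c.SC a b → c.Triv a ∨ c.Triv b :=
  fun a ha b hb h => by
  by_cases hn : c.NS
  · exact main3 c (Or.inl hn) a ha b hb h
  by_cases hq : c.Q2
  · exact F2.main4 ⟨(not_not.1 hn).1, (not_not.1 hn).2, hq⟩ ha hb h
  · unfold Q2 at hq
    push Not at hq
    obtain ⟨r, -, h1, h2⟩ := hq
    exact main3 c (Or.inr ⟨r, h1, h2⟩) a ha b hb h

end Cfg

theorem exceptional2 (n : ℕ) (b : Bool) (τ : K →+* K)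
    (h : (b = false ∧ τ = RingHom.id K ∧ (n = 6 ∨ n = 7 ∨ n = 8)) ∨
      (b = true ∧ n = 6 ∧ τ.comp τ = RingHom.id K)) : AHZ (chevP n b τ) := by
  rw [← chevP_eq]
  exact AHZ_congr (Subgroup.equivMapOfInjective _ _ toP_inj)
    (Cfg.final' ⟨n, b, τ, h.imp (fun h => ⟨h.1, fun t => by rw [h.2.1]; rfl, h.2.2⟩)
      fun h => ⟨h.1, h.2.1, fun t => RingHom.congr_fun h.2.2 t⟩⟩ (Cfg.main5 _))

end Pool.Agent.MP_db74b1_al.Exc
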