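import Pool.Agent.MP_db74b1_al.LtDefs

/-! No product of two nontrivial conjugacy classes of an alternating group of degree at least
five is a conjugacy class. -/

set_option autoImplicit false

namespace Pool.Agent.MP_db74b1_al.Lt

open Equiv Equiv.Perm Finset

namespace Alt

/-- the three cosets of the Klein four-group in the alternating group on four points -/
def co (j : Fin 3) (k : Fin 4) : Perm (Fin 4) :=
  ![1, swap 0 1 * swap 2 3, swap 0 2 * swap 1 3, swap 0 3 * swap 1 2] k *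
    ![1, swap 1 2 * swap 2 3, swap 2 3 * swap 1 2] j

def tab : Fin 3 → Fin 4 → Fin 4 → Fin 4 :=
  ![![![0, 1, 2, 3], ![1, 0, 3, 2], ![2, 3, 0, 1], ![3, 2, 1, 0]],
    ![![0, 2, 3, 1], ![1, 3, 2, 0], ![2, 0, 1, 3], ![3, 1, 0, 2]],
    ![![0, 3, 1, 2], ![1, 2, 0, 3], ![2, 1, 3, 0], ![3, 0, 2, 1]]]

lemma co_apply : ∀ j k i, co j k i = tab j k i := by decide

lemma co_sign : ∀ j k, sign (co j k) = 1 := by decide

lemma tab_bij : ∀ j i, Function.Bijective fun k => tab j k i := by decide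

variable {α : Type} [Fintype α] [DecidableEq α]

/-- the weights of the three perfect matchings of four points are equal -/
def Flat (A : α → α → ℤ) (q : Fin 4 → α) : Prop :=
  A (q 0) (q 1) + A (q 1) (q 0) + A (q 2) (q 3) + A (q 3) (q 2)
      = A (q 0) (q 2) + A (q 2) (q 0) + A (q 1) (q 3) + A (q 3) (q 1) ∧
    A (q 0) (q 1) + A (q 1) (q 0) + A (q 2) (q 3) + A (q 3) (q 2)
      = A (q 0) (q 3) + A (q 3) (q 0) + A (q 1) (q 2) + A (q 2) (q 1)

lemma local_eq (A B : α → α → ℤ) (c : ℤ)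
    (hF : ∀ g : Perm α, sign g = 1 → ∑ u, ∑ w, B u w * A (g u) (g w) = c) (q : Fin 4 ↪ α)
    (j : Fin 3) :
    ∑ i, ∑ i', B (q i) (q i') * (∑ k, A (q (tab j k i)) (q (tab j k i'))
      - ∑ k, A (q (tab 0 k i)) (q (tab 0 k i'))) = 0 := by
  let E : Fin 3 → Fin 4 → Perm α := fun j k => (co j k).viaFintypeEmbedding q
  have hE : ∀ j k i, E j k (q i) = q (tab j k i) := fun j k i => by
    simp only [E, viaFintypeEmbedding_apply_image, co_apply]
  have hE' : ∀ j k u, u ∉ Set.range q → E j k u = u := fun j k u hu =>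
    viaFintypeEmbedding_apply_notMem_range _ _ hu
  let T : α → α → ℤ := fun u w => ∑ k, A (E j k u) (E j k w) - ∑ k, A (E 0 k u) (E 0 k w)
  have h1 : ∀ j, ∑ u, ∑ w, B u w * ∑ k, A (E j k u) (E j k w) = ∑ _k : Fin 4, c := fun j => by
    simp only [mul_sum]
    rw [sum_congr rfl fun u _ => sum_comm, sum_comm]
    exact sum_congr rfl fun k _ => hF _ (by rw [viaFintypeEmbedding_sign, co_sign])
  have h2 : ∑ u, ∑ w, B u w * T u w = 0 := by
    simp only [T, mul_sub, sum_sub_distrib, h1, sub_self]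
  have hl : ∀ u w, u ∉ Set.range q → T u w = 0 := fun u w hu => by
    by_cases hw : w ∈ Set.range q
    · obtain ⟨i, rfl⟩ := hw
      simp only [T, hE, hE' _ _ u hu]
      rw [(tab_bij j i).sum_comp fun l => A u (q l), (tab_bij 0 i).sum_comp fun l => A u (q l),
        sub_self]
    · simp only [T, hE' _ _ u hu, hE' _ _ w hw, sub_self]
  have hr : ∀ i w, w ∉ Set.range q → T (q i) w = 0 := fun i w hw => by
    simp only [T, hE, hE' _ _ w hw]
    rw [(tab_bij j i).sum_comp fun l => A (q l) w, (tab_bij 0 i).sum_comp fun l => A (q l) w,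
      sub_self]
  rw [← h2]
  refine Fintype.sum_of_injective q q.injective _ _ (fun u hu => ?_) fun i => ?_
  · exact sum_eq_zero fun w _ => by rw [hl u w hu, mul_zero]
  · refine Fintype.sum_of_injective q q.injective _ _ (fun w hw => ?_) fun i' => ?_
    · rw [hr i w hw, mul_zero]
    · simp only [T, hE]

lemma alg {X1 X2 X3 Y1 Y2 Y3 : ℤ} (h1 : Y1 * (X2 - X1) + Y2 * (X3 - X2) + Y3 * (X1 - X3) = 0)
    (h2 : Y1 * (X3 - X1) + Y2 * (X1 - X2) + Y3 * (X2 - X3) = 0) :
    (X1 = X2 ∧ X1 = X3) ∨ (Y1 = Y2 ∧ Y1 = Y3) := by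
  by_cases h : (Y1 - Y3) ^ 2 - (Y1 - Y3) * (Y2 - Y3) + (Y2 - Y3) ^ 2 = 0
  · right
    have e1 : (Y1 - Y3) ^ 2 = 0 := by nlinarith [sq_nonneg (Y1 - Y3 - 2 * (Y2 - Y3)), sq_nonneg (Y1 - Y3)]
    have e2 : (Y2 - Y3) ^ 2 = 0 := by nlinarith [sq_nonneg (2 * (Y1 - Y3) - (Y2 - Y3)), sq_nonneg (Y2 - Y3)]
    have e3 := pow_eq_zero_iff (n := 2) (by norm_num) |>.1 e1
    have e4 := pow_eq_zero_iff (n := 2) (by norm_num) |>.1 e2
    constructor <;> linarith
  · left
    have e1 : (X1 - X2) * ((Y1 - Y3) ^ 2 - (Y1 - Y3) * (Y2 - Y3) + (Y2 - Y3) ^ 2) = 0 := by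
      linear_combination (Y3 - Y1) * h1 + (Y2 - Y3) * h2
    have e2 : (X1 - X3) * ((Y1 - Y3) ^ 2 - (Y1 - Y3) * (Y2 - Y3) + (Y2 - Y3) ^ 2) = 0 := by
      linear_combination (Y3 - Y2) * h1 + (Y2 - Y1) * h2
    have e3 := (mul_eq_zero.1 e1).resolve_right h
    have e4 := (mul_eq_zero.1 e2).resolve_right h
    constructor <;> linarith

lemma flat_or (A B : α → α → ℤ) (c : ℤ)
    (hF : ∀ g : Perm α, sign g = 1 → ∑ u, ∑ w, B u w * A (g u) (g w) = c) (q : Fin 4 ↪ α) :
    Flat A q ∨ Flat B q := by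
  have h1 := local_eq A B c hF q 1
  have h2 := local_eq A B c hF q 2
  simp only [Fin.sum_univ_four, tab, Matrix.cons_val] at h1 h2
  exact alg (by linear_combination h1) (by linear_combination h2)

lemma exists_not_flat (hn : 5 ≤ Fintype.card α) {a : Perm α} (ha : a ≠ 1) :
    ∃ p : Fin 4 ↪ α, a (p 0) = p 1 ∧ p 1 ≠ p 2 ∧ a (p 2) ≠ p 0 ∧ a (p 1) ≠ p 3 ∧
      a (p 3) ≠ p 1 := by
  obtain ⟨i, hi⟩ : ∃ i, a i ≠ i := by
    by_contra h
    exact ha (Equiv.ext fun i => not_not.1 fun hh => h ⟨i, hh⟩)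
  obtain ⟨k, -, hk⟩ := exists_mem_notMem_of_card_lt_card (s := {i, a i, a.symm i}) (t := univ)
    (lt_of_le_of_lt card_le_three (by rw [card_univ]; omega))
  obtain ⟨l, -, hl⟩ := exists_mem_notMem_of_card_lt_card (s := {i, a i, a (a i), k}) (t := univ)
    (lt_of_le_of_lt card_le_four (by rw [card_univ]; omega))
  simp only [mem_insert, mem_singleton, not_or] at hk hl
  obtain ⟨k1, k2, k3⟩ := hk
  obtain ⟨l1, l2, l3, l4⟩ := hl
  have hinj : Function.Injective ![i, a i, k, l] := by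
    intro x y h
    fin_cases x <;> fin_cases y <;> simp_all [eq_comm]
  refine ⟨⟨_, hinj⟩, rfl, fun h => k2 h.symm, fun h => k3 ?_, fun h => l3 h.symm,
    fun h => l1 (a.injective h)⟩
  exact (Equiv.eq_symm_apply a).2 h

/-- the number of fixed points -/
def fix (g : Perm α) : ℤ := ∑ s, if g s = s then 1 else 0

lemma fix_conj (c g : Perm α) : fix (c * g * c⁻¹) = fix g := by
  unfold fix
  rw [← Equiv.sum_comp c]
  simp

lemma fix_eq (a b g : Perm α) : fix (a * (g * b * g⁻¹))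
    = ∑ u, ∑ w, (if b u = w then 1 else 0) * if a (g w) = g u then 1 else 0 := by
  unfold fix
  rw [← Equiv.sum_comp g]
  refine sum_congr rfl fun u _ => ?_
  rw [sum_eq_single (b u) (fun w _ hw => by rw [if_neg hw.symm, zero_mul]) (by simp)]
  simp

lemma main (hn : 5 ≤ Fintype.card α) {a b : Perm α} (ha : a ≠ 1) (hb : b ≠ 1) (c : ℤ)
    (hF : ∀ g : Perm α, sign g = 1 → fix (a * (g * b * g⁻¹)) = c) : False := by
  obtain ⟨p, p1, p2, p3, p4, p5⟩ := exists_not_flat hn ha
  obtain ⟨q, q1, q2, q3, q4, q5⟩ := exists_not_flat hn hb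
  have hq : ¬ Flat (fun u w => if b u = w then 1 else 0) q := fun h => by
    have := h.1
    simp only [q1, q2, q3, q4, q5, if_true, if_false] at this
    split_ifs at this <;> omega
  have key : ∀ h : Perm α, sign h = 1 → Flat (fun u w => if a (h w) = h u then 1 else 0) q :=
    fun h hh => (flat_or (fun u w => if a (h w) = h u then 1 else 0) _ c (fun g hg => by
      rw [← hF (h * g) (by rw [map_mul, hh, hg, one_mul]), fix_eq]
      rfl) q).resolve_right hq
  obtain ⟨h, hh⟩ := Equiv.Perm.exists_extending_pair (f := q) (g := p) q.injective p.injective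
  rcases Int.units_eq_one_or (sign h) with hs | hs
  · have := (key h hs).1
    simp only [hh, p1, p2, p3, p4, p5, if_true, if_false] at this
    split_ifs at this <;> omega
  · have hne : ∀ i j : Fin 4, i ≠ j → q i ≠ q j := fun i j hij => q.injective.ne hij
    have := (key (h * swap (q 2) (q 3))
      (by rw [map_mul, hs, sign_swap (hne 2 3 (by decide))]; rfl)).2
    simp only [Perm.mul_apply, swap_apply_left, swap_apply_right,
      swap_apply_of_ne_of_ne (hne 0 2 (by decide)) (hne 0 3 (by decide)),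
      swap_apply_of_ne_of_ne (hne 1 2 (by decide)) (hne 1 3 (by decide)),
      hh, p1, p2, p3, p4, p5, if_true, if_false] at this
    split_ifs at this <;> omega

end Alt

theorem alt_AH (n : Nat) (hn : 5 ≤ n) : Exc.AH (alternatingGroup (Fin n)) := by
  intro x y z hx hy h
  refine Alt.main (by simpa using hn) (a := x.1) (b := y.1) (fun e => hx (Subtype.ext e))
    (fun e => hy (Subtype.ext e)) (Alt.fix z.1) fun g hg => ?_
  let g' : alternatingGroup (Fin n) := ⟨g, mem_alternatingGroup.2 hg⟩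
  have h1 : x * (g' * y * g'⁻¹) ∈ {g | IsConj z g} :=
    h ▸ ⟨x, _, IsConj.refl x, isConj_iff.2 ⟨g', rfl⟩, rfl⟩
  obtain ⟨c, hc⟩ := isConj_iff.1 h1
  rw [← Alt.fix_conj c.1 z.1]
  exact congrArg (fun t : alternatingGroup (Fin n) => Alt.fix t.1) hc.symm

end Pool.Agent.MP_db74b1_al.Lt
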