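import Mathlib

/-! Definitions of the finite simple classical groups. -/

set_option autoImplicit false

namespace Pool.Agent.MP_db74b1_al.Lt

/-- The map `g` preserves the two-variable function `B`. -/
def Preserves {V W : Type} (B : V → V → W) (g : V → V) : Prop :=
  ∀ x y, B (g x) (g y) = B x y

/-- `G ≅ K / Z(K)`. -/
def IsCentralQuotient (G K : Type) [Group G] [Group K] : Prop :=
  Nonempty (G ≃* K ⧸ Subgroup.center K)

/-- `H = SL(V)` with `dim V ≥ 2`, and `|F| > 3` if `dim V = 2`. -/
def IsSL (F V : Type) [Field F] [AddCommGroup V] [Module F V]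
    (H : Subgroup (Module.End F V)ˣ) : Prop :=
  2 ≤ Module.finrank F V ∧ (Module.finrank F V = 2 → 3 < Nat.card F) ∧
    ∀ g : (Module.End F V)ˣ, g ∈ H ↔ LinearMap.det g.val = 1

/-- `H = Sp(V)`, the isometry group of a nondegenerate alternating form, with `dim V ≥ 4`,
and `|F| > 2` if `dim V = 4`. -/
def IsSp (F V : Type) [Field F] [AddCommGroup V] [Module F V]
    (H : Subgroup (Module.End F V)ˣ) : Prop :=
  4 ≤ Module.finrank F V ∧ (Module.finrank F V = 4 → 2 < Nat.card F) ∧
    ∃ B : LinearMap.BilinForm F V, B.IsAlt ∧ B.Nondegenerate ∧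
      ∀ g : (Module.End F V)ˣ, g ∈ H ↔ Preserves (fun x y => B x y) g.val

/-- `B` is a nondegenerate hermitian form on `V` for a field automorphism `σ` of order two:
additive and `F`-linear in the first variable, `B y x = σ (B x y)`, trivial radical. -/
def IsHermitianForm (F V : Type) [Field F] [AddCommGroup V] [Module F V] (σ : F →+* F)
    (B : V → V → F) : Prop :=
  (∀ c, σ (σ c) = c) ∧ (∃ c, σ c ≠ c) ∧ (∀ y, IsLinearMap F fun x => B x y) ∧
    (∀ x y, B y x = σ (B x y)) ∧ ∀ y, (∀ x, B x y = 0) → y = 0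

/-- `H = SU(V)`: the isometries of determinant one of a nondegenerate hermitian form, with
`dim V ≥ 3`, and `|F| ≠ 4` if `dim V = 3`. -/
def IsSU (F V : Type) [Field F] [AddCommGroup V] [Module F V]
    (H : Subgroup (Module.End F V)ˣ) : Prop :=
  3 ≤ Module.finrank F V ∧ (Module.finrank F V = 3 → Nat.card F ≠ 4) ∧
    ∃ (σ : F →+* F) (B : V → V → F), IsHermitianForm F V σ B ∧
      ∀ g : (Module.End F V)ˣ, g ∈ H ↔ Preserves B g.val ∧ LinearMap.det g.val = 1

/-- `O = O(Q)`, the isometry group of a quadratic form `Q` on `V` with nondegenerate polar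
form. -/
def IsO (F V : Type) [Field F] [AddCommGroup V] [Module F V]
    (O : Subgroup (Module.End F V)ˣ) : Prop :=
  ∃ Q : QuadraticForm F V, LinearMap.BilinForm.Nondegenerate Q.polarBilin ∧
    ∀ g : (Module.End F V)ˣ, g ∈ O ↔ ∀ x, Q (g.val x) = Q x

/-- `H = Ω(Q)`, the commutator subgroup of `O(Q)`, with `dim V ≥ 7`, and `|F|` odd if `dim V` is
odd. -/
def IsOmega (F V : Type) [Field F] [AddCommGroup V] [Module F V]
    (H : Subgroup (Module.End F V)ˣ) : Prop :=
  7 ≤ Module.finrank F V ∧ (Odd (Module.finrank F V) → Odd (Nat.card F)) ∧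
    ∃ O : Subgroup (Module.End F V)ˣ, IsO F V O ∧ H = ⁅O, O⁆

/-- `G ≅ H / Z(H)` with `H ≤ GL(V)` one of the groups above. For `F` finite and `V`
finite-dimensional these `G` are the finite simple classical groups. -/
def IsClassical (F V G : Type) [Field F] [AddCommGroup V] [Module F V] [Group G] : Prop :=
  ∃ H : Subgroup (Module.End F V)ˣ,
    (IsSL F V H ∨ IsSp F V H ∨ IsSU F V H ∨ IsOmega F V H) ∧ IsCentralQuotient G H

end Pool.Agent.MP_db74b1_al.Lt
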