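import Pool.Agent.MP_db74b1_al.ClSp3
import Pool.Agent.MP_db74b1_al.ClU4
import Pool.Agent.MP_db74b1_al.ClO6
import Pool.Agent.MP_db74b1_al.LtClDefs

/-! The Arad-Herzog conjecture for all finite simple classical groups. -/

set_option autoImplicit false

namespace Pool.Agent.MP_db74b1_al.Lt

open Pool.Agent.MP_db74b1_al in
theorem classical (F V G : Type) [Field F] [Finite F] [AddCommGroup V] [Module F V]
    [FiniteDimensional F V] [Group G] (hG : IsClassical F V G) :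
    ¬ ∃ x y z : G, x ≠ 1 ∧ y ≠ 1 ∧
      {g : G | ∃ a b : G, IsConj x a ∧ IsConj y b ∧ g = a * b} = {g : G | IsConj z g} := by
  rintro ⟨x, y, z, hx, hy, h⟩
  obtain ⟨H, hH, ⟨φ⟩⟩ := hG
  rcases hH with ⟨h1, h2, h3⟩ | ⟨h1, h2, B, h3, h4, h5⟩ |
    ⟨h1, h2, σ, B, ⟨h3, h4, h5, h6, h7⟩, h8⟩ | ⟨h1, h2, O, ⟨Q, h3, h4⟩, h5⟩
  · obtain ⟨a, -, b, -, na, nb, e, hb⟩ := reduce H _ (sl_center h3 h1) φ x y z hx hy h
    exact sl_main h3 h1 h2 hb na nb
  · have D : SpD B H := ⟨h3, h4.2, h5, h1⟩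
    obtain ⟨a, ha, b, hb, na, nb, e, hbad⟩ := reduce H _ D.center φ x y z hx hy h
    exact D.main hbad ha hb (fun hq => by
      by_contra hh
      have := h2 (by omega)
      omega) na nb
  · let B' : V →ₗ[F] V →ₛₗ[σ] F := LinearMap.mk₂'ₛₗ (RingHom.id F) σ B
      (fun a b c => (h5 c).map_add a b) (fun c a b => (h5 b).map_smul c a)
      (fun a b c => by rw [h6 (b + c) a, (h5 a).map_add, map_add, ← h6, ← h6])
      (fun c a b => by rw [h6 (c • b) a, (h5 a).map_smul, smul_eq_mul, map_mul, ← h6, smul_eq_mul])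
    have D : UD σ B' H := ⟨h3, h4, h6, h7, h8, h1⟩
    obtain ⟨a, ha, b, hb, na, nb, e, hbad⟩ := reduce H _ D.center φ x y z hx hy h
    exact D.main h2 hbad ha hb na nb
  · have hO : O = orthGroup Q := Subgroup.ext h4
    have D : OD Q Q.polarBilin H := ⟨fun x y => QuadraticMap.map_add Q x y, h3.2, by rw [h5, hO],
      h1⟩
    obtain ⟨a, ha, b, hb, na, nb, e, hbad⟩ := reduce H _ D.center φ x y z hx hy h
    refine D.main (fun ho h2' => ?_) hbad ha hb na nb
    obtain ⟨k, hk⟩ := h2 (Nat.odd_iff.mpr ho)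
    have := card_cast (F := F)
    rw [hk] at this
    push_cast at this
    exact one_ne_zero (α := F) (by linear_combination this - k * h2')

end Pool.Agent.MP_db74b1_al.Lt
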