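import Pool.Agent.MP_db74b1_al.ExcStmt

/-! Definitions of the small exceptional families of finite groups of Lie type. -/

set_option autoImplicit false

namespace Pool.Agent.MP_db74b1_al.Lt

open Pool.Agent.MP_db74b1_al.Exc

variable {K : Type} [Field K]

/-- Product of split octonions in Zorn's vector-matrix form; `x = (α, u₁, u₂, u₃, v₁, v₂, v₃, β)`:
`(α,u,v,β)(α',u',v',β') = (αα' + u·v', αu' + β'u + v×v', α'v + βv' - u×u', ββ' + u'·v)`. -/
def zorn (x y : Fin 8 → K) : Fin 8 → K :=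
  ![x 0 * y 0 + (x 1 * y 4 + x 2 * y 5 + x 3 * y 6),
    x 0 * y 1 + y 7 * x 1 + (x 5 * y 6 - x 6 * y 5),
    x 0 * y 2 + y 7 * x 2 + (x 6 * y 4 - x 4 * y 6),
    x 0 * y 3 + y 7 * x 3 + (x 4 * y 5 - x 5 * y 4),
    y 0 * x 4 + x 7 * y 4 - (x 2 * y 3 - x 3 * y 2),
    y 0 * x 5 + x 7 * y 5 - (x 3 * y 1 - x 1 * y 3),
    y 0 * x 6 + x 7 * y 6 - (x 1 * y 2 - x 2 * y 1),
    x 7 * y 7 + (y 1 * x 4 + y 2 * x 5 + y 3 * x 6)]

/-- Octonion conjugation. -/
def bar (x : Fin 8 → K) : Fin 8 → K := ![x 7, -x 1, -x 2, -x 3, -x 4, -x 5, -x 6, x 0]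

/-- The twisted product `x ∗ y = bar (τ x) · bar (τ² y)`, `τ` acting on coordinates. -/
def tw (τ : K →+* K) (x y : Fin 8 → K) : Fin 8 → K :=
  zorn (bar fun i => τ (x i)) (bar fun i => τ (τ (y i)))

/-- The group of linear automorphisms of the twisted product: `G₂(K)` if `τ = id`, and `³D₄` if
`τ` has order three. -/
def tri (τ : K →+* K) : Subgroup ((Fin 8 → K) ≃ₗ[K] (Fin 8 → K)) :=
  Subgroup.closure {g | ∀ x y, g (tw τ x y) = tw τ (g x) (g y)}

/-- The Chevalley group generated by the root elements `s i t` (short roots) and `l i t`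
(long roots). -/
def gen {V ι : Type} [AddCommGroup V] [Module K V] (s l : ι → K → V → V) :
    Subgroup (V ≃ₗ[K] V) :=
  Subgroup.closure {g | ∃ i t, ⇑g = s i t ∨ ⇑g = l i t}

/-- `G` is the group of fixed points of an involutory automorphism `σ` of `H` with `P g (σ g)` for
all `g`. -/
def IsFixed (G H : Type) [Group G] [Group H] (P : H → H → Prop) : Prop :=
  ∃ σ : H →* H, (∀ g, σ (σ g) = g) ∧ (∀ g, P g (σ g)) ∧
    Nonempty (G ≃* σ.eqLocus (MonoidHom.id H))

/-- `G` is the group of fixed points of an involutory automorphism of `gen s l` which sends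
`s i t` to `l i (θ t)`. -/
def IsSR (G : Type) [Group G] {V ι : Type} [AddCommGroup V] [Module K V] (s l : ι → K → V → V)
    (θ : K →+* K) : Prop :=
  IsFixed G (gen s l) fun g h => ∀ i t, ⇑g.1 = s i t → ⇑h.1 = l i (θ t)

/-- `B₂ = Sp₄` in characteristic two: root elements of `±` the short simple root. -/
def b2s (i : Bool) (t : K) (x : Fin 4 → K) : Fin 4 → K :=
  if i then ![x 0 + t * x 1, x 1, x 2 + t * x 3, x 3] else ![x 0, x 1 + t * x 0, x 2, x 3 + t * x 2]

/-- `B₂`: root elements of `±` the long simple root. -/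
def b2l (i : Bool) (t : K) (x : Fin 4 → K) : Fin 4 → K :=
  if i then ![x 0, x 1 + t * x 2, x 2, x 3] else ![x 0, x 1, x 2 + t * x 1, x 3]

/-- The octonion `1 + t v₂` or `1 + t u₂`. -/
def g2n (i : Bool) (t : K) : Fin 8 → K :=
  if i then ![1, 0, 0, 0, 0, t, 0, 1] else ![1, 0, t, 0, 0, 0, 0, 1]

/-- `G₂` in characteristic three: root elements of `±` the short simple root,
`x ↦ (1 + t n) x (1 - t n)`. -/
def g2s (i : Bool) (t : K) (x : Fin 8 → K) : Fin 8 → K := zorn (zorn (g2n i t) x) (g2n i (-t))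

/-- `G₂`: root elements of `±` the long simple root (elementary matrices of `SL₃` acting on `u`,
and contragrediently on `v`). -/
def g2l (i : Bool) (t : K) (x : Fin 8 → K) : Fin 8 → K :=
  if i then ![x 0, x 1, x 2 + t * x 3, x 3, x 4, x 5, x 6 - t * x 5, x 7]
  else ![x 0, x 1, x 2, x 3 + t * x 2, x 4, x 5 - t * x 6, x 6, x 7]

/-- `±` the `j`-th simple root of `E₈`. -/
def sr (i : Bool) (j : Fin 8) : Exc.Lat := Pi.single j (if i then 1 else -1)

/-- `F₄` inside `E₆`: root elements of `±` the short simple roots `α₄`, `α₃`. -/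
def f4s (i : Bool × Bool) (t : K) : L K → L K :=
  if i.2 then xf (sr i.1 0) t ∘ xf (sr i.1 5) t else xf (sr i.1 2) t ∘ xf (sr i.1 4) t

/-- `F₄`: root elements of `±` the long simple roots `α₁`, `α₂`. -/
def f4l (i : Bool × Bool) (t : K) : L K → L K :=
  if i.2 then xf (sr i.1 1) t else xf (sr i.1 3) t

end Pool.Agent.MP_db74b1_al.Lt
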