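import Pool.Agent.MP_db74b1_al.ExcQ9

set_option autoImplicit false

namespace Pool.Agent.MP_db74b1_al.Lt
open Pool.Agent.MP_db74b1_al.Exc

variable {K : Type} [Field K] {c : Cfg K}

theorem G_le_simple {H : Subgroup (Aut K)}
    (h : ∀ i : Fin 8, i.1 < c.n → ∀ t, c.Al (a i) t → c.Y (a i) t ∈ H ∧ c.Y (-a i) t ∈ H) :
    c.G ≤ H := by
  have hN : ∀ i : Fin 8, i.1 < c.n → c.NY (a i) 1 ∈ H := fun i hi => by
    have h1 := h i hi 1 (Cfg.Al_one _)
    rw [Cfg.NY, inv_one]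
    exact mul_mem (mul_mem h1.1 h1.2) h1.1
  have step : ∀ α (i : Fin 8), i.1 < c.n → c.R α →
      (∀ t, c.Al (c.wY (a i) α) t → c.Y (c.wY (a i) α) t ∈ H) →
      ∀ t, c.Al α t → c.Y α t ∈ H := fun α i hi hα ih t ht => by
    obtain ⟨t', h1, _, h2⟩ := (Cfg.n_Mon hi).conjY' hα ht
    have h3 : c.Y α t = (c.NY (a i) 1)⁻¹ * c.Y (c.wY (a i) α) t' * c.NY (a i) 1 := by
      rw [mul_assoc, ← h2, inv_mul_cancel_left]
    rw [h3]
    exact mul_mem (mul_mem (inv_mem (hN i hi)) (ih t' h1)) (hN i hi)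
  have pos : ∀ α, c.R α → 0 ≤ α → ∀ t, c.Al α t → c.Y α t ∈ H := by
    intro α hα h0
    induction' hk : (ht α).toNat using Nat.strong_induction_on with k ih generalizing α
    obtain ⟨i, hi, _, h3⟩ := Cfg.desc hα h0
    by_cases h1 : α = a i
    · exact fun t ht => by rw [h1] at ht ⊢; exact (h i hi t ht).1
    by_cases h2 : α = a (pm c.b i)
    · exact fun t ht => by rw [h2] at ht ⊢; exact (h _ ((c.pm_lt i).2 hi) t ht).1
    have hU := Cfg.wY_Ui hi (β := α) ⟨⟨hα.2, h0⟩, h1, h2⟩ hα.1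
    have h4 := (Cfg.ht_wY hi α).1 h3
    have h5 := ht_nonneg hU.1.2
    exact step α i hi hα (ih _ (by omega) _ ((Cfg.n_Mon hi).R hα) hU.1.2 rfl)
  exact Cfg.G_le fun α t hα ht =>
    Cfg.root_ind (p := fun α => ∀ t, c.Al α t → c.Y α t ∈ H) pos step hα t ht

namespace F4b

theorem low6 : ∀ β ∈ allL, β 6 = 1 → β 7 = 0 →
    (∀ j, β j = a 6 j) ∨ ∃ i : Fin 8, i.1 < 6 ∧ cv β i = 1 := by decide +kernel

theorem high6 : ∀ β ∈ allL, β 6 = -1 → β 7 = 0 →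
    (∀ j, β j = (-a 6) j) ∨ ∃ i : Fin 8, i.1 < 6 ∧ cv β i = -1 := by decide +kernel

theorem eps2 (h2 : (2 : K) = 0) (x y : Exc.Lat) : (eps x y : K) = 1 := by
  rcases eps_cases x y with h | h <;> rw [h]
  · exact Int.cast_one
  · push_cast; linear_combination -h2

def b1 : Exc.Lat := v8 0 1 1 2 2 2 1 0
def b2 : Exc.Lat := v8 1 1 1 2 2 1 1 0
def b3 : Exc.Lat := v8 1 1 2 2 1 1 1 0

/-- The fixed vector. -/
noncomputable def v0 : L K := e b1 + e b2 + e b3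

/-- The stabiliser of a vector. -/
def Stab (v : L K) : Subgroup (Aut K) where
  carrier := {g | g v = v}
  mul_mem' := fun {g g'} hg hg' => by
    change (g * g') v = v
    rw [LinearEquiv.mul_apply, hg', hg]
  one_mem' := rfl
  inv_mem' := fun hg => inv_fix hg

theorem fix_two (h2 : (2 : K) = 0) {ζ ζ' : Exc.Lat} (p q r : Exc.Lat)
    (h : ipx ζ ζ = 2 ∧ ipx ζ' ζ' = 2 ∧ ipx p p = 2 ∧ ipx q q = 2 ∧ ipx r r = 2 ∧ ipx ζ p = -1 ∧
      0 ≤ ipx ζ q ∧ 0 ≤ ipx ζ r ∧ 0 ≤ ipx ζ' p ∧ ipx ζ' q = -1 ∧ 0 ≤ ipx ζ' r ∧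
      ∀ j, (ζ' + q) j = (ζ + p) j) (hv : (v0 : L K) = e p + e q + e r) (t : K) :
    X ζ t * X ζ' t ∈ Stab (v0 : L K) := by
  simp only [← ip_x] at h
  obtain ⟨r1, r2, r3, r4, r5, i1, i2, i3, i4, i5, i6, i7⟩ := h
  have r6 := (root_add r1 r3).2 i1
  change (X ζ t * X ζ' t : Aut K) v0 = v0
  rw [hv, LinearEquiv.mul_apply, map_add (X ζ' t), map_add (X ζ' t), X_e_nn r2 r3 i4, X_e_m1 r2 r4 i5,
    X_e_nn r2 r5 i6, funext i7, map_add, map_add, map_add, map_smul, X_e_m1 r1 r3 i1,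
    X_e_nn r1 r4 i2, X_e_nn r1 r5 i3, X_e_nn r1 r6 (by rw [ip_add_right]; omega), eps2 h2,
    eps2 h2]
  linear_combination (norm := module) add_self2 h2 (t • (e (ζ + p) : L K))

theorem fix_one {ζ : Exc.Lat} (h : ipx ζ ζ = 2 ∧ 0 ≤ ipx ζ b1 ∧ 0 ≤ ipx ζ b2 ∧ 0 ≤ ipx ζ b3) (t : K) :
    X ζ t ∈ Stab (v0 : L K) := by
  simp only [← ip_x] at h
  change X ζ t v0 = v0
  rw [v0, map_add, map_add, X_e_nn h.1 (rt (by decide)) h.2.1, X_e_nn h.1 (rt (by decide)) h.2.2.1,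
    X_e_nn h.1 (rt (by decide)) h.2.2.2]

theorem Y_one (hb : c.b = true) {ζ : Exc.Lat} (h : ∀ j, sg true ζ j = ζ j) (t : K) :
    c.Y ζ t = X ζ t := Cfg.Y_fix (by rw [hb]; exact funext h) t

theorem Y_two (hb : c.b = true) (hτ : ∀ t, c.τ t = t) {ζ : Exc.Lat} (h : ¬ ∀ j, sg true ζ j = ζ j)
    (t : K) : c.Y ζ t = X ζ t * X (sg true ζ) t := by
  rw [Cfg.Y_mov (by rw [hb]; exact fun h' => h (congrFun h')), hτ, hb]

theorem G_v0 (hb : c.b = true) (hτ : ∀ t, c.τ t = t) (h2 : (2 : K) = 0) :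
    c.G ≤ Stab (v0 : L K) := by
  have e1 : (v0 : L K) = e b1 + e b2 + e b3 := rfl
  have e2 : (v0 : L K) = e b2 + e b1 + e b3 := by rw [e1]; abel
  have e3 : (v0 : L K) = e b2 + e b3 + e b1 := by rw [e1]; abel
  have e4 : (v0 : L K) = e b3 + e b2 + e b1 := by rw [e1]; abel
  refine G_le_simple fun i hi t _ => ?_
  rw [Cfg.n6_of_b hb] at hi
  have k : i = 0 ∨ i = 1 ∨ i = 2 ∨ i = 3 ∨ i = 4 ∨ i = 5 := by omega
  rcases k with rfl | rfl | rfl | rfl | rfl | rfl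
  · rw [Y_two hb hτ (by decide), Y_two hb hτ (by decide)]
    exact ⟨fix_two h2 _ _ _ (by decide) e1 t, fix_two h2 _ _ _ (by decide) e2 t⟩
  · rw [Y_one hb (by decide), Y_one hb (by decide)]
    exact ⟨fix_one (by decide) t, fix_one (by decide) t⟩
  · rw [Y_two hb hτ (by decide), Y_two hb hτ (by decide)]
    exact ⟨fix_two h2 _ _ _ (by decide) e3 t, fix_two h2 _ _ _ (by decide) e4 t⟩
  · rw [Y_one hb (by decide), Y_one hb (by decide)]
    exact ⟨fix_one (by decide) t, fix_one (by decide) t⟩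
  · rw [Y_two hb hτ (by decide), Y_two hb hτ (by decide)]
    exact ⟨fix_two h2 _ _ _ (by decide) e4 t, fix_two h2 _ _ _ (by decide) e3 t⟩
  · rw [Y_two hb hτ (by decide), Y_two hb hτ (by decide)]
    exact ⟨fix_two h2 _ _ _ (by decide) e2 t, fix_two h2 _ _ _ (by decide) e1 t⟩

theorem piece (hb : c.b = true) {z : Aut K} (hz : z ∈ c.G) (κ : Exc.Lat) :
    van (fun β => ¬ (β 6 = κ 6 ∧ β 7 = κ 7)) (z (e κ)) := by
  have h0 : van (fun β => ¬ (β 6 = κ 6 ∧ β 7 = κ 7)) (e κ : L K) := van_e (by simp)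
  have h1 := van_Ucl (A := c.R) (Z := fun β => ¬ (β 6 = κ 6 ∧ β 7 = κ 7)) (fun _ h => h)
    (fun α hα _ β hβ => by
      have k := hα.2
      rw [Cfg.n6_of_b hb] at k
      simpa [k 6 (by decide), k 7 (by decide)] using hβ) h0 (Cfg.G_le_R hz)
  simpa using h1.add h0

theorem scal_pos (hb : c.b = true) {z : Aut K} (hz : z ∈ c.G)
    (hf : ∀ i : Fin 8, i.1 < 6 → z (e (-a i)) = e (-a i)) :
    z (e (a 6)) = co (a 6) (z (e (a 6))) • e (a 6) := by
  have hP := piece hb hz (a 6)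
  refine eq_one (root_a 6) (hP.2 (by decide)) fun μ hμ h => ?_
  by_cases h1 : μ 6 = a 6 6 ∧ μ 7 = a 6 7
  swap
  · exact hP.1 μ h1
  obtain ⟨i, hi, h2⟩ := (low6 μ (mem_allL hμ) h1.1 h1.2).resolve_left fun h' => h (funext h')
  have r := root_neg (root_a i)
  refine co_of_ad r hμ (by rw [ip_neg_left, ip_comm, ip_a, h2]) ?_
  rw [← aut_ad (Cfg.G_aut hz) r (hf i hi), ad_e_nn r (root_a 6), map_zero]
  rw [ip_x]; clear h2 r; revert i; decide

theorem scal_neg (hb : c.b = true) {z : Aut K} (hz : z ∈ c.G)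
    (hf : ∀ i : Fin 8, i.1 < 6 → z (e (a i)) = e (a i)) :
    z (e (-a 6)) = co (-a 6) (z (e (-a 6))) • e (-a 6) := by
  have hP := piece hb hz (-a 6)
  refine eq_one (root_neg (root_a 6)) (hP.2 (by decide)) fun μ hμ h => ?_
  by_cases h1 : μ 6 = (-a 6) 6 ∧ μ 7 = (-a 6) 7
  swap
  · exact hP.1 μ h1
  obtain ⟨i, hi, h2⟩ := (high6 μ (mem_allL hμ) h1.1 h1.2).resolve_left fun h' => h (funext h')
  have r := root_a i
  refine co_of_ad r hμ (by rw [ip_comm, ip_a, h2]) ?_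
  rw [← aut_ad (Cfg.G_aut hz) r (hf i hi), ad_e_nn r (root_neg (root_a 6)), map_zero]
  rw [ip_x]; clear h2 r; revert i; decide

theorem scal_all {z : Aut K} (hz : z ∈ AutG K) (hf : ∀ i : Fin 8, i.1 < 6 → z (e (a i)) = e (a i))
    {s : K} (hs : z (e (a 6)) = s • e (a 6)) {β : Exc.Lat} (hβ : ip β β = 2) (h6 : β 6 = 1)
    (h7 : β 7 = 0) : z (e β) = s • e β := by
  induction' hk : (ht β).toNat using Nat.strong_induction_on with k ih generalizing β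
  rcases low6 β (mem_allL hβ) h6 h7 with h | ⟨i, hi, h⟩
  · rw [funext h]; exact hs
  rw [← ip_a] at h
  have r1 := (root_sub hβ (root_a i)).2 h
  have c6 : (β - a i) 6 = 1 := by
    have : (6 : Fin 8) ≠ i := by rintro rfl; omega
    simp [a, this, h6]
  have c7 : (β - a i) 7 = 0 := by
    have : (7 : Fin 8) ≠ i := by rintro rfl; omega
    simp [a, this, h7]
  have p1 : 0 ≤ β - a i := (root_dich r1).resolve_right fun h' => by
    have := h' 6; rw [c6] at this; exact absurd this (by decide)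
  have p2 := ht_nonneg p1
  have p3 : ht (β - a i) = ht β - 1 := by rw [ht_sub, ht_a]
  have e1 : ip (a i) (β - a i) = -1 := by rw [ip_sub_right, ip_comm, h, root_a]; rfl
  have k1 := aut_step hz (root_a i) r1 (root_a i) r1 e1 e1 (hf i hi)
    (ih _ (by omega) r1 c6 c7 rfl)
  rwa [mul_assoc, eps_cast_mul_self, mul_one, add_sub_cancel] at k1

/-- The full configuration of type `E₈`. -/
def c8 (K : Type) [Field K] : Cfg K :=
  ⟨8, false, RingHom.id K, Or.inl ⟨rfl, fun _ => rfl, Or.inr (Or.inr rfl)⟩⟩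

theorem mem_c8 (v : L K) : v ∈ (c8 K).V :=
  ⟨fun j hj => absurd hj (not_le.2 j.2), fun _ hβ => absurd (fun j hj => absurd hj (not_le.2 j.2)) hβ⟩

end F4b

open F4b in
theorem triv_eq_one (hb : c.b = true) (hτ : ∀ t, c.τ t = t) (h2 : (2 : K) = 0) {z : Aut K}
    (hz : z ∈ c.G) (h : c.Triv z) : z = 1 := by
  have hn := Cfg.n6_of_b hb
  have hA := Cfg.G_aut hz
  have f1 : ∀ i : Fin 8, i.1 < 6 → z (e (a i)) = e (a i) := fun i hi =>
    h _ (Cfg.e_mem (Sp_a (hn ▸ hi)))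
  have f2 : ∀ i : Fin 8, i.1 < 6 → z (e (-a i)) = e (-a i) := fun i hi =>
    h _ (Cfg.e_mem (Sp_a (hn ▸ hi)).neg)
  have o7 : ∀ β, c.R β → ip β (a 7) = 0 := fun β hβ => by
    have k := hβ.2
    rw [hn] at k
    rw [ip_a]
    change 2 * β 7 - β 6 = 0
    rw [k 6 (by decide), k 7 (by decide)]; rfl
  have f3 : z (e (a 7)) = e (a 7) :=
    Ucl_fix' (root_a 7) (fun β hβ _ => (o7 β hβ).ge) (Cfg.G_le_R hz)
  have f4 : z (e (-a 7)) = e (-a 7) :=
    Ucl_fix' (root_neg (root_a 7)) (fun β hβ _ => by rw [ip_neg_right, o7 β hβ]; rfl)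
      (Cfg.G_le_R hz)
  have s1 := scal_pos hb hz f2
  have s2 := scal_neg hb hz f1
  generalize co (a 6) (z (e (a 6))) = s at s1
  generalize co (-a 6) (z (e (-a 6))) = s' at s2
  have e1 : z v0 = v0 := G_v0 hb hτ h2 hz
  have r1 : ip b1 b1 = 2 := rt (by decide)
  rw [v0, map_add, map_add, scal_all hA f1 s1 r1 rfl rfl,
    scal_all hA f1 s1 (β := b2) (rt (by decide)) rfl rfl,
    scal_all hA f1 s1 (β := b3) (rt (by decide)) rfl rfl] at e1
  have e2 := congrArg (co b1) e1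
  simp only [map_add, map_smul, co_e_self r1, co_e_ne (show b1 ≠ b2 by decide),
    co_e_ne (show b1 ≠ b3 by decide), smul_eq_mul, mul_one, mul_zero, add_zero] at e2
  have e3 := aut_neg hA (root_a 6) (root_a 6) s1 s2
  rw [e2, one_mul] at e3
  rw [e2, one_smul] at s1
  rw [e3, one_smul] at s2
  refine LinearEquiv.ext fun v => gen_fix hA (c := c8 K) (fun i _ => ?_) (mem_c8 v)
  by_cases hi : i.1 < 6
  · exact ⟨f1 i hi, f2 i hi⟩
  have k : i = 6 ∨ i = 7 := by omega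
  rcases k with rfl | rfl
  · exact ⟨s1, s2⟩
  · exact ⟨f3, f4⟩

end Pool.Agent.MP_db74b1_al.Lt
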