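import Mathlib

set_option autoImplicit false

namespace Pool.Agent.MP_db74b1_al.Lt

namespace Sep

variable {K : Type} [Field K]

/-- The monomial characters. -/
def chi (θ : K →+* K) (x : Fin 5 × Fin 3) : K →* K where
  toFun t := t ^ x.1.1 * θ t ^ x.2.1
  map_one' := by simp
  map_mul' a b := by
    rw [map_mul, mul_pow, mul_pow]
    ring

theorem card_cases [Finite K] (h2 : (2 : K) = 0) (hK : 8 < Nat.card K) :
    Nat.card K = 16 ∨ 32 ≤ Nat.card K := by
  classical
  cases nonempty_fintype K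
  have : CharP K 2 := CharTwo.of_one_ne_zero_of_two_eq_zero one_ne_zero h2
  obtain ⟨n, -, hn⟩ := FiniteField.card K 2
  rw [Nat.card_eq_fintype_card, hn] at hK ⊢
  rcases Nat.lt_or_ge (n : ℕ) 4 with h | h
  · have := Nat.pow_le_pow_right (by norm_num : 0 < 2) (Nat.lt_succ_iff.1 h)
    omega
  · rcases h.eq_or_lt with h | h
    · left
      rw [← h]
      rfl
    · right
      exact Nat.pow_le_pow_right (by norm_num : 0 < 2) h

theorem chi_inj [Finite K] (θ : K →+* K) (h : ∀ t, θ (θ t) = t ^ 2) (hK : 8 < Nat.card K) :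
    Function.Injective (chi θ) := by
  classical
  have h2 : (2 : K) = 0 := by
    have h1 := h 2
    rw [map_ofNat, map_ofNat] at h1
    have h3 : (2 : K) * (2 - 1) = 0 := by linear_combination -h1
    rcases mul_eq_zero.1 h3 with h4 | h4
    · exact h4
    · exact absurd (by linear_combination h4 : (1 : K) = 0) one_ne_zero
  have hc := card_cases h2 hK
  cases nonempty_fintype K
  rintro ⟨i, j⟩ ⟨i', j'⟩ hx
  have key : ∀ t : Kˣ, t ^ (((i.1 : ℤ) - i'.1) ^ 2 - 2 * ((j.1 : ℤ) - j'.1) ^ 2).natAbs = 1 := by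
    intro t
    have e1 : (t : K) ^ i.1 * θ t ^ j.1 = (t : K) ^ i'.1 * θ t ^ j'.1 := DFunLike.congr_fun hx (t : K)
    have e2 := congrArg θ e1
    rw [map_mul, map_mul, map_pow, map_pow, map_pow, map_pow, h] at e2
    set u : Kˣ := Units.map (θ : K →* K) t with hu
    have f1 : t ^ i.1 * u ^ j.1 = t ^ i'.1 * u ^ j'.1 := Units.ext (by simpa [hu] using e1)
    have f2 : u ^ i.1 * (t ^ 2) ^ j.1 = u ^ i'.1 * (t ^ 2) ^ j'.1 :=
      Units.ext (by simpa [hu] using e2)
    have g1 := congrArg Additive.ofMul f1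
    have g2 := congrArg Additive.ofMul f2
    simp only [ofMul_mul, ofMul_pow, ← natCast_zsmul] at g1 g2
    have g3 : (((i.1 : ℤ) - i'.1) ^ 2 - 2 * ((j.1 : ℤ) - j'.1) ^ 2) • Additive.ofMul t = 0 := by
      linear_combination (norm := module) ((i.1 : ℤ) - i'.1) • g1 - ((j.1 : ℤ) - j'.1) • g2
    rw [pow_natAbs_eq_one]
    exact g3
  rw [FiniteField.forall_pow_eq_one_iff, ← Nat.card_eq_fintype_card] at key
  have hi := i.2
  have hi' := i'.2
  have hj := j.2
  have hj' := j'.2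
  have h0 : i.1 = i'.1 ∧ j.1 = j'.1 := by
    generalize Nat.card K = q at key hc
    generalize i.1 = a at *
    generalize i'.1 = a' at *
    generalize j.1 = b at *
    generalize j'.1 = b' at *
    rcases hc with rfl | hc
    · interval_cases a <;> interval_cases a' <;> interval_cases b <;> interval_cases b' <;>
        simp_all
    · by_contra hne
      have h1 : (((a : ℤ) - a') ^ 2 - 2 * ((b : ℤ) - b') ^ 2).natAbs ≠ 0 ∧
          (((a : ℤ) - a') ^ 2 - 2 * ((b : ℤ) - b') ^ 2).natAbs ≤ 16 := by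
        clear key
        interval_cases a <;> interval_cases a' <;> interval_cases b <;> interval_cases b' <;>
          simp_all
      have := Nat.le_of_dvd (Nat.pos_of_ne_zero h1.1) key
      omega
  exact Prod.ext (Fin.ext h0.1) (Fin.ext h0.2)

theorem mem_of_sum [Finite K] (θ : K →+* K) (h : ∀ t, θ (θ t) = t ^ 2) (hK : 8 < Nat.card K)
    {A : Type} [AddCommGroup A] [Module K A] (Y : Submodule K A) (ψ : Fin 5 × Fin 3 → A)
    (hψ : ∀ t : K, ∑ x, (t ^ x.1.1 * θ t ^ x.2.1) • ψ x ∈ Y) (x : Fin 5 × Fin 3) : ψ x ∈ Y := by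
  by_contra hx
  obtain ⟨f, hf, hY⟩ := Submodule.exists_dual_map_eq_bot_of_notMem hx inferInstance
  have hl := (linearIndependent_monoidHom K K).comp (chi θ) (chi_inj θ h hK)
  refine hf (Fintype.linearIndependent_iff.1 hl (fun y => f (ψ y)) ?_ x)
  funext t
  have h1 : f (∑ x, (t ^ x.1.1 * θ t ^ x.2.1) • ψ x) = 0 := by
    rw [← Submodule.mem_bot K, ← hY]
    exact Submodule.mem_map_of_mem (hψ t)
  rw [map_sum] at h1
  rw [Finset.sum_apply, Pi.zero_apply, ← h1]
  refine Finset.sum_congr rfl fun y _ => ?_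
  rw [map_smul, smul_eq_mul, mul_comm]
  rfl

variable {A : Type} [Ring A] [Algebra K A]

/-- The outer coefficients. -/
def nn (A1 A2 E1 E2 M : A) : Fin 5 → A :=
  ![M, A1 * M + M * A2, E1 * M + A1 * M * A2 + M * E2, E1 * M * A2 + A1 * M * E2, E1 * M * E2]

/-- The inner coefficients. -/
def mm (φ C1 C2 : A) : Fin 3 → A := ![φ, C1 * φ + φ * C2, C1 * φ * C2]

theorem expand (φ A1 A2 E1 E2 C1 C2 : A) (s r : K) :
    (1 + s • A1 + s ^ 2 • E1) * (1 + r • C1) * φ * ((1 + r • C2) * (1 + s • A2 + s ^ 2 • E2)) - φ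
      = ∑ x : Fin 5 × Fin 3, (s ^ x.1.1 * r ^ x.2.1) •
        (nn A1 A2 E1 E2 (mm φ C1 C2 x.2) x.1 - if x = (0, 0) then φ else 0) := by
  rw [Fintype.sum_prod_type]
  simp only [Fin.sum_univ_five, Fin.sum_univ_three, nn, mm]
  simp [mul_add, add_mul, mul_assoc]
  module

end Sep

theorem sep {K : Type} [Field K] [Finite K] (θ : K →+* K) (h : ∀ t, θ (θ t) = t ^ 2)
    (hK : 8 < Nat.card K) {A : Type} [Ring A] [Algebra K A] (Y : Submodule K A)
    (φ A1 A2 E1 E2 C1 C2 : A)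
    (hφ : ∀ t : K, (1 + t • A1 + t ^ 2 • E1) * (1 + θ t • C1) * φ *
      ((1 + θ t • C2) * (1 + t • A2 + t ^ 2 • E2)) - φ ∈ Y) (s r : K) :
    (1 + s • A1 + s ^ 2 • E1) * (1 + r • C1) * φ * ((1 + r • C2) * (1 + s • A2 + s ^ 2 • E2)) - φ
      ∈ Y := by
  rw [Sep.expand]
  refine Y.sum_mem fun x _ => Y.smul_mem _ ?_
  refine Sep.mem_of_sum θ h hK Y (fun x => Sep.nn A1 A2 E1 E2 (Sep.mm φ C1 C2 x.2) x.1 -
    if x = (0, 0) then φ else 0) (fun t => ?_) x
  rw [← Sep.expand]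
  exact hφ t

end Pool.Agent.MP_db74b1_al.Lt
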