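import Pool.Agent.MP_db74b1_al.LtDefs
import Pool.Agent.MP_db74b1_al.LtSep
import Pool.Agent.MP_db74b1_al.LtF4a
import Pool.Agent.MP_db74b1_al.LtF4b
import Pool.Agent.MP_db74b1_al.ExcBridge

set_option autoImplicit false

namespace Pool.Agent.MP_db74b1_al.Lt
open Pool.Agent.MP_db74b1_al.Exc

namespace F4m

section abs

variable {K A Γ : Type} [Field K] [Ring A] [Algebra K A] [Group Γ]

/-- Conjugation by `x` moves `P` only by elements of `Q`. -/
def Good (ρ : Γ →* A) (P Q : Submodule K A) (x : Γ) : Prop := ∀ φ ∈ P, ρ x * φ * ρ x⁻¹ - φ ∈ Q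

theorem Good.mul {ρ : Γ →* A} {P Q : Submodule K A} (h : Q ≤ P) {x y : Γ} (hx : Good ρ P Q x)
    (hy : Good ρ P Q y) : Good ρ P Q (x * y) := fun φ hφ => by
  have h1 := hy φ hφ
  have h2 := Q.add_mem (hx _ (by simpa using P.add_mem (h h1) hφ : ρ y * φ * ρ y⁻¹ ∈ P)) h1
  simpa only [sub_add_sub_cancel, mul_inv_rev, map_mul, mul_assoc] using h2

/-- The subgroup of good elements. -/
def St (ρ : Γ →* A) (P Q : Submodule K A) (h : Q ≤ P) : Subgroup Γ where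
  carrier := {x | Good ρ P Q x ∧ Good ρ P Q x⁻¹}
  mul_mem' hx hy := ⟨hx.1.mul h hy.1, by rw [mul_inv_rev]; exact hy.2.mul h hx.2⟩
  one_mem' := ⟨fun φ _ => by simp, fun φ _ => by simp⟩
  inv_mem' hx := ⟨hx.2, by rw [inv_inv]; exact hx.1⟩

theorem exists_St [Finite K] (θ : K →+* K) (h : ∀ t, θ (θ t) = t ^ 2) (hK : 8 < Nat.card K)
    (ρ : Γ →* A) (tr : A →ₗ[K] K) (H : Subgroup Γ) (x y : Γ) (k : K)
    (hk : ∀ p ∈ H, ∀ q ∈ H, tr (ρ (p * x * p⁻¹ * (q * y * q⁻¹))) = k) :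
    ∃ S : Subgroup Γ, (∀ g ∈ S, tr (ρ (x * (g * y * g⁻¹))) = k) ∧ ∀ (u w : K → Γ) (A1 E C : A),
      (∀ t, ρ (u t) = 1 + t • A1 + t ^ 2 • E) → (∀ t, ρ (w t) = 1 + t • C) →
      (∀ t, (u t)⁻¹ = u t) → (∀ t, (w t)⁻¹ = w t) → u 0 = 1 → w 0 = 1 →
      (∀ t, u t * w (θ t) ∈ H) → ∀ s, u s ∈ S ∧ w s ∈ S := by
  let P : Submodule K A := Submodule.span K {φ | ∃ q ∈ H, φ = ρ (q * y * q⁻¹)}
  let Q : Submodule K A := P ⊓ ⨅ p : H,
    LinearMap.ker (tr ∘ₗ LinearMap.mulLeft K (ρ (p.1 * x * p.1⁻¹)))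
  have hQ : ∀ φ, φ ∈ Q ↔ φ ∈ P ∧ ∀ p ∈ H, tr (ρ (p * x * p⁻¹) * φ) = 0 := fun φ => by
    simp only [Q, Submodule.mem_inf, Submodule.mem_iInf, LinearMap.mem_ker, LinearMap.comp_apply,
      LinearMap.mulLeft_apply, Subtype.forall]
  have hH : ∀ g ∈ H, Good ρ P Q g := fun g hg φ hφ => by
    induction hφ using Submodule.span_induction with
    | mem φ hφ =>
      obtain ⟨q, hq, rfl⟩ := hφ
      have e : ρ g * ρ (q * y * q⁻¹) * ρ g⁻¹ = ρ (g * q * y * (g * q)⁻¹) := by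
        rw [← map_mul, ← map_mul]
        congr 1
        group
      rw [e, hQ]
      refine ⟨P.sub_mem (Submodule.subset_span ⟨_, H.mul_mem hg hq, rfl⟩)
        (Submodule.subset_span ⟨_, hq, rfl⟩), fun p hp => ?_⟩
      rw [mul_sub, map_sub, ← map_mul, ← map_mul, hk p hp _ (H.mul_mem hg hq), hk p hp q hq,
        sub_self]
    | zero => simp
    | add φ ψ _ _ h1 h2 =>
      convert Q.add_mem h1 h2 using 1
      rw [mul_add, add_mul]
      abel
    | smul r φ _ h1 =>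
      convert Q.smul_mem r h1 using 1
      rw [mul_smul_comm, smul_mul_assoc, smul_sub]
  refine ⟨St ρ P Q inf_le_left, fun g hg => ?_, fun u w A1 E C hu hw iu iw u0 w0 hm s => ?_⟩
  · have h1 := ((hQ _).1 (hg.1 (ρ y) (Submodule.subset_span ⟨1, H.one_mem, by simp⟩))).2 1 H.one_mem
    have h2 := hk 1 H.one_mem 1 H.one_mem
    simp only [one_mul, inv_one, mul_one, mul_sub, map_sub, ← map_mul] at h1 h2
    rw [← h2]
    exact sub_eq_zero.1 h1
  · have key : ∀ s r, Good ρ P Q (u s * w r) := fun s r φ hφ => by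
      have := sep θ h hK Q φ A1 A1 E E C C (fun t => by
        have := hH _ (hm t) φ hφ
        rwa [mul_inv_rev, iu, iw, map_mul, map_mul, hu, hw] at this) s r
      rwa [mul_inv_rev, iu, iw, map_mul, map_mul, hu, hw]
    have h1 := key s 0
    have h2 := key 0 s
    rw [w0, mul_one] at h1
    rw [u0, one_mul] at h2
    exact ⟨⟨h1, (iu s).symm ▸ h1⟩, h2, (iw s).symm ▸ h2⟩

end abs

variable {K : Type} [Field K]

/-- The configuration of type `F₄`. -/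
def c4 (K : Type) [Field K] : Cfg K := ⟨6, true, RingHom.id K, Or.inr ⟨rfl, rfl, fun _ => rfl⟩⟩

theorem c4τ (t : K) : (c4 K).τ t = t := rfl

/-- A sign. -/
def ε (b : Bool) (x : Exc.Lat) : Exc.Lat := if b then x else -x

theorem sr_eq (b : Bool) (j : Fin 8) : sr b j = ε b (a j) := by
  cases b
  · simp [sr, ε, ← a_eq, Pi.single_neg]
  · simp [sr, ε, ← a_eq]

theorem sg_ε (b : Bool) (x : Exc.Lat) : sg true (ε b x) = ε b (sg true x) := by cases b <;> rfl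

theorem ip_ε (b : Bool) (x y : Exc.Lat) : ip (ε b x) (ε b y) = ip x y := by
  cases b <;> simp [ε, ip_neg_left, ip_neg_right]

theorem w_ε (b : Bool) (w : W) (x : Exc.Lat) : w (ε b x) = ε b (w x) := by cases b <;> simp [ε]

theorem ε_inj {b : Bool} {x y : Exc.Lat} : ε b x = ε b y ↔ x = y := by cases b <;> simp [ε]

theorem ε_neg (b : Bool) (x : Exc.Lat) : ε b (-x) = ε (!b) x := by cases b <;> simp [ε]

theorem R_ε {x : Exc.Lat} (h : (c4 K).R x) (b : Bool) : (c4 K).R (ε b x) := by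
  cases b
  exacts [h.neg, h]

theorem Ra (j : Fin 8) (h : j.1 < 6) (b : Bool) : (c4 K).R (ε b (a j)) := R_ε (Cfg.R_a h) b

theorem fix_ε {x : Exc.Lat} (h : sg true x = x) (b : Bool) : sg (c4 K).b (ε b x) = ε b x :=
  (sg_ε b x).trans (congrArg _ h)

theorem mov_ε {x : Exc.Lat} (h : sg true x ≠ x) (b : Bool) : sg (c4 K).b (ε b x) ≠ ε b x :=
  fun e => h (ε_inj.1 ((sg_ε b x).symm.trans e))

/-- Index of the short simple root. -/
def js (b : Bool) : Fin 8 := if b then 0 else 2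

/-- Index of the long simple root. -/
def jl (b : Bool) : Fin 8 := if b then 1 else 3

theorem js_lt : ∀ b, (js b).1 < 6 := by decide
theorem jl_lt : ∀ b, (jl b).1 < 6 := by decide
theorem js_mov : ∀ b, sg true (a (js b)) ≠ a (js b) := by decide
theorem jl_fix : ∀ b, sg true (a (jl b)) = a (jl b) := by decide

theorem X_xf {α : Exc.Lat} (h : ip α α = 2) (t : K) : ⇑(X α t) = xf α t :=
  funext fun v => (X_xl h t v).trans (xf_eq α t v).symm

theorem s_eq (i : Bool × Bool) (t : K) : ⇑((c4 K).Y (ε i.1 (a (js i.2))) t) = f4s i t := by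
  have hR := Ra (K := K) _ (js_lt i.2) i.1
  rw [Cfg.Y_mov (mov_ε (js_mov _) _)]
  change ⇑(X _ t) ∘ ⇑(X _ t) = _
  rw [X_xf hR.1, X_xf hR.sg.1]
  obtain ⟨b, b'⟩ := i
  change _ ∘ xf (sg true _) t = _
  rw [sg_ε, sg_a]
  cases b' <;> simp only [f4s, sr_eq] <;> rfl

theorem l_eq (i : Bool × Bool) (t : K) : ⇑((c4 K).Y (ε i.1 (a (jl i.2))) t) = f4l i t := by
  rw [Cfg.Y_fix (fix_ε (jl_fix _) _), X_xf (Ra (K := K) _ (jl_lt i.2) i.1).1]
  obtain ⟨b, b'⟩ := i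
  cases b' <;> simp only [f4l, sr_eq] <;> rfl

theorem le_of {S : Subgroup (Aut K)} (hs : ∀ b b' t, (c4 K).Y (ε b (a (js b'))) t ∈ S)
    (hl : ∀ b b' t, (c4 K).Y (ε b (a (jl b'))) t ∈ S) : (c4 K).G ≤ S := by
  have h1 : ∀ b b' t, (c4 K).Y (ε b (a (pm true (js b')))) t ∈ S := fun b b' t => by
    have := Cfg.Y_sg (Ra (K := K) _ (js_lt b') b) (Cfg.Al_fix (c4τ t) _)
    rw [← sg_a, ← sg_ε]
    exact this.symm ▸ hs b b' t
  have h2 : ∀ i : Fin 8, i.1 < 6 → ∃ b, i = js b ∨ i = jl b ∨ i = pm true (js b) := by decide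
  refine G_le_simple fun i hi t _ => ?_
  obtain ⟨b, rfl | rfl | rfl⟩ := h2 i hi
  exacts [⟨hs true b t, hs false b t⟩, ⟨hl true b t, hl false b t⟩, ⟨h1 true b t, h1 false b t⟩]

theorem gen_eq : gen (f4s (K := K)) f4l = (c4 K).G := by
  refine le_antisymm ((Subgroup.closure_le _).2 ?_) (le_of (fun b b' t => ?_) fun b b' t => ?_)
  · rintro g ⟨i, t, e | e⟩
    · rw [← s_eq, DFunLike.coe_fn_eq] at e
      exact e ▸ Cfg.Y_mem (Ra _ (js_lt _) _) (Cfg.Al_fix rfl _)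
    · rw [← l_eq, DFunLike.coe_fn_eq] at e
      exact e ▸ Cfg.Y_mem (Ra _ (jl_lt _) _) (Cfg.Al_fix rfl _)
  · exact Subgroup.subset_closure ⟨(b, b'), t, Or.inl (s_eq (b, b') t)⟩
  · exact Subgroup.subset_closure ⟨(b, b'), t, Or.inr (l_eq (b, b') t)⟩

/-- Root elements as members of the group. -/
noncomputable def yg {α : Exc.Lat} (h : (c4 K).R α) (t : K) : (c4 K).G :=
  ⟨(c4 K).Y α t, Cfg.Y_mem h (Cfg.Al_fix rfl _)⟩

theorem yg_zero {α : Exc.Lat} (h : (c4 K).R α) : yg h 0 = 1 := Subtype.ext (Cfg.Y_zero α)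

theorem yg_inv (h2 : (2 : K) = 0) {α : Exc.Lat} (h : (c4 K).R α) (t : K) : (yg h t)⁻¹ = yg h t :=
  Subtype.ext ((Cfg.Y_inv h t).trans (by
    rw [show -t = t by linear_combination -t * h2]
    rfl))

/-- The action on the 26-dimensional module. -/
noncomputable def rho (K : Type) [Field K] : (c4 K).G →* Module.End K (M26 (c4τ (K := K))) where
  toFun g := g.1.toLinearMap.restrict (M26_G c4τ g.1 g.2)
  map_one' := rfl
  map_mul' _ _ := rfl

theorem TW_rho (g : (c4 K).G) : TW (M26 c4τ) g.1 = LinearMap.trace K _ (rho K g) := by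
  change LinearMap.trace K _ _ = _
  congr 1
  ext1 v
  exact Subtype.ext (prj_apply _ (M26_G c4τ g.1 g.2 v.1 v.2))

theorem move {S : Subgroup (Aut K)} {m : Aut K} {w : W} (hm : (c4 K).Mon m w) (hS : m ∈ S)
    {α : Exc.Lat} (hα : (c4 K).R α) (h : ∀ t, (c4 K).Y α t ∈ S) (t : K) :
    (c4 K).Y (w α) t ∈ S := by
  obtain ⟨s, hs, e⟩ := hm.mono α hα.1
  have := S.mul_mem (S.mul_mem hS (h (s⁻¹ * t))) (S.inv_mem hS)
  rwa [hm.conjY hα e, mul_inv_cancel_left₀ hs] at this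

theorem move' {S : Subgroup (Aut K)} {m : Aut K} {w : W} (hm : (c4 K).Mon m w)
    {α : Exc.Lat} (hα : (c4 K).R α) (h : ∀ t, m * (c4 K).Y α t * m⁻¹ ∈ S) (t : K) :
    (c4 K).Y (w α) t ∈ S := by
  obtain ⟨s, hs, e⟩ := hm.mono α hα.1
  have := h (s⁻¹ * t)
  rwa [hm.conjY hα e, mul_inv_cancel_left₀ hs] at this

theorem comm_of {α β : Exc.Lat} (hα : (c4 K).R α) (hβ : (c4 K).R β) (h1 : sg true α ≠ α)
    (h2 : sg true β = β) (h : 0 ≤ ip α β) (s t : K) :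
    Commute ((c4 K).Y α s) ((c4 K).Y β t) := by
  rw [Cfg.Y_mov h1, Cfg.Y_fix h2]
  refine Commute.mul_left (X_comm hα.1 hβ.1 h _ _) (X_comm hα.sg.1 hβ.1 ?_ _ _)
  rw [(c4 K).ip_sg' hα.2 hβ.2]
  exact h.trans_eq (congrArg _ h2.symm)

theorem NY_one (α : Exc.Lat) :
    (c4 K).NY α 1 = (c4 K).Y α 1 * (c4 K).Y (-α) 1 * (c4 K).Y α 1 := by rw [Cfg.NY, inv_one]

theorem R2 : (c4 K).R (a 2) := Ra 2 (by decide) true

theorem R3 : (c4 K).R (a 3) := Ra 3 (by decide) true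

theorem w32 : (c4 K).wY (a 3) (a 2) = a 2 + a 3 := by
  rw [Cfg.wY_fix R3 (jl_fix false), ip_x]
  decide

theorem w23 : (c4 K).wY (a 2) (a 3) = a 2 + a 3 + a 4 := by
  rw [Cfg.wY_mov R2 (js_mov false), ip_x, ip_x]
  change _ - _ - ipx _ (sg true _) • sg true _ = _
  decide

theorem n2 : (c4 K).Mon ((c4 K).NY (a 2) 1) ((c4 K).wY (a 2)) :=
  Cfg.NY_Mon R2 one_ne_zero (Cfg.Al_one _)

theorem n3 : (c4 K).Mon ((c4 K).NY (a 3) 1) ((c4 K).wY (a 3)) :=
  Cfg.NY_Mon R3 one_ne_zero (Cfg.Al_one _)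

theorem Rbe : (c4 K).R (a 2 + a 3) := w32 (K := K) ▸ n3.R R2

theorem Rga : (c4 K).R (a 2 + a 3 + a 4) := w23 (K := K) ▸ n2.R R3

theorem wbg : (c4 K).wY (a 2 + a 3) (a 2 + a 3 + a 4) = -a 3 := by
  rw [Cfg.wY_mov Rbe (show sg true _ ≠ _ by decide), ip_x, ip_x]
  change _ - _ - ipx _ (sg true _) • sg true _ = _
  decide

theorem wgb : (c4 K).wY (a 2 + a 3 + a 4) (a 2 + a 3) = -sg true (a 2) := by
  rw [Cfg.wY_fix Rga (show sg true _ = _ by decide), ip_x]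
  decide

theorem le_of' {S : Subgroup (Aut K)} (h0 : ∀ b t, (c4 K).Y (ε b (a 0)) t ∈ S)
    (h1 : ∀ b t, (c4 K).Y (ε b (a 1)) t ∈ S) (hb : ∀ b t, (c4 K).Y (ε b (a 2 + a 3)) t ∈ S)
    (hg : ∀ b t, (c4 K).Y (ε b (a 2 + a 3 + a 4)) t ∈ S) : (c4 K).G ≤ S := by
  have m1 : (c4 K).NY (a 2 + a 3) 1 ∈ S :=
    S.mul_mem (S.mul_mem (hb true _) (hb false _)) (hb true _)
  have m2 : (c4 K).NY (a 2 + a 3 + a 4) 1 ∈ S :=
    S.mul_mem (S.mul_mem (hg true _) (hg false _)) (hg true _)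
  refine le_of (fun b b' t => ?_) fun b b' t => ?_
  · cases b'
    · have := move (Cfg.NY_Mon Rga one_ne_zero (Cfg.Al_one _)) m2 (R_ε Rbe !b) (hb !b) t
      rw [w_ε, wgb, ε_neg, Bool.not_not, ← sg_ε] at this
      exact Cfg.Y_sg (Ra (K := K) 2 (by decide) b) (Cfg.Al_fix (c4τ t) _) ▸ this
    · exact h0 b t
  · cases b'
    · have := move (Cfg.NY_Mon Rbe one_ne_zero (Cfg.Al_one _)) m1 (R_ε Rga !b) (hg !b) t
      rwa [w_ε, wbg, ε_neg, Bool.not_not] at this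
    · exact h1 b t

theorem main [Finite K] (θ : K →+* K) (h : ∀ t, θ (θ t) = t ^ 2) (hK : 8 < Nat.card K)
    (σ : (c4 K).G →* (c4 K).G) (hσ : ∀ g, σ (σ g) = g)
    (hs : ∀ (g : (c4 K).G) i t, ⇑g.1 = f4s i t → ⇑(σ g).1 = f4l i (θ t)) :
    AH (σ.eqLocus (MonoidHom.id _)) := by
  have h2 : (2 : K) = 0 := by
    have := h 2
    rw [map_ofNat, map_ofNat] at this
    linear_combination -this
  obtain ⟨r, hr0, hr1⟩ : ∃ r : K, r ≠ 0 ∧ r ≠ 1 := by
    classical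
    have := Fintype.ofFinite K
    obtain ⟨r, -, hr⟩ := Finset.exists_mem_notMem_of_card_lt_card (s := ({0, 1} : Finset K))
      (t := Finset.univ) (by
        rw [Finset.card_univ, ← Nat.card_eq_fintype_card]
        exact Finset.card_le_two.trans_lt (by omega))
    exact ⟨r, by simpa using hr⟩
  have sl : ∀ b b' t, σ (yg (Ra _ (js_lt b') b) t) = yg (Ra _ (jl_lt b') b) (θ t) := fun b b' t =>
    Subtype.ext (DFunLike.coe_injective
      ((hs _ (b, b') t (s_eq (b, b') t)).trans (l_eq (b, b') _).symm))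
  have ls : ∀ b b' t, σ (yg (Ra _ (jl_lt b') b) (θ t)) = yg (Ra _ (js_lt b') b) t :=
    fun b b' t => by rw [← sl, hσ]
  have fin : ∀ x : (c4 K).G, σ x = x → (c4 K).QS x.1 → x = 1 := fun x hx hq => by
    rcases QS_struct rfl c4τ x.2 hq with h3 | ⟨μ, g', hμ, ⟨p, hp, rfl⟩, h3⟩
    · exact Subtype.ext (triv_eq_one rfl c4τ h2 x.2 h3)
    obtain ⟨t, rfl⟩ := Finite.surjective_of_injective θ.injective μ
    have e1 : (yg (Ra _ (jl_lt true) true) (θ t)).1 = X (a 1) (θ t) :=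
      Cfg.Y_fix (c := c4 K) (jl_fix true) _
    have e2 : (⟨p, hp⟩ * x * ⟨p, hp⟩⁻¹ : (c4 K).G) = yg (Ra _ (jl_lt true) true) (θ t) := by
      rw [← inv_mul_eq_one]
      refine Subtype.ext (triv_eq_one rfl c4τ h2 (Subtype.prop _) fun v hv => ?_)
      have := h3 v hv
      rw [← e1] at this
      exact (congrArg _ this.symm).trans (inv_app _ v)
    have e3 := congrArg σ e2
    rw [map_mul, map_mul, map_inv, hx, ls] at e3
    exact absurd (Cfg.Cj.QS rfl ⟨_, (σ ⟨p, hp⟩).2, congrArg Subtype.val e3⟩ hq)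
      (not_QS_short rfl fun e => hμ (by rw [e, map_zero]))
  intro x y z hx hy hE
  have hk : ∀ p ∈ σ.eqLocus (MonoidHom.id _), ∀ q ∈ σ.eqLocus (MonoidHom.id _),
      LinearMap.trace K _ (rho K (p * x.1 * p⁻¹ * (q * y.1 * q⁻¹))) =
        LinearMap.trace K _ (rho K z.1) := fun p hp q hq => by
    obtain ⟨g, hg⟩ := isConj_iff.1 ((Set.ext_iff.1 hE _).1 ⟨_, _,
      isConj_iff.2 ⟨⟨p, hp⟩, rfl⟩, isConj_iff.2 ⟨⟨q, hq⟩, rfl⟩, rfl⟩)
    have e : g.1 * z.1 * g.1⁻¹ = p * x.1 * p⁻¹ * (q * y.1 * q⁻¹) := congrArg Subtype.val hg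
    rw [← e, map_mul, LinearMap.trace_mul_comm, ← map_mul, inv_mul_cancel_left]
  obtain ⟨S, hS, hf⟩ := exists_St (A := Module.End K (M26 (c4τ (K := K)))) θ h hK (rho K)
    (LinearMap.trace K _) _ x.1 y.1 _ hk
  have fam : ∀ b b' (m m' : (c4 K).G), σ m = m' → (∀ s t, Commute
      (m * yg (Ra _ (js_lt b') b) s * m⁻¹) (m' * yg (Ra _ (jl_lt b') b) t * m'⁻¹)) → ∀ s,
      m * yg (Ra _ (js_lt b') b) s * m⁻¹ ∈ S ∧ m' * yg (Ra _ (jl_lt b') b) s * m'⁻¹ ∈ S := by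
    intro b b' m m' e hc
    obtain ⟨A1, E, h3⟩ := poly_short rfl c4τ hr0 hr1 (Ra (K := K) _ (js_lt b') b)
      (mov_ε (js_mov _) _)
    obtain ⟨C, h4⟩ := poly_long rfl c4τ (Ra (K := K) _ (jl_lt b') b) (fix_ε (jl_fix _) _)
    have h5 : ∀ t, rho K (yg (Ra _ (js_lt b') b) t) = 1 + t • A1 + t ^ 2 • E := fun t =>
      LinearMap.ext fun v => Subtype.ext (h3 t v)
    have h6 : ∀ t, rho K (yg (Ra _ (jl_lt b') b) t) = 1 + t • C := fun t =>
      LinearMap.ext fun v => Subtype.ext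
        ((congrArg (fun g : Aut K => g v.1) (Cfg.Y_fix (fix_ε (jl_fix _) _) t)).trans (h4 t v))
    have h7 : ∀ g, rho K g * rho K g⁻¹ = 1 := fun g => by rw [← map_mul, mul_inv_cancel, map_one]
    refine hf _ _ (rho K m * A1 * rho K m⁻¹) (rho K m * E * rho K m⁻¹) (rho K m' * C * rho K m'⁻¹)
      (fun t => ?_) (fun t => ?_) (fun t => ?_) (fun t => ?_) (by simp [yg_zero])
      (by simp [yg_zero]) fun t => ?_
    · simp only [map_mul, h5, mul_add, add_mul, mul_one, h7, mul_smul_comm, smul_mul_assoc]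
    · simp only [map_mul, h6, mul_add, add_mul, mul_one, h7, mul_smul_comm, smul_mul_assoc]
    · simp only [mul_inv_rev, inv_inv, yg_inv h2, mul_assoc]
    · simp only [mul_inv_rev, inv_inv, yg_inv h2, mul_assoc]
    · have e' : σ m' = m := by rw [← e, hσ]
      change σ _ = _
      simp only [map_mul, map_inv, e, e', sl, ls]
      exact (hc _ _).symm
  have f1 := fun b => fam b true 1 1 (map_one σ) fun s t => by
    simp only [one_mul, inv_one, mul_one]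
    exact Subtype.ext (comm_of (Ra _ (js_lt true) b) (Ra _ (jl_lt true) b)
      (mov_ε (K := K) (js_mov _) _) (fix_ε (K := K) (jl_fix _) _)
      (by rw [ip_ε, ip_x]; decide) s t)
  have e23 : σ ⟨_, n3.mem⟩ = ⟨_, n2.mem⟩ := by
    have e1 := ls true false 1
    have e2 := ls false false 1
    rw [map_one] at e1 e2
    have e3 : (⟨_, n3.mem⟩ : (c4 K).G) = yg (Ra _ (jl_lt false) true) 1 *
        yg (Ra _ (jl_lt false) false) 1 * yg (Ra _ (jl_lt false) true) 1 :=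
      Subtype.ext (NY_one _)
    rw [e3, map_mul, map_mul, e1, e2]
    exact Subtype.ext (NY_one _).symm
  have f2 := fun b => fam b false _ _ e23 fun s t => by
    obtain ⟨s1, -, e1⟩ := (n3 (K := K)).mono _ (Ra (K := K) 2 (by decide) b).1
    obtain ⟨s2, -, e2⟩ := (n2 (K := K)).mono _ (Ra (K := K) 3 (by decide) b).1
    have e3 := n3.conjY (Ra 2 (by decide) b) e1 s
    have e4 := n2.conjY (Ra 3 (by decide) b) e2 t
    rw [w_ε, w32] at e3
    rw [w_ε, w23] at e4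
    have := comm_of (R_ε Rbe b) (R_ε Rga b) (mov_ε (K := K) (by decide) _)
      (fix_ε (K := K) (by decide) _) (by rw [ip_ε, ip_x]; decide) (s1 * s) (s2 * t)
    rw [← e3, ← e4] at this
    exact Subtype.ext this
  have top : (c4 K).G ≤ S.map (c4 K).G.subtype := by
    refine le_of' (fun b t => ⟨_, (f1 b t).1, by simp; rfl⟩)
      (fun b t => ⟨_, (f1 b t).2, by simp; rfl⟩) (fun b t => ?_) fun b t => ?_
    · have := move' (S := S.map (c4 K).G.subtype) n3 (Ra 2 (by decide) b)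
        (fun t => ⟨_, (f2 b t).1, rfl⟩) t
      rwa [w_ε, w32] at this
    · have := move' (S := S.map (c4 K).G.subtype) n2 (Ra 3 (by decide) b)
        (fun t => ⟨_, (f2 b t).2, rfl⟩) t
      rwa [w_ε, w23] at this
  rcases short_TC rfl c4τ x.1.2 y.1.2 hr0 hr1 (LinearMap.trace K _ (rho K z.1)) (by
    rintro _ _ ⟨p, hp, rfl⟩ ⟨q, hq, rfl⟩
    obtain ⟨g, hg, e⟩ := top (mul_mem (inv_mem hp) hq)
    have e' : g = (⟨p, hp⟩ : (c4 K).G)⁻¹ * ⟨q, hq⟩ := Subtype.ext e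
    have e1 := TW_rho (⟨p, hp⟩ * (x.1 * (g * y.1 * g⁻¹)) * (⟨p, hp⟩ : (c4 K).G)⁻¹)
    rw [map_mul, LinearMap.trace_mul_comm, ← map_mul, inv_mul_cancel_left, hS g hg] at e1
    rw [← e1, e']
    congr 2
    simp only [Subgroup.coe_mul, Subgroup.coe_inv]
    group) with h3 | h3
  · exact hx (Subtype.ext (fin _ x.2 h3))
  · exact hy (Subtype.ext (fin _ y.2 h3))

end F4m

theorem f4_AH {K : Type} [Field K] [Finite K] (θ : K →+* K) (h : ∀ t, θ (θ t) = t ^ 2)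
    (hK : 8 < Nat.card K) (G : Type) [Group G] (hG : IsSR G (f4s (K := K)) f4l θ) : AH G := by
  rw [IsSR, F4m.gen_eq] at hG
  obtain ⟨σ, h1, h2, ⟨e⟩⟩ := hG
  exact AH_congr e.symm (F4m.main θ h hK σ h1 h2)

end Pool.Agent.MP_db74b1_al.Lt
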