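import Pool.Agent.MP_db74b1_al.LtF8a

set_option autoImplicit false

namespace Pool.Agent.MP_db74b1_al.Lt
open Pool.Agent.MP_db74b1_al.Exc

namespace F8
open F4m S8 F4b

variable {K : Type} [Field K]

theorem conj_lin {A Γ : Type} [Ring A] [Algebra K A] [Group Γ] (ρ : Γ →* A) {g u u' : Γ} {C C' : A}
    {c : K} (h1 : ρ u = 1 + (1 : K) • C) (h2 : ρ u' = 1 + c • C') (h3 : g * u * g⁻¹ = u') :
    ρ g * C * ρ g⁻¹ = c • C' := by
  have e4 := congrArg ρ h3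
  rwa [map_mul, map_mul, h1, h2, one_smul, mul_add, add_mul, mul_one, ← map_mul,
    mul_inv_cancel, map_one, add_right_inj] at e4

/-- A twisted family of root elements lies in `S`. -/
def Fam (θ : K →+* K) (S : Subgroup (Aut K)) (s l : Exc.Lat) : Prop :=
  ∃ c d : K, c ≠ 0 ∧ d ≠ 0 ∧ ∀ t, (c4 K).Y s (c * t) * (c4 K).Y l (d * θ t) ∈ S

theorem Fam.conj {θ : K →+* K} {S : Subgroup (Aut K)} {m : Aut K} {w : W} (hm : (c4 K).Mon m w)
    (hS : m ∈ S) {s l : Exc.Lat} (F : Fam θ S s l) {f : Exc.Lat → Exc.Lat} (hf : ∀ x, w x = f x)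
    (s' l' : Exc.Lat) (hd : Sh s ∧ Lo l ∧ f s = s' ∧ f l = l') : Fam θ S s' l' := by
  obtain ⟨hs, hl, rfl, rfl⟩ := hd
  obtain ⟨c, d, hc, hd, F⟩ := F
  obtain ⟨c', hc', e1⟩ := hm.mono s (rt hs.1)
  obtain ⟨d', hd', e2⟩ := hm.mono l (rt hl.1)
  refine ⟨c' * c, d' * d, mul_ne_zero hc' hc, mul_ne_zero hd' hd, fun t => ?_⟩
  rw [mul_assoc, mul_assoc, ← hf, ← hf, ← hm.conjY hs.R e1, ← hm.conjY hl.R e2]
  convert S.mul_mem (S.mul_mem hS (F t)) (S.inv_mem hS) using 1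
  group

/-- Reflection in a long root. -/
def r1 (α x : Exc.Lat) : Exc.Lat := x - ipx x α • α

/-- Reflection in a short root. -/
def r2 (α x : Exc.Lat) : Exc.Lat := x - ipx x α • α - ipx x (sg true α) • sg true α

theorem w_l {l : Exc.Lat} (h : Lo l) (x : Exc.Lat) : (c4 K).wY l x = r1 l x := by
  rw [Cfg.wY_fix h.R h.2.2, ip_x, r1]

theorem w_s {s : Exc.Lat} (h : Sh s) (x : Exc.Lat) : (c4 K).wY s x = r2 s x := by
  rw [Cfg.wY_mov h.R h.2.2, ip_x, ip_x]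
  rfl

theorem n0 : (c4 K).Mon ((c4 K).NY (a 0) 1) ((c4 K).wY (a 0)) :=
  Cfg.NY_Mon (Sh.R (by decide)) one_ne_zero (Cfg.Al_one _)

theorem n1 : (c4 K).Mon ((c4 K).NY (a 1) 1) ((c4 K).wY (a 1)) :=
  Cfg.NY_Mon (Lo.R (by decide)) one_ne_zero (Cfg.Al_one _)

/-- The good elements, as automorphisms. -/
noncomputable def SS (P Q : Submodule K (Module.End K (M K))) (hQ : Q ≤ P) : Subgroup (Aut K) :=
  (St (A := Module.End K (M K)) (rho K) P Q hQ).map (c4 K).G.subtype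

section chain

variable {θ : K →+* K} (h : ∀ t, θ (θ t) = t ^ 2) (hK : Nat.card K = 8)
  {P Q : Submodule K (Module.End K (M K))} {hQ : Q ≤ P}
include h

theorem Fam.fm {s l : Exc.Lat} (F : Fam θ (SS P Q hQ) s l)
    (hs : Sh s) (hl : Lo l) (i : 0 ≤ ipx l s) : Fm θ P Q (Aa K s) (Ee K s) (Cc K l) := by
  have h2 := two θ h
  obtain ⟨c, d, hc, hd, F⟩ := F
  refine ⟨(EC0 h2 hl hs i).1, (EC0 h2 hl hs i).2, c, d, hc, hd, fun φ hφ t => ?_⟩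
  obtain ⟨g, hg, e⟩ := F t
  obtain rfl : g = yg hs.R (c * t) * yg hl.R (d * θ t) := Subtype.ext e
  have := hg.1 φ hφ
  rwa [mul_inv_rev, yg_inv h2, yg_inv h2, map_mul, map_mul, rho_s h2 hs, rho_l hl] at this

omit h in
theorem adC {m : Aut K} {w : W} (hm : (c4 K).Mon m w)
    (hS : m ∈ SS P Q hQ) {l : Exc.Lat} (hA : Ad P Q (Cc K l))
    {f : Exc.Lat → Exc.Lat} (hf : ∀ x, w x = f x) (l' : Exc.Lat)
    (hd : Lo l ∧ Lo l' ∧ f l = l') : Ad P Q (Cc K l') := by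
  obtain ⟨hl, hl', e⟩ := hd
  obtain ⟨g, hg, rfl⟩ := hS
  obtain ⟨c, hc, e1⟩ := hm.mono l (rt hl.1)
  have e2 := hm.conjY hl.R e1 1
  rw [hf, e, mul_one] at e2
  have e3 : g * yg hl.R 1 * g⁻¹ = yg hl'.R c := Subtype.ext e2
  have e4 := conj_lin (A := Module.End K (M K)) (rho K) (rho_l hl 1) (rho_l hl' c) e3
  exact (Ad_smul hc).1 (e4 ▸ Ad_conj hg hA)

include hQ in
theorem adCC {l l' : Exc.Lat} (hA : Ad P Q (Cc K l)) (hA' : Ad P Q (Cc K l')) (l'' : Exc.Lat)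
    (hd : Lo l ∧ Lo l' ∧ Lo l'' ∧ ipx l l' = -1 ∧ l + l' = l'') : Ad P Q (Cc K l'') := by
  obtain ⟨h1, h2, h3, h4, rfl⟩ := hd
  exact CC1 (two θ h) h1 h2 h3 h4 ▸ L5 (two θ h) hQ hA hA'

include hQ in
theorem adCA {l s : Exc.Lat} (hA : Ad P Q (Cc K l)) (hA' : Ad P Q (Aa K s)) (s' : Exc.Lat)
    (hd : Lo l ∧ Sh s ∧ Sh s' ∧ ipx l s = -1 ∧ l + s = s') : Ad P Q (Aa K s') := by
  obtain ⟨h1, h2, h3, h4, rfl⟩ := hd
  exact CA1 (two θ h) h1 h2 h3 h4 ▸ L5 (two θ h) hQ hA hA'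

variable [Finite K]
include hK

theorem adL3 {s l s' l' : Exc.Lat} (F : Fam θ (SS P Q hQ) s l)
    (F' : Fam θ (SS P Q hQ) s' l') (l'' : Exc.Lat)
    (hd : (Sh s ∧ Lo l ∧ Sh s' ∧ Lo l' ∧ Lo l'') ∧ (0 ≤ ipx l s ∧ 0 ≤ ipx l' s' ∧ 0 ≤ ipx l' s ∧
      0 ≤ ipx l s' ∧ ipx l l' = -1 ∧ l + l' = l'') ∧ -s ≠ s' ∧ -s ≠ sg true s' ∧ -s' ≠ s ∧
      -s' ≠ sg true s) : Ad P Q (Cc K l'') := by
  obtain ⟨⟨h1, h2, h3, h4, h5⟩, ⟨i1, i2, i3, i4, i5, rfl⟩, n1, n2, n3, n4⟩ := hd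
  have t := two θ h
  exact CC1 t h2 h4 h5 i5 ▸ L3 h hK hQ (F.fm h h1 h2 i1) (F'.fm h h3 h4 i2) (EC0 t h4 h1 i3).1
    (EC0 t h4 h1 i3).2 (EC0 t h2 h3 i4).1 (EC0 t h2 h3 i4).2 (EE0 t h1 h3 n1 n2) (EE0 t h3 h1 n3 n4)

theorem adL4 {s l D : Exc.Lat} (F : Fam θ (SS P Q hQ) s l)
    (hA : Ad P Q (Cc K D)) (s' : Exc.Lat)
    (hd : Sh s ∧ Lo l ∧ Lo D ∧ Sh s' ∧ 0 ≤ ipx l s ∧ 0 ≤ ipx D l ∧ ipx D s = -1 ∧ D + s = s') :
    Ad P Q (Aa K s') := by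
  obtain ⟨h1, h2, h3, h4, i1, i2, i3, rfl⟩ := hd
  exact CA1 (two θ h) h3 h1 h4 i3 ▸ L4 h hK hQ (F.fm h h1 h2 i1) hA (CC0 h3 h2 i2)

theorem adL2 {s l : Exc.Lat} (F : Fam θ (SS P Q hQ) s l)
    (hA : Ad P Q (Aa K s)) (hC : Ad P Q (Cc K l)) (hd : Sh s ∧ Lo l ∧ 0 ≤ ipx l s) (t : K) :
    (c4 K).Y s t ∈ SS P Q hQ ∧
      (c4 K).Y l t ∈ SS P Q hQ := by
  obtain ⟨hs, hl, i⟩ := hd
  have h2 := two θ h
  have k := fun φ (hφ : φ ∈ P) => L2 h hK hQ (F.fm h hs hl i) hA hC t hφ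
  have g1 : Good (A := Module.End K (M K)) (rho K) P Q (yg hs.R t) := fun φ hφ => by
    rw [yg_inv h2, rho_s h2 hs]; exact (k φ hφ).1
  have g2 : Good (A := Module.End K (M K)) (rho K) P Q (yg hl.R t) := fun φ hφ => by
    rw [yg_inv h2, rho_l hl]; exact (k φ hφ).2
  exact ⟨⟨_, ⟨g1, (yg_inv h2 _ t).symm ▸ g1⟩, rfl⟩, _, ⟨g2, (yg_inv h2 _ t).symm ▸ g2⟩, rfl⟩

theorem chain8 (F0 : ∀ b, Fam θ (SS P Q hQ) (ε b (a 0)) (ε b (a 1)))
    (Fg : ∀ b, Fam θ (SS P Q hQ) (ε b (a 2 + a 3))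
      (ε b (a 2 + a 3 + a 4)))
    (hA : (c4 K).NY (a 0) 1 * (c4 K).NY (a 1) 1 ∈ SS P Q hQ)
    (hB : (c4 K).NY (a 2) 1 * (c4 K).NY (a 3) 1 * (c4 K).NY (a 2) 1 * (c4 K).NY (a 3) 1 ∈
      SS P Q hQ) :
    (c4 K).G ≤ SS P Q hQ := by
  have mA := (n0 (K := K)).mul n1
  have mB := (((n2 (K := K)).mul n3).mul n2).mul n3
  have wA : ∀ x, ((c4 K).wY (a 0) * (c4 K).wY (a 1)) x = (fun x => r2 (a 0) (r1 (a 1) x)) x :=
    fun x => by rw [LinearEquiv.mul_apply, w_l (show Lo (a 1) by decide),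
      w_s (show Sh (a 0) by decide)]
  have wB : ∀ x, ((c4 K).wY (a 2) * (c4 K).wY (a 3) * (c4 K).wY (a 2) * (c4 K).wY (a 3)) x =
      (fun x => r2 (a 2) (r1 (a 3) (r2 (a 2) (r1 (a 3) x)))) x := fun x => by
    simp only [LinearEquiv.mul_apply, w_l (show Lo (a 3) by decide), w_s (show Sh (a 2) by decide)]
  have F3 := fun b => (Fg b).conj mA hA wA (ε b (v8 1 1 1 1 0 0 0 0)) (ε b (v8 1 1 1 1 1 1 0 0))
    (by revert b; decide +kernel)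
  have F2 := fun b => (F3 b).conj mB hB wB (ε b (v8 1 1 2 2 1 0 0 0)) (ε b (v8 1 1 2 3 2 1 0 0))
    (by revert b; decide +kernel)
  have F1 := fun b => (F2 b).conj mA hA wA (ε b (v8 1 1 2 2 1 1 0 0)) (ε b (v8 1 2 2 3 2 1 0 0))
    (by revert b; decide +kernel)
  have Cg := fun b => adL3 h hK (F1 b) (F0 !b) (ε b (v8 1 1 2 3 2 1 0 0))
    (by revert b; decide +kernel)
  have Ct := fun b => adC mA hA (Cg b) wA (ε b (v8 1 2 2 3 2 1 0 0))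
    (by revert b; decide +kernel)
  have Cl := fun b => adC mB hB (Cg b) wB (ε b (v8 1 1 1 1 1 1 0 0))
    (by revert b; decide +kernel)
  have Cga := fun b => adC mA hA (Cl b) wA (ε b (a 2 + a 3 + a 4)) (by revert b; decide +kernel)
  have C1 := fun b => adCC h (hQ := hQ) (Ct b) (Cg !b) (ε b (a 1)) (by revert b; decide +kernel)
  have Cs := fun b => adCC h (hQ := hQ) (Cl b) (C1 !b) (ε b (v8 1 0 1 1 1 1 0 0))
    (by revert b; decide +kernel)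
  have Ae := fun b => adL4 h hK (F1 b) (Cs !b) (ε b (v8 0 1 1 1 0 0 0 0))
    (by revert b; decide +kernel)
  have Ab := fun b => adCA h (hQ := hQ) (C1 !b) (Ae b) (ε b (a 2 + a 3))
    (by revert b; decide +kernel)
  have Au := fun b => adL4 h hK (F0 b) (Cs !b) (ε (!b) (v8 0 0 1 1 1 1 0 0))
    (by revert b; decide +kernel)
  have A0 := fun b => adCA h (hQ := hQ) (Cs b) (Au b) (ε b (a 0)) (by revert b; decide +kernel)
  have k0 := fun b => adL2 h hK (F0 b) (A0 b) (C1 b) (by revert b; decide +kernel)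
  have k1 := fun b => adL2 h hK (Fg b) (Ab b) (Cga b) (by revert b; decide +kernel)
  exact le_of' (fun b t => (k0 b t).1) (fun b t => (k0 b t).2) (fun b t => (k1 b t).1)
    fun b t => (k1 b t).2

end chain

theorem main [Finite K] (θ : K →+* K) (h : ∀ t, θ (θ t) = t ^ 2) (hK : Nat.card K = 8)
    (σ : (c4 K).G →* (c4 K).G) (hσ : ∀ g, σ (σ g) = g)
    (hs : ∀ (g : (c4 K).G) i t, ⇑g.1 = f4s i t → ⇑(σ g).1 = f4l i (θ t)) :
    AH (σ.eqLocus (MonoidHom.id _)) := by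
  have h2 := two θ h
  obtain ⟨r, hr0, hr1⟩ : ∃ r : K, r ≠ 0 ∧ r ≠ 1 := by
    classical
    have := Fintype.ofFinite K
    obtain ⟨r, -, hr⟩ := Finset.exists_mem_notMem_of_card_lt_card (s := ({0, 1} : Finset K))
      (t := Finset.univ) (by
        rw [Finset.card_univ, ← Nat.card_eq_fintype_card]
        exact Finset.card_le_two.trans_lt (by omega))
    exact ⟨r, by simpa using hr⟩
  have sl : ∀ b b' t, σ (yg (Ra _ (js_lt b') b) t) = yg (Ra _ (jl_lt b') b) (θ t) := fun b b' t =>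
    Subtype.ext (DFunLike.coe_injective
      ((hs _ (b, b') t (s_eq (b, b') t)).trans (l_eq (b, b') _).symm))
  have ls : ∀ b b' t, σ (yg (Ra _ (jl_lt b') b) (θ t)) = yg (Ra _ (js_lt b') b) t :=
    fun b b' t => by rw [← sl, hσ]
  have fin : ∀ x : (c4 K).G, σ x = x → (c4 K).QS x.1 → x = 1 := fun x hx hq => by
    rcases QS_struct rfl c4τ x.2 hq with h3 | ⟨μ, g', hμ, ⟨p, hp, rfl⟩, h3⟩
    · exact Subtype.ext (triv_eq_one rfl c4τ h2 x.2 h3)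
    obtain ⟨t, rfl⟩ := Finite.surjective_of_injective θ.injective μ
    have e1 : (yg (Ra _ (jl_lt true) true) (θ t)).1 = X (a 1) (θ t) :=
      Cfg.Y_fix (c := c4 K) (jl_fix true) _
    have e2 : (⟨p, hp⟩ * x * ⟨p, hp⟩⁻¹ : (c4 K).G) = yg (Ra _ (jl_lt true) true) (θ t) := by
      rw [← inv_mul_eq_one]
      refine Subtype.ext (triv_eq_one rfl c4τ h2 (Subtype.prop _) fun v hv => ?_)
      have := h3 v hv
      rw [← e1] at this
      exact (congrArg _ this.symm).trans (inv_app _ v)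
    have e3 := congrArg σ e2
    rw [map_mul, map_mul, map_inv, hx, ls] at e3
    exact absurd (Cfg.Cj.QS rfl ⟨_, (σ ⟨p, hp⟩).2, congrArg Subtype.val e3⟩ hq)
      (not_QS_short rfl fun e => hμ (by rw [e, map_zero]))
  intro x y z hx hy hE
  have hk : ∀ p ∈ σ.eqLocus (MonoidHom.id _), ∀ q ∈ σ.eqLocus (MonoidHom.id _),
      LinearMap.trace K _ (rho K (p * x.1 * p⁻¹ * (q * y.1 * q⁻¹))) =
        LinearMap.trace K _ (rho K z.1) := fun p hp q hq => by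
    obtain ⟨g, hg⟩ := isConj_iff.1 ((Set.ext_iff.1 hE _).1 ⟨_, _,
      isConj_iff.2 ⟨⟨p, hp⟩, rfl⟩, isConj_iff.2 ⟨⟨q, hq⟩, rfl⟩, rfl⟩)
    have e : g.1 * z.1 * g.1⁻¹ = p * x.1 * p⁻¹ * (q * y.1 * q⁻¹) := congrArg Subtype.val hg
    rw [← e, map_mul, LinearMap.trace_mul_comm, ← map_mul, inv_mul_cancel_left]
  obtain ⟨P, Q, hQ, hH, hS⟩ := exists_PQ (A := Module.End K (M K)) (rho K)
    (LinearMap.trace K _) _ x.1 y.1 _ hk
  have fam : ∀ b b' (m m' : (c4 K).G), σ m = m' → (∀ s t, Commute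
      (m * yg (Ra _ (js_lt b') b) s * m⁻¹) (m' * yg (Ra _ (jl_lt b') b) t * m'⁻¹)) → ∀ t,
      m * yg (Ra _ (js_lt b') b) t * m⁻¹ * (m' * yg (Ra _ (jl_lt b') b) (θ t) * m'⁻¹) ∈
        St (A := Module.End K (M K)) (rho K) P Q hQ := fun b b' m m' e hc t => hH (by
    have e' : σ m' = m := by rw [← e, hσ]
    change σ _ = _
    simp only [map_mul, map_inv, e, e', sl, ls]
    exact (hc _ _).symm)
  have cm : ∀ b b' s t, Commute ((c4 K).Y (ε b (a 0)) s) ((c4 K).Y (ε b' (a 1)) t) :=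
    fun b b' => F4m.comm_of (Ra _ (js_lt true) b) (Ra _ (jl_lt true) b')
      (mov_ε (K := K) (js_mov true) _) (fix_ε (K := K) (jl_fix true) _) (by rw [ip_x]; revert b b'; decide)
  have f1 := fun b => fam b true 1 1 (map_one σ) fun s t => by
    simp only [one_mul, inv_one, mul_one]
    exact Subtype.ext (cm b b s t)
  have sN : ∀ b, σ ⟨_, (Cfg.NY_Mon (Ra _ (jl_lt b) true) one_ne_zero (Cfg.Al_one _)).mem⟩ =
      ⟨_, (Cfg.NY_Mon (Ra _ (js_lt b) true) one_ne_zero (Cfg.Al_one _)).mem⟩ := fun b => by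
    have e1 := ls true b 1
    have e2 := ls false b 1
    rw [map_one] at e1 e2
    have e3 : (⟨_, (Cfg.NY_Mon (Ra _ (jl_lt b) true) one_ne_zero (Cfg.Al_one _)).mem⟩ : (c4 K).G) =
        yg (Ra _ (jl_lt b) true) 1 * yg (Ra _ (jl_lt b) false) 1 * yg (Ra _ (jl_lt b) true) 1 :=
      Subtype.ext (NY_one _)
    rw [e3, map_mul, map_mul, e1, e2]
    exact Subtype.ext (NY_one _).symm
  have e23 : σ ⟨_, n3.mem⟩ = ⟨_, n2.mem⟩ := sN false
  have e01 : σ ⟨_, n1.mem⟩ = ⟨_, n0.mem⟩ := sN true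
  have e32 : σ ⟨_, n2.mem⟩ = ⟨_, n3.mem⟩ := by rw [← e23, hσ]
  have e10 : σ ⟨_, n0.mem⟩ = ⟨_, n1.mem⟩ := by rw [← e01, hσ]
  have hm : ∀ g : (c4 K).G, σ g = g → g.1 ∈ SS P Q hQ := fun g hg => ⟨g, hH hg, rfl⟩
  have top : (c4 K).G ≤ SS P Q hQ := by
    refine chain8 h hK (fun b => ⟨1, 1, one_ne_zero, one_ne_zero, fun t => ⟨_, f1 b t, ?_⟩⟩)
      (fun b => ?_) ?_ ?_
    · simp only [one_mul, inv_one, mul_one]
      rfl
    · obtain ⟨s1, hs1, e1⟩ := (n3 (K := K)).mono _ (Ra (K := K) 2 (by decide) b).1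
      obtain ⟨s2, hs2, e2⟩ := (n2 (K := K)).mono _ (Ra (K := K) 3 (by decide) b).1
      have e3 := n3.conjY (Ra 2 (by decide) b) e1
      have e4 := n2.conjY (Ra 3 (by decide) b) e2
      rw [w_ε, w32] at e3
      rw [w_ε, w23] at e4
      refine ⟨s1, s2, hs1, hs2, fun t => ⟨_, fam b false _ _ e23 (fun s t => ?_) t, ?_⟩⟩
      · have := comm_of (R_ε Rbe b) (R_ε Rga b) (mov_ε (K := K) (by decide) _)
          (fix_ε (K := K) (by decide) _) (by rw [ip_ε, ip_x]; decide) (s1 * s) (s2 * t)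
        rw [← e3, ← e4] at this
        exact Subtype.ext this
      · rw [← e3, ← e4]
        rfl
    · have cn : ∀ b s, Commute ((c4 K).Y (ε b (a 0)) s) ((c4 K).NY (a 1) 1) := fun b s =>
        ((cm b true _ _).mul_right (cm b false _ _)).mul_right (cm b true _ _)
      have cn' : Commute ((c4 K).NY (a 0) 1) ((c4 K).NY (a 1) 1) :=
        ((cn true _).mul_left (cn false _)).mul_left (cn true _)
      simpa only [Subgroup.coe_mul] using hm (⟨_, n0.mem⟩ * ⟨_, n1.mem⟩) (by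
        rw [map_mul, e01, e10]
        exact Subtype.ext (by simpa only [Subgroup.coe_mul] using cn'.symm.eq))
    · simpa only [Subgroup.coe_mul] using hm
        (⟨_, n2.mem⟩ * ⟨_, n3.mem⟩ * ⟨_, n2.mem⟩ * ⟨_, n3.mem⟩) (by
          rw [map_mul, map_mul, map_mul, e23, e32]
          exact Subtype.ext (by simpa only [Subgroup.coe_mul] using braid4 h2))
  rcases short_TC rfl c4τ x.1.2 y.1.2 hr0 hr1 (LinearMap.trace K _ (rho K z.1)) (by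
    rintro _ _ ⟨p, hp, rfl⟩ ⟨q, hq, rfl⟩
    obtain ⟨g, hg, e⟩ := top (mul_mem (inv_mem hp) hq)
    have e' : g = (⟨p, hp⟩ : (c4 K).G)⁻¹ * ⟨q, hq⟩ := Subtype.ext e
    have e1 := TW_rho (⟨p, hp⟩ * (x.1 * (g * y.1 * g⁻¹)) * (⟨p, hp⟩ : (c4 K).G)⁻¹)
    rw [map_mul, LinearMap.trace_mul_comm, ← map_mul, inv_mul_cancel_left, hS g hg] at e1
    rw [← e1, e']
    congr 2
    simp only [Subgroup.coe_mul, Subgroup.coe_inv]
    group) with h3 | h3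
  · exact hx (Subtype.ext (fin _ x.2 h3))
  · exact hy (Subtype.ext (fin _ y.2 h3))

end F8

theorem f4_AH' {K : Type} [Field K] [Finite K] (θ : K →+* K) (h : ∀ t, θ (θ t) = t ^ 2)
    (hK : 2 < Nat.card K) (G : Type) [Group G] (hG : IsSR G (f4s (K := K)) f4l θ) : AH G := by
  rcases card_cases θ h hK with h8 | h8
  · rw [IsSR, F4m.gen_eq] at hG
    obtain ⟨σ, h1, h2, ⟨e⟩⟩ := hG
    exact AH_congr e.symm (F8.main θ h h8 σ h1 h2)
  · exact f4_AH θ h h8 G hG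

end Pool.Agent.MP_db74b1_al.Lt
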