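import Mathlib

set_option autoImplicit false

namespace Pool.Agent.MP_db74b1_al.Lt

namespace S8

theorem two {K : Type} [Field K] (θ : K →+* K) (h : ∀ t, θ (θ t) = t ^ 2) : (2 : K) = 0 := by
  have := h 2
  rw [map_ofNat, map_ofNat] at this
  linear_combination -this

theorem coeffs {K A : Type} [Field K] [Finite K] [AddCommGroup A] [Module K A] (Y : Submodule K A)
    {n : ℕ} (hn : n ≤ Nat.card K) (f : Fin n → A) (hf : ∀ t : K, ∑ i, t ^ i.1 • f i ∈ Y)
    (i : Fin n) : f i ∈ Y := by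
  classical
  by_contra hi
  obtain ⟨φ, h1, h2⟩ := Submodule.exists_dual_map_eq_bot_of_notMem hi inferInstance
  have := Fintype.ofFinite K
  obtain ⟨u⟩ : Nonempty (Fin n ↪ K) := Function.Embedding.nonempty_of_card_le (by
    rwa [Fintype.card_fin, ← Nat.card_eq_fintype_card])
  have h3 := Matrix.eq_zero_of_forall_index_sum_pow_mul_eq_zero (f := u) (v := fun i => φ (f i))
    u.injective fun j => by
      have h4 : φ (∑ i, u j ^ i.1 • f i) = 0 := by
        have : φ (∑ i, u j ^ i.1 • f i) ∈ Y.map φ := ⟨_, hf _, rfl⟩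
        rwa [h2, Submodule.mem_bot] at this
      simpa only [map_sum, map_smul, smul_eq_mul] using h4
  exact h1 (congrFun h3 i)

theorem pow_card' {K : Type} [Field K] [Finite K] (t : K) : t ^ Nat.card K = t := by
  have := Fintype.ofFinite K
  rw [Nat.card_eq_fintype_card]
  exact FiniteField.pow_card t

end S8

theorem card_cases {K : Type} [Field K] [Finite K] (θ : K →+* K) (h : ∀ t, θ (θ t) = t ^ 2)
    (hK : 2 < Nat.card K) : Nat.card K = 8 ∨ 8 < Nat.card K := by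
  classical
  have h2 := S8.two θ h
  have := Fintype.ofFinite K
  have hc : CharP K 2 := (CharP.charP_iff_prime_eq_zero Nat.prime_two).2 (by exact_mod_cast h2)
  obtain ⟨k, -, hk⟩ := FiniteField.card K 2
  rw [← Nat.card_eq_fintype_card] at hk
  have h4 : Nat.card K ≠ 4 := fun h4 => by
    obtain ⟨t, -, ht⟩ := Finset.exists_mem_notMem_of_card_lt_card (s := ({0, 1} : Finset K))
      (t := Finset.univ) (by
        rw [Finset.card_univ, ← Nat.card_eq_fintype_card]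
        exact Finset.card_le_two.trans_lt hK)
    simp only [Finset.mem_insert, Finset.mem_singleton, not_or] at ht
    have e1 := S8.pow_card' t
    rw [h4] at e1
    have e0 : t * (t - 1) ≠ 0 := mul_ne_zero ht.1 (sub_ne_zero.2 ht.2)
    have e2 : t ^ 2 + t + 1 = 0 := mul_left_cancel₀ e0 (by linear_combination e1)
    have e3 := congrArg θ e2
    rw [map_add, map_add, map_pow, map_one, map_zero] at e3
    have e4 : (θ t - t) * (θ t - (t + 1)) = 0 := by
      linear_combination e3 + e2 + (-θ t * t - θ t - 1) * h2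
    have e5 := h t
    rcases mul_eq_zero.1 e4 with e6 | e6 <;> rw [sub_eq_zero] at e6
    · rw [e6, e6] at e5
      exact e0 (by linear_combination -e5)
    · rw [e6, map_add, map_one, e6] at e5
      exact e0 (by linear_combination -e5 + h2)
  rw [hk] at hK h4 ⊢
  obtain ⟨k, hk0⟩ := k
  change 2 < 2 ^ k at hK
  change 2 ^ k ≠ 4 at h4
  change 2 ^ k = 8 ∨ 8 < 2 ^ k
  rcases Nat.lt_or_ge k 4 with h5 | h5
  · interval_cases k <;> simp_all
  · right
    calc 8 < 2 ^ 4 := by norm_num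
      _ ≤ 2 ^ k := Nat.pow_le_pow_right (by norm_num) h5

theorem th8 {K : Type} [Field K] [Finite K] (θ : K →+* K) (h : ∀ t, θ (θ t) = t ^ 2)
    (hK : Nat.card K = 8) (t : K) : θ t = t ^ 4 := by
  have h2 := S8.two θ h
  have e1 := S8.pow_card' t
  rw [hK] at e1
  have e5 := h t
  have key : (θ t - t) * (θ t - t ^ 2) * (θ t - t ^ 4) = 0 → θ t = t ^ 4 := fun e => by
    rcases mul_eq_zero.1 e with e | e
    · rcases mul_eq_zero.1 e with e | e <;> rw [sub_eq_zero] at e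
      · rw [e, e] at e5
        rw [e]
        linear_combination (t ^ 2 + t + 1) * e5
      · rw [e, map_pow, e] at e5
        rw [e]
        linear_combination -e5
    · exact sub_eq_zero.1 e
  have e2 : t * (t + 1) * (t ^ 3 + t + 1) * (t ^ 3 + t ^ 2 + 1) = 0 := by
    linear_combination e1 + (t ^ 7 + t ^ 6 + 2 * t ^ 5 + 2 * t ^ 4 + t ^ 3 + t ^ 2 + t) * h2
  rcases mul_eq_zero.1 e2 with e | e
  · rcases mul_eq_zero.1 e with e | e
    · rcases mul_eq_zero.1 e with e | e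
      · simp [e]
      · have : t = 1 := by linear_combination e - h2
        simp [this]
    · have e3 := congrArg θ e
      rw [map_add, map_add, map_pow, map_one, map_zero] at e3
      apply key
      generalize θ t = u at e3
      grind
  · have e3 := congrArg θ e
    rw [map_add, map_add, map_pow, map_pow, map_one, map_zero] at e3
    apply key
    generalize θ t = u at e3
    grind

theorem sep8 {K : Type} [Field K] [Finite K] (θ : K →+* K) (h : ∀ t, θ (θ t) = t ^ 2)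
    (hK : Nat.card K = 8) {A : Type} [Ring A] [Algebra K A] (Y : Submodule K A) (φ A1 E C : A)
    (hEC : E * C = 0) (hCE : C * E = 0)
    (hφ : ∀ t : K, (1 + t • A1 + t ^ 2 • E) * (1 + θ t • C) * φ *
      ((1 + θ t • C) * (1 + t • A1 + t ^ 2 • E)) - φ ∈ Y) :
    A1 * φ + φ * A1 + C * φ * C ∈ Y ∧
      E * φ + A1 * φ * A1 + φ * E + (A1 * (C * φ * C) + C * φ * C * A1) ∈ Y ∧
      E * φ * A1 + A1 * φ * E + A1 * (C * φ * C) * A1 ∈ Y ∧
      E * φ * E + (C * φ + φ * C) ∈ Y ∧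
      A1 * (C * φ + φ * C) + (C * φ + φ * C) * A1 ∈ Y ∧
      E * (C * φ + φ * C) + A1 * (C * φ + φ * C) * A1 + (C * φ + φ * C) * E ∈ Y ∧
      E * (C * φ + φ * C) * A1 + A1 * (C * φ + φ * C) * E ∈ Y := by
  have e1 : ∀ x, E * (C * x) = 0 := fun x => by rw [← mul_assoc, hEC, zero_mul]
  have key := S8.coeffs Y hK.ge ![0, A1 * φ + φ * A1 + C * φ * C,
    E * φ + A1 * φ * A1 + φ * E + (A1 * (C * φ * C) + C * φ * C * A1),
    E * φ * A1 + A1 * φ * E + A1 * (C * φ * C) * A1, E * φ * E + (C * φ + φ * C),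
    A1 * (C * φ + φ * C) + (C * φ + φ * C) * A1,
    E * (C * φ + φ * C) + A1 * (C * φ + φ * C) * A1 + (C * φ + φ * C) * E,
    E * (C * φ + φ * C) * A1 + A1 * (C * φ + φ * C) * E] fun t => by
      have e8 := S8.pow_card' t
      rw [hK] at e8
      have := hφ t
      rw [th8 θ h hK] at this
      convert this using 1
      rw [Fin.sum_univ_eight]
      change t ^ 0 • _ + t ^ 1 • _ + t ^ 2 • _ + t ^ 3 • _ + t ^ 4 • _ + t ^ 5 • _ + t ^ 6 • _
        + t ^ 7 • _ = _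
      simp only [Matrix.cons_val, mul_add, add_mul, mul_assoc, one_mul, mul_one,
        smul_mul_assoc, mul_smul_comm, e1, hEC, hCE, smul_zero, mul_zero, add_zero, zero_add,
        smul_add]
      linear_combination (norm := module) (-e8) • (C * (φ * C)) + (-t * e8) • (A1 * (C * (φ * C)))
        + (-t * e8) • (C * (φ * (C * A1))) + (-t ^ 2 * e8) • (A1 * (C * (φ * (C * A1))))
  exact ⟨key 1, key 2, key 3, key 4, key 5, key 6, key 7⟩

namespace S8

variable {K A : Type} [Field K] [Ring A] [Algebra K A] {P Q : Submodule K A}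

/-- The bracket with `D` maps `P` into `Q`. -/
def Ad (P Q : Submodule K A) (D : A) : Prop := ∀ φ ∈ P, D * φ + φ * D ∈ Q

/-- A twisted one-parameter family, up to scaling, whose conjugation action moves `P` by `Q`. -/
def Fm (θ : K →+* K) (P Q : Submodule K A) (A1 E C : A) : Prop :=
  E * C = 0 ∧ C * E = 0 ∧ ∃ c d : K, c ≠ 0 ∧ d ≠ 0 ∧ ∀ φ ∈ P, ∀ t : K,
    (1 + (c * t) • A1 + (c * t) ^ 2 • E) * (1 + (d * θ t) • C) * φ *
      ((1 + (d * θ t) • C) * (1 + (c * t) • A1 + (c * t) ^ 2 • E)) - φ ∈ Q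

theorem dbl (h2 : (2 : K) = 0) (x : A) : x + x = 0 := by
  rw [← two_smul K x, h2, zero_smul]

theorem Ad.smul {D : A} (c : K) (h : Ad P Q D) : Ad P Q (c • D) := fun φ hφ => by
  rw [smul_mul_assoc, mul_smul_comm, ← smul_add]
  exact Q.smul_mem c (h φ hφ)

theorem Ad_smul {D : A} {c : K} (hc : c ≠ 0) : Ad P Q (c • D) ↔ Ad P Q D :=
  ⟨fun h => by simpa only [smul_smul, inv_mul_cancel₀ hc, one_smul] using h.smul c⁻¹, .smul c⟩

theorem L5 (h2 : (2 : K) = 0) (hQ : Q ≤ P) {D D' : A} (h : Ad P Q D) (h' : Ad P Q D') :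
    Ad P Q (D * D' + D' * D) := fun φ hφ => by
  convert Q.add_mem (h _ (hQ (h' φ hφ))) (h' _ (hQ (h φ hφ))) using 1
  simp only [mul_add, add_mul, mul_assoc]
  linear_combination (norm := abel) -dbl h2 (D * (φ * D')) - dbl h2 (D' * (φ * D))

variable [Finite K] {θ : K →+* K}

theorem Fm.comp (h : ∀ t, θ (θ t) = t ^ 2) (hK : Nat.card K = 8) {A1 E C : A}
    (F : Fm θ P Q A1 E C) : ∃ c d : K, c ≠ 0 ∧ d ≠ 0 ∧ ∀ φ ∈ P,
      c • (A1 * φ + φ * A1) + d ^ 2 • (C * φ * C) ∈ Q ∧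
      c ^ 2 • (E * φ + A1 * φ * A1 + φ * E)
        + (c * d ^ 2) • (A1 * (C * φ * C) + C * φ * C * A1) ∈ Q ∧
      c ^ 3 • (E * φ * A1 + A1 * φ * E) + (c ^ 2 * d ^ 2) • (A1 * (C * φ * C) * A1) ∈ Q ∧
      c ^ 4 • (E * φ * E) + d • (C * φ + φ * C) ∈ Q := by
  obtain ⟨h1, h2, c, d, hc, hd, h3⟩ := F
  refine ⟨c, d, hc, hd, fun φ hφ => ?_⟩
  obtain ⟨k1, k2, k3, k4, -⟩ := sep8 θ h hK Q φ (c • A1) (c ^ 2 • E) (d • C)
    (by simp [h1]) (by simp [h2]) fun t => by
      simpa only [smul_smul, mul_comm t, mul_comm (θ t), mul_pow, mul_comm (t ^ 2)] using h3 φ hφ t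
  simp only [smul_mul_assoc, mul_smul_comm, smul_smul] at k1 k2 k3 k4
  refine ⟨?_, ?_, ?_, ?_⟩
  · convert k1 using 1; module
  · convert k2 using 1; module
  · convert k3 using 1; module
  · convert k4 using 1; module

theorem L2 (h : ∀ t, θ (θ t) = t ^ 2) (hK : Nat.card K = 8) (hQ : Q ≤ P) {A1 E C : A}
    (F : Fm θ P Q A1 E C) (hA : Ad P Q A1) (hC : Ad P Q C) (s : K) {φ : A} (hφ : φ ∈ P) :
    (1 + s • A1 + s ^ 2 • E) * φ * (1 + s • A1 + s ^ 2 • E) - φ ∈ Q ∧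
      (1 + s • C) * φ * (1 + s • C) - φ ∈ Q := by
  obtain ⟨c, d, hc, hd, k⟩ := F.comp h hK
  have b2 : ∀ φ ∈ P, C * φ * C ∈ Q := fun φ hφ =>
    (Q.smul_mem_iff (pow_ne_zero 2 hd)).1
      ((Q.add_mem_iff_right (Q.smul_mem c (hA φ hφ))).1 (k φ hφ).1)
  have a4 : E * φ * E ∈ Q := (Q.smul_mem_iff (pow_ne_zero 4 hc)).1
      ((Q.add_mem_iff_left (Q.smul_mem d (hC φ hφ))).1 (k φ hφ).2.2.2)
  have a2 : ∀ φ ∈ P, E * φ + A1 * φ * A1 + φ * E ∈ Q := fun φ hφ =>
    (Q.smul_mem_iff (pow_ne_zero 2 hc)).1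
      ((Q.add_mem_iff_left (Q.smul_mem _ (hA _ (hQ (b2 φ hφ))))).1 (k φ hφ).2.1)
  have a3 : E * φ * A1 + A1 * φ * E ∈ Q := by
    have := a2 _ (hQ (b2 φ hφ))
    rw [← mul_assoc E, ← mul_assoc E, F.1, mul_assoc _ C E, F.2.1, zero_mul, zero_mul, mul_zero,
      zero_add, add_zero] at this
    exact (Q.smul_mem_iff (pow_ne_zero 3 hc)).1
      ((Q.add_mem_iff_left (Q.smul_mem _ this)).1 (k φ hφ).2.2.1)
  constructor
  · convert Q.add_mem (Q.add_mem (Q.add_mem (Q.smul_mem s (hA φ hφ)) (Q.smul_mem (s ^ 2) (a2 φ hφ)))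
      (Q.smul_mem (s ^ 3) a3)) (Q.smul_mem (s ^ 4) a4) using 1
    simp only [mul_add, add_mul, one_mul, mul_one, smul_mul_assoc, mul_smul_comm]
    module
  · convert Q.add_mem (Q.smul_mem s (hC φ hφ)) (Q.smul_mem (s ^ 2) (b2 φ hφ)) using 1
    simp only [mul_add, add_mul, one_mul, mul_one, smul_mul_assoc, mul_smul_comm]
    module

theorem L3 (h : ∀ t, θ (θ t) = t ^ 2) (hK : Nat.card K = 8) (hQ : Q ≤ P) {A1 E C A1' E' C' : A}
    (F : Fm θ P Q A1 E C) (F' : Fm θ P Q A1' E' C') (h1 : E * C' = 0) (h2 : C' * E = 0)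
    (h3 : E' * C = 0) (h4 : C * E' = 0) (h5 : E * E' = 0) (h6 : E' * E = 0) :
    Ad P Q (C * C' + C' * C) := fun φ hφ => by
  obtain ⟨c, d, -, hd, k⟩ := F.comp h hK
  obtain ⟨c', d', -, hd', k'⟩ := F'.comp h hK
  have z : ∀ {x y : A}, x * y = 0 → ∀ w, x * (y * w) = 0 := fun e w => by
    rw [← mul_assoc, e, zero_mul]
  rw [← Q.smul_mem_iff (mul_ne_zero hd hd')]
  convert Q.add_mem (k _ (hQ (k' φ hφ).2.2.2)).2.2.2 (k' _ (hQ (k φ hφ).2.2.2)).2.2.2 using 1
  simp only [mul_add, add_mul, mul_assoc, smul_mul_assoc, mul_smul_comm, z h1, z h2, z h3, z h4,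
    z h5, z h6, h1, h2, h3, h4, mul_zero, smul_zero, zero_add]
  linear_combination (norm := module) (-(d * d') * two θ h) • (C * (φ * C'))
    + (-(d * d') * two θ h) • (C' * (φ * C))

theorem L4 (h : ∀ t, θ (θ t) = t ^ 2) (hK : Nat.card K = 8) (hQ : Q ≤ P) {A1 E C D : A}
    (F : Fm θ P Q A1 E C) (hD : Ad P Q D) (hc : D * C = C * D) :
    Ad P Q (D * A1 + A1 * D) := fun φ hφ => by
  obtain ⟨c, d, hc0, -, k⟩ := F.comp h hK
  have z : ∀ w, D * (C * w) = C * (D * w) := fun w => by rw [← mul_assoc, hc, mul_assoc]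
  rw [← Q.smul_mem_iff hc0]
  convert Q.add_mem (hD _ (hQ (k φ hφ).1)) (k _ (hQ (hD φ hφ))).1 using 1
  simp only [mul_add, add_mul, mul_assoc, smul_mul_assoc, mul_smul_comm, z, hc]
  linear_combination (norm := module) (-c * two θ h) • (D * (φ * A1))
    + (-c * two θ h) • (A1 * (φ * D)) + (-d ^ 2 * two θ h) • (C * (D * (φ * C)))
    + (-d ^ 2 * two θ h) • (C * (φ * (C * D)))

end S8

end Pool.Agent.MP_db74b1_al.Lt
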