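import Pool.Agent.MP_db74b1_al.LtF4
import Pool.Agent.MP_db74b1_al.LtSep8

set_option autoImplicit false

namespace Pool.Agent.MP_db74b1_al.Lt
open Pool.Agent.MP_db74b1_al.Exc

namespace F8
open F4m S8 F4b

section abs

variable {K A Γ : Type} [Field K] [Ring A] [Algebra K A] [Group Γ]

theorem exists_PQ (ρ : Γ →* A) (tr : A →ₗ[K] K) (H : Subgroup Γ) (x y : Γ) (k : K)
    (hk : ∀ p ∈ H, ∀ q ∈ H, tr (ρ (p * x * p⁻¹ * (q * y * q⁻¹))) = k) :
    ∃ (P Q : Submodule K A) (hQ : Q ≤ P), H ≤ St ρ P Q hQ ∧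
      ∀ g ∈ St ρ P Q hQ, tr (ρ (x * (g * y * g⁻¹))) = k := by
  let P : Submodule K A := Submodule.span K {φ | ∃ q ∈ H, φ = ρ (q * y * q⁻¹)}
  let Q : Submodule K A := P ⊓ ⨅ p : H,
    LinearMap.ker (tr ∘ₗ LinearMap.mulLeft K (ρ (p.1 * x * p.1⁻¹)))
  have hQ : ∀ φ, φ ∈ Q ↔ φ ∈ P ∧ ∀ p ∈ H, tr (ρ (p * x * p⁻¹) * φ) = 0 := fun φ => by
    simp only [Q, Submodule.mem_inf, Submodule.mem_iInf, LinearMap.mem_ker, LinearMap.comp_apply,
      LinearMap.mulLeft_apply, Subtype.forall]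
  have hH : ∀ g ∈ H, Good ρ P Q g := fun g hg φ hφ => by
    induction hφ using Submodule.span_induction with
    | mem φ hφ =>
      obtain ⟨q, hq, rfl⟩ := hφ
      have e : ρ g * ρ (q * y * q⁻¹) * ρ g⁻¹ = ρ (g * q * y * (g * q)⁻¹) := by
        rw [← map_mul, ← map_mul]
        congr 1
        group
      rw [e, hQ]
      refine ⟨P.sub_mem (Submodule.subset_span ⟨_, H.mul_mem hg hq, rfl⟩)
        (Submodule.subset_span ⟨_, hq, rfl⟩), fun p hp => ?_⟩
      rw [mul_sub, map_sub, ← map_mul, ← map_mul, hk p hp _ (H.mul_mem hg hq), hk p hp q hq,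
        sub_self]
    | zero => simp
    | add φ ψ _ _ h1 h2 =>
      convert Q.add_mem h1 h2 using 1
      rw [mul_add, add_mul]
      abel
    | smul r φ _ h1 =>
      convert Q.smul_mem r h1 using 1
      rw [mul_smul_comm, smul_mul_assoc, smul_sub]
  refine ⟨P, Q, inf_le_left, fun g hg => ⟨hH g hg, hH _ (H.inv_mem hg)⟩, fun g hg => ?_⟩
  have h1 := ((hQ _).1 (hg.1 (ρ y) (Submodule.subset_span ⟨1, H.one_mem, by simp⟩))).2 1 H.one_mem
  have h2 := hk 1 H.one_mem 1 H.one_mem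
  simp only [one_mul, inv_one, mul_one, mul_sub, map_sub, ← map_mul] at h1 h2
  rw [← h2]
  exact sub_eq_zero.1 h1

theorem Ad_conj {ρ : Γ →* A} {P Q : Submodule K A} {hQ : Q ≤ P} {g : Γ} (hg : g ∈ St ρ P Q hQ)
    {D : A} (h : Ad P Q D) : Ad P Q (ρ g * D * ρ g⁻¹) := fun φ hφ => by
  have h1 : ρ g⁻¹ * φ * ρ g ∈ P := by simpa using P.add_mem (hQ (hg.2 φ hφ)) hφ
  have h2 := h _ h1
  have h3 := Q.add_mem (hg.1 _ (hQ h2)) h2
  rw [sub_add_cancel] at h3
  have e : ρ g * ρ g⁻¹ = 1 := by rw [← map_mul, mul_inv_cancel, map_one]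
  convert h3 using 1
  simp only [mul_add, add_mul, mul_assoc, e, mul_one]
  rw [← mul_assoc (ρ g) (ρ g⁻¹), e, one_mul]

end abs

variable {K : Type} [Field K]

/-- The 26-dimensional module. -/
noncomputable abbrev M (K : Type) [Field K] : Submodule K (L K) := M26 (c4τ (K := K))

/-- Compression of an operator to the module. -/
noncomputable def res (D : En K) : Module.End K (M K) := prj _ ∘ₗ D ∘ₗ (M K).subtype

theorem res_app {D : En K} {m : M K} (h : D m ∈ M K) : (res D m : L K) = D m := prj_apply _ h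

/-- Long roots. -/
def Lo (l : Exc.Lat) : Prop := ipx l l = 2 ∧ Sp 6 l ∧ sg true l = l

/-- Short roots. -/
def Sh (s : Exc.Lat) : Prop := ipx s s = 2 ∧ Sp 6 s ∧ sg true s ≠ s

instance (l : Exc.Lat) : Decidable (Lo l) := by unfold Lo; infer_instance

instance (s : Exc.Lat) : Decidable (Sh s) := by unfold Sh; infer_instance

theorem Lo.R {l : Exc.Lat} (h : Lo l) : (c4 K).R l := ⟨rt h.1, h.2.1⟩

theorem Sh.R {s : Exc.Lat} (h : Sh s) : (c4 K).R s := ⟨rt h.1, h.2.1⟩

/-- Long root operator. -/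
noncomputable def Cc (K : Type) [Field K] (l : Exc.Lat) : Module.End K (M K) := res (ad l)

/-- Short root operator, linear term. -/
noncomputable def Aa (K : Type) [Field K] (s : Exc.Lat) : Module.End K (M K) :=
  res (ad s + ad (sg true s))

/-- Short root operator, quadratic term. -/
noncomputable def Ee (K : Type) [Field K] (s : Exc.Lat) : Module.End K (M K) :=
  res ((co (-s)).smulRight (e s + e (sg true s)))

theorem Cc_app {l : Exc.Lat} (h : Lo l) (m : M K) : (Cc K l m : L K) = ad l m := res_app (by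
  obtain ⟨_, v, hv, rfl⟩ := m
  refine ⟨ad l v, Cfg.ad_mem h.R hv, ?_⟩
  change ad l v - (c4 K).st (ad l v) = ad l (v - (c4 K).st v)
  rw [Cfg.st_ad h.R hv, map_sub]
  exact congrArg (fun x => ad l v - ad x ((c4 K).st v)) h.2.2)

theorem Aa_app {s : Exc.Lat} (h : Sh s) (m : M K) :
    (Aa K s m : L K) = ad s m + ad (sg true s) m := res_app (by
  obtain ⟨_, v, hv, rfl⟩ := m
  refine ⟨ad s v + ad (sg true s) v,
    add_mem (Cfg.ad_mem h.R hv) (Cfg.ad_mem (h.R (K := K)).sg hv), ?_⟩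
  have e1 : (c4 K).st (ad s v) = ad (sg true s) ((c4 K).st v) := Cfg.st_ad h.R hv
  have e2 : (c4 K).st (ad (sg true s) v) = ad (sg true (sg true s)) ((c4 K).st v) :=
    Cfg.st_ad (h.R (K := K)).sg hv
  change ad s v + ad (sg true s) v - (c4 K).st (ad s v + ad (sg true s) v) =
    ad s (v - (c4 K).st v) + ad (sg true s) (v - (c4 K).st v)
  rw [map_add, e1, e2, sg_sg, map_sub, map_sub]
  abel)

theorem Ee_app (h2 : (2 : K) = 0) {s : Exc.Lat} (h : Sh s) (m : M K) :
    (Ee K s m : L K) = co (-s) (m : L K) • (e s + e (sg true s)) := res_app (by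
  refine (M K).smul_mem _ ⟨e s, Cfg.e_mem h.2.1, ?_⟩
  have e1 : (c4 K).st (e s) = e (sg true s) := Cfg.st_e h.2.1
  change e s - (c4 K).st _ = _
  rw [e1]
  linear_combination (norm := module) -add_self2 h2 (e (sg true s) : L K))

theorem co_M {s : Exc.Lat} (h : (c4 K).R s) (m : M K) :
    co (-sg true s) (m : L K) = -co (-s) (m : L K) := by
  obtain ⟨_, v, hv, rfl⟩ := m
  have e1 : co (-sg true s) ((c4 K).st v) = co (-s) v := Cfg.co_st h.neg v
  have e2 : co (sg true (sg true (-s))) ((c4 K).st v) = co (-sg true s) v := Cfg.co_st h.neg.sg v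
  rw [sg_sg] at e2
  change co _ (v - (c4 K).st v) = -co _ (v - (c4 K).st v)
  rw [map_sub, map_sub, e1, e2, neg_sub]

theorem ad_ad_M {s : Exc.Lat} (hs : Sh s) (m : M K) : ad s (ad (sg true s) (m : L K)) = 0 := by
  obtain ⟨_, v, hv', rfl⟩ := m
  have hk := hs.R (K := K)
  have hk' : ip (sg true s) (sg true s) = 2 := hk.sg.1
  have h0 : ip s (sg true s) = 0 := hk.orth hs.2.2
  have key : ∀ β, (c4 K).R β → sg true β ≠ β → ad s (ad (sg true s) (e β : L K)) = 0 := by
    intro β hβ hm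
    rcases ip_cases hk' hβ.1 with rfl | h | h
    · rw [ad_e_m2 hk', map_neg, ad_hv, ip_comm, h0]; simp
    · rw [ad_e_m1 hk' hβ.1 h, map_smul, ad_e_nn hk.1 ((root_add hk' hβ.1).2 h), smul_zero]
      rw [ip_add_right, h0, zero_add]
      rcases ip_cases hk.1 hβ.1 with rfl | h1 | h1
      · rw [ip_neg_right, ip_comm, h0] at h; omega
      · exfalso
        have r := (root_add hk.1 hβ.1).2 h1
        have r' : ip (sg true (s + β)) (sg true (s + β)) = 2 :=
          ((c4 K).ip_sg (hk.2.add hβ.2) (hk.2.add hβ.2)).trans r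
        have i1 : ip β (sg true β) = 0 := hβ.orth hm
        have i2 : ip (sg true s) β = ip s (sg true β) := (c4 K).ip_sg' hk.2 hβ.2
        have z : s + β + sg true (s + β) = 0 := by
          apply ip_self_eq_zero
          rw [norm_add, r, r', sg_add, ip_add_left, ip_add_right, ip_add_right, h0, i1, ← i2,
            ip_comm β, h]
          rfl
        have z' := congrArg ht z
        rw [ht_add, ht_sg, ht_zero] at z'
        have := root_ht_pos r (pos_of_ht r (by omega))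
        omega
      · exact h1
    · rw [ad_e_nn hk' hβ.1 h, map_zero]
  refine Cfg.V_ind (P := fun v => ad s (ad (sg true s) (v - (c4 K).st v)) = 0)
    (fun v w _ _ h1 h2 => ?_) (fun r v _ h1 => ?_) (fun i _ => ?_) (fun β hβ => ?_) hv'
  · rw [map_add, add_sub_add_comm, map_add, map_add, h1, h2, add_zero]
  · rw [map_smulₛₗ, c4τ, ← smul_sub, map_smul, map_smul, h1, smul_zero]
  · rw [Cfg.st_hv, ← hv_sub, ad_hv, map_smul, ad_e_nn hk.1 hk' h0.ge, smul_zero]
  · have e1 : (c4 K).st (e β) = e (sg true β) := Cfg.st_e hβ.2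
    rw [e1]
    by_cases h : sg true β = β
    · simp [h]
    · rw [map_sub, map_sub, key β hβ h, key (sg true β) hβ.sg (by rw [sg_sg]; exact Ne.symm h),
        sub_zero]

theorem rho_l {l : Exc.Lat} (h : Lo l) (t : K) :
    rho K (yg h.R t) = 1 + t • Cc K l := by
  ext1 m
  apply Subtype.ext
  have h3 : co (-l) (m : L K) = 0 := by
    obtain ⟨_, v, _, rfl⟩ := m
    have : co (-sg true l) ((c4 K).st v) = co (-l) v := Cfg.co_st (h.R (K := K)).neg v
    rw [h.2.2] at this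
    change co (-l) (v - (c4 K).st v) = 0
    rw [map_sub, this, sub_self]
  change (c4 K).Y l t m = m + t • (Cc K l m : L K)
  rw [Cfg.Y_fix h.2.2, X_apply (rt h.1), h3, Cc_app h, mul_zero, zero_smul, add_zero]

theorem rho_s (h2 : (2 : K) = 0) {s : Exc.Lat} (h : Sh s) (t : K) :
    rho K (yg h.R t) = 1 + t • Aa K s + t ^ 2 • Ee K s := by
  ext1 m
  apply Subtype.ext
  change (c4 K).Y s t m = m + t • (Aa K s m : L K) + t ^ 2 • (Ee K s m : L K)
  rw [F4a.Y_poly c4τ h.R h.2.2, Aa_app h, Ee_app h2 h]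
  change _ + t • (ad s (m : L K) + ad (sg true s) m) + t ^ 2 • (ad s (ad (sg true s) (m : L K)) +
    co (-sg true s) (m : L K) • e (sg true s) + co (-s) (m : L K) • e s) = _
  rw [ad_ad_M h, co_M h.R]
  linear_combination (norm := module)
    -add_self2 h2 ((t ^ 2 * co (-s) (m : L K)) • (e (sg true s) : L K))

theorem jac1 (h2 : (2 : K) = 0) {α β : Exc.Lat} (hα : ip α α = 2) (hβ : ip β β = 2)
    (h : ip α β = -1) (v : L K) : ad α (ad β v) + ad β (ad α v) = ad (α + β) v := by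
  have := jac_ee hα hβ v
  rw [ad_e_m1 hα hβ h, eps2 h2, one_smul, br_e ((root_add hα hβ).2 h)] at this
  linear_combination (norm := module) this + add_self2 h2 (ad β (ad α v))

theorem CC1 (h2 : (2 : K) = 0) {l l' : Exc.Lat} (h : Lo l) (h' : Lo l') (h'' : Lo (l + l'))
    (i : ipx l l' = -1) : Cc K l * Cc K l' + Cc K l' * Cc K l = Cc K (l + l') := by
  ext1 m
  apply Subtype.ext
  change (Cc K l (Cc K l' m) : L K) + Cc K l' (Cc K l m) = _
  simp only [Cc_app h, Cc_app h', Cc_app h'']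
  exact jac1 h2 (rt h.1) (rt h'.1) ((ip_x _ _).trans i) _

theorem CC0 {l l' : Exc.Lat} (h : Lo l) (h' : Lo l') (i : 0 ≤ ipx l l') :
    Cc K l * Cc K l' = Cc K l' * Cc K l := by
  ext1 m
  apply Subtype.ext
  change (Cc K l (Cc K l' m) : L K) = Cc K l' (Cc K l m)
  simp only [Cc_app h, Cc_app h']
  have := jac_ee (rt h.1) (rt h'.1) (m : L K)
  rwa [ad_e_nn (rt h.1) (rt h'.1) (ip_x l l' ▸ i), map_zero, LinearMap.zero_apply, sub_eq_zero]
    at this

theorem ip_ls {l s : Exc.Lat} (h : Lo l) (h' : Sh s) : ip l (sg true s) = ipx l s := by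
  rw [← ip_x, ← (c4 ℚ).ip_sg h.2.1 h'.2.1]
  exact congrArg (ip · _) h.2.2.symm

theorem CA1 (h2 : (2 : K) = 0) {l s : Exc.Lat} (h : Lo l) (h' : Sh s) (h'' : Sh (l + s))
    (i : ipx l s = -1) : Cc K l * Aa K s + Aa K s * Cc K l = Aa K (l + s) := by
  ext1 m
  apply Subtype.ext
  change (Cc K l (Aa K s m) : L K) + Aa K s (Cc K l m) = _
  simp only [Cc_app h, Aa_app h', Aa_app h'', map_add]
  rw [sg_add, h.2.2, ← jac1 h2 (rt h.1) (rt h'.1) ((ip_x _ _).trans i),
    ← jac1 h2 (β := sg true s) (rt h.1) (h'.R (K := K)).sg.1 ((ip_ls h h').trans i)]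
  abel

theorem EC0 (h2 : (2 : K) = 0) {l s : Exc.Lat} (h : Lo l) (h' : Sh s) (i : 0 ≤ ipx l s) :
    Ee K s * Cc K l = 0 ∧ Cc K l * Ee K s = 0 := by
  constructor <;> ext1 m <;> apply Subtype.ext
  · change (Ee K s (Cc K l m) : L K) = 0
    have hne : -s ≠ l := fun e => h'.2.2 (neg_inj.1 (by rw [← sg_neg, e, h.2.2]))
    rw [Ee_app h2 h', Cc_app h, co_ad, if_neg hne, co_of_not (β := -s - l), mul_zero, ite_self,
      zero_smul]
    rw [norm_sub, norm_neg, ip_neg_left, ip_comm s l, rt h.1, rt h'.1, ip_x]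
    omega
  · change (Cc K l (Ee K s m) : L K) = 0
    have i' : ip (sg true s) (sg true s) = 2 := (h'.R (K := K)).sg.1
    rw [Cc_app h, Ee_app h2 h', map_smul, map_add, ad_e_nn (rt h.1) (rt h'.1) (ip_x l s ▸ i),
      ad_e_nn (rt h.1) i' (ip_ls h h' ▸ i), add_zero, smul_zero]

theorem EE0 (h2 : (2 : K) = 0) {s s' : Exc.Lat} (h : Sh s) (h' : Sh s') (i : -s ≠ s')
    (i' : -s ≠ sg true s') : Ee K s * Ee K s' = 0 := by
  ext1 m
  apply Subtype.ext
  change (Ee K s (Ee K s' m) : L K) = 0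
  rw [Ee_app h2 h, Ee_app h2 h', map_smul, map_add, co_e_ne i, co_e_ne i', add_zero, smul_zero,
    zero_smul]

theorem N1_m1 (h2 : (2 : K) = 0) {α β : Exc.Lat} (hα : ip α α = 2) (hβ : ip β β = 2)
    (h : ip α β = -1) : N1 α (1 : K) (e β) = e (α + β) := by
  obtain ⟨s, -, h1⟩ := N1_e (K := K) hα hβ one_ne_zero
  have h3 := N1_one (K := K) hα (root_neg hβ) (by rw [ip_neg_right, h]; rfl) one_ne_zero
  rw [rf_apply hα, ip_comm, h, show β - (-1 : ℤ) • α = α + β by module] at h1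
  have := aut_neg (mul_mem (mul_mem (X_aut _ _) (X_aut _ _)) (X_aut _ _)) hβ
    ((root_add hα hβ).2 h) h1 h3
  rw [eps2 h2, inv_one, mul_one, mul_one] at this
  rw [h1, this, one_smul]

theorem braid (h2 : (2 : K) = 0) {α β : Exc.Lat} (hα : ip α α = 2) (hβ : ip β β = 2)
    (h : ip α β = -1) : N1 α (1 : K) * N1 β 1 * N1 α 1 = N1 β 1 * N1 α 1 * N1 β 1 := by
  have h' : ip β α = -1 := by rw [ip_comm, h]
  have au : ∀ γ, N1 γ (1 : K) ∈ AutG K := fun γ =>
    mul_mem (mul_mem (X_aut _ _) (X_aut _ _)) (X_aut _ _)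
  have r := (root_add hβ hα).2 h'
  have e1 : (N1 α (1 : K) * N1 β (1 : K)) (e α) = (1 : K) • e β := by
    rw [LinearEquiv.mul_apply, N1_m1 h2 hβ hα h', N1_one hα r (by rw [ip_add_right]; omega)
      one_ne_zero, eps2 h2, inv_one, mul_one, add_sub_cancel_right]
  have e2 : (N1 α (1 : K) * N1 β (1 : K)) (e (-α)) = (1 : K) • e (-β) := by
    rw [LinearEquiv.mul_apply, N1_one hβ (root_neg hα) (by rw [ip_neg_right]; omega) one_ne_zero,
      eps2 h2, inv_one, mul_one, map_smul, show -α - β = -(β + α) by abel,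
      N1_m1 h2 hα (root_neg r) (by rw [ip_neg_right, ip_add_right]; omega),
      show α + -(β + α) = -β by abel]
  have c1 := conj_X (mul_mem (au α) (au β)) hα hβ e1 1
  have c2 := conj_X (mul_mem (au α) (au β)) (root_neg hα) (root_neg hβ) e2 1⁻¹
  rw [one_mul] at c1 c2
  rw [mul_assoc (N1 β 1)]
  generalize N1 α (1 : K) * N1 β (1 : K) = g at c1 c2 ⊢
  rw [N1, N1, ← c1, ← c2]
  group

theorem braid4 (h2 : (2 : K) = 0) : (c4 K).NY (a 3) 1 * (c4 K).NY (a 2) 1 * (c4 K).NY (a 3) 1 *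
    (c4 K).NY (a 2) 1 = (c4 K).NY (a 2) 1 * (c4 K).NY (a 3) 1 * (c4 K).NY (a 2) 1 *
      (c4 K).NY (a 3) 1 := by
  have e4 : sg (c4 K).b (a 2) = a 4 := sg_a true 2
  rw [Cfg.NY_fix (jl_fix false), Cfg.NY_mov R2 (js_mov false), e4, c4τ]
  have b1 := braid h2 (root_a 2) (root_a 3) (by rw [ip_x]; decide)
  have b2 := braid h2 (root_a 4) (root_a 3) (by rw [ip_x]; decide)
  have cm : ∀ b b' (s t : K), Commute (X (ε b (a 2)) s) (X (ε b' (a 4)) t) := fun b b' =>
    X_comm (Ra (K := K) 2 (by decide) b).1 (Ra (K := K) 4 (by decide) b').1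
      (by rw [ip_x]; revert b b'; decide)
  have cn : ∀ b s, Commute (X (ε b (a 2)) s) (N1 (a 4) (1 : K)) := fun b s =>
    ((cm b true _ _).mul_right (cm b false _ _)).mul_right (cm b true _ _)
  have b3 : N1 (a 2) (1 : K) * N1 (a 4) 1 = N1 (a 4) 1 * N1 (a 2) 1 :=
    ((cn true _).mul_left (cn false _)).mul_left (cn true _)
  change N1 (a 3) 1 * _ * N1 (a 3) 1 * _ = _ * N1 (a 3) 1 * _ * N1 (a 3) 1
  generalize N1 (a 2) (1 : K) = x at *
  generalize N1 (a 3) (1 : K) = y at *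
  generalize N1 (a 4) (1 : K) = z at *
  calc y * (x * z) * y * (x * z) = y * x * z * y * (x * z) := by group
    _ = y * x * (z * y * z) * x := by rw [b3]; group
    _ = (y * x * y) * z * y * x := by rw [b2]; group
    _ = x * y * (x * z) * y * x := by rw [← b1]; group
    _ = x * y * z * (x * y * x) := by rw [b3]; group
    _ = x * (y * z * y) * x * y := by rw [b1]; group
    _ = x * z * y * (z * x) * y := by rw [← b2]; group
    _ = _ := by rw [← b3]

end F8

end Pool.Agent.MP_db74b1_al.Lt
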