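import Pool.Agent.MP_db74b1_al.LtDefs

/-! The Arad-Herzog property for the Suzuki groups. -/

set_option autoImplicit false

namespace Pool.Agent.MP_db74b1_al.Lt

open Pool.Agent.MP_db74b1_al.Exc Matrix

namespace Sz

variable {K : Type} [Field K]

abbrev Mat (K : Type) := Matrix (Fin 4) (Fin 4) K

def mW : Mat K := !![0,0,0,1; 0,0,1,0; 0,1,0,0; 1,0,0,0]
def mZ (u v : K) : Mat K := !![1,0,u,v; 0,1,0,u; 0,0,1,0; 0,0,0,1]
def mD (a b c d : K) : Mat K := !![a,0,0,0; 0,b,0,0; 0,0,c,0; 0,0,0,d]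
def mS : Mat K := !![1,1,0,1; 0,1,1,1; 0,0,1,1; 0,0,0,1]
def mSi : Mat K := !![1,1,1,1; 0,1,1,0; 0,0,1,1; 0,0,0,1]

theorem mW_mul : (mW : Mat K) * mW = 1 := by
  ext i j; fin_cases i <;> fin_cases j <;> simp [mW, mul_apply, Fin.sum_univ_four]

theorem mZ_mul (h2 : (2 : K) = 0) (u v : K) : mZ u v * mZ u v = 1 := by
  ext i j; fin_cases i <;> fin_cases j <;> simp [mZ, mul_apply, Fin.sum_univ_four]
  · linear_combination u * h2
  · linear_combination v * h2
  · linear_combination u * h2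

theorem mD_mul (a b c d : K) (ha : a ≠ 0) (hb : b ≠ 0) (hc : c ≠ 0) (hd : d ≠ 0) :
    mD a b c d * mD a⁻¹ b⁻¹ c⁻¹ d⁻¹ = 1 := by
  ext i j; fin_cases i <;> fin_cases j <;> simp [mD, mul_apply, Fin.sum_univ_four, *]

theorem mS_mul (h2 : (2 : K) = 0) : (mS : Mat K) * mSi = 1 := by
  ext i j; fin_cases i <;> fin_cases j <;> simp [mS, mSi, mul_apply, Fin.sum_univ_four] <;>
    linear_combination h2

theorem tr_Z (A B : Mat K) (u v : K) : trace (A * (mZ u v * B * mZ u v)) =
    trace (A * B) + u * (trace (A * (mZ 1 0 - 1) * B) + trace (A * B * (mZ 1 0 - 1))) +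
      v * (trace (A * (mZ 0 1 - 1) * B) + trace (A * B * (mZ 0 1 - 1))) +
      u ^ 2 * (A 2 0 * B 2 0 + A 3 1 * B 3 1 + A 3 0 * B 2 1 + A 2 1 * B 3 0) +
      u * v * (A 3 0 * (B 2 0 + B 3 1) + B 3 0 * (A 2 0 + A 3 1)) + v ^ 2 * (A 3 0 * B 3 0) := by
  simp only [trace, diag, mul_apply, Fin.sum_univ_four, Matrix.sub_apply]
  simp [mZ]
  ring

theorem coef (th : K →+* K) (h : ∀ t, th (th t) = t ^ 2) (h2 : (2 : K) = 0) {r : K}
    (hr : th r ≠ r) {c0 c1 c2 c3 c4 c5 τ : K}
    (hf : ∀ u, c0 + u * c1 + th u * c2 + u ^ 2 * c3 + u * th u * c4 + th u ^ 2 * c5 = τ) :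
    c4 = 0 ∧ c3 = 0 := by
  have hr' : th r - r ≠ 0 := sub_ne_zero.2 hr
  have h4 : c4 = 0 := by
    have e0 := hf 0
    have e1 := hf 1
    have e2 := hf r
    have e3 := hf (r + 1)
    simp only [map_zero, map_one, map_add] at e0 e1 e2 e3
    refine (mul_eq_zero.1 (?_ : (th r - r) * c4 = 0)).resolve_left hr'
    linear_combination e3 - e2 - e1 + e0 - (r * c3 + th r * c5 + r * c4) * h2
  refine ⟨h4, ?_⟩
  have g0 : ∀ u, u * c1 + th u * c2 + u ^ 2 * c3 + th u ^ 2 * c5 = 0 := by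
    intro u
    have e0 := hf 0
    have e1 := hf u
    simp only [map_zero, h4] at e0 e1
    linear_combination e1 - e0
  have g1 : ∀ u, th u * ((th r - r) * c2) + u ^ 2 * ((r ^ 2 - r) * c3) +
      th u ^ 2 * ((th r ^ 2 - r) * c5) = 0 := by
    intro u
    have e0 := g0 u
    have e1 := g0 (r * u)
    simp only [map_mul] at e1
    linear_combination e1 - r * e0
  have g2 : ∀ u, u ^ 2 * ((r ^ 2 - th r) * ((r ^ 2 - r) * c3)) +
      th u ^ 2 * ((th r ^ 2 - th r) * ((th r ^ 2 - r) * c5)) = 0 := by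
    intro u
    have e0 := g1 u
    have e1 := g1 (r * u)
    simp only [map_mul] at e1
    linear_combination e1 - th r * e0
  have g3 : (th r - r) ^ 2 * ((r ^ 2 - th r) * ((r ^ 2 - r) * c3)) = 0 := by
    have e0 := g2 1
    have e1 := g2 r
    simp only [map_one] at e0
    linear_combination e1 - th r ^ 2 * e0 +
      (th r ^ 2 - th r * r) * ((r ^ 2 - th r) * ((r ^ 2 - r) * c3)) * h2
  have n1 : r ^ 2 - th r ≠ 0 := by
    rw [sub_ne_zero, ← h r]; exact fun e => hr (th.injective e)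
  have n2 : r ^ 2 - r ≠ 0 := by
    intro e
    have : r * (r - 1) = 0 := by linear_combination e
    rcases mul_eq_zero.1 this with e | e
    · exact hr (by simp [e])
    · exact hr (by rw [sub_eq_zero.1 e, map_one])
  simpa [hr', n1, n2] using g3

theorem conj_D (A : Mat K) (a b c d a' b' c' d' : K) :
    (mD a b c d * A * mD a' b' c' d') 3 0 = d * a' * A 3 0 ∧
    (mD a b c d * A * mD a' b' c' d') 2 0 = c * a' * A 2 0 ∧
    (mD a b c d * A * mD a' b' c' d') 3 1 = d * b' * A 3 1 ∧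
    (mD a b c d * A * mD a' b' c' d') 2 1 = c * b' * A 2 1 := by
  refine ⟨?_, ?_, ?_, ?_⟩ <;> simp only [mul_apply, Fin.sum_univ_four] <;> simp [mD] <;> ring

theorem conj_S (A : Mat K) : (mS * A * mSi : Mat K) 2 1 = A 2 1 + A 2 0 + A 3 1 + A 3 0 := by
  simp only [mul_apply, Fin.sum_univ_four]; simp [mS, mSi]; ring

theorem conj_W (A : Mat K) (i j : Fin 4) : (mW * A * mW : Mat K) i j = A i.rev j.rev := by
  simp only [mul_apply, Fin.sum_univ_four]
  fin_cases i <;> fin_cases j <;> simp [mW]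

/-- The relation between two vectors spanning an isotropic plane and a point. -/
def Q (th : K →+* K) (x y z : Fin 4 → K) : Prop :=
  x 0 * y 3 + x 1 * y 2 + x 2 * y 1 + x 3 * y 0 = 0 ∧ x 0 * y 1 - x 1 * y 0 = th (z 0) ∧
    x 0 * y 2 - x 2 * y 0 = th (z 1) ∧ x 1 * y 3 - x 3 * y 1 = th (z 2) ∧
    x 2 * y 3 - x 3 * y 2 = th (z 3)

theorem Q.line {th : K →+* K} {x y : Fin 4 → K} (hq : Q th x y x) (h3 : x 3 = 0) :
    x 1 = 0 ∧ x 2 = 0 := by
  obtain ⟨q0, -, q2, q3, q4⟩ := hq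
  have h2 : x 2 = 0 := by
    by_contra hn
    have : x 2 * th (x 2) = 0 := by
      rw [h3, map_zero] at q4
      rw [h3] at q3
      linear_combination x 1 * q4 - x 2 * q3
    rcases mul_eq_zero.1 this with e | e
    · exact hn e
    · exact hn (by simpa using e)
  refine ⟨?_, h2⟩
  by_contra hn
  rw [h2, h3] at q0
  rw [h2, map_zero, h3] at q3
  rw [h2] at q2
  have y3 : y 3 = 0 := (mul_eq_zero.1 (by linear_combination q3 : x 1 * y 3 = 0)).resolve_left hn
  have y2 : y 2 = 0 := (mul_eq_zero.1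
    (by linear_combination q0 - x 0 * y3 : x 1 * y 2 = 0)).resolve_left hn
  have : th (x 1) = 0 := by linear_combination -q2 + x 0 * y2
  exact hn (by simpa using this)

section core

variable {G : Type} [Group G] (M : G →* Mat K)

theorem inv_eq {g : G} {A B : Mat K} (h : M g = A) (hAB : A * B = 1) : M g⁻¹ = B := by
  calc M g⁻¹ = M g⁻¹ * (M g * B) := by rw [h, hAB, mul_one]
    _ = B := by rw [← mul_assoc, ← map_mul, inv_mul_cancel, map_one, one_mul]

theorem cj {a p : G} (h : IsConj a p) (g : G) : IsConj a (g * p * g⁻¹) :=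
  h.trans (isConj_iff.2 ⟨g, rfl⟩)

theorem col {th : K →+* K} (h2 : (2 : K) = 0) {r : K} (hr : th r ≠ r) (A : Mat K)
    (c0 : A 1 0 = 0 ∧ A 2 0 = 0 ∧ A 3 0 = 0) (c3 : A 0 3 = 0 ∧ A 1 3 = 0 ∧ A 2 3 = 0)
    (hz : ∀ u, (mZ u (th u) * A * mZ u (th u)) 0 3 = 0 ∧ (mZ u (th u) * A * mZ u (th u)) 1 3 = 0 ∧
      (mZ u (th u) * A * mZ u (th u)) 2 3 = 0) :
    A 0 1 = 0 ∧ A 1 1 = A 0 0 ∧ A 2 1 = 0 ∧ A 3 1 = 0 ∧ A 3 3 = A 0 0 := by
  obtain ⟨a1, a2, a3⟩ := c0
  obtain ⟨b0, b1, b2⟩ := c3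
  have e : ∀ u, th u * A 0 0 + u * A 0 1 + u * (u * A 2 1) + th u * (u * A 3 1 + A 3 3) = 0 ∧
      u * A 1 1 + u * (u * A 3 1 + A 3 3) = 0 ∧ u * A 2 1 = 0 := by
    intro u
    obtain ⟨p0, p1, p2⟩ := hz u
    simp only [mul_apply, Fin.sum_univ_four] at p0 p1 p2
    simp [mZ, a1, a2, a3, b0, b1, b2] at p0 p1 p2
    refine ⟨by linear_combination p0, by linear_combination p1, ?_⟩
    rcases p2 with p | p <;> simp [p]
  obtain ⟨e0, e1, e2⟩ := e 1
  obtain ⟨f0, f1, -⟩ := e r
  rw [map_one] at e0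
  have r0 : r ≠ 0 := fun e => hr (by simp [e])
  have r1 : r - 1 ≠ 0 := fun e => hr (by rw [sub_eq_zero.1 e, map_one])
  have hr' : th r - r ≠ 0 := sub_ne_zero.2 hr
  have g21 : A 2 1 = 0 := by simpa using e2
  have g31 : A 3 1 = 0 := by
    have : r * ((r - 1) * A 3 1) = 0 := by linear_combination f1 - r * e1
    simpa [r0, r1] using this
  have g33 : A 3 3 = A 0 0 := by
    have : (th r - r) * (A 3 3 - A 0 0) = 0 := by
      rw [g21, g31] at e0 f0
      linear_combination f0 - r * e0 - (th r - r) * A 0 0 * h2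
    exact sub_eq_zero.1 ((mul_eq_zero.1 this).resolve_left hr')
  refine ⟨?_, ?_, g21, g31, g33⟩
  · rw [g21, g31, g33] at e0
    linear_combination e0 - A 0 0 * h2
  · rw [g31, g33] at e1
    linear_combination e1 - A 0 0 * h2

theorem core (th : K →+* K) (h : ∀ t, th (th t) = t ^ 2) (h2 : (2 : K) = 0) {r : K}
    (hr : th r ≠ r) (inj : Function.Injective M)
    (hQ : ∀ g, Q th (fun i => M g i 0) (fun i => M g i 1) (fun i => M g i 0))
    (hW : ∃ g, M g = mW) (hZ : ∀ u, ∃ g, M g = mZ u (th u))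
    (hD : ∃ g, M g = mD r (th r / r) (r / th r) r⁻¹) (hS : ∃ g, M g = mS) : AH G := by
  obtain ⟨w, hw⟩ := hW
  obtain ⟨d, hd⟩ := hD
  obtain ⟨s, hs⟩ := hS
  have r0 : r ≠ 0 := fun e => hr (by simp [e])
  have t0 : th r ≠ 0 := by simpa using r0
  have n1 : r ^ 2 - th r ≠ 0 := by
    rw [sub_ne_zero, ← h r]; exact fun e => hr (th.injective e)
  have hwi := inv_eq M hw mW_mul
  have hsi := inv_eq M hs (mS_mul h2)
  have hdi := inv_eq M hd (mD_mul _ _ _ _ r0 (div_ne_zero t0 r0) (div_ne_zero r0 t0)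
    (inv_ne_zero r0))
  have key : ∀ a : G, (∀ p, IsConj a p → M p 3 0 = 0) → a = 1 := by
    intro a ha
    have k0 : ∀ p, IsConj a p → M p 1 0 = 0 ∧ M p 2 0 = 0 ∧ M p 3 0 = 0 := fun p hp =>
      ⟨((hQ p).line (ha p hp)).1, ((hQ p).line (ha p hp)).2, ha p hp⟩
    have k3 : ∀ p, IsConj a p → M p 0 3 = 0 ∧ M p 1 3 = 0 ∧ M p 2 3 = 0 := by
      intro p hp
      have := k0 _ (cj hp w)
      simp only [map_mul, hw, hwi, conj_W] at this
      exact ⟨this.2.2, this.2.1, this.1⟩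
    have k1 : ∀ p, IsConj a p → M p 0 1 = 0 ∧ M p 1 1 = M p 0 0 ∧ M p 2 1 = 0 ∧ M p 3 1 = 0 ∧
        M p 3 3 = M p 0 0 := by
      intro p hp
      refine col (th := th) h2 hr _ (k0 p hp) (k3 p hp) fun u => ?_
      obtain ⟨z, hz⟩ := hZ u
      have := k3 _ (cj hp z)
      rwa [map_mul, map_mul, hz, inv_eq M hz (mZ_mul h2 _ _)] at this
    obtain ⟨a10, a20, a30⟩ := k0 a (IsConj.refl a)
    obtain ⟨a03, a13, a23⟩ := k3 a (IsConj.refl a)
    obtain ⟨a01, a11, a21, a31, a33⟩ := k1 a (IsConj.refl a)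
    have k2 := k1 _ (cj (IsConj.refl a) w)
    simp only [map_mul, hw, hwi, conj_W] at k2
    obtain ⟨a32, a22, a12, a02, -⟩ := k2
    change M a 3 2 = 0 at a32
    change M a 2 2 = M a 3 3 at a22
    change M a 1 2 = 0 at a12
    change M a 0 2 = 0 at a02
    have q1 := (hQ a).2.1
    simp only [a11, a10, zero_mul, sub_zero] at q1
    have m1 : th (M a 0 0) = M a 0 0 := th.injective (by rw [h, ← q1, sq])
    have m0 : M a 0 0 ≠ 0 := by
      intro e
      have : (M a⁻¹ * M a) 0 0 = 1 := by rw [← map_mul, inv_mul_cancel, map_one]; simp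
      simp [mul_apply, Fin.sum_univ_four, e, a10, a20, a30] at this
    have m2 : M a 0 0 = 1 := mul_left_cancel₀ m0 (by rw [q1, m1, mul_one])
    apply inj
    rw [map_one]
    ext i j
    fin_cases i <;> fin_cases j <;> simp [*]
  intro a b c ha hb hE
  have T : ∀ p q, IsConj a p → IsConj b q → trace (M p * M q) = trace (M c) := by
    intro p q hp hq
    have : p * q ∈ {g | IsConj c g} := hE ▸ ⟨p, q, hp, hq, rfl⟩
    obtain ⟨g, hg⟩ := isConj_iff.1 this
    rw [← map_mul, ← hg, map_mul, map_mul, trace_mul_comm, ← mul_assoc, ← map_mul, inv_mul_cancel,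
      map_one, one_mul]
  have C : ∀ p q, IsConj a p → IsConj b q →
      M p 3 0 * (M q 2 0 + M q 3 1) + M q 3 0 * (M p 2 0 + M p 3 1) = 0 ∧
      M p 2 0 * M q 2 0 + M p 3 1 * M q 3 1 + M p 3 0 * M q 2 1 + M p 2 1 * M q 3 0 = 0 := by
    intro p q hp hq
    have hf : ∀ u, trace (M p * (mZ u (th u) * M q * mZ u (th u))) = trace (M c) := by
      intro u
      obtain ⟨z, hz⟩ := hZ u
      have := T p _ hp (cj hq z)
      rwa [map_mul, map_mul, hz, inv_eq M hz (mZ_mul h2 _ _)] at this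
    simp only [tr_Z] at hf
    exact coef th h h2 hr hf
  by_contra
  obtain ⟨p, hp, p30⟩ : ∃ p, IsConj a p ∧ M p 3 0 ≠ 0 := by
    by_contra hn
    push Not at hn
    exact ha (key a hn)
  obtain ⟨q, hq, q30⟩ : ∃ q, IsConj b q ∧ M q 3 0 ≠ 0 := by
    by_contra hn
    push Not at hn
    exact hb (key b hn)
  have Dp : ∀ p, IsConj a p → ∃ p', IsConj a p' ∧ r ^ 2 * M p' 3 0 = M p 3 0 ∧
      th r * M p' 2 0 = M p 2 0 ∧ th r * M p' 3 1 = M p 3 1 ∧
      th r ^ 2 * M p' 2 1 = r ^ 2 * M p 2 1 := by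
    intro p hp
    refine ⟨_, cj hp d, ?_⟩
    obtain ⟨e0, e1, e2, e3⟩ := conj_D (M p) r (th r / r) (r / th r) r⁻¹ r⁻¹ (th r / r)⁻¹
      (r / th r)⁻¹ r⁻¹⁻¹
    rw [map_mul, map_mul, hd, hdi, e0, e1, e2, e3]
    refine ⟨?_, ?_, ?_, ?_⟩ <;> field_simp
  have β : M q 2 0 + M q 3 1 = 0 := by
    obtain ⟨p', hp', e0, e1, e2, -⟩ := Dp p hp
    have c1 := (C p q hp hq).1
    have c2 := (C p' q hp' hq).1
    have : (r ^ 2 - th r) * (M p 3 0 * (M q 2 0 + M q 3 1)) = 0 := by
      linear_combination r ^ 2 * c1 - r ^ 2 * th r * c2 + th r * (M q 2 0 + M q 3 1) * e0 +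
        r ^ 2 * M q 3 0 * (e1 + e2)
    simpa [n1, p30] using this
  have α : ∀ p, IsConj a p → M p 2 0 + M p 3 1 = 0 := by
    intro p hp
    have c1 := (C p q hp hq).1
    rw [β] at c1
    simpa [q30] using c1
  have γ : ∀ p, IsConj a p → M p 3 0 * M q 2 1 + M p 2 1 * M q 3 0 = 0 := by
    intro p hp
    linear_combination (C p q hp hq).2 - M q 2 0 * α p hp - M p 3 1 * β + M p 3 1 * M q 2 0 * h2
  have δ : ∀ p, IsConj a p → M p 2 1 = 0 := by
    intro p hp
    obtain ⟨p', hp', e0, -, -, e3⟩ := Dp p hp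
    have : (r ^ 2 - th r) ^ 2 * (M p 2 1 * M q 3 0) = 0 := by
      linear_combination r ^ 2 * th r ^ 2 * γ p' hp' - th r ^ 2 * γ p hp -
        th r ^ 2 * M q 2 1 * e0 - r ^ 2 * M q 3 0 * e3 +
        (th r ^ 2 - r ^ 2 * th r) * (M p 2 1 * M q 3 0) * h2
    simpa [n1, q30] using this
  have := δ _ (cj hp s)
  rw [map_mul, map_mul, hs, hsi, conj_S] at this
  exact p30 (by linear_combination this - δ p hp - α p hp)

end core

/-- The short root element as a linear automorphism. -/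
def xs (i : Bool) (t : K) : (Fin 4 → K) ≃ₗ[K] (Fin 4 → K) where
  toFun := b2s i t
  invFun := b2s i (-t)
  map_add' x y := by ext j; cases i <;> fin_cases j <;> simp [b2s] <;> ring
  map_smul' c x := by ext j; cases i <;> fin_cases j <;> simp [b2s] <;> ring
  left_inv x := by ext j; cases i <;> fin_cases j <;> simp [b2s]
  right_inv x := by ext j; cases i <;> fin_cases j <;> simp [b2s]

/-- The long root element as a linear automorphism. -/
def xl (i : Bool) (t : K) : (Fin 4 → K) ≃ₗ[K] (Fin 4 → K) where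
  toFun := b2l i t
  invFun := b2l i (-t)
  map_add' x y := by ext j; cases i <;> fin_cases j <;> simp [b2l] <;> ring
  map_smul' c x := by ext j; cases i <;> fin_cases j <;> simp [b2l] <;> ring
  left_inv x := by ext j; cases i <;> fin_cases j <;> simp [b2l]
  right_inv x := by ext j; cases i <;> fin_cases j <;> simp [b2l]

abbrev CC (K : Type) [Field K] := gen (b2s (K := K)) b2l

def sC (i : Bool) (t : K) : CC K := ⟨xs i t, Subgroup.subset_closure ⟨i, t, Or.inl rfl⟩⟩
def lC (i : Bool) (t : K) : CC K := ⟨xl i t, Subgroup.subset_closure ⟨i, t, Or.inr rfl⟩⟩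

/-- The matrix of an element. -/
def toM : CC K →* Mat K where
  toFun g := LinearMap.toMatrix' (g.1 : (Fin 4 → K) →ₗ[K] (Fin 4 → K))
  map_one' := by simp
  map_mul' g h := by
    rw [← LinearMap.toMatrix'_mul]; rfl

theorem toM_apply (g : CC K) (i j : Fin 4) : toM g i j = g.1 (Pi.single j 1) i := by
  simp [toM, LinearMap.toMatrix'_apply]

theorem toM_inj : Function.Injective (toM (K := K)) := by
  intro g h e
  exact Subtype.ext (LinearEquiv.toLinearMap_injective (LinearMap.toMatrix'.injective e))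

def sT (t : K) : Mat K := !![1,t,0,0; 0,1,0,0; 0,0,1,t; 0,0,0,1]
def sF (t : K) : Mat K := !![1,0,0,0; t,1,0,0; 0,0,1,0; 0,0,t,1]
def lT (t : K) : Mat K := !![1,0,0,0; 0,1,t,0; 0,0,1,0; 0,0,0,1]
def lF (t : K) : Mat K := !![1,0,0,0; 0,1,0,0; 0,t,1,0; 0,0,0,1]
def nA : Mat K := !![0,1,0,0; 1,0,0,0; 0,0,0,1; 0,0,1,0]
def nB : Mat K := !![1,0,0,0; 0,0,1,0; 0,1,0,0; 0,0,0,1]

theorem toM_sT (t : K) : toM (sC true t) = sT t := by
  ext i j; rw [toM_apply]; change b2s true t _ i = _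
  fin_cases i <;> fin_cases j <;> simp [b2s, sT]

theorem toM_sF (t : K) : toM (sC false t) = sF t := by
  ext i j; rw [toM_apply]; change b2s false t _ i = _
  fin_cases i <;> fin_cases j <;> simp [b2s, sF]

theorem toM_lT (t : K) : toM (lC true t) = lT t := by
  ext i j; rw [toM_apply]; change b2l true t _ i = _
  fin_cases i <;> fin_cases j <;> simp [b2l, lT]

theorem toM_lF (t : K) : toM (lC false t) = lF t := by
  ext i j; rw [toM_apply]; change b2l false t _ i = _
  fin_cases i <;> fin_cases j <;> simp [b2l, lF]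

theorem Q.sl {th : K →+* K} (h : ∀ t, th (th t) = t ^ 2) (h2 : (2 : K) = 0) (i : Bool) (t : K)
    {x y z : Fin 4 → K} (hq : Q th x y z) :
    Q th (b2s i t x) (b2s i t y) (b2l i (th t) z) := by
  obtain ⟨q0, q1, q2, q3, q4⟩ := hq
  cases i <;> refine ⟨?_, ?_, ?_, ?_, ?_⟩ <;> simp [b2s, b2l, h]
  · linear_combination q0 + t * (x 0 * y 2 + x 2 * y 0) * h2
  · linear_combination q1
  · linear_combination q2
  · linear_combination q3 + t ^ 2 * q2 + t * q0 - t * (x 2 * y 1 + x 3 * y 0) * h2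
  · linear_combination q4
  · linear_combination q0 + t * (x 1 * y 3 + x 3 * y 1) * h2
  · linear_combination q1
  · linear_combination q2 + t ^ 2 * q3 + t * q0 - t * (x 2 * y 1 + x 3 * y 0) * h2
  · linear_combination q3
  · linear_combination q4

theorem Q.ls {th : K →+* K} (h2 : (2 : K) = 0) (i : Bool) (t : K)
    {x y z : Fin 4 → K} (hq : Q th x y z) :
    Q th (b2l i (th t) x) (b2l i (th t) y) (b2s i t z) := by
  obtain ⟨q0, q1, q2, q3, q4⟩ := hq
  cases i <;> refine ⟨?_, ?_, ?_, ?_, ?_⟩ <;> simp [b2s, b2l]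
  · linear_combination q0 + th t * (x 1 * y 1) * h2
  · linear_combination q1
  · linear_combination q2 + th t * q1
  · linear_combination q3
  · linear_combination q4 + th t * q3
  · linear_combination q0 + th t * (x 2 * y 2) * h2
  · linear_combination q1 + th t * q2
  · linear_combination q2
  · linear_combination q3 + th t * q4
  · linear_combination q4

section sigma

variable {th : K →+* K} {σ : CC K →* CC K}

theorem sig_s (hs : ∀ (g : CC K) i t, ⇑g.1 = b2s i t → ⇑(σ g).1 = b2l i (th t)) (i : Bool)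
    (t : K) : σ (sC i t) = lC i (th t) :=
  Subtype.ext (DFunLike.coe_injective (hs (sC i t) i t rfl))

theorem rel [Finite K] (h : ∀ t, th (th t) = t ^ 2) (h2 : (2 : K) = 0)
    (hi : ∀ g, σ (σ g) = g)
    (hs : ∀ (g : CC K) i t, ⇑g.1 = b2s i t → ⇑(σ g).1 = b2l i (th t)) (g : CC K) :
    ∀ x y z, Q th x y z → Q th (g.1 x) (g.1 y) ((σ g).1 z) := by
  have gen1 : ∀ g : CC K, (∃ i t, ⇑g.1 = b2s i t ∨ ⇑g.1 = b2l i t) →
      g⁻¹ = g ∧ ∀ x y z, Q th x y z → Q th (g.1 x) (g.1 y) ((σ g).1 z) := by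
    rintro g ⟨i, t, e | e⟩
    · refine ⟨?_, fun x y z hq => ?_⟩
      · refine inv_eq_of_mul_eq_one_right (Subtype.ext (LinearEquiv.ext fun x => ?_))
        change g.1 (g.1 x) = x
        rw [e]; ext j
        cases i <;> fin_cases j <;> simp [b2s]
        · linear_combination t * x 0 * h2
        · linear_combination t * x 2 * h2
        · linear_combination t * x 1 * h2
        · linear_combination t * x 3 * h2
      · rw [hs g i t e, e]; exact hq.sl h h2 i t
    · refine ⟨?_, fun x y z hq => ?_⟩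
      · refine inv_eq_of_mul_eq_one_right (Subtype.ext (LinearEquiv.ext fun x => ?_))
        change g.1 (g.1 x) = x
        rw [e]; ext j
        cases i <;> fin_cases j <;> simp [b2l]
        · linear_combination t * x 1 * h2
        · linear_combination t * x 2 * h2
      · obtain ⟨t, rfl⟩ := Finite.surjective_of_injective th.injective t
        have : g = σ (sC i t) := by
          rw [sig_s hs]; exact Subtype.ext (DFunLike.coe_injective e)
        rw [e, this, hi]
        exact hq.ls h2 i t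
  obtain ⟨g, hg⟩ := g
  induction hg using Subgroup.closure_induction_left with
  | one =>
    intro x y z hq
    have : σ ⟨1, one_mem _⟩ = 1 := map_one σ
    rw [this]; exact hq
  | mul_left a ha b hb ih =>
    intro x y z hq
    have : σ ⟨a * b, mul_mem (Subgroup.subset_closure ha) hb⟩ =
      σ ⟨a, Subgroup.subset_closure ha⟩ * σ ⟨b, hb⟩ := map_mul σ ⟨a, _⟩ ⟨b, hb⟩
    rw [this]
    exact (gen1 ⟨a, Subgroup.subset_closure ha⟩ ha).2 _ _ _ (ih x y z hq)
  | inv_mul_cancel a ha b hb ih =>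
    intro x y z hq
    obtain ⟨e, r⟩ := gen1 ⟨a, Subgroup.subset_closure ha⟩ ha
    have e' : a⁻¹ = a := congrArg Subtype.val e
    have : σ ⟨a⁻¹ * b, mul_mem (inv_mem (Subgroup.subset_closure ha)) hb⟩ =
        σ ⟨a, Subgroup.subset_closure ha⟩ * σ ⟨b, hb⟩ := by
      rw [← map_mul]; congr 1; exact Subtype.ext (by simp [e'])
    rw [this]
    simp only [e']
    exact r _ _ _ (ih x y z hq)

/-- `A` is the matrix of an element whose image under `σ` has matrix `A'`. -/
def P (σ : CC K →* CC K) (A A' : Mat K) : Prop := ∃ g, toM g = A ∧ toM (σ g) = A'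

theorem P.mul {A A' B B' : Mat K} (h : P σ A A') (h' : P σ B B') : P σ (A * B) (A' * B') := by
  obtain ⟨g, rfl, rfl⟩ := h
  obtain ⟨g', rfl, rfl⟩ := h'
  exact ⟨g * g', by simp, by simp⟩

theorem P.symm (hi : ∀ g, σ (σ g) = g) {A A' : Mat K} (h : P σ A A') : P σ A' A := by
  obtain ⟨g, rfl, rfl⟩ := h
  exact ⟨σ g, rfl, by rw [hi]⟩

theorem P.fix {A A' B : Mat K} (h : P σ A A') (e : A = B) (e' : A' = B) :
    ∃ g : σ.eqLocus (MonoidHom.id _), (toM.comp (Subgroup.subtype _)) g = B := by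
  obtain ⟨g, rfl, rfl⟩ := h
  exact ⟨⟨g, toM_inj (e'.trans e.symm)⟩, e⟩

end sigma

theorem nA_eq (h2 : (2 : K) = 0) : sT 1 * sF 1 * sT 1 = (nA : Mat K) := by
  ext i j; simp only [mul_apply, Fin.sum_univ_four]
  fin_cases i <;> fin_cases j <;> simp [sT, sF, nA] <;> linear_combination h2

theorem nB_eq (h2 : (2 : K) = 0) : lT 1 * lF 1 * lT 1 = (nB : Mat K) := by
  ext i j; simp only [mul_apply, Fin.sum_univ_four]
  fin_cases i <;> fin_cases j <;> simp [lT, lF, nB] <;> linear_combination h2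

theorem hA_eq (h2 : (2 : K) = 0) {k : K} (hk : k ≠ 0) :
    sT k * sF k⁻¹ * sT k * nA = mD k k⁻¹ k k⁻¹ := by
  have h1 : (1 + 1 : K) = 0 := by linear_combination h2
  ext i j; simp only [mul_apply, Fin.sum_univ_four]
  fin_cases i <;> fin_cases j <;> simp [sT, sF, nA, mD, hk, h1]

theorem hB_eq (h2 : (2 : K) = 0) {k : K} (hk : k ≠ 0) :
    lT k * lF k⁻¹ * lT k * nB = mD 1 k k⁻¹ 1 := by
  have h1 : (1 + 1 : K) = 0 := by linear_combination h2
  ext i j; simp only [mul_apply, Fin.sum_univ_four]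
  fin_cases i <;> fin_cases j <;> simp [lT, lF, nB, mD, hk, h1]

theorem zA_eq (u : K) : nB * sT u * nB = mZ u 0 := by
  ext i j; simp only [mul_apply, Fin.sum_univ_four]
  fin_cases i <;> fin_cases j <;> simp [sT, nB, mZ]

theorem zB_eq (v : K) : nA * lT v * nA = mZ 0 v := by
  ext i j; simp only [mul_apply, Fin.sum_univ_four]
  fin_cases i <;> fin_cases j <;> simp [lT, nA, mZ]

theorem AH_congr {G H : Type} [Group G] [Group H] (f : G ≃* H) (h : AH G) : AH H := by
  intro x y z hx hy hE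
  obtain ⟨x, rfl⟩ := f.surjective x
  obtain ⟨y, rfl⟩ := f.surjective y
  obtain ⟨z, rfl⟩ := f.surjective z
  have hc : ∀ p q : G, IsConj (f p) (f q) ↔ IsConj p q := fun p q =>
    ⟨fun h => by simpa using f.symm.toMonoidHom.map_isConj h, fun h => f.toMonoidHom.map_isConj h⟩
  refine h x y z (fun h => hx (by simp [h])) (fun h => hy (by simp [h])) ?_
  ext g
  have := Set.ext_iff.1 hE (f g)
  simp only [Set.mem_ofPred_eq, f.surjective.exists, hc, ← map_mul, f.injective.eq_iff] at this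
  exact this

end Sz

open Sz in
theorem sz_AH {K : Type} [Field K] [Finite K] (th : K →+* K) (h : ∀ t, th (th t) = t ^ 2)
    (hK : 2 < Nat.card K) (G : Type) [Group G] (hG : IsSR G (b2s (K := K)) b2l th) :
    Exc.AH G := by
  obtain ⟨σ, hi, hs, ⟨f⟩⟩ := hG
  have h2 : (2 : K) = 0 := by
    have := h (1 + 1)
    simp only [map_add, map_one] at this
    linear_combination -this
  obtain ⟨r, hr⟩ : ∃ r, th r ≠ r := by
    by_contra hn
    push Not at hn
    have : (Set.univ : Set K) ⊆ {0, 1} := by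
      intro r _
      have e : r * (r - 1) = 0 := by linear_combination hn r + hn (th r) - h r
      rcases mul_eq_zero.1 e with e | e
      · exact Or.inl e
      · exact Or.inr (sub_eq_zero.1 e)
    have h1 := Set.ncard_le_ncard this
    have h3 := Set.ncard_insert_le (0 : K) {1}
    rw [Set.ncard_univ] at h1
    rw [Set.ncard_singleton] at h3
    omega
  have r0 : r ≠ 0 := fun e => hr (by simp [e])
  have t0 : th r ≠ 0 := by simpa using r0
  have pT : ∀ t, P σ (sT t) (lT (th t)) := fun t =>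
    ⟨sC true t, toM_sT t, by rw [sig_s hs, toM_lT]⟩
  have pF : ∀ t, P σ (sF t) (lF (th t)) := fun t =>
    ⟨sC false t, toM_sF t, by rw [sig_s hs, toM_lF]⟩
  have pN : P σ nA nB := by
    have := ((pT 1).mul (pF 1)).mul (pT 1)
    rwa [map_one, nA_eq h2, nB_eq h2] at this
  have pZ : ∀ u, P σ (mZ u 0) (mZ 0 (th u)) := fun u => by
    have := ((pN.symm hi).mul (pT u)).mul (pN.symm hi)
    rwa [zA_eq, zB_eq] at this
  have pD : P σ (mD r r⁻¹ r r⁻¹) (mD 1 (th r) (th r)⁻¹ 1) := by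
    have := (((pT r).mul (pF r⁻¹)).mul (pT r)).mul pN
    rwa [map_inv₀, hA_eq h2 r0, hB_eq h2 t0] at this
  have h1 : (1 + 1 : K) = 0 := by linear_combination h2
  refine AH_congr f.symm (core (toM.comp (Subgroup.subtype _)) th h h2 hr
    (toM_inj.comp Subtype.val_injective) (fun g => ?_) ?_ (fun u => ?_) ?_ ?_)
  · have q0 : Q th (Pi.single 0 1) (Pi.single 1 1) (Pi.single 0 1) := by
      simp [Q]
    have := rel h h2 hi hs g.1 _ _ _ q0
    have e : σ g.1 = g.1 := g.2
    rw [e] at this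
    simpa only [MonoidHom.comp_apply, Subgroup.subtype_apply, toM_apply] using this
  · refine ((pN.mul (pN.symm hi)).mul (pN.mul (pN.symm hi))).fix ?_ ?_ <;>
    · ext i j; simp only [mul_apply, Fin.sum_univ_four]
      fin_cases i <;> fin_cases j <;> simp [nA, nB, mW]
  · refine ((pZ u).mul ((pZ u).symm hi)).fix ?_ ?_ <;>
    · ext i j; simp only [mul_apply, Fin.sum_univ_four]
      fin_cases i <;> fin_cases j <;> simp [mZ]
  · refine (pD.mul (pD.symm hi)).fix ?_ ?_ <;>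
    · ext i j; simp only [mul_apply, Fin.sum_univ_four]
      fin_cases i <;> fin_cases j <;> simp [mD, div_eq_mul_inv, mul_comm]
  · refine (((pT 1).mul ((pT 1).symm hi)).mul (pZ 1)).fix ?_ ?_ <;>
    · ext i j; simp only [mul_apply, Fin.sum_univ_four]
      fin_cases i <;> fin_cases j <;> simp [sT, lT, mZ, mS, h1]

end Pool.Agent.MP_db74b1_al.Lt
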