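import Pool.Agent.MP_db74b1_al.LtTriA

/-! The trace identity for `G₂` and `³D₄`: if the product of two classes lies in one class then one
of the two elements moves no point to an opposite point. -/

set_option autoImplicit false
set_option linter.unnecessarySeqFocus false
set_option linter.unusedSimpArgs false
set_option linter.unusedSectionVars false

namespace Pool.Agent.MP_db74b1_al.Lt.Tri

variable {K : Type} [Field K]

namespace F42

/-- trace -/
def T (g : GO K) : K := ∑ i, g (e i) i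

theorem app_eq (a : GO K) (x : O K) (i : Fin 8) : a x i = ∑ j, x j * a (e j) i := by
  have hx : x = ∑ j, x j • e j := by
    ext k; simp [e, Finset.sum_apply, Pi.single_apply]
  conv_lhs => rw [hx, map_sum]
  simp [Finset.sum_apply]

theorem T_mul (a b : GO K) : T (a * b) = ∑ i, ∑ j, b (e i) j * a (e j) i := by
  unfold T
  refine Finset.sum_congr rfl fun i _ => ?_
  rw [LinearEquiv.mul_apply, app_eq]

theorem T_comm (a b : GO K) : T (a * b) = T (b * a) := by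
  rw [T_mul, T_mul, Finset.sum_comm]
  exact Finset.sum_congr rfl fun i _ => Finset.sum_congr rfl fun j _ => mul_comm _ _

theorem T_cj {τ : K →+* K} {c d : GO K} (h : Cj τ c d) : T d = T c := by
  obtain ⟨p, -, rfl⟩ := h
  rw [T_comm, ← mul_assoc, inv_mul_cancel, one_mul]

/-- Gram form -/
def G (a : GO K) (x y : O K) : K := Bf x (a y)

theorem G_addl (a : GO K) (x x' y : O K) : G a (x + x') y = G a x y + G a x' y := by
  simp [G, Bf]; ring

theorem G_addr (a : GO K) (x y y' : O K) : G a x (y + y') = G a x y + G a x y' := by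
  simp [G, Bf]; ring

theorem G_smull (a : GO K) (c : K) (x y : O K) : G a (c • x) y = c * G a x y := by
  simp [G, Bf]; ring

theorem G_smulr (a : GO K) (c : K) (x y : O K) : G a x (c • y) = c * G a x y := by
  simp [G, Bf]; ring

theorem G1 (a : GO K) (y : O K) : G a (e 1) y = -a y 4 := by simp [G, Bf, e]
theorem G5 (a : GO K) (y : O K) : G a (e 5) y = -a y 2 := by simp [G, Bf, e]
theorem G6 (a : GO K) (y : O K) : G a (e 6) y = -a y 3 := by simp [G, Bf, e]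

theorem X_inv (s t : K) (i : Fin 8) : (l13 t * l12 s : GO K)⁻¹ (e i) =
    e i - (if i = 2 then s else if i = 3 then t else 0) • e 1 +
      (if i = 4 then s else 0) • e 5 + (if i = 4 then t else 0) • e 6 := by
  rw [mul_inv_rev, l12_inv, l13_inv, LinearEquiv.mul_apply]
  fin_cases i <;> apply ext8 <;> simp [l12_apply, l13_apply, e]

theorem T_exp (a b : GO K) (s t : K) :
    T (a * ((l13 t * l12 s) * b * (l13 t * l12 s)⁻¹)) = T (a * b)
      + s * ((b * a) (e 1) 2 - (b * a) (e 5) 4 - (a * b) (e 1) 2 + (a * b) (e 5) 4)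
      + t * ((b * a) (e 1) 3 - (b * a) (e 6) 4 - (a * b) (e 1) 3 + (a * b) (e 6) 4)
      - s ^ 2 * (a (e 1) 2 * b (e 1) 2 - a (e 1) 4 * b (e 5) 2 - a (e 5) 2 * b (e 1) 4
          + a (e 5) 4 * b (e 5) 4)
      - t ^ 2 * (a (e 1) 3 * b (e 1) 3 - a (e 1) 4 * b (e 6) 3 - a (e 6) 3 * b (e 1) 4
          + a (e 6) 4 * b (e 6) 4)
      - s * t * (a (e 1) 2 * b (e 1) 3 + a (e 1) 3 * b (e 1) 2 + a (e 6) 4 * b (e 5) 4
          + a (e 5) 4 * b (e 6) 4 - a (e 1) 4 * (b (e 5) 3 + b (e 6) 2)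
          - b (e 1) 4 * (a (e 6) 2 + a (e 5) 3)) := by
  rw [T_mul, T_mul]
  simp only [LinearEquiv.mul_apply, X_inv, app_eq b (a _), app_eq a (b _)]
  simp only [Fin.sum_univ_eight, map_add, map_sub, map_smul]
  simp [l12_apply, l13_apply]
  ring

end F42

open F42

variable {τ : K →+* K} (h3 : ∀ t, τ (τ (τ t)) = t)
include h3

theorem F42.G_cj {p : GO K} (hp : p ∈ tri τ) (a : GO K) (x y : O K) :
    G (p⁻¹ * a * p) x y = G a (p x) (p y) := by
  have := Bf_conj h3 (inv_mem hp) a x y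
  rw [inv_inv] at this
  exact this

omit h3 in
theorem F42.cj_of {p : GO K} (hp : p ∈ tri τ) (a : GO K) : Cj τ a (p⁻¹ * a * p) :=
  ⟨p⁻¹, inv_mem hp, by rw [inv_inv]⟩

omit h3 in
theorem F42.T_const {a b : GO K} (h : SC τ a b) {a' b' : GO K} (ha : Cj τ a a') (hb : Cj τ b b')
    {s t : K} (hs : τ s = s) (ht : τ t = t) :
    T (a' * ((l13 t * l12 s) * b' * (l13 t * l12 s)⁻¹)) = T (a' * b') := by
  obtain ⟨c, h⟩ := h
  rw [T_cj (h a' b' ha hb), T_cj (h a' _ ha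
    (hb.trans ⟨_, mul_mem (l13_mem ht) (l12_mem hs), rfl⟩))]

theorem F42.po {a b : GO K} (h : SC τ a b) {p q : GO K} (hp : p ∈ tri τ) (hq : q ∈ tri τ) :
    G a (p (e 5)) (p (e 1)) * G b (q (e 6)) (q (e 1))
      + G a (p (e 6)) (p (e 1)) * G b (q (e 5)) (q (e 1))
      + G a (p (e 1)) (p (e 6)) * G b (q (e 1)) (q (e 5))
      + G a (p (e 1)) (p (e 5)) * G b (q (e 1)) (q (e 6))
      - G a (p (e 1)) (p (e 1)) * (G b (q (e 6)) (q (e 5)) + G b (q (e 5)) (q (e 6)))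
      - G b (q (e 1)) (q (e 1)) * (G a (p (e 5)) (p (e 6)) + G a (p (e 6)) (p (e 5))) = 0 := by
  have h11 := T_const h (cj_of hp a) (cj_of hq b) (map_one τ) (map_one τ)
  have h10 := T_const h (cj_of hp a) (cj_of hq b) (map_one τ) (map_zero τ)
  have h01 := T_const h (cj_of hp a) (cj_of hq b) (map_zero τ) (map_one τ)
  rw [T_exp] at h11 h10 h01
  simp only [← G_cj h3 hp, ← G_cj h3 hq, G1, G5, G6]
  linear_combination h10 + h01 - h11

theorem F42.star {a b : GO K} (h : SC τ a b) {p q : GO K} (hp : p ∈ tri τ) (hq : q ∈ tri τ) :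
    G a (p (e 1)) (p (e 1)) * (G b (q (e 5)) (q (e 1)) + G b (q (e 1)) (q (e 5))) =
      G b (q (e 1)) (q (e 1)) * (G a (p (e 5)) (p (e 1)) + G a (p (e 1)) (p (e 5))) := by
  have k1 : xv2 τ 1 (e 1) = e 1 := by apply ext8 <;> simp [xv2_apply, e]
  have k5 : xv2 τ 1 (e 5) = e 5 := by apply ext8 <;> simp [xv2_apply, e]
  have k6 : xv2 τ 1 (e 6) = e 6 + e 1 := by apply ext8 <;> simp [xv2_apply, e]
  have h1 := po h3 h hp hq
  have h2 := po h3 h (mul_mem hp (xv2_mem h3 1)) hq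
  simp only [LinearEquiv.mul_apply, k1, k5, k6, map_add, G_addl, G_addr] at h2
  linear_combination h2 - h1

omit h3 in
theorem F42.xv3_1 : xv3 τ (-1) (e 1) = e 1 := by apply ext8 <;> simp [xv3_apply, e]

omit h3 in
theorem F42.xv3_5 : xv3 τ (-1) (e 5) = e 5 + e 1 := by apply ext8 <;> simp [xv3_apply, e]

theorem F42.two {a b : GO K} (h : SC τ a b) {p q : GO K} (hp : p ∈ tri τ) (hq : q ∈ tri τ) :
    2 * (G a (p (e 1)) (p (e 1)) * G b (q (e 1)) (q (e 1))) = 0 := by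
  have h1 := star h3 h hp hq
  have h2 := star h3 h (mul_mem hp (xv3_mem h3 (-1))) hq
  simp only [LinearEquiv.mul_apply, xv3_1, xv3_5, map_add, G_addl, G_addr] at h2
  linear_combination h1 - h2

theorem F42.lin {a b : GO K} (ha : a ∈ tri τ) (hb : b ∈ tri τ) (h2 : (2 : K) = 0)
    (sa : G a (e 1) (e 5) = G a (e 5) (e 1)) (sb : G b (e 1) (e 5) = G b (e 5) (e 1))
    {α β : K} (hα : ∀ x, a x + a⁻¹ x = α • x) (hβ : ∀ x, b x + b⁻¹ x = β • x) :
    (b * a) (e 1) 2 - (b * a) (e 5) 4 - (a * b) (e 1) 2 + (a * b) (e 5) 4 = 0 := by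
  have key : ∀ {c d : GO K} {γ : K}, c ∈ tri τ → (∀ x, c x + c⁻¹ x = γ • x) → ∀ x y,
      G (c * d) x y = γ * G d x y - Bf (c x) (d y) := by
    intro c d γ hc hγ x y
    have h1 : c⁻¹ x = γ • x - c x := by rw [← hγ]; abel
    unfold G
    rw [LinearEquiv.mul_apply, Bf_inv h3 hc, h1]
    simp [Bf]; ring
  have e1 := key (d := b) ha hα (e 5) (e 1)
  have e2 := key (d := b) ha hα (e 1) (e 5)
  have e3 := key (d := a) hb hβ (e 5) (e 1)
  have e4 := key (d := a) hb hβ (e 1) (e 5)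
  rw [Bf_comm] at e3 e4
  rw [G5] at e1 e3
  rw [G1] at e2 e4
  linear_combination e1 - e2 - e3 + e4 - α * sb + β * sa
    + (Bf (a (e 1)) (b (e 5)) - Bf (a (e 5)) (b (e 1))) * h2

theorem F42.main
    (hS : ∀ {a : GO K}, a ∈ tri τ → Sy τ a → (2 : K) = 0 → (∃ t, τ t ≠ t) →
      ∃ α : K, ∀ x, a x + a⁻¹ x = α • x)
    {a b : GO K} (ha : a ∈ tri τ) (hb : b ∈ tri τ) (h : SC τ a b)
    (hr : (∃ r, τ r = r ∧ r ≠ 0 ∧ r ≠ 1) ∨ ((2 : K) = 0 ∧ ∃ t, τ t ≠ t)) :
    Tri.QS τ a ∨ Tri.QS τ b := by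
  by_contra hcon
  rw [not_or] at hcon
  obtain ⟨hna, hnb⟩ := hcon
  unfold Tri.QS at hna hnb
  push Not at hna hnb
  obtain ⟨p₀, hp₀, hna⟩ := hna
  obtain ⟨q₀, hq₀, hnb⟩ := hnb
  change G a (p₀ (e 1)) (p₀ (e 1)) ≠ 0 at hna
  change G b (q₀ (e 1)) (q₀ (e 1)) ≠ 0 at hnb
  have h2 : (2 : K) = 0 := (mul_eq_zero.1 (two h3 h hp₀ hq₀)).resolve_right (mul_ne_zero hna hnb)
  obtain ⟨g, g0, g1⟩ : ∃ g : K, g ≠ 0 ∧ g ≠ 1 := by
    rcases hr with ⟨r, -, r0, r1⟩ | ⟨-, t, ht⟩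
    · exact ⟨r, r0, r1⟩
    · exact ⟨t, fun h => ht (by rw [h, map_zero]), fun h => ht (by rw [h, map_one])⟩
  have g2 : g ^ 2 - 1 ≠ 0 := fun hh => g1 (by
    have : (g - 1) ^ 2 = 0 := by linear_combination hh + (1 - g) * h2
    exact sub_eq_zero.1 (pow_eq_zero_iff two_ne_zero |>.1 this))
  have k1 : tor τ g0 (e 1) = g • e 1 := by apply ext8 <;> simp [tor_apply, e]
  have k5 : tor τ g0 (e 5) = g⁻¹ • e 5 := by apply ext8 <;> simp [tor_apply, e]
  have sb : Sy τ b := by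
    intro q hq
    have h1 := star h3 h hp₀ hq
    have h1' := star h3 h (mul_mem hp₀ (tor_mem h3 g0)) hq
    simp only [LinearEquiv.mul_apply, k1, k5, map_smul, G_smull, G_smulr,
      mul_inv_cancel_left₀ g0, inv_mul_cancel_left₀ g0] at h1'
    have h4 : (g ^ 2 - 1) * G a (p₀ (e 1)) (p₀ (e 1)) *
        (G b (q (e 5)) (q (e 1)) + G b (q (e 1)) (q (e 5))) = 0 := by
      linear_combination h1' - h1
    have h5 := (mul_eq_zero.1 h4).resolve_left (mul_ne_zero g2 hna)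
    change G b (q (e 1)) (q (e 5)) = G b (q (e 5)) (q (e 1))
    linear_combination h5 - G b (q (e 5)) (q (e 1)) * h2
  have sa : Sy τ a := by
    intro p hp
    have h1 := star h3 h hp hq₀
    have h4 : G b (q₀ (e 1)) (q₀ (e 5)) = G b (q₀ (e 5)) (q₀ (e 1)) := sb q₀ hq₀
    have h5 : G b (q₀ (e 1)) (q₀ (e 1)) *
        (G a (p (e 5)) (p (e 1)) + G a (p (e 1)) (p (e 5))) = 0 := by
      linear_combination -h1 + G a (p (e 1)) (p (e 1)) * h4
        + G a (p (e 1)) (p (e 1)) * G b (q₀ (e 5)) (q₀ (e 1)) * h2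
    have h6 := (mul_eq_zero.1 h5).resolve_left hnb
    change G a (p (e 1)) (p (e 5)) = G a (p (e 5)) (p (e 1))
    linear_combination h6 - G a (p (e 5)) (p (e 1)) * h2
  have hQ : ∀ p ∈ tri τ, G a (p (e 1)) (p (e 1)) * G b (q₀ (e 5)) (q₀ (e 5)) +
      G a (p (e 5)) (p (e 5)) * G b (q₀ (e 1)) (q₀ (e 1)) = 0 := by
    intro p hp
    have ca := cj_of hp a
    have cb := cj_of hq₀ b
    have sa' : G (p⁻¹ * a * p) (e 1) (e 5) = G (p⁻¹ * a * p) (e 5) (e 1) := by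
      rw [G_cj h3 hp, G_cj h3 hp]; exact sa p hp
    have sb' : G (q₀⁻¹ * b * q₀) (e 1) (e 5) = G (q₀⁻¹ * b * q₀) (e 5) (e 1) := by
      rw [G_cj h3 hq₀, G_cj h3 hq₀]; exact sb q₀ hq₀
    have h10 := T_const h ca cb (map_one τ) (map_zero τ)
    rw [T_exp] at h10
    simp only [← G_cj h3 hp, ← G_cj h3 hq₀]
    generalize p⁻¹ * a * p = a' at ca sa' h10 ⊢
    generalize q₀⁻¹ * b * q₀ = b' at cb sb' h10 ⊢
    have hQ : a' (e 1) 2 * b' (e 1) 2 - a' (e 1) 4 * b' (e 5) 2 - a' (e 5) 2 * b' (e 1) 4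
        + a' (e 5) 4 * b' (e 5) 4 = 0 := by
      rcases hr with ⟨r, hr, r0, r1⟩ | ⟨-, ht⟩
      · have hr0 := T_const h ca cb hr (map_zero τ)
        rw [T_exp] at hr0
        have h7 : r * (1 - r) * (a' (e 1) 2 * b' (e 1) 2 - a' (e 1) 4 * b' (e 5) 2
            - a' (e 5) 2 * b' (e 1) 4 + a' (e 5) 4 * b' (e 5) 4) = 0 := by
          linear_combination hr0 - r * h10
        exact (mul_eq_zero.1 h7).resolve_left (mul_ne_zero r0 (sub_ne_zero.2 r1.symm))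
      · obtain ⟨α, hα⟩ := hS (ca.mem ha) (ca.Sy h3 sa) h2 ht
        obtain ⟨β, hβ⟩ := hS (cb.mem hb) (cb.Sy h3 sb) h2 ht
        have h7 := lin h3 (ca.mem ha) (cb.mem hb) h2 sa' sb' hα hβ
        linear_combination h7 - h10
    simp only [G1, G5] at sa' sb' ⊢
    linear_combination -hQ - b' (e 5) 4 * sa' - a' (e 1) 2 * sb'
      + a' (e 1) 2 * b' (e 1) 2 * h2
  have h8 := hQ p₀ hp₀
  have h9 := hQ _ (mul_mem hp₀ (xv3_mem h3 (-1)))
  have h10 : G a (p₀ (e 1)) (p₀ (e 5)) = G a (p₀ (e 5)) (p₀ (e 1)) := sa p₀ hp₀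
  simp only [LinearEquiv.mul_apply, xv3_1, xv3_5, map_add, G_addl, G_addr] at h9
  refine mul_ne_zero hna hnb ?_
  linear_combination h9 - h8 - G b (q₀ (e 1)) (q₀ (e 1)) * h10
    - G b (q₀ (e 1)) (q₀ (e 1)) * G a (p₀ (e 5)) (p₀ (e 1)) * h2

end Pool.Agent.MP_db74b1_al.Lt.Tri
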