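import Pool.Agent.MP_db74b1_al.LtTriE
import Pool.Agent.MP_db74b1_al.LtTriF0

/-! If the product of two classes of `G₂` or `³D₄` lies in one class then one of the two elements
moves no point to an opposite point. -/

set_option autoImplicit false

namespace Pool.Agent.MP_db74b1_al.Lt.Tri

variable {K : Type} [Field K] {τ : K →+* K} (h3 : ∀ t, τ (τ (τ t)) = t)
include h3

theorem SC.QS {a b : GO K} (ha : a ∈ tri τ) (hb : b ∈ tri τ) (h : SC τ a b)
    (hr : (∃ r, τ r = r ∧ r ≠ 0 ∧ r ≠ 1) ∨ ((2 : K) = 0 ∧ ∃ t, τ t ≠ t)) :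
    QS τ a ∨ QS τ b :=
  F42.main h3 (fun ha h1 h2 hτ => Sy_scalar h3 ha h1 h2 hτ) ha hb h hr

end Pool.Agent.MP_db74b1_al.Lt.Tri
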