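import Pool.Agent.MP_db74b1_al.LtTriD
import Pool.Agent.MP_db74b1_al.LtTriF
import Pool.Agent.MP_db74b1_al.LtTriG

/-! Arad-Herzog for `G₂(q)`, `q > 2`, and `³D₄(q)`. -/

set_option autoImplicit false

namespace Pool.Agent.MP_db74b1_al.Lt

open Pool.Agent.MP_db74b1_al.Exc

namespace Tri

variable {K : Type} [Field K] {τ : K →+* K} (h3 : ∀ t, τ (τ (τ t)) = t)
include h3

theorem main_QS {a b : GO K} (ha : a ∈ tri τ) (hb : b ∈ tri τ) (h : SC τ a b)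
    (hr : (∃ r, τ r = r ∧ r ≠ 0 ∧ r ≠ 1) ∨ ((2 : K) = 0 ∧ ∃ t, τ t ≠ t)) (hq : QS τ a) :
    a = 1 ∨ b = 1 := by
  rcases QS_struct h3 ha hq with h1 | ⟨l, hl, hl', hc⟩
  · exact Or.inl h1
  right
  obtain ⟨h1, h2⟩ := h.long h3 hb hr hl hl' hc
  by_cases hq' : QS τ b
  · rcases h2 with h2 | ⟨_, _, k, h2⟩
    · exact triv_of h3 hb hq' h2
    · rcases QS_struct h3 hb hq' with h4 | ⟨m, _, _, hc'⟩
      · exact h4
      · have h5 := hc'.DC h3 h2 1 (one_mem _)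
        have : k = 0 := by simpa [Bf, e, l12_apply] using h5.symm
        exact triv_of h3 hb hq' (this ▸ h2)
  · obtain ⟨h4, n, hn, h5⟩ := Sy_struct h3 hb h1 hq' h2
    exact (h.last h3 h4 hl hn hc h5).elim

end Tri

open Tri in
theorem tri_AH {K : Type} [Field K] (τ : K →+* K) (h3 : ∀ t, τ (τ (τ t)) = t)
    (hK : (∀ t, τ t = t) → ∃ r : K, r ≠ 0 ∧ r ≠ 1) : AH (tri τ) := by
  have hr : (∃ r, τ r = r ∧ r ≠ 0 ∧ r ≠ 1) ∨ ((2 : K) = 0 ∧ ∃ t, τ t ≠ t) := by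
    by_cases h : ∃ r, τ r = r ∧ r ≠ 0 ∧ r ≠ 1
    · exact Or.inl h
    push Not at h
    refine Or.inr ⟨?_, ?_⟩
    · by_contra h2
      have := h 2 (map_ofNat τ 2) h2
      exact one_ne_zero (α := K) (by linear_combination this)
    · by_contra h2
      push Not at h2
      obtain ⟨r, h0, h1⟩ := hK h2
      exact h1 (h r (h2 r) h0)
  intro x y z hx hy hE
  have h : SC τ x.1 y.1 := by
    refine ⟨z.1, ?_⟩
    rintro _ _ ⟨p, hp, rfl⟩ ⟨q, hq, rfl⟩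
    let P : tri τ := ⟨p, hp⟩
    let Q : tri τ := ⟨q, hq⟩
    have h1 : P * x * P⁻¹ * (Q * y * Q⁻¹) ∈ {g : tri τ | IsConj z g} := by
      rw [← hE]
      exact ⟨_, _, isConj_iff.2 ⟨P, rfl⟩, isConj_iff.2 ⟨Q, rfl⟩, rfl⟩
    obtain ⟨s, hs⟩ := isConj_iff.1 h1
    exact ⟨s.1, s.2, congrArg Subtype.val hs⟩
  have h1 : x.1 = 1 ∨ y.1 = 1 := by
    rcases h.QS h3 x.2 y.2 hr with h1 | h1
    · exact main_QS h3 x.2 y.2 h hr h1
    · exact (main_QS h3 y.2 x.2 (h.symm x.2) hr h1).symm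
  exact h1.elim (fun h => hx (Subtype.ext h)) fun h => hy (Subtype.ext h)

end Pool.Agent.MP_db74b1_al.Lt
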