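import Pool.Agent.MP_db74b1_al.LtTriA

/-! Normal forms for elements of `G₂(q)` and `³D₄(q)`. -/

set_option autoImplicit false
set_option linter.unnecessarySeqFocus false
set_option linter.unusedSimpArgs false
set_option linter.unusedSectionVars false

namespace Pool.Agent.MP_db74b1_al.Lt.Tri

variable {K : Type} [Field K] {τ : K →+* K}

namespace B

theorem fixed_div {a b : K} (hb : b ≠ 0) (h : τ b * τ (τ a) - τ a * τ (τ b) = 0) :
    τ (a / b) = a / b := by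
  have h1 : b * τ a = a * τ b := τ.injective (by rw [map_mul, map_mul]; exact sub_eq_zero.1 h)
  have h2 : τ b ≠ 0 := (map_ne_zero τ).2 hb
  rw [map_div₀, div_eq_div_iff h2 hb, ← h1, mul_comm]

theorem tw_zero {g : GO K} (hg : g ∈ tri τ) {x y : O K} (h : tw τ x y = 0) :
    tw τ (g x) (g y) = 0 := by rw [← tw_au hg, h, map_zero]

theorem tw_e {i j : Fin 8} (h : (i, j) ∈ ({(1, 1), (2, 2), (3, 3), (6, 6), (1, 6), (6, 1), (2, 6),
    (6, 2), (3, 5), (5, 3)} : Finset (Fin 8 × Fin 8))) : tw τ (e i) (e j) = 0 := by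
  simp only [Finset.mem_insert, Finset.mem_singleton, Prod.mk.injEq] at h
  rcases h with h | h | h | h | h | h | h | h | h | h <;> obtain ⟨rfl, rfl⟩ := h <;>
    apply ext8 <;> simp [e, tw0, tw1, tw2, tw3, tw4, tw5, tw6, tw7]

/-- the conclusion of `clear` -/
def Cl (τ : K →+* K) (w : O K) : Prop :=
  ∃ u ∈ tri τ, u (e 1) = e 1 ∧ (∃ c : K, u (e 6) = e 6 + c • e 1) ∧ u w = w 4 • e 4

theorem Cl.step {w : O K} {v : GO K} (hv : v ∈ tri τ) (h1 : v (e 1) = e 1) (c : K)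
    (h6 : v (e 6) = e 6 + c • e 1) (h4 : v w 4 = w 4) (h : Cl τ (v w)) : Cl τ w := by
  obtain ⟨u, hu, k1, ⟨d, k6⟩, k⟩ := h
  refine ⟨u * v, mul_mem hu hv, ?_, ⟨d + c, ?_⟩, ?_⟩
  · rw [LinearEquiv.mul_apply, h1, k1]
  · rw [LinearEquiv.mul_apply, h6, map_add, map_smul, k6, k1, add_smul, add_assoc]
  · rw [LinearEquiv.mul_apply, k, h4]

theorem cl0 {w : O K} (hw : tw τ w w = 0) (h4 : w 4 ≠ 0) (h0 : w 0 = 0) (h2 : w 2 = 0)
    (h3 : w 3 = 0) : Cl τ w := by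
  have k0 := congrFun hw 0
  have k2 := congrFun hw 2
  have k3 := congrFun hw 3
  have k4 := congrFun hw 4
  rw [tw4] at k4
  have h7 : w 7 = 0 := by simpa [h0, h2, h3, h4] using k4
  rw [tw0] at k0
  have h1 : w 1 = 0 := by simpa [h7, h2, h3, h4] using k0
  rw [tw2] at k2
  rw [tw3] at k3
  simp only [h0, h2, h3, h7, map_zero, mul_zero, sub_zero, Pi.zero_apply] at k2 k3
  have f5 := fixed_div h4 k3
  have f6 : τ (w 6 / w 4) = w 6 / w 4 := fixed_div h4 (by linear_combination -k2)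
  refine ⟨l13 (w 6 / w 4) * l12 (w 5 / w 4), mul_mem (l13_mem f6) (l12_mem f5), ?_, ⟨0, ?_⟩, ?_⟩ <;>
    apply ext8 <;> simp [e, l12_apply, l13_apply, h0, h1, h2, h3, h4, h7]

end B

open B

variable (h3 : ∀ t, τ (τ (τ t)) = t)
include h3

theorem fix4 {g : GO K} (hg : g ∈ tri τ) (h2 : g (e 2) = e 2) (h3' : g (e 3) = e 3)
    (h5 : g (e 5) = e 5) (h6 : g (e 6) = e 6) : g = 1 := by
  have k : ∀ i j l, g (e i) = e i → g (e j) = e j → tw τ (e i) (e j) = e l → g (e l) = e l :=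
    fun i j l hi hj h => by rw [← h, tw_au hg, hi, hj]
  have h1 := k 5 6 1 h5 h6 (by apply ext8 <;> simp [e, tw0, tw1, tw2, tw3, tw4, tw5, tw6, tw7])
  have h4 := k 3 2 4 h3' h2 (by apply ext8 <;> simp [e, tw0, tw1, tw2, tw3, tw4, tw5, tw6, tw7])
  have h0 := k 2 5 0 h2 h5 (by apply ext8 <;> simp [e, tw0, tw1, tw2, tw3, tw4, tw5, tw6, tw7])
  have h7 := k 5 2 7 h5 h2 (by apply ext8 <;> simp [e, tw0, tw1, tw2, tw3, tw4, tw5, tw6, tw7])
  refine (Pi.basisFun K (Fin 8)).ext' fun i => ?_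
  rw [Pi.basisFun_apply]
  fin_cases i <;> assumption

theorem stab {g : GO K} (hg : g ∈ tri τ) (h5 : g (e 5) = e 5) (h6 : g (e 6) = e 6) :
    ∃ s k m : K, τ k = k ∧ τ m = m ∧ g = xu1 τ s * l12 k * l13 m := by
  have a1 := tw_zero hg (tw_e (i := 2) (j := 6) (by decide))
  have a2 := tw_zero hg (tw_e (i := 6) (j := 2) (by decide))
  have a3 := tw_zero hg (tw_e (i := 2) (j := 2) (by decide))
  have a4 := Bf_au h3 hg (e 2) (e 5)
  have b1 := tw_zero hg (tw_e (i := 3) (j := 5) (by decide))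
  have b2 := tw_zero hg (tw_e (i := 5) (j := 3) (by decide))
  have b3 := tw_zero hg (tw_e (i := 3) (j := 3) (by decide))
  have b4 := Bf_au h3 hg (e 3) (e 6)
  have c := Bf_au h3 hg (e 2) (e 3)
  rw [h6] at a1 a2 b4
  rw [h5] at b1 b2 a4
  generalize hx : g (e 2) = x at a1 a2 a3 a4 c
  generalize hy : g (e 3) = y at b1 b2 b3 b4 c
  have x3 : x 3 = 0 := by simpa [tw0, e] using congrFun a1 0
  have x5 : x 5 = 0 := by simpa [tw1, e] using congrFun a1 1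
  have x4 : x 4 = 0 := by simpa [tw2, e] using congrFun a1 2
  have x0 : x 0 = 0 := by simpa [tw6, e] using congrFun a1 6
  have x7 : x 7 = 0 := by simpa [tw6, e] using congrFun a2 6
  have x2 : x 2 = 1 := by simpa [Bf, e] using a4
  have x1 : τ (x 1) = x 1 :=
    τ.injective (by simpa [tw6, x2, x0, x7, sub_eq_zero] using congrFun a3 6)
  have y2 : y 2 = 0 := by simpa [tw0, e] using congrFun b1 0
  have y6 : y 6 = 0 := by simpa [tw1, e] using congrFun b1 1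
  have y4 : y 4 = 0 := by simpa [tw3, e] using congrFun b1 3
  have y0 : y 0 = 0 := by simpa [tw5, e] using congrFun b1 5
  have y7 : y 7 = 0 := by simpa [tw5, e] using congrFun b2 5
  have y3 : y 3 = 1 := by simpa [Bf, e] using b4
  have y1 : τ (y 1) = y 1 :=
    (τ.injective (by simpa [tw5, y3, y0, y7, sub_eq_zero] using congrFun b3 5)).symm
  have y5 : y 5 = -x 6 := by
    simp [Bf, e, x0, x2, x3, x4, x5, x7, y3, y4] at c
    linear_combination -c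
  refine ⟨x 6, x 1, y 1, x1, y1, ?_⟩
  have hm := mul_mem (mul_mem (xu1_mem h3 (x 6)) (l12_mem x1)) (l13_mem y1)
  refine (inv_mul_eq_one.1 (fix4 h3 (mul_mem (inv_mem hm) hg) ?_ ?_ ?_ ?_)).symm <;>
    rw [LinearEquiv.mul_apply, LinearEquiv.coe_inv, LinearEquiv.symm_apply_eq] <;>
    simp only [hx, hy, h5, h6] <;> apply ext8 <;>
    simp [e, xu1_apply, l12_apply, l13_apply, x0, x2, x3, x4, x5, x7, y0, y2, y3, y4, y5, y6, y7]

theorem clear {w : O K} (hw : tw τ w w = 0) (h4 : w 4 ≠ 0) : ∃ u ∈ tri τ, u (e 1) = e 1 ∧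
    (∃ c : K, u (e 6) = e 6 + c • e 1) ∧ u w = w 4 • e 4 := by
  have s1 : ∀ w : O K, tw τ w w = 0 → w 4 ≠ 0 → w 2 = 0 → w 3 = 0 → Cl τ w := fun w hw h4 k2 k3 => by
    have hv := xu1_mem h3 (τ (-(w 0 / w 4)))
    refine Cl.step hv ?_ 0 ?_ rfl (cl0 (tw_zero hv hw) h4 ?_ k2 k3)
    · apply ext8 <;> simp [e, xu1_apply]
    · apply ext8 <;> simp [e, xu1_apply]
    · rw [xu1_apply, h3]
      simp [h4]
  have s2 : ∀ w : O K, tw τ w w = 0 → w 4 ≠ 0 → w 3 = 0 → Cl τ w := fun w hw h4 k3 => by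
    have hv := xv3_mem h3 (-(w 2 / w 4))
    refine Cl.step hv ?_ 0 ?_ rfl (s1 _ (tw_zero hv hw) h4 ?_ k3)
    · apply ext8 <;> simp [e, xv3_apply]
    · apply ext8 <;> simp [e, xv3_apply]
    · simp [xv3_apply, h4]
  have hv := xv2_mem h3 (w 3 / w 4)
  refine Cl.step hv ?_ (w 3 / w 4) ?_ rfl (s2 _ (tw_zero hv hw) h4 ?_)
  · apply ext8 <;> simp [e, xv2_apply]
  · apply ext8 <;> simp [e, xv2_apply]
  · simp [xv2_apply, h4]

theorem B.Bf_cj {p : GO K} (hp : p ∈ tri τ) (a : GO K) (x y : O K) :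
    Bf (p x) (a (p y)) = Bf x ((p⁻¹ * a * p) y) := by
  rw [← Bf_au h3 hp x]
  simp

theorem nf_pt {a : GO K} (ha : a ∈ tri τ) (h : ¬ QS τ a) :
    ∃ (a' : GO K) (l : K), l ≠ 0 ∧ Cj τ a a' ∧ a' (e 1) = l • e 4 := by
  unfold QS at h
  push Not at h
  obtain ⟨p, hp, h⟩ := h
  rw [Bf_cj h3 hp] at h
  have hc : Cj τ a (p⁻¹ * a * p) := ⟨p⁻¹, inv_mem hp, by rw [inv_inv]⟩
  generalize p⁻¹ * a * p = b at h hc
  have h4 : b (e 1) 4 ≠ 0 := by simpa [Bf, e] using h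
  obtain ⟨u, hu, k1, -, k⟩ := clear h3 (tw_zero (hc.mem ha) (tw_e (i := 1) (j := 1) (by decide))) h4
  refine ⟨u * b * u⁻¹, _, h4, hc.trans ⟨u, hu, rfl⟩, ?_⟩
  have k2 : u⁻¹ (e 1) = e 1 := by rw [LinearEquiv.coe_inv, LinearEquiv.symm_apply_eq, k1]
  rw [LinearEquiv.mul_apply, LinearEquiv.mul_apply, k2, k]

theorem B.line {y z : O K} (hy : tw τ y y = 0) (hz : tw τ z z = 0) (hyz : tw τ y z = 0)
    (hzy : tw τ z y = 0) (h4 : y 4 ≠ 0) (hd : y 4 * z 3 - z 4 * y 3 ≠ 0) :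
    ∃ u ∈ tri τ, u (e 1) = e 1 ∧ (∃ c : K, u (e 6) = e 6 + c • e 1) ∧
      (∃ α β : K, u y = α • e 3 + β • e 4) ∧ ∃ α β : K, u z = α • e 3 + β • e 4 := by
  obtain ⟨u, hu, k1, ⟨c, k6⟩, k⟩ := clear h3 hy h4
  have a1 := tw_zero hu hyz
  have a2 := tw_zero hu hzy
  have a3 := tw_zero hu hz
  have b1 := Bf_au h3 hu (e 6) y
  have b2 := Bf_au h3 hu (e 6) z
  have b3 := Bf_au h3 hu (e 1) z
  rw [k] at a1 a2 b1
  rw [k6] at b1 b2
  rw [k1] at b3
  generalize hx : u z = x at a1 a2 a3 b2 b3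
  have x6 : x 6 = 0 := by simpa [tw2, e, h4] using congrFun a1 2
  have x5 : x 5 = 0 := by simpa [tw3, e, h4] using congrFun a1 3
  have x7 : x 7 = 0 := by simpa [tw4, e, h4] using congrFun a1 4
  have x1 : x 1 = 0 := by simpa [tw7, e, h4] using congrFun a1 7
  have x0 : x 0 = 0 := by simpa [tw4, e, h4] using congrFun a2 4
  have c1 : c * y 4 = y 3 := by simpa [Bf, e] using b1
  have c3 : x 4 = z 4 := by simpa [Bf, e] using b3
  have x3 : x 3 ≠ 0 := fun x3 => hd (by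
    have c2 : c * x 4 = z 3 := by simpa [Bf, e, x3] using b2
    rw [← c1, ← c2, c3]
    ring)
  have f : τ (x 2 / x 3) = x 2 / x 3 :=
    fixed_div x3 (by simpa [tw4, x0, x7] using congrFun a3 4)
  have f' : τ (-(x 2 / x 3)) = -(x 2 / x 3) := by rw [map_neg, f]
  refine ⟨l23 (-(x 2 / x 3)) * u, mul_mem (l23_mem f') hu, ?_, ⟨c, ?_⟩, ⟨0, y 4, ?_⟩, x 3, x 4, ?_⟩ <;>
    simp only [LinearEquiv.mul_apply, k1, k6, k, hx] <;> apply ext8 <;>
    simp [e, l23_apply, x0, x1, x3, x5, x6, x7]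

theorem nf_line {a : GO K} (ha : a ∈ tri τ) (h : ¬ DC τ a 0) : ∃ (a' : GO K) (α β γ δ : K),
    Cj τ a a' ∧ a' (e 1) = α • e 3 + β • e 4 ∧ a' (e 6) = γ • e 3 + δ • e 4 := by
  unfold DC at h
  push Not at h
  obtain ⟨p, hp, h⟩ := h
  simp only [Bf_cj h3 hp] at h
  have hc : Cj τ a (p⁻¹ * a * p) := ⟨p⁻¹, inv_mem hp, by rw [inv_inv]⟩
  generalize p⁻¹ * a * p = b at h hc
  have hb := hc.mem ha
  have a1 := tw_zero hb (tw_e (i := 1) (j := 1) (by decide))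
  have a2 := tw_zero hb (tw_e (i := 6) (j := 6) (by decide))
  have a3 := tw_zero hb (tw_e (i := 1) (j := 6) (by decide))
  have a4 := tw_zero hb (tw_e (i := 6) (j := 1) (by decide))
  have hd : b (e 1) 4 * b (e 6) 3 - b (e 6) 4 * b (e 1) 3 ≠ 0 := by simpa [Bf, e] using h
  have : ∃ u ∈ tri τ, u (e 1) = e 1 ∧ (∃ c : K, u (e 6) = e 6 + c • e 1) ∧
      (∃ α β : K, u (b (e 1)) = α • e 3 + β • e 4) ∧
        ∃ α β : K, u (b (e 6)) = α • e 3 + β • e 4 := by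
    by_cases h4 : b (e 1) 4 = 0
    · have h4' : b (e 6) 4 ≠ 0 := fun h' => hd (by rw [h4, h']; ring)
      obtain ⟨u, hu, k1, k6, k, k'⟩ := B.line h3 a2 a1 a4 a3 h4'
        fun h' => hd (by linear_combination -h')
      exact ⟨u, hu, k1, k6, k', k⟩
    · exact B.line h3 a1 a2 a3 a4 h4 hd
  obtain ⟨u, hu, k1, ⟨c, k6⟩, ⟨α, β, k⟩, γ, δ, k'⟩ := this
  have k2 : u⁻¹ (e 1) = e 1 := by rw [LinearEquiv.coe_inv, LinearEquiv.symm_apply_eq, k1]
  have k3 : u⁻¹ (e 6) = e 6 - c • e 1 := by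
    rw [LinearEquiv.coe_inv, LinearEquiv.symm_apply_eq, map_sub, map_smul, k1, k6,
      add_sub_cancel_right]
  refine ⟨u * b * u⁻¹, α, β, γ - c * α, δ - c * β, hc.trans ⟨u, hu, rfl⟩, ?_, ?_⟩
  · rw [LinearEquiv.mul_apply, LinearEquiv.mul_apply, k2, k]
  · rw [LinearEquiv.mul_apply, LinearEquiv.mul_apply, k3, map_sub, map_sub, map_smul, map_smul,
      k, k']
    module

end Pool.Agent.MP_db74b1_al.Lt.Tri
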