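import Pool.Agent.MP_db74b1_al.LtTriA

/-! An element of `G₂` or `³D₄` moving no point to an opposite point and no line to an opposite
line is trivial. -/

set_option autoImplicit false
set_option linter.unnecessarySeqFocus false
set_option linter.unusedSimpArgs false
set_option linter.unusedSectionVars false

namespace Pool.Agent.MP_db74b1_al.Lt.Tri

namespace TC

variable {K : Type} [Field K] {τ : K →+* K}

/-- the three hypotheses -/
def Gd (τ : K →+* K) (a : GO K) : Prop := a ∈ tri τ ∧ QS τ a ∧ DC τ a 0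

/-- the plane of `u₁` -/
def Pl (w : O K) : Prop := w 0 = 0 ∧ w 2 = 0 ∧ w 3 = 0 ∧ w 4 = 0 ∧ w 7 = 0

/-- the orbit of `u₁` -/
def Or1 (τ : K →+* K) (z : O K) : Prop := ∃ p ∈ tri τ, p (e 1) = z

theorem Bf_inv' (h3 : ∀ t, τ (τ (τ t)) = t) {a : GO K} (ha : a ∈ tri τ) (x y : O K) :
    Bf x (a⁻¹ y) = Bf y (a x) := by
  rw [Bf_inv h3 (inv_mem ha), inv_inv, Bf_comm]

theorem Gd.inv (h3 : ∀ t, τ (τ (τ t)) = t) {a : GO K} (h : Gd τ a) : Gd τ a⁻¹ := by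
  obtain ⟨ha, h1, h2⟩ := h
  refine ⟨inv_mem ha, fun p hp => ?_, fun p hp => ?_⟩
  · rw [Bf_inv' h3 ha]; exact h1 p hp
  · simp only [Bf_inv' h3 ha]
    have := h2 p hp
    linear_combination this

theorem Gd.conj (h3 : ∀ t, τ (τ (τ t)) = t) {a p : GO K} (h : Gd τ a) (hp : p ∈ tri τ) :
    Gd τ (p⁻¹ * a * p) := by
  have hc : Cj τ a (p⁻¹ * a * p) := ⟨p⁻¹, inv_mem hp, by rw [inv_inv]⟩
  exact ⟨hc.mem h.1, hc.QS h3 h.2.1, hc.DC h3 h.2.2⟩

theorem pl_iff (w : O K) : Pl w ↔ tw τ (e 1) w = 0 ∧ tw τ w (e 1) = 0 := by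
  constructor
  · rintro ⟨h0, h2, h3, h4, h7⟩
    constructor <;> apply ext8 <;>
      simp [e, tw0, tw1, tw2, tw3, tw4, tw5, tw6, tw7, h0, h2, h3, h4, h7]
  · rintro ⟨h, h'⟩
    have a0 := congrFun h 0
    have a1 := congrFun h 1
    have a5 := congrFun h 5
    have a6 := congrFun h 6
    have b1 := congrFun h' 1
    simp [e, tw0] at a0
    simp [e, tw1] at a1
    simp [e, tw5] at a5
    simp [e, tw6] at a6
    simp [e, tw1] at b1
    exact ⟨a1, a6, a5, a0, b1⟩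

theorem pl_of_pt {w : O K} (hw : tw τ w w = 0) (h2 : w 2 = 0) (h3 : w 3 = 0) (h4 : w 4 = 0) :
    Pl w := by
  have a0 := congrFun hw 0
  have a7 := congrFun hw 7
  simp [tw0, h2, h3, h4] at a0
  simp [tw7, h2, h3, h4] at a7
  exact ⟨a7, h2, h3, h4, a0⟩

theorem pt_e (i : Fin 8) (h0 : i ≠ 0) (h7 : i ≠ 7) : tw τ (e i) (e i : O K) = 0 := by
  fin_cases i <;> first
    | exact absurd rfl h0
    | exact absurd rfl h7
    | (apply ext8 <;> simp [e, tw0, tw1, tw2, tw3, tw4, tw5, tw6, tw7])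

theorem pt_au {a : GO K} (ha : a ∈ tri τ) (i : Fin 8) (h0 : i ≠ 0) (h7 : i ≠ 7) :
    tw τ (a (e i)) (a (e i)) = 0 := by
  rw [← tw_au ha, pt_e i h0 h7, map_zero]

theorem pl_swap {a : GO K} (ha : a ∈ tri τ) (h : Pl (a⁻¹ (e 1))) : Pl (a (e 1)) := by
  rw [pl_iff (τ := τ)] at h ⊢
  have h1 := tw_au ha (e 1) (a⁻¹ (e 1))
  have h2 := tw_au ha (a⁻¹ (e 1)) (e 1)
  rw [h.1] at h1
  rw [h.2] at h2
  simp only [map_zero, LinearEquiv.coe_inv, LinearEquiv.apply_symm_apply] at h1 h2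
  exact ⟨h2.symm, h1.symm⟩

theorem qs1 {a : GO K} (h : Gd τ a) : Bf (e 1) (a (e 1)) = 0 := h.2.1 1 (one_mem _)

theorem dc_line (h3 : ∀ t, τ (τ (τ t)) = t) {a p : GO K} (h : Gd τ a) (hp : p ∈ tri τ)
    (h1 : p (e 1) = e 1) {z : O K} (hz : p (e 6) = z) :
    Bf (a⁻¹ (e 1)) z * Bf z (a (e 1)) = 0 := by
  have := h.2.2 p hp
  rw [h1, hz, qs1 h, Bf_inv h3 h.1 (e 1) z] at this
  linear_combination -this

theorem step1 (h3 : ∀ t, τ (τ (τ t)) = t) {a : GO K} (h : Gd τ a) : Pl (a (e 1)) := by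
  have y4 : a (e 1) 4 = 0 := by simpa [Bf, e] using qs1 h
  have z4 : a⁻¹ (e 1) 4 = 0 := by simpa [Bf, e] using qs1 (h.inv h3)
  have d1 := dc_line h3 h (one_mem _) rfl (z := e 6) rfl
  have d2 := dc_line h3 h (inv_mem (sw_mem τ)) (z := e 5)
    (by rw [sw_inv_apply]; apply ext8 <;> simp [e]) (by rw [sw_inv_apply]; apply ext8 <;> simp [e])
  have d3 := dc_line h3 h (l32_mem (s := -1) (by simp)) (z := e 5 + e 6)
    (by rw [l32_apply]; apply ext8 <;> simp [e]) (by rw [l32_apply]; apply ext8 <;> simp [e])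
  have p1 := pt_au h.1 1 (by decide) (by decide)
  have p2 := pt_au (inv_mem h.1) 1 (by decide) (by decide)
  have key : (a (e 1) 2 = 0 ∧ a (e 1) 3 = 0) ∨ (a⁻¹ (e 1) 2 = 0 ∧ a⁻¹ (e 1) 3 = 0) := by
    generalize a (e 1) = y at d1 d2 d3
    generalize a⁻¹ (e 1) = z at d1 d2 d3
    have e1 : z 3 * y 3 = 0 := by simpa [Bf, e] using d1
    have e2 : z 2 * y 2 = 0 := by simpa [Bf, e] using d2
    have e3 : (z 2 + z 3) * (y 2 + y 3) = 0 := by
      have : Bf z (e 5 + e 6) * Bf (e 5 + e 6) y = (z 2 + z 3) * (y 2 + y 3) := by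
        simp [Bf, e]; ring
      rw [← this, d3]
    by_cases k2 : y 2 = 0
    · by_cases k3 : y 3 = 0
      · exact Or.inl ⟨k2, k3⟩
      · have z3 := (mul_eq_zero.1 e1).resolve_right k3
        rw [k2, z3, zero_add, add_zero] at e3
        exact Or.inr ⟨(mul_eq_zero.1 e3).resolve_right k3, z3⟩
    · have z2 := (mul_eq_zero.1 e2).resolve_right k2
      refine Or.inr ⟨z2, ?_⟩
      by_contra z3
      have k3 := (mul_eq_zero.1 e1).resolve_left z3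
      rw [z2, k3, zero_add, add_zero] at e3
      exact k2 ((mul_eq_zero.1 e3).resolve_left z3)
  rcases key with ⟨k2, k3⟩ | ⟨k2, k3⟩
  · exact pl_of_pt p1 k2 k3 y4
  · exact pl_swap h.1 (pl_of_pt p2 k2 k3 z4)

theorem Or1.act {z : O K} (h : Or1 τ z) {g : GO K} (hg : g ∈ tri τ) {w : O K} (hw : g z = w) :
    Or1 τ w := by
  obtain ⟨p, hp, rfl⟩ := h
  exact ⟨g * p, mul_mem hg hp, hw⟩

theorem or_1 : Or1 τ (e 1 : O K) := ⟨1, one_mem _, rfl⟩

theorem or_5 (h3 : ∀ t, τ (τ (τ t)) = t) : Or1 τ (e 5 : O K) := by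
  have a1 := (or_1 (τ := τ)).act (xv1_mem h3 1) (w := ![1, 1, 0, 0, -1, 0, 0, -1])
    (by rw [xv1_apply]; apply ext8 <;> simp [e])
  have a2 := a1.act (xu1_mem h3 1) (w := ![0, 0, 0, 0, -1, 0, 0, 0])
    (by rw [xu1_apply]; apply ext8 <;> simp)
  have a3 := a2.act (inv_mem (cy_mem τ)) (w := ![0, 0, 0, 0, 0, 0, -1, 0])
    (by rw [cy_inv_apply]; apply ext8 <;> simp)
  exact a3.act (sw_mem τ) (by rw [sw_apply]; apply ext8 <;> simp [e])

theorem or_6 (h3 : ∀ t, τ (τ (τ t)) = t) : Or1 τ (e 6 : O K) :=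
  (or_5 h3).act (cy_mem τ) (by rw [cy_apply]; apply ext8 <;> simp [e])

theorem or_4 (h3 : ∀ t, τ (τ (τ t)) = t) : Or1 τ (e 4 : O K) :=
  (or_6 h3).act (cy_mem τ) (by rw [cy_apply]; apply ext8 <;> simp [e])

theorem or_2 : Or1 τ (e 2 : O K) :=
  or_1.act (cy_mem τ) (by rw [cy_apply]; apply ext8 <;> simp [e])

theorem or_3 : Or1 τ (e 3 : O K) :=
  or_2.act (cy_mem τ) (by rw [cy_apply]; apply ext8 <;> simp [e])

theorem qs_or {a : GO K} (h : Gd τ a) {z : O K} (hz : Or1 τ z) : Bf z (a z) = 0 := by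
  obtain ⟨p, hp, rfl⟩ := hz
  exact h.2.1 p hp

theorem step2a (h3 : ∀ t, τ (τ (τ t)) = t) {a : GO K} (h : Gd τ a) :
    (a (e 1) 5 = 0 ∧ a (e 1) 6 = 0) ∨ (Pl (a (e 6)) ∧ Pl (a (e 5))) := by
  obtain ⟨y0, y2, y3, y4, y7⟩ := step1 h3 h
  obtain ⟨-, z2, z3, -, -⟩ := step1 h3 (h.inv h3)
  have q6 := qs_or h (or_6 h3)
  have q5 := qs_or h (or_5 h3)
  have q56 := qs_or h ((or_6 h3).act (l32_mem (s := -1) (by simp)) (w := e 5 + e 6)
    (by rw [l32_apply]; apply ext8 <;> simp [e]))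
  rw [map_add] at q56
  have b6 := Bf_au h3 h.1 (e 1) (e 6)
  have b5 := Bf_au h3 h.1 (e 1) (e 5)
  have c6 := Bf_inv h3 h.1 (e 1) (e 6)
  have c5 := Bf_inv h3 h.1 (e 1) (e 5)
  have p6 := pt_au h.1 6 (by decide) (by decide)
  have p5 := pt_au h.1 5 (by decide) (by decide)
  generalize a (e 1) = y at y0 y2 y3 y4 y7 b6 b5 ⊢
  generalize a⁻¹ (e 1) = z at z2 z3 c6 c5
  generalize a (e 6) = w at q6 q56 b6 c6 p6 ⊢
  generalize a (e 5) = v at q5 q56 b5 c5 p5 ⊢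
  have w3 : w 3 = 0 := by simpa [Bf, e] using q6
  have v2 : v 2 = 0 := by simpa [Bf, e] using q5
  have w4 : w 4 = 0 := by simpa [Bf, e, z3] using c6
  have v4 : v 4 = 0 := by simpa [Bf, e, z2] using c5
  have s : w 2 + v 3 = 0 := by
    have : Bf (e 5 + e 6) (v + w) = -(w 2 + v 3) := by simp [Bf, e, w3, v2]; ring
    rw [this] at q56
    exact neg_eq_zero.1 q56
  have m5 : y 5 * w 2 = 0 := by simpa [Bf, e, y0, y2, y3, y4, y7, w3, w4] using b6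
  have m6 : y 6 * v 3 = 0 := by simpa [Bf, e, y0, y2, y3, y4, y7, v2, v4] using b5
  by_cases hw : w 2 = 0
  · have hv : v 3 = 0 := by rwa [hw, zero_add] at s
    exact Or.inr ⟨pl_of_pt p6 hw w3 w4, pl_of_pt p5 v2 hv v4⟩
  · have hv : v 3 ≠ 0 := fun hv => hw (by rwa [hv, add_zero] at s)
    exact Or.inl ⟨(mul_eq_zero.1 m5).resolve_right hw, (mul_eq_zero.1 m6).resolve_right hv⟩

theorem step2 (h3 : ∀ t, τ (τ (τ t)) = t) {a : GO K} (h : Gd τ a) :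
    ∃ μ : K, a (e 1) = μ • e 1 := by
  have mk : ∀ y : O K, Pl y → y 5 = 0 → y 6 = 0 → y = y 1 • e 1 := fun y hy h5 h6 => by
    obtain ⟨y0, y2, y3, y4, y7⟩ := hy
    apply ext8 <;> simp [e, y0, y2, y3, y4, y7, h5, h6]
  rcases step2a h3 (h.inv h3) with ⟨k5, k6⟩ | ⟨k6, k5⟩
  · have hz := mk _ (step1 h3 (h.inv h3)) k5 k6
    generalize a⁻¹ (e 1) 1 = c at hz
    have h1 : e 1 = c • a (e 1) := by
      rw [← map_smul, ← hz]; simp
    have hc : c ≠ 0 := by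
      rintro rfl
      have := congrFun h1 1
      simp [e] at this
    refine ⟨c⁻¹, ?_⟩
    conv_rhs => rw [h1]
    rw [smul_smul, inv_mul_cancel₀ hc, one_smul]
  · have t6 := tw_au h.1 (e 1) (a⁻¹ (e 6))
    have t5 := tw_au h.1 (e 1) (a⁻¹ (e 5))
    rw [((pl_iff (τ := τ) _).1 k6).1] at t6
    rw [((pl_iff (τ := τ) _).1 k5).1] at t5
    simp only [map_zero, LinearEquiv.coe_inv, LinearEquiv.apply_symm_apply] at t6 t5
    have a6 := congrFun t6 1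
    have a5 := congrFun t5 1
    rw [tw1] at a6 a5
    refine ⟨_, mk _ (step1 h3 h) ?_ ?_⟩
    · simpa [e] using a6.symm
    · simpa [e] using a5.symm

theorem step3 (h3 : ∀ t, τ (τ (τ t)) = t) {a : GO K} (h : Gd τ a) {z : O K} (hz : Or1 τ z) :
    ∃ μ : K, a z = μ • z := by
  obtain ⟨p, hp, rfl⟩ := hz
  obtain ⟨μ, hμ⟩ := step2 h3 (h.conj h3 hp)
  refine ⟨μ, ?_⟩
  have := congrArg p hμ
  simpa using this

theorem same (h3 : ∀ t, τ (τ (τ t)) = t) {a : GO K} (h : Gd τ a) {i j : Fin 8} (hij : i ≠ j)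
    (hz : Or1 τ (e i + e j)) {μ ν : K} (hi : a (e i) = μ • e i) (hj : a (e j) = ν • e j) :
    ν = μ := by
  obtain ⟨κ, hκ⟩ := step3 h3 h hz
  rw [map_add, hi, hj] at hκ
  have a1 := congrFun hκ i
  have a2 := congrFun hκ j
  simp [e, hij, hij.symm] at a1 a2
  rw [a1, a2]

theorem main (h3 : ∀ t, τ (τ (τ t)) = t) {a : GO K} (h : Gd τ a) : a = 1 := by
  obtain ⟨μ, m1⟩ := step3 h3 h or_1
  obtain ⟨μ2, m2⟩ := step3 h3 h or_2
  obtain ⟨μ3, m3⟩ := step3 h3 h or_3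
  obtain ⟨μ4, m4⟩ := step3 h3 h (or_4 h3)
  obtain ⟨μ5, m5⟩ := step3 h3 h (or_5 h3)
  obtain ⟨μ6, m6⟩ := step3 h3 h (or_6 h3)
  obtain rfl := same h3 h (by decide) (or_1.act (l21_mem (s := 1) (by simp))
    (by rw [l21_apply]; apply ext8 <;> simp [e])) m1 m2
  obtain rfl := same h3 h (by decide) (or_1.act (l31_mem (s := 1) (by simp))
    (by rw [l31_apply]; apply ext8 <;> simp [e])) m1 m3
  obtain rfl := same h3 h (by decide) (or_1.act (xu3_mem h3 1)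
    (by rw [xu3_apply]; apply ext8 <;> simp [e])) m1 m5
  obtain rfl := same h3 h (by decide) (or_1.act (xu2_mem h3 (-1))
    (by rw [xu2_apply]; apply ext8 <;> simp [e])) m1 m6
  obtain rfl := same h3 h (by decide) ((or_5 h3).act (l21_mem (s := -1) (by simp))
    (by rw [l21_apply]; apply ext8 <;> simp [e])) m5 m4
  have hb := Bf_au h3 h.1 (e 1) (e 4)
  rw [m1, m4] at hb
  have hsq : μ4 * μ4 = 1 := by simpa [Bf, e] using hb
  have ht := tw_au h.1 (e 5) (e 6)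
  have t56 : tw τ (e 5) (e 6 : O K) = e 1 := by
    apply ext8 <;> simp [e, tw0, tw1, tw2, tw3, tw4, tw5, tw6, tw7]
  rw [t56, m1, m5, m6] at ht
  have hp : μ4 = τ μ4 * τ (τ μ4) := by
    have := congrFun ht 1
    rw [tw1] at this
    simpa [e] using this
  have h1 : μ4 = 1 := by
    rcases mul_self_eq_one_iff.1 hsq with h1 | h1
    · exact h1
    · rw [hp, h1]; simp
  subst h1
  rw [one_smul] at m1 m2 m3 m4 m5 m6
  have t14 : tw τ (e 1) (e 4 : O K) = e 0 := by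
    apply ext8 <;> simp [e, tw0, tw1, tw2, tw3, tw4, tw5, tw6, tw7]
  have t41 : tw τ (e 4) (e 1 : O K) = e 7 := by
    apply ext8 <;> simp [e, tw0, tw1, tw2, tw3, tw4, tw5, tw6, tw7]
  have m0 : a (e 0) = e 0 := by rw [← t14, tw_au h.1, m1, m4]
  have m7 : a (e 7) = e 7 := by rw [← t41, tw_au h.1, m1, m4]
  refine LinearEquiv.ext fun x => ?_
  have hx : x = x 0 • e 0 + x 1 • e 1 + x 2 • e 2 + x 3 • e 3 + x 4 • e 4 + x 5 • e 5 + x 6 • e 6
      + x 7 • e 7 := by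
    apply ext8 <;> simp [e]
  change a x = x
  conv_lhs => rw [hx]
  simp only [map_add, map_smul, m0, m1, m2, m3, m4, m5, m6, m7]
  exact hx.symm

end TC

variable {K : Type} [Field K] {τ : K →+* K} (h3 : ∀ t, τ (τ (τ t)) = t)
include h3

theorem triv_of {a : GO K} (ha : a ∈ tri τ) (h1 : QS τ a) (h2 : DC τ a 0) : a = 1 :=
  TC.main h3 ⟨ha, h1, h2⟩

end Pool.Agent.MP_db74b1_al.Lt.Tri
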