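import Pool.Agent.MP_db74b1_al.LtTriB
import Pool.Agent.MP_db74b1_al.LtTriC

/-! Elements that move no point to an opposite point are long root elements. -/

set_option autoImplicit false
set_option linter.unnecessarySeqFocus false
set_option linter.unusedSimpArgs false
set_option linter.unusedSectionVars false

namespace Pool.Agent.MP_db74b1_al.Lt.Tri

variable {K : Type} [Field K] {τ : K →+* K}

namespace D

/-- `x` lies in the orbit of `u₁` -/
def Pt (τ : K →+* K) (x : O K) : Prop := ∃ p ∈ tri τ, p (e 1) = x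

theorem Pt.map {x y : O K} (h : Pt τ x) {g : GO K} (hg : g ∈ tri τ) (hy : g x = y) : Pt τ y := by
  obtain ⟨p, hp, rfl⟩ := h
  exact ⟨g * p, mul_mem hg hp, hy⟩

theorem Pt.qs {a : GO K} (h1 : QS τ a) {x : O K} (h : Pt τ x) : Bf x (a x) = 0 := by
  obtain ⟨p, hp, rfl⟩ := h
  exact h1 p hp

theorem pt1 : Pt τ (e 1) := ⟨1, one_mem _, rfl⟩

theorem pt2 : Pt τ (e 2) := pt1.map (cy_mem τ) (by apply ext8 <;> simp [e, cy_apply])

variable (h3 : ∀ t, τ (τ (τ t)) = t)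
include h3

theorem pt14 : Pt τ (e 0 + e 1 - e 4 - e 7) :=
  pt1.map (xv1_mem h3 1) (by apply ext8 <;> simp [e, xv1_apply])

theorem pt5 : Pt τ (e 5) := by
  have k1 : Pt τ (-e 4) := (pt14 h3).map (xu1_mem h3 1) (by apply ext8 <;> simp [e, xu1_apply])
  have k2 : Pt τ (-e 5) := k1.map (cy_mem τ) (by apply ext8 <;> simp [e, cy_apply])
  have k3 : Pt τ (-e 6) := k2.map (sw_mem τ) (by apply ext8 <;> simp [e, sw_apply])
  exact k3.map (sw_mem τ) (by apply ext8 <;> simp [e, sw_apply])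

theorem pt6 : Pt τ (e 6) := (pt5 h3).map (cy_mem τ) (by apply ext8 <;> simp [e, cy_apply])

theorem pt16 : Pt τ (e 1 + e 6) :=
  pt1.map (xu2_mem h3 (-1)) (by apply ext8 <;> simp [e, xu2_apply])

theorem pt51 : Pt τ (e 5 + e 1) :=
  (pt5 h3).map (xv3_mem h3 (-1)) (by apply ext8 <;> simp [e, xv3_apply])

theorem pt56 : Pt τ (e 5 + e 6) :=
  (pt5 h3).map (l23_mem (s := -1) (by simp)) (by apply ext8 <;> simp [e, l23_apply])

theorem pt26 : Pt τ (e 2 + e 6) :=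
  pt2.map (xu1_mem h3 1) (by apply ext8 <;> simp [e, xu1_apply])

theorem pt12 : Pt τ (e 1 + e 2) :=
  pt1.map (l21_mem (s := 1) (by simp)) (by apply ext8 <;> simp [e, l21_apply])

theorem pt25 : Pt τ (e 0 - e 2 + e 5 - e 7) :=
  (pt5 h3).map (xu2_mem h3 1) (by apply ext8 <;> simp [e, xu2_apply])

theorem step1 {a : GO K} (h1 : QS τ a) {α β γ δ : K} (e1 : a (e 1) = α • e 3 + β • e 4)
    (e6 : a (e 6) = γ • e 3 + δ • e 4) : α ≠ 0 ∧ a (e 1) = α • e 3 ∧ a (e 6) = (-α) • e 4 := by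
  have k1 := pt1.qs h1
  have k2 := (pt6 h3).qs h1
  have k3 := (pt16 h3).qs h1
  rw [map_add] at k3
  rw [e1] at k1 k3
  rw [e6] at k2 k3
  simp [Bf, e] at k1 k2 k3
  subst k1 k2
  have k4 : δ = -α := by linear_combination -k3
  subst k4
  simp only [zero_smul, add_zero, zero_add] at e1 e6
  refine ⟨fun h => ?_, e1, e6⟩
  rw [h, zero_smul] at e1
  have := congrFun (a.map_eq_zero_iff.1 e1) 1
  simp [e] at this

theorem step2 {a : GO K} (ha : a ∈ tri τ) (h1 : QS τ a) {l : K} (hl : l ≠ 0)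
    (e1 : a (e 1) = l • e 3) (e6 : a (e 6) = (-l) • e 4) : ∃ b : K, a (e 5) = b • e 5 := by
  have t1 : tw τ (e 1) (e 5) = 0 := by
    apply ext8 <;> simp [e, tw0, tw1, tw2, tw3, tw4, tw5, tw6, tw7]
  have t2 : tw τ (e 5) (e 1) = 0 := by
    apply ext8 <;> simp [e, tw0, tw1, tw2, tw3, tw4, tw5, tw6, tw7]
  have k1 := tw_au ha (e 1) (e 5)
  have k2 := tw_au ha (e 5) (e 1)
  rw [t1, map_zero, e1] at k1
  rw [t2, map_zero, e1] at k2
  have q1 := (pt51 h3).qs h1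
  have q2 := (pt56 h3).qs h1
  rw [map_add, e1] at q1
  rw [map_add, e6] at q2
  generalize a (e 5) = w at *
  have c0 := congrFun k1 0
  have c3 := congrFun k1 3
  have c4 := congrFun k1 4
  have c5 := congrFun k1 5
  have d3 := congrFun k2 3
  simp [tw0, tw3, tw4, tw5, e, hl] at c0 c3 c4 c5 d3
  simp [Bf, e, c4] at q1 q2
  exact ⟨w 5, by apply ext8 <;> simp [e, *]⟩

theorem step3 {a : GO K} (ha : a ∈ tri τ) (h1 : QS τ a) {l : K} (hl : l ≠ 0)
    (e1 : a (e 1) = l • e 3) (e6 : a (e 6) = (-l) • e 4) : ∃ b : K, a (e 2) = b • e 2 := by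
  have t1 : tw τ (e 6) (e 2) = 0 := by
    apply ext8 <;> simp [e, tw0, tw1, tw2, tw3, tw4, tw5, tw6, tw7]
  have t2 : tw τ (e 2) (e 6) = 0 := by
    apply ext8 <;> simp [e, tw0, tw1, tw2, tw3, tw4, tw5, tw6, tw7]
  have k1 := tw_au ha (e 6) (e 2)
  have k2 := tw_au ha (e 2) (e 6)
  rw [t1, map_zero, e6] at k1
  rw [t2, map_zero, e6] at k2
  have q1 := (pt26 h3).qs h1
  have q2 := (pt12 h3).qs h1
  rw [map_add, e6] at q1
  rw [map_add, e1] at q2
  generalize a (e 2) = w at *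
  have c2 := congrFun k1 2
  have c3 := congrFun k1 3
  have c4 := congrFun k1 4
  have c7 := congrFun k1 7
  have d4 := congrFun k2 4
  simp [tw2, tw3, tw4, tw7, e, hl] at c2 c3 c4 c7 d4
  simp [Bf, e, c3] at q1 q2
  exact ⟨w 2, by apply ext8 <;> simp [e, *]⟩

theorem step4 {a : GO K} (ha : a ∈ tri τ) (h1 : QS τ a) {l : K} (hl : l ≠ 0)
    (e1 : a (e 1) = l • e 3) (e6 : a (e 6) = (-l) • e 4) :
    τ l = l ∧ a (e 5) = e 5 ∧ a (e 2) = e 2 ∧ a (e 0) = e 0 ∧ a (e 7) = e 7 := by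
  obtain ⟨b, e5⟩ := step2 h3 ha h1 hl e1 e6
  obtain ⟨c, e2⟩ := step3 h3 ha h1 hl e1 e6
  have k0 := Bf_au h3 ha (e 2) (e 5)
  rw [e2, e5] at k0
  simp [Bf, e] at k0
  have t1 : tw τ (e 5) (e 6) = e 1 := by
    apply ext8 <;> simp [e, tw0, tw1, tw2, tw3, tw4, tw5, tw6, tw7]
  have t2 : tw τ (e 2) (e 5) = e 0 := by
    apply ext8 <;> simp [e, tw0, tw1, tw2, tw3, tw4, tw5, tw6, tw7]
  have t3 : tw τ (e 5) (e 2) = e 7 := by
    apply ext8 <;> simp [e, tw0, tw1, tw2, tw3, tw4, tw5, tw6, tw7]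
  have k1 := tw_au ha (e 5) (e 6)
  have k2 := tw_au ha (e 2) (e 5)
  have k3 := tw_au ha (e 5) (e 2)
  rw [t1, e1, e5, e6] at k1
  rw [t2, e2, e5] at k2
  rw [t3, e2, e5] at k3
  have e0 : a (e 0) = (τ c * τ (τ b)) • e 0 := by
    rw [k2]; apply ext8 <;> simp [e, tw0, tw1, tw2, tw3, tw4, tw5, tw6, tw7]
  have e7 : a (e 7) = (τ b * τ (τ c)) • e 7 := by
    rw [k3]; apply ext8 <;> simp [e, tw0, tw1, tw2, tw3, tw4, tw5, tw6, tw7]
  have r0 : l = τ b * τ (τ l) := by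
    have := congrFun k1 3
    simpa [tw3, e] using this
  have r1 : τ l = τ (τ b) * l := by
    have := congrArg τ r0
    rwa [map_mul, h3] at this
  have r2 : τ (τ l) = b * τ l := by
    have := congrArg τ r1
    rwa [map_mul, h3] at this
  have s1 : τ c * τ b = 1 := by rw [← map_mul, k0, map_one]
  have s2 : τ (τ c) * τ (τ b) = 1 := by rw [← map_mul, s1, map_one]
  have q := (pt25 h3).qs h1
  simp only [map_add, map_sub] at q
  rw [e0, e2, e5, e7] at q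
  simp [Bf, e] at q
  have hl1 : τ l ≠ 0 := (map_ne_zero τ).2 hl
  have hl2 : τ (τ l) ≠ 0 := (map_ne_zero τ).2 hl1
  have b0 : b = τ (τ l) / τ l := by rw [r2]; field_simp
  have b1 : τ b = l / τ (τ l) := by rw [eq_div_iff hl2]; exact r0.symm
  have b2 : τ (τ b) = τ l / l := by rw [eq_div_iff hl]; exact r1.symm
  have c0 : c = τ l / τ (τ l) := by
    rw [eq_div_iff hl2, r2]; linear_combination τ l * k0
  have c1 : τ c = τ (τ l) / l := by
    rw [eq_div_iff hl]; linear_combination τ c * r0 + τ (τ l) * s1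
  have c2 : τ (τ c) = l / τ l := by
    rw [eq_div_iff hl1]; linear_combination τ (τ c) * r1 + l * s2
  have key : (τ l ^ 2 - l ^ 2) * (τ (τ l) ^ 2 - l ^ 2) = 0 := by
    rw [c2, c1, b2, b1] at q
    rw [c0, b0] at q
    field_simp at q
    linear_combination -q
  have sq : τ l ^ 2 = l ^ 2 := by
    rcases mul_eq_zero.1 key with h | h
    · exact sub_eq_zero.1 h
    · have := congrArg τ (sub_eq_zero.1 h)
      rw [map_pow, map_pow, h3] at this
      exact this.symm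
  have fx : τ l = l := by
    rcases sq_eq_sq_iff_eq_or_eq_neg.1 sq with h | h
    · exact h
    · have := h3 l
      rw [h, map_neg, h, neg_neg, h] at this
      rw [h, this]
  have hb : b = 1 := by rw [b0, fx, fx]; exact div_self hl
  have hc : c = 1 := by rw [c0, fx, fx]; exact div_self hl
  subst hb hc
  simp only [map_one, one_smul, mul_one] at e0 e7 e2 e5
  exact ⟨fx, e5, e2, e0, e7⟩

theorem step5 {a : GO K} (ha : a ∈ tri τ) (h1 : QS τ a) {l : K} (hl : l ≠ 0)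
    (e1 : a (e 1) = l • e 3) (e6 : a (e 6) = (-l) • e 4) (e5 : a (e 5) = e 5) (e2 : a (e 2) = e 2)
    (e0 : a (e 0) = e 0) (e7 : a (e 7) = e 7) :
    a (e 3) = (-l⁻¹) • e 1 + (2 : K) • e 3 ∧ a (e 4) = (2 : K) • e 4 + l⁻¹ • e 6 := by
  have y0 := Bf_au h3 ha (e 3) (e 0)
  have y1 := Bf_au h3 ha (e 3) (e 1)
  have y2 := Bf_au h3 ha (e 3) (e 2)
  have y5 := Bf_au h3 ha (e 3) (e 5)
  have y6 := Bf_au h3 ha (e 3) (e 6)
  have y7 := Bf_au h3 ha (e 3) (e 7)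
  have x0 := Bf_au h3 ha (e 4) (e 0)
  have x1 := Bf_au h3 ha (e 4) (e 1)
  have x2 := Bf_au h3 ha (e 4) (e 2)
  have x5 := Bf_au h3 ha (e 4) (e 5)
  have x6 := Bf_au h3 ha (e 4) (e 6)
  have x7 := Bf_au h3 ha (e 4) (e 7)
  have n3 := Nf_au h3 ha (e 3)
  have n4 := Nf_au h3 ha (e 4)
  have xy := Bf_au h3 ha (e 3) (e 4)
  have q := (pt14 h3).qs h1
  simp only [map_add, map_sub] at q
  rw [e0] at y0 x0 q
  rw [e1] at y1 x1 q
  rw [e2] at y2 x2
  rw [e5] at y5 x5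
  rw [e6] at y6 x6
  rw [e7] at y7 x7 q
  generalize a (e 3) = y at *
  generalize a (e 4) = x at *
  simp [Bf, e, hl] at y0 y1 y2 y5 y6 y7 x0 x1 x2 x5 x6 x7
  have y1' : y 1 = -l⁻¹ := by field_simp; linear_combination y6
  have x6' : x 6 = l⁻¹ := by field_simp; linear_combination x1
  simp [Bf, Nf, e, hl, y0, y1, y2, y5, y7, x0, x2, x5, x6, x7, y1', x6'] at n3 n4 xy q
  have x4 : x 4 = 2 := by linear_combination q
  have y3 : y 3 = 2 := by
    rw [x4] at xy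
    field_simp at xy
    linear_combination -xy
  constructor <;> apply ext8 <;> simp [e, *]

theorem core {a : GO K} (ha : a ∈ tri τ) (h1 : QS τ a) {α β γ δ : K}
    (e1 : a (e 1) = α • e 3 + β • e 4) (e6 : a (e 6) = γ • e 3 + δ • e 4) :
    α ≠ 0 ∧ τ α = α ∧ Cj τ a (l12 α) := by
  obtain ⟨hl, e1, e6⟩ := step1 h3 h1 e1 e6
  obtain ⟨fx, e5, e2, e0, e7⟩ := step4 h3 ha h1 hl e1 e6
  obtain ⟨e3, e4⟩ := step5 h3 ha h1 hl e1 e6 e5 e2 e0 e7
  refine ⟨hl, fx, cy * l13 α⁻¹, mul_mem (cy_mem τ) (l13_mem (by rw [map_inv₀, fx])), ?_⟩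
  have k : ∀ x : O K, a x = ![x 0, -α⁻¹ * x 3, x 2, α * x 1 + 2 * x 3, 2 * x 4 - α * x 6, x 5,
      α⁻¹ * x 4, x 7] := fun x => by
    have hx : x = x 0 • e 0 + x 1 • e 1 + x 2 • e 2 + x 3 • e 3 + x 4 • e 4 + x 5 • e 5 +
        x 6 • e 6 + x 7 • e 7 := by apply ext8 <;> simp [e]
    conv_lhs => rw [hx]
    simp only [map_add, map_smul, e0, e1, e2, e3, e4, e5, e6, e7]
    apply ext8 <;> simp [e] <;> ring
  apply LinearEquiv.ext
  intro x
  rw [mul_inv_rev, l13_inv]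
  simp only [LinearEquiv.mul_apply]
  rw [k, cy_inv_apply]
  apply ext8 <;> simp [cy_apply, l13_apply, l12_apply] <;> field_simp <;> ring

end D

variable (h3 : ∀ t, τ (τ (τ t)) = t)
include h3

theorem QS_struct {a : GO K} (ha : a ∈ tri τ) (h1 : QS τ a) :
    a = 1 ∨ ∃ l : K, l ≠ 0 ∧ τ l = l ∧ Cj τ a (l12 l) := by
  by_cases h : DC τ a 0
  · exact Or.inl (triv_of h3 ha h1 h)
  · obtain ⟨a', α, β, γ, δ, hc, e1, e6⟩ := nf_line h3 ha h
    obtain ⟨k1, k2, k3⟩ := D.core h3 (hc.mem ha) (hc.QS h3 h1) e1 e6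
    exact Or.inr ⟨α, k1, k2, hc.trans k3⟩

end Pool.Agent.MP_db74b1_al.Lt.Tri
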